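import Pool.Agent.P.MP_40718a_co.U.Chk

/-! Balanced multisets of matchings of the reducer are sums of generators. -/

namespace Pool.Agent.P.MP_40718a_co.U

open List

/-- A packed list of numbers below 32. -/
noncomputable def dec (w : ℕ) : List ℕ :=
  Nat.rec [] (fun j ih => dig w (nat_lit 5) (Nat.succ j) :: ih) (Nat.mod w (nat_lit 32))

/-- Sum over a list. -/
noncomputable def sm (f : ℕ → ℕ) (l : List ℕ) : ℕ :=
  List.rec (nat_lit 0) (fun a _ ih => Nat.add (f a) ih) l

lemma sm_eq (f : ℕ → ℕ) (l : List ℕ) : sm f l = (l.map f).sum := by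
  induction l with
  | nil => rfl
  | cons a l ih => rw [map_cons, sum_cons, ← ih]; rfl

/-- Product of labels over a list. -/
noncomputable def pd (f : ℕ → ℕ) (l : List ℕ) : ℕ :=
  List.rec (nat_lit 1) (fun a _ ih => Nat.mul (pr (f a)) ih) l

lemma pd_eq (f : ℕ → ℕ) (l : List ℕ) : pd f l = ((l.map f).map pr).prod := by
  induction l with
  | nil => rfl
  | cons a l ih => rw [map_cons, map_cons, prod_cons, ← ih]; rfl

/-- Search trees. -/
inductive BB : Type
  | dom (g : ℕ) : BB
  | far (y z : ℕ) : BB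
  | nil : BB
  | br (p : ℕ) (l r : BB) : BB

/-- The reducer and the generators. -/
structure Rd where
  /-- number of matchings -/
  np : ℕ
  /-- number of points -/
  N : ℕ
  /-- matchings -/
  cr : ℕ → ℕ
  /-- number of generators -/
  nG : ℕ
  /-- generators -/
  G : ℕ → ℕ

namespace Rd
variable (D : Rd)

/-- One side of a linear identity. -/
noncomputable def sd (y z i : ℕ) : ℕ :=
  Nat.add (Nat.mul (nat_lit 3) (sm (bit (D.cr i)) (dec y))) (Nat.mod z (nat_lit 32))

/-- All branches close. -/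
noncomputable def ok (T : BB) : List ℕ → ℕ → Bool :=
  BB.rec
    (fun g acc _ => an (Nat.blt g D.nG) (Nat.beq (Nat.mod (pd id acc) (pd id (dec (D.G g)))) 0))
    (fun y z acc Av => an ((dec y ++ dec z).all fun e => Nat.blt e D.N)
      (an (Nat.blt (sm (D.sd z y) acc) (sm (D.sd y z) acc))
        (allB (fun i => Bool.rec (Nat.ble (D.sd z y i) (D.sd y z i)) true
          (Nat.beq (bit Av i) (nat_lit 0))) D.np)))
    (fun acc Av => an acc.isEmpty (Nat.beq Av (nat_lit 0)))
    (fun p _ _ l r acc Av => an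
      (force (Nat.xor Av (Nat.shiftLeft (nat_lit 1) p)) fun Av' => l acc Av') (r (p :: acc) Av)) T

/-- Balanced lists of level `c`. -/
def Bal (c : ℕ) (M : List ℕ) : Prop := (∀ i ∈ M, i < D.np) ∧ M.length = 3 * c ∧
  ∀ e < D.N, (M.map fun i => bit (D.cr i) e).sum = c

variable {D}

lemma length_dec (w : ℕ) : (dec w).length = w % 32 := by
  unfold dec
  change _ = Nat.mod w 32
  induction Nat.mod w (nat_lit 32) with
  | zero => rfl
  | succ n ih => exact congrArg (· + 1) ih

lemma mem_dec {w x : ℕ} : x ∈ dec w → x < 32 := by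
  unfold dec
  induction Nat.mod w (nat_lit 32) with
  | zero => simp
  | succ n ih =>
    intro h
    rcases mem_cons.1 h with rfl | h
    · exact Nat.mod_lt _ (by norm_num)
    · exact ih h

lemma Bal.sd {c : ℕ} {M : List ℕ} (h : D.Bal c M) {y : ℕ} (z : ℕ) (hy : ∀ e ∈ dec y, e < D.N) :
    (M.map (D.sd y z)).sum = 3 * c * (y % 32 + z % 32) := by
  have key : ∀ l : List ℕ, (∀ e ∈ l, e < D.N) →
      (M.map fun i => sm (bit (D.cr i)) l).sum = c * l.length := by
    intro l
    induction l with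
    | nil => simp [sm_eq]
    | cons e l ih =>
      intro hl
      simp only [sm_eq, map_cons, sum_cons, sum_map_add, length_cons] at ih ⊢
      rw [ih fun x hx => hl x (mem_cons_of_mem _ hx), h.2.2 e (hl e mem_cons_self)]
      ring
  change (M.map fun i => 3 * sm (bit (D.cr i)) (dec y) + z % 32).sum = _
  rw [sum_map_add, sum_map_mul_left, key _ hy, length_dec]
  simp only [map_const', sum_replicate, h.2.1, smul_eq_mul]
  ring

theorem ok_spec (hnp : D.np ≤ 512) {c : ℕ} {M : List ℕ} (h : D.Bal c M) (T : BB) :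
    ∀ acc Av rest, D.ok T acc Av = true → M.Perm (acc ++ rest) →
      (∀ i ∈ rest, Av.testBit i = true) → M = [] ∨ ∃ g < D.nG, ∃ M', M.Perm (dec (D.G g) ++ M') := by
  induction T with
  | dom g =>
    intro acc Av rest h1 h2 _
    change an _ _ = true at h1
    rw [an_eq, Nat.blt_eq, Nat.beq_eq, pd_eq, pd_eq, map_id, map_id] at h1
    obtain ⟨q, hq⟩ := Nat.dvd_of_mod_eq_zero h1.2
    obtain ⟨ys, zs, p, a1, -⟩ := split_pr acc (fun x hx =>
      (h.1 x (h2.mem_iff.2 (mem_append_left _ hx))).trans_le hnp) _ _ hq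
    have p2 := perm_of_pr a1 fun x hx => (mem_dec hx).trans (by norm_num)
    exact Or.inr ⟨g, h1.1, zs ++ rest, h2.trans (by
      rw [← append_assoc]; exact (p.trans (p2.append_right _)).append_right _)⟩
  | far y z =>
    intro acc Av rest h1 h2 h3
    change an _ (an _ _) = true at h1
    simp only [an_eq, all_eq_true, Nat.blt_eq, allB_spec, sm_eq, forall_mem_append] at h1
    obtain ⟨⟨a1, a2⟩, a3, a4⟩ := h1
    have b1 := h.sd z a1
    have b2 := h.sd y a2
    rw [(h2.map _).sum_eq, map_append, sum_append] at b1 b2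
    have b3 : (rest.map (D.sd z y)).sum ≤ (rest.map (D.sd y z)).sum := sum_le_sum fun i hi => by
      have := a4 i (h.1 i (h2.mem_iff.2 (mem_append_right _ hi)))
      rw [bit_eq, if_pos (h3 i hi)] at this
      exact Nat.le_of_ble_eq_true this
    rw [add_comm (z % 32)] at b2
    omega
  | nil =>
    intro acc Av rest h1 h2 h3
    change an _ _ = true at h1
    rw [an_eq, List.isEmpty_iff, Nat.beq_eq] at h1
    obtain ⟨rfl, rfl⟩ := h1
    cases rest with
    | nil => exact Or.inl h2.eq_nil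
    | cons a l => simpa using h3 a mem_cons_self
  | br p l r ihl ihr =>
    intro acc Av rest h1 h2 h3
    change an (force _ fun Av' => D.ok l acc Av') (D.ok r (p :: acc) Av) = true at h1
    rw [an_eq, force_eq] at h1
    by_cases hp : p ∈ rest
    · exact ihr _ _ (rest.erase p) h1.2
        (h2.trans (((perm_cons_erase hp).append_left acc).trans perm_middle))
        fun i hi => h3 i (mem_of_mem_erase hi)
    · refine ihl _ _ rest h1.1 h2 fun i hi => ?_
      have : p ≠ i := fun e => hp (e ▸ hi)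
      change (Av ^^^ 1 <<< p).testBit i = true
      simp [Nat.one_shiftLeft, this, h3 i hi]

/-- The level of a generator. -/
def lev (D : Rd) (g : ℕ) : ℕ := Nat.div (Nat.mod (D.G g) (nat_lit 32)) (nat_lit 3)

/-- The generator is balanced, of even level exactly below `a`. -/
noncomputable def genOK (D : Rd) (a g : ℕ) : Bool :=
  force (D.G g) fun w => force (D.lev g) fun c =>
    (dec w).all (fun i => Nat.blt i D.np) && Nat.beq (w % 32) (3 * c) && Nat.blt 0 c &&
      Nat.blt c 6 && (Nat.blt g a == Nat.beq (c % 2) 0) &&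
      allB (fun e => Nat.beq (sm (fun i => bit (D.cr i) e) (dec w)) c) D.N

lemma genOK_spec {a g : ℕ} (h : D.genOK a g = true) : D.Bal (D.lev g) (dec (D.G g)) ∧
    0 < D.lev g ∧ D.lev g < 6 ∧ (g < a ↔ D.lev g % 2 = 0) := by
  simp only [genOK, force_eq, Bool.and_eq_true, all_eq_true, Nat.blt_eq, Nat.beq_eq, allB_spec,
    sm_eq, beq_iff_eq] at h
  obtain ⟨⟨⟨⟨⟨h1, h2⟩, h3⟩, h4⟩, h5⟩, h6⟩ := h
  exact ⟨⟨h1, (length_dec _).trans h2, h6⟩, h3, h4, by rw [← Nat.blt_eq, h5, Nat.beq_eq]⟩

lemma Bal.sub {c c' : ℕ} {M A B : List ℕ} (h : D.Bal c M) (h' : D.Bal c' A) (p : M.Perm (A ++ B)) :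
    c' ≤ c ∧ D.Bal (c - c') B := by
  have a1 := p.length_eq
  rw [length_append, h.2.1, h'.2.1] at a1
  refine ⟨by omega, fun i hi => h.1 i (p.mem_iff.2 (mem_append_right _ hi)), by omega,
    fun e he => ?_⟩
  have := h.2.2 e he
  rw [(p.map _).sum_eq, map_append, sum_append, h'.2.2 e he] at this
  omega

theorem assemble (hnp : D.np ≤ 512) {T : BB} (hT : D.ok T [] (2 ^ D.np - 1) = true) {a b : ℕ}
    (hG : allB (D.genOK a) D.nG = true) {W : List ℕ → ℕ → Prop} (w0 : W [] 0)
    (wp : ∀ {x y c}, W x c → x.Perm y → W y c)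
    (wa : ∀ {x y c d}, W x c → W y d → W (x ++ y) (c + d))
    (h1 : ∀ g < b, g < D.nG → W (dec (D.G g)) (D.lev g))
    (h2 : ∀ g < D.nG, b ≤ g → ∀ o < D.nG, a ≤ o →
      W (dec (D.G g) ++ dec (D.G o)) (D.lev g + D.lev o)) (hab : a ≤ b) (c : ℕ) :
    ∀ M, D.Bal c M → (c % 2 = 0 → W M c) ∧
      (c % 2 = 1 → ∀ o < D.nG, a ≤ o → W (dec (D.G o) ++ M) (D.lev o + c)) := by
  induction c using Nat.strong_induction_on with
  | _ c ih =>
  intro M hM
  rcases ok_spec hnp hM T _ _ M hT (by simp) (fun i hi => by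
    simpa using hM.1 i hi) with rfl | ⟨g, hg, M', p⟩
  · obtain rfl : c = 0 := by have := hM.2.1; simp at this; omega
    exact ⟨fun _ => w0, by simp⟩
  obtain ⟨g1, g2, -, g3⟩ := genOK_spec (allB_spec.1 hG g hg)
  obtain ⟨c1, c2⟩ := hM.sub g1 p
  obtain ⟨i1, i2⟩ := ih _ (by omega) _ c2
  have e : D.lev g + (c - D.lev g) = c := by omega
  by_cases hga : g < a
  · have := g3.1 hga
    refine ⟨fun hc => wp (e ▸ wa (h1 g (by omega) hg) (i1 (by omega))) p.symm,
      fun hc o ho hao => ?_⟩
    have := wa (h1 g (by omega) hg) (i2 (by omega) o ho hao)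
    rw [← add_assoc, add_comm (D.lev g), add_assoc, e] at this
    exact wp this (perm_append_comm_assoc _ _ _ |>.trans (p.symm.append_left _))
  · have := mt g3.2 hga
    refine ⟨fun hc => wp (e ▸ i2 (by omega) g hg (by omega)) p.symm, fun hc o ho hao => ?_⟩
    have key : W (dec (D.G o) ++ dec (D.G g)) (D.lev o + D.lev g) := by
      by_cases b1 : b ≤ o
      · exact h2 o ho b1 g hg (by omega)
      by_cases b2 : b ≤ g
      · exact add_comm (D.lev g) _ ▸ wp (h2 g hg b2 o ho hao) perm_append_comm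
      · exact wa (h1 o (by omega) ho) (h1 g (by omega) hg)
    have := wa key (i1 (by omega))
    rw [add_assoc, e, append_assoc] at this
    exact wp this (p.symm.append_left _)

end Rd

/-- The roots are won. -/
noncomputable def rootsOK (T : T2) (D : Rd) (n a b : ℕ) (rw : ℕ → ℕ) : Bool :=
  allB (fun g => T.root n (pd (fun i => D.cr i % 2 ^ T.C.k) (dec (D.G g))) (D.lev g) (rw g)) b &&
    allB (fun g => allB (fun o => T.root n
      (Nat.mul (pd (fun i => D.cr i % 2 ^ T.C.k) (dec (D.G (b + g))))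
        (pd (fun i => D.cr i % 2 ^ T.C.k) (dec (D.G (a + o))))) (D.lev (b + g) + D.lev (a + o))
      (rw (b + g * (D.nG - a) + o))) (D.nG - a)) (D.nG - b)

theorem win_all {T : T2} {D : Rd} {N n a b : ℕ} (h : T.OK N n) (hnp : D.np ≤ 512) {B : BB}
    (hB : D.ok B [] (2 ^ D.np - 1) = true) (hG : allB (D.genOK a) D.nG = true) {rw : ℕ → ℕ}
    (hR : rootsOK T D n a b rw = true) (hab : a ≤ b) {Λ : Type} [AddCommMonoid Λ]
    (S : Sy T.C.k Λ) {c : ℕ} (hc : c % 2 = 0) {M : List ℕ} (hM : D.Bal c M) :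
    S.Win T.len T.cd (fun i (j : Fin T.m) => bit (T.cd i) (T.F j))
      (M.map fun i => D.cr i % 2 ^ T.C.k) (fun _ => c) := by
  simp only [rootsOK, Bool.and_eq_true, allB_spec, pd_eq] at hR
  have hx : ∀ l : List ℕ, ∀ x ∈ l.map fun i => D.cr i % 2 ^ T.C.k, x < 512 := by
    intro l x hx
    obtain ⟨i, -, rfl⟩ := mem_map.1 hx
    exact (Nat.mod_lt _ (by positivity)).trans_le (Nat.pow_le_pow_right (by norm_num) h.k)
  refine (Rd.assemble hnp hB hG (W := fun M c => S.Win T.len T.cd
    (fun i (j : Fin T.m) => bit (T.cd i) (T.F j)) (M.map fun i => D.cr i % 2 ^ T.C.k) (fun _ => c))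
    Sy.win_nil (fun h p => h.perm (p.map _)) (fun h h' => by
      rw [map_append]; exact h.append h') (fun g hg hg' => ?_) (fun g hg hb o ho ha => ?_)
    hab c M hM).1 hc
  · obtain ⟨g1, -, g2, -⟩ := Rd.genOK_spec (allB_spec.1 hG g hg')
    exact T2.root_spec h (hx _) (by rw [length_map, g1.2.1]; omega) (by omega) (hR.1 g hg)
  · obtain ⟨g1, -, g2, -⟩ := Rd.genOK_spec (allB_spec.1 hG g hg)
    obtain ⟨o1, -, o2, -⟩ := Rd.genOK_spec (allB_spec.1 hG o ho)
    have := hR.2 (g - b) (by omega) (o - a) (by omega)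
    rw [Nat.add_sub_cancel' hb, Nat.add_sub_cancel' ha] at this
    exact T2.root_spec h (hx _) (by rw [length_map, length_append, g1.2.1, o1.2.1]; omega)
      (by omega) (by rw [map_append, map_append, prod_append]; exact this)

end Pool.Agent.P.MP_40718a_co.U
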