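import Pool.Agent.P.MP_40718a_co.U.Lev
import Pool.Agent.P.MP_303500_co.Edmonds

/-! One level that serves all small graphs. -/

namespace Pool.Agent.P.MP_40718a_co

open MP_303500_co

namespace DG
variable {V : Type} {G : DG V}

lemma CoverK.mul {K : ℕ} (h : G.CoverK K) (c : ℕ) : G.CoverK (c * K) := by
  obtain ⟨L, h1, h2, h3⟩ := h
  induction c with
  | zero => exact ⟨[], by simp, by simp, by simp⟩
  | succ c ih =>
    obtain ⟨L', a1, a2, a3⟩ := ih
    refine ⟨L' ++ L, by rw [List.length_append, a1, h1]; ring, List.forall_mem_append.2 ⟨a2, h2⟩,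
      fun d => by rw [List.countP_append, a3, h3]; ring⟩

lemma CoverK.map {W : Type} {H : DG W} (e : W → V)
    (he : ∀ d : W × Fin 3, G.σ (e d.1, d.2) = (e (H.σ d).1, (H.σ d).2)) {K : ℕ} (h : G.CoverK K) :
    H.CoverK K := by
  obtain ⟨L, h1, h2, h3⟩ := h
  refine ⟨L.map (· ∘ e), by simp [h1], fun m hm d hd => ?_, fun d => ?_⟩
  · obtain ⟨m, hm', rfl⟩ := List.mem_map.1 hm
    have := h2 m hm' (e d.1, d.2) hd
    rwa [he] at this
  · rw [List.countP_map, ← h3 (e d.1, d.2)]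
    rfl

lemma exists_coverK [Fintype V] [Nonempty V] (hB : G.Bridgeless) (hM : G.NoMulti) :
    ∃ K, 0 < K ∧ G.CoverK K := by
  classical
  let m : V → V → ℕ := fun u v => if G.Adj u v then 1 else 0
  have key : ∀ u (f : V → ℕ), ∑ v, m u v * f v = ∑ i, f (G.σ (u, i)).1 := fun u f =>
    (Fintype.sum_of_injective (fun i => (G.σ (u, i)).1) (hM u) _ _
      (fun v hv => by simp [m, show ¬ G.Adj u v from hv])
      (fun i => by simp [m, show G.Adj u (G.σ (u, i)).1 from ⟨i, rfl⟩])).symm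
  have hR : Reg 3 m := ⟨fun u v => if_congr ⟨Adj.symm, Adj.symm⟩ rfl rfl,
    fun u => if_neg fun ⟨i, hi⟩ => noLoop hB (u, i) hi, fun u => by simpa using key u fun _ => 1⟩
  have hc : ∀ T : Finset V, MP_303500_co.cut m T = G.cut T := by
    intro T
    unfold MP_303500_co.cut DG.cut
    rw [Fintype.sum_prod_type, ← Finset.sum_filter_add_sum_filter_not Finset.univ (· ∈ T),
      Finset.sum_eq_zero (s := Finset.univ.filter fun x => ¬ x ∈ T) (fun u hu =>
        Finset.sum_eq_zero fun i _ => ind_neg (by simp_all)), add_zero]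
    refine Finset.sum_congr (by simp) fun u hu => ?_
    have := key u fun v => if v ∈ T then 0 else 1
    rw [← Finset.sum_add_sum_compl T, Finset.sum_eq_zero (fun v hv => by simp [hv]), zero_add,
      Finset.sum_congr rfl (g := m u) (fun v hv => by simp_all)] at this
    rw [this]
    refine Finset.sum_congr rfl fun i _ => ?_
    by_cases c : (G.σ (u, i)).1 ∈ T
    · rw [if_pos c, ind_neg (by simp [c])]
    · rw [if_neg c, ind_pos (by simp_all)]
  obtain ⟨K, hK, Ms, h1, h2⟩ := edmonds _ V rfl 3 m hR fun T hT => by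
    have a1 := hR.inner_add_cut T
    obtain ⟨a, a2⟩ := hR.even_inner T
    obtain ⟨b, a3⟩ := hT
    have := hB T
    rw [← hc] at this
    omega
  let pm : (V → V) → V → Fin 3 := fun τ u => if h : G.Adj u (τ u) then h.choose else 0
  have hp : ∀ τ ∈ Ms, ∀ u i, pm τ u = i ↔ τ u = (G.σ (u, i)).1 := by
    intro τ hτ u i
    have a1 : G.Adj u (τ u) := by
      by_contra c
      have := (cnt_pos (u := u)).2 ⟨τ, hτ, rfl⟩
      rw [← h2] at this
      simp [m, c] at this
    simp only [pm, a1, dite_true]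
    exact ⟨fun h => by rw [← h, a1.choose_spec], fun h => hM u _ _ (a1.choose_spec.trans h)⟩
  refine ⟨K, hK, Ms.toList.map pm, ?_, fun x hx d hd => ?_, fun d => ?_⟩
  · obtain ⟨u⟩ := ‹Nonempty V›
    rw [List.length_map, Multiset.length_toList, ← sum_cnt Ms u, mul_comm, ← (hR.mul K).deg u]
    exact Finset.sum_congr rfl fun v _ => (h2 u v).symm
  · obtain ⟨τ, hτ, rfl⟩ := List.mem_map.1 hx
    rw [Multiset.mem_toList] at hτ
    rw [hp τ hτ] at hd ⊢
    rw [show G.σ ((G.σ d).1, (G.σ d).2) = d from G.inv d, ← hd, (h1 τ hτ _).1]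
  · have := h2 d.1 (G.σ d).1
    simp only [m, show G.Adj d.1 (G.σ d).1 from ⟨d.2, rfl⟩, if_true, mul_one] at this
    rw [List.countP_map, this, cnt, ← Multiset.coe_toList Ms, Multiset.coe_countP,
      Multiset.coe_toList]
    exact List.countP_congr fun τ hτ => by simp [hp τ (Multiset.mem_toList.1 hτ)]

theorem uniform (B : ℕ) : ∃ K, 0 < K ∧ K % 2 = 0 ∧ ∀ (W : Type) [Fintype W] [Nonempty W]
    (H : DG W), Fintype.card W ≤ B → H.Bridgeless → H.NoMulti → H.CoverK K := by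
  classical
  have fin : ∀ n, Finite (DG (Fin n)) := fun n => Finite.of_injective DG.σ (by
    rintro ⟨a, _, _⟩ ⟨b, _, _⟩ h
    cases h
    rfl)
  let _ := Fintype.ofFinite (Σ n : Fin (B + 1), DG (Fin n))
  have : ∀ x : Σ n : Fin (B + 1), DG (Fin n), ∃ K, 0 < K ∧
      ((∃ K, 0 < K ∧ x.2.CoverK K) → x.2.CoverK K) := fun x => by
    by_cases c : ∃ K, 0 < K ∧ x.2.CoverK K
    · obtain ⟨K, h1, h2⟩ := c
      exact ⟨K, h1, fun _ => h2⟩
    · exact ⟨1, one_pos, fun h => absurd h c⟩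
  choose f f1 f2 using this
  refine ⟨2 * ∏ x, f x, by have := Finset.prod_pos fun x (_ : x ∈ Finset.univ) => f1 x; omega,
    by omega, fun W _ _ H hW hB hM => ?_⟩
  let e := Fintype.equivFin W
  let H' : DG (Fin (Fintype.card W)) := ⟨fun d => (e (H.σ (e.symm d.1, d.2)).1,
    (H.σ (e.symm d.1, d.2)).2), fun d => by simp [H.inv], fun d h => H.ne (e.symm d.1, d.2) (by
      rw [Prod.ext_iff] at h ⊢
      exact ⟨e.eq_symm_apply.2 h.1, h.2⟩)⟩
  obtain ⟨K, h1, h2⟩ := exists_coverK hB hM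
  have h3 := f2 ⟨⟨_, Nat.lt_succ_of_le hW⟩, H'⟩ ⟨K, h1, h2.map e.symm fun d => by simp [H']⟩
  obtain ⟨c, hc⟩ := Finset.dvd_prod_of_mem f (Finset.mem_univ ⟨⟨_, Nat.lt_succ_of_le hW⟩, H'⟩)
  rw [hc, mul_comm _ c, ← mul_assoc]
  exact (h3.map e fun d => by simp [H']).mul _

lemma Fam.mono {N N' : ℕ} (h : G.Fam N) (hN : N ≤ N') : G.Fam N' := by
  obtain ⟨I, ℓ, r, φ, a1, a2⟩ := h
  exact ⟨I, ℓ, r, fun x => (φ x).castLE hN, a1, fun x y hx hy e =>
    a2 x y hx hy (Fin.castLE_injective hN e)⟩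

end DG

end Pool.Agent.P.MP_40718a_co
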