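import Pool.Agent.P.MP_40718a_co.Count
import Pool.Agent.P.MP_40718a_co.GraphsF

/-! The counting argument with weights on flags. -/

namespace Pool.Agent.P.MP_40718a_co

open Function

/-- edge list -/
def m565E : List (ℕ × ℕ) := [(0, 1), (1, 2), (2, 3), (3, 4), (4, 5), (5, 0), (0, 6), (6, 7), (7, 8),
  (8, 1), (3, 9), (9, 10), (10, 11), (11, 2)]

/-- The forbidden graphs. -/
def forbU : List (ℕ × List (ℕ × ℕ)) := [(3, c3E), (4, c4E), (7, t233E), (8, t144E), (8, t234E),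
  (8, t333E), (9, t244E), (9, t334E), (12, p566E), (13, p666E), (12, m565E)]

/-- The same with the star. -/
def forbS : List (ℕ × List (ℕ × ℕ)) := forbU ++ [(5, [(0, 1), (0, 2), (0, 3), (0, 4)])]

/-- decision tree -/
def ut55 : DT := (.br 1 11 (.leaf [0, 0, 1, 12])
  (.br 1 10 (.leaf [0, 0, 1, 4])
  (.br 2 12 (.leaf [0, 0, 1, 2])
  (.br 2 11 (.leaf [1, 0, 1, 2, 12])
  (.br 2 10 (.leaf [0, 2, 3, 4])
  (.br 3 12 (.leaf [0, 0, 3, 4])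
  (.br 3 11 (.leaf [0, 3, 4, 10])
  (.br 3 10 (.leaf [2, 0, 3, 4, 1, 2, 12, 11])
  (.leaf [3, 0, 4, 1, 2, 3, 12, 11, 10])))))))))

/-- decision tree -/
def ut566 : DT := (.br 1 10 (.leaf [0, 0, 1, 4])
  (.br 1 11 (.leaf [1, 0, 1, 10, 4])
  (.br 1 12 (.leaf [0, 0, 1, 13])
  (.br 4 20 (.leaf [0, 0, 1, 4])
  (.br 4 19 (.leaf [1, 0, 1, 20, 4])
  (.br 4 18 (.leaf [0, 0, 4, 13])
  (.br 13 2 (.leaf [0, 0, 1, 13])
  (.br 13 3 (.leaf [0, 0, 13, 4])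
  (.br 2 20 (.br 3 18 (.leaf [0, 2, 3, 19])
  (.br 3 19 (.leaf [2, 0, 3, 4, 1, 2, 13, 18])
  (.leaf [4, 0, 2, 1, 4, 3, 13, 18, 19])))
  (.br 2 19 (.leaf [0, 1, 2, 20])
  (.br 2 18 (.leaf [1, 0, 1, 2, 13])
  (.br 2 10 (.leaf [0, 2, 3, 4])
  (.br 2 11 (.leaf [2, 0, 2, 1, 4, 10, 13, 12])
  (.br 2 12 (.leaf [1, 0, 1, 2, 13])
  (.br 3 20 (.leaf [0, 1, 2, 3])
  (.br 3 19 (.leaf [1, 1, 2, 3, 20])
  (.br 3 18 (.leaf [1, 0, 4, 3, 13])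
  (.br 3 10 (.leaf [4, 0, 3, 4, 1, 2, 13, 12, 11])
  (.br 3 11 (.leaf [0, 3, 4, 10])
  (.br 3 12 (.leaf [1, 0, 4, 3, 13])
  (.br 20 10 (.leaf [1, 0, 1, 20, 4])
  (.br 20 11 (.leaf [2, 0, 20, 1, 4, 10, 13, 12])
  (.br 20 12 (.leaf [1, 0, 1, 20, 13])
  (.br 19 10 (.leaf [2, 0, 19, 4, 1, 20, 13, 18])
  (.br 19 11 (.leaf [4, 1, 4, 0, 2, 3, 20, 19, 10])
  (.br 19 12 (.leaf [0, 19, 13, 18])
  (.br 18 10 (.leaf [1, 0, 4, 18, 13])
  (.br 18 11 (.leaf [0, 18, 12, 13])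
  (.br 18 12 (.leaf [6, 0, 18, 13, 1, 20, 19, 4, 10, 11])
  (.leaf [8, 0, 1, 4, 13, 2, 3, 20, 19, 18, 10, 11, 12]))))))))))))))))))))))))))))))

/-- decision tree -/
def ut666 : DT := (.br 1 10 (.leaf [0, 0, 1, 5])
  (.br 1 11 (.leaf [1, 0, 1, 10, 5])
  (.br 1 12 (.leaf [0, 0, 1, 13])
  (.br 5 20 (.leaf [0, 0, 1, 5])
  (.br 5 19 (.leaf [1, 0, 1, 20, 5])
  (.br 5 18 (.leaf [0, 0, 5, 13])
  (.br 13 2 (.leaf [0, 0, 1, 13])
  (.br 13 3 (.leaf [1, 0, 1, 2, 13])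
  (.br 13 4 (.leaf [0, 0, 13, 5])
  (.br 2 20 (.br 4 18 (.leaf [1, 0, 5, 4, 13])
  (.br 4 19 (.leaf [0, 2, 3, 4])
  (.br 3 18 (.leaf [0, 2, 3, 19])
  (.br 3 19 (.leaf [5, 0, 3, 1, 2, 5, 4, 13, 18])
  (.leaf [6, 0, 2, 1, 5, 4, 3, 13, 18, 19])))))
  (.br 2 19 (.leaf [0, 1, 2, 20])
  (.br 2 18 (.leaf [1, 0, 1, 2, 13])
  (.br 2 10 (.leaf [1, 0, 1, 2, 5])
  (.br 2 11 (.leaf [2, 0, 2, 1, 5, 10, 13, 12])
  (.br 2 12 (.leaf [1, 0, 1, 2, 13])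
  (.br 3 20 (.leaf [0, 1, 2, 3])
  (.br 3 19 (.leaf [1, 1, 2, 3, 20])
  (.br 3 18 (.leaf [2, 0, 3, 13, 1, 2, 5, 4])
  (.br 3 10 (.leaf [0, 3, 4, 5])
  (.br 3 11 (.leaf [5, 0, 3, 1, 2, 5, 10, 13, 12])
  (.br 3 12 (.leaf [2, 0, 3, 13, 1, 2, 5, 4])
  (.br 4 20 (.leaf [1, 0, 1, 4, 5])
  (.br 4 19 (.leaf [2, 0, 4, 5, 1, 20, 13, 18])
  (.br 4 18 (.leaf [1, 0, 5, 4, 13])
  (.br 4 10 (.leaf [6, 0, 4, 5, 1, 2, 3, 13, 12, 11])
  (.br 4 11 (.leaf [0, 4, 5, 10])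
  (.br 4 12 (.leaf [1, 0, 5, 4, 13])
  (.br 20 10 (.leaf [1, 0, 1, 20, 5])
  (.br 20 11 (.leaf [2, 0, 20, 1, 5, 10, 13, 12])
  (.br 20 12 (.leaf [1, 0, 1, 20, 13])
  (.br 19 10 (.leaf [2, 0, 19, 5, 1, 20, 13, 18])
  (.br 19 11 (.leaf [5, 0, 19, 1, 20, 5, 10, 13, 12])
  (.br 19 12 (.leaf [0, 19, 13, 18])
  (.br 18 10 (.leaf [1, 0, 5, 18, 13])
  (.br 18 11 (.leaf [0, 18, 12, 13])
  (.br 18 12 (.leaf [6, 0, 18, 13, 1, 20, 19, 5, 10, 11])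
  (.leaf [9, 0, 1, 5, 13, 2, 3, 4, 20, 19, 18, 10, 11, 12])))))))))))))))))))))))))))))))))))))

/-- decision tree -/
def ut565 : DT := (.br 5 9 (.br 2 17 (.br 0 18 (.leaf [0, 0, 1, 2])
  (.br 5 18 (.leaf [1, 0, 1, 2, 5])
  (.br 4 18 (.leaf [0, 2, 3, 4])
  (.br 3 18 (.br 0 19 (.leaf [0, 0, 1, 20])
  (.br 5 20 (.leaf [0, 0, 1, 5])
  (.br 5 19 (.leaf [0, 3, 4, 5])
  (.br 4 20 (.leaf [0, 3, 4, 19])
  (.br 4 19 (.leaf [2, 1, 4, 20, 0, 5, 2, 3])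
  (.leaf [4, 1, 3, 2, 20, 19, 0, 5, 4]))))))
  (.br 0 19 (.leaf [0, 0, 1, 20])
  (.br 5 19 (.leaf [1, 0, 1, 20, 5])
  (.br 4 19 (.leaf [1, 2, 3, 4, 18])
  (.br 3 19 (.leaf [0, 2, 3, 18])
  (.br 5 20 (.leaf [0, 0, 1, 5])
  (.br 4 20 (.leaf [1, 0, 1, 4, 5])
  (.br 3 20 (.leaf [0, 1, 2, 3])
  (.br 2 10 (.leaf [1, 0, 1, 2, 5])
  (.br 1 10 (.leaf [0, 0, 1, 5])
  (.br 4 10 (.br 1 11 (.leaf [0, 0, 1, 12])
  (.br 2 12 (.leaf [0, 0, 1, 2])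
  (.br 2 11 (.leaf [0, 2, 3, 4])
  (.br 3 12 (.leaf [0, 3, 4, 11])
  (.br 3 11 (.leaf [2, 0, 3, 12, 1, 2, 5, 4])
  (.leaf [4, 0, 4, 5, 12, 11, 1, 2, 3]))))))
  (.br 3 10 (.leaf [0, 3, 4, 5])
  (.br 10 18 (.leaf [2, 1, 10, 2, 0, 5, 20, 19])
  (.br 10 19 (.leaf [2, 1, 10, 20, 0, 5, 2, 18])
  (.br 10 20 (.leaf [1, 0, 1, 10, 5])
  (.br 2 11 (.leaf [1, 0, 1, 2, 12])
  (.br 1 11 (.leaf [0, 0, 1, 12])
  (.br 4 11 (.leaf [0, 4, 5, 10])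
  (.br 3 11 (.leaf [1, 3, 4, 5, 10])
  (.br 11 18 (.leaf [4, 1, 11, 2, 20, 19, 0, 5, 10])
  (.br 11 19 (.leaf [4, 1, 11, 20, 2, 18, 0, 5, 10])
  (.br 11 20 (.leaf [1, 0, 1, 11, 12])
  (.br 2 12 (.leaf [0, 0, 1, 2])
  (.br 4 12 (.leaf [0, 0, 4, 5])
  (.br 3 12 (.leaf [1, 0, 1, 2, 3])
  (.br 12 18 (.leaf [1, 0, 1, 2, 12])
  (.br 12 19 (.leaf [1, 0, 1, 20, 12])
  (.br 12 20 (.leaf [0, 0, 1, 12])
  (.leaf [10, 2, 1, 0, 5, 4, 3, 18, 19, 20, 10, 11, 12]))))))))))))))))))))))))))))))))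
  (.br 2 20 (.br 0 19 (.leaf [0, 0, 1, 2])
  (.br 5 19 (.leaf [1, 0, 1, 2, 5])
  (.br 4 19 (.leaf [0, 2, 3, 4])
  (.br 3 19 (.br 0 18 (.leaf [0, 0, 1, 17])
  (.br 5 17 (.leaf [0, 0, 1, 5])
  (.br 5 18 (.leaf [0, 3, 4, 5])
  (.br 4 17 (.leaf [0, 3, 4, 18])
  (.br 4 18 (.leaf [2, 1, 4, 17, 0, 5, 2, 3])
  (.leaf [4, 1, 3, 2, 17, 18, 0, 5, 4]))))))
  (.br 0 18 (.leaf [0, 0, 1, 17])
  (.br 5 18 (.leaf [1, 0, 1, 17, 5])
  (.br 4 18 (.leaf [1, 2, 3, 4, 19])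
  (.br 3 18 (.leaf [0, 2, 3, 19])
  (.br 5 17 (.leaf [0, 0, 1, 5])
  (.br 4 17 (.leaf [1, 0, 1, 4, 5])
  (.br 3 17 (.leaf [0, 1, 2, 3])
  (.br 2 10 (.leaf [1, 0, 1, 2, 5])
  (.br 1 10 (.leaf [0, 0, 1, 5])
  (.br 4 10 (.br 1 11 (.leaf [0, 0, 1, 12])
  (.br 2 12 (.leaf [0, 0, 1, 2])
  (.br 2 11 (.leaf [0, 2, 3, 4])
  (.br 3 12 (.leaf [0, 3, 4, 11])
  (.br 3 11 (.leaf [2, 0, 3, 12, 1, 2, 5, 4])
  (.leaf [4, 0, 4, 5, 12, 11, 1, 2, 3]))))))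
  (.br 3 10 (.leaf [0, 3, 4, 5])
  (.br 10 19 (.leaf [2, 1, 10, 2, 0, 5, 17, 18])
  (.br 10 18 (.leaf [2, 1, 10, 17, 0, 5, 2, 19])
  (.br 10 17 (.leaf [1, 0, 1, 10, 5])
  (.br 2 11 (.leaf [1, 0, 1, 2, 12])
  (.br 1 11 (.leaf [0, 0, 1, 12])
  (.br 4 11 (.leaf [0, 4, 5, 10])
  (.br 3 11 (.leaf [1, 3, 4, 5, 10])
  (.br 11 19 (.leaf [4, 1, 11, 2, 17, 18, 0, 5, 10])
  (.br 11 18 (.leaf [4, 1, 11, 17, 2, 19, 0, 5, 10])
  (.br 11 17 (.leaf [1, 0, 1, 11, 12])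
  (.br 2 12 (.leaf [0, 0, 1, 2])
  (.br 4 12 (.leaf [0, 0, 4, 5])
  (.br 3 12 (.leaf [1, 0, 1, 2, 3])
  (.br 12 19 (.leaf [1, 0, 1, 2, 12])
  (.br 12 18 (.leaf [1, 0, 1, 17, 12])
  (.br 12 17 (.leaf [0, 0, 1, 12])
  (.leaf [10, 2, 1, 0, 5, 4, 3, 19, 18, 17, 10, 11, 12]))))))))))))))))))))))))))))))))
  (.leaf [11, 1, 0, 2, 17, 20])))
  (.br 5 12 (.br 2 17 (.br 0 18 (.leaf [0, 0, 1, 2])
  (.br 5 18 (.leaf [1, 0, 1, 2, 5])
  (.br 4 18 (.leaf [0, 2, 3, 4])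
  (.br 3 18 (.br 0 19 (.leaf [0, 0, 1, 20])
  (.br 5 20 (.leaf [0, 0, 1, 5])
  (.br 5 19 (.leaf [0, 3, 4, 5])
  (.br 4 20 (.leaf [0, 3, 4, 19])
  (.br 4 19 (.leaf [2, 1, 4, 20, 0, 5, 2, 3])
  (.leaf [4, 1, 3, 2, 20, 19, 0, 5, 4]))))))
  (.br 0 19 (.leaf [0, 0, 1, 20])
  (.br 5 19 (.leaf [1, 0, 1, 20, 5])
  (.br 4 19 (.leaf [1, 2, 3, 4, 18])
  (.br 3 19 (.leaf [0, 2, 3, 18])
  (.br 5 20 (.leaf [0, 0, 1, 5])
  (.br 4 20 (.leaf [1, 0, 1, 4, 5])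
  (.br 3 20 (.leaf [0, 1, 2, 3])
  (.br 2 11 (.leaf [1, 0, 1, 2, 5])
  (.br 1 11 (.leaf [0, 0, 1, 5])
  (.br 4 11 (.br 1 10 (.leaf [0, 0, 1, 9])
  (.br 2 9 (.leaf [0, 0, 1, 2])
  (.br 2 10 (.leaf [0, 2, 3, 4])
  (.br 3 9 (.leaf [0, 3, 4, 10])
  (.br 3 10 (.leaf [2, 0, 3, 9, 1, 2, 5, 4])
  (.leaf [4, 0, 4, 5, 9, 10, 1, 2, 3]))))))
  (.br 3 11 (.leaf [0, 3, 4, 5])
  (.br 11 18 (.leaf [2, 1, 11, 2, 0, 5, 20, 19])
  (.br 11 19 (.leaf [2, 1, 11, 20, 0, 5, 2, 18])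
  (.br 11 20 (.leaf [1, 0, 1, 11, 5])
  (.br 2 10 (.leaf [1, 0, 1, 2, 9])
  (.br 1 10 (.leaf [0, 0, 1, 9])
  (.br 4 10 (.leaf [0, 4, 5, 11])
  (.br 3 10 (.leaf [1, 3, 4, 5, 11])
  (.br 10 18 (.leaf [4, 1, 10, 2, 20, 19, 0, 5, 11])
  (.br 10 19 (.leaf [4, 1, 10, 20, 2, 18, 0, 5, 11])
  (.br 10 20 (.leaf [1, 0, 1, 10, 9])
  (.br 2 9 (.leaf [0, 0, 1, 2])
  (.br 4 9 (.leaf [0, 0, 4, 5])
  (.br 3 9 (.leaf [1, 0, 1, 2, 3])
  (.br 9 18 (.leaf [1, 0, 1, 2, 9])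
  (.br 9 19 (.leaf [1, 0, 1, 20, 9])
  (.br 9 20 (.leaf [0, 0, 1, 9])
  (.leaf [10, 2, 1, 0, 5, 4, 3, 18, 19, 20, 11, 10, 9]))))))))))))))))))))))))))))))))
  (.br 2 20 (.br 0 19 (.leaf [0, 0, 1, 2])
  (.br 5 19 (.leaf [1, 0, 1, 2, 5])
  (.br 4 19 (.leaf [0, 2, 3, 4])
  (.br 3 19 (.br 0 18 (.leaf [0, 0, 1, 17])
  (.br 5 17 (.leaf [0, 0, 1, 5])
  (.br 5 18 (.leaf [0, 3, 4, 5])
  (.br 4 17 (.leaf [0, 3, 4, 18])
  (.br 4 18 (.leaf [2, 1, 4, 17, 0, 5, 2, 3])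
  (.leaf [4, 1, 3, 2, 17, 18, 0, 5, 4]))))))
  (.br 0 18 (.leaf [0, 0, 1, 17])
  (.br 5 18 (.leaf [1, 0, 1, 17, 5])
  (.br 4 18 (.leaf [1, 2, 3, 4, 19])
  (.br 3 18 (.leaf [0, 2, 3, 19])
  (.br 5 17 (.leaf [0, 0, 1, 5])
  (.br 4 17 (.leaf [1, 0, 1, 4, 5])
  (.br 3 17 (.leaf [0, 1, 2, 3])
  (.br 2 11 (.leaf [1, 0, 1, 2, 5])
  (.br 1 11 (.leaf [0, 0, 1, 5])
  (.br 4 11 (.br 1 10 (.leaf [0, 0, 1, 9])
  (.br 2 9 (.leaf [0, 0, 1, 2])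
  (.br 2 10 (.leaf [0, 2, 3, 4])
  (.br 3 9 (.leaf [0, 3, 4, 10])
  (.br 3 10 (.leaf [2, 0, 3, 9, 1, 2, 5, 4])
  (.leaf [4, 0, 4, 5, 9, 10, 1, 2, 3]))))))
  (.br 3 11 (.leaf [0, 3, 4, 5])
  (.br 11 19 (.leaf [2, 1, 11, 2, 0, 5, 17, 18])
  (.br 11 18 (.leaf [2, 1, 11, 17, 0, 5, 2, 19])
  (.br 11 17 (.leaf [1, 0, 1, 11, 5])
  (.br 2 10 (.leaf [1, 0, 1, 2, 9])
  (.br 1 10 (.leaf [0, 0, 1, 9])
  (.br 4 10 (.leaf [0, 4, 5, 11])
  (.br 3 10 (.leaf [1, 3, 4, 5, 11])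
  (.br 10 19 (.leaf [4, 1, 10, 2, 17, 18, 0, 5, 11])
  (.br 10 18 (.leaf [4, 1, 10, 17, 2, 19, 0, 5, 11])
  (.br 10 17 (.leaf [1, 0, 1, 10, 9])
  (.br 2 9 (.leaf [0, 0, 1, 2])
  (.br 4 9 (.leaf [0, 0, 4, 5])
  (.br 3 9 (.leaf [1, 0, 1, 2, 3])
  (.br 9 19 (.leaf [1, 0, 1, 2, 9])
  (.br 9 18 (.leaf [1, 0, 1, 17, 9])
  (.br 9 17 (.leaf [0, 0, 1, 9])
  (.leaf [10, 2, 1, 0, 5, 4, 3, 19, 18, 17, 11, 10, 9]))))))))))))))))))))))))))))))))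
  (.leaf [11, 1, 0, 2, 17, 20])))
  (.leaf [11, 0, 1, 5, 9, 12])))

/-- Weight of a cycle length. -/
def wt7 (L : ℕ) : ℕ := 840 / min L 7

lemma wt7_mul (L : ℕ) (h : 0 < L) : 840 ≤ L * wt7 L := by
  unfold wt7
  by_cases c : L < 7
  · interval_cases L <;> simp
  · rw [min_eq_right (by omega)]; omega

/-- Weight of a flag. -/
def hh (p q r : ℕ) : ℕ :=
  if p = 5 then 84 else if p = 6 then 70 else if q ≠ 6 then 60 else if r = 5 then 51 else 69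

lemma hh_le (p q r : ℕ) : hh p q r ≤ 84 := by
  unfold hh
  split_ifs <;> omega

lemma hh_edge {p q r r' : ℕ} (h : 5 ≤ p) (h' : q = 6 → r = 5 → r' = 5 → False) :
    wt7 p ≤ hh p q r + hh p q r' := by
  unfold hh wt7
  by_cases c : p < 7
  · interval_cases p <;> simp
  · have e5 : p ≠ 5 := by omega
    have e6 : p ≠ 6 := by omega
    rw [min_eq_right (by omega)]
    by_cases c1 : q = 6 <;> by_cases c2 : r = 5 <;> by_cases c3 : r' = 5 <;>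
      first | exact (h' c1 c2 c3).elim | simp [e5, e6, c1, c2, c3]

lemma hh_vtx {a b c : ℕ} (h1 : ¬ (a = 5 ∧ b = 5)) (h2 : ¬ (b = 5 ∧ c = 5)) (h3 : ¬ (c = 5 ∧ a = 5))
    (h4 : ¬ (a = 5 ∧ b = 6 ∧ c = 6)) (h5 : ¬ (a = 6 ∧ b = 5 ∧ c = 6))
    (h6 : ¬ (a = 6 ∧ b = 6 ∧ c = 5)) (h7 : ¬ (a = 6 ∧ b = 6 ∧ c = 6)) :
    hh a c b + hh a b c + hh b a c + hh b c a + hh c b a + hh c a b ≤ 419 := by
  unfold hh
  by_cases a5 : a = 5 <;> by_cases a6 : a = 6 <;> by_cases b5 : b = 5 <;> by_cases b6 : b = 6 <;>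
    by_cases c5 : c = 5 <;> by_cases c6 : c = 6 <;> first | omega | simp [a5, a6, b5, b6, c5, c6]

namespace DG
variable {V : Type} [Fintype V] {G : DG V}

omit [Fintype V] in
lemma Cyc.mid {F : List (ℕ × List (ℕ × ℕ))} (hF : ∀ H ∈ F, ¬ G.Cont H) {a b c p q p' q' : V}
    (ha : G.Cyc a b c 6) (hb : G.Cyc a p q 5) (h1 : p ≠ b) (h2 : q ≠ b) (hc : G.Cyc b p' q' 5)
    (h3 : p' ≠ a) (h4 : q' ≠ a) (T : DT) :
    T.ok F (mps [(0, 8), (1, 16)] (cycE 0 6 ++ (cycE 8 5 ++ cycE 16 5)))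
      (mps [(0, 8), (1, 16)] ([(9, 1), (12, 1), (17, 0), (20, 0)] ++
        (cycD 0 6 ++ (cycD 8 5 ++ cycD 16 5)))) = false := by
  obtain ⟨f, a1, a2, a3, a4, a5, a6⟩ := ha
  obtain ⟨g, b1, b2, b3, b4, b5, b6⟩ := hb
  obtain ⟨e, d1, d2, d3, d4, d5, d6⟩ := hc
  let u : ℕ → V := fun p => if p < 8 then f p else if p < 16 then g (p - 8) else e (p - 16)
  have c1 := cyc_spec (g := u) (s := 0) a1 a2 (a4.trans a3.symm) fun j hj => by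
    simp [u, show j < 8 by omega]
  have c2 := cyc_spec (g := u) (s := 8) b1 b2 (b4.trans b3.symm) fun j hj => by
    simp [u, show 8 + j < 16 by omega]
  have c4 := cyc_spec (g := u) (s := 16) d1 d2 (d4.trans d3.symm) fun j hj => by
    simp [u, show ¬ 16 + j < 8 by omega]
  have c3 : ∀ p ∈ [(0, 8), (1, 16)], u p.1 = u p.2 := by simp [u, *]
  have c5 : ∀ p ∈ [(9, 1), (12, 1), (17, 0), (20, 0)], u p.1 ≠ u p.2 := by
    simp only [Nat.add_one_sub_one] at b6 d6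
    simp [u, *]
  rw [← Bool.not_eq_true]
  exact fun hT => tree hF u T _ _ hT
    (mps_spec c3 (List.forall_mem_append.2 ⟨c1.1, List.forall_mem_append.2 ⟨c2.1, c4.1⟩⟩))
    (mps_spec (r := (· ≠ ·)) c3 (List.forall_mem_append.2 ⟨c5,
      List.forall_mem_append.2 ⟨c1.2, List.forall_mem_append.2 ⟨c2.2, c4.2⟩⟩⟩))

theorem count3 [Nonempty V] (hB : G.Bridgeless) (hM : G.NoMulti) (hc : G.Conn Set.univ) {g : ℕ}
    (hF : G.Fam (2 ^ g)) (h3 : ¬ G.Cont (3, c3E)) (h4 : ¬ G.Cont (4, c4E))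
    (hw : ∀ v x y z a b c, G.Cyc v x y a → G.Cyc v y z b → G.Cyc v z x c → 5 ≤ a → 5 ≤ b →
      5 ≤ c → hh a c b + hh a b c + hh b a c + hh b c a + hh c b a + hh c a b ≤ 419)
    (hm : ∀ a b c p q p' q', G.Cyc a b c 6 → G.Cyc a p q 5 → p ≠ b → q ≠ b → G.Cyc b p' q' 5 →
      p' ≠ a → q' ≠ a → False) : Fintype.card V ≤ 840 * g := by
  classical
  obtain ⟨I, ℓ, r, φ, a1, a2⟩ := hF
  let P : V × Fin 3 → I → Prop := fun d i => ℓ d ≠ r d ∧ (i = ℓ d ∨ i = r d)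
  have hP : ∀ d i, (if i = ℓ d then (1 : ZMod 2) else 0) + (if i = r d then 1 else 0) =
      if P d i then 1 else 0 := by
    intro d i
    by_cases c1 : i = ℓ d <;> by_cases c2 : i = r d
    · rw [if_pos c1, if_pos c2, z2_self, if_neg fun h => h.1 (c1.symm.trans c2)]
    · rw [if_pos c1, if_neg c2, add_zero, if_pos ⟨c1 ▸ c2, Or.inl c1⟩]
    · rw [if_neg c1, if_pos c2, zero_add, if_pos ⟨fun h => c1 (c2.trans h.symm), Or.inr c2⟩]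
    · rw [if_neg c1, if_neg c2, zero_add, if_neg fun h => h.2.elim c1 c2]
  have hE : ∀ i, G.Ev fun d => if P d i then 1 else 0 := fun i => by
    simpa only [hP] using a1 fun j => if i = j then 1 else 0
  have p1 : ∀ d i, P d i → P (G.σ d) i := fun d i h => by
    have := (hE i).1 d
    by_contra c
    simp [h, c] at this
  have p2 : ∀ v i, (P (v, 0) i ↔ ¬ (P (v, 1) i ↔ P (v, 2) i)) := fun v i => by
    have := (hE i).2 v
    unfold bd at this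
    revert this
    by_cases c0 : P (v, 0) i <;> by_cases c1 : P (v, 1) i <;> by_cases c2 : P (v, 2) i <;>
      simp only [c0, c1, c2, if_true, if_false] <;> decide
  have p3 : ∀ x : {x : (V × Fin 3) × I // P x.1 x.2}, ∃ j, j ≠ x.1.1.2 ∧ P (x.1.1.1, j) x.1.2 ∧
      ∀ j', P (x.1.1.1, j') x.1.2 → j' = x.1.1.2 ∨ j' = j := by
    rintro ⟨⟨⟨v, j⟩, i⟩, h⟩
    have := p2 v i
    simp only [Fin.exists_fin_succ, Fin.forall_fin_succ]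
    fin_cases j <;> simp at h ⊢ <;> tauto
  choose o o1 o2 o3 using p3
  let X := {x : (V × Fin 3) × I // P x.1 x.2}
  let s : X → X := fun x => ⟨(G.σ x.1.1, x.1.2), p1 _ _ x.2⟩
  let t : X → X := fun x => ⟨((x.1.1.1, o x), x.1.2), o2 x⟩
  have hs : ∀ x, s (s x) = x := fun x => by simp [s, G.inv]
  have hs' : ∀ x, s x ≠ x := fun x h => G.ne x.1.1 (congrArg (·.1.1) h)
  have ht' : ∀ x, t x ≠ x := fun x h => o1 x (congrArg (·.1.1.2) h)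
  have t1 : ∀ x y : X, y.1.1.1 = x.1.1.1 → y.1.2 = x.1.2 → y = x ∨ y = t x := by
    rintro x ⟨⟨⟨v, j⟩, i⟩, h⟩ rfl rfl
    rcases o3 x j h with rfl | rfl
    · exact Or.inl rfl
    · exact Or.inr rfl
  have ht : ∀ x, t (t x) = x := fun x =>
    ((t1 (t x) x rfl rfl).resolve_left (ht' x).symm).symm
  let e : X → (V × Fin 3) × Bool := fun x => (x.1.1, decide (x.1.2 = ℓ x.1.1))
  have he : Injective e := by
    rintro ⟨⟨d, i⟩, h1, h2⟩ ⟨⟨d', i'⟩, h3, h4⟩ h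
    simp only [e, Prod.mk.injEq, decide_eq_decide] at h
    obtain ⟨rfl, h⟩ := h
    obtain rfl : i = i' := by grind
    rfl
  have : Finite X := Finite.of_injective e he
  let _ := Fintype.ofFinite X
  let L : X → ℕ := minimalPeriod (t ∘ s)
  have c1 : ∀ x : X, G.Cyc x.1.1.1 (G.σ x.1.1).1 (G.σ (t x).1.1).1 (L x) := by
    intro x
    have hx := nu_mem hs ht x
    have b1 : ∀ n, ((t ∘ s)^[n] x).1.2 = x.1.2 := by
      intro n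
      induction n with
      | zero => rfl
      | succ n ih => rw [iterate_succ_apply']; exact ih
    have b2 : (t ∘ s)^[L x] x = x := isPeriodicPt_minimalPeriod _ _
    refine ⟨fun n => ((t ∘ s)^[n] x).1.1.1, fun a ha b hb h => ?_, fun a => ?_, rfl,
      by simp only [b2], rfl, ?_⟩
    · rcases t1 _ _ h ((b1 a).trans (b1 b).symm) with c | c
      · exact iterate_injOn_Iio_minimalPeriod ha hb c
      · exact absurd c (nu_ne' hs ht hs' ht' _ _ _)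
    · simp only [iterate_succ_apply']
      exact ⟨_, rfl⟩
    · obtain ⟨m, hm⟩ := Nat.exists_eq_succ_of_ne_zero
        (minimalPeriod_pos_of_mem_periodicPts hx).ne'
      rw [show L x = m + 1 from hm, iterate_succ_apply'] at b2
      have := congrArg (fun z => (s (t z)).1.1.1) b2
      simp only [comp_apply, hs, ht] at this
      simp only [show L x = m + 1 from hm, Nat.add_sub_cancel, this]
      rfl
  have c2 : ∀ x, 5 ≤ L x := fun x => Cyc.five hB hM h3 h4 (o1 x).symm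
    (minimalPeriod_pos_of_mem_periodicPts (nu_mem hs ht x)) (c1 x)
  let u : X → X := fun x => ⟨(x.1.1, if x.1.2 = ℓ x.1.1 then r x.1.1 else ℓ x.1.1), x.2.1, by
    split_ifs <;> simp⟩
  have u0 : ∀ x : X, (u x).1.2 ≠ x.1.2 := by
    rintro ⟨⟨d, i⟩, h1, h2⟩
    simp only [u]
    split_ifs with c
    · rw [c]; exact h1.symm
    · exact fun e => c e.symm
  have u1 : ∀ x y : X, y.1.1 = x.1.1 → y.1.2 ≠ x.1.2 → y = u x := by
    rintro ⟨⟨d, i⟩, h1, h2⟩ ⟨⟨d', i'⟩, h3, h4⟩ e ne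
    simp only at e ne h1 h2 h3 h4
    subst e
    refine Subtype.ext (Prod.ext rfl ?_)
    simp only [u]
    split_ifs with c <;> grind
  have u2 : ∀ x y : X, y.1.1 = x.1.1 → y = x ∨ y = u x := by
    intro x y e
    by_cases c : y.1.2 = x.1.2
    · exact Or.inl (Subtype.ext (Prod.ext e c))
    · exact Or.inr (u1 x y e c)
  have us : ∀ x, u (s x) = s (u x) := fun x => (u1 (s x) (s (u x)) rfl (u0 x)).symm
  have Lt : ∀ x, L (t x) = L x := fun x => nu_per hs ht x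
  have Ls : ∀ x, L (s x) = L x := fun x => by
    rw [← Lt (s x)]
    exact minimalPeriod_apply (nu_mem hs ht x)
  let H : X → ℕ := fun x => hh (L x) (L (u x)) (L (u (t x)))
  have pent : ∀ x, L (u x) = 6 → L (u (t x)) = 5 → ∃ p q, G.Cyc x.1.1.1 p q 5 ∧
      p ≠ (G.σ x.1.1).1 ∧ q ≠ (G.σ x.1.1).1 := by
    intro x e6 e5
    have b1 := c1 (u (t x))
    rw [e5] at b1
    refine ⟨_, _, b1, fun e => o1 x (hM x.1.1.1 _ _ e), fun e => ?_⟩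
    have b2 : (t (u (t x))).1.1 = x.1.1 := Prod.ext rfl (hM x.1.1.1 _ _ e)
    rcases u2 x _ b2 with b | b
    · exact u0 (t x) (congrArg (·.1.2) b)
    · have := Lt (u (t x))
      rw [b] at this
      omega
  have edge : ∀ x, wt7 (L x) ≤ H x + H (s x) := by
    intro x
    simp only [H, Ls, us]
    refine hh_edge (c2 x) fun e6 e5 e5' => ?_
    obtain ⟨p, q, b1, b2, b3⟩ := pent x e6 e5
    obtain ⟨p', q', b4, b5, b6⟩ := pent (s x) (by rw [us, Ls, e6]) e5'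
    have b7 := c1 (u x)
    rw [e6] at b7
    simp only [s, G.inv] at b5 b6
    exact hm _ _ _ _ _ _ _ b7 b1 b2 b3 b4 b5 b6
  let W : V × Fin 3 → I → ℕ := fun d i => if h : P d i then H ⟨(d, i), h⟩ else 0
  have c3 : ∑ x, H x = ∑ p : (V × Fin 3) × Bool, W p.1 (bif p.2 then ℓ p.1 else r p.1) := by
    refine Fintype.sum_of_injective e he _ _ ?_ ?_
    · rintro ⟨d, b⟩ hb
      refine dif_neg fun h : P d (bif b then ℓ d else r d) => hb ⟨⟨(d, _), h⟩, ?_⟩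
      cases b <;> simp [e, h.1.symm]
    · rintro ⟨⟨d, i⟩, h⟩
      have : (bif decide (i = ℓ d) then ℓ d else r d) = i := by
        by_cases c : i = ℓ d
        · simp [c]
        · simpa [c] using (h.2.resolve_left c).symm
      simp only [e, W, this, h, dite_true]
  have c4 : ∀ d i, W d i ≤ 84 := fun d i => by
    simp only [W]
    split_ifs
    · exact hh_le _ _ _
    · simp
  have c5 : ∀ v i j k (h : P (v, j) i) (h' : P (v, k) i), j ≠ k →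
      (⟨((v, k), i), h'⟩ : X) = t ⟨((v, j), i), h⟩ := fun v i j k h h' hjk =>
    (t1 ⟨((v, j), i), h⟩ ⟨((v, k), i), h'⟩ rfl rfl).resolve_left fun c =>
      hjk (congrArg (·.1.1.2) c).symm
  have c6 : ∑ x, H x ≤ Fintype.card V * 419 := by
    rw [c3, Fintype.sum_prod_type, Fintype.sum_prod_type, ← smul_eq_mul, ← Finset.card_univ]
    refine Finset.sum_le_card_nsmul _ _ _ fun v _ => ?_
    simp only [Fin.sum_univ_three, Fintype.sum_bool, cond_true, cond_false]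
    by_cases b0 : ∀ j, ℓ (v, j) ≠ r (v, j)
    · obtain ⟨a, b, c, b1, b2, b3⟩ := tri (fun j => ℓ (v, j)) (fun j => r (v, j)) b0 fun i => by
        simpa [P, b0] using p2 v i
      have n0 := b0 0
      have n1 := b0 1
      have n2 := b0 2
      have q0a : P (v, 0) a := ⟨n0, by grind⟩
      have q0c : P (v, 0) c := ⟨n0, by grind⟩
      have q1a : P (v, 1) a := ⟨n1, by grind⟩
      have q1b : P (v, 1) b := ⟨n1, by grind⟩
      have q2b : P (v, 2) b := ⟨n2, by grind⟩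
      have q2c : P (v, 2) c := ⟨n2, by grind⟩
      have t01 := c5 v a 0 1 q0a q1a (by decide)
      have t10 := c5 v a 1 0 q1a q0a (by decide)
      have t12 := c5 v b 1 2 q1b q2b (by decide)
      have t21 := c5 v b 2 1 q2b q1b (by decide)
      have t20 := c5 v c 2 0 q2c q0c (by decide)
      have t02 := c5 v c 0 2 q0c q2c (by decide)
      have v0a := u1 ⟨((v, 0), a), q0a⟩ ⟨((v, 0), c), q0c⟩ rfl (by grind)
      have v0c := u1 ⟨((v, 0), c), q0c⟩ ⟨((v, 0), a), q0a⟩ rfl (by grind)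
      have v1a := u1 ⟨((v, 1), a), q1a⟩ ⟨((v, 1), b), q1b⟩ rfl (by grind)
      have v1b := u1 ⟨((v, 1), b), q1b⟩ ⟨((v, 1), a), q1a⟩ rfl (by grind)
      have v2b := u1 ⟨((v, 2), b), q2b⟩ ⟨((v, 2), c), q2c⟩ rfl (by grind)
      have v2c := u1 ⟨((v, 2), c), q2c⟩ ⟨((v, 2), b), q2b⟩ rfl (by grind)
      have x3 := c1 ⟨((v, 0), a), q0a⟩
      have y3 := c1 ⟨((v, 1), b), q1b⟩
      have z3 := c1 ⟨((v, 2), c), q2c⟩
      have la := Lt ⟨((v, 0), a), q0a⟩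
      have lb := Lt ⟨((v, 1), b), q1b⟩
      have lc := Lt ⟨((v, 2), c), q2c⟩
      rw [← t01] at x3 la
      rw [← t12] at y3 lb
      rw [← t20] at z3 lc
      have := hw _ _ _ _ _ _ _ x3 y3 z3 (c2 _) (c2 _) (c2 _)
      have w0a : W (v, 0) a = _ := (dif_pos q0a).trans (by
        simp only [H]; rw [← t01, ← v0a, ← v1a, lc])
      have w1a : W (v, 1) a = _ := (dif_pos q1a).trans (by
        simp only [H]; rw [← t10, ← v0a, ← v1a, lc, la])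
      have w1b : W (v, 1) b = _ := (dif_pos q1b).trans (by
        simp only [H]; rw [← t12, ← v1b, ← v2b, la])
      have w2b : W (v, 2) b = _ := (dif_pos q2b).trans (by
        simp only [H]; rw [← t21, ← v1b, ← v2b, la, lb])
      have w2c : W (v, 2) c = _ := (dif_pos q2c).trans (by
        simp only [H]; rw [← t20, ← v2c, ← v0c, lb])
      have w0c : W (v, 0) c = _ := (dif_pos q0c).trans (by
        simp only [H]; rw [← t02, ← v2c, ← v0c, lb, lc])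
      rcases b1 with b1 | b1 <;> rcases b2 with b2 | b2 <;> rcases b3 with b3 | b3 <;>
        rw [b1.1, b1.2, b2.1, b2.2, b3.1, b3.2] <;> omega
    · obtain ⟨j, hj⟩ := not_forall.1 b0
      have b1 : ∀ i, W (v, j) i = 0 := fun i => dif_neg fun h => hj h.1
      have := c4 (v, 0) (ℓ (v, 0))
      have := c4 (v, 0) (r (v, 0))
      have := c4 (v, 1) (ℓ (v, 1))
      have := c4 (v, 1) (r (v, 1))
      have := c4 (v, 2) (ℓ (v, 2))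
      have := c4 (v, 2) (r (v, 2))
      fin_cases j <;> simp only [Fin.zero_eta, Fin.mk_one, Fin.reduceFinMk] at b1 <;>
        rw [b1, b1] <;> omega
  have c6' : ∑ x, wt7 (L x) ≤ Fintype.card V * 838 := by
    have b1 : ∑ x, H (s x) = ∑ x, H x := Equiv.sum_comp (Involutive.toPerm s hs) H
    have b2 : ∑ x, wt7 (L x) ≤ ∑ x, (H x + H (s x)) := Finset.sum_le_sum fun x _ => edge x
    rw [Finset.sum_add_distrib, b1] at b2
    omega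
  let rel : X → X → Prop := fun x y => y = s x ∨ y = t x
  let _ := Fintype.ofFinite (Quot rel)
  have k1 : ∀ x, Quot.mk rel (s x) = Quot.mk rel x := fun x =>
    (Quot.sound (r := rel) (Or.inl rfl)).symm
  have k2 : ∀ x, Quot.mk rel (t x) = Quot.mk rel x := fun x =>
    (Quot.sound (r := rel) (Or.inr rfl)).symm
  have c7 := (class_sum hs ht hs' ht' _ Quot.mk_surjective k1 k2 wt7 840 wt7_mul).trans c6'
  let lab : Quot rel → I := Quot.lift (·.1.2) (by rintro x y (rfl | rfl) <;> rfl)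
  let T : (Quot rel → ZMod 2) → V × Fin 3 → ZMod 2 := fun u d => if h : ℓ d ≠ r d then
    u (Quot.mk _ ⟨(d, ℓ d), h, Or.inl rfl⟩) + u (Quot.mk _ ⟨(d, r d), h, Or.inr rfl⟩) else 0
  obtain ⟨Q, q1, q2⟩ : ∃ Q : Quot rel → Prop, Nat.card {c // Q c} = Fintype.card (Quot rel) - 1 ∧
      ∀ u : Quot rel → ZMod 2, ∃ a, ∀ c, ¬ Q c → u c = a := by
    rcases isEmpty_or_nonempty (Quot rel) with c | ⟨⟨c⟩⟩
    · exact ⟨fun _ => True, by simp, fun _ => ⟨0, by simp⟩⟩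
    · exact ⟨(· ≠ c), by simp, fun u => ⟨u c, by simp⟩⟩
  obtain ⟨m, m1, m2⟩ := card_ev hc
  have c8 : Nat.card {x // G.Ev x} ≤ Nat.card (Fin (2 ^ g) × ({c // Q c} → ZMod 2)) := by
    let rep : Fin (2 ^ g) → V × Fin 3 → ZMod 2 := fun a =>
      if h : ∃ x, G.Ev x ∧ φ x = a then h.choose else 0
    have b1 : ∀ x : {x // G.Ev x}, ∃ p : Fin (2 ^ g) × ({c // Q c} → ZMod 2),
        x.1 = fun d => rep p.1 d + T (fun c => if h : Q c then p.2 ⟨c, h⟩ else 0) d := by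
      intro x
      have h : ∃ y, G.Ev y ∧ φ y = φ x.1 := ⟨x.1, x.2, rfl⟩
      obtain ⟨u, hu⟩ := a2 _ _ h.choose_spec.1 x.2 h.choose_spec.2
      obtain ⟨a, ha⟩ := q2 (u ∘ lab)
      refine ⟨(φ x.1, fun c => u (lab c) + a), funext fun d => ?_⟩
      have b2 : (fun c => if h : Q c then u (lab c) + a else 0) = fun c => u (lab c) + a := by
        funext c
        by_cases b : Q c
        · exact dif_pos b
        · rw [dif_neg b, ← ha c b, comp_apply, z2_self]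
      have b3 := hu d
      have b4 := z2_self a
      have b5 := z2_self (h.choose d)
      simp only [rep, h, dite_true, b2, T, lab]
      split_ifs with b
      · linear_combination b3 - b4 - b5
      · rw [not_not.1 b, z2_self] at b3
        linear_combination b3 - b5
    choose p hp using b1
    exact Nat.card_le_card_of_injective p fun x y h => Subtype.ext (by rw [hp x, hp y, h])
  rw [m2, Nat.card_prod, Nat.card_fun, q1, Nat.card_zmod, Nat.card_eq_fintype_card,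
    Fintype.card_fin, ← pow_add, Nat.pow_le_pow_iff_right (by norm_num)] at c8
  obtain ⟨v⟩ := ‹Nonempty V›
  have c9 := Fintype.card_le_of_injective _ (hM v)
  rw [Fintype.card_fin] at c9
  omega

theorem count2 [Nonempty V] (hB : G.Bridgeless) (hM : G.NoMulti) (hc : G.Conn Set.univ) {g : ℕ}
    (hF : G.Fam (2 ^ g)) (hf : ∀ H ∈ forbU, ¬ G.Cont H) : Fintype.card V ≤ 840 * g := by
  have hS : ∀ H ∈ forbS, ¬ G.Cont H :=
    List.forall_mem_append.2 ⟨hf, List.forall_mem_singleton.2 star_free⟩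
  have a1 : ∀ {v x y z}, G.Cyc v x y 5 → z ≠ x → ¬ G.Cyc v y z 5 := fun a c b =>
    absurd (a.two hS b c (by decide) ut55) (by decide +kernel)
  have a2 : ∀ {v x y z}, G.Cyc v x y 5 → G.Cyc v y z 6 → ¬ G.Cyc v z x 6 := fun a b c =>
    absurd (a.three hS b c (by decide) ut566) (by decide +kernel)
  have a3 : ∀ {v x y z}, G.Cyc v x y 6 → G.Cyc v y z 6 → ¬ G.Cyc v z x 6 := fun a b c =>
    absurd (a.three hS b c (by decide) ut666) (by decide +kernel)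
  refine count3 hB hM hc hF (hf _ (by simp [forbU])) (hf _ (by simp [forbU])) ?_
    fun a b c p q p' q' h1 h2 h3 h4 h5 h6 h7 =>
      absurd (h1.mid hS h2 h3 h4 h5 h6 h7 ut565) (by decide +kernel)
  intro v x y z a b c ha hb hc h1 h2 h3
  refine hh_vtx ?_ ?_ ?_ ?_ ?_ ?_ ?_
  · rintro ⟨rfl, rfl⟩; exact a1 ha (hc.ne (by omega)) hb
  · rintro ⟨rfl, rfl⟩; exact a1 hb (ha.ne (by omega)) hc
  · rintro ⟨rfl, rfl⟩; exact a1 hc (hb.ne (by omega)) ha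
  · rintro ⟨rfl, rfl, rfl⟩; exact a2 ha hb hc
  · rintro ⟨rfl, rfl, rfl⟩; exact a2 hb hc ha
  · rintro ⟨rfl, rfl, rfl⟩; exact a2 hc ha hb
  · rintro ⟨rfl, rfl, rfl⟩; exact a3 ha hb hc

end DG

end Pool.Agent.P.MP_40718a_co
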