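import Pool.Agent.P.MP_40718a_co.U.G565R
import Pool.Agent.P.MP_40718a_co.U.M565A
import Pool.Agent.P.MP_40718a_co.U.G565P0

/-! Certificates. -/

namespace Pool.Agent.P.MP_40718a_co

open U

theorem gm565_ck : Cov gm565T.ck 1679 :=
  allI_step (allI_step (allI_step (allI_step (allI_step (allI_step (allI_step (allI_step (allI_step (allI_step (allI_step (allI_step (allI_zero _) gm565_0) gm565_1) gm565_2) gm565_3) gm565_4) gm565_5) gm565_6) gm565_7) gm565_8) gm565_9) gm565_10) gm565_11

theorem gm565_red : Red 8 12 fm565I 2 fm565J :=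
  red_of (T := gm565T) (by decide +kernel) sw8 fm565X_ok fm565W_ok gm565_ck gm565_bb gm565_gen gm565_root

end Pool.Agent.P.MP_40718a_co
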