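import Pool.Agent.P.MP_40718a_co.U.G566R
import Pool.Agent.P.MP_40718a_co.FB
import Pool.Agent.P.MP_40718a_co.U.G566P0
import Pool.Agent.P.MP_40718a_co.U.G566P1

/-! Certificates. -/

namespace Pool.Agent.P.MP_40718a_co

open U

theorem gp566_ck : Cov gp566T.ck 2668 :=
  allI_step (allI_step (allI_step (allI_step (allI_step (allI_step (allI_step (allI_step (allI_step (allI_step (allI_step (allI_step (allI_step (allI_step (allI_step (allI_step (allI_step (allI_step (allI_step (allI_step (allI_zero _) gp566_0) gp566_1) gp566_2) gp566_3) gp566_4) gp566_5) gp566_6) gp566_7) gp566_8) gp566_9) gp566_10) gp566_11) gp566_12) gp566_13) gp566_14) gp566_15) gp566_16) gp566_17) gp566_18) gp566_19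

theorem gp566_red : Red 8 12 fp566I 4 fp566J :=
  red_of (T := gp566T) (by decide +kernel) sw8 fp566X_ok fp566W_ok gp566_ck gp566_bb gp566_gen gp566_root

end Pool.Agent.P.MP_40718a_co
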