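import Pool.Agent.P.MP_40718a_co.U.G666R
import Pool.Agent.P.MP_40718a_co.F666
import Pool.Agent.P.MP_40718a_co.U.G666P0
import Pool.Agent.P.MP_40718a_co.U.G666P1
import Pool.Agent.P.MP_40718a_co.U.G666P2
import Pool.Agent.P.MP_40718a_co.U.G666P3

/-! Certificates. -/

namespace Pool.Agent.P.MP_40718a_co

open U

theorem gp666_ck : Cov gp666T.ck 15480 :=
  allI_step (allI_step (allI_step (allI_step (allI_step (allI_step (allI_step (allI_step (allI_step (allI_step (allI_step (allI_step (allI_step (allI_step (allI_step (allI_step (allI_step (allI_step (allI_step (allI_step (allI_step (allI_step (allI_step (allI_step (allI_step (allI_step (allI_step (allI_step (allI_step (allI_step (allI_step (allI_step (allI_step (allI_step (allI_step (allI_step (allI_step (allI_step (allI_step (allI_step (allI_step (allI_step (allI_step (allI_step (allI_step (allI_step (allI_step (allI_step (allI_step (allI_step (allI_step (allI_step (allI_step (allI_step (allI_step (allI_step (allI_step (allI_step (allI_step (allI_step (allI_step (allI_step (allI_step (allI_step (allI_step (allI_step (allI_step (allI_step (allI_step (allI_step (allI_step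 (allI_step (allI_step (allI_step (allI_step (allI_step (allI_step (allI_step (allI_step (allI_step (allI_step (allI_step (allI_step (allI_step (allI_step (allI_step (allI_step (allI_step (allI_step (allI_step (allI_step (allI_step (allI_step (allI_step (allI_step (allI_step (allI_step (allI_step (allI_step (allI_step (allI_step (allI_step (allI_step (allI_step (allI_step (allI_step (allI_step (allI_step (allI_step (allI_step (allI_step (allI_step (allI_step (allI_step (allI_step (allI_step (allI_step (allI_step (allI_step (allI_step (allI_step (allI_step (allI_step (allI_step (allI_step (allI_step (allI_step (allI_step (allI_step (allI_step (allI_step (allI_step (allI_step (allI_step (allI_step (allI_step (allI_step (allI_step (allI_step (allI_step (allI_step (allI_step (allI_step (allI_step (allI_step (allI_step (allI_step (allI_step (allI_step (allI_step (allI_step (allI_step (allI_step (allI_step (allI_step (allI_step (allI_step (allI_step (allI_step (allI_step (allI_zero _) gp666_0) gp666_1) gp666_2) gp666_3) gp666_4) gp666_5) gp666_6) gp666_7) gp666_8) gp666_9) gp666_10) gp666_11) gp666_12) gp666_13) gp666_14)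 gp666_15) gp666_16) gp666_17) gp666_18) gp666_19) gp666_20) gp666_21) gp666_22) gp666_23) gp666_24) gp666_25) gp666_26) gp666_27) gp666_28) gp666_29) gp666_30) gp666_31) gp666_32) gp666_33) gp666_34) gp666_35) gp666_36) gp666_37) gp666_38) gp666_39) gp666_40) gp666_41) gp666_42) gp666_43) gp666_44) gp666_45) gp666_46) gp666_47) gp666_48) gp666_49) gp666_50) gp666_51) gp666_52) gp666_53) gp666_54) gp666_55) gp666_56) gp666_57) gp666_58) gp666_59) gp666_60) gp666_61) gp666_62) gp666_63) gp666_64) gp666_65) gp666_66) gp666_67) gp666_68) gp666_69) gp666_70) gp666_71) gp666_72) gp666_73) gp666_74) gp666_75) gp666_76) gp666_77) gp666_78) gp666_79) gp666_80) gp666_81) gp666_82) gp666_83) gp666_84) gp666_85) gp666_86) gp666_87) gp666_88) gp666_89) gp666_90) gp666_91) gp666_92) gp666_93) gp666_94) gp666_95) gp666_96) gp666_97) gp666_98) gp666_99) gp666_100) gp666_101) gp666_102) gp666_103) gp666_104) gp666_105) gp666_106) gp666_107) gp666_108) gp666_109) gp666_110) gp666_111) gp666_112) gp666_113) gp666_114) gp666_115) gp666_116) gp666_117) gp666_118) gp666_119) gp666_120) gp666_121) gp666_122) gp666_123) gp666_124) gp666_125)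 gp666_126) gp666_127) gp666_128) gp666_129) gp666_130) gp666_131) gp666_132) gp666_133) gp666_134) gp666_135) gp666_136) gp666_137) gp666_138) gp666_139) gp666_140) gp666_141) gp666_142) gp666_143) gp666_144) gp666_145) gp666_146) gp666_147) gp666_148) gp666_149) gp666_150) gp666_151) gp666_152) gp666_153) gp666_154) gp666_155) gp666_156) gp666_157) gp666_158) gp666_159

theorem gp666_red : Red 9 13 fp666I 1 fp666J :=
  red_of (T := gp666T) (by decide +kernel) sw9 fp666X_ok fp666W_ok gp666_ck gp666_bb gp666_gen gp666_root

end Pool.Agent.P.MP_40718a_co
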