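import Pool.Agent.P.MP_40718a_co.U.Glue
import Pool.Agent.P.MP_40718a_co.FA

/-! Certificates. -/

namespace Pool.Agent.P.MP_40718a_co

open U

/-- packed table -/
noncomputable def gc3E : BW := (.l (nat_lit 0) (nat_lit 84) (nat_lit 4975441334415930272106566253156608683753575170040469375538639201258325410816))

/-- tables -/
noncomputable def gc3T : T2 := ⟨Tab.mk 3 sw 1 fc3X 0 fc3W, 4, fc3C, 3, dig (nat_lit 28931) (nat_lit 6),
  nat_lit 1057, gc3E.get⟩

/-- nodes -/
def gc3N0 : List ℕ := [nat_lit 10,
  nat_lit 6,
  nat_lit 2]

theorem gc3_0 : partOK gc3T.ck gc3N0 0 3 = true := by decide +kernel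

/-- packed table -/
noncomputable def gc3G : BW := (.l (nat_lit 0) (nat_lit 17) (nat_lit 66563))

/-- generators -/
noncomputable def gc3D : Rd := ⟨3, 6, dig (nat_lit 38052) (nat_lit 6), 1, gc3G.get⟩

/-- search tree -/
def gc3B : BB := (.br (nat_lit 0) (.br (nat_lit 1) (.br (nat_lit 2) .nil (.far (nat_lit 0) (nat_lit 33))) (.far (nat_lit 0) (nat_lit 65))) 
  (.br (nat_lit 1) (.far (nat_lit 0) (nat_lit 33)) (.br (nat_lit 2) (.far (nat_lit 0) (nat_lit 1)) (.dom (nat_lit 0)))))

theorem gc3_bb : gc3D.ok gc3B [] (2 ^ gc3D.np - 1) = true := by decide +kernel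

theorem gc3_gen : allB (gc3D.genOK 0) gc3D.nG = true := by decide +kernel

/-- packed table -/
noncomputable def gc3R : BW := (.l (nat_lit 0) (nat_lit 42) (nat_lit 2199027449859))

theorem gc3_root : rootsOK gc3T gc3D 3 0 1 gc3R.get = true := by decide +kernel

theorem gc3_ck : Cov gc3T.ck 3 :=
  allI_step (allI_zero _) gc3_0

theorem gc3_red : Red 3 3 fc3I 1 fc3J :=
  red_of (T := gc3T) (by decide +kernel) sw3 fc3X_ok fc3W_ok gc3_ck gc3_bb gc3_gen gc3_root

/-- packed table -/
noncomputable def gc4E : BW := (.l (nat_lit 0) (nat_lit 86) (nat_lit 1256365955148494233246505632686605798519489217783136616379782462105731893509633575589481833498506054131598539151245025471457395744))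

/-- tables -/
noncomputable def gc4T : T2 := ⟨Tab.mk 4 sw 3 fc4X 0 fc4W, 7, fc4C, 4, dig (nat_lit 2916676) (nat_lit 6),
  nat_lit 33825, gc4E.get⟩

/-- nodes -/
def gc4N0 : List ℕ := [nat_lit 2,
  nat_lit 6,
  nat_lit 26,
  nat_lit 14,
  nat_lit 18]

theorem gc4_0 : partOK gc4T.ck gc4N0 0 5 = true := by decide +kernel

/-- packed table -/
noncomputable def gc4G : BW := (.l (nat_lit 0) (nat_lit 17) (nat_lit 12885361667))

/-- generators -/
noncomputable def gc4D : Rd := ⟨4, 4, dig (nat_lit 63840) (nat_lit 4), 2, gc4G.get⟩

/-- search tree -/
def gc4B : BB := (.br (nat_lit 0) (.br (nat_lit 1) (.br (nat_lit 2) (.br (nat_lit 3) .nil (.far (nat_lit 33) (nat_lit 0))) (.far (nat_lit 1) (nat_lit 0))) 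
  (.far (nat_lit 1026) (nat_lit 0))) 
  (.br (nat_lit 0) (.br (nat_lit 1) (.br (nat_lit 2) (.br (nat_lit 3) (.far (nat_lit 0) (nat_lit 1)) (.far (nat_lit 33) (nat_lit 0))) (.far (nat_lit 1) (nat_lit 0))) 
  (.br (nat_lit 2) (.far (nat_lit 33) (nat_lit 0)) (.dom (nat_lit 0)))) 
  (.br (nat_lit 3) (.br (nat_lit 1) (.far (nat_lit 0) (nat_lit 33)) (.br (nat_lit 2) (.far (nat_lit 0) (nat_lit 1)) (.dom (nat_lit 0)))) 
  (.dom (nat_lit 1)))))

theorem gc4_bb : gc4D.ok gc4B [] (2 ^ gc4D.np - 1) = true := by decide +kernel

theorem gc4_gen : allB (gc4D.genOK 0) gc4D.nG = true := by decide +kernel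

/-- packed table -/
noncomputable def gc4R : BW := (.l (nat_lit 0) (nat_lit 43) (nat_lit 19342850007353000552562707))

theorem gc4_root : rootsOK gc4T gc4D 5 0 2 gc4R.get = true := by decide +kernel

theorem gc4_ck : Cov gc4T.ck 5 :=
  allI_step (allI_zero _) gc4_0

theorem gc4_red : Red 4 4 fc4I 0 fc4J :=
  red_of (T := gc4T) (by decide +kernel) sw4 fc4X_ok fc4W_ok gc4_ck gc4_bb gc4_gen gc4_root

/-- packed table -/
noncomputable def gt233E : BW := (.l (nat_lit 0) (nat_lit 87) (nat_lit 6328485342932905926270143312343534014594321394809306108367807968891251775656810145151511750518011132074385172385875029926699718080238409221257019803989705728))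

/-- tables -/
noncomputable def gt233T : T2 := ⟨Tab.mk 5 sw 24 ft233X 2 ft233W, 14, ft233C, 8, dig (nat_lit 93400659423621) (nat_lit 6),
  nat_lit 35468117025, gt233E.get⟩

/-- nodes -/
def gt233N0 : List ℕ := [nat_lit 34,
  nat_lit 10,
  nat_lit 22,
  nat_lit 38,
  nat_lit 30,
  nat_lit 2]

theorem gt233_0 : partOK gt233T.ck gt233N0 0 6 = true := by decide +kernel

/-- packed table -/
noncomputable def gt233G : BW := (.l (nat_lit 0) (nat_lit 18) (nat_lit 11329609136998435))

/-- generators -/
noncomputable def gt233D : Rd := ⟨6, 8, dig (nat_lit 47422052648080) (nat_lit 8), 3, gt233G.get⟩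

/-- search tree -/
def gt233B : BB := (.br (nat_lit 0) (.br (nat_lit 1) (.br (nat_lit 2) (.br (nat_lit 3) (.br (nat_lit 4) (.br (nat_lit 5) .nil (.far (nat_lit 0) (nat_lit 65))) (.far (nat_lit 0) (nat_lit 65))) 
  (.far (nat_lit 0) (nat_lit 129))) 
  (.far (nat_lit 33) (nat_lit 65))) 
  (.br (nat_lit 2) (.far (nat_lit 0) (nat_lit 129)) (.br (nat_lit 4) (.far (nat_lit 33) (nat_lit 1)) (.dom (nat_lit 0))))) 
  (.br (nat_lit 1) (.br (nat_lit 3) (.far (nat_lit 0) (nat_lit 65)) (.br (nat_lit 4) (.far (nat_lit 33) (nat_lit 1)) (.dom (nat_lit 1)))) 
  (.br (nat_lit 5) (.br (nat_lit 4) (.far (nat_lit 0) (nat_lit 1)) (.br (nat_lit 2) (.far (nat_lit 65) (nat_lit 33)) (.dom (nat_lit 0)))) 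
  (.dom (nat_lit 2)))))

theorem gt233_bb : gt233D.ok gt233B [] (2 ^ gt233D.np - 1) = true := by decide +kernel

theorem gt233_gen : allB (gt233D.genOK 0) gt233D.nG = true := by decide +kernel

/-- packed table -/
noncomputable def gt233R : BW := (.l (nat_lit 0) (nat_lit 43) (nat_lit 2161058165049354824109597379307553407267176679160676355))

theorem gt233_root : rootsOK gt233T gt233D 6 0 2 gt233R.get = true := by decide +kernel

theorem gt233_ck : Cov gt233T.ck 6 :=
  allI_step (allI_zero _) gt233_0

theorem gt233_red : Red 5 7 ft233I 1 ft233J :=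
  red_of (T := gt233T) (by decide +kernel) sw5 ft233X_ok ft233W_ok gt233_ck gt233_bb gt233_gen gt233_root

/-- packed table -/
noncomputable def gt144E : BW := (.l (nat_lit 0) (nat_lit 89) (nat_lit 5912653422905183282817919221811946076110906363939869074626532286654338165161708283809444473558151177549910564876658841522181415028217269294167909343882881467277576199649243081832564864760058483825448654868800438533743539477913514798720517120))

/-- tables -/
noncomputable def gt144T : T2 := ⟨Tab.mk 6 sw 92 ft144X 2 ft144W, 23, ft144C, 9, dig (nat_lit 7134745098486214) (nat_lit 6),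
  nat_lit 1134979744801, gt144E.get⟩

/-- nodes -/
def gt144N0 : List ℕ := [nat_lit 2,
  nat_lit 6,
  nat_lit 90,
  nat_lit 70,
  nat_lit 30,
  nat_lit 26,
  nat_lit 74,
  nat_lit 86,
  nat_lit 10]

theorem gt144_0 : partOK gt144T.ck gt144N0 0 9 = true := by decide +kernel

/-- packed table -/
noncomputable def gt144G : BW := (.l (nat_lit 0) (nat_lit 33) (nat_lit 6227400017850342163145766088983313414850687092002914310))

/-- generators -/
noncomputable def gt144D : Rd := ⟨8, 6, dig (nat_lit 278162549296128) (nat_lit 6), 6, gt144G.get⟩

/-- search tree -/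
def gt144B : BB := (.br (nat_lit 0) (.br (nat_lit 1) (.br (nat_lit 2) (.br (nat_lit 3) (.br (nat_lit 4) (.br (nat_lit 5) (.br (nat_lit 6) (.br (nat_lit 7) .nil (.far (nat_lit 129) (nat_lit 0))) (.far (nat_lit 65) (nat_lit 0))) 
  (.far (nat_lit 1) (nat_lit 0))) 
  (.far (nat_lit 1) (nat_lit 0))) 
  (.far (nat_lit 4098) (nat_lit 0))) 
  (.far (nat_lit 2050) (nat_lit 0))) 
  (.br (nat_lit 2) (.far (nat_lit 4098) (nat_lit 0)) (.br (nat_lit 4) (.far (nat_lit 4162) (nat_lit 0)) (.dom (nat_lit 5))))) 
  (.br (nat_lit 1) (.br (nat_lit 0) (.br (nat_lit 2) (.br (nat_lit 3) (.br (nat_lit 4) (.br (nat_lit 5) (.br (nat_lit 6) (.br (nat_lit 7) (.far (nat_lit 0) (nat_lit 1)) (.far (nat_lit 129) (nat_lit 0))) (.far (nat_lit 65) (nat_lit 0))) 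
  (.far (nat_lit 1) (nat_lit 0))) 
  (.far (nat_lit 1) (nat_lit 0))) 
  (.br (nat_lit 4) (.far (nat_lit 4162) (nat_lit 0)) (.dom (nat_lit 1)))) 
  (.br (nat_lit 5) (.far (nat_lit 65) (nat_lit 129)) (.dom (nat_lit 2)))) 
  (.br (nat_lit 7) (.br (nat_lit 3) (.br (nat_lit 2) (.far (nat_lit 1) (nat_lit 4162)) (.br (nat_lit 5) (.far (nat_lit 0) (nat_lit 129)) (.dom (nat_lit 2)))) 
  (.br (nat_lit 4) (.br (nat_lit 5) (.far (nat_lit 65) (nat_lit 1)) 
  (.br (nat_lit 2) (.br (nat_lit 0) (.far (nat_lit 4162) (nat_lit 0)) (.br (nat_lit 6) (.far (nat_lit 129) (nat_lit 1)) (.dom (nat_lit 0)))) 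
  (.dom (nat_lit 2)))) 
  (.dom (nat_lit 1)))) 
  (.dom (nat_lit 4)))) 
  (.br (nat_lit 6) (.br (nat_lit 2) (.far (nat_lit 129) (nat_lit 65)) (.br (nat_lit 4) (.far (nat_lit 129) (nat_lit 1)) (.dom (nat_lit 5)))) 
  (.dom (nat_lit 3)))))

theorem gt144_bb : gt144D.ok gt144B [] (2 ^ gt144D.np - 1) = true := by decide +kernel

theorem gt144_gen : allB (gt144D.genOK 1) gt144D.nG = true := by decide +kernel

/-- packed table -/
noncomputable def gt144R : BW := (.l (nat_lit 0) (nat_lit 44) (nat_lit 161552007997813475477590006112755497087869151566501780939861023612866922711878607582398600879507440954850169226318447640649))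

theorem gt144_root : rootsOK gt144T gt144D 9 1 5 gt144R.get = true := by decide +kernel

theorem gt144_ck : Cov gt144T.ck 9 :=
  allI_step (allI_zero _) gt144_0

theorem gt144_red : Red 6 8 ft144I 0 ft144J :=
  red_of (T := gt144T) (by decide +kernel) sw6 ft144X_ok ft144W_ok gt144_ck gt144_bb gt144_gen gt144_root

/-- packed table -/
noncomputable def gt234E : BW := (.l (nat_lit 0) (nat_lit 89) (nat_lit 2265278751321906995093573433144254986322403174880390060886550930102318430117380140208044690263926917283485675855341175186486090535247351161652705090009541481130393508621376219752067365420840587985498525517667700949183764844288138784030542058230361744304063751794213217204547730288717021900177409))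

/-- tables -/
noncomputable def gt234T : T2 := ⟨Tab.mk 6 sw 115 ft234X 2 ft234W, 23, ft234C, 9, dig (nat_lit 7134742933963206) (nat_lit 6),
  nat_lit 1134979744801, gt234E.get⟩

/-- nodes -/
def gt234N0 : List ℕ := [nat_lit 6,
  nat_lit 82,
  nat_lit 26,
  nat_lit 2,
  nat_lit 46,
  nat_lit 70,
  nat_lit 66,
  nat_lit 50,
  nat_lit 22,
  nat_lit 86,
  nat_lit 10]

theorem gt234_0 : partOK gt234T.ck gt234N0 0 11 = true := by decide +kernel

/-- packed table -/
noncomputable def gt234G : BW := (.l (nat_lit 0) (nat_lit 34) (nat_lit 116712174853934757342499913760636014218223307253615822593673037602965913927686))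

/-- generators -/
noncomputable def gt234D : Rd := ⟨10, 12, dig (nat_lit 203519019734936189878607636000344320) (nat_lit 12), 8, gt234G.get⟩

/-- search tree -/
def gt234B : BB := (.br (nat_lit 0) (.br (nat_lit 1) (.br (nat_lit 2) (.br (nat_lit 3) (.br (nat_lit 4) (.br (nat_lit 5) (.br (nat_lit 6) (.br (nat_lit 7) (.br (nat_lit 8) (.br (nat_lit 9) .nil (.far (nat_lit 0) (nat_lit 65))) (.far (nat_lit 0) (nat_lit 65))) 
  (.far (nat_lit 0) (nat_lit 65))) 
  (.far (nat_lit 0) (nat_lit 65))) 
  (.far (nat_lit 0) (nat_lit 257))) 
  (.far (nat_lit 0) (nat_lit 257))) 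
  (.far (nat_lit 0) (nat_lit 257))) 
  (.far (nat_lit 0) (nat_lit 257))) 
  (.br (nat_lit 2) (.br (nat_lit 4) (.far (nat_lit 129) (nat_lit 65)) (.br (nat_lit 6) (.far (nat_lit 129) (nat_lit 97)) (.dom (nat_lit 2)))) 
  (.br (nat_lit 8) (.far (nat_lit 134211) (nat_lit 0)) (.dom (nat_lit 7))))) 
  (.br (nat_lit 2) (.br (nat_lit 4) (.br (nat_lit 3) (.br (nat_lit 5) (.far (nat_lit 0) (nat_lit 65)) (.br (nat_lit 6) (.far (nat_lit 129) (nat_lit 97)) (.dom (nat_lit 5)))) 
  (.br (nat_lit 8) (.far (nat_lit 129) (nat_lit 33)) (.dom (nat_lit 3)))) 
  (.br (nat_lit 7) (.br (nat_lit 6) (.far (nat_lit 33) (nat_lit 1)) 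
  (.br (nat_lit 1) (.br (nat_lit 5) (.br (nat_lit 3) (.far (nat_lit 33) (nat_lit 129)) 
  (.br (nat_lit 8) (.br (nat_lit 0) (.far (nat_lit 0) (nat_lit 257)) (.br (nat_lit 9) (.far (nat_lit 97) (nat_lit 1)) (.dom (nat_lit 1)))) 
  (.dom (nat_lit 3)))) 
  (.dom (nat_lit 5))) 
  (.dom (nat_lit 2)))) 
  (.dom (nat_lit 4)))) 
  (.br (nat_lit 9) (.br (nat_lit 8) (.far (nat_lit 97) (nat_lit 1)) 
  (.br (nat_lit 1) (.br (nat_lit 3) (.br (nat_lit 5) (.far (nat_lit 97) (nat_lit 129)) 
  (.br (nat_lit 6) (.br (nat_lit 7) (.far (nat_lit 33) (nat_lit 1)) (.br (nat_lit 0) (.far (nat_lit 0) (nat_lit 257)) (.dom (nat_lit 0)))) 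
  (.dom (nat_lit 5)))) 
  (.dom (nat_lit 3))) 
  (.dom (nat_lit 7)))) 
  (.dom (nat_lit 6)))))

theorem gt234_bb : gt234D.ok gt234B [] (2 ^ gt234D.np - 1) = true := by decide +kernel

theorem gt234_gen : allB (gt234D.genOK 2) gt234D.nG = true := by decide +kernel

/-- packed table -/
noncomputable def gt234R : BW := (.l (nat_lit 0) (nat_lit 44) (nat_lit 893631900205187473985770472890542277906792475726060215242050150952956271525416560183657693951929820672861019213220718678134534378946227278638782959795872609599561))

theorem gt234_root : rootsOK gt234T gt234D 11 2 7 gt234R.get = true := by decide +kernel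

theorem gt234_ck : Cov gt234T.ck 11 :=
  allI_step (allI_zero _) gt234_0

theorem gt234_red : Red 6 8 ft234I 2 ft234J :=
  red_of (T := gt234T) (by decide +kernel) sw6 ft234X_ok ft234W_ok gt234_ck gt234_bb gt234_gen gt234_root

/-- packed table -/
noncomputable def gt333E : BW := (.l (nat_lit 0) (nat_lit 95) (nat_lit 2424740197404840772897261952425609831005130692438521483911009739908845681779296876727809286085544737928013534159962961929875804344233448724017674211760555323074493700392815582658507645764381622168847707836583597142636979671601240199676765751946574247566800331430848090811492216886855055091930139487553530162956136532888153424889421601871760215568317120691152035694965213537414415334578196600080050141223613331477170999399816297190666901109436713390914421335160069657792065988052823846242029613736797871176175339982294195460185527787966076643649206990202878931388953074226880650351165691398330009781700824606858059056724478157583696669433578030657094007202757635007322455355470225838171551372984564987174285214450625531240492126686494170546208))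

/-- tables -/
noncomputable def gt333T : T2 := ⟨Tab.mk 6 sw 67 ft333X 0 ft333W, 24, ft333C, 9, dig (nat_lit 7121342635999686) (nat_lit 6),
  nat_lit 1134979744801, gt333E.get⟩

/-- nodes -/
def gt333N0 : List ℕ := [nat_lit 6,
  nat_lit 94,
  nat_lit 18,
  nat_lit 8796109799437,
  nat_lit 2,
  nat_lit 78,
  nat_lit 38,
  nat_lit 26388362952973,
  nat_lit 42,
  nat_lit 70,
  nat_lit 46,
  nat_lit 66,
  nat_lit 10,
  nat_lit 86,
  nat_lit 26,
  nat_lit 22,
  nat_lit 90,
  nat_lit 62,
  nat_lit 50,
  nat_lit 34,
  nat_lit 82,
  nat_lit 54,
  nat_lit 58,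
  nat_lit 1487682816761004685000417572531581186236759713277903086754618837454168147494518642489321109420931122134478313884678403674409429556058879624042552891722360475998212287817980966497104563663565837086765364771424712379101968621578048026328458351425308535472619450339806661441536,
  nat_lit 74,
  nat_lit 14]

theorem gt333_0 : partOK gt333T.ck gt333N0 0 26 = true := by decide +kernel

/-- packed table -/
noncomputable def gt333G : BW := (.l (nat_lit 0) (nat_lit 33) (nat_lit 10727609091294433064676437428292578600469513248305053702))

/-- generators -/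
noncomputable def gt333D : Rd := ⟨8, 6, dig (nat_lit 278162549296128) (nat_lit 6), 6, gt333G.get⟩

/-- search tree -/
def gt333B : BB := (.br (nat_lit 0) (.br (nat_lit 1) (.br (nat_lit 2) (.br (nat_lit 3) (.br (nat_lit 4) (.br (nat_lit 5) (.br (nat_lit 6) (.br (nat_lit 7) .nil (.far (nat_lit 129) (nat_lit 0))) (.far (nat_lit 65) (nat_lit 0))) 
  (.far (nat_lit 1) (nat_lit 0))) 
  (.far (nat_lit 1) (nat_lit 0))) 
  (.far (nat_lit 4098) (nat_lit 0))) 
  (.far (nat_lit 2050) (nat_lit 0))) 
  (.br (nat_lit 2) (.far (nat_lit 4098) (nat_lit 0)) (.br (nat_lit 4) (.far (nat_lit 4162) (nat_lit 0)) (.dom (nat_lit 1))))) 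
  (.br (nat_lit 1) (.br (nat_lit 0) (.br (nat_lit 2) (.br (nat_lit 3) (.br (nat_lit 4) (.br (nat_lit 5) (.br (nat_lit 6) (.br (nat_lit 7) (.far (nat_lit 0) (nat_lit 1)) (.far (nat_lit 129) (nat_lit 0))) (.far (nat_lit 65) (nat_lit 0))) 
  (.far (nat_lit 1) (nat_lit 0))) 
  (.far (nat_lit 1) (nat_lit 0))) 
  (.br (nat_lit 4) (.far (nat_lit 4162) (nat_lit 0)) (.dom (nat_lit 2)))) 
  (.br (nat_lit 5) (.far (nat_lit 65) (nat_lit 129)) (.dom (nat_lit 3)))) 
  (.br (nat_lit 7) (.br (nat_lit 3) (.br (nat_lit 2) (.far (nat_lit 1) (nat_lit 4162)) (.br (nat_lit 5) (.far (nat_lit 0) (nat_lit 129)) (.dom (nat_lit 3)))) 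
  (.br (nat_lit 4) (.br (nat_lit 5) (.far (nat_lit 65) (nat_lit 1)) 
  (.br (nat_lit 2) (.br (nat_lit 0) (.far (nat_lit 4162) (nat_lit 0)) (.br (nat_lit 6) (.far (nat_lit 129) (nat_lit 1)) (.dom (nat_lit 0)))) 
  (.dom (nat_lit 3)))) 
  (.dom (nat_lit 2)))) 
  (.dom (nat_lit 5)))) 
  (.br (nat_lit 6) (.br (nat_lit 2) (.far (nat_lit 129) (nat_lit 65)) (.br (nat_lit 4) (.far (nat_lit 129) (nat_lit 1)) (.dom (nat_lit 1)))) 
  (.dom (nat_lit 4)))))

theorem gt333_bb : gt333D.ok gt333B [] (2 ^ gt333D.np - 1) = true := by decide +kernel

theorem gt333_gen : allB (gt333D.genOK 1) gt333D.nG = true := by decide +kernel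

/-- packed table -/
noncomputable def gt333R : BW := (.l (nat_lit 0) (nat_lit 45) (nat_lit 19896440640357248218558943673262005943260277786435680234879888962617449))

theorem gt333_root : rootsOK gt333T gt333D 26 1 6 gt333R.get = true := by decide +kernel

theorem gt333_ck : Cov gt333T.ck 26 :=
  allI_step (allI_zero _) gt333_0

theorem gt333_red : Red 6 8 ft333I 0 ft333J :=
  red_of (T := gt333T) (by decide +kernel) sw6 ft333X_ok ft333W_ok gt333_ck gt333_bb gt333_gen gt333_root

/-- packed table -/
noncomputable def gt244E : BW := (.b (nat_lit 64) (.b (nat_lit 32) (.l (nat_lit 0) (nat_lit 159) (nat_lit 4722385776573671434519639211979557522228263251024386536853733353432105733889783293767558719896694832175332448100442930159291273941992620012420979705049608329917239418152687675778739641219370316453762371282638851783999436460670830440469491366600054317556973485453087074479505613199053496713289572452035289125326160440985306836263040768767786196922838611674244960813341414083520933762922154643781736037700163401390210436319506183772589659634926072686813202969732329863497328540090484265184320831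3864916846241589947340686699650388299637105822559600718583166996513504704502134479327692508728449660444684452676343704842652862966490605612060316200743859848161729627373089289711522127773783475480260001299028925858932693063982878285065577579186732290272229884948015312178332549553416916603079577187754727724508721316381987570425901879137597614333065938574587290680682575624650902624675864876464934022739670083683971517383438667668169759550314789526840394542096005021510949318651426461649257222703740938895881394327999310852158502749933668362248038699543973717841870612148198633575079396629570098253470282805261668292919858846842552388423496624472685565964986791820573001053746491548918853869711951272804339198168151792845482857252937481918672621282708722012722603393794339629721780373865333341442731750852993573088205370137088937041117188505207222816282759266280205341180108228691334643237790216665921627691929113823501333407406259923919479119938689226955829322786867279543571568607641140091715561734958521136078389280))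
  (.l (nat_lit 32) (nat_lit 161) (nat_lit 432816954735373305847111625125067940793155570184279228986531105778799229905196941007543253115412700484768869285349289257872290431738134688636271517715705486003481944299986899749490724472091124066826357491345506189190278844048310166021679132989122227756513500016996421791294245933653613811555263973621056405526252402320667203127741791960846978284465083173473666023958340532898024474217392784029537438941539755449736674301952032677555923236282760791681696013921852811736199734088689212373236519324776866629476290824141194046066300138739122276366112672778096791804514827241228187058040853677333663019056179290320394209892104145585316688501207535669385573907587111793931280648347953741632811446143819214902326283416973095165023233838969791332671786334273099530174169950212441930273171570141166321406406582974126846407507014818198884398036070198257359036790065320383340880486012421751356323394611320474483508676305364798280982812526725506879133955250395934718119139545287110817655629228513340959718721838674060195486156060094058414285412311337666515392969964479067505500610836012399240662132643127768557968812776830877999410275702269071951991643444996896139047769429903805251802553124066072527569701541277283830915044565731738957956012614340424031723377244369014632358184030866380657978745915848073899746611078190996903313519146397578770605675874678112327279358394918290695641598462391585399447423646895152482643801452424673755336438708554382440178612923408472419892970614183955984869474736520654998750391189159305870589586285207885365931910210179370616866)))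
  (.b (nat_lit 96) (.l (nat_lit 64) (nat_lit 161) (nat_lit 5334352961726302877691801119345109697307941368307725226479890364491336235046857928520085077817195715021486745851112098043540679569832434099810402642314657397271119124691098723351065235306913942473217416155857040704549505372731820951473653980706135091789313215747115096612477735668177662144752900988317677267396846641095291925850200306914989909967500738572550455614688788941133536679785801364653259700567259178291467431258361523414251402962245763766934340364142746830301010355276140804055103453678096521631018650247077880458285274697770879115042681916346884425888881476150188510239922161023630456754039135300003238532562041682598017448803120353301428466470220034854391299293832536646137207485406196107792067730679605149950431194764932441479602961714464069370949248718237446058453433311713687712378524065976355892947635598216564348581297761816685103736470876093620955460506231846298082476321146673402297254327600238932149353723443572468186544630025282226166065354087649546474289704641974506866077811312559938422171591429320226736479053434851481012501226623932586040984366324121503646797173636769729127169401801834261232059895311870284078019407309382819964521869327109204589444851376018704666688783630886309380874616832112064507970961010364001718430438624698667111669838471174199429296007463469814537803695129822927511254447728825087536320874702880229271029683840553939072679546025749962590884793373136935951465218218751142678461885050886334070353681556728997492217480604355849963626156867264619214209522817689205906516366796409635078145))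
  (.l (nat_lit 96) (nat_lit 116) (nat_lit 4073560931598226264358193877224716300381352993042387574202680841194482604332219407051869162658721962933984246912250741440659548276712634655710591473405165511240266589074636121696169837723893175371025587275123388446853236541053521999464348923884804049839444386453553008133199165309562806466880939610286698698140592325693111601333434384260924834513332815309643579511309929404218027628297190807108864173378432598857135847645225670800561499411175265851705376))))

/-- tables -/
noncomputable def gt244T : T2 := ⟨Tab.mk 7 sw 1317 ft244X 6 ft244W, 38, ft244C, 10, dig (nat_lit 529825048402891271) (nat_lit 6),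
  nat_lit 36319351833633, gt244E.get⟩

/-- nodes -/
def gt244N0 : List ℕ := [nat_lit 110,
  nat_lit 90,
  nat_lit 98,
  nat_lit 58,
  nat_lit 46,
  nat_lit 54,
  nat_lit 130,
  nat_lit 14,
  nat_lit 30,
  nat_lit 122,
  nat_lit 110340053087723480427496782210875301086384524728244160528,
  nat_lit 6,
  nat_lit 3325640702952834913533973,
  nat_lit 102,
  nat_lit 82,
  nat_lit 114,
  nat_lit 70,
  nat_lit 70368995836813,
  nat_lit 86,
  nat_lit 4398348501133,
  nat_lit 106,
  nat_lit 87961232212877,
  nat_lit 150,
  nat_lit 142,
  nat_lit 34,
  nat_lit 26,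
  nat_lit 146,
  nat_lit 114349511280205,
  nat_lit 26699372489153253295416400738131470566769494251819722747767693842183996391521134514547105185054304132874655219171654692843331264018417195980903857111984691961635431747773847451669460975615646970864588831166692201961636488187029789200273705150338639529139984550040,
  nat_lit 134217865,
  nat_lit 18446744073944434513,
  nat_lit 78,
  nat_lit 35740628215681517393,
  nat_lit 62,
  nat_lit 38046449234746541905,
  nat_lit 74,
  nat_lit 10578129744722795390043285,
  nat_lit 126,
  nat_lit 42658174835374425937,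
  nat_lit 18,
  nat_lit 44964017844890109777,
  nat_lit 1825787705312226334359117060382704032333160878411604366482899204099089806113264452461274865429230776701804275565556839390044832388063170131063216643435552395107085652592744514390375748285788887461863644612824935767388244018630662200340894072735140169094736327241512726464664,
  nat_lit 218103945,
  nat_lit 38,
  nat_lit 70369465598861,
  nat_lit 136339676725773,
  nat_lit 4398348501453,
  nat_lit 22,
  nat_lit 94,
  nat_lit 743851081756258587774834915085445175756785577228239629649829975750828816334462196782403218412519493437430345799245331089953393135226142438985132220554205447253006184192494496641935562215545427088247011354300674504100278737829139235447125267270171253642026301661140443381912,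
  nat_lit 2291642106380529454002169968112588847693143005593700,
  nat_lit 10,
  nat_lit 2,
  nat_lit 637520156026887840471806865201494359525323452453936496740,
  nat_lit 138,
  nat_lit 184552841,
  nat_lit 110340053089329134081790987078458555346211787331517597712,
  nat_lit 2619020792420715948264978893737587529880525891250184,
  nat_lit 134,
  nat_lit 527178746667140461265505511969814195940003284367631802468,
  nat_lit 723338409741447514878005825082688698741294872938285183028,
  nat_lit 42,
  nat_lit 302301783163816940405077,
  nat_lit 71481133285624516369,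
  nat_lit 66,
  nat_lit 3324619790942913431601301,
  nat_lit 10376328725917601233,
  nat_lit 404579150166456964953523803642028368659135073460281315456,
  nat_lit 1964269664549562141835905937220208480783153918705740,
  nat_lit 245199660683921699888595485831302435626553212016612481152,
  nat_lit 845939175442192034680994310702103331751110698298323941384,
  nat_lit 29976183420200421201,
  nat_lit 14204887603865920276005717,
  nat_lit 33434868769284423889,
  nat_lit 6044638321467173548065621,
  nat_lit 11182573054820550944227477,
  nat_lit 35740601827268233873,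
  nat_lit 74916609532622647095834386752977593062520430417827448524767178289402905019311979186421017994492231625595147908732636168324641891678389159219960385610078946851554399824795417787033309432657866593950643481781773023923104436463765430738872170211272702532259570385116,
  nat_lit 3324546004050181779095765,
  nat_lit 13939359545656547639341894519852500314582231116,
  nat_lit 110339819247461507780777224630857673310184165250169870352,
  nat_lit 17592236379533,
  nat_lit 50332557,
  nat_lit 281475077374285,
  nat_lit 81804786253118274781608384755098467707514460182953981421708493478612545114274399098849773890044390454927089512619366753566968264773033489594681617963855783669187123126624009777137914523386893951674999611597762471905911382436085320048598191447387216959618856083532,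
  nat_lit 1029837517910878762100689763463442226086995018661409914932,
  nat_lit 8070476920610885073,
  nat_lit 15366607238362507521638120528587375725729908744,
  nat_lit 79246598733317864685718997209,
  nat_lit 15723419161538997488498356912914953746739470344,
  nat_lit 1153189785628574033,
  nat_lit 27200880516953854676309461,
  nat_lit 19806396992539391767527697673530833957650578332026992,
  nat_lit 118,
  nat_lit 1140177851607918749426721525623595842799335810948142352400,
  nat_lit 245199660692306780338454045153402474650820757829348116608,
  nat_lit 245200455742239655592489475858166732132814308338065098880,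
  nat_lit 1176960924814478854924078075808261025102010089302685521936,
  nat_lit 4396206783414530303400291512519620492101034693562372,
  nat_lit 33434868770693710673,
  nat_lit 38046458030638238353,
  nat_lit 17864290700597937315656516043873407699902423044,
  nat_lit 9973646082350388330103253,
  nat_lit 70328211781386764561,
  nat_lit 206708974551245,
  nat_lit 70328308538108018961,
  nat_lit 50,
  nat_lit 32036596477786416528490901,
  nat_lit 38046554788584230545]

theorem gt244_0 : partOK gt244T.ck gt244N0 0 109 = true := by decide +kernel

/-- packed table -/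
noncomputable def gt244G : BW := (.b (nat_lit 32) (.l (nat_lit 0) (nat_lit 49) (nat_lit 7993702478462091262365251272901337734530242070290919326520063351341165730878437292961602729359133411566065478287587652992252130491166015129522436730006784140377620910157864457549634074854062214930475122717484406002288735418893037791198383955623626526693682409303672921701885933414978910473661846155776089496850228608324847554809479933448049346461360733477199978978050535225191581448453857594532864672101494087739496481216043180998479452966606047635522679166762299188022310))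
  (.l (nat_lit 32) (nat_lit 49) (nat_lit 65419860460755248002529088496227802522980264805417)))

/-- generators -/
noncomputable def gt244D : Rd := ⟨16, 16, dig (nat_lit 16592713646595314755115273092702647686184984607928058765265924200205873334848) (nat_lit 16), 36, gt244G.get⟩

/-- search tree -/
def gt244B0 : BB := (.br (nat_lit 0) (.br (nat_lit 10) (.br (nat_lit 1) (.br (nat_lit 6) (.br (nat_lit 2) (.br (nat_lit 3) (.br (nat_lit 4) (.br (nat_lit 5) (.br (nat_lit 7) (.br (nat_lit 8) (.br (nat_lit 9) (.br (nat_lit 11) (.br (nat_lit 12) (.br (nat_lit 13) (.br (nat_lit 14) (.br (nat_lit 15) .nil (.far (nat_lit 0) (nat_lit 129))) (.far (nat_lit 0) (nat_lit 129))) 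
  (.far (nat_lit 0) (nat_lit 193))) 
  (.far (nat_lit 0) (nat_lit 193))) 
  (.far (nat_lit 0) (nat_lit 193))) 
  (.far (nat_lit 0) (nat_lit 385))) 
  (.far (nat_lit 65) (nat_lit 193))) 
  (.far (nat_lit 161) (nat_lit 129))) 
  (.far (nat_lit 65) (nat_lit 289))) 
  (.far (nat_lit 65) (nat_lit 289))) 
  (.far (nat_lit 65) (nat_lit 385))) 
  (.far (nat_lit 5186) (nat_lit 0))) 
  (.br (nat_lit 2) (.br (nat_lit 3) (.far (nat_lit 2082) (nat_lit 9410)) (.br (nat_lit 11) (.far (nat_lit 65) (nat_lit 129)) (.dom (nat_lit 35)))) 
  (.br (nat_lit 12) (.far (nat_lit 161) (nat_lit 1)) (.dom (nat_lit 21))))) 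
  (.br (nat_lit 3) (.br (nat_lit 12) (.far (nat_lit 0) (nat_lit 289)) (.br (nat_lit 7) (.far (nat_lit 4162) (nat_lit 9410)) (.dom (nat_lit 22)))) 
  (.br (nat_lit 14) (.br (nat_lit 6) (.far (nat_lit 200771) (nat_lit 0)) (.br (nat_lit 11) (.far (nat_lit 65) (nat_lit 1)) (.dom (nat_lit 35)))) 
  (.dom (nat_lit 25))))) 
  (.br (nat_lit 1) (.br (nat_lit 6) (.br (nat_lit 2) (.br (nat_lit 4) (.far (nat_lit 2050) (nat_lit 12418)) (.br (nat_lit 7) (.far (nat_lit 65) (nat_lit 193)) (.dom (nat_lit 34)))) 
  (.br (nat_lit 8) (.far (nat_lit 161) (nat_lit 33)) (.dom (nat_lit 20)))) 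
  (.br (nat_lit 5) (.br (nat_lit 2) (.br (nat_lit 3) (.far (nat_lit 33) (nat_lit 193)) (.br (nat_lit 11) (.far (nat_lit 65) (nat_lit 129)) (.dom (nat_lit 35)))) 
  (.br (nat_lit 8) (.br (nat_lit 12) (.br (nat_lit 3) (.br (nat_lit 4) (.far (nat_lit 161) (nat_lit 65)) 
  (.br (nat_lit 7) (.br (nat_lit 9) (.far (nat_lit 129) (nat_lit 193)) (.br (nat_lit 10) (.far (nat_lit 0) (nat_lit 289)) (.dom (nat_lit 8)))) 
  (.dom (nat_lit 34)))) 
  (.br (nat_lit 11) (.br (nat_lit 4) (.br (nat_lit 6) (.far (nat_lit 0) (nat_lit 385)) (.br (nat_lit 13) (.far (nat_lit 193) (nat_lit 129)) (.dom (nat_lit 12)))) 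
  (.br (nat_lit 7) (.br (nat_lit 14) (.br (nat_lit 6) (.far (nat_lit 65) (nat_lit 33)) 
  (.br (nat_lit 13) (.br (nat_lit 10) (.far (nat_lit 65) (nat_lit 1)) 
  (.br (nat_lit 9) (.br (nat_lit 2) (.far (nat_lit 385) (nat_lit 129)) (.br (nat_lit 15) (.far (nat_lit 289) (nat_lit 1)) (.dom (nat_lit 33)))) 
  (.dom (nat_lit 8)))) 
  (.dom (nat_lit 12)))) 
  (.dom (nat_lit 2))) 
  (.dom (nat_lit 34)))) 
  (.dom (nat_lit 35)))) 
  (.dom (nat_lit 21))) 
  (.dom (nat_lit 20)))) 
  (.dom (nat_lit 26)))) 
  (.br (nat_lit 9) (.br (nat_lit 7) (.br (nat_lit 6) (.br (nat_lit 2) (.far (nat_lit 2050) (nat_lit 6178)) (.br (nat_lit 8) (.far (nat_lit 161) (nat_lit 33)) (.dom (nat_lit 20)))) 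
  (.br (nat_lit 5) (.br (nat_lit 2) (.far (nat_lit 289) (nat_lit 193)) 
  (.br (nat_lit 8) (.br (nat_lit 12) (.br (nat_lit 3) (.far (nat_lit 129) (nat_lit 193)) 
  (.br (nat_lit 14) (.br (nat_lit 15) (.far (nat_lit 385) (nat_lit 33)) (.dom (nat_lit 17))) (.dom (nat_lit 25)))) 
  (.dom (nat_lit 21))) 
  (.dom (nat_lit 20)))) 
  (.dom (nat_lit 26)))) 
  (.br (nat_lit 12) (.br (nat_lit 4) (.br (nat_lit 3) (.br (nat_lit 5) (.far (nat_lit 0) (nat_lit 301123)) 
  (.br (nat_lit 6) (.br (nat_lit 8) (.far (nat_lit 161) (nat_lit 33)) 
  (.br (nat_lit 2) (.br (nat_lit 10) (.far (nat_lit 0) (nat_lit 289)) (.dom (nat_lit 4))) (.dom (nat_lit 20)))) 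
  (.dom (nat_lit 26)))) 
  (.br (nat_lit 14) (.br (nat_lit 6) (.br (nat_lit 8) (.br (nat_lit 1) (.far (nat_lit 0) (nat_lit 385)) (.br (nat_lit 15) (.far (nat_lit 193) (nat_lit 33)) (.dom (nat_lit 18)))) 
  (.br (nat_lit 2) (.br (nat_lit 11) (.br (nat_lit 1) (.far (nat_lit 65) (nat_lit 129)) 
  (.br (nat_lit 15) (.br (nat_lit 10) (.far (nat_lit 129) (nat_lit 1)) 
  (.br (nat_lit 5) (.br (nat_lit 7) (.far (nat_lit 385) (nat_lit 33)) (.br (nat_lit 13) (.far (nat_lit 289) (nat_lit 1)) (.dom (nat_lit 32)))) 
  (.dom (nat_lit 4)))) 
  (.dom (nat_lit 18)))) 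
  (.dom (nat_lit 0))) 
  (.dom (nat_lit 20)))) 
  (.br (nat_lit 11) (.br (nat_lit 13) (.br (nat_lit 5) (.br (nat_lit 2) (.far (nat_lit 385) (nat_lit 129)) (.br (nat_lit 15) (.far (nat_lit 289) (nat_lit 1)) (.dom (nat_lit 17)))) 
  (.dom (nat_lit 26))) 
  (.dom (nat_lit 14))) 
  (.dom (nat_lit 35)))) 
  (.dom (nat_lit 25)))) 
  (.dom (nat_lit 34))) 
  (.dom (nat_lit 22)))) 
  (.dom (nat_lit 27))))) 
  (.br (nat_lit 1) (.br (nat_lit 6) (.br (nat_lit 4) (.br (nat_lit 8) (.far (nat_lit 0) (nat_lit 385)) (.br (nat_lit 11) (.far (nat_lit 6210) (nat_lit 12418)) (.dom (nat_lit 23)))) 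
  (.br (nat_lit 14) (.br (nat_lit 8) (.far (nat_lit 6210) (nat_lit 12322)) (.br (nat_lit 11) (.far (nat_lit 301123) (nat_lit 0)) (.dom (nat_lit 23)))) 
  (.dom (nat_lit 24)))) 
  (.br (nat_lit 13) (.br (nat_lit 11) (.br (nat_lit 10) (.br (nat_lit 2) (.far (nat_lit 2082) (nat_lit 4098)) (.br (nat_lit 12) (.far (nat_lit 161) (nat_lit 1)) (.dom (nat_lit 21)))) 
  (.br (nat_lit 5) (.br (nat_lit 2) (.far (nat_lit 385) (nat_lit 129)) 
  (.br (nat_lit 8) (.br (nat_lit 12) (.br (nat_lit 4) (.far (nat_lit 193) (nat_lit 129)) 
  (.br (nat_lit 14) (.br (nat_lit 15) (.far (nat_lit 289) (nat_lit 1)) (.dom (nat_lit 16))) (.dom (nat_lit 24)))) 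
  (.dom (nat_lit 21))) 
  (.dom (nat_lit 20)))) 
  (.dom (nat_lit 26)))) 
  (.br (nat_lit 8) (.br (nat_lit 3) (.br (nat_lit 4) (.br (nat_lit 5) (.far (nat_lit 0) (nat_lit 397379)) 
  (.br (nat_lit 10) (.br (nat_lit 12) (.far (nat_lit 161) (nat_lit 1)) 
  (.br (nat_lit 2) (.br (nat_lit 6) (.far (nat_lit 0) (nat_lit 385)) (.dom (nat_lit 5))) (.dom (nat_lit 21)))) 
  (.dom (nat_lit 26)))) 
  (.br (nat_lit 14) (.br (nat_lit 10) (.br (nat_lit 12) (.br (nat_lit 0) (.far (nat_lit 0) (nat_lit 289)) (.br (nat_lit 15) (.far (nat_lit 129) (nat_lit 1)) (.dom (nat_lit 19)))) 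
  (.br (nat_lit 2) (.br (nat_lit 7) (.br (nat_lit 0) (.far (nat_lit 65) (nat_lit 193)) 
  (.br (nat_lit 15) (.br (nat_lit 6) (.far (nat_lit 193) (nat_lit 33)) 
  (.br (nat_lit 5) (.br (nat_lit 9) (.far (nat_lit 385) (nat_lit 33)) (.br (nat_lit 11) (.far (nat_lit 289) (nat_lit 1)) (.dom (nat_lit 31)))) 
  (.dom (nat_lit 5)))) 
  (.dom (nat_lit 19)))) 
  (.dom (nat_lit 1))) 
  (.dom (nat_lit 21)))) 
  (.br (nat_lit 7) (.br (nat_lit 9) (.br (nat_lit 5) (.br (nat_lit 2) (.far (nat_lit 289) (nat_lit 193)) (.br (nat_lit 15) (.far (nat_lit 385) (nat_lit 33)) (.dom (nat_lit 16)))) 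
  (.dom (nat_lit 26))) 
  (.dom (nat_lit 9))) 
  (.dom (nat_lit 34)))) 
  (.dom (nat_lit 24)))) 
  (.dom (nat_lit 35))) 
  (.dom (nat_lit 23)))) 
  (.dom (nat_lit 28)))) 
  (.br (nat_lit 15) (.br (nat_lit 14) (.br (nat_lit 6) (.br (nat_lit 10) (.br (nat_lit 7) (.far (nat_lit 4162) (nat_lit 1026)) (.br (nat_lit 12) (.far (nat_lit 161) (nat_lit 1)) (.dom (nat_lit 22)))) 
  (.br (nat_lit 9) (.br (nat_lit 7) (.far (nat_lit 385) (nat_lit 33)) 
  (.br (nat_lit 4) (.br (nat_lit 12) (.br (nat_lit 8) (.far (nat_lit 193) (nat_lit 33)) 
  (.br (nat_lit 11) (.br (nat_lit 13) (.far (nat_lit 289) (nat_lit 1)) (.dom (nat_lit 13))) (.dom (nat_lit 23)))) 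
  (.dom (nat_lit 22))) 
  (.dom (nat_lit 34)))) 
  (.dom (nat_lit 27)))) 
  (.br (nat_lit 13) (.br (nat_lit 10) (.br (nat_lit 11) (.far (nat_lit 289) (nat_lit 1)) 
  (.br (nat_lit 3) (.br (nat_lit 8) (.br (nat_lit 12) (.far (nat_lit 129) (nat_lit 1)) 
  (.br (nat_lit 7) (.br (nat_lit 9) (.far (nat_lit 385) (nat_lit 33)) (.dom (nat_lit 10))) (.dom (nat_lit 22)))) 
  (.dom (nat_lit 23))) 
  (.dom (nat_lit 35)))) 
  (.br (nat_lit 9) (.br (nat_lit 5) (.br (nat_lit 7) (.far (nat_lit 385) (nat_lit 33)) 
  (.br (nat_lit 12) (.br (nat_lit 4) (.br (nat_lit 8) (.far (nat_lit 289) (nat_lit 65)) (.br (nat_lit 11) (.far (nat_lit 289) (nat_lit 1)) (.dom (nat_lit 23)))) 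
  (.dom (nat_lit 34))) 
  (.dom (nat_lit 22)))) 
  (.dom (nat_lit 26))) 
  (.dom (nat_lit 27)))) 
  (.dom (nat_lit 28)))) 
  (.br (nat_lit 3) (.br (nat_lit 4) (.br (nat_lit 8) (.br (nat_lit 12) (.far (nat_lit 161) (nat_lit 65)) 
  (.br (nat_lit 7) (.br (nat_lit 6) (.br (nat_lit 9) (.far (nat_lit 1) (nat_lit 33)) (.br (nat_lit 1) (.far (nat_lit 0) (nat_lit 385)) (.dom (nat_lit 11)))) 
  (.br (nat_lit 5) (.br (nat_lit 2) (.br (nat_lit 13) (.br (nat_lit 9) (.far (nat_lit 289) (nat_lit 65)) (.br (nat_lit 1) (.far (nat_lit 161) (nat_lit 129)) (.dom (nat_lit 11)))) 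
  (.dom (nat_lit 28))) 
  (.dom (nat_lit 21))) 
  (.dom (nat_lit 7)))) 
  (.dom (nat_lit 22)))) 
  (.br (nat_lit 11) (.br (nat_lit 10) (.br (nat_lit 12) (.br (nat_lit 13) (.far (nat_lit 33) (nat_lit 1)) (.br (nat_lit 0) (.far (nat_lit 0) (nat_lit 289)) (.dom (nat_lit 15)))) 
  (.br (nat_lit 2) (.br (nat_lit 7) (.br (nat_lit 6) (.br (nat_lit 0) (.far (nat_lit 65) (nat_lit 193)) 
  (.br (nat_lit 13) (.br (nat_lit 1) (.far (nat_lit 193) (nat_lit 129)) 
  (.br (nat_lit 9) (.br (nat_lit 5) (.far (nat_lit 385) (nat_lit 129)) (.br (nat_lit 14) (.far (nat_lit 289) (nat_lit 1)) (.dom (nat_lit 30)))) 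
  (.dom (nat_lit 11)))) 
  (.dom (nat_lit 15)))) 
  (.br (nat_lit 13) (.br (nat_lit 5) (.far (nat_lit 385) (nat_lit 129)) (.dom (nat_lit 7))) (.dom (nat_lit 28)))) 
  (.dom (nat_lit 22))) 
  (.dom (nat_lit 3)))) 
  (.br (nat_lit 5) (.br (nat_lit 2) (.br (nat_lit 9) (.br (nat_lit 13) (.far (nat_lit 385) (nat_lit 129)) (.br (nat_lit 7) (.far (nat_lit 289) (nat_lit 193)) (.dom (nat_lit 13)))) 
  (.dom (nat_lit 27))) 
  (.dom (nat_lit 20))) 
  (.dom (nat_lit 6)))) 
  (.dom (nat_lit 23)))) 
  (.dom (nat_lit 24))) 
  (.dom (nat_lit 25)))) 
  (.dom (nat_lit 29)))))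

/-- search tree -/
def gt244B : BB := gt244B0

theorem gt244_bb : gt244D.ok gt244B [] (2 ^ gt244D.np - 1) = true := by decide +kernel

theorem gt244_gen : allB (gt244D.genOK 20) gt244D.nG = true := by decide +kernel

/-- packed table -/
noncomputable def gt244R : BW := (.b (nat_lit 32) (.l (nat_lit 0) (nat_lit 80) (nat_lit 27081263146517856420820121567593775807514381069489515246710820066100284480909190725974662693379939861414929075577764527078508092842050273487035981678050935604592767402908661443338913704347276698427566081536232142297265872414350949271103849655171149942604467097335518706287418261720054727368700907681973645097435272496778488342770819382937043735259371202889520410042880340499641546775433912237539933108954614109598771345268492366158996624564112042277121683535763236133966461292123178374925383540538020898868764914465124217190237338426193815355351462007471315450022261098757653237887552106924505540382819434568107970606324248528855345804438702477356734580185085147302925238622313725169533589423274517189689582955670700493861790618141154349378619754913178680233316759643433))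
  (.b (nat_lit 64) (.l (nat_lit 32) (nat_lit 119) (nat_lit 1706266789196020019266325879379608939266626200914538702213784486653531826436847310645637856284566008038877669215504438907868648396766065601450668456261818297308825453224005045992368916157618069107161914408836807118439656306970992054637216133509728258019581810627925580443041678319627014540861920635774258816671730510586996386855177646684785493097416437550025927634918830699356952462688454263847850108861821105149104396003657845393361486257287996773929582842029239074353242724586925316737635807155627888405344573789082068074266090882854050588185191346483747519467319477173349253092122698870454112667433419802428526492869973087340580680651301194075677022082882836486828951636013660601687779065782678247931930172428797634460936805213171978878861791869090554359986420580873731430167439122329273433388329026780599471810978903163230815554716501279040999815871715549141858761182137519668271394706351171616481509952677770419374735059756098594640061388680812379113800912317322095474826398618121799820810771679571349977352274225773483064929859649343077333976749726080169670786164929622455464385573393344444041614289071972547872592836992965249453526425274053))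
  (.l (nat_lit 64) (nat_lit 13) (nat_lit 54734697))))

theorem gt244_root : rootsOK gt244T gt244D 109 20 34 gt244R.get = true := by decide +kernel

theorem gt244_ck : Cov gt244T.ck 109 :=
  allI_step (allI_zero _) gt244_0

theorem gt244_red : Red 7 9 ft244I 3 ft244J :=
  red_of (T := gt244T) (by decide +kernel) sw7 ft244X_ok ft244W_ok gt244_ck gt244_bb gt244_gen gt244_root

/-- packed table -/
noncomputable def gt334E : BW := (.b (nat_lit 64) (.b (nat_lit 32) (.l (nat_lit 0) (nat_lit 106) (nat_lit 65273982446510880843336256409746033366960674954790871454123884998615671940382625337005449732223357244451439138227381136785881808854711347064389114680179642356489947030256840504069916951669739362514470675196638124327161477045254295056450725115548269056226133276381694538676013642538433351954496186012175000818722018995299494743004589858654139524021439422291132217268356747134141850014282850467498323643214832518013429590146167652462247453569462512589586580425241933243861427748732859472732553097811551332381786043762905937294759908100422326370733070904639895558644684769048585494858565470459013762834086004598773081316584923412039181522459740286558041743920990910809625123849643746018882127236936747809623117368914288645752553292132260423118003362768282062141315966471752172998113278871916224799792963444022760062283569784438054932346881690188629092966217606884258680109532558891062896609784855970182835384363943887619151151005526428360962569752529799049125054561527561656691290895315680397943767765742330941633725440))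
  (.l (nat_lit 32) (nat_lit 120) (nat_lit 1309795812189894126332538002845909557662714708559864267673967925607907208463806007915861797478353974953670633458257872284885553945947497330565504738202762943222161966909682313856767081632067616862775279100743892727642515615903799740605899591182970739405641779009538912597928847128425539454216095164793493796455776954359812548415009376990333056303278658847623438345736419749892449861657648180034857393969675073450594178001410762655167776295514968623326761403200202196962891053864371260114419058188027647588371947494279025209424356252265280865122401983946900058407262687741793660400248592130889117126484158657654054791317005637248542396866240054954712706097360372674745442940781400587479498262884598008124224146875099365394022558777777205404983503404223872059162902997733993186707012837120076508787074119607246224654292274733270373982782661876154523801420685945872786534183403185616531287163606433973960571211801799696375883780025243572752934842118269876127800290338391647667949857166695582254049313383011503914041920667823800241878109571755771349766101177224767288795220585540342835632980702969977930127762594581398108115636961170207853432765326704605430784)))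
  (.b (nat_lit 96) (.l (nat_lit 64) (nat_lit 120) (nat_lit 335695443376557794257004113089983563862408296056486358167764094771435396990478477949750923513860409938968604508767888194389489653480280885214188413387891759926711993149303333305372571015033096651585692274465647925988669088586476688779535547242956794878995514897848404921745228622528778306802677632971258924742819047982298052543522500860161400192838455339867152917210566753278531527653882785300057273458077065661514194536574957543743494199856656960191393055587425855423559962180207804281384434809283829019141892267245433646398278492684210376526140938525977969999490368402049918055828803851728370921016997382553187164168648198412125365366326694689165158856196804046436539753731553621486584496861791515778351053842306456182888866632888914885162259388435024804004689879229365484438795661214216552051297719671223075021598163642131374674863159787623701338234513083733736312297386960734049069266990890021872645290816914058056123673553399702970763812665190208921925106402325443470793530320551560983400164083189764633854688489505514179354650557358649126753488803754702326682362875001731429517272121546339108565067591735760216212099957273939246230295835852658509858))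
  (.l (nat_lit 96) (nat_lit 117) (nat_lit 44951075232924958339593341641707724133673703803700564283704272169670533009417465524400172785666342017713797529666977788219973642318384694564926939489524156493258961687965965069287578038594790385701982584259743371306725168779621591725045760383319519741527797284495313689974769317089720771601004169671748790311082350692150295184642254139961488167320549820113841511213261048512167029448715472594718220998979105376149801567505462761855149273743451153617788055790916052216742046716378362154329013280674276356825055293203139693191529177676654415086125281384805700995286620590040535290545192334527359209858457165341171255352803792035648571519604554766367689457919343801822884409792780496418459861316133955068425654571387452891308175092105168688228785745125877663542133968092133465976680723954334867260667822787855426))))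

/-- tables -/
noncomputable def gt334T : T2 := ⟨Tab.mk 7 sw 1888 ft334X 55 ft334W, 38, ft334C, 10, dig (nat_lit 529824842244461063) (nat_lit 6),
  nat_lit 36319351833633, gt334E.get⟩

/-- nodes -/
def gt334N0 : List ℕ := [nat_lit 142,
  nat_lit 30,
  nat_lit 16777225,
  nat_lit 134,
  nat_lit 18,
  nat_lit 4611703610663764113,
  nat_lit 90,
  nat_lit 16777609,
  nat_lit 74,
  nat_lit 9223389629091152337,
  nat_lit 62,
  nat_lit 110,
  nat_lit 14,
  nat_lit 54,
  nat_lit 38,
  nat_lit 102,
  nat_lit 183899651978682220991221301495368074155826984117513267232,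
  nat_lit 196159569536843313284601516915090561148519850642536175632,
  nat_lit 126,
  nat_lit 301990153,
  nat_lit 21905556966058492561,
  nat_lit 82,
  nat_lit 232940304342032530600517995935466936449862748595540738076,
  nat_lit 6,
  nat_lit 146,
  nat_lit 42,
  nat_lit 419430665,
  nat_lit 10,
  nat_lit 46,
  nat_lit 50,
  nat_lit 281980535795052160884821552177995932732620244188988129296,
  nat_lit 70,
  nat_lit 94,
  nat_lit 114,
  nat_lit 98,
  nat_lit 1215975474057632483747108300368421949667489285882132,
  nat_lit 2,
  nat_lit 306500698291130821183028048472079593142286257221635621140,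
  nat_lit 34,
  nat_lit 58,
  nat_lit 22,
  nat_lit 281980535800047527926264840476466533975540412910193033424,
  nat_lit 385875977,
  nat_lit 385878409,
  nat_lit 281980535795052160969892143908385291103375166717362806816,
  nat_lit 66,
  nat_lit 416839862783292824810172650512444241769833391323280975904,
  nat_lit 26,
  nat_lit 576219913481921606684873512109935778591204802434037852192,
  nat_lit 206708202800013,
  nat_lit 54187420668204679633,
  nat_lit 8943993142244360470460080355038447623503741076,
  nat_lit 54187420668070461585,
  nat_lit 600739374456857535758613349772353413377570536266054903960,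
  nat_lit 78,
  nat_lit 563960884518361664671167476598869286516331080435293688016,
  nat_lit 9836022897016465564724874132898365233968652556,
  nat_lit 118,
  nat_lit 17227226364249691943601621,
  nat_lit 17227224058446265148507605,
  nat_lit 10549646275479892918888357749107171211445649424,
  nat_lit 11787053258498814018324181,
  nat_lit 14204904897728072367736661,
  nat_lit 11084864160244627874749442502382749491213320400,
  nat_lit 11263270121834536014548463283509100191142782984,
  nat_lit 453620784661226838068678863177797655776923893042951303232,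
  nat_lit 429100201256958369591085140299462109131050548919033597968,
  nat_lit 11798488325613624873269439446537821779129475340,
  nat_lit 65716644510315841169,
  nat_lit 12155299929774097785078929464737853241352724512,
  nat_lit 138,
  nat_lit 563958359040499455970546519970277185156881567833807525904,
  nat_lit 17227219446795430908658069,
  nat_lit 3324562144885276147713493,
  nat_lit 13047329737715322712906753264393203183202097168,
  nat_lit 86,
  nat_lit 2011027726210546674371149398737114818133991665803368,
  nat_lit 98079901694474187905567331932288907854298723551456370792,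
  nat_lit 576219679641302821806596245019927892802953176957876125904,
  nat_lit 98079901687873167326802267474038239980418491685419405328,
  nat_lit 106,
  nat_lit 576218370135122149556298537837127825257504227997403631632,
  nat_lit 14204922191550640765797013,
  nat_lit 600740356584530574432668422772144988644724510905697652800,
  nat_lit 14204922191550640581247189,
  nat_lit 600741525783877973577532290883865502725874439953740548200,
  nat_lit 15188202116849601049172871794936260439481467076,
  nat_lit 367801034372915467962199674645916962283928393518169571404,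
  nat_lit 32281920876885050577,
  nat_lit 15723419618794604411496444398867248055464435744,
  nat_lit 21905512986230916817,
  nat_lit 21905512986365134673,
  nat_lit 16258637046303732448073261784046672861002416336,
  nat_lit 956277404573127739888117310016476191548212142984146243588,
  nat_lit 16615449788285965882327248091439984075391238308,
  nat_lit 16793855739240184079250565397212659191571908640,
  nat_lit 539440534949895020098334541688144273522550436527961391180,
  nat_lit 31128937799291505361,
  nat_lit 17329073273088809277687016114497930085102895120,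
  nat_lit 54187315114702537105,
  nat_lit 576219024888926109495898635797269377541015288784582912032,
  nat_lit 4676807069513792192671068357027145000761218051381264,
  nat_lit 54187315115088413073,
  nat_lit 2244868344995169736780137259614764788739852456826896,
  nat_lit 150,
  nat_lit 130,
  nat_lit 281979881042675448648560710719292706131934622511845648416,
  nat_lit 1299556218656126107982552160011583825317036176405307627536,
  nat_lit 6951344215463559889420693,
  nat_lit 3324562144885275577287829,
  nat_lit 19469944354892142183239770303700142538802354192,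
  nat_lit 48422720785723949137,
  nat_lit 4611699213087015377,
  nat_lit 416838974190297327621197409116404974989576246623302985760,
  nat_lit 1385376109248773067370678809999668965642460680510564866064,
  nat_lit 17227197541242862695350933,
  nat_lit 65716543355128644049,
  nat_lit 20718786086009857080248968061343158524613509148,
  nat_lit 31734336199660426043064341]

theorem gt334_0 : partOK gt334T.ck gt334N0 0 119 = true := by decide +kernel

/-- packed table -/
noncomputable def gt334G : BW := (.b (nat_lit 32) (.l (nat_lit 0) (nat_lit 49) (nat_lit 8658980118900684694775826436741137975398334016341985085252303949194358355189452389717902619085791566856316723052012374278063117757834648026986670431833146373076790550431373829383613579521169210385345168976990198053401117306525835893575448887998023447172543191344749826044439424123477294637847994815096654418403749454812674954280298750032685883534992315718048616274756452151986006454317527420086928198283735035398312148701131106961304970538280567769264318575653965583748134))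
  (.l (nat_lit 32) (nat_lit 49) (nat_lit 59391166206765252046410854624990674209737595258953)))

/-- generators -/
noncomputable def gt334D : Rd := ⟨16, 16, dig (nat_lit 16592936347053634716421467098845220599285165323056042847194402171667598035520) (nat_lit 16), 36, gt334G.get⟩

/-- search tree -/
def gt334B0 : BB := (.br (nat_lit 0) (.br (nat_lit 3) (.br (nat_lit 1) (.br (nat_lit 5) (.br (nat_lit 2) (.br (nat_lit 4) (.br (nat_lit 6) (.br (nat_lit 7) (.br (nat_lit 8) (.br (nat_lit 9) (.br (nat_lit 10) (.br (nat_lit 11) (.br (nat_lit 12) (.br (nat_lit 13) (.br (nat_lit 14) (.br (nat_lit 15) .nil (.far (nat_lit 0) (nat_lit 129))) (.far (nat_lit 0) (nat_lit 129))) 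
  (.far (nat_lit 0) (nat_lit 129))) 
  (.far (nat_lit 0) (nat_lit 289))) 
  (.far (nat_lit 1) (nat_lit 0))) 
  (.far (nat_lit 1) (nat_lit 0))) 
  (.far (nat_lit 1) (nat_lit 0))) 
  (.far (nat_lit 1) (nat_lit 0))) 
  (.far (nat_lit 5122) (nat_lit 0))) 
  (.far (nat_lit 5122) (nat_lit 0))) 
  (.far (nat_lit 5122) (nat_lit 0))) 
  (.far (nat_lit 5122) (nat_lit 0))) 
  (.br (nat_lit 2) (.br (nat_lit 4) (.far (nat_lit 2050) (nat_lit 0)) (.br (nat_lit 8) (.far (nat_lit 161) (nat_lit 193)) (.dom (nat_lit 34)))) 
  (.br (nat_lit 11) (.far (nat_lit 161) (nat_lit 97)) (.dom (nat_lit 21))))) 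
  (.br (nat_lit 8) (.br (nat_lit 11) (.far (nat_lit 0) (nat_lit 289)) (.br (nat_lit 6) (.far (nat_lit 4098) (nat_lit 9410)) (.dom (nat_lit 22)))) 
  (.br (nat_lit 7) (.br (nat_lit 5) (.far (nat_lit 200707) (nat_lit 0)) (.br (nat_lit 4) (.far (nat_lit 1) (nat_lit 97)) (.dom (nat_lit 34)))) 
  (.dom (nat_lit 25))))) 
  (.br (nat_lit 1) (.br (nat_lit 5) (.br (nat_lit 2) (.br (nat_lit 6) (.far (nat_lit 3074) (nat_lit 0)) (.br (nat_lit 9) (.far (nat_lit 161) (nat_lit 129)) (.dom (nat_lit 33)))) 
  (.br (nat_lit 13) (.far (nat_lit 161) (nat_lit 65)) (.dom (nat_lit 20)))) 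
  (.br (nat_lit 10) (.br (nat_lit 2) (.br (nat_lit 4) (.far (nat_lit 2050) (nat_lit 6274)) (.br (nat_lit 8) (.far (nat_lit 161) (nat_lit 193)) (.dom (nat_lit 34)))) 
  (.br (nat_lit 11) (.br (nat_lit 13) (.br (nat_lit 8) (.br (nat_lit 9) (.far (nat_lit 161) (nat_lit 1)) 
  (.br (nat_lit 6) (.br (nat_lit 3) (.far (nat_lit 0) (nat_lit 289)) (.br (nat_lit 14) (.far (nat_lit 129) (nat_lit 193)) (.dom (nat_lit 8)))) 
  (.dom (nat_lit 33)))) 
  (.br (nat_lit 4) (.br (nat_lit 9) (.br (nat_lit 5) (.far (nat_lit 0) (nat_lit 385)) (.br (nat_lit 12) (.far (nat_lit 193) (nat_lit 129)) (.dom (nat_lit 12)))) 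
  (.br (nat_lit 6) (.br (nat_lit 7) (.br (nat_lit 3) (.far (nat_lit 1) (nat_lit 97)) 
  (.br (nat_lit 14) (.br (nat_lit 5) (.far (nat_lit 97) (nat_lit 65)) 
  (.br (nat_lit 12) (.br (nat_lit 2) (.far (nat_lit 385) (nat_lit 129)) (.br (nat_lit 15) (.far (nat_lit 385) (nat_lit 65)) (.dom (nat_lit 32)))) 
  (.dom (nat_lit 12)))) 
  (.dom (nat_lit 8)))) 
  (.dom (nat_lit 2))) 
  (.dom (nat_lit 33)))) 
  (.dom (nat_lit 34)))) 
  (.dom (nat_lit 20))) 
  (.dom (nat_lit 21)))) 
  (.dom (nat_lit 35)))) 
  (.br (nat_lit 14) (.br (nat_lit 6) (.br (nat_lit 5) (.br (nat_lit 2) (.far (nat_lit 3074) (nat_lit 6210)) (.br (nat_lit 13) (.far (nat_lit 161) (nat_lit 65)) (.dom (nat_lit 20)))) 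
  (.br (nat_lit 10) (.br (nat_lit 2) (.far (nat_lit 289) (nat_lit 193)) 
  (.br (nat_lit 11) (.br (nat_lit 13) (.br (nat_lit 8) (.far (nat_lit 129) (nat_lit 193)) 
  (.br (nat_lit 7) (.br (nat_lit 15) (.far (nat_lit 385) (nat_lit 65)) (.dom (nat_lit 17))) (.dom (nat_lit 25)))) 
  (.dom (nat_lit 20))) 
  (.dom (nat_lit 21)))) 
  (.dom (nat_lit 35)))) 
  (.br (nat_lit 11) (.br (nat_lit 9) (.br (nat_lit 8) (.br (nat_lit 10) (.far (nat_lit 0) (nat_lit 301059)) 
  (.br (nat_lit 5) (.br (nat_lit 13) (.far (nat_lit 161) (nat_lit 1)) 
  (.br (nat_lit 2) (.br (nat_lit 3) (.far (nat_lit 0) (nat_lit 289)) (.dom (nat_lit 4))) (.dom (nat_lit 20)))) 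
  (.dom (nat_lit 35)))) 
  (.br (nat_lit 7) (.br (nat_lit 5) (.br (nat_lit 13) (.br (nat_lit 1) (.far (nat_lit 0) (nat_lit 385)) (.br (nat_lit 15) (.far (nat_lit 193) (nat_lit 65)) (.dom (nat_lit 18)))) 
  (.br (nat_lit 2) (.br (nat_lit 4) (.br (nat_lit 1) (.far (nat_lit 1) (nat_lit 129)) 
  (.br (nat_lit 15) (.br (nat_lit 3) (.far (nat_lit 129) (nat_lit 97)) 
  (.br (nat_lit 10) (.br (nat_lit 6) (.far (nat_lit 385) (nat_lit 65)) (.br (nat_lit 12) (.far (nat_lit 289) (nat_lit 97)) (.dom (nat_lit 31)))) 
  (.dom (nat_lit 4)))) 
  (.dom (nat_lit 18)))) 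
  (.dom (nat_lit 0))) 
  (.dom (nat_lit 20)))) 
  (.br (nat_lit 4) (.br (nat_lit 12) (.br (nat_lit 10) (.br (nat_lit 2) (.far (nat_lit 385) (nat_lit 129)) (.br (nat_lit 15) (.far (nat_lit 289) (nat_lit 97)) (.dom (nat_lit 17)))) 
  (.dom (nat_lit 35))) 
  (.dom (nat_lit 14))) 
  (.dom (nat_lit 34)))) 
  (.dom (nat_lit 25)))) 
  (.dom (nat_lit 33))) 
  (.dom (nat_lit 22)))) 
  (.dom (nat_lit 26))))) 
  (.br (nat_lit 1) (.br (nat_lit 5) (.br (nat_lit 9) (.br (nat_lit 13) (.far (nat_lit 0) (nat_lit 385)) (.br (nat_lit 4) (.far (nat_lit 6146) (nat_lit 12418)) (.dom (nat_lit 23)))) 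
  (.br (nat_lit 7) (.br (nat_lit 3) (.far (nat_lit 200707) (nat_lit 0)) (.br (nat_lit 6) (.far (nat_lit 1) (nat_lit 65)) (.dom (nat_lit 33)))) 
  (.dom (nat_lit 24)))) 
  (.br (nat_lit 12) (.br (nat_lit 4) (.br (nat_lit 3) (.br (nat_lit 2) (.far (nat_lit 2050) (nat_lit 4194)) (.br (nat_lit 11) (.far (nat_lit 161) (nat_lit 97)) (.dom (nat_lit 21)))) 
  (.br (nat_lit 10) (.br (nat_lit 2) (.far (nat_lit 385) (nat_lit 129)) 
  (.br (nat_lit 11) (.br (nat_lit 13) (.br (nat_lit 9) (.far (nat_lit 193) (nat_lit 129)) 
  (.br (nat_lit 7) (.br (nat_lit 15) (.far (nat_lit 289) (nat_lit 97)) (.dom (nat_lit 16))) (.dom (nat_lit 24)))) 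
  (.dom (nat_lit 20))) 
  (.dom (nat_lit 21)))) 
  (.dom (nat_lit 35)))) 
  (.br (nat_lit 13) (.br (nat_lit 8) (.br (nat_lit 9) (.br (nat_lit 10) (.far (nat_lit 0) (nat_lit 397315)) 
  (.br (nat_lit 3) (.br (nat_lit 11) (.far (nat_lit 161) (nat_lit 1)) 
  (.br (nat_lit 2) (.br (nat_lit 5) (.far (nat_lit 0) (nat_lit 385)) (.dom (nat_lit 5))) (.dom (nat_lit 21)))) 
  (.dom (nat_lit 35)))) 
  (.br (nat_lit 7) (.br (nat_lit 3) (.br (nat_lit 11) (.br (nat_lit 0) (.far (nat_lit 0) (nat_lit 289)) (.br (nat_lit 15) (.far (nat_lit 129) (nat_lit 97)) (.dom (nat_lit 19)))) 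
  (.br (nat_lit 2) (.br (nat_lit 6) (.br (nat_lit 0) (.far (nat_lit 1) (nat_lit 193)) 
  (.br (nat_lit 15) (.br (nat_lit 5) (.far (nat_lit 193) (nat_lit 65)) 
  (.br (nat_lit 10) (.br (nat_lit 4) (.far (nat_lit 289) (nat_lit 97)) (.br (nat_lit 14) (.far (nat_lit 385) (nat_lit 65)) (.dom (nat_lit 30)))) 
  (.dom (nat_lit 5)))) 
  (.dom (nat_lit 19)))) 
  (.dom (nat_lit 1))) 
  (.dom (nat_lit 21)))) 
  (.br (nat_lit 6) (.br (nat_lit 14) (.br (nat_lit 10) (.br (nat_lit 2) (.far (nat_lit 289) (nat_lit 193)) (.br (nat_lit 15) (.far (nat_lit 385) (nat_lit 65)) (.dom (nat_lit 16)))) 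
  (.dom (nat_lit 35))) 
  (.dom (nat_lit 9))) 
  (.dom (nat_lit 33)))) 
  (.dom (nat_lit 24)))) 
  (.dom (nat_lit 34))) 
  (.dom (nat_lit 23)))) 
  (.dom (nat_lit 27)))) 
  (.br (nat_lit 15) (.br (nat_lit 7) (.br (nat_lit 3) (.br (nat_lit 5) (.br (nat_lit 4) (.far (nat_lit 6146) (nat_lit 3138)) (.br (nat_lit 13) (.far (nat_lit 193) (nat_lit 65)) (.dom (nat_lit 23)))) 
  (.br (nat_lit 12) (.br (nat_lit 4) (.far (nat_lit 289) (nat_lit 97)) 
  (.br (nat_lit 8) (.br (nat_lit 13) (.br (nat_lit 11) (.far (nat_lit 129) (nat_lit 97)) 
  (.br (nat_lit 6) (.br (nat_lit 14) (.far (nat_lit 385) (nat_lit 65)) (.dom (nat_lit 10))) (.dom (nat_lit 22)))) 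
  (.dom (nat_lit 23))) 
  (.dom (nat_lit 34)))) 
  (.dom (nat_lit 27)))) 
  (.br (nat_lit 14) (.br (nat_lit 5) (.br (nat_lit 6) (.far (nat_lit 385) (nat_lit 65)) 
  (.br (nat_lit 9) (.br (nat_lit 11) (.br (nat_lit 13) (.far (nat_lit 193) (nat_lit 65)) 
  (.br (nat_lit 4) (.br (nat_lit 12) (.far (nat_lit 289) (nat_lit 97)) (.dom (nat_lit 13))) (.dom (nat_lit 23)))) 
  (.dom (nat_lit 22))) 
  (.dom (nat_lit 33)))) 
  (.br (nat_lit 12) (.br (nat_lit 10) (.br (nat_lit 4) (.far (nat_lit 289) (nat_lit 97)) 
  (.br (nat_lit 13) (.br (nat_lit 8) (.br (nat_lit 6) (.far (nat_lit 385) (nat_lit 65)) (.br (nat_lit 11) (.far (nat_lit 385) (nat_lit 1)) (.dom (nat_lit 22)))) 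
  (.dom (nat_lit 34))) 
  (.dom (nat_lit 23)))) 
  (.dom (nat_lit 35))) 
  (.dom (nat_lit 27)))) 
  (.dom (nat_lit 26)))) 
  (.br (nat_lit 8) (.br (nat_lit 9) (.br (nat_lit 11) (.br (nat_lit 13) (.far (nat_lit 161) (nat_lit 1)) 
  (.br (nat_lit 4) (.br (nat_lit 3) (.br (nat_lit 12) (.far (nat_lit 65) (nat_lit 97)) (.br (nat_lit 0) (.far (nat_lit 0) (nat_lit 289)) (.dom (nat_lit 15)))) 
  (.br (nat_lit 10) (.br (nat_lit 2) (.br (nat_lit 14) (.br (nat_lit 12) (.far (nat_lit 385) (nat_lit 1)) (.br (nat_lit 0) (.far (nat_lit 161) (nat_lit 193)) (.dom (nat_lit 15)))) 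
  (.dom (nat_lit 26))) 
  (.dom (nat_lit 20))) 
  (.dom (nat_lit 6)))) 
  (.dom (nat_lit 23)))) 
  (.br (nat_lit 6) (.br (nat_lit 5) (.br (nat_lit 13) (.br (nat_lit 14) (.far (nat_lit 97) (nat_lit 65)) (.br (nat_lit 1) (.far (nat_lit 0) (nat_lit 385)) (.dom (nat_lit 11)))) 
  (.br (nat_lit 2) (.br (nat_lit 4) (.br (nat_lit 3) (.br (nat_lit 0) (.far (nat_lit 1) (nat_lit 193)) 
  (.br (nat_lit 12) (.br (nat_lit 1) (.far (nat_lit 193) (nat_lit 129)) 
  (.br (nat_lit 14) (.br (nat_lit 7) (.far (nat_lit 385) (nat_lit 65)) (.br (nat_lit 10) (.far (nat_lit 385) (nat_lit 129)) (.dom (nat_lit 29)))) 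
  (.dom (nat_lit 11)))) 
  (.dom (nat_lit 15)))) 
  (.br (nat_lit 14) (.br (nat_lit 10) (.far (nat_lit 289) (nat_lit 193)) (.dom (nat_lit 6))) (.dom (nat_lit 26)))) 
  (.dom (nat_lit 23))) 
  (.dom (nat_lit 3)))) 
  (.br (nat_lit 10) (.br (nat_lit 2) (.br (nat_lit 12) (.br (nat_lit 14) (.far (nat_lit 289) (nat_lit 193)) (.br (nat_lit 4) (.far (nat_lit 385) (nat_lit 129)) (.dom (nat_lit 10)))) 
  (.dom (nat_lit 27))) 
  (.dom (nat_lit 21))) 
  (.dom (nat_lit 7)))) 
  (.dom (nat_lit 22)))) 
  (.dom (nat_lit 24))) 
  (.dom (nat_lit 25)))) 
  (.dom (nat_lit 28)))))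

/-- search tree -/
def gt334B : BB := gt334B0

theorem gt334_bb : gt334D.ok gt334B [] (2 ^ gt334D.np - 1) = true := by decide +kernel

theorem gt334_gen : allB (gt334D.genOK 20) gt334D.nG = true := by decide +kernel

/-- packed table -/
noncomputable def gt334R : BW := (.b (nat_lit 32) (.l (nat_lit 0) (nat_lit 81) (nat_lit 5546301931866124535772984895169931430220841793646010297363714374351622027857251834300547943468205912644028911397295795338392612513885846996477751510167612470185389861531134846413438773037196937518919522877207182139590283450188769792918805342428028717476642369231508980147392139171802184158853332653513669579386874712186843814030525777776617245703266623880413860654311362872638526495804156828156312851434381344302035355408076716964765274956647368329371405552613726275462347266237008369627997635814412610266859243830056778336991842184155446546430830537263431088379930517417120426723108382542845200693929156912924354330457915002655498266304148483394656403726268579238321269588263269720931381751782372757627340751262779182156483386602319608694544902979290811340778431642284871017))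
  (.b (nat_lit 64) (.l (nat_lit 32) (nat_lit 100) (nat_lit 27760734879179488215802601198248861423933916417974849168444136588881720895102777618907237846749946101338029239496046545149133752164389645753998626259201574551891015350030367846236775386185006605495984905906336535950391487242740064239817764375035688779899799460995077932947520723131978733492526834110693074980087280345981611830047686175347174709542688453013421580390215958631638674416040348933835665056726052868181311338003555863044510938522440677356627957392912030040473725711039567538261165015890921051852816079473811262396363923192448645028067217386118832014104522723934682764085365761031841838039938641226993765711616395537656005816633310030827847577660546733835852645206284684537080104581887712421514196554839653786956924286276699271481679429961985037068946225278961743919762853127415887137461273716607964661233429937527357769307411159201256924631416277454227669874163688181740012953229704468665827822167378039266381405118120775909668))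
  (.l (nat_lit 64) (nat_lit 101) (nat_lit 4455336168225295186264438125776036828820206443974805994370029058206050063389796536272055370264194772588018444815336670462944608640377721516416345907144918750631522357530959016749877650627481840817019378611507089822822306750045266363622939638155376140073881693329090589136111996833845986138157786204195082871186611142398976394613504588886741550258767107055077729193376232292056098680402960243915303694753098379344352231501075279796242921241821931321042321383120899015496543901370756731247481))))

theorem gt334_root : rootsOK gt334T gt334D 119 20 33 gt334R.get = true := by decide +kernel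

theorem gt334_ck : Cov gt334T.ck 119 :=
  allI_step (allI_zero _) gt334_0

theorem gt334_red : Red 7 9 ft334I 3 ft334J :=
  red_of (T := gt334T) (by decide +kernel) sw7 ft334X_ok ft334W_ok gt334_ck gt334_bb gt334_gen gt334_root

end Pool.Agent.P.MP_40718a_co
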