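import Pool.Agent.P.MP_40718a_co.U.Base
import Pool.Agent.P.MP_40718a_co.U.Count2
import Pool.Agent.P.MP_40718a_co.U.GA
import Pool.Agent.P.MP_40718a_co.U.G566
import Pool.Agent.P.MP_40718a_co.U.G666
import Pool.Agent.P.MP_40718a_co.U.G565

/-! The size of a smallest counterexample. -/

namespace Pool.Agent.P.MP_40718a_co

theorem gc3_cfg {V : Type} [Fintype V] {G : DG V} {K N : ℕ} (h : G.MinU K N) {R : Set V}
    {q : ℕ → V × Fin 3} (hq : G.Emb 3 3 fc3I R q)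
    (hK : ∀ K ∈ fc3K, (∀ t ∈ K, t < 3) ∧ (K.map fun t => (q t).1).Nodup) :
    ∃ u ∈ fc3U, G.Split R 3 q u.1 u.2 :=
  hq.configU h hK (by decide +kernel) fc3_safe (by decide) fc3_minor gc3_red

theorem gc3_free {V : Type} [Fintype V] {G : DG V} {K N : ℕ} (h : G.MinU K N)
    (hF : ∀ H ∈ ([] : List (ℕ × List (ℕ × ℕ))), ¬ G.Cont H) : ¬ G.Cont (3, c3E) :=
  h.free hF (k := 3) (ι := fc3I) (by decide +kernel)
    (W := [[], [], [], [], [], [], [], [], []]) (by decide +kernel)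
    (W' := [[], [], [], [], [], [], [], [], []]) (Cl := fc3K) (by decide +kernel)
    fun _ _ hq hK => by simpa [fc3U] using gc3_cfg h hq (hK _ hq)

theorem gc4_cfg {V : Type} [Fintype V] {G : DG V} {K N : ℕ} (h : G.MinU K N) {R : Set V}
    {q : ℕ → V × Fin 3} (hq : G.Emb 4 4 fc4I R q)
    (hK : ∀ K ∈ fc4K, (∀ t ∈ K, t < 4) ∧ (K.map fun t => (q t).1).Nodup) :
    ∃ u ∈ fc4U, G.Split R 4 q u.1 u.2 :=
  hq.configU h hK (by decide +kernel) fc4_safe (by decide) fc4_minor gc4_red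

theorem gc4_free {V : Type} [Fintype V] {G : DG V} {K N : ℕ} (h : G.MinU K N)
    (hF : ∀ H ∈ ([(3, c3E)] : List (ℕ × List (ℕ × ℕ))), ¬ G.Cont H) : ¬ G.Cont (4, c4E) :=
  h.free hF (k := 4) (ι := fc4I) (by decide +kernel)
    (W := [[], [], [0, 0, 1, 2], [], [], [], [], [0, 0, 1, 3], [0, 0, 1, 2], [], [], [], [], [0, 0, 1, 3], [], []]) (by decide +kernel)
    (W' := [[], [], [], [0, 0, 3, 4], [], [], [0, 1, 2, 4], [], [], [], [], [], [], [], [], []]) (Cl := fc4K) (by decide +kernel)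
    fun _ _ hq hK => by simpa [fc4U] using gc4_cfg h hq (hK _ hq)

theorem gt233_cfg {V : Type} [Fintype V] {G : DG V} {K N : ℕ} (h : G.MinU K N) {R : Set V}
    {q : ℕ → V × Fin 3} (hq : G.Emb 5 7 ft233I R q)
    (hK : ∀ K ∈ ft233K, (∀ t ∈ K, t < 5) ∧ (K.map fun t => (q t).1).Nodup) :
    ∃ u ∈ ft233U, G.Split R 5 q u.1 u.2 :=
  hq.configU h hK (by decide +kernel) ft233_safe (by decide) ft233_minor gt233_red

theorem gt233_free {V : Type} [Fintype V] {G : DG V} {K N : ℕ} (h : G.MinU K N)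
    (hF : ∀ H ∈ ([(3, c3E), (4, c4E)] : List (ℕ × List (ℕ × ℕ))), ¬ G.Cont H) : ¬ G.Cont (7, t233E) :=
  h.free hF (k := 5) (ι := ft233I) (by decide +kernel)
    (W := [[], [0, 0, 2, 3], [0, 1, 2, 4], [0, 0, 2, 5], [0, 1, 2, 6], [0, 0, 2, 3], [], [], [0, 0, 3, 5], [1, 0, 3, 6, 5], [0, 1, 2, 4], [], [], [1, 0, 3, 4, 5], [0, 1, 4, 6], [0, 0, 2, 5], [0, 0, 3, 5], [1, 0, 3, 4, 5], [], [], [0, 1, 2, 6], [1, 0, 3, 6, 5], [0, 1, 4, 6], [], []]) (by decide +kernel)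
    (W' := [[], [], [], [], [], [], [], [], [1, 0, 3, 7, 5], [], [], [], [], [], [], [], [], [], [], [], [], [], [], [], []]) (Cl := ft233K) (by decide +kernel)
    fun _ _ hq hK => by simpa [ft233U] using gt233_cfg h hq (hK _ hq)

theorem gt144_cfg {V : Type} [Fintype V] {G : DG V} {K N : ℕ} (h : G.MinU K N) {R : Set V}
    {q : ℕ → V × Fin 3} (hq : G.Emb 6 8 ft144I R q)
    (hK : ∀ K ∈ ft144K, (∀ t ∈ K, t < 6) ∧ (K.map fun t => (q t).1).Nodup) :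
    ∃ u ∈ ft144U, G.Split R 6 q u.1 u.2 :=
  hq.configU h hK (by decide +kernel) ft144_safe (by decide) ft144_minor gt144_red

theorem gt144_free {V : Type} [Fintype V] {G : DG V} {K N : ℕ} (h : G.MinU K N)
    (hF : ∀ H ∈ ([(3, c3E), (4, c4E), (7, t233E)] : List (ℕ × List (ℕ × ℕ))), ¬ G.Cont H) : ¬ G.Cont (8, t144E) :=
  h.free hF (k := 6) (ι := ft144I) (by decide +kernel)
    (W := [[], [], [0, 2, 3, 4], [0, 0, 2, 5], [1, 0, 2, 6, 5], [1, 0, 1, 7, 2], [], [], [], [1, 0, 2, 3, 5], [2, 0, 3, 2, 1, 4, 5, 6], [1, 1, 4, 3, 7], [0, 2, 3, 4], [], [], [1, 0, 1, 4, 5], [1, 1, 4, 6, 7], [0, 1, 4, 7], [0, 0, 2, 5], [1, 0, 2, 3, 5], [1, 0, 1, 4, 5], [], [], [0, 5, 6, 7], [1, 0, 2, 6, 5], [2, 0, 3, 2, 1, 4, 5, 6], [1, 1, 4, 6, 7], [], [], [], [1, 0, 1, 7, 2], [1, 1, 4, 3, 7], [0, 1, 4, 7], [0, 5, 6, 7], [], []]) (by decide +kernel)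
    (W' := [[], [0, 2, 3, 8], [], [], [], [], [], [], [], [], [], [], [], [], [], [2, 0, 4, 1, 2, 3, 5, 8], [], [], [], [], [], [], [], [], [], [], [], [], [], [0, 6, 7, 8], [], [], [], [], [], []]) (Cl := ft144K) (by decide +kernel)
    fun _ _ hq hK => by simpa [ft144U] using gt144_cfg h hq (hK _ hq)

theorem gt234_cfg {V : Type} [Fintype V] {G : DG V} {K N : ℕ} (h : G.MinU K N) {R : Set V}
    {q : ℕ → V × Fin 3} (hq : G.Emb 6 8 ft234I R q)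
    (hK : ∀ K ∈ ft234K, (∀ t ∈ K, t < 6) ∧ (K.map fun t => (q t).1).Nodup) :
    ∃ u ∈ ft234U, G.Split R 6 q u.1 u.2 :=
  hq.configU h hK (by decide +kernel) ft234_safe (by decide) ft234_minor gt234_red

theorem gt234_free {V : Type} [Fintype V] {G : DG V} {K N : ℕ} (h : G.MinU K N)
    (hF : ∀ H ∈ ([(3, c3E), (4, c4E), (7, t233E), (8, t144E)] : List (ℕ × List (ℕ × ℕ))), ¬ G.Cont H) : ¬ G.Cont (8, t234E) :=
  h.free hF (k := 6) (ι := ft234I) (by decide +kernel)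
    (W := [[], [0, 0, 2, 3], [0, 1, 2, 4], [0, 0, 2, 5], [1, 0, 2, 6, 5], [0, 1, 2, 7], [0, 0, 2, 3], [], [], [0, 0, 3, 5], [1, 0, 3, 6, 5], [1, 1, 4, 3, 7], [0, 1, 2, 4], [], [], [1, 0, 3, 4, 5], [1, 1, 4, 6, 7], [0, 1, 4, 7], [0, 0, 2, 5], [0, 0, 3, 5], [1, 0, 3, 4, 5], [], [], [0, 5, 6, 7], [1, 0, 2, 6, 5], [1, 0, 3, 6, 5], [1, 1, 4, 6, 7], [], [], [], [0, 1, 2, 7], [1, 1, 4, 3, 7], [0, 1, 4, 7], [0, 5, 6, 7], [], []]) (by decide +kernel)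
    (W' := [[], [1, 0, 2, 8, 3], [1, 1, 2, 8, 4], [], [], [], [], [], [0, 3, 4, 8], [], [], [], [], [], [], [], [], [], [], [], [], [], [], [], [], [], [], [], [], [0, 6, 7, 8], [], [], [], [], [], []]) (Cl := ft234K) (by decide +kernel)
    fun _ _ hq hK => by simpa [ft234U] using gt234_cfg h hq (hK _ hq)

theorem gt333_cfg {V : Type} [Fintype V] {G : DG V} {K N : ℕ} (h : G.MinU K N) {R : Set V}
    {q : ℕ → V × Fin 3} (hq : G.Emb 6 8 ft333I R q)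
    (hK : ∀ K ∈ ft333K, (∀ t ∈ K, t < 6) ∧ (K.map fun t => (q t).1).Nodup) :
    ∃ u ∈ ft333U, G.Split R 6 q u.1 u.2 :=
  hq.configU h hK (by decide +kernel) ft333_safe (by decide) ft333_minor gt333_red

theorem gt333_free {V : Type} [Fintype V] {G : DG V} {K N : ℕ} (h : G.MinU K N)
    (hF : ∀ H ∈ ([(3, c3E), (4, c4E), (7, t233E), (8, t144E), (8, t234E)] : List (ℕ × List (ℕ × ℕ))), ¬ G.Cont H) : ¬ G.Cont (8, t333E) :=
  h.free hF (k := 6) (ι := ft333I) (by decide +kernel)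
    (W := [[], [], [0, 0, 2, 4], [1, 0, 2, 5, 4], [0, 0, 2, 6], [1, 0, 2, 7, 6], [], [], [1, 0, 2, 3, 4], [0, 1, 3, 5], [1, 0, 2, 3, 6], [0, 1, 3, 7], [0, 0, 2, 4], [1, 0, 2, 3, 4], [], [], [0, 0, 4, 6], [1, 0, 4, 7, 6], [1, 0, 2, 5, 4], [0, 1, 3, 5], [], [], [1, 0, 4, 5, 6], [0, 1, 5, 7], [0, 0, 2, 6], [1, 0, 2, 3, 6], [0, 0, 4, 6], [1, 0, 4, 5, 6], [], [], [1, 0, 2, 7, 6], [0, 1, 3, 7], [1, 0, 4, 7, 6], [0, 1, 5, 7], [], []]) (by decide +kernel)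
    (W' := [[], [0, 2, 3, 8], [], [], [], [], [], [], [], [], [], [], [], [], [], [0, 4, 5, 8], [], [], [], [], [], [], [], [], [], [], [], [], [], [0, 6, 7, 8], [], [], [], [], [], []]) (Cl := ft333K) (by decide +kernel)
    fun _ _ hq hK => by simpa [ft333U] using gt333_cfg h hq (hK _ hq)

theorem gt244_cfg {V : Type} [Fintype V] {G : DG V} {K N : ℕ} (h : G.MinU K N) {R : Set V}
    {q : ℕ → V × Fin 3} (hq : G.Emb 7 9 ft244I R q)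
    (hK : ∀ K ∈ ft244K, (∀ t ∈ K, t < 7) ∧ (K.map fun t => (q t).1).Nodup) :
    ∃ u ∈ ft244U, G.Split R 7 q u.1 u.2 :=
  hq.configU h hK (by decide +kernel) ft244_safe (by decide) ft244_minor gt244_red

theorem gt244_free {V : Type} [Fintype V] {G : DG V} {K N : ℕ} (h : G.MinU K N)
    (hF : ∀ H ∈ ([(3, c3E), (4, c4E), (7, t233E), (8, t144E), (8, t234E), (8, t333E)] : List (ℕ × List (ℕ × ℕ))), ¬ G.Cont H) : ¬ G.Cont (9, t244E) :=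
  h.free hF (k := 7) (ι := ft244I) (by decide +kernel)
    (W := [[], [0, 0, 2, 3], [1, 0, 2, 4, 3], [0, 1, 2, 5], [0, 0, 2, 6], [1, 0, 2, 7, 6], [0, 1, 2, 8], [0, 0, 2, 3], [], [], [0, 3, 4, 5], [0, 0, 3, 6], [1, 0, 3, 7, 6], [2, 0, 8, 3, 2, 1, 6, 7], [1, 0, 2, 4, 3], [], [], [], [1, 0, 3, 4, 6], [3, 4, 7, 3, 0, 6, 5, 1, 8], [1, 1, 5, 4, 8], [0, 1, 2, 5], [0, 3, 4, 5], [], [], [2, 0, 5, 6, 2, 1, 3, 4], [1, 1, 5, 7, 8], [0, 1, 5, 8], [0, 0, 2, 6], [0, 0, 3, 6], [1, 0, 3, 4, 6], [2, 0, 5, 6, 2, 1, 3, 4], [], [], [0, 6, 7, 8], [1, 0, 2, 7, 6], [1, 0, 3, 7, 6], [3, 4, 7, 3, 0, 6, 5, 1, 8], [1, 1, 5, 7, 8], [], [], [], [0, 1, 2, 8], [2, 0, 8, 3, 2, 1, 6, 7], [1, 1, 5, 4, 8], [0, 1, 5, 8], [0, 6, 7, 8], [], []]) (by decide +kernel)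
    (W' := [[], [], [], [], [], [2, 2, 7, 9, 0, 6, 1, 8], [], [], [], [], [], [1, 0, 3, 9, 6], [], [], [], [], [], [0, 4, 5, 9], [], [], [], [], [], [], [], [], [], [], [], [], [], [], [], [], [], [], [], [], [], [], [], [], [], [], [], [], [], [], []]) (Cl := ft244K) (by decide +kernel)
    fun _ _ hq hK => by simpa [ft244U] using gt244_cfg h hq (hK _ hq)

theorem gt334_cfg {V : Type} [Fintype V] {G : DG V} {K N : ℕ} (h : G.MinU K N) {R : Set V}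
    {q : ℕ → V × Fin 3} (hq : G.Emb 7 9 ft334I R q)
    (hK : ∀ K ∈ ft334K, (∀ t ∈ K, t < 7) ∧ (K.map fun t => (q t).1).Nodup) :
    ∃ u ∈ ft334U, G.Split R 7 q u.1 u.2 :=
  hq.configU h hK (by decide +kernel) ft334_safe (by decide) ft334_minor gt334_red

theorem gt334_free {V : Type} [Fintype V] {G : DG V} {K N : ℕ} (h : G.MinU K N)
    (hF : ∀ H ∈ ([(3, c3E), (4, c4E), (7, t233E), (8, t144E), (8, t234E), (8, t333E), (9, t244E)] : List (ℕ × List (ℕ × ℕ))), ¬ G.Cont H) : ¬ G.Cont (9, t334E) :=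
  h.free hF (k := 7) (ι := ft334I) (by decide +kernel)
    (W := [[], [], [0, 0, 2, 4], [1, 0, 2, 5, 4], [0, 0, 2, 6], [1, 0, 2, 7, 6], [1, 1, 3, 2, 8], [], [], [1, 0, 2, 3, 4], [0, 1, 3, 5], [1, 0, 2, 3, 6], [1, 1, 3, 7, 8], [0, 1, 3, 8], [0, 0, 2, 4], [1, 0, 2, 3, 4], [], [], [0, 0, 4, 6], [1, 0, 4, 7, 6], [1, 1, 5, 4, 8], [1, 0, 2, 5, 4], [0, 1, 3, 5], [], [], [1, 0, 4, 5, 6], [1, 1, 5, 7, 8], [0, 1, 5, 8], [0, 0, 2, 6], [1, 0, 2, 3, 6], [0, 0, 4, 6], [1, 0, 4, 5, 6], [], [], [0, 6, 7, 8], [1, 0, 2, 7, 6], [1, 1, 3, 7, 8], [1, 0, 4, 7, 6], [1, 1, 5, 7, 8], [], [], [], [1, 1, 3, 2, 8], [0, 1, 3, 8], [1, 1, 5, 4, 8], [0, 1, 5, 8], [0, 6, 7, 8], [], []]) (by decide +kernel)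
    (W' := [[], [0, 2, 3, 9], [], [], [], [], [], [], [], [], [], [], [], [], [], [], [], [], [1, 0, 4, 9, 6], [], [], [], [], [], [], [], [4, 5, 7, 9, 1, 8, 4, 0, 6], [], [], [], [], [], [], [], [], [], [], [], [], [], [], [], [], [], [], [], [], [], []]) (Cl := ft334K) (by decide +kernel)
    fun _ _ hq hK => by simpa [ft334U] using gt334_cfg h hq (hK _ hq)

theorem gp566_cfg {V : Type} [Fintype V] {G : DG V} {K N : ℕ} (h : G.MinU K N) {R : Set V}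
    {q : ℕ → V × Fin 3} (hq : G.Emb 8 12 fp566I R q)
    (hK : ∀ K ∈ fp566K, (∀ t ∈ K, t < 8) ∧ (K.map fun t => (q t).1).Nodup) :
    ∃ u ∈ fp566U, G.Split R 8 q u.1 u.2 :=
  hq.configU h hK (by decide +kernel) fp566_safe (by decide) fp566_minor gp566_red

theorem gp566_free {V : Type} [Fintype V] {G : DG V} {K N : ℕ} (h : G.MinU K N)
    (hF : ∀ H ∈ ([(3, c3E), (4, c4E), (7, t233E), (8, t144E), (8, t234E), (8, t333E), (9, t244E), (9, t334E)] : List (ℕ × List (ℕ × ℕ))), ¬ G.Cont H) : ¬ G.Cont (12, p566E) :=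
  h.free hF (k := 8) (ι := fp566I) (by decide +kernel)
    (W := [[], [], [0, 1, 4, 6], [1, 1, 4, 7, 6], [2, 0, 4, 1, 2, 5, 3, 8], [1, 2, 5, 4, 9], [2, 2, 4, 5, 0, 1, 9, 10], [2, 0, 4, 1, 2, 5, 3, 11], [], [], [1, 1, 4, 5, 6], [2, 1, 5, 4, 0, 2, 6, 7], [2, 0, 5, 2, 1, 4, 3, 8], [0, 2, 5, 9], [1, 2, 5, 10, 9], [2, 0, 5, 2, 1, 4, 3, 11], [0, 1, 4, 6], [1, 1, 4, 5, 6], [], [], [0, 6, 7, 8], [2, 1, 2, 0, 4, 5, 6, 9], [4, 1, 2, 0, 4, 5, 6, 10, 9], [2, 3, 6, 11, 0, 1, 8, 7], [1, 1, 4, 7, 6], [2, 1, 5, 4, 0, 2, 6, 7], [], [], [], [4, 1, 2, 0, 4, 5, 6, 7, 9], [4, 3, 7, 8, 11, 10, 0, 1, 6], [1, 3, 8, 7, 11], [2, 0, 4, 1, 2, 5, 3, 8], [2, 0, 5, 2, 1, 4, 3, 8], [0, 6, 7, 8], [], [], [2, 3, 9, 8, 0, 2, 11, 10], [1, 3, 8, 10, 11], [0, 3, 8, 11], [1, 2, 5, 4, 9], [0, 2, 5, 9], [2, 1, 2, 0, 4, 5, 6, 9], [4, 1, 2, 0, 4, 5, 6, 7, 9], [2, 3, 9, 8, 0, 2, 11, 10], [],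 [], [0, 9, 10, 11], [2, 2, 4, 5, 0, 1, 9, 10], [1, 2, 5, 10, 9], [4, 1, 2, 0, 4, 5, 6, 10, 9], [4, 3, 7, 8, 11, 10, 0, 1, 6], [1, 3, 8, 10, 11], [], [], [], [2, 0, 4, 1, 2, 5, 3, 11], [2, 0, 5, 2, 1, 4, 3, 11], [2, 3, 6, 11, 0, 1, 8, 7], [1, 3, 8, 7, 11], [0, 3, 8, 11], [0, 9, 10, 11], [], []]) (by decide +kernel)
    (W' := [[], [0, 4, 5, 12], [], [], [], [], [], [], [], [], [], [], [], [], [], [], [], [], [], [0, 6, 7, 12], [], [], [], [], [], [], [], [], [], [], [], [], [], [], [], [], [], [], [4, 3, 10, 11, 8, 12, 0, 2, 9], [], [], [], [], [], [], [], [], [], [], [], [], [], [], [], [], [], [], [], [], [], [], [], [], []]) (Cl := fp566K) (by decide +kernel)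
    fun _ _ hq hK => by simpa [fp566U] using gp566_cfg h hq (hK _ hq)

theorem gp666_cfg {V : Type} [Fintype V] {G : DG V} {K N : ℕ} (h : G.MinU K N) {R : Set V}
    {q : ℕ → V × Fin 3} (hq : G.Emb 9 13 fp666I R q)
    (hK : ∀ K ∈ fp666K, (∀ t ∈ K, t < 9) ∧ (K.map fun t => (q t).1).Nodup) :
    ∃ u ∈ fp666U, G.Split R 9 q u.1 u.2 :=
  hq.configU h hK (by decide +kernel) fp666_safe (by decide) fp666_minor gp666_red

theorem gp666_free {V : Type} [Fintype V] {G : DG V} {K N : ℕ} (h : G.MinU K N)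
    (hF : ∀ H ∈ ([(3, c3E), (4, c4E), (7, t233E), (8, t144E), (8, t234E), (8, t333E), (9, t244E), (9, t334E), (12, p566E)] : List (ℕ × List (ℕ × ℕ))), ¬ G.Cont H) : ¬ G.Cont (13, p666E) :=
  h.free hF (k := 9) (ι := fp666I) (by decide +kernel)
    (W := [[], [], [0, 4, 5, 6], [0, 1, 4, 7], [1, 1, 4, 8, 7], [2, 1, 9, 4, 0, 3, 7, 8], [2, 2, 4, 10, 0, 1, 6, 5], [5, 0, 11, 1, 4, 2, 10, 3, 12], [4, 0, 4, 1, 3, 12, 2, 6, 5], [], [], [], [1, 1, 4, 5, 7], [4, 1, 5, 4, 7, 8, 0, 2, 6], [5, 0, 5, 1, 4, 2, 6, 3, 9], [1, 2, 6, 5, 10], [4, 2, 5, 6, 10, 11, 0, 1, 4], [5, 0, 5, 1, 4, 2, 6, 3, 12], [0, 4, 5, 6], [], [], [2, 1, 6, 7, 0, 2, 4, 5], [5, 0, 8, 1, 7, 2, 6, 3, 9], [4, 0, 6, 2, 3, 9, 1, 4, 5], [0, 2, 6, 10], [1, 2, 6, 11, 10], [2, 2, 12, 6, 0, 3, 10, 11], [0, 1, 4, 7], [1, 1, 4, 5, 7], [2, 1, 6, 7, 0, 2, 4, 5], [], [], [0, 7, 8, 9], [4, 0, 7, 1, 2, 10, 3,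 9, 8], [5, 0, 11, 1, 7, 2, 10, 3, 12], [2, 3, 7, 12, 0, 1, 9, 8], [1, 1, 4, 8, 7], [4, 1, 5, 4, 7, 8, 0, 2, 6], [5, 0, 8, 1, 7, 2, 6, 3, 9], [], [], [], [5, 0, 8, 1, 7, 2, 10, 3, 9], [4, 3, 8, 9, 12, 11, 0, 1, 7], [1, 3, 9, 8, 12], [2, 1, 9, 4, 0, 3, 7, 8], [5, 0, 5, 1, 4, 2, 6, 3, 9], [4, 0, 6, 2, 3, 9, 1, 4, 5], [0, 7, 8, 9], [], [], [2, 3, 10, 9, 0, 2, 12, 11], [1, 3, 9, 11, 12], [0, 3, 9, 12], [2, 2, 4, 10, 0, 1, 6, 5], [1, 2, 6, 5, 10], [0, 2, 6, 10], [4, 0, 7, 1, 2, 10, 3, 9, 8], [5, 0, 8, 1, 7, 2, 10, 3, 9], [2, 3, 10, 9, 0, 2, 12, 11], [], [], [0, 10, 11, 12], [5, 0, 11, 1, 4, 2, 10, 3, 12], [4, 2, 5, 6, 10, 11, 0, 1, 4], [1, 2, 6, 11, 10], [5, 0, 11, 1, 7, 2, 10, 3, 12], [4, 3, 8, 9, 12, 11, 0, 1, 7], [1, 3, 9, 11, 12], [], [], [], [4, 0, 4, 1, 3, 12, 2, 6, 5], [5, 0, 5, 1, 4, 2, 6, 3, 12], [2, 2, 12, 6, 0, 3, 10, 11], [2, 3, 7, 12, 0, 1,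 9, 8], [1, 3, 9, 8, 12], [0, 3, 9, 12], [0, 10, 11, 12], [], []]) (by decide +kernel)
    (W' := [[], [0, 4, 5, 13], [], [1, 1, 4, 13, 7], [4, 1, 8, 7, 4, 13, 0, 3, 9], [5, 1, 9, 0, 3, 4, 13, 7, 8], [5, 2, 4, 0, 1, 6, 5, 10, 13], [7, 0, 11, 2, 10, 3, 12, 1, 4, 13], [6, 0, 4, 1, 2, 6, 5, 3, 12, 13], [], [], [0, 5, 6, 13], [4, 1, 5, 4, 7, 13, 0, 2, 6], [6, 1, 5, 4, 0, 2, 6, 7, 8, 13], [], [4, 2, 5, 6, 10, 13, 0, 1, 4], [6, 2, 5, 6, 0, 1, 4, 10, 11, 13], [7, 0, 5, 1, 4, 2, 6, 3, 12, 13], [], [], [], [5, 1, 6, 0, 2, 4, 5, 7, 13], [7, 0, 8, 1, 7, 3, 9, 2, 6, 13], [6, 0, 6, 2, 1, 4, 5, 3, 9, 13], [1, 2, 6, 13, 10], [4, 2, 11, 10, 6, 13, 0, 3, 12], [5, 2, 12, 0, 3, 6, 13, 10, 11], [], [], [], [], [0, 7, 8, 13], [1, 7, 8, 9, 13], [6, 0, 7, 1, 2, 10, 13, 3, 9, 8], [7, 0, 11, 2, 10, 3, 12, 1, 7, 13], [5, 3, 7, 0, 1, 9, 8, 12, 13], [], [], [], [], [], [0, 8,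 9, 13], [7, 0, 8, 1, 7, 3, 9, 2, 10, 13], [6, 3, 8, 9, 0, 1, 7, 12, 11, 13], [4, 3, 8, 9, 12, 13, 0, 1, 7], [], [], [], [], [], [], [5, 3, 10, 0, 2, 9, 13, 12, 11], [], [1, 3, 9, 13, 12], [], [], [], [], [], [], [], [0, 10, 11, 13], [], [], [], [], [], [], [], [], [], [0, 11, 12, 13], [], [], [], [], [], [], [], [], []]) (Cl := fp666K) (by decide +kernel)
    fun _ _ hq hK =>
      have ha : autOK 9 13 fp666I (dig 252363986675203698318223986799085371628004773358685373057922296995182117602521388712390 6) (dig 228801267242194619570036870113913684534973473894719569736382742727289050774353915949317 6) = true := by decide +kernel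
      hq.unc h.lev (hK _ hq) (wY := fp666Y) ha (L := [230, 294, 225, 353, 417, 293, 291, 214, 305, 206, 297, 220, 218, 94, 158, 286, 217, 281, 198, 289, 481, 295, 216, 30, 222, 313]) (by decide +kernel)
        (gp666_cfg h hq (hK _ hq)) (gp666_cfg h (hq.aut ha) (hK _ (hq.aut ha)))

theorem gm565_cfg {V : Type} [Fintype V] {G : DG V} {K N : ℕ} (h : G.MinU K N) {R : Set V}
    {q : ℕ → V × Fin 3} (hq : G.Emb 8 12 fm565I R q)
    (hK : ∀ K ∈ fm565K, (∀ t ∈ K, t < 8) ∧ (K.map fun t => (q t).1).Nodup) :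
    ∃ u ∈ fm565U, G.Split R 8 q u.1 u.2 :=
  hq.configU h hK (by decide +kernel) fm565_safe (by decide) fm565_minor gm565_red

theorem gm565_free {V : Type} [Fintype V] {G : DG V} {K N : ℕ} (h : G.MinU K N)
    (hF : ∀ H ∈ ([(3, c3E), (4, c4E), (7, t233E), (8, t144E), (8, t234E), (8, t333E), (9, t244E), (9, t334E), (12, p566E), (13, p666E)] : List (ℕ × List (ℕ × ℕ))), ¬ G.Cont H) : ¬ G.Cont (12, m565E) :=
  h.free hF (k := 8) (ι := fm565I) (by decide +kernel)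
    (W := [[], [], [1, 0, 5, 4, 6], [2, 0, 7, 6, 1, 8, 5, 4], [2, 0, 8, 1, 5, 4, 6, 7], [0, 3, 4, 9], [1, 3, 4, 10, 9], [1, 2, 3, 4, 11], [], [], [0, 0, 5, 6], [1, 0, 5, 7, 6], [1, 0, 1, 8, 5], [1, 3, 4, 5, 9], [2, 3, 10, 9, 2, 11, 4, 5], [2, 2, 5, 11, 1, 0, 3, 4], [1, 0, 5, 4, 6], [0, 0, 5, 6], [], [], [0, 6, 7, 8], [4, 1, 6, 0, 8, 7, 2, 3, 9], [4, 1, 6, 0, 8, 7, 2, 11, 10], [2, 1, 6, 0, 2, 11, 8, 7], [2, 0, 7, 6, 1, 8, 5, 4], [1, 0, 5, 7, 6], [], [], [], [4, 1, 7, 8, 0, 6, 2, 3, 9], [4, 1, 7, 8, 0, 6, 2, 11, 10], [2, 1, 7, 8, 0, 6, 2, 11], [2, 0, 8, 1, 5, 4, 6, 7], [1, 0, 1, 8, 5], [0, 6, 7, 8], [], [], [2, 2, 9, 3, 1, 8, 11, 10], [2, 2, 10, 11, 1, 8, 3, 9], [1, 1, 2, 11, 8], [0, 3, 4, 9], [1, 3, 4, 5, 9], [4, 1, 6, 0, 8, 7, 2, 3, 9], [4, 1, 7, 8, 0, 6, 2, 3, 9], [2, 2, 9, 3, 1, 8, 11, 10], [], [], [0, 9, 10, 11], [1, 3, 4, 10, 9], [2, 3, 10, 9,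 2, 11, 4, 5], [4, 1, 6, 0, 8, 7, 2, 11, 10], [4, 1, 7, 8, 0, 6, 2, 11, 10], [2, 2, 10, 11, 1, 8, 3, 9], [], [], [], [1, 2, 3, 4, 11], [2, 2, 5, 11, 1, 0, 3, 4], [2, 1, 6, 0, 2, 11, 8, 7], [2, 1, 7, 8, 0, 6, 2, 11], [1, 1, 2, 11, 8], [0, 9, 10, 11], [], []]) (by decide +kernel)
    (W' := []) (Cl := fm565K) (by decide +kernel)
    fun _ _ hq hK => by simpa [fm565U] using gm565_cfg h hq (hK _ hq)

theorem DG.MinU.bound {V : Type} [Fintype V] [Nonempty V] {G : DG V} {K g : ℕ}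
    (h : G.MinU K (2 ^ g)) : Fintype.card V ≤ 840 * g := by
  have h0 := gc3_free h (by simp)
  have h1 := gc4_free h (by simp only [List.forall_mem_cons, List.not_mem_nil, false_imp_iff, imp_true_iff, and_self, not_false_eq_true, h0])
  have h2 := gt233_free h (by simp only [List.forall_mem_cons, List.not_mem_nil, false_imp_iff, imp_true_iff, and_self, not_false_eq_true, h0, h1])
  have h3 := gt144_free h (by simp only [List.forall_mem_cons, List.not_mem_nil, false_imp_iff, imp_true_iff, and_self, not_false_eq_true, h0, h1, h2])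
  have h4 := gt234_free h (by simp only [List.forall_mem_cons, List.not_mem_nil, false_imp_iff, imp_true_iff, and_self, not_false_eq_true, h0, h1, h2, h3])
  have h5 := gt333_free h (by simp only [List.forall_mem_cons, List.not_mem_nil, false_imp_iff, imp_true_iff, and_self, not_false_eq_true, h0, h1, h2, h3, h4])
  have h6 := gt244_free h (by simp only [List.forall_mem_cons, List.not_mem_nil, false_imp_iff, imp_true_iff, and_self, not_false_eq_true, h0, h1, h2, h3, h4, h5])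
  have h7 := gt334_free h (by simp only [List.forall_mem_cons, List.not_mem_nil, false_imp_iff, imp_true_iff, and_self, not_false_eq_true, h0, h1, h2, h3, h4, h5, h6])
  have h8 := gp566_free h (by simp only [List.forall_mem_cons, List.not_mem_nil, false_imp_iff, imp_true_iff, and_self, not_false_eq_true, h0, h1, h2, h3, h4, h5, h6, h7])
  have h9 := gp666_free h (by simp only [List.forall_mem_cons, List.not_mem_nil, false_imp_iff, imp_true_iff, and_self, not_false_eq_true, h0, h1, h2, h3, h4, h5, h6, h7, h8])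
  have h10 := gm565_free h (by simp only [List.forall_mem_cons, List.not_mem_nil, false_imp_iff, imp_true_iff, and_self, not_false_eq_true, h0, h1, h2, h3, h4, h5, h6, h7, h8, h9])
  refine DG.count2 h.bl h.multi (fun Y _ hY => h.conn Y ?_) h.fam (by
    simp only [forbU, List.forall_mem_cons, List.not_mem_nil, false_imp_iff, imp_true_iff, and_self, not_false_eq_true, h0, h1, h2, h3, h4, h5, h6, h7, h8, h9, h10])
  exact Finset.sum_eq_zero fun d _ => ind_neg fun c => c.2 (hY d c.1 trivial)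

theorem DG.universal (g : ℕ) : ∃ K, 0 < K ∧ ∀ (V : Type) [Fintype V] (G : DG V),
    G.Bridgeless → G.Fam (2 ^ g) → G.CoverK K := by
  obtain ⟨K, h1, h2, h3⟩ := DG.uniform (840 * g)
  refine ⟨K, h1, fun V _ G hB hF => ?_⟩
  by_contra hC
  obtain ⟨W, _, _, H, hH⟩ := DG.exists_minU h2 hB hF hC
  exact hH.nocover (h3 W H hH.bound hH.bl hH.multi)

end Pool.Agent.P.MP_40718a_co
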