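import Pool.Agent.P.MP_40718a_co.U.Win

/-! The checker for blocks. -/

namespace Pool.Agent.P.MP_40718a_co.U

open List

/-- Search trees of packed blocks with their own width. -/
inductive BW : Type
  | l (s w n : ℕ) : BW
  | b (p : ℕ) (x y : BW) : BW

/-- Entry `i` of the table. -/
noncomputable def BW.get (t : BW) (i : ℕ) : ℕ :=
  BW.rec (fun s w n => dig n w (Nat.sub i s)) (fun p _ _ x y => Bool.rec x y (Nat.ble p i)) t

/-- The key of an entry. -/
def ky (e : ℕ) : ℕ := Nat.shiftRight e (nat_lit 80)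

/-- The value of an entry. -/
def vl (e : ℕ) : ℕ := Nat.mod e (nat_lit 1208925819614629174706176)

/-- The parts multiply to the key `K` and add to the value `z`. -/
noncomputable def spl (get : ℕ → ℕ) (K z c : ℕ) : ℕ → ℕ → ℕ → Bool :=
  Nat.rec (motive := fun _ => ℕ → ℕ → ℕ → Bool) (fun _ x y => an (Nat.beq x K) (Nat.beq y z))
    (fun _ ih w x y => force (get (Nat.mod w (nat_lit 262144))) fun e =>
      ih (Nat.shiftRight w (nat_lit 18)) (Nat.mul x (ky e)) (Nat.add y (vl e))) c

/-- The tables of a certificate. -/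
structure T2 where
  /-- the table of sixes -/
  C : Tab
  /-- number of matchings of the configuration -/
  len : ℕ
  /-- matchings of the configuration -/
  cd : ℕ → ℕ
  /-- number of inner edges -/
  m : ℕ
  /-- inner edges -/
  F : ℕ → ℕ
  /-- the all one vector -/
  one : ℕ
  /-- entries -/
  t : ℕ → ℕ

namespace T2
variable (T : T2)

/-- The value of a matching. -/
noncomputable def zeta (i : ℕ) : ℕ := sp (fun j => bit (T.cd i) (T.F j)) T.m

/-- An entry below `b`, or one of the table of sixes. -/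
noncomputable def get (b j : ℕ) : ℕ :=
  Bool.rec
    (Bool.rec (nat_lit 0) (Nat.add (Nat.shiftLeft (Nat.shiftRight
      (T.C.tX (Nat.div j (nat_lit 2))) (nat_lit 10)) (nat_lit 80)) (Nat.mul (nat_lit 2) T.one))
      (Nat.blt (Nat.div j (nat_lit 2)) T.C.nX))
    (Bool.rec (nat_lit 0) (T.t (Nat.div j (nat_lit 2))) (Nat.blt (Nat.div j (nat_lit 2)) b))
    (Nat.beq (Nat.mod j (nat_lit 2)) (nat_lit 0))

/-- One matching at a switching node. -/
noncomputable def step (i a b K z pk w : ℕ) : Bool :=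
  force (su pk (Nat.mod w (nat_lit 16))) fun s =>
    spl (T.get i) (Nat.mul (pr (Nat.xor a s)) (Nat.mul (pr (Nat.xor b s)) K)) z
      (Nat.mod (Nat.shiftRight w (nat_lit 4)) (nat_lit 4)) (Nat.shiftRight w (nat_lit 6))
      (nat_lit 1) (nat_lit 0)

/-- Check of a node. -/
noncomputable def ck (i w : ℕ) : Bool :=
  force (T.t i) fun e => force (ky e) fun K => force (vl e) fun z =>
    Nat.rec
      (force (fld w (nat_lit 2)) fun a => force (fld w (nat_lit 11)) fun b =>
        force (Nat.div K (Nat.mul (pr a) (pr b))) fun K' =>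
          an (Nat.beq K (Nat.mul (pr a) (Nat.mul (pr b) K')))
            (an (Nat.blt (Nat.xor a b) (Nat.pow (nat_lit 2) T.C.k))
              (allN (T.step i a b K' z) (nat_lit 60) (T.C.sw (Nat.xor a b))
                (Nat.shiftRight w (nat_lit 20)))))
      (fun u _ => Nat.rec
        (spl (T.get i) K z (Nat.mod (Nat.shiftRight w (nat_lit 2)) (nat_lit 8))
          (Nat.shiftRight w (nat_lit 5)) (nat_lit 1) (nat_lit 0))
        (fun _ _ => force (Nat.shiftRight w (nat_lit 2)) fun j => an (Nat.blt j T.len)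
          (an (Nat.beq K (pr (T.cd j % 2 ^ T.C.k))) (Nat.beq z (T.zeta j)))) u)
      (Nat.mod w (nat_lit 4))

/-- The side conditions. -/
structure OK (N n : ℕ) : Prop where
  k : T.C.k ≤ 9
  hF : ∀ j < T.m, T.F j < N
  one : T.one = sp (fun _ => 1) T.m
  two : 2 * T.one < 2 ^ 80
  sw : swOK T.C.k T.C.sw = true
  hX : Cov (T.C.ckX (extC T.C.k N T.len T.cd)) T.C.nX
  hW : Cov T.C.ckW T.C.nW
  ck : Cov T.ck n

variable {T} {Λ : Type} [AddCommMonoid Λ] (S : Sy T.C.k Λ)

/-- All lists with key `K` win with value `z`. -/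
def NP (K z : ℕ) : Prop :=
  ∀ xs : List ℕ, (∀ x ∈ xs, x < 512) → (xs.map pr).prod = K → S.Win T.len T.cd T.zeta xs z

variable {S}

lemma NP.mul {a b y z : ℕ} (h : NP S a y) (h' : NP S b z) : NP S (a * b) (y + z) := by
  intro xs h1 h2
  obtain ⟨ys, zs, p, a1, a2⟩ := split_pr xs h1 a b h2
  have h3 := fun x hx => h1 x (p.mem_iff.2 hx)
  exact ((h ys (fun x hx => h3 x (mem_append_left _ hx)) a1).append
    (h' zs (fun x hx => h3 x (mem_append_right _ hx)) a2)).perm p.symm

lemma np_one : NP S 1 0 := by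
  intro xs _ h2
  exact Sy.win_nil.perm (perm_of_pr (l' := []) h2 (by simp)).symm

lemma np_zero (z : ℕ) : NP S 0 z := by
  intro xs h1 h2
  obtain ⟨x, hx, e⟩ := mem_map.1 (prod_eq_zero_iff.1 h2)
  exact absurd e (pr_prime (h1 x hx)).ne_zero

lemma spl_spec {get : ℕ → ℕ} (hg : ∀ j, NP S (ky (get j)) (vl (get j))) {K z : ℕ} :
    ∀ c w x y, NP S x y → spl get K z c w x y = true → NP S K z := by
  intro c
  induction c with
  | zero =>
    intro w x y h1 h2
    change an (Nat.beq x K) (Nat.beq y z) = true at h2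
    rw [an_eq, Nat.beq_eq, Nat.beq_eq] at h2
    rwa [← h2.1, ← h2.2]
  | succ c ih =>
    intro w x y h1 h2
    change force (get (Nat.mod w (nat_lit 262144))) (fun e => spl get K z c
      (Nat.shiftRight w (nat_lit 18)) (Nat.mul x (ky e)) (Nat.add y (vl e))) = true at h2
    rw [force_eq] at h2
    exact ih _ _ _ (h1.mul (hg _)) h2

lemma get_spec {N n : ℕ} (h : T.OK N n) {b : ℕ} (hb : ∀ i < b, NP S (ky (T.t i)) (vl (T.t i)))
    (j : ℕ) : NP S (ky (T.get b j)) (vl (T.get b j)) := by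
  unfold get
  cases Nat.beq (Nat.mod j (nat_lit 2)) (nat_lit 0)
  · cases c : Nat.blt (Nat.div j (nat_lit 2)) T.C.nX
    · change NP S (ky 0) (vl 0)
      rw [show ky 0 = 0 from Nat.zero_shiftRight _]
      exact np_zero _
    · have h2 := h.two
      generalize Nat.div j (nat_lit 2) = i at c
      change NP S (((T.C.tX i >>> 10) <<< 80 + 2 * T.one) >>> 80)
        (((T.C.tX i >>> 10) <<< 80 + 2 * T.one) % 2 ^ 80)
      rw [Nat.shiftLeft_eq, Nat.shiftRight_eq_div_pow _ 80, add_comm,
        Nat.add_mul_div_right _ _ (by positivity), Nat.add_mul_mod_self_right,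
        Nat.div_eq_of_lt h2, Nat.mod_eq_of_lt h2, zero_add, h.one]
      intro xs _ h3
      refine Sy.win_old (i := i) h.hF h.sw h.hX h.hW ?_
      simp only [Tab.lookX, an_eq, force_eq, Nat.blt_eq, Nat.beq_eq]
      exact ⟨Nat.blt_eq.mp c, h3.symm, Nat.mod_lt _ (by norm_num)⟩
  · cases c : Nat.blt (Nat.div j (nat_lit 2)) b
    · change NP S (ky 0) (vl 0)
      rw [show ky 0 = 0 from Nat.zero_shiftRight _]
      exact np_zero _
    · exact hb _ (Nat.blt_eq.mp c)

theorem sound {N n : ℕ} (h : T.OK N n) : ∀ i < n, NP S (ky (T.t i)) (vl (T.t i)) := by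
  intro i
  induction i using Nat.strong_induction_on with
  | _ i ih =>
  intro hi
  have hg := get_spec (S := S) h (b := i) fun j hj => ih j hj (by omega)
  obtain ⟨w, hw⟩ := h.ck i hi
  simp only [ck, force_eq] at hw
  generalize Nat.mod w 4 = u at hw
  rcases u with _ | _ | u
  · simp only [Nat.rec_zero, an_eq, Nat.beq_eq, Nat.blt_eq] at hw
    obtain ⟨h1, h2, h3⟩ := hw
    generalize Nat.div _ _ = K at h1 h3
    intro xs a1 a2
    obtain ⟨ys, zs, p, b1, b2⟩ := split_pr xs a1 (pr (fld w 2) * pr (fld w 11)) K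
      (by rw [a2, h1, mul_assoc]; rfl)
    have p2 : ys.Perm [fld w 2, fld w 11] := perm_of_pr (by simp [b1]) (by simp [fld_lt])
    refine (Sy.win_move fun π hπ => ?_).perm (p.trans (p2.append_right zs)).symm
    obtain ⟨pk, c1, c2⟩ := swOK_spec h.sw h2 hπ
    obtain ⟨v, hv⟩ := allN_spec h3 pk c1
    simp only [step, force_eq] at hv
    refine ⟨v % 16, ?_⟩
    rw [← c2 _ (Nat.mod_lt _ (by norm_num))]
    refine spl_spec hg _ _ _ _ np_one hv _ ?_ (by simp [b2]; rfl)
    simp only [forall_mem_cons]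
    exact ⟨Nat.xor_lt_two_pow (n := 9) (fld_lt _ _) (fld_lt _ _),
      Nat.xor_lt_two_pow (n := 9) (fld_lt _ _) (fld_lt _ _),
      fun x hx => a1 x (p.mem_iff.2 (mem_append_right _ hx))⟩
  · exact spl_spec hg _ _ _ _ np_one hw
  · simp only [an_eq, Nat.beq_eq, Nat.blt_eq] at hw
    obtain ⟨h1, h2, h3⟩ := hw
    intro xs _ a2
    rw [h3]
    refine (Sy.win_one h1).perm (perm_of_pr (by simp [a2, h2]) ?_).symm
    simpa using (Nat.mod_lt _ (by positivity)).trans_le
      (Nat.pow_le_pow_right (by norm_num) h.k)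

/-- Check of a root. -/
noncomputable def root (T : T2) (n K lev w : ℕ) : Bool :=
  spl (T.get n) K (Nat.mul lev T.one) (Nat.mod w (nat_lit 8)) (Nat.shiftRight w (nat_lit 3))
    (nat_lit 1) (nat_lit 0)

theorem root_spec {N n : ℕ} (h : T.OK N n) {xs : List ℕ} {lev w : ℕ} (hx : ∀ x ∈ xs, x < 512)
    (hl : xs.length < 32) (hc : lev < 32) (hr : T.root n (xs.map pr).prod lev w = true) :
    S.Win T.len T.cd (fun i (j : Fin T.m) => bit (T.cd i) (T.F j)) xs (fun _ => lev) := by
  refine Sy.Win.digits hl hc ?_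
  rw [← h.one]
  exact spl_spec (get_spec h (sound h)) _ _ _ _ np_one hr xs hx rfl

end T2

end Pool.Agent.P.MP_40718a_co.U
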