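import Pool.Agent.P.MP_40718a_co.U.Glue

/-! Certificates. -/

namespace Pool.Agent.P.MP_40718a_co

open U

/-- packed table -/
noncomputable def gm565G : BW := (.b (nat_lit 32) (.l (nat_lit 0) (nat_lit 35) (nat_lit 6359541432630278703068725634400466180811760959679176397682638280784928731110716005329597529915255808083433798292896342123727630319645814722174297075533488538084829600158655606034176699095536279423709927596190254367015948097308673316279445411401518683345669531360880594563390238900233798351180194785640887617050292205452191703017925578822))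
  (.b (nat_lit 64) (.l (nat_lit 32) (nat_lit 35) (nat_lit 219451349665348661061450519578045352458350575729207994539886490315380256517334817197632749872111968387949258476985394861444497911221153710336734437004205398193359216171895836487653797729792064000013390754903429778970436754068010515283635385367352630523591520235730522888479371253206330077086759371219088535336278807505609386887449638))
  (.l (nat_lit 64) (nat_lit 50) (nat_lit 5331019856023301628548543196989379378905696239122189518694006429879528915435652335641757396096259370173980932948782485250331285991312450879841125155224917908786501620234451134237123123484327229943390205224093316454721317344259966170397954018483223506861997262122749571314413801596274325428355))))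

/-- generators -/
noncomputable def gm565D : Rd := ⟨18, 14, dig (nat_lit 1035049926161674501264230269486845456000816946264596853049465006035758752912) (nat_lit 14), 84, gm565G.get⟩

/-- search tree -/
def gm565B0 : BB := (.br (nat_lit 1) (.br (nat_lit 2) (.br (nat_lit 3) (.br (nat_lit 4) (.br (nat_lit 5) (.br (nat_lit 6) (.br (nat_lit 7) (.br (nat_lit 8) (.br (nat_lit 9) (.br (nat_lit 10) (.br (nat_lit 11) (.br (nat_lit 12) (.br (nat_lit 13) (.br (nat_lit 14) (.br (nat_lit 15) (.br (nat_lit 16) (.br (nat_lit 17) .nil (.far (nat_lit 0) (nat_lit 97))) (.far (nat_lit 0) (nat_lit 97))) 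
  (.far (nat_lit 0) (nat_lit 97))) 
  (.far (nat_lit 0) (nat_lit 129))) 
  (.far (nat_lit 0) (nat_lit 129))) 
  (.far (nat_lit 0) (nat_lit 129))) 
  (.far (nat_lit 1) (nat_lit 0))) 
  (.far (nat_lit 1) (nat_lit 0))) 
  (.far (nat_lit 1) (nat_lit 0))) 
  (.far (nat_lit 5122) (nat_lit 0))) 
  (.far (nat_lit 2050) (nat_lit 0))) 
  (.far (nat_lit 2050) (nat_lit 0))) 
  (.br (nat_lit 6) (.br (nat_lit 7) (.far (nat_lit 5122) (nat_lit 0)) (.br (nat_lit 9) (.far (nat_lit 1) (nat_lit 7298)) (.dom (nat_lit 80)))) 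
  (.br (nat_lit 10) (.far (nat_lit 2050) (nat_lit 6274)) (.dom (nat_lit 58))))) 
  (.br (nat_lit 6) (.br (nat_lit 9) (.far (nat_lit 1) (nat_lit 7298)) (.br (nat_lit 8) (.far (nat_lit 199683) (nat_lit 0)) (.dom (nat_lit 54)))) 
  (.br (nat_lit 11) (.br (nat_lit 5) (.far (nat_lit 2050) (nat_lit 5250)) (.br (nat_lit 10) (.far (nat_lit 225) (nat_lit 129)) (.dom (nat_lit 58)))) 
  (.dom (nat_lit 64))))) 
  (.br (nat_lit 7) (.br (nat_lit 8) (.far (nat_lit 232451) (nat_lit 0)) (.br (nat_lit 10) (.far (nat_lit 3074) (nat_lit 6274)) (.dom (nat_lit 59)))) 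
  (.br (nat_lit 11) (.br (nat_lit 5) (.far (nat_lit 2050) (nat_lit 5250)) (.br (nat_lit 9) (.far (nat_lit 193) (nat_lit 129)) (.dom (nat_lit 80)))) 
  (.dom (nat_lit 82))))) 
  (.br (nat_lit 3) (.br (nat_lit 4) (.br (nat_lit 6) (.br (nat_lit 7) (.far (nat_lit 5122) (nat_lit 0)) (.br (nat_lit 12) (.far (nat_lit 5122) (nat_lit 7266)) (.dom (nat_lit 55)))) 
  (.br (nat_lit 13) (.br (nat_lit 5) (.far (nat_lit 2050) (nat_lit 6242)) (.br (nat_lit 10) (.far (nat_lit 65) (nat_lit 193)) (.dom (nat_lit 58)))) 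
  (.dom (nat_lit 60)))) 
  (.br (nat_lit 15) (.br (nat_lit 6) (.br (nat_lit 7) (.far (nat_lit 5122) (nat_lit 7234)) (.br (nat_lit 12) (.far (nat_lit 129) (nat_lit 225)) (.dom (nat_lit 55)))) 
  (.br (nat_lit 11) (.br (nat_lit 13) (.br (nat_lit 9) (.br (nat_lit 10) (.br (nat_lit 12) (.far (nat_lit 0) (nat_lit 233475)) 
  (.br (nat_lit 7) (.br (nat_lit 2) (.far (nat_lit 0) (nat_lit 129)) (.br (nat_lit 16) (.far (nat_lit 97) (nat_lit 193)) (.dom (nat_lit 15)))) 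
  (.dom (nat_lit 55)))) 
  (.br (nat_lit 5) (.br (nat_lit 12) (.br (nat_lit 6) (.far (nat_lit 0) (nat_lit 225)) (.br (nat_lit 14) (.far (nat_lit 193) (nat_lit 97)) (.dom (nat_lit 36)))) 
  (.br (nat_lit 7) (.br (nat_lit 8) (.br (nat_lit 2) (.far (nat_lit 1) (nat_lit 161)) 
  (.br (nat_lit 16) (.br (nat_lit 6) (.far (nat_lit 161) (nat_lit 65)) 
  (.br (nat_lit 14) (.br (nat_lit 4) (.far (nat_lit 225) (nat_lit 97)) (.br (nat_lit 17) (.far (nat_lit 225) (nat_lit 65)) (.dom (nat_lit 76)))) 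
  (.dom (nat_lit 36)))) 
  (.dom (nat_lit 15)))) 
  (.dom (nat_lit 0))) 
  (.dom (nat_lit 55)))) 
  (.dom (nat_lit 58)))) 
  (.br (nat_lit 8) (.br (nat_lit 5) (.br (nat_lit 7) (.br (nat_lit 4) (.far (nat_lit 1) (nat_lit 6242)) 
  (.br (nat_lit 17) (.br (nat_lit 2) (.far (nat_lit 97) (nat_lit 161)) 
  (.br (nat_lit 16) (.far (nat_lit 225) (nat_lit 65)) 
  (.br (nat_lit 12) (.br (nat_lit 6) (.far (nat_lit 193) (nat_lit 65)) (.br (nat_lit 14) (.far (nat_lit 193) (nat_lit 97)) (.dom (nat_lit 74)))) 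
  (.dom (nat_lit 15))))) 
  (.dom (nat_lit 42)))) 
  (.br (nat_lit 14) (.br (nat_lit 12) (.far (nat_lit 193) (nat_lit 97)) (.dom (nat_lit 55))) (.dom (nat_lit 30)))) 
  (.br (nat_lit 7) (.br (nat_lit 16) (.br (nat_lit 10) (.far (nat_lit 97) (nat_lit 193)) (.dom (nat_lit 58))) (.dom (nat_lit 12))) 
  (.dom (nat_lit 80)))) 
  (.dom (nat_lit 54)))) 
  (.dom (nat_lit 60))) 
  (.dom (nat_lit 64)))) 
  (.dom (nat_lit 57)))) 
  (.br (nat_lit 16) (.br (nat_lit 7) (.br (nat_lit 4) (.br (nat_lit 6) (.far (nat_lit 5122) (nat_lit 6210)) (.br (nat_lit 13) (.far (nat_lit 129) (nat_lit 193)) (.dom (nat_lit 60)))) 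
  (.br (nat_lit 15) (.br (nat_lit 6) (.far (nat_lit 161) (nat_lit 65)) 
  (.br (nat_lit 11) (.br (nat_lit 13) (.br (nat_lit 10) (.far (nat_lit 97) (nat_lit 193)) 
  (.br (nat_lit 8) (.br (nat_lit 17) (.far (nat_lit 225) (nat_lit 65)) (.dom (nat_lit 48))) (.dom (nat_lit 59)))) 
  (.dom (nat_lit 60))) 
  (.dom (nat_lit 64)))) 
  (.dom (nat_lit 57)))) 
  (.br (nat_lit 11) (.br (nat_lit 12) (.br (nat_lit 9) (.br (nat_lit 10) (.br (nat_lit 13) (.far (nat_lit 0) (nat_lit 200707)) 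
  (.br (nat_lit 6) (.br (nat_lit 15) (.far (nat_lit 97) (nat_lit 225)) (.br (nat_lit 2) (.far (nat_lit 0) (nat_lit 129)) (.dom (nat_lit 9)))) 
  (.dom (nat_lit 60)))) 
  (.br (nat_lit 8) (.br (nat_lit 6) (.br (nat_lit 15) (.br (nat_lit 3) (.far (nat_lit 0) (nat_lit 225)) (.br (nat_lit 17) (.far (nat_lit 193) (nat_lit 65)) (.dom (nat_lit 49)))) 
  (.br (nat_lit 4) (.br (nat_lit 5) (.br (nat_lit 2) (.far (nat_lit 1) (nat_lit 161)) 
  (.br (nat_lit 13) (.br (nat_lit 3) (.far (nat_lit 161) (nat_lit 97)) 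
  (.br (nat_lit 17) (.br (nat_lit 7) (.far (nat_lit 225) (nat_lit 65)) (.br (nat_lit 14) (.far (nat_lit 225) (nat_lit 97)) (.dom (nat_lit 72)))) 
  (.dom (nat_lit 49)))) 
  (.dom (nat_lit 9)))) 
  (.dom (nat_lit 3))) 
  (.dom (nat_lit 57)))) 
  (.br (nat_lit 5) (.br (nat_lit 14) (.br (nat_lit 13) (.br (nat_lit 4) (.far (nat_lit 225) (nat_lit 97)) (.br (nat_lit 17) (.far (nat_lit 129) (nat_lit 161)) (.dom (nat_lit 48)))) 
  (.dom (nat_lit 60))) 
  (.dom (nat_lit 37))) 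
  (.dom (nat_lit 58)))) 
  (.dom (nat_lit 59)))) 
  (.br (nat_lit 5) (.br (nat_lit 4) (.br (nat_lit 13) (.br (nat_lit 10) (.br (nat_lit 7) (.far (nat_lit 0) (nat_lit 193)) (.br (nat_lit 14) (.far (nat_lit 225) (nat_lit 97)) (.dom (nat_lit 31)))) 
  (.br (nat_lit 8) (.br (nat_lit 14) (.far (nat_lit 225) (nat_lit 97)) (.br (nat_lit 7) (.far (nat_lit 129) (nat_lit 193)) (.dom (nat_lit 31)))) 
  (.dom (nat_lit 59)))) 
  (.br (nat_lit 8) (.br (nat_lit 6) (.br (nat_lit 2) (.far (nat_lit 1) (nat_lit 161)) 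
  (.br (nat_lit 15) (.br (nat_lit 7) (.far (nat_lit 161) (nat_lit 65)) 
  (.br (nat_lit 14) (.br (nat_lit 3) (.far (nat_lit 193) (nat_lit 97)) (.br (nat_lit 17) (.far (nat_lit 193) (nat_lit 65)) (.dom (nat_lit 78)))) 
  (.dom (nat_lit 31)))) 
  (.dom (nat_lit 9)))) 
  (.dom (nat_lit 60))) 
  (.dom (nat_lit 6)))) 
  (.br (nat_lit 8) (.br (nat_lit 17) (.br (nat_lit 15) (.br (nat_lit 6) (.far (nat_lit 193) (nat_lit 65)) (.br (nat_lit 14) (.far (nat_lit 129) (nat_lit 161)) (.dom (nat_lit 30)))) 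
  (.dom (nat_lit 57))) 
  (.dom (nat_lit 43))) 
  (.dom (nat_lit 54)))) 
  (.dom (nat_lit 80)))) 
  (.dom (nat_lit 55))) 
  (.dom (nat_lit 82)))) 
  (.dom (nat_lit 62))))) 
  (.br (nat_lit 3) (.br (nat_lit 6) (.br (nat_lit 5) (.br (nat_lit 8) (.far (nat_lit 200707) (nat_lit 0)) (.br (nat_lit 12) (.far (nat_lit 6146) (nat_lit 7266)) (.dom (nat_lit 56)))) 
  (.br (nat_lit 15) (.br (nat_lit 7) (.far (nat_lit 5122) (nat_lit 7234)) (.br (nat_lit 9) (.far (nat_lit 97) (nat_lit 225)) (.dom (nat_lit 80)))) 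
  (.dom (nat_lit 81)))) 
  (.br (nat_lit 14) (.br (nat_lit 5) (.br (nat_lit 2) (.br (nat_lit 4) (.far (nat_lit 2050) (nat_lit 5218)) (.br (nat_lit 11) (.far (nat_lit 65) (nat_lit 161)) (.dom (nat_lit 64)))) 
  (.br (nat_lit 13) (.br (nat_lit 4) (.far (nat_lit 225) (nat_lit 97)) 
  (.br (nat_lit 11) (.br (nat_lit 15) (.br (nat_lit 12) (.far (nat_lit 193) (nat_lit 97)) 
  (.br (nat_lit 8) (.br (nat_lit 17) (.far (nat_lit 129) (nat_lit 161)) (.dom (nat_lit 45))) (.dom (nat_lit 56)))) 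
  (.dom (nat_lit 57))) 
  (.dom (nat_lit 64)))) 
  (.dom (nat_lit 60)))) 
  (.br (nat_lit 15) (.br (nat_lit 10) (.br (nat_lit 9) (.br (nat_lit 12) (.br (nat_lit 11) (.far (nat_lit 0) (nat_lit 233475)) 
  (.br (nat_lit 4) (.br (nat_lit 13) (.far (nat_lit 161) (nat_lit 97)) 
  (.br (nat_lit 2) (.br (nat_lit 6) (.far (nat_lit 0) (nat_lit 225)) (.dom (nat_lit 24))) (.dom (nat_lit 60)))) 
  (.dom (nat_lit 64)))) 
  (.br (nat_lit 8) (.br (nat_lit 2) (.br (nat_lit 11) (.br (nat_lit 1) (.far (nat_lit 0) (nat_lit 129)) (.br (nat_lit 17) (.far (nat_lit 97) (nat_lit 161)) (.dom (nat_lit 46)))) 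
  (.br (nat_lit 4) (.br (nat_lit 7) (.br (nat_lit 1) (.far (nat_lit 1) (nat_lit 193)) 
  (.br (nat_lit 17) (.br (nat_lit 6) (.far (nat_lit 193) (nat_lit 65)) 
  (.br (nat_lit 13) (.br (nat_lit 5) (.far (nat_lit 225) (nat_lit 97)) (.br (nat_lit 16) (.far (nat_lit 225) (nat_lit 65)) (.dom (nat_lit 70)))) 
  (.dom (nat_lit 24)))) 
  (.dom (nat_lit 46)))) 
  (.dom (nat_lit 18))) 
  (.dom (nat_lit 64)))) 
  (.br (nat_lit 7) (.br (nat_lit 16) (.br (nat_lit 13) (.br (nat_lit 4) (.far (nat_lit 129) (nat_lit 193)) (.br (nat_lit 17) (.far (nat_lit 225) (nat_lit 65)) (.dom (nat_lit 45)))) 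
  (.dom (nat_lit 60))) 
  (.dom (nat_lit 16))) 
  (.dom (nat_lit 55)))) 
  (.dom (nat_lit 56)))) 
  (.br (nat_lit 7) (.br (nat_lit 4) (.br (nat_lit 13) (.br (nat_lit 12) (.br (nat_lit 5) (.far (nat_lit 0) (nat_lit 97)) (.br (nat_lit 16) (.far (nat_lit 129) (nat_lit 193)) (.dom (nat_lit 13)))) 
  (.br (nat_lit 8) (.br (nat_lit 16) (.far (nat_lit 129) (nat_lit 193)) (.br (nat_lit 5) (.far (nat_lit 225) (nat_lit 97)) (.dom (nat_lit 13)))) 
  (.dom (nat_lit 56)))) 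
  (.br (nat_lit 8) (.br (nat_lit 2) (.br (nat_lit 5) (.far (nat_lit 1) (nat_lit 161)) 
  (.br (nat_lit 16) (.br (nat_lit 6) (.far (nat_lit 161) (nat_lit 65)) 
  (.br (nat_lit 11) (.br (nat_lit 1) (.far (nat_lit 225) (nat_lit 129)) (.br (nat_lit 17) (.far (nat_lit 225) (nat_lit 65)) (.dom (nat_lit 79)))) 
  (.dom (nat_lit 24)))) 
  (.dom (nat_lit 13)))) 
  (.dom (nat_lit 60))) 
  (.dom (nat_lit 7)))) 
  (.br (nat_lit 8) (.br (nat_lit 17) (.br (nat_lit 11) (.br (nat_lit 2) (.far (nat_lit 97) (nat_lit 161)) (.br (nat_lit 16) (.far (nat_lit 225) (nat_lit 65)) (.dom (nat_lit 12)))) 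
  (.dom (nat_lit 64))) 
  (.dom (nat_lit 44))) 
  (.dom (nat_lit 54)))) 
  (.dom (nat_lit 80)))) 
  (.dom (nat_lit 58))) 
  (.dom (nat_lit 81)))) 
  (.dom (nat_lit 65)))) 
  (.br (nat_lit 17) (.br (nat_lit 8) (.br (nat_lit 2) (.br (nat_lit 5) (.br (nat_lit 6) (.far (nat_lit 6146) (nat_lit 5186)) (.br (nat_lit 14) (.far (nat_lit 129) (nat_lit 161)) (.dom (nat_lit 65)))) 
  (.br (nat_lit 15) (.br (nat_lit 6) (.far (nat_lit 193) (nat_lit 65)) 
  (.br (nat_lit 10) (.br (nat_lit 14) (.br (nat_lit 11) (.far (nat_lit 97) (nat_lit 161)) 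
  (.br (nat_lit 7) (.br (nat_lit 16) (.far (nat_lit 225) (nat_lit 65)) (.dom (nat_lit 27))) (.dom (nat_lit 82)))) 
  (.dom (nat_lit 65))) 
  (.dom (nat_lit 58)))) 
  (.dom (nat_lit 81)))) 
  (.br (nat_lit 16) (.br (nat_lit 7) (.far (nat_lit 225) (nat_lit 65)) 
  (.br (nat_lit 11) (.br (nat_lit 12) (.br (nat_lit 15) (.br (nat_lit 6) (.far (nat_lit 193) (nat_lit 65)) (.br (nat_lit 14) (.far (nat_lit 0) (nat_lit 165891)) (.dom (nat_lit 65)))) 
  (.br (nat_lit 5) (.br (nat_lit 14) (.far (nat_lit 129) (nat_lit 161)) (.dom (nat_lit 33))) (.dom (nat_lit 81)))) 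
  (.dom (nat_lit 55))) 
  (.dom (nat_lit 82)))) 
  (.dom (nat_lit 62)))) 
  (.br (nat_lit 10) (.br (nat_lit 12) (.br (nat_lit 9) (.br (nat_lit 11) (.br (nat_lit 15) (.far (nat_lit 0) (nat_lit 233475)) 
  (.br (nat_lit 5) (.br (nat_lit 2) (.br (nat_lit 14) (.far (nat_lit 65) (nat_lit 161)) (.br (nat_lit 1) (.far (nat_lit 0) (nat_lit 129)) (.dom (nat_lit 34)))) 
  (.br (nat_lit 13) (.br (nat_lit 4) (.br (nat_lit 16) (.br (nat_lit 14) (.far (nat_lit 225) (nat_lit 1)) (.br (nat_lit 1) (.far (nat_lit 161) (nat_lit 129)) (.dom (nat_lit 34)))) 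
  (.dom (nat_lit 62))) 
  (.dom (nat_lit 57))) 
  (.dom (nat_lit 11)))) 
  (.dom (nat_lit 81)))) 
  (.br (nat_lit 7) (.br (nat_lit 6) (.br (nat_lit 15) (.br (nat_lit 16) (.far (nat_lit 161) (nat_lit 65)) 
  (.br (nat_lit 2) (.br (nat_lit 3) (.far (nat_lit 0) (nat_lit 225)) (.dom (nat_lit 28))) (.dom (nat_lit 62)))) 
  (.br (nat_lit 4) (.br (nat_lit 5) (.br (nat_lit 2) (.br (nat_lit 1) (.far (nat_lit 1) (nat_lit 193)) 
  (.br (nat_lit 14) (.br (nat_lit 3) (.far (nat_lit 193) (nat_lit 97)) 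
  (.br (nat_lit 16) (.br (nat_lit 8) (.far (nat_lit 225) (nat_lit 65)) (.br (nat_lit 13) (.far (nat_lit 225) (nat_lit 97)) (.dom (nat_lit 69)))) 
  (.dom (nat_lit 28)))) 
  (.dom (nat_lit 34)))) 
  (.br (nat_lit 16) (.br (nat_lit 13) (.far (nat_lit 129) (nat_lit 193)) (.dom (nat_lit 11))) (.dom (nat_lit 62)))) 
  (.dom (nat_lit 81))) 
  (.dom (nat_lit 22)))) 
  (.br (nat_lit 13) (.br (nat_lit 4) (.br (nat_lit 14) (.br (nat_lit 16) (.far (nat_lit 129) (nat_lit 193)) (.br (nat_lit 5) (.far (nat_lit 225) (nat_lit 97)) (.dom (nat_lit 27)))) 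
  (.dom (nat_lit 65))) 
  (.dom (nat_lit 64))) 
  (.dom (nat_lit 26)))) 
  (.dom (nat_lit 82)))) 
  (.br (nat_lit 4) (.br (nat_lit 5) (.br (nat_lit 7) (.br (nat_lit 13) (.br (nat_lit 14) (.far (nat_lit 225) (nat_lit 97)) 
  (.br (nat_lit 6) (.br (nat_lit 16) (.far (nat_lit 129) (nat_lit 193)) 
  (.br (nat_lit 2) (.br (nat_lit 1) (.far (nat_lit 1) (nat_lit 129)) 
  (.br (nat_lit 15) (.br (nat_lit 3) (.far (nat_lit 129) (nat_lit 225)) (.br (nat_lit 8) (.far (nat_lit 193) (nat_lit 65)) (.dom (nat_lit 75)))) 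
  (.dom (nat_lit 34)))) 
  (.dom (nat_lit 62)))) 
  (.dom (nat_lit 65)))) 
  (.br (nat_lit 8) (.far (nat_lit 233475) (nat_lit 0)) (.dom (nat_lit 8)))) 
  (.br (nat_lit 14) (.br (nat_lit 11) (.br (nat_lit 2) (.far (nat_lit 65) (nat_lit 161)) (.br (nat_lit 13) (.far (nat_lit 225) (nat_lit 97)) (.dom (nat_lit 6)))) 
  (.dom (nat_lit 82))) 
  (.dom (nat_lit 32)))) 
  (.br (nat_lit 7) (.br (nat_lit 16) (.br (nat_lit 15) (.br (nat_lit 6) (.far (nat_lit 161) (nat_lit 65)) (.br (nat_lit 13) (.far (nat_lit 129) (nat_lit 193)) (.dom (nat_lit 7)))) 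
  (.dom (nat_lit 81))) 
  (.dom (nat_lit 14))) 
  (.dom (nat_lit 80)))) 
  (.dom (nat_lit 54)))) 
  (.dom (nat_lit 56))) 
  (.dom (nat_lit 59)))) 
  (.dom (nat_lit 83)))))

/-- search tree -/
def gm565B : BB := (.br (nat_lit 0) gm565B0 
  (.br (nat_lit 4) (.br (nat_lit 5) (.br (nat_lit 7) (.br (nat_lit 8) (.far (nat_lit 233475) (nat_lit 0)) 
  (.br (nat_lit 13) (.br (nat_lit 1) (.far (nat_lit 7170) (nat_lit 6242)) 
  (.br (nat_lit 12) (.br (nat_lit 3) (.far (nat_lit 161) (nat_lit 97)) 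
  (.br (nat_lit 10) (.br (nat_lit 17) (.br (nat_lit 14) (.far (nat_lit 225) (nat_lit 97)) (.br (nat_lit 16) (.far (nat_lit 129) (nat_lit 193)) (.dom (nat_lit 40)))) 
  (.dom (nat_lit 83))) 
  (.dom (nat_lit 59)))) 
  (.dom (nat_lit 56)))) 
  (.dom (nat_lit 61)))) 
  (.br (nat_lit 14) (.br (nat_lit 3) (.br (nat_lit 2) (.far (nat_lit 2050) (nat_lit 5218)) (.br (nat_lit 12) (.far (nat_lit 193) (nat_lit 97)) (.dom (nat_lit 55)))) 
  (.br (nat_lit 11) (.br (nat_lit 2) (.far (nat_lit 65) (nat_lit 161)) 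
  (.br (nat_lit 12) (.br (nat_lit 16) (.br (nat_lit 13) (.far (nat_lit 225) (nat_lit 97)) 
  (.br (nat_lit 8) (.br (nat_lit 17) (.far (nat_lit 129) (nat_lit 161)) (.dom (nat_lit 51))) (.dom (nat_lit 61)))) 
  (.dom (nat_lit 62))) 
  (.dom (nat_lit 55)))) 
  (.dom (nat_lit 82)))) 
  (.dom (nat_lit 66)))) 
  (.br (nat_lit 16) (.br (nat_lit 7) (.br (nat_lit 1) (.br (nat_lit 6) (.far (nat_lit 5122) (nat_lit 6210)) (.br (nat_lit 10) (.far (nat_lit 97) (nat_lit 193)) (.dom (nat_lit 58)))) 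
  (.br (nat_lit 15) (.br (nat_lit 6) (.far (nat_lit 161) (nat_lit 65)) 
  (.br (nat_lit 10) (.br (nat_lit 14) (.br (nat_lit 13) (.far (nat_lit 129) (nat_lit 193)) 
  (.br (nat_lit 8) (.br (nat_lit 17) (.far (nat_lit 225) (nat_lit 65)) (.dom (nat_lit 52))) (.dom (nat_lit 61)))) 
  (.dom (nat_lit 65))) 
  (.dom (nat_lit 58)))) 
  (.dom (nat_lit 81)))) 
  (.br (nat_lit 14) (.br (nat_lit 9) (.br (nat_lit 13) (.br (nat_lit 10) (.br (nat_lit 1) (.br (nat_lit 11) (.far (nat_lit 0) (nat_lit 200707)) 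
  (.br (nat_lit 3) (.br (nat_lit 12) (.far (nat_lit 161) (nat_lit 97)) 
  (.br (nat_lit 2) (.br (nat_lit 7) (.far (nat_lit 0) (nat_lit 193)) (.dom (nat_lit 19))) (.dom (nat_lit 55)))) 
  (.dom (nat_lit 82)))) 
  (.br (nat_lit 15) (.br (nat_lit 12) (.far (nat_lit 161) (nat_lit 1)) 
  (.br (nat_lit 17) (.br (nat_lit 2) (.br (nat_lit 8) (.br (nat_lit 11) (.far (nat_lit 225) (nat_lit 1)) 
  (.br (nat_lit 3) (.br (nat_lit 6) (.far (nat_lit 193) (nat_lit 65)) (.dom (nat_lit 18))) (.dom (nat_lit 82)))) 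
  (.dom (nat_lit 56))) 
  (.dom (nat_lit 55))) 
  (.dom (nat_lit 47)))) 
  (.dom (nat_lit 81)))) 
  (.br (nat_lit 6) (.br (nat_lit 3) (.br (nat_lit 12) (.br (nat_lit 15) (.far (nat_lit 129) (nat_lit 225)) 
  (.br (nat_lit 1) (.br (nat_lit 5) (.far (nat_lit 0) (nat_lit 97)) (.dom (nat_lit 4))) (.dom (nat_lit 81)))) 
  (.br (nat_lit 8) (.br (nat_lit 2) (.br (nat_lit 1) (.br (nat_lit 5) (.far (nat_lit 1) (nat_lit 161)) 
  (.br (nat_lit 15) (.br (nat_lit 7) (.far (nat_lit 161) (nat_lit 65)) 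
  (.br (nat_lit 11) (.br (nat_lit 0) (.far (nat_lit 193) (nat_lit 129)) (.br (nat_lit 17) (.far (nat_lit 193) (nat_lit 65)) (.dom (nat_lit 77)))) 
  (.dom (nat_lit 19)))) 
  (.dom (nat_lit 4)))) 
  (.br (nat_lit 15) (.br (nat_lit 17) (.far (nat_lit 193) (nat_lit 65)) (.dom (nat_lit 47))) (.dom (nat_lit 81)))) 
  (.dom (nat_lit 55))) 
  (.dom (nat_lit 1)))) 
  (.br (nat_lit 17) (.br (nat_lit 8) (.br (nat_lit 11) (.br (nat_lit 15) (.far (nat_lit 193) (nat_lit 65)) (.br (nat_lit 2) (.far (nat_lit 97) (nat_lit 161)) (.dom (nat_lit 3)))) 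
  (.dom (nat_lit 82))) 
  (.dom (nat_lit 59))) 
  (.dom (nat_lit 50)))) 
  (.dom (nat_lit 58)))) 
  (.br (nat_lit 8) (.br (nat_lit 2) (.br (nat_lit 6) (.br (nat_lit 17) (.br (nat_lit 11) (.far (nat_lit 97) (nat_lit 161)) 
  (.br (nat_lit 3) (.br (nat_lit 15) (.far (nat_lit 193) (nat_lit 65)) 
  (.br (nat_lit 1) (.br (nat_lit 5) (.far (nat_lit 1) (nat_lit 97)) 
  (.br (nat_lit 10) (.br (nat_lit 7) (.far (nat_lit 97) (nat_lit 193)) (.br (nat_lit 0) (.far (nat_lit 161) (nat_lit 129)) (.dom (nat_lit 68)))) 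
  (.dom (nat_lit 4)))) 
  (.dom (nat_lit 81)))) 
  (.dom (nat_lit 82)))) 
  (.br (nat_lit 0) (.far (nat_lit 199683) (nat_lit 0)) (.dom (nat_lit 53)))) 
  (.br (nat_lit 11) (.br (nat_lit 10) (.br (nat_lit 1) (.far (nat_lit 225) (nat_lit 129)) (.br (nat_lit 17) (.far (nat_lit 97) (nat_lit 161)) (.dom (nat_lit 52)))) 
  (.dom (nat_lit 58))) 
  (.dom (nat_lit 25)))) 
  (.br (nat_lit 6) (.br (nat_lit 15) (.br (nat_lit 12) (.br (nat_lit 3) (.far (nat_lit 129) (nat_lit 225)) (.br (nat_lit 17) (.far (nat_lit 193) (nat_lit 65)) (.dom (nat_lit 51)))) 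
  (.dom (nat_lit 55))) 
  (.dom (nat_lit 10))) 
  (.dom (nat_lit 60)))) 
  (.dom (nat_lit 61)))) 
  (.dom (nat_lit 80))) 
  (.dom (nat_lit 66)))) 
  (.dom (nat_lit 63)))) 
  (.br (nat_lit 17) (.br (nat_lit 8) (.br (nat_lit 2) (.br (nat_lit 5) (.br (nat_lit 6) (.far (nat_lit 6146) (nat_lit 5186)) (.br (nat_lit 11) (.far (nat_lit 97) (nat_lit 161)) (.dom (nat_lit 64)))) 
  (.br (nat_lit 16) (.br (nat_lit 7) (.far (nat_lit 225) (nat_lit 65)) 
  (.br (nat_lit 14) (.br (nat_lit 9) (.br (nat_lit 11) (.far (nat_lit 97) (nat_lit 161)) 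
  (.br (nat_lit 6) (.br (nat_lit 15) (.far (nat_lit 193) (nat_lit 65)) (.dom (nat_lit 21))) (.dom (nat_lit 64)))) 
  (.dom (nat_lit 80))) 
  (.dom (nat_lit 66)))) 
  (.dom (nat_lit 63)))) 
  (.br (nat_lit 15) (.br (nat_lit 6) (.far (nat_lit 193) (nat_lit 65)) 
  (.br (nat_lit 11) (.br (nat_lit 13) (.br (nat_lit 14) (.br (nat_lit 5) (.far (nat_lit 129) (nat_lit 161)) (.br (nat_lit 16) (.far (nat_lit 0) (nat_lit 165891)) (.dom (nat_lit 63)))) 
  (.br (nat_lit 7) (.br (nat_lit 16) (.far (nat_lit 225) (nat_lit 65)) (.dom (nat_lit 39))) (.dom (nat_lit 66)))) 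
  (.dom (nat_lit 60))) 
  (.dom (nat_lit 64)))) 
  (.dom (nat_lit 57)))) 
  (.br (nat_lit 9) (.br (nat_lit 13) (.br (nat_lit 10) (.br (nat_lit 11) (.br (nat_lit 14) (.br (nat_lit 2) (.far (nat_lit 0) (nat_lit 167939)) 
  (.br (nat_lit 15) (.br (nat_lit 12) (.far (nat_lit 193) (nat_lit 1)) (.br (nat_lit 16) (.far (nat_lit 225) (nat_lit 1)) (.dom (nat_lit 17)))) 
  (.dom (nat_lit 57)))) 
  (.br (nat_lit 7) (.br (nat_lit 1) (.br (nat_lit 16) (.far (nat_lit 97) (nat_lit 193)) (.br (nat_lit 0) (.far (nat_lit 161) (nat_lit 129)) (.dom (nat_lit 41)))) 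
  (.br (nat_lit 15) (.br (nat_lit 6) (.br (nat_lit 12) (.br (nat_lit 16) (.far (nat_lit 161) (nat_lit 1)) (.br (nat_lit 3) (.far (nat_lit 129) (nat_lit 225)) (.dom (nat_lit 40)))) 
  (.dom (nat_lit 56))) 
  (.dom (nat_lit 65))) 
  (.dom (nat_lit 35)))) 
  (.dom (nat_lit 66)))) 
  (.br (nat_lit 6) (.br (nat_lit 7) (.br (nat_lit 16) (.br (nat_lit 15) (.far (nat_lit 161) (nat_lit 65)) 
  (.br (nat_lit 2) (.br (nat_lit 4) (.far (nat_lit 129) (nat_lit 193)) (.dom (nat_lit 23))) (.dom (nat_lit 57)))) 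
  (.br (nat_lit 3) (.br (nat_lit 5) (.br (nat_lit 15) (.br (nat_lit 12) (.far (nat_lit 129) (nat_lit 225)) 
  (.br (nat_lit 1) (.br (nat_lit 2) (.br (nat_lit 0) (.far (nat_lit 1) (nat_lit 129)) 
  (.br (nat_lit 14) (.br (nat_lit 4) (.far (nat_lit 225) (nat_lit 97)) (.br (nat_lit 8) (.far (nat_lit 193) (nat_lit 65)) (.dom (nat_lit 71)))) 
  (.dom (nat_lit 41)))) 
  (.dom (nat_lit 17))) 
  (.dom (nat_lit 56)))) 
  (.br (nat_lit 2) (.br (nat_lit 4) (.far (nat_lit 1) (nat_lit 97)) (.dom (nat_lit 23))) (.dom (nat_lit 57)))) 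
  (.dom (nat_lit 63))) 
  (.dom (nat_lit 29)))) 
  (.br (nat_lit 12) (.br (nat_lit 3) (.br (nat_lit 14) (.br (nat_lit 15) (.far (nat_lit 129) (nat_lit 225)) (.br (nat_lit 5) (.far (nat_lit 193) (nat_lit 97)) (.dom (nat_lit 21)))) 
  (.dom (nat_lit 66))) 
  (.dom (nat_lit 82))) 
  (.dom (nat_lit 20)))) 
  (.dom (nat_lit 64)))) 
  (.br (nat_lit 3) (.br (nat_lit 5) (.br (nat_lit 14) (.br (nat_lit 12) (.far (nat_lit 193) (nat_lit 97)) (.br (nat_lit 8) (.far (nat_lit 129) (nat_lit 161)) (.dom (nat_lit 2)))) 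
  (.br (nat_lit 6) (.br (nat_lit 7) (.br (nat_lit 15) (.br (nat_lit 12) (.far (nat_lit 129) (nat_lit 225)) (.br (nat_lit 8) (.far (nat_lit 193) (nat_lit 65)) (.dom (nat_lit 2)))) 
  (.br (nat_lit 1) (.br (nat_lit 2) (.br (nat_lit 0) (.far (nat_lit 1) (nat_lit 129)) 
  (.br (nat_lit 16) (.br (nat_lit 4) (.far (nat_lit 129) (nat_lit 193)) (.br (nat_lit 8) (.far (nat_lit 225) (nat_lit 65)) (.dom (nat_lit 73)))) 
  (.dom (nat_lit 41)))) 
  (.dom (nat_lit 57))) 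
  (.dom (nat_lit 35)))) 
  (.dom (nat_lit 66))) 
  (.dom (nat_lit 38)))) 
  (.br (nat_lit 15) (.br (nat_lit 6) (.br (nat_lit 16) (.br (nat_lit 12) (.far (nat_lit 129) (nat_lit 225)) (.br (nat_lit 7) (.far (nat_lit 161) (nat_lit 65)) (.dom (nat_lit 1)))) 
  (.dom (nat_lit 63))) 
  (.dom (nat_lit 58))) 
  (.dom (nat_lit 5)))) 
  (.dom (nat_lit 59)))) 
  (.dom (nat_lit 61))) 
  (.dom (nat_lit 54)))) 
  (.dom (nat_lit 67)))))

theorem gm565_bb : gm565D.ok gm565B [] (2 ^ gm565D.np - 1) = true := by decide +kernel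

theorem gm565_gen : allB (gm565D.genOK 54) gm565D.nG = true := by decide +kernel

end Pool.Agent.P.MP_40718a_co
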