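import Pool.Agent.P.MP_40718a_co.U.Glue

/-! Certificates. -/

namespace Pool.Agent.P.MP_40718a_co

open U

/-- packed table -/
noncomputable def gp566G : BW := (.b (nat_lit 288) (.b (nat_lit 128) (.b (nat_lit 64) (.b (nat_lit 32) (.l (nat_lit 0) (nat_lit 35) (nat_lit 10908211546843650551088581545251772750304516204959883166234331015225940999296331566710083783756059191013809027671535076923009780209477112124098809003958497512547014427476088115116910692228343952315890506160991170806631878370000185270352089247476272707265165816734843543259999329298270591851845424247886516082163908968821509841535009785894))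
  (.l (nat_lit 32) (nat_lit 35) (nat_lit 8711897979641584813649065366703355956968861647652606017309774556408443471610727523883614375877796165896694474105557788687766424343244201359002562435911765756603727717447273712708362781240708535085427630332485965247434689225310098752825503331810595922724524393433024719029996034238164320975174554962105662890386726561386722179211931684870)))
  (.b (nat_lit 96) (.l (nat_lit 64) (nat_lit 35) (nat_lit 9170893382931914160819925524160927212943178549924969611513967496547387678814986430595038087424680445642317000241903224828749534648391621083379720931549919731536631601048552527796496870957478137203605563994116673008403335664284864050845284238752358253874804324396878859954657236501326808607810807820052604699903329069110341091594356364294))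
  (.l (nat_lit 96) (nat_lit 35) (nat_lit 7795289692902493766896174906344466501386757826070797872218090629521632086750983261443138591662876658435897804177080505891141194936340598002255068016663730076538409376475926397299018554291238463717581842789579195515247380762641898911616398780871239051973612763123349869481077855136518004361054542491561008568610970515916682675982758546502))))
  (.b (nat_lit 192) (.b (nat_lit 160) (.l (nat_lit 128) (nat_lit 35) (nat_lit 7795629718506026816243886853745097503589827999333801555256740632061776759709214803124135626070171863307603433485869679635401102731707297957787766186671119022136469997397171656432799726698948247675475341427170490985900285127251812644999298214123089799911441765847559559669071567066945771048332636262635793607497656175467303976438687106054))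
  (.l (nat_lit 160) (nat_lit 35) (nat_lit 11382446595354439590561431776029071706009120269329167805497856145463860639040486092963286890843985909825346389404754343943249241139618027923477604045341912404182246059716578979439027231662547846895684151846113918086712179103018159963766784561029410252621514890288850848417347054365135863198185227600191637667455086181434139370248939473990)))
  (.b (nat_lit 224) (.l (nat_lit 192) (nat_lit 65) (nat_lit 93466442100754133441570401261829530260643266201630562979914370620912416456549616851113204004848111727044368359821216176254450968454910575982672845834826831303721203040693783851627012062830343737049818691811822896364140015399731970986846466137643100127139038954513477424334450671065891869258190685175718668681270766427531916947149618802699862781343149883802345329316058107598019526124274193822348240866057007580361654844403863169126217872064245609379452987429677214682559848382381762944470430153302493872505920022129508223640785420623848684173984328846010680650784593361963038875906383945276484339734622266811028351391154634758))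
  (.b (nat_lit 256) (.l (nat_lit 224) (nat_lit 65) (nat_lit 110676586279020626536755687811929776926489575220298515257206949925975911458954893845333015073393220190362027451175276693426018468220085576182513967430538221367276347231126672337161141726714627019650742647779122942272280044872695867217742206258742532019182219539981117584849268883451948663181372777766624170179529641639011810091774672059312070282828183625088709180734280256671101118728639926763464418318617292641203399482117672420485699296275792157185131379547990322017965477153165684137998783916946970201016977651937025784534148421465013293346207653092307768245677778938161035411802573808211929941264034902172328507143078642732))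
  (.l (nat_lit 256) (nat_lit 65) (nat_lit 2993246450111342233433412288286135318997270661711953866503865410241263350151396379942434995681430680729110751612017677170654306790231234236655572650028453875312055444642060858244902708777339012042751718098072493675084745828296571828180183497677891441026173546378119889314803457995559665703344045266425543360232167554888000474017313951632007191738397526820129009246225547702942880194524575342554069208334983383879435293950142866711284928820418096718228674008350420532743058567230911531281645926374564816172689503719858482752691775857358390707794786019879749398537437949608620142206803100640555990475389185532790071989732396))))))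
  (.b (nat_lit 448) (.b (nat_lit 352) (.b (nat_lit 320) (.l (nat_lit 288) (nat_lit 50) (nat_lit 30028392086619124373197648753011566862784670261099996126190385391171393288260708720352707443466791926955810326571343257075072412988365602205652566213204576518649453441881723130409347206984104937627188401400973543314634950286015968588663787935751603144778807077076870893994967775742438604184850723245040453895956243252068680245507254237208020650252147741935364862031692309101741201688311854608365633805314530777938938585517503009034546860439231366406279416759247513072712446624564265))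
  (.l (nat_lit 320) (nat_lit 50) (nat_lit 34196744872318232464888677634700782291730074382926021933472943852884186202141840242026807203945598755120966231296623630849289470169621796010992028872710268126088355119237876791218972015274066614497732766204946913302430885696997422816782500977523946707376612943884009032665774560347393583275606348105547183031898593514909959295472191715629235340664537050007093109981757072824168149504213986013610837407435189023413083930154281536616927131594229025192828045551064093157287842239643657)))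
  (.b (nat_lit 384) (.l (nat_lit 352) (nat_lit 50) (nat_lit 31458421950415663125084325473586701588330173556134890848020093268021147076091934737768215793674674562439520904860574132800890706653411035789967842196535802295441289290125237954306684353349621537257741744367040961088830710609994749917149295900019066325930389815155161256598341062060759058765273824489588494140975610175749144152559863901377794029201820712010698471803759092237916643865460093237198366739832944445465403037310479232240033224345582201042038098033808049321467224550146057))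
  (.b (nat_lit 416) (.l (nat_lit 384) (nat_lit 50) (nat_lit 29940236861511118737182511789432695267269049454866435148169604576862427717811846354757521365966588939622803050963165494845546074568829417930266686013826990052960512816758628668656764127148719156424884062032637107825648218493044583387611664915540904060528950783845430607029184887537718860297561244227580826321009762509649123945973828316810593711227692692663870586143639800183360158766002539541404725130743933035047512242987479905130254646112573019287792948089573172687881134107918345))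
  (.l (nat_lit 416) (nat_lit 50) (nat_lit 28506013234723571223525628690082861856738258189727787283454198477031535282989982820022010991848920556944184456947045856483753070264425650629521964133712838116886495387491273033546418722754062746870747075078468788968261785473865517932882440623460644007066904510147800815223893499857070334511823043728277731691969547282606341652241916004726571605583998508252705101912659961469454253747327851922438186266972301663307243969395552648451618047838074612537120603531805340412785599480694857)))))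
  (.b (nat_lit 512) (.b (nat_lit 480) (.l (nat_lit 448) (nat_lit 50) (nat_lit 32806022277469855499132612123237705910001711707810020210598242840181921727363046796571976397301787549114118120596004411838410089449009902466280256070260070855870965946480547159373038817455986796870618704880374627860507439204939216857731334956003888736600649968780162277559457776567042700458972551496282593408049697119921638679137761585880752645524656837969069676970916900127064369075077231723924276480771685285194181517139924678931548746267215763643912578223334068015346215978958857))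
  (.l (nat_lit 480) (nat_lit 50) (nat_lit 27204836990403558210143072364220999989269674502126657669036915487438905154197444563709612887673948132401975587126950171173649823442165403528976181901231923874135106875407608797982665203596775367156415815655029569600869463050674265716008488013809451686133680600947740094393288501069859928127953938317920807830927051274001982112588535728415914773894310837683641129063601721657801229144579775326797217567306209373426805793859327775358274269593746655389901681716975013762953935960834057)))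
  (.b (nat_lit 544) (.l (nat_lit 512) (nat_lit 50) (nat_lit 35674261786590511960184241550059382582169625566829950711862896660517865694654358977173763692252933988468942707852730729023527334203153629138096666538519111528218366599513266701149337107873336352821341442275920822523935901300966759834715489627156608124919152757877490923615918624764131401708497756429341139872227366571202154740320942165670165702545021650520658223774484333266547800808927351613284155883024028688378252620961767922657186250292193495490134302862258970774016817784523849))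
  (.b (nat_lit 576) (.l (nat_lit 544) (nat_lit 50) (nat_lit 35671720357066627062366571127992168132199403853548038516856437623649433070184494199995643532529464521346204565585269220115601253996674223044370478184806749521765801970312506787123329168212447487093571814337254900182038660327453739186512966442945651616290418829120450936399749168808739750526422856480382062157714604962924355309838359952172840726585279085116096774382754650141700134784030999586097726836886996642991684245348558431268031215668005142505741258453116593845245949611377673))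
  (.l (nat_lit 576) (nat_lit 80) (nat_lit 16649130937761474854850824036349847737197111152165235614256941352331447297371844327705084204640539911485372787087710149646310211878867396831715919110482216902020885368652688879302613835287847573494638121971812549837623725142956589322913822030330004863094989233863219913147028274192983553794867433684306341577269215923009704058179816080514353535318899764893142561482756352699920417771174984571936373128418299724496905)))))))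

/-- generators -/
noncomputable def gp566D : Rd := ⟨26, 20, dig (nat_lit 490632689195694950018669304150564616562493637799807762105236230101352084332726690611527837991072694101622005106677330587090083462519524148388585628502660096) (nat_lit 20), 594, gp566G.get⟩

/-- search tree -/
def gp566B0 : BB := (.br (nat_lit 1) (.br (nat_lit 2) (.br (nat_lit 4) (.br (nat_lit 5) (.br (nat_lit 6) (.br (nat_lit 7) (.br (nat_lit 8) (.br (nat_lit 9) (.br (nat_lit 10) (.br (nat_lit 11) (.br (nat_lit 12) (.br (nat_lit 13) (.br (nat_lit 14) (.br (nat_lit 15) (.br (nat_lit 16) (.br (nat_lit 17) (.br (nat_lit 18) (.br (nat_lit 19) (.br (nat_lit 20) (.br (nat_lit 21) (.br (nat_lit 22) (.br (nat_lit 23) (.br (nat_lit 24) (.br (nat_lit 25) .nil (.far (nat_lit 0) (nat_lit 33))) (.far (nat_lit 0) (nat_lit 33))) 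
  (.far (nat_lit 0) (nat_lit 33))) 
  (.far (nat_lit 0) (nat_lit 33))) 
  (.far (nat_lit 0) (nat_lit 33))) 
  (.far (nat_lit 0) (nat_lit 33))) 
  (.far (nat_lit 0) (nat_lit 33))) 
  (.far (nat_lit 0) (nat_lit 33))) 
  (.far (nat_lit 0) (nat_lit 33))) 
  (.far (nat_lit 0) (nat_lit 33))) 
  (.far (nat_lit 0) (nat_lit 321))) 
  (.far (nat_lit 0) (nat_lit 321))) 
  (.far (nat_lit 0) (nat_lit 321))) 
  (.far (nat_lit 0) (nat_lit 321))) 
  (.far (nat_lit 0) (nat_lit 321))) 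
  (.far (nat_lit 0) (nat_lit 321))) 
  (.far (nat_lit 0) (nat_lit 321))) 
  (.far (nat_lit 0) (nat_lit 321))) 
  (.far (nat_lit 0) (nat_lit 321))) 
  (.far (nat_lit 0) (nat_lit 321))) 
  (.br (nat_lit 6) (.br (nat_lit 7) (.far (nat_lit 6424580) (nat_lit 321)) (.br (nat_lit 16) (.far (nat_lit 168003) (nat_lit 0)) (.dom (nat_lit 274)))) 
  (.br (nat_lit 17) (.far (nat_lit 2082) (nat_lit 16706)) (.dom (nat_lit 273))))) 
  (.br (nat_lit 7) (.br (nat_lit 17) (.far (nat_lit 65) (nat_lit 513)) (.br (nat_lit 9) (.far (nat_lit 7538692) (nat_lit 321)) (.dom (nat_lit 272)))) 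
  (.br (nat_lit 19) (.br (nat_lit 5) (.far (nat_lit 7505956) (nat_lit 321)) (.br (nat_lit 16) (.far (nat_lit 165923) (nat_lit 0)) (.dom (nat_lit 274)))) 
  (.dom (nat_lit 591))))) 
  (.br (nat_lit 7) (.br (nat_lit 17) (.br (nat_lit 6) (.br (nat_lit 12) (.far (nat_lit 6424580) (nat_lit 513)) (.br (nat_lit 16) (.far (nat_lit 200771) (nat_lit 0)) (.dom (nat_lit 267)))) 
  (.br (nat_lit 22) (.far (nat_lit 33) (nat_lit 513)) (.dom (nat_lit 589)))) 
  (.br (nat_lit 11) (.br (nat_lit 6) (.br (nat_lit 4) (.far (nat_lit 167939) (nat_lit 0)) (.br (nat_lit 9) (.far (nat_lit 198659) (nat_lit 0)) (.dom (nat_lit 272)))) 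
  (.br (nat_lit 5) (.br (nat_lit 22) (.br (nat_lit 4) (.br (nat_lit 12) (.far (nat_lit 0) (nat_lit 534595)) 
  (.br (nat_lit 16) (.br (nat_lit 2) (.far (nat_lit 0) (nat_lit 321)) (.br (nat_lit 21) (.far (nat_lit 167971) (nat_lit 0)) (.dom (nat_lit 3)))) 
  (.dom (nat_lit 267)))) 
  (.br (nat_lit 9) (.br (nat_lit 12) (.br (nat_lit 14) (.far (nat_lit 235523) (nat_lit 0)) (.br (nat_lit 17) (.far (nat_lit 0) (nat_lit 513)) (.dom (nat_lit 10)))) 
  (.br (nat_lit 16) (.br (nat_lit 19) (.br (nat_lit 2) (.far (nat_lit 234563) (nat_lit 0)) 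
  (.br (nat_lit 21) (.br (nat_lit 17) (.far (nat_lit 235587) (nat_lit 0)) 
  (.br (nat_lit 14) (.br (nat_lit 6) (.far (nat_lit 161) (nat_lit 33)) (.br (nat_lit 24) (.far (nat_lit 161) (nat_lit 1)) (.dom (nat_lit 286)))) 
  (.dom (nat_lit 10)))) 
  (.dom (nat_lit 3)))) 
  (.dom (nat_lit 8))) 
  (.dom (nat_lit 267)))) 
  (.dom (nat_lit 272)))) 
  (.dom (nat_lit 589))) 
  (.dom (nat_lit 273)))) 
  (.dom (nat_lit 269)))) 
  (.br (nat_lit 21) (.br (nat_lit 16) (.br (nat_lit 17) (.br (nat_lit 4) (.far (nat_lit 167971) (nat_lit 0)) (.br (nat_lit 19) (.far (nat_lit 198691) (nat_lit 0)) (.dom (nat_lit 591)))) 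
  (.br (nat_lit 11) (.br (nat_lit 4) (.far (nat_lit 167971) (nat_lit 0)) 
  (.br (nat_lit 19) (.br (nat_lit 9) (.br (nat_lit 6) (.far (nat_lit 193) (nat_lit 225)) (.br (nat_lit 24) (.far (nat_lit 161) (nat_lit 1)) (.dom (nat_lit 12)))) 
  (.dom (nat_lit 272))) 
  (.dom (nat_lit 591)))) 
  (.dom (nat_lit 269)))) 
  (.br (nat_lit 5) (.br (nat_lit 12) (.br (nat_lit 4) (.br (nat_lit 11) (.far (nat_lit 5250) (nat_lit 10306)) 
  (.br (nat_lit 17) (.br (nat_lit 22) (.far (nat_lit 33) (nat_lit 513)) (.br (nat_lit 2) (.far (nat_lit 0) (nat_lit 321)) (.dom (nat_lit 1)))) 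
  (.dom (nat_lit 269)))) 
  (.br (nat_lit 19) (.br (nat_lit 17) (.br (nat_lit 22) (.br (nat_lit 7) (.far (nat_lit 0) (nat_lit 513)) (.br (nat_lit 24) (.far (nat_lit 235555) (nat_lit 0)) (.dom (nat_lit 13)))) 
  (.br (nat_lit 6) (.br (nat_lit 9) (.br (nat_lit 2) (.far (nat_lit 234563) (nat_lit 0)) 
  (.br (nat_lit 11) (.br (nat_lit 7) (.far (nat_lit 235587) (nat_lit 0)) 
  (.br (nat_lit 24) (.br (nat_lit 14) (.far (nat_lit 161) (nat_lit 33)) (.br (nat_lit 16) (.far (nat_lit 161) (nat_lit 1)) (.dom (nat_lit 285)))) 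
  (.dom (nat_lit 13)))) 
  (.dom (nat_lit 1)))) 
  (.dom (nat_lit 9))) 
  (.dom (nat_lit 589)))) 
  (.br (nat_lit 9) (.br (nat_lit 14) (.br (nat_lit 11) (.br (nat_lit 6) (.far (nat_lit 161) (nat_lit 33)) (.br (nat_lit 24) (.far (nat_lit 193) (nat_lit 129)) (.dom (nat_lit 12)))) 
  (.dom (nat_lit 269))) 
  (.dom (nat_lit 11))) 
  (.dom (nat_lit 272)))) 
  (.dom (nat_lit 591)))) 
  (.dom (nat_lit 267))) 
  (.dom (nat_lit 274)))) 
  (.dom (nat_lit 590))))) 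
  (.br (nat_lit 7) (.br (nat_lit 17) (.br (nat_lit 12) (.br (nat_lit 22) (.far (nat_lit 0) (nat_lit 513)) (.br (nat_lit 9) (.far (nat_lit 7538692) (nat_lit 513)) (.dom (nat_lit 268)))) 
  (.br (nat_lit 19) (.br (nat_lit 2) (.far (nat_lit 7538724) (nat_lit 321)) (.br (nat_lit 16) (.far (nat_lit 198691) (nat_lit 0)) (.dom (nat_lit 267)))) 
  (.dom (nat_lit 266)))) 
  (.br (nat_lit 14) (.br (nat_lit 9) (.br (nat_lit 2) (.br (nat_lit 5) (.far (nat_lit 234499) (nat_lit 0)) (.br (nat_lit 6) (.far (nat_lit 198659) (nat_lit 0)) (.dom (nat_lit 273)))) 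
  (.br (nat_lit 11) (.br (nat_lit 6) (.far (nat_lit 161) (nat_lit 33)) 
  (.br (nat_lit 5) (.br (nat_lit 22) (.br (nat_lit 12) (.far (nat_lit 235523) (nat_lit 0)) 
  (.br (nat_lit 19) (.br (nat_lit 24) (.far (nat_lit 193) (nat_lit 129)) (.dom (nat_lit 7))) (.dom (nat_lit 266)))) 
  (.dom (nat_lit 589))) 
  (.dom (nat_lit 273)))) 
  (.dom (nat_lit 269)))) 
  (.br (nat_lit 22) (.br (nat_lit 4) (.br (nat_lit 12) (.br (nat_lit 5) (.far (nat_lit 0) (nat_lit 534595)) 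
  (.br (nat_lit 6) (.br (nat_lit 11) (.far (nat_lit 200707) (nat_lit 0)) 
  (.br (nat_lit 2) (.br (nat_lit 17) (.far (nat_lit 0) (nat_lit 513)) (.dom (nat_lit 16))) (.dom (nat_lit 269)))) 
  (.dom (nat_lit 273)))) 
  (.br (nat_lit 19) (.br (nat_lit 2) (.br (nat_lit 5) (.br (nat_lit 1) (.far (nat_lit 0) (nat_lit 321)) (.br (nat_lit 24) (.far (nat_lit 234531) (nat_lit 0)) (.dom (nat_lit 6)))) 
  (.br (nat_lit 6) (.br (nat_lit 16) (.br (nat_lit 1) (.far (nat_lit 168003) (nat_lit 0)) 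
  (.br (nat_lit 24) (.br (nat_lit 17) (.far (nat_lit 200771) (nat_lit 0)) 
  (.br (nat_lit 11) (.br (nat_lit 9) (.far (nat_lit 161) (nat_lit 33)) (.br (nat_lit 21) (.far (nat_lit 161) (nat_lit 1)) (.dom (nat_lit 288)))) 
  (.dom (nat_lit 16)))) 
  (.dom (nat_lit 6)))) 
  (.dom (nat_lit 14))) 
  (.dom (nat_lit 273)))) 
  (.br (nat_lit 16) (.br (nat_lit 21) (.br (nat_lit 11) (.br (nat_lit 6) (.far (nat_lit 193) (nat_lit 225)) (.br (nat_lit 24) (.far (nat_lit 161) (nat_lit 1)) (.dom (nat_lit 7)))) 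
  (.dom (nat_lit 269))) 
  (.dom (nat_lit 2))) 
  (.dom (nat_lit 267)))) 
  (.dom (nat_lit 266)))) 
  (.dom (nat_lit 272))) 
  (.dom (nat_lit 268)))) 
  (.dom (nat_lit 270)))) 
  (.br (nat_lit 24) (.br (nat_lit 19) (.br (nat_lit 2) (.br (nat_lit 17) (.br (nat_lit 5) (.far (nat_lit 234531) (nat_lit 0)) (.br (nat_lit 16) (.far (nat_lit 198691) (nat_lit 0)) (.dom (nat_lit 274)))) 
  (.br (nat_lit 14) (.br (nat_lit 5) (.far (nat_lit 234531) (nat_lit 0)) 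
  (.br (nat_lit 16) (.br (nat_lit 6) (.br (nat_lit 9) (.far (nat_lit 193) (nat_lit 129)) (.br (nat_lit 21) (.far (nat_lit 161) (nat_lit 1)) (.dom (nat_lit 18)))) 
  (.dom (nat_lit 273))) 
  (.dom (nat_lit 274)))) 
  (.dom (nat_lit 270)))) 
  (.br (nat_lit 21) (.br (nat_lit 17) (.br (nat_lit 16) (.far (nat_lit 161) (nat_lit 1)) 
  (.br (nat_lit 5) (.br (nat_lit 12) (.br (nat_lit 22) (.far (nat_lit 235555) (nat_lit 0)) 
  (.br (nat_lit 9) (.br (nat_lit 14) (.far (nat_lit 193) (nat_lit 129)) (.dom (nat_lit 5))) (.dom (nat_lit 268)))) 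
  (.dom (nat_lit 267))) 
  (.dom (nat_lit 274)))) 
  (.br (nat_lit 14) (.br (nat_lit 11) (.br (nat_lit 9) (.far (nat_lit 193) (nat_lit 129)) 
  (.br (nat_lit 22) (.br (nat_lit 4) (.br (nat_lit 5) (.far (nat_lit 161) (nat_lit 65)) (.br (nat_lit 16) (.far (nat_lit 161) (nat_lit 1)) (.dom (nat_lit 274)))) 
  (.dom (nat_lit 272))) 
  (.dom (nat_lit 268)))) 
  (.dom (nat_lit 269))) 
  (.dom (nat_lit 270)))) 
  (.dom (nat_lit 590)))) 
  (.br (nat_lit 4) (.br (nat_lit 12) (.br (nat_lit 5) (.br (nat_lit 2) (.br (nat_lit 14) (.far (nat_lit 7330) (nat_lit 10306)) 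
  (.br (nat_lit 17) (.br (nat_lit 22) (.far (nat_lit 33) (nat_lit 513)) (.br (nat_lit 1) (.far (nat_lit 0) (nat_lit 321)) (.dom (nat_lit 4)))) 
  (.dom (nat_lit 270)))) 
  (.br (nat_lit 21) (.br (nat_lit 22) (.far (nat_lit 0) (nat_lit 534595)) 
  (.br (nat_lit 11) (.br (nat_lit 6) (.br (nat_lit 9) (.br (nat_lit 14) (.far (nat_lit 161) (nat_lit 33)) (.br (nat_lit 1) (.far (nat_lit 129) (nat_lit 321)) (.dom (nat_lit 4)))) 
  (.dom (nat_lit 268))) 
  (.dom (nat_lit 589))) 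
  (.dom (nat_lit 0)))) 
  (.dom (nat_lit 590)))) 
  (.br (nat_lit 16) (.br (nat_lit 17) (.br (nat_lit 22) (.br (nat_lit 21) (.far (nat_lit 200739) (nat_lit 0)) 
  (.br (nat_lit 2) (.br (nat_lit 7) (.far (nat_lit 0) (nat_lit 513)) (.dom (nat_lit 19))) (.dom (nat_lit 590)))) 
  (.br (nat_lit 6) (.br (nat_lit 9) (.br (nat_lit 2) (.br (nat_lit 1) (.far (nat_lit 168003) (nat_lit 0)) 
  (.br (nat_lit 14) (.br (nat_lit 7) (.far (nat_lit 200771) (nat_lit 0)) 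
  (.br (nat_lit 21) (.br (nat_lit 11) (.far (nat_lit 161) (nat_lit 33)) (.br (nat_lit 19) (.far (nat_lit 161) (nat_lit 1)) (.dom (nat_lit 287)))) 
  (.dom (nat_lit 19)))) 
  (.dom (nat_lit 4)))) 
  (.br (nat_lit 21) (.br (nat_lit 11) (.far (nat_lit 193) (nat_lit 225)) (.dom (nat_lit 0))) (.dom (nat_lit 590)))) 
  (.dom (nat_lit 268))) 
  (.dom (nat_lit 15)))) 
  (.br (nat_lit 11) (.br (nat_lit 6) (.br (nat_lit 14) (.br (nat_lit 21) (.far (nat_lit 193) (nat_lit 225)) (.br (nat_lit 9) (.far (nat_lit 161) (nat_lit 33)) (.dom (nat_lit 18)))) 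
  (.dom (nat_lit 270))) 
  (.dom (nat_lit 273))) 
  (.dom (nat_lit 17)))) 
  (.dom (nat_lit 274)))) 
  (.dom (nat_lit 266))) 
  (.dom (nat_lit 591)))) 
  (.dom (nat_lit 271)))))

/-- search tree -/
def gp566B1 : BB := (.br (nat_lit 16) (.br (nat_lit 19) (.far (nat_lit 65) (nat_lit 417)) 
  (.br (nat_lit 8) (.br (nat_lit 1) (.br (nat_lit 7) (.far (nat_lit 133123) (nat_lit 0)) 
  (.br (nat_lit 4) (.br (nat_lit 2) (.far (nat_lit 5186) (nat_lit 10466)) 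
  (.br (nat_lit 21) (.br (nat_lit 11) (.far (nat_lit 193) (nat_lit 225)) 
  (.br (nat_lit 17) (.br (nat_lit 18) (.far (nat_lit 65) (nat_lit 225)) (.dom (nat_lit 44))) (.dom (nat_lit 269)))) 
  (.dom (nat_lit 590)))) 
  (.dom (nat_lit 591)))) 
  (.br (nat_lit 12) (.br (nat_lit 7) (.br (nat_lit 17) (.far (nat_lit 6210) (nat_lit 16418)) 
  (.br (nat_lit 14) (.br (nat_lit 11) (.far (nat_lit 193) (nat_lit 33)) 
  (.br (nat_lit 2) (.br (nat_lit 10) (.far (nat_lit 65) (nat_lit 33)) (.dom (nat_lit 67))) (.dom (nat_lit 269)))) 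
  (.dom (nat_lit 270)))) 
  (.br (nat_lit 4) (.br (nat_lit 24) (.br (nat_lit 11) (.br (nat_lit 14) (.br (nat_lit 21) (.br (nat_lit 13) (.far (nat_lit 0) (nat_lit 433187)) (.br (nat_lit 19) (.far (nat_lit 0) (nat_lit 417)) (.dom (nat_lit 121)))) 
  (.br (nat_lit 2) (.br (nat_lit 10) (.br (nat_lit 7) (.far (nat_lit 65) (nat_lit 33)) 
  (.br (nat_lit 5) (.br (nat_lit 19) (.far (nat_lit 161) (nat_lit 129)) 
  (.br (nat_lit 13) (.br (nat_lit 1) (.far (nat_lit 513) (nat_lit 321)) (.br (nat_lit 15) (.far (nat_lit 513) (nat_lit 33)) (.dom (nat_lit 497)))) 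
  (.dom (nat_lit 121)))) 
  (.dom (nat_lit 19)))) 
  (.dom (nat_lit 71))) 
  (.dom (nat_lit 590)))) 
  (.br (nat_lit 17) (.br (nat_lit 18) (.br (nat_lit 21) (.br (nat_lit 1) (.far (nat_lit 65) (nat_lit 225)) 
  (.br (nat_lit 22) (.br (nat_lit 19) (.far (nat_lit 193) (nat_lit 1)) 
  (.br (nat_lit 13) (.br (nat_lit 7) (.far (nat_lit 129) (nat_lit 33)) (.br (nat_lit 23) (.far (nat_lit 129) (nat_lit 1)) (.dom (nat_lit 455)))) 
  (.dom (nat_lit 121)))) 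
  (.dom (nat_lit 4)))) 
  (.br (nat_lit 2) (.br (nat_lit 10) (.br (nat_lit 1) (.far (nat_lit 65) (nat_lit 225)) 
  (.br (nat_lit 22) (.br (nat_lit 7) (.far (nat_lit 65) (nat_lit 33)) 
  (.br (nat_lit 5) (.br (nat_lit 20) (.br (nat_lit 19) (.far (nat_lit 65) (nat_lit 1)) 
  (.br (nat_lit 13) (.br (nat_lit 15) (.br (nat_lit 23) (.br (nat_lit 1) (.far (nat_lit 417) (nat_lit 225)) 
  (.br (nat_lit 7) (.far (nat_lit 417) (nat_lit 33)) (.br (nat_lit 25) (.far (nat_lit 417) (nat_lit 1)) (.dom (nat_lit 254))))) 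
  (.dom (nat_lit 455))) 
  (.dom (nat_lit 497))) 
  (.dom (nat_lit 121)))) 
  (.dom (nat_lit 370))) 
  (.dom (nat_lit 19)))) 
  (.dom (nat_lit 4)))) 
  (.dom (nat_lit 71))) 
  (.dom (nat_lit 590)))) 
  (.dom (nat_lit 48))) 
  (.dom (nat_lit 270)))) 
  (.br (nat_lit 2) (.br (nat_lit 20) (.br (nat_lit 17) (.br (nat_lit 19) (.far (nat_lit 231459) (nat_lit 0)) 
  (.br (nat_lit 13) (.br (nat_lit 10) (.br (nat_lit 14) (.br (nat_lit 7) (.far (nat_lit 433219) (nat_lit 0)) 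
  (.br (nat_lit 5) (.br (nat_lit 1) (.far (nat_lit 513) (nat_lit 321)) 
  (.br (nat_lit 25) (.br (nat_lit 15) (.far (nat_lit 417) (nat_lit 129)) 
  (.br (nat_lit 21) (.br (nat_lit 19) (.far (nat_lit 161) (nat_lit 1)) 
  (.br (nat_lit 1) (.br (nat_lit 3) (.far (nat_lit 0) (nat_lit 321)) (.br (nat_lit 18) (.far (nat_lit 65) (nat_lit 193)) (.dom (nat_lit 244)))) 
  (.br (nat_lit 22) (.br (nat_lit 3) (.far (nat_lit 33) (nat_lit 513)) 
  (.br (nat_lit 18) (.br (nat_lit 7) (.far (nat_lit 193) (nat_lit 161)) 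
  (.br (nat_lit 19) (.far (nat_lit 225) (nat_lit 1)) (.br (nat_lit 23) (.far (nat_lit 417) (nat_lit 1)) (.dom (nat_lit 585))))) 
  (.dom (nat_lit 244)))) 
  (.dom (nat_lit 240))))) 
  (.dom (nat_lit 497)))) 
  (.dom (nat_lit 539)))) 
  (.br (nat_lit 21) (.br (nat_lit 18) (.br (nat_lit 1) (.far (nat_lit 65) (nat_lit 193)) 
  (.br (nat_lit 22) (.br (nat_lit 25) (.br (nat_lit 7) (.far (nat_lit 193) (nat_lit 161)) 
  (.br (nat_lit 19) (.far (nat_lit 225) (nat_lit 1)) (.br (nat_lit 23) (.far (nat_lit 417) (nat_lit 1)) (.dom (nat_lit 233))))) 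
  (.dom (nat_lit 539))) 
  (.dom (nat_lit 287)))) 
  (.dom (nat_lit 313))) 
  (.dom (nat_lit 19))))) 
  (.br (nat_lit 18) (.br (nat_lit 1) (.far (nat_lit 65) (nat_lit 193)) 
  (.br (nat_lit 22) (.br (nat_lit 7) (.far (nat_lit 193) (nat_lit 161)) 
  (.br (nat_lit 23) (.br (nat_lit 25) (.far (nat_lit 417) (nat_lit 1)) (.dom (nat_lit 539))) (.dom (nat_lit 455)))) 
  (.dom (nat_lit 4)))) 
  (.dom (nat_lit 48)))) 
  (.br (nat_lit 21) (.br (nat_lit 18) (.br (nat_lit 1) (.far (nat_lit 65) (nat_lit 10466)) 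
  (.br (nat_lit 22) (.br (nat_lit 7) (.far (nat_lit 193) (nat_lit 161)) 
  (.br (nat_lit 25) (.br (nat_lit 23) (.far (nat_lit 417) (nat_lit 1)) 
  (.br (nat_lit 14) (.br (nat_lit 19) (.far (nat_lit 225) (nat_lit 1)) (.br (nat_lit 3) (.far (nat_lit 193) (nat_lit 321)) (.dom (nat_lit 235)))) 
  (.dom (nat_lit 455)))) 
  (.dom (nat_lit 539)))) 
  (.dom (nat_lit 329)))) 
  (.br (nat_lit 14) (.br (nat_lit 3) (.far (nat_lit 193) (nat_lit 321)) (.dom (nat_lit 343))) (.dom (nat_lit 48)))) 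
  (.dom (nat_lit 71)))) 
  (.dom (nat_lit 121)))) 
  (.br (nat_lit 14) (.br (nat_lit 10) (.br (nat_lit 5) (.br (nat_lit 19) (.far (nat_lit 161) (nat_lit 129)) 
  (.br (nat_lit 13) (.br (nat_lit 1) (.far (nat_lit 513) (nat_lit 321)) (.br (nat_lit 15) (.far (nat_lit 1) (nat_lit 129)) (.dom (nat_lit 493)))) 
  (.dom (nat_lit 121)))) 
  (.dom (nat_lit 17))) 
  (.dom (nat_lit 67))) 
  (.dom (nat_lit 270)))) 
  (.dom (nat_lit 95))) 
  (.br (nat_lit 17) (.br (nat_lit 21) (.br (nat_lit 18) (.br (nat_lit 22) (.br (nat_lit 20) (.br (nat_lit 19) (.far (nat_lit 193) (nat_lit 1)) 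
  (.br (nat_lit 13) (.br (nat_lit 7) (.far (nat_lit 193) (nat_lit 161)) (.br (nat_lit 23) (.far (nat_lit 129) (nat_lit 1)) (.dom (nat_lit 453)))) 
  (.dom (nat_lit 121)))) 
  (.dom (nat_lit 95))) 
  (.dom (nat_lit 0))) 
  (.dom (nat_lit 44))) 
  (.dom (nat_lit 590))) 
  (.dom (nat_lit 269))))) 
  (.dom (nat_lit 271))) 
  (.dom (nat_lit 591)))) 
  (.dom (nat_lit 266)))) 
  (.dom (nat_lit 592)))) 
  (.br (nat_lit 10) (.br (nat_lit 7) (.br (nat_lit 2) (.far (nat_lit 231427) (nat_lit 0)) 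
  (.br (nat_lit 12) (.br (nat_lit 17) (.far (nat_lit 7234) (nat_lit 16418)) 
  (.br (nat_lit 11) (.br (nat_lit 8) (.far (nat_lit 65) (nat_lit 33)) (.br (nat_lit 14) (.far (nat_lit 193) (nat_lit 33)) (.dom (nat_lit 25)))) 
  (.dom (nat_lit 269)))) 
  (.dom (nat_lit 267)))) 
  (.br (nat_lit 2) (.br (nat_lit 5) (.br (nat_lit 19) (.br (nat_lit 1) (.far (nat_lit 5186) (nat_lit 10370)) 
  (.br (nat_lit 24) (.br (nat_lit 14) (.far (nat_lit 193) (nat_lit 129)) 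
  (.br (nat_lit 17) (.br (nat_lit 20) (.far (nat_lit 65) (nat_lit 129)) (.dom (nat_lit 100))) (.dom (nat_lit 270)))) 
  (.dom (nat_lit 271)))) 
  (.br (nat_lit 1) (.far (nat_lit 2050) (nat_lit 10370)) 
  (.br (nat_lit 15) (.br (nat_lit 4) (.br (nat_lit 8) (.br (nat_lit 12) (.br (nat_lit 24) (.br (nat_lit 14) (.far (nat_lit 1) (nat_lit 129)) 
  (.br (nat_lit 20) (.br (nat_lit 17) (.br (nat_lit 18) (.br (nat_lit 1) (.far (nat_lit 65) (nat_lit 193)) 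
  (.br (nat_lit 22) (.br (nat_lit 7) (.far (nat_lit 193) (nat_lit 161)) (.br (nat_lit 25) (.far (nat_lit 417) (nat_lit 129)) (.dom (nat_lit 545)))) 
  (.dom (nat_lit 4)))) 
  (.dom (nat_lit 48))) 
  (.dom (nat_lit 270))) 
  (.dom (nat_lit 100)))) 
  (.dom (nat_lit 271))) 
  (.dom (nat_lit 266))) 
  (.dom (nat_lit 592))) 
  (.dom (nat_lit 591))) 
  (.dom (nat_lit 158))))) 
  (.dom (nat_lit 274))) 
  (.br (nat_lit 19) (.br (nat_lit 5) (.br (nat_lit 12) (.br (nat_lit 21) (.br (nat_lit 14) (.br (nat_lit 11) (.br (nat_lit 24) (.br (nat_lit 15) (.far (nat_lit 0) (nat_lit 430115)) (.br (nat_lit 16) (.far (nat_lit 0) (nat_lit 417)) (.dom (nat_lit 160)))) 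
  (.br (nat_lit 1) (.br (nat_lit 8) (.br (nat_lit 7) (.far (nat_lit 65) (nat_lit 33)) 
  (.br (nat_lit 4) (.br (nat_lit 16) (.far (nat_lit 161) (nat_lit 225)) 
  (.br (nat_lit 15) (.br (nat_lit 2) (.far (nat_lit 513) (nat_lit 321)) (.br (nat_lit 13) (.far (nat_lit 513) (nat_lit 33)) (.dom (nat_lit 424)))) 
  (.dom (nat_lit 160)))) 
  (.dom (nat_lit 13)))) 
  (.dom (nat_lit 31))) 
  (.dom (nat_lit 271)))) 
  (.br (nat_lit 17) (.br (nat_lit 20) (.br (nat_lit 24) (.br (nat_lit 2) (.far (nat_lit 65) (nat_lit 129)) 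
  (.br (nat_lit 22) (.br (nat_lit 16) (.far (nat_lit 193) (nat_lit 1)) 
  (.br (nat_lit 15) (.br (nat_lit 7) (.far (nat_lit 225) (nat_lit 33)) (.br (nat_lit 25) (.far (nat_lit 225) (nat_lit 1)) (.dom (nat_lit 541)))) 
  (.dom (nat_lit 160)))) 
  (.dom (nat_lit 1)))) 
  (.br (nat_lit 1) (.br (nat_lit 8) (.br (nat_lit 2) (.far (nat_lit 65) (nat_lit 129)) 
  (.br (nat_lit 22) (.br (nat_lit 7) (.far (nat_lit 65) (nat_lit 33)) 
  (.br (nat_lit 4) (.br (nat_lit 18) (.br (nat_lit 16) (.far (nat_lit 65) (nat_lit 1)) 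
  (.br (nat_lit 13) (.br (nat_lit 15) (.br (nat_lit 25) (.br (nat_lit 2) (.far (nat_lit 417) (nat_lit 129)) 
  (.br (nat_lit 7) (.far (nat_lit 417) (nat_lit 33)) (.br (nat_lit 23) (.far (nat_lit 417) (nat_lit 1)) (.dom (nat_lit 232))))) 
  (.dom (nat_lit 541))) 
  (.dom (nat_lit 160))) 
  (.dom (nat_lit 424)))) 
  (.dom (nat_lit 310))) 
  (.dom (nat_lit 13)))) 
  (.dom (nat_lit 1)))) 
  (.dom (nat_lit 31))) 
  (.dom (nat_lit 271)))) 
  (.dom (nat_lit 96))) 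
  (.dom (nat_lit 269)))) 
  (.br (nat_lit 1) (.br (nat_lit 18) (.br (nat_lit 17) (.br (nat_lit 16) (.far (nat_lit 133155) (nat_lit 0)) 
  (.br (nat_lit 15) (.br (nat_lit 8) (.br (nat_lit 11) (.br (nat_lit 7) (.far (nat_lit 430147) (nat_lit 0)) 
  (.br (nat_lit 4) (.br (nat_lit 2) (.far (nat_lit 513) (nat_lit 321)) 
  (.br (nat_lit 23) (.br (nat_lit 13) (.far (nat_lit 417) (nat_lit 225)) 
  (.br (nat_lit 24) (.br (nat_lit 16) (.far (nat_lit 161) (nat_lit 1)) 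
  (.br (nat_lit 2) (.br (nat_lit 3) (.far (nat_lit 0) (nat_lit 321)) (.br (nat_lit 20) (.far (nat_lit 65) (nat_lit 129)) (.dom (nat_lit 228)))) 
  (.br (nat_lit 22) (.br (nat_lit 3) (.far (nat_lit 33) (nat_lit 513)) 
  (.br (nat_lit 20) (.br (nat_lit 7) (.far (nat_lit 193) (nat_lit 161)) 
  (.br (nat_lit 16) (.far (nat_lit 193) (nat_lit 1)) (.br (nat_lit 25) (.far (nat_lit 417) (nat_lit 1)) (.dom (nat_lit 588))))) 
  (.dom (nat_lit 228)))) 
  (.dom (nat_lit 222))))) 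
  (.dom (nat_lit 424)))) 
  (.dom (nat_lit 459)))) 
  (.br (nat_lit 24) (.br (nat_lit 20) (.br (nat_lit 2) (.far (nat_lit 65) (nat_lit 129)) 
  (.br (nat_lit 22) (.br (nat_lit 23) (.br (nat_lit 7) (.far (nat_lit 193) (nat_lit 161)) 
  (.br (nat_lit 16) (.far (nat_lit 193) (nat_lit 1)) (.br (nat_lit 25) (.far (nat_lit 417) (nat_lit 1)) (.dom (nat_lit 255))))) 
  (.dom (nat_lit 459))) 
  (.dom (nat_lit 285)))) 
  (.dom (nat_lit 373))) 
  (.dom (nat_lit 13))))) 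
  (.br (nat_lit 20) (.br (nat_lit 2) (.far (nat_lit 65) (nat_lit 129)) 
  (.br (nat_lit 22) (.br (nat_lit 7) (.far (nat_lit 193) (nat_lit 161)) 
  (.br (nat_lit 25) (.br (nat_lit 23) (.far (nat_lit 417) (nat_lit 1)) (.dom (nat_lit 459))) (.dom (nat_lit 541)))) 
  (.dom (nat_lit 1)))) 
  (.dom (nat_lit 96)))) 
  (.br (nat_lit 24) (.br (nat_lit 20) (.br (nat_lit 2) (.far (nat_lit 65) (nat_lit 10370)) 
  (.br (nat_lit 22) (.br (nat_lit 7) (.far (nat_lit 193) (nat_lit 161)) 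
  (.br (nat_lit 23) (.br (nat_lit 25) (.far (nat_lit 417) (nat_lit 1)) 
  (.br (nat_lit 11) (.br (nat_lit 16) (.far (nat_lit 193) (nat_lit 1)) (.br (nat_lit 3) (.far (nat_lit 193) (nat_lit 321)) (.dom (nat_lit 257)))) 
  (.dom (nat_lit 541)))) 
  (.dom (nat_lit 459)))) 
  (.dom (nat_lit 291)))) 
  (.br (nat_lit 11) (.br (nat_lit 3) (.far (nat_lit 193) (nat_lit 321)) (.dom (nat_lit 381))) (.dom (nat_lit 96)))) 
  (.dom (nat_lit 31)))) 
  (.dom (nat_lit 160)))) 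
  (.br (nat_lit 11) (.br (nat_lit 8) (.br (nat_lit 4) (.br (nat_lit 16) (.far (nat_lit 161) (nat_lit 225)) 
  (.br (nat_lit 15) (.br (nat_lit 2) (.far (nat_lit 513) (nat_lit 321)) (.br (nat_lit 13) (.far (nat_lit 1) (nat_lit 225)) (.dom (nat_lit 417)))) 
  (.dom (nat_lit 160)))) 
  (.dom (nat_lit 11))) 
  (.dom (nat_lit 25))) 
  (.dom (nat_lit 269)))) 
  (.dom (nat_lit 50))) 
  (.br (nat_lit 17) (.br (nat_lit 24) (.br (nat_lit 20) (.br (nat_lit 22) (.br (nat_lit 18) (.br (nat_lit 16) (.far (nat_lit 193) (nat_lit 1)) 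
  (.br (nat_lit 15) (.br (nat_lit 7) (.far (nat_lit 193) (nat_lit 161)) (.br (nat_lit 25) (.far (nat_lit 225) (nat_lit 1)) (.dom (nat_lit 546)))) 
  (.dom (nat_lit 160)))) 
  (.dom (nat_lit 50))) 
  (.dom (nat_lit 5))) 
  (.dom (nat_lit 100))) 
  (.dom (nat_lit 271))) 
  (.dom (nat_lit 270))))) 
  (.dom (nat_lit 590))) 
  (.dom (nat_lit 267))) 
  (.dom (nat_lit 274))) 
  (.br (nat_lit 1) (.br (nat_lit 8) (.br (nat_lit 4) (.br (nat_lit 13) (.br (nat_lit 5) (.br (nat_lit 12) (.br (nat_lit 21) (.br (nat_lit 11) (.far (nat_lit 1) (nat_lit 225)) 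
  (.br (nat_lit 18) (.br (nat_lit 17) (.br (nat_lit 20) (.br (nat_lit 2) (.far (nat_lit 65) (nat_lit 193)) 
  (.br (nat_lit 22) (.br (nat_lit 7) (.far (nat_lit 193) (nat_lit 161)) (.br (nat_lit 23) (.far (nat_lit 417) (nat_lit 225)) (.dom (nat_lit 454)))) 
  (.dom (nat_lit 1)))) 
  (.dom (nat_lit 96))) 
  (.dom (nat_lit 269))) 
  (.dom (nat_lit 44)))) 
  (.dom (nat_lit 590))) 
  (.dom (nat_lit 267))) 
  (.dom (nat_lit 274))) 
  (.dom (nat_lit 124))) 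
  (.dom (nat_lit 591))) 
  (.dom (nat_lit 592))) 
  (.br (nat_lit 12) (.br (nat_lit 14) (.br (nat_lit 11) (.br (nat_lit 24) (.br (nat_lit 15) (.br (nat_lit 13) (.br (nat_lit 5) (.far (nat_lit 161) (nat_lit 4260900)) (.dom (nat_lit 274))) (.dom (nat_lit 124))) 
  (.dom (nat_lit 158))) 
  (.dom (nat_lit 271))) 
  (.br (nat_lit 20) (.br (nat_lit 5) (.br (nat_lit 24) (.br (nat_lit 15) (.br (nat_lit 13) (.br (nat_lit 22) (.br (nat_lit 4) (.br (nat_lit 8) (.br (nat_lit 17) (.br (nat_lit 18) (.br (nat_lit 21) (.br (nat_lit 7) (.far (nat_lit 417) (nat_lit 33)) 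
  (.br (nat_lit 25) (.br (nat_lit 23) (.far (nat_lit 417) (nat_lit 1)) (.br (nat_lit 2) (.far (nat_lit 417) (nat_lit 129)) (.dom (nat_lit 454)))) 
  (.dom (nat_lit 540)))) 
  (.dom (nat_lit 590))) 
  (.dom (nat_lit 44))) 
  (.dom (nat_lit 269))) 
  (.dom (nat_lit 592))) 
  (.dom (nat_lit 591))) 
  (.dom (nat_lit 0))) 
  (.dom (nat_lit 124))) 
  (.dom (nat_lit 158))) 
  (.dom (nat_lit 271))) 
  (.dom (nat_lit 274))) 
  (.dom (nat_lit 95)))) 
  (.br (nat_lit 18) (.br (nat_lit 17) (.br (nat_lit 22) (.br (nat_lit 20) (.br (nat_lit 24) (.br (nat_lit 15) (.br (nat_lit 13) (.br (nat_lit 21) (.br (nat_lit 4) (.br (nat_lit 5) (.br (nat_lit 8) (.br (nat_lit 7) (.far (nat_lit 417) (nat_lit 33)) 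
  (.br (nat_lit 23) (.br (nat_lit 25) (.far (nat_lit 417) (nat_lit 1)) 
  (.br (nat_lit 11) (.br (nat_lit 1) (.far (nat_lit 417) (nat_lit 225)) (.dom (nat_lit 545))) (.dom (nat_lit 540)))) 
  (.dom (nat_lit 456)))) 
  (.dom (nat_lit 592))) 
  (.dom (nat_lit 274))) 
  (.dom (nat_lit 591))) 
  (.dom (nat_lit 590))) 
  (.dom (nat_lit 124))) 
  (.dom (nat_lit 158))) 
  (.dom (nat_lit 271))) 
  (.dom (nat_lit 100))) 
  (.dom (nat_lit 5))) 
  (.dom (nat_lit 270))) 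
  (.dom (nat_lit 48)))) 
  (.dom (nat_lit 266))))))) 
  (.dom (nat_lit 278))))

/-- search tree -/
def gp566B2 : BB := (.br (nat_lit 16) (.br (nat_lit 19) (.br (nat_lit 4) (.br (nat_lit 14) (.br (nat_lit 22) (.br (nat_lit 21) (.br (nat_lit 11) (.br (nat_lit 24) (.br (nat_lit 9) (.far (nat_lit 0) (nat_lit 417)) (.br (nat_lit 23) (.far (nat_lit 0) (nat_lit 433155)) (.dom (nat_lit 138)))) 
  (.br (nat_lit 7) (.br (nat_lit 8) (.br (nat_lit 1) (.far (nat_lit 65) (nat_lit 225)) 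
  (.br (nat_lit 12) (.br (nat_lit 9) (.far (nat_lit 193) (nat_lit 33)) 
  (.br (nat_lit 23) (.br (nat_lit 13) (.far (nat_lit 129) (nat_lit 33)) (.br (nat_lit 17) (.far (nat_lit 129) (nat_lit 1)) (.dom (nat_lit 420)))) 
  (.dom (nat_lit 138)))) 
  (.dom (nat_lit 6)))) 
  (.dom (nat_lit 29))) 
  (.dom (nat_lit 271)))) 
  (.br (nat_lit 2) (.br (nat_lit 20) (.br (nat_lit 24) (.br (nat_lit 9) (.far (nat_lit 5186) (nat_lit 4098)) 
  (.br (nat_lit 23) (.br (nat_lit 17) (.far (nat_lit 129) (nat_lit 1)) 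
  (.br (nat_lit 5) (.br (nat_lit 1) (.far (nat_lit 513) (nat_lit 321)) (.br (nat_lit 25) (.far (nat_lit 513) (nat_lit 1)) (.dom (nat_lit 537)))) 
  (.dom (nat_lit 16)))) 
  (.dom (nat_lit 138)))) 
  (.br (nat_lit 7) (.br (nat_lit 8) (.br (nat_lit 1) (.far (nat_lit 65) (nat_lit 225)) 
  (.br (nat_lit 12) (.br (nat_lit 17) (.far (nat_lit 65) (nat_lit 1)) 
  (.br (nat_lit 5) (.br (nat_lit 10) (.br (nat_lit 9) (.far (nat_lit 65) (nat_lit 33)) 
  (.br (nat_lit 13) (.br (nat_lit 23) (.br (nat_lit 25) (.br (nat_lit 1) (.far (nat_lit 417) (nat_lit 225)) 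
  (.br (nat_lit 15) (.far (nat_lit 417) (nat_lit 33)) (.br (nat_lit 17) (.far (nat_lit 417) (nat_lit 1)) (.dom (nat_lit 241))))) 
  (.dom (nat_lit 537))) 
  (.dom (nat_lit 138))) 
  (.dom (nat_lit 420)))) 
  (.dom (nat_lit 331))) 
  (.dom (nat_lit 16)))) 
  (.dom (nat_lit 6)))) 
  (.dom (nat_lit 29))) 
  (.dom (nat_lit 271)))) 
  (.dom (nat_lit 94))) 
  (.dom (nat_lit 269)))) 
  (.br (nat_lit 2) (.br (nat_lit 10) (.br (nat_lit 7) (.br (nat_lit 9) (.far (nat_lit 231427) (nat_lit 0)) 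
  (.br (nat_lit 23) (.br (nat_lit 8) (.br (nat_lit 11) (.br (nat_lit 1) (.far (nat_lit 428035) (nat_lit 0)) 
  (.br (nat_lit 12) (.br (nat_lit 17) (.far (nat_lit 193) (nat_lit 161)) 
  (.br (nat_lit 15) (.br (nat_lit 13) (.far (nat_lit 417) (nat_lit 33)) 
  (.br (nat_lit 24) (.br (nat_lit 9) (.far (nat_lit 225) (nat_lit 33)) 
  (.br (nat_lit 3) (.br (nat_lit 5) (.far (nat_lit 225) (nat_lit 321)) (.br (nat_lit 17) (.far (nat_lit 0) (nat_lit 513)) (.dom (nat_lit 224)))) 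
  (.br (nat_lit 20) (.br (nat_lit 17) (.far (nat_lit 65) (nat_lit 1)) 
  (.br (nat_lit 5) (.br (nat_lit 1) (.far (nat_lit 513) (nat_lit 321)) 
  (.br (nat_lit 9) (.far (nat_lit 225) (nat_lit 33)) (.br (nat_lit 25) (.far (nat_lit 417) (nat_lit 129)) (.dom (nat_lit 587))))) 
  (.dom (nat_lit 224)))) 
  (.dom (nat_lit 227))))) 
  (.dom (nat_lit 420)))) 
  (.dom (nat_lit 495)))) 
  (.br (nat_lit 24) (.br (nat_lit 20) (.br (nat_lit 17) (.far (nat_lit 65) (nat_lit 1)) 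
  (.br (nat_lit 5) (.br (nat_lit 15) (.br (nat_lit 1) (.far (nat_lit 513) (nat_lit 321)) 
  (.br (nat_lit 9) (.far (nat_lit 193) (nat_lit 129)) (.br (nat_lit 25) (.far (nat_lit 417) (nat_lit 129)) (.dom (nat_lit 253))))) 
  (.dom (nat_lit 495))) 
  (.dom (nat_lit 288)))) 
  (.dom (nat_lit 369))) 
  (.dom (nat_lit 6))))) 
  (.br (nat_lit 20) (.br (nat_lit 17) (.far (nat_lit 65) (nat_lit 1)) 
  (.br (nat_lit 5) (.br (nat_lit 1) (.far (nat_lit 513) (nat_lit 321)) 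
  (.br (nat_lit 25) (.br (nat_lit 15) (.far (nat_lit 417) (nat_lit 129)) (.dom (nat_lit 495))) (.dom (nat_lit 537)))) 
  (.dom (nat_lit 16)))) 
  (.dom (nat_lit 94)))) 
  (.br (nat_lit 24) (.br (nat_lit 20) (.br (nat_lit 17) (.far (nat_lit 65) (nat_lit 16386)) 
  (.br (nat_lit 5) (.br (nat_lit 1) (.far (nat_lit 513) (nat_lit 321)) 
  (.br (nat_lit 15) (.br (nat_lit 25) (.far (nat_lit 417) (nat_lit 129)) 
  (.br (nat_lit 11) (.br (nat_lit 9) (.far (nat_lit 161) (nat_lit 33)) (.br (nat_lit 3) (.far (nat_lit 225) (nat_lit 321)) (.dom (nat_lit 256)))) 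
  (.dom (nat_lit 537)))) 
  (.dom (nat_lit 495)))) 
  (.dom (nat_lit 296)))) 
  (.br (nat_lit 11) (.br (nat_lit 3) (.far (nat_lit 193) (nat_lit 321)) (.dom (nat_lit 379))) (.dom (nat_lit 94)))) 
  (.dom (nat_lit 29)))) 
  (.dom (nat_lit 138)))) 
  (.br (nat_lit 24) (.br (nat_lit 20) (.br (nat_lit 5) (.br (nat_lit 9) (.far (nat_lit 161) (nat_lit 129)) 
  (.br (nat_lit 23) (.br (nat_lit 1) (.far (nat_lit 513) (nat_lit 321)) (.br (nat_lit 25) (.far (nat_lit 33) (nat_lit 129)) (.dom (nat_lit 542)))) 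
  (.dom (nat_lit 138)))) 
  (.dom (nat_lit 18))) 
  (.dom (nat_lit 97))) 
  (.dom (nat_lit 271)))) 
  (.dom (nat_lit 70))) 
  (.br (nat_lit 7) (.br (nat_lit 11) (.br (nat_lit 8) (.br (nat_lit 12) (.br (nat_lit 10) (.br (nat_lit 9) (.far (nat_lit 193) (nat_lit 33)) 
  (.br (nat_lit 23) (.br (nat_lit 17) (.far (nat_lit 193) (nat_lit 161)) (.br (nat_lit 13) (.far (nat_lit 129) (nat_lit 33)) (.dom (nat_lit 414)))) 
  (.dom (nat_lit 138)))) 
  (.dom (nat_lit 70))) 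
  (.dom (nat_lit 2))) 
  (.dom (nat_lit 22))) 
  (.dom (nat_lit 269))) 
  (.dom (nat_lit 590))))) 
  (.dom (nat_lit 268))) 
  (.dom (nat_lit 270))) 
  (.dom (nat_lit 272))) 
  (.br (nat_lit 7) (.br (nat_lit 8) (.br (nat_lit 12) (.br (nat_lit 13) (.br (nat_lit 4) (.br (nat_lit 14) (.br (nat_lit 22) (.br (nat_lit 11) (.far (nat_lit 129) (nat_lit 33)) 
  (.br (nat_lit 10) (.br (nat_lit 2) (.br (nat_lit 20) (.br (nat_lit 17) (.far (nat_lit 65) (nat_lit 161)) 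
  (.br (nat_lit 5) (.br (nat_lit 1) (.far (nat_lit 513) (nat_lit 321)) (.br (nat_lit 15) (.far (nat_lit 417) (nat_lit 33)) (.dom (nat_lit 492)))) 
  (.dom (nat_lit 16)))) 
  (.dom (nat_lit 94))) 
  (.dom (nat_lit 269))) 
  (.dom (nat_lit 67)))) 
  (.dom (nat_lit 268))) 
  (.dom (nat_lit 270))) 
  (.dom (nat_lit 272))) 
  (.dom (nat_lit 120))) 
  (.dom (nat_lit 266))) 
  (.dom (nat_lit 592))) 
  (.br (nat_lit 4) (.br (nat_lit 21) (.br (nat_lit 11) (.br (nat_lit 24) (.br (nat_lit 23) (.br (nat_lit 13) (.br (nat_lit 14) (.far (nat_lit 0) (nat_lit 433219)) (.dom (nat_lit 270))) (.dom (nat_lit 120))) 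
  (.dom (nat_lit 139))) 
  (.dom (nat_lit 271))) 
  (.br (nat_lit 20) (.br (nat_lit 22) (.br (nat_lit 24) (.br (nat_lit 23) (.br (nat_lit 5) (.br (nat_lit 13) (.br (nat_lit 2) (.br (nat_lit 8) (.br (nat_lit 10) (.br (nat_lit 12) (.br (nat_lit 14) (.br (nat_lit 1) (.far (nat_lit 417) (nat_lit 225)) 
  (.br (nat_lit 25) (.br (nat_lit 15) (.far (nat_lit 417) (nat_lit 129)) (.br (nat_lit 17) (.far (nat_lit 417) (nat_lit 1)) (.dom (nat_lit 492)))) 
  (.dom (nat_lit 538)))) 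
  (.dom (nat_lit 270))) 
  (.dom (nat_lit 266))) 
  (.dom (nat_lit 67))) 
  (.dom (nat_lit 592))) 
  (.dom (nat_lit 269))) 
  (.dom (nat_lit 120))) 
  (.dom (nat_lit 17))) 
  (.dom (nat_lit 139))) 
  (.dom (nat_lit 271))) 
  (.dom (nat_lit 268))) 
  (.dom (nat_lit 94)))) 
  (.br (nat_lit 10) (.br (nat_lit 2) (.br (nat_lit 5) (.br (nat_lit 20) (.br (nat_lit 24) (.br (nat_lit 23) (.br (nat_lit 13) (.br (nat_lit 14) (.br (nat_lit 12) (.br (nat_lit 8) (.br (nat_lit 22) (.br (nat_lit 1) (.far (nat_lit 417) (nat_lit 225)) 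
  (.br (nat_lit 15) (.br (nat_lit 25) (.far (nat_lit 417) (nat_lit 129)) 
  (.br (nat_lit 11) (.br (nat_lit 7) (.far (nat_lit 417) (nat_lit 33)) (.dom (nat_lit 543))) (.dom (nat_lit 538)))) 
  (.dom (nat_lit 496)))) 
  (.dom (nat_lit 268))) 
  (.dom (nat_lit 592))) 
  (.dom (nat_lit 266))) 
  (.dom (nat_lit 270))) 
  (.dom (nat_lit 120))) 
  (.dom (nat_lit 139))) 
  (.dom (nat_lit 271))) 
  (.dom (nat_lit 97))) 
  (.dom (nat_lit 18))) 
  (.dom (nat_lit 590))) 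
  (.dom (nat_lit 70)))) 
  (.dom (nat_lit 272))))) 
  (.br (nat_lit 7) (.br (nat_lit 10) (.br (nat_lit 12) (.br (nat_lit 14) (.br (nat_lit 22) (.br (nat_lit 15) (.br (nat_lit 4) (.br (nat_lit 8) (.br (nat_lit 11) (.br (nat_lit 13) (.far (nat_lit 417) (nat_lit 33)) 
  (.br (nat_lit 2) (.br (nat_lit 19) (.br (nat_lit 9) (.far (nat_lit 225) (nat_lit 33)) 
  (.br (nat_lit 23) (.br (nat_lit 17) (.br (nat_lit 3) (.far (nat_lit 0) (nat_lit 513)) (.br (nat_lit 20) (.far (nat_lit 65) (nat_lit 161)) (.dom (nat_lit 438)))) 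
  (.br (nat_lit 5) (.br (nat_lit 1) (.far (nat_lit 513) (nat_lit 321)) 
  (.br (nat_lit 24) (.br (nat_lit 3) (.far (nat_lit 225) (nat_lit 321)) 
  (.br (nat_lit 20) (.br (nat_lit 9) (.far (nat_lit 225) (nat_lit 33)) (.br (nat_lit 25) (.far (nat_lit 417) (nat_lit 129)) (.dom (nat_lit 261)))) 
  (.dom (nat_lit 438)))) 
  (.dom (nat_lit 420)))) 
  (.dom (nat_lit 425)))) 
  (.dom (nat_lit 138)))) 
  (.dom (nat_lit 120))) 
  (.dom (nat_lit 122)))) 
  (.br (nat_lit 2) (.br (nat_lit 20) (.br (nat_lit 9) (.far (nat_lit 225) (nat_lit 33)) 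
  (.br (nat_lit 23) (.br (nat_lit 17) (.far (nat_lit 65) (nat_lit 161)) 
  (.br (nat_lit 5) (.br (nat_lit 1) (.far (nat_lit 513) (nat_lit 321)) (.br (nat_lit 25) (.far (nat_lit 417) (nat_lit 129)) (.dom (nat_lit 537)))) 
  (.dom (nat_lit 16)))) 
  (.dom (nat_lit 138)))) 
  (.dom (nat_lit 94))) 
  (.dom (nat_lit 269)))) 
  (.br (nat_lit 19) (.br (nat_lit 5) (.br (nat_lit 24) (.br (nat_lit 2) (.br (nat_lit 20) (.br (nat_lit 9) (.far (nat_lit 225) (nat_lit 33)) 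
  (.br (nat_lit 23) (.br (nat_lit 25) (.far (nat_lit 417) (nat_lit 129)) (.br (nat_lit 3) (.far (nat_lit 225) (nat_lit 321)) (.dom (nat_lit 550)))) 
  (.dom (nat_lit 138)))) 
  (.br (nat_lit 3) (.far (nat_lit 225) (nat_lit 321)) (.dom (nat_lit 116)))) 
  (.br (nat_lit 11) (.br (nat_lit 13) (.br (nat_lit 21) (.br (nat_lit 3) (.far (nat_lit 193) (nat_lit 65)) 
  (.br (nat_lit 20) (.br (nat_lit 9) (.far (nat_lit 225) (nat_lit 33)) 
  (.br (nat_lit 23) (.br (nat_lit 25) (.far (nat_lit 513) (nat_lit 65)) (.dom (nat_lit 550))) (.dom (nat_lit 138)))) 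
  (.dom (nat_lit 116)))) 
  (.dom (nat_lit 22))) 
  (.dom (nat_lit 122))) 
  (.dom (nat_lit 269)))) 
  (.dom (nat_lit 29))) 
  (.dom (nat_lit 35))) 
  (.dom (nat_lit 592)))) 
  (.dom (nat_lit 272))) 
  (.dom (nat_lit 156))) 
  (.dom (nat_lit 268))) 
  (.dom (nat_lit 270))) 
  (.br (nat_lit 2) (.br (nat_lit 19) (.br (nat_lit 20) (.br (nat_lit 5) (.br (nat_lit 15) (.br (nat_lit 4) (.br (nat_lit 14) (.br (nat_lit 22) (.br (nat_lit 24) (.br (nat_lit 9) (.far (nat_lit 161) (nat_lit 129)) 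
  (.br (nat_lit 23) (.br (nat_lit 25) (.far (nat_lit 417) (nat_lit 129)) (.br (nat_lit 1) (.far (nat_lit 513) (nat_lit 321)) (.dom (nat_lit 536)))) 
  (.dom (nat_lit 138)))) 
  (.br (nat_lit 1) (.far (nat_lit 513) (nat_lit 321)) (.dom (nat_lit 6)))) 
  (.dom (nat_lit 268))) 
  (.dom (nat_lit 270))) 
  (.dom (nat_lit 272))) 
  (.dom (nat_lit 156))) 
  (.dom (nat_lit 14))) 
  (.dom (nat_lit 93))) 
  (.dom (nat_lit 266))) 
  (.dom (nat_lit 267)))) 
  (.dom (nat_lit 278))) 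
  (.br (nat_lit 19) (.br (nat_lit 2) (.br (nat_lit 5) (.br (nat_lit 20) (.br (nat_lit 24) (.br (nat_lit 10) (.br (nat_lit 25) (.far (nat_lit 33) (nat_lit 129)) (.dom (nat_lit 176))) (.dom (nat_lit 278))) 
  (.dom (nat_lit 271))) 
  (.br (nat_lit 4) (.br (nat_lit 14) (.br (nat_lit 24) (.br (nat_lit 21) (.br (nat_lit 11) (.br (nat_lit 15) (.br (nat_lit 25) (.br (nat_lit 10) (.br (nat_lit 12) (.br (nat_lit 22) (.br (nat_lit 3) (.far (nat_lit 225) (nat_lit 65)) 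
  (.br (nat_lit 8) (.br (nat_lit 9) (.far (nat_lit 161) (nat_lit 33)) 
  (.br (nat_lit 23) (.br (nat_lit 13) (.far (nat_lit 513) (nat_lit 65)) (.dom (nat_lit 438))) (.dom (nat_lit 138)))) 
  (.dom (nat_lit 116)))) 
  (.dom (nat_lit 268))) 
  (.dom (nat_lit 93))) 
  (.dom (nat_lit 278))) 
  (.dom (nat_lit 176))) 
  (.dom (nat_lit 156))) 
  (.dom (nat_lit 94))) 
  (.dom (nat_lit 97))) 
  (.dom (nat_lit 271))) 
  (.dom (nat_lit 270))) 
  (.dom (nat_lit 272)))) 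
  (.dom (nat_lit 274))) 
  (.br (nat_lit 21) (.br (nat_lit 14) (.br (nat_lit 11) (.br (nat_lit 24) (.br (nat_lit 4) (.br (nat_lit 5) (.br (nat_lit 15) (.br (nat_lit 23) (.br (nat_lit 12) (.br (nat_lit 22) (.br (nat_lit 13) (.br (nat_lit 25) (.far (nat_lit 513) (nat_lit 65)) (.dom (nat_lit 176))) (.dom (nat_lit 122))) 
  (.dom (nat_lit 268))) 
  (.dom (nat_lit 267))) 
  (.dom (nat_lit 141))) 
  (.dom (nat_lit 156))) 
  (.dom (nat_lit 274))) 
  (.dom (nat_lit 272))) 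
  (.dom (nat_lit 271))) 
  (.dom (nat_lit 269))) 
  (.dom (nat_lit 270))) 
  (.dom (nat_lit 590)))) 
  (.br (nat_lit 2) (.br (nat_lit 4) (.br (nat_lit 5) (.br (nat_lit 15) (.br (nat_lit 10) (.br (nat_lit 20) (.br (nat_lit 24) (.br (nat_lit 23) (.br (nat_lit 13) (.br (nat_lit 25) (.far (nat_lit 417) (nat_lit 129)) (.dom (nat_lit 176))) (.dom (nat_lit 120))) 
  (.dom (nat_lit 139))) 
  (.dom (nat_lit 271))) 
  (.br (nat_lit 11) (.br (nat_lit 14) (.br (nat_lit 12) (.br (nat_lit 13) (.br (nat_lit 8) (.br (nat_lit 23) (.br (nat_lit 21) (.far (nat_lit 0) (nat_lit 231459)) (.dom (nat_lit 97))) (.dom (nat_lit 139))) 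
  (.dom (nat_lit 592))) 
  (.dom (nat_lit 120))) 
  (.dom (nat_lit 266))) 
  (.dom (nat_lit 270))) 
  (.dom (nat_lit 94)))) 
  (.dom (nat_lit 278))) 
  (.dom (nat_lit 156))) 
  (.dom (nat_lit 274))) 
  (.dom (nat_lit 272))) 
  (.br (nat_lit 13) (.br (nat_lit 11) (.br (nat_lit 4) (.br (nat_lit 12) (.br (nat_lit 8) (.br (nat_lit 15) (.br (nat_lit 23) (.br (nat_lit 21) (.br (nat_lit 14) (.far (nat_lit 0) (nat_lit 231459)) (.dom (nat_lit 270))) (.dom (nat_lit 590))) 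
  (.dom (nat_lit 139))) 
  (.dom (nat_lit 156))) 
  (.dom (nat_lit 592))) 
  (.dom (nat_lit 266))) 
  (.dom (nat_lit 272))) 
  (.dom (nat_lit 269))) 
  (.dom (nat_lit 120)))))))

/-- search tree -/
def gp566B3 : BB := (.br (nat_lit 19) (.br (nat_lit 16) (.br (nat_lit 5) (.br (nat_lit 11) (.br (nat_lit 22) (.br (nat_lit 24) (.br (nat_lit 14) (.br (nat_lit 21) (.br (nat_lit 6) (.far (nat_lit 0) (nat_lit 417)) (.br (nat_lit 25) (.far (nat_lit 0) (nat_lit 430083)) (.dom (nat_lit 178)))) 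
  (.br (nat_lit 7) (.br (nat_lit 10) (.br (nat_lit 2) (.far (nat_lit 65) (nat_lit 129)) 
  (.br (nat_lit 12) (.br (nat_lit 6) (.far (nat_lit 193) (nat_lit 33)) 
  (.br (nat_lit 25) (.br (nat_lit 15) (.far (nat_lit 225) (nat_lit 33)) (.br (nat_lit 17) (.far (nat_lit 225) (nat_lit 1)) (.dom (nat_lit 499)))) 
  (.dom (nat_lit 178)))) 
  (.dom (nat_lit 3)))) 
  (.dom (nat_lit 72))) 
  (.dom (nat_lit 590)))) 
  (.br (nat_lit 1) (.br (nat_lit 18) (.br (nat_lit 21) (.br (nat_lit 6) (.far (nat_lit 16450) (nat_lit 13314)) 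
  (.br (nat_lit 25) (.br (nat_lit 17) (.far (nat_lit 225) (nat_lit 1)) 
  (.br (nat_lit 4) (.br (nat_lit 2) (.far (nat_lit 513) (nat_lit 321)) (.br (nat_lit 23) (.far (nat_lit 513) (nat_lit 1)) (.dom (nat_lit 457)))) 
  (.dom (nat_lit 10)))) 
  (.dom (nat_lit 178)))) 
  (.br (nat_lit 7) (.br (nat_lit 10) (.br (nat_lit 2) (.far (nat_lit 65) (nat_lit 129)) 
  (.br (nat_lit 12) (.br (nat_lit 17) (.far (nat_lit 65) (nat_lit 1)) 
  (.br (nat_lit 4) (.br (nat_lit 8) (.br (nat_lit 6) (.far (nat_lit 65) (nat_lit 33)) 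
  (.br (nat_lit 15) (.br (nat_lit 23) (.br (nat_lit 25) (.br (nat_lit 2) (.far (nat_lit 417) (nat_lit 129)) 
  (.br (nat_lit 13) (.far (nat_lit 417) (nat_lit 33)) (.br (nat_lit 17) (.far (nat_lit 417) (nat_lit 1)) (.dom (nat_lit 223))))) 
  (.dom (nat_lit 178))) 
  (.dom (nat_lit 457))) 
  (.dom (nat_lit 499)))) 
  (.dom (nat_lit 292))) 
  (.dom (nat_lit 10)))) 
  (.dom (nat_lit 3)))) 
  (.dom (nat_lit 72))) 
  (.dom (nat_lit 590)))) 
  (.dom (nat_lit 49))) 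
  (.dom (nat_lit 270)))) 
  (.br (nat_lit 1) (.br (nat_lit 8) (.br (nat_lit 7) (.br (nat_lit 6) (.far (nat_lit 133123) (nat_lit 0)) 
  (.br (nat_lit 25) (.br (nat_lit 10) (.br (nat_lit 14) (.br (nat_lit 2) (.far (nat_lit 428035) (nat_lit 0)) 
  (.br (nat_lit 12) (.br (nat_lit 17) (.far (nat_lit 193) (nat_lit 161)) 
  (.br (nat_lit 13) (.br (nat_lit 15) (.far (nat_lit 417) (nat_lit 33)) 
  (.br (nat_lit 21) (.br (nat_lit 6) (.far (nat_lit 129) (nat_lit 33)) 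
  (.br (nat_lit 3) (.br (nat_lit 4) (.far (nat_lit 129) (nat_lit 321)) (.br (nat_lit 17) (.far (nat_lit 0) (nat_lit 513)) (.dom (nat_lit 242)))) 
  (.br (nat_lit 18) (.br (nat_lit 17) (.far (nat_lit 65) (nat_lit 1)) 
  (.br (nat_lit 4) (.br (nat_lit 2) (.far (nat_lit 513) (nat_lit 321)) 
  (.br (nat_lit 6) (.far (nat_lit 129) (nat_lit 33)) (.br (nat_lit 23) (.far (nat_lit 417) (nat_lit 225)) (.dom (nat_lit 586))))) 
  (.dom (nat_lit 242)))) 
  (.dom (nat_lit 245))))) 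
  (.dom (nat_lit 499)))) 
  (.dom (nat_lit 422)))) 
  (.br (nat_lit 21) (.br (nat_lit 18) (.br (nat_lit 17) (.far (nat_lit 65) (nat_lit 1)) 
  (.br (nat_lit 4) (.br (nat_lit 13) (.br (nat_lit 2) (.far (nat_lit 513) (nat_lit 321)) 
  (.br (nat_lit 6) (.far (nat_lit 193) (nat_lit 225)) (.br (nat_lit 23) (.far (nat_lit 417) (nat_lit 225)) (.dom (nat_lit 231))))) 
  (.dom (nat_lit 422))) 
  (.dom (nat_lit 286)))) 
  (.dom (nat_lit 309))) 
  (.dom (nat_lit 3))))) 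
  (.br (nat_lit 18) (.br (nat_lit 17) (.far (nat_lit 65) (nat_lit 1)) 
  (.br (nat_lit 4) (.br (nat_lit 2) (.far (nat_lit 513) (nat_lit 321)) 
  (.br (nat_lit 23) (.br (nat_lit 13) (.far (nat_lit 417) (nat_lit 225)) (.dom (nat_lit 422))) (.dom (nat_lit 457)))) 
  (.dom (nat_lit 10)))) 
  (.dom (nat_lit 49)))) 
  (.br (nat_lit 21) (.br (nat_lit 18) (.br (nat_lit 17) (.far (nat_lit 65) (nat_lit 16386)) 
  (.br (nat_lit 4) (.br (nat_lit 2) (.far (nat_lit 513) (nat_lit 321)) 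
  (.br (nat_lit 13) (.br (nat_lit 23) (.far (nat_lit 417) (nat_lit 225)) 
  (.br (nat_lit 14) (.br (nat_lit 6) (.far (nat_lit 161) (nat_lit 33)) (.br (nat_lit 3) (.far (nat_lit 193) (nat_lit 321)) (.dom (nat_lit 236)))) 
  (.dom (nat_lit 457)))) 
  (.dom (nat_lit 422)))) 
  (.dom (nat_lit 334)))) 
  (.br (nat_lit 14) (.br (nat_lit 3) (.far (nat_lit 193) (nat_lit 321)) (.dom (nat_lit 345))) (.dom (nat_lit 49)))) 
  (.dom (nat_lit 72)))) 
  (.dom (nat_lit 178)))) 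
  (.br (nat_lit 21) (.br (nat_lit 18) (.br (nat_lit 4) (.br (nat_lit 6) (.far (nat_lit 161) (nat_lit 225)) 
  (.br (nat_lit 25) (.br (nat_lit 2) (.far (nat_lit 513) (nat_lit 321)) (.br (nat_lit 23) (.far (nat_lit 33) (nat_lit 225)) (.dom (nat_lit 460)))) 
  (.dom (nat_lit 178)))) 
  (.dom (nat_lit 12))) 
  (.dom (nat_lit 51))) 
  (.dom (nat_lit 590)))) 
  (.dom (nat_lit 30))) 
  (.br (nat_lit 7) (.br (nat_lit 14) (.br (nat_lit 10) (.br (nat_lit 12) (.br (nat_lit 8) (.br (nat_lit 6) (.far (nat_lit 193) (nat_lit 33)) 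
  (.br (nat_lit 25) (.br (nat_lit 17) (.far (nat_lit 193) (nat_lit 161)) (.br (nat_lit 15) (.far (nat_lit 225) (nat_lit 33)) (.dom (nat_lit 501)))) 
  (.dom (nat_lit 178)))) 
  (.dom (nat_lit 30))) 
  (.dom (nat_lit 7))) 
  (.dom (nat_lit 74))) 
  (.dom (nat_lit 270))) 
  (.dom (nat_lit 271))))) 
  (.dom (nat_lit 589))) 
  (.dom (nat_lit 269))) 
  (.dom (nat_lit 273))) 
  (.br (nat_lit 7) (.br (nat_lit 10) (.br (nat_lit 12) (.br (nat_lit 15) (.br (nat_lit 5) (.br (nat_lit 11) (.br (nat_lit 22) (.br (nat_lit 14) (.far (nat_lit 225) (nat_lit 33)) 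
  (.br (nat_lit 8) (.br (nat_lit 1) (.br (nat_lit 18) (.br (nat_lit 17) (.far (nat_lit 65) (nat_lit 161)) 
  (.br (nat_lit 4) (.br (nat_lit 2) (.far (nat_lit 513) (nat_lit 321)) (.br (nat_lit 13) (.far (nat_lit 417) (nat_lit 33)) (.dom (nat_lit 416)))) 
  (.dom (nat_lit 10)))) 
  (.dom (nat_lit 49))) 
  (.dom (nat_lit 270))) 
  (.dom (nat_lit 25)))) 
  (.dom (nat_lit 589))) 
  (.dom (nat_lit 269))) 
  (.dom (nat_lit 273))) 
  (.dom (nat_lit 159))) 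
  (.dom (nat_lit 267))) 
  (.dom (nat_lit 278))) 
  (.br (nat_lit 5) (.br (nat_lit 24) (.br (nat_lit 14) (.br (nat_lit 21) (.br (nat_lit 25) (.br (nat_lit 15) (.br (nat_lit 11) (.far (nat_lit 0) (nat_lit 430147)) (.dom (nat_lit 269))) (.dom (nat_lit 159))) 
  (.dom (nat_lit 179))) 
  (.dom (nat_lit 590))) 
  (.br (nat_lit 18) (.br (nat_lit 21) (.br (nat_lit 22) (.br (nat_lit 25) (.br (nat_lit 4) (.br (nat_lit 15) (.br (nat_lit 1) (.br (nat_lit 8) (.br (nat_lit 10) (.br (nat_lit 11) (.br (nat_lit 12) (.br (nat_lit 2) (.far (nat_lit 417) (nat_lit 129)) 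
  (.br (nat_lit 23) (.br (nat_lit 13) (.far (nat_lit 513) (nat_lit 161)) (.br (nat_lit 16) (.far (nat_lit 513) (nat_lit 1)) (.dom (nat_lit 417)))) 
  (.dom (nat_lit 458)))) 
  (.dom (nat_lit 267))) 
  (.dom (nat_lit 269))) 
  (.dom (nat_lit 278))) 
  (.dom (nat_lit 25))) 
  (.dom (nat_lit 270))) 
  (.dom (nat_lit 159))) 
  (.dom (nat_lit 11))) 
  (.dom (nat_lit 179))) 
  (.dom (nat_lit 589))) 
  (.dom (nat_lit 590))) 
  (.dom (nat_lit 49)))) 
  (.br (nat_lit 8) (.br (nat_lit 1) (.br (nat_lit 4) (.br (nat_lit 18) (.br (nat_lit 21) (.br (nat_lit 25) (.br (nat_lit 15) (.br (nat_lit 11) (.br (nat_lit 12) (.br (nat_lit 10) (.br (nat_lit 22) (.br (nat_lit 2) (.far (nat_lit 417) (nat_lit 129)) 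
  (.br (nat_lit 13) (.br (nat_lit 23) (.far (nat_lit 513) (nat_lit 161)) 
  (.br (nat_lit 14) (.br (nat_lit 6) (.far (nat_lit 513) (nat_lit 33)) (.dom (nat_lit 460))) (.dom (nat_lit 458)))) 
  (.dom (nat_lit 423)))) 
  (.dom (nat_lit 589))) 
  (.dom (nat_lit 278))) 
  (.dom (nat_lit 267))) 
  (.dom (nat_lit 269))) 
  (.dom (nat_lit 159))) 
  (.dom (nat_lit 179))) 
  (.dom (nat_lit 590))) 
  (.dom (nat_lit 51))) 
  (.dom (nat_lit 12))) 
  (.dom (nat_lit 271))) 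
  (.dom (nat_lit 30)))) 
  (.dom (nat_lit 273))))) 
  (.br (nat_lit 7) (.br (nat_lit 8) (.br (nat_lit 12) (.br (nat_lit 11) (.br (nat_lit 22) (.br (nat_lit 13) (.br (nat_lit 5) (.br (nat_lit 10) (.br (nat_lit 14) (.br (nat_lit 15) (.far (nat_lit 417) (nat_lit 33)) 
  (.br (nat_lit 1) (.br (nat_lit 16) (.br (nat_lit 6) (.far (nat_lit 129) (nat_lit 33)) 
  (.br (nat_lit 25) (.br (nat_lit 17) (.br (nat_lit 3) (.far (nat_lit 0) (nat_lit 513)) (.br (nat_lit 18) (.far (nat_lit 65) (nat_lit 161)) (.dom (nat_lit 511)))) 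
  (.br (nat_lit 4) (.br (nat_lit 2) (.far (nat_lit 513) (nat_lit 321)) 
  (.br (nat_lit 21) (.br (nat_lit 3) (.far (nat_lit 129) (nat_lit 321)) 
  (.br (nat_lit 18) (.br (nat_lit 6) (.far (nat_lit 129) (nat_lit 33)) (.br (nat_lit 23) (.far (nat_lit 417) (nat_lit 225)) (.dom (nat_lit 249)))) 
  (.dom (nat_lit 511)))) 
  (.dom (nat_lit 499)))) 
  (.dom (nat_lit 503)))) 
  (.dom (nat_lit 178)))) 
  (.dom (nat_lit 159))) 
  (.dom (nat_lit 157)))) 
  (.br (nat_lit 1) (.br (nat_lit 18) (.br (nat_lit 6) (.far (nat_lit 129) (nat_lit 33)) 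
  (.br (nat_lit 25) (.br (nat_lit 17) (.far (nat_lit 65) (nat_lit 161)) 
  (.br (nat_lit 4) (.br (nat_lit 2) (.far (nat_lit 513) (nat_lit 321)) (.br (nat_lit 23) (.far (nat_lit 417) (nat_lit 225)) (.dom (nat_lit 457)))) 
  (.dom (nat_lit 10)))) 
  (.dom (nat_lit 178)))) 
  (.dom (nat_lit 49))) 
  (.dom (nat_lit 270)))) 
  (.br (nat_lit 16) (.br (nat_lit 4) (.br (nat_lit 21) (.br (nat_lit 1) (.br (nat_lit 18) (.br (nat_lit 6) (.far (nat_lit 129) (nat_lit 33)) 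
  (.br (nat_lit 25) (.br (nat_lit 23) (.far (nat_lit 417) (nat_lit 225)) (.br (nat_lit 3) (.far (nat_lit 193) (nat_lit 321)) (.dom (nat_lit 473)))) 
  (.dom (nat_lit 178)))) 
  (.br (nat_lit 3) (.far (nat_lit 193) (nat_lit 321)) (.dom (nat_lit 89)))) 
  (.br (nat_lit 14) (.br (nat_lit 15) (.br (nat_lit 24) (.br (nat_lit 3) (.far (nat_lit 193) (nat_lit 65)) 
  (.br (nat_lit 18) (.br (nat_lit 6) (.far (nat_lit 193) (nat_lit 33)) 
  (.br (nat_lit 25) (.br (nat_lit 23) (.far (nat_lit 513) (nat_lit 65)) (.dom (nat_lit 473))) (.dom (nat_lit 178)))) 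
  (.dom (nat_lit 89)))) 
  (.dom (nat_lit 74))) 
  (.dom (nat_lit 157))) 
  (.dom (nat_lit 270)))) 
  (.dom (nat_lit 72))) 
  (.dom (nat_lit 78))) 
  (.dom (nat_lit 278)))) 
  (.dom (nat_lit 273))) 
  (.dom (nat_lit 123))) 
  (.dom (nat_lit 589))) 
  (.dom (nat_lit 269))) 
  (.br (nat_lit 1) (.br (nat_lit 16) (.br (nat_lit 18) (.br (nat_lit 4) (.br (nat_lit 13) (.br (nat_lit 5) (.br (nat_lit 11) (.br (nat_lit 22) (.br (nat_lit 21) (.br (nat_lit 6) (.far (nat_lit 161) (nat_lit 225)) 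
  (.br (nat_lit 25) (.br (nat_lit 23) (.far (nat_lit 417) (nat_lit 225)) (.br (nat_lit 2) (.far (nat_lit 513) (nat_lit 321)) (.dom (nat_lit 452)))) 
  (.dom (nat_lit 178)))) 
  (.br (nat_lit 2) (.far (nat_lit 513) (nat_lit 321)) (.dom (nat_lit 3)))) 
  (.dom (nat_lit 589))) 
  (.dom (nat_lit 269))) 
  (.dom (nat_lit 273))) 
  (.dom (nat_lit 123))) 
  (.dom (nat_lit 8))) 
  (.dom (nat_lit 43))) 
  (.dom (nat_lit 267))) 
  (.dom (nat_lit 266)))) 
  (.dom (nat_lit 592))) 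
  (.br (nat_lit 16) (.br (nat_lit 1) (.br (nat_lit 4) (.br (nat_lit 18) (.br (nat_lit 21) (.br (nat_lit 8) (.br (nat_lit 23) (.far (nat_lit 33) (nat_lit 225)) (.dom (nat_lit 142))) (.dom (nat_lit 592))) 
  (.dom (nat_lit 590))) 
  (.br (nat_lit 5) (.br (nat_lit 11) (.br (nat_lit 21) (.br (nat_lit 24) (.br (nat_lit 14) (.br (nat_lit 13) (.br (nat_lit 23) (.br (nat_lit 8) (.br (nat_lit 12) (.br (nat_lit 22) (.br (nat_lit 3) (.far (nat_lit 193) (nat_lit 65)) 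
  (.br (nat_lit 10) (.br (nat_lit 6) (.far (nat_lit 161) (nat_lit 33)) 
  (.br (nat_lit 25) (.br (nat_lit 15) (.far (nat_lit 513) (nat_lit 65)) (.dom (nat_lit 511))) (.dom (nat_lit 178)))) 
  (.dom (nat_lit 89)))) 
  (.dom (nat_lit 589))) 
  (.dom (nat_lit 43))) 
  (.dom (nat_lit 592))) 
  (.dom (nat_lit 142))) 
  (.dom (nat_lit 123))) 
  (.dom (nat_lit 49))) 
  (.dom (nat_lit 51))) 
  (.dom (nat_lit 590))) 
  (.dom (nat_lit 269))) 
  (.dom (nat_lit 273)))) 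
  (.dom (nat_lit 591))) 
  (.br (nat_lit 24) (.br (nat_lit 11) (.br (nat_lit 14) (.br (nat_lit 21) (.br (nat_lit 4) (.br (nat_lit 5) (.br (nat_lit 13) (.br (nat_lit 25) (.br (nat_lit 12) (.br (nat_lit 22) (.br (nat_lit 15) (.br (nat_lit 23) (.far (nat_lit 513) (nat_lit 65)) (.dom (nat_lit 142))) (.dom (nat_lit 157))) 
  (.dom (nat_lit 589))) 
  (.dom (nat_lit 266))) 
  (.dom (nat_lit 177))) 
  (.dom (nat_lit 123))) 
  (.dom (nat_lit 273))) 
  (.dom (nat_lit 591))) 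
  (.dom (nat_lit 590))) 
  (.dom (nat_lit 270))) 
  (.dom (nat_lit 269))) 
  (.dom (nat_lit 271)))) 
  (.br (nat_lit 1) (.br (nat_lit 5) (.br (nat_lit 4) (.br (nat_lit 13) (.br (nat_lit 8) (.br (nat_lit 18) (.br (nat_lit 21) (.br (nat_lit 25) (.br (nat_lit 15) (.br (nat_lit 23) (.far (nat_lit 417) (nat_lit 225)) (.dom (nat_lit 142))) (.dom (nat_lit 159))) 
  (.dom (nat_lit 179))) 
  (.dom (nat_lit 590))) 
  (.br (nat_lit 14) (.br (nat_lit 11) (.br (nat_lit 12) (.br (nat_lit 15) (.br (nat_lit 10) (.br (nat_lit 25) (.br (nat_lit 23) (.far (nat_lit 0) (nat_lit 198691)) (.dom (nat_lit 142))) (.dom (nat_lit 179))) 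
  (.dom (nat_lit 278))) 
  (.dom (nat_lit 159))) 
  (.dom (nat_lit 267))) 
  (.dom (nat_lit 269))) 
  (.dom (nat_lit 49)))) 
  (.dom (nat_lit 592))) 
  (.dom (nat_lit 123))) 
  (.dom (nat_lit 591))) 
  (.dom (nat_lit 273))) 
  (.br (nat_lit 15) (.br (nat_lit 14) (.br (nat_lit 5) (.br (nat_lit 12) (.br (nat_lit 10) (.br (nat_lit 13) (.br (nat_lit 25) (.br (nat_lit 24) (.br (nat_lit 11) (.far (nat_lit 0) (nat_lit 133155)) (.dom (nat_lit 269))) (.dom (nat_lit 271))) 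
  (.dom (nat_lit 177))) 
  (.dom (nat_lit 123))) 
  (.dom (nat_lit 278))) 
  (.dom (nat_lit 266))) 
  (.dom (nat_lit 273))) 
  (.dom (nat_lit 270))) 
  (.dom (nat_lit 157)))))))

/-- search tree -/
def gp566B4 : BB := (.br (nat_lit 17) (.br (nat_lit 22) (.br (nat_lit 7) (.br (nat_lit 16) (.br (nat_lit 19) (.far (nat_lit 7234) (nat_lit 16386)) 
  (.br (nat_lit 8) (.br (nat_lit 18) (.far (nat_lit 13378) (nat_lit 16386)) (.br (nat_lit 12) (.far (nat_lit 193) (nat_lit 161)) (.dom (nat_lit 43)))) 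
  (.dom (nat_lit 592)))) 
  (.br (nat_lit 12) (.far (nat_lit 193) (nat_lit 161)) (.dom (nat_lit 267)))) 
  (.br (nat_lit 16) (.br (nat_lit 19) (.br (nat_lit 21) (.br (nat_lit 18) (.far (nat_lit 65) (nat_lit 1)) (.br (nat_lit 24) (.far (nat_lit 193) (nat_lit 1)) (.dom (nat_lit 51)))) 
  (.dom (nat_lit 590))) 
  (.br (nat_lit 18) (.br (nat_lit 21) (.br (nat_lit 23) (.far (nat_lit 129) (nat_lit 1)) (.dom (nat_lit 142))) (.dom (nat_lit 590))) 
  (.br (nat_lit 1) (.br (nat_lit 4) (.br (nat_lit 5) (.br (nat_lit 8) (.br (nat_lit 9) (.br (nat_lit 11) (.br (nat_lit 12) (.br (nat_lit 21) (.br (nat_lit 23) (.br (nat_lit 24) (.br (nat_lit 3) (.far (nat_lit 0) (nat_lit 534595)) 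
  (.br (nat_lit 10) (.br (nat_lit 6) (.br (nat_lit 13) (.br (nat_lit 14) (.far (nat_lit 0) (nat_lit 433187)) (.br (nat_lit 18) (.far (nat_lit 0) (nat_lit 225)) (.dom (nat_lit 321)))) 
  (.br (nat_lit 19) (.far (nat_lit 193) (nat_lit 1)) (.dom (nat_lit 427)))) 
  (.br (nat_lit 25) (.br (nat_lit 18) (.far (nat_lit 417) (nat_lit 1)) 
  (.br (nat_lit 14) (.br (nat_lit 19) (.far (nat_lit 225) (nat_lit 1)) 
  (.br (nat_lit 13) (.br (nat_lit 3) (.far (nat_lit 193) (nat_lit 65)) (.br (nat_lit 15) (.far (nat_lit 513) (nat_lit 65)) (.dom (nat_lit 246)))) 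
  (.dom (nat_lit 427)))) 
  (.dom (nat_lit 321)))) 
  (.dom (nat_lit 562)))) 
  (.dom (nat_lit 89)))) 
  (.dom (nat_lit 51))) 
  (.dom (nat_lit 142))) 
  (.dom (nat_lit 590))) 
  (.dom (nat_lit 43))) 
  (.dom (nat_lit 44))) 
  (.dom (nat_lit 276))) 
  (.dom (nat_lit 592))) 
  (.dom (nat_lit 58))) 
  (.dom (nat_lit 591))) 
  (.br (nat_lit 12) (.br (nat_lit 24) (.br (nat_lit 21) (.br (nat_lit 23) (.br (nat_lit 25) (.br (nat_lit 14) (.br (nat_lit 11) (.br (nat_lit 4) (.br (nat_lit 5) (.br (nat_lit 8) (.br (nat_lit 9) (.br (nat_lit 3) (.far (nat_lit 193) (nat_lit 65)) 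
  (.br (nat_lit 10) (.br (nat_lit 19) (.far (nat_lit 225) (nat_lit 1)) 
  (.br (nat_lit 13) (.br (nat_lit 15) (.far (nat_lit 513) (nat_lit 65)) (.dom (nat_lit 510))) (.dom (nat_lit 121)))) 
  (.dom (nat_lit 89)))) 
  (.dom (nat_lit 276))) 
  (.dom (nat_lit 592))) 
  (.dom (nat_lit 58))) 
  (.dom (nat_lit 591))) 
  (.dom (nat_lit 44))) 
  (.dom (nat_lit 48))) 
  (.dom (nat_lit 177))) 
  (.dom (nat_lit 142))) 
  (.dom (nat_lit 590))) 
  (.dom (nat_lit 271))) 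
  (.dom (nat_lit 266)))))) 
  (.br (nat_lit 19) (.br (nat_lit 25) (.br (nat_lit 5) (.br (nat_lit 10) (.br (nat_lit 12) (.br (nat_lit 21) (.br (nat_lit 24) (.far (nat_lit 225) (nat_lit 1)) 
  (.br (nat_lit 18) (.br (nat_lit 1) (.br (nat_lit 8) (.br (nat_lit 7) (.far (nat_lit 65) (nat_lit 161)) 
  (.br (nat_lit 4) (.br (nat_lit 23) (.far (nat_lit 417) (nat_lit 1)) (.br (nat_lit 2) (.far (nat_lit 513) (nat_lit 321)) (.dom (nat_lit 461)))) 
  (.dom (nat_lit 13)))) 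
  (.dom (nat_lit 31))) 
  (.dom (nat_lit 271))) 
  (.dom (nat_lit 51)))) 
  (.dom (nat_lit 590))) 
  (.dom (nat_lit 267))) 
  (.dom (nat_lit 278))) 
  (.dom (nat_lit 274))) 
  (.dom (nat_lit 179))) 
  (.br (nat_lit 18) (.br (nat_lit 23) (.br (nat_lit 25) (.far (nat_lit 417) (nat_lit 1)) (.dom (nat_lit 179))) (.dom (nat_lit 142))) 
  (.br (nat_lit 12) (.br (nat_lit 5) (.br (nat_lit 24) (.br (nat_lit 25) (.br (nat_lit 23) (.br (nat_lit 10) (.br (nat_lit 14) (.br (nat_lit 13) (.br (nat_lit 21) (.br (nat_lit 11) (.br (nat_lit 4) (.br (nat_lit 8) (.br (nat_lit 9) (.br (nat_lit 15) (.far (nat_lit 513) (nat_lit 65)) (.br (nat_lit 3) (.far (nat_lit 193) (nat_lit 65)) (.dom (nat_lit 512)))) 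
  (.dom (nat_lit 276))) 
  (.dom (nat_lit 592))) 
  (.dom (nat_lit 591))) 
  (.dom (nat_lit 44))) 
  (.dom (nat_lit 590))) 
  (.dom (nat_lit 124))) 
  (.dom (nat_lit 50))) 
  (.dom (nat_lit 278))) 
  (.dom (nat_lit 142))) 
  (.dom (nat_lit 179))) 
  (.dom (nat_lit 51))) 
  (.dom (nat_lit 274))) 
  (.dom (nat_lit 267))))))) 
  (.dom (nat_lit 589))) 
  (.br (nat_lit 9) gp566B3 
  (.br (nat_lit 1) (.br (nat_lit 16) (.br (nat_lit 18) (.br (nat_lit 4) (.br (nat_lit 23) (.br (nat_lit 5) (.br (nat_lit 11) (.br (nat_lit 22) (.br (nat_lit 21) (.far (nat_lit 33) (nat_lit 225)) 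
  (.br (nat_lit 8) (.br (nat_lit 7) (.br (nat_lit 10) (.br (nat_lit 2) (.far (nat_lit 65) (nat_lit 193)) 
  (.br (nat_lit 12) (.br (nat_lit 13) (.far (nat_lit 417) (nat_lit 225)) (.br (nat_lit 17) (.far (nat_lit 193) (nat_lit 161)) (.dom (nat_lit 415)))) 
  (.dom (nat_lit 3)))) 
  (.dom (nat_lit 72))) 
  (.dom (nat_lit 590))) 
  (.dom (nat_lit 22)))) 
  (.dom (nat_lit 589))) 
  (.dom (nat_lit 269))) 
  (.dom (nat_lit 273))) 
  (.dom (nat_lit 140))) 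
  (.dom (nat_lit 272))) 
  (.dom (nat_lit 276))) 
  (.br (nat_lit 7) (.br (nat_lit 8) (.br (nat_lit 10) (.br (nat_lit 18) (.br (nat_lit 13) (.br (nat_lit 4) (.br (nat_lit 12) (.br (nat_lit 15) (.far (nat_lit 417) (nat_lit 33)) (.dom (nat_lit 159))) (.dom (nat_lit 267))) 
  (.dom (nat_lit 272))) 
  (.dom (nat_lit 122))) 
  (.dom (nat_lit 276))) 
  (.dom (nat_lit 278))) 
  (.br (nat_lit 5) (.br (nat_lit 22) (.br (nat_lit 19) (.br (nat_lit 14) (.br (nat_lit 21) (.br (nat_lit 24) (.br (nat_lit 15) (.br (nat_lit 23) (.br (nat_lit 4) (.br (nat_lit 10) (.br (nat_lit 11) (.br (nat_lit 12) (.br (nat_lit 13) (.br (nat_lit 18) (.br (nat_lit 25) (.far (nat_lit 513) (nat_lit 65)) (.br (nat_lit 3) (.far (nat_lit 193) (nat_lit 65)) (.dom (nat_lit 551)))) 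
  (.dom (nat_lit 276))) 
  (.dom (nat_lit 122))) 
  (.dom (nat_lit 267))) 
  (.dom (nat_lit 269))) 
  (.dom (nat_lit 278))) 
  (.dom (nat_lit 272))) 
  (.dom (nat_lit 140))) 
  (.dom (nat_lit 159))) 
  (.dom (nat_lit 30))) 
  (.dom (nat_lit 22))) 
  (.dom (nat_lit 25))) 
  (.dom (nat_lit 592))) 
  (.dom (nat_lit 589))) 
  (.dom (nat_lit 273)))) 
  (.br (nat_lit 23) (.br (nat_lit 5) (.br (nat_lit 4) (.br (nat_lit 18) (.br (nat_lit 8) (.br (nat_lit 13) (.far (nat_lit 417) (nat_lit 225)) (.dom (nat_lit 122))) 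
  (.br (nat_lit 21) (.br (nat_lit 24) (.br (nat_lit 22) (.br (nat_lit 25) (.br (nat_lit 13) (.br (nat_lit 15) (.far (nat_lit 0) (nat_lit 198659)) (.dom (nat_lit 159))) (.dom (nat_lit 122))) 
  (.dom (nat_lit 179))) 
  (.dom (nat_lit 589))) 
  (.dom (nat_lit 30))) 
  (.dom (nat_lit 590)))) 
  (.dom (nat_lit 276))) 
  (.dom (nat_lit 272))) 
  (.dom (nat_lit 273))) 
  (.dom (nat_lit 140))))) 
  (.br (nat_lit 19) (.br (nat_lit 22) (.br (nat_lit 16) (.br (nat_lit 24) (.br (nat_lit 21) (.br (nat_lit 14) (.br (nat_lit 25) (.br (nat_lit 23) (.br (nat_lit 5) (.far (nat_lit 161) (nat_lit 4259844)) (.dom (nat_lit 273))) (.dom (nat_lit 140))) 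
  (.dom (nat_lit 175))) 
  (.dom (nat_lit 270))) 
  (.br (nat_lit 10) (.br (nat_lit 5) (.br (nat_lit 14) (.br (nat_lit 25) (.br (nat_lit 12) (.br (nat_lit 23) (.br (nat_lit 4) (.br (nat_lit 7) (.br (nat_lit 8) (.br (nat_lit 11) (.br (nat_lit 18) (.br (nat_lit 17) (.far (nat_lit 417) (nat_lit 1)) 
  (.br (nat_lit 15) (.br (nat_lit 13) (.far (nat_lit 417) (nat_lit 33)) (.br (nat_lit 2) (.far (nat_lit 417) (nat_lit 129)) (.dom (nat_lit 415)))) 
  (.dom (nat_lit 498)))) 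
  (.dom (nat_lit 276))) 
  (.dom (nat_lit 269))) 
  (.dom (nat_lit 22))) 
  (.dom (nat_lit 590))) 
  (.dom (nat_lit 272))) 
  (.dom (nat_lit 140))) 
  (.dom (nat_lit 2))) 
  (.dom (nat_lit 175))) 
  (.dom (nat_lit 270))) 
  (.dom (nat_lit 273))) 
  (.dom (nat_lit 70)))) 
  (.br (nat_lit 8) (.br (nat_lit 7) (.br (nat_lit 12) (.br (nat_lit 10) (.br (nat_lit 14) (.br (nat_lit 25) (.br (nat_lit 23) (.br (nat_lit 11) (.br (nat_lit 4) (.br (nat_lit 5) (.br (nat_lit 18) (.br (nat_lit 17) (.far (nat_lit 417) (nat_lit 1)) 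
  (.br (nat_lit 13) (.br (nat_lit 15) (.far (nat_lit 417) (nat_lit 33)) 
  (.br (nat_lit 21) (.br (nat_lit 1) (.far (nat_lit 417) (nat_lit 225)) (.dom (nat_lit 500))) (.dom (nat_lit 498)))) 
  (.dom (nat_lit 421)))) 
  (.dom (nat_lit 276))) 
  (.dom (nat_lit 273))) 
  (.dom (nat_lit 272))) 
  (.dom (nat_lit 269))) 
  (.dom (nat_lit 140))) 
  (.dom (nat_lit 175))) 
  (.dom (nat_lit 270))) 
  (.dom (nat_lit 74))) 
  (.dom (nat_lit 7))) 
  (.dom (nat_lit 271))) 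
  (.dom (nat_lit 29)))) 
  (.br (nat_lit 15) (.br (nat_lit 7) (.br (nat_lit 12) (.br (nat_lit 10) (.br (nat_lit 14) (.br (nat_lit 25) (.br (nat_lit 5) (.br (nat_lit 23) (.br (nat_lit 13) (.br (nat_lit 4) (.br (nat_lit 11) (.br (nat_lit 18) (.br (nat_lit 8) (.far (nat_lit 417) (nat_lit 33)) (.br (nat_lit 24) (.far (nat_lit 0) (nat_lit 168003)) (.dom (nat_lit 29)))) 
  (.dom (nat_lit 276))) 
  (.dom (nat_lit 269))) 
  (.dom (nat_lit 272))) 
  (.dom (nat_lit 122))) 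
  (.dom (nat_lit 140))) 
  (.dom (nat_lit 273))) 
  (.dom (nat_lit 175))) 
  (.dom (nat_lit 270))) 
  (.dom (nat_lit 278))) 
  (.dom (nat_lit 267))) 
  (.br (nat_lit 25) (.br (nat_lit 24) (.br (nat_lit 5) (.br (nat_lit 23) (.br (nat_lit 14) (.br (nat_lit 21) (.far (nat_lit 0) (nat_lit 133123)) (.dom (nat_lit 590))) (.dom (nat_lit 270))) 
  (.dom (nat_lit 140))) 
  (.dom (nat_lit 273))) 
  (.dom (nat_lit 271))) 
  (.dom (nat_lit 175)))) 
  (.dom (nat_lit 156)))) 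
  (.dom (nat_lit 268))) 
  (.br (nat_lit 7) (.br (nat_lit 12) (.br (nat_lit 13) (.br (nat_lit 22) (.br (nat_lit 8) (.br (nat_lit 10) (.br (nat_lit 15) (.far (nat_lit 417) (nat_lit 33)) (.dom (nat_lit 157))) 
  (.br (nat_lit 21) (.br (nat_lit 11) (.br (nat_lit 4) (.br (nat_lit 23) (.br (nat_lit 15) (.br (nat_lit 18) (.br (nat_lit 25) (.far (nat_lit 0) (nat_lit 234563)) (.dom (nat_lit 175))) (.dom (nat_lit 276))) 
  (.dom (nat_lit 157))) 
  (.dom (nat_lit 140))) 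
  (.dom (nat_lit 272))) 
  (.dom (nat_lit 269))) 
  (.dom (nat_lit 70)))) 
  (.dom (nat_lit 592))) 
  (.dom (nat_lit 268))) 
  (.dom (nat_lit 120))) 
  (.dom (nat_lit 266))) 
  (.br (nat_lit 16) (.br (nat_lit 23) (.br (nat_lit 21) (.br (nat_lit 4) (.br (nat_lit 22) (.br (nat_lit 18) (.br (nat_lit 13) (.br (nat_lit 25) (.br (nat_lit 24) (.br (nat_lit 11) (.far (nat_lit 0) (nat_lit 231427)) (.dom (nat_lit 269))) (.dom (nat_lit 271))) 
  (.dom (nat_lit 175))) 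
  (.dom (nat_lit 120))) 
  (.dom (nat_lit 276))) 
  (.dom (nat_lit 268))) 
  (.dom (nat_lit 272))) 
  (.dom (nat_lit 590))) 
  (.dom (nat_lit 139))) 
  (.br (nat_lit 25) (.br (nat_lit 15) (.br (nat_lit 23) (.br (nat_lit 13) (.br (nat_lit 5) (.br (nat_lit 22) (.br (nat_lit 4) (.br (nat_lit 12) (.br (nat_lit 10) (.br (nat_lit 8) (.br (nat_lit 18) (.far (nat_lit 513) (nat_lit 161)) (.dom (nat_lit 276))) (.dom (nat_lit 592))) 
  (.dom (nat_lit 278))) 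
  (.dom (nat_lit 266))) 
  (.dom (nat_lit 272))) 
  (.dom (nat_lit 268))) 
  (.dom (nat_lit 273))) 
  (.dom (nat_lit 120))) 
  (.dom (nat_lit 139))) 
  (.dom (nat_lit 156))) 
  (.dom (nat_lit 175)))))))))

/-- search tree -/
def gp566B5 : BB := (.br (nat_lit 6) (.br (nat_lit 9) gp566B1 
  (.br (nat_lit 18) (.br (nat_lit 1) (.br (nat_lit 16) (.br (nat_lit 17) (.far (nat_lit 133155) (nat_lit 0)) 
  (.br (nat_lit 4) (.br (nat_lit 2) (.far (nat_lit 5186) (nat_lit 10466)) 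
  (.br (nat_lit 11) (.br (nat_lit 8) (.far (nat_lit 65) (nat_lit 225)) (.br (nat_lit 21) (.far (nat_lit 193) (nat_lit 225)) (.dom (nat_lit 22)))) 
  (.dom (nat_lit 269)))) 
  (.dom (nat_lit 272)))) 
  (.br (nat_lit 10) (.br (nat_lit 2) (.br (nat_lit 4) (.br (nat_lit 8) (.far (nat_lit 13378) (nat_lit 10466)) 
  (.br (nat_lit 19) (.br (nat_lit 5) (.br (nat_lit 3) (.far (nat_lit 0) (nat_lit 321)) (.br (nat_lit 20) (.far (nat_lit 13378) (nat_lit 10370)) (.dom (nat_lit 116)))) 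
  (.br (nat_lit 7) (.br (nat_lit 17) (.far (nat_lit 65) (nat_lit 513)) (.dom (nat_lit 35))) (.dom (nat_lit 274)))) 
  (.dom (nat_lit 592)))) 
  (.br (nat_lit 17) (.br (nat_lit 7) (.far (nat_lit 65) (nat_lit 513)) 
  (.br (nat_lit 19) (.br (nat_lit 20) (.far (nat_lit 428067) (nat_lit 0)) (.dom (nat_lit 105))) (.dom (nat_lit 591)))) 
  (.dom (nat_lit 272)))) 
  (.br (nat_lit 7) (.br (nat_lit 12) (.br (nat_lit 17) (.br (nat_lit 8) (.far (nat_lit 430147) (nat_lit 0)) 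
  (.br (nat_lit 19) (.br (nat_lit 22) (.far (nat_lit 193) (nat_lit 161)) (.dom (nat_lit 20))) (.dom (nat_lit 592)))) 
  (.br (nat_lit 8) (.br (nat_lit 4) (.br (nat_lit 11) (.br (nat_lit 13) (.far (nat_lit 129) (nat_lit 33)) (.dom (nat_lit 122))) (.dom (nat_lit 269))) 
  (.dom (nat_lit 272))) 
  (.br (nat_lit 4) (.br (nat_lit 5) (.br (nat_lit 11) (.br (nat_lit 13) (.br (nat_lit 14) (.br (nat_lit 19) (.br (nat_lit 21) (.br (nat_lit 22) (.br (nat_lit 3) (.far (nat_lit 0) (nat_lit 534595)) 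
  (.br (nat_lit 20) (.br (nat_lit 8) (.br (nat_lit 9) (.br (nat_lit 15) (.far (nat_lit 0) (nat_lit 33)) (.br (nat_lit 16) (.far (nat_lit 193) (nat_lit 225)) (.dom (nat_lit 505)))) 
  (.br (nat_lit 23) (.far (nat_lit 417) (nat_lit 225)) (.dom (nat_lit 466)))) 
  (.br (nat_lit 24) (.br (nat_lit 9) (.far (nat_lit 193) (nat_lit 129)) 
  (.br (nat_lit 23) (.br (nat_lit 16) (.far (nat_lit 161) (nat_lit 1)) 
  (.br (nat_lit 15) (.br (nat_lit 3) (.far (nat_lit 193) (nat_lit 65)) (.br (nat_lit 25) (.far (nat_lit 513) (nat_lit 65)) (.dom (nat_lit 258)))) 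
  (.dom (nat_lit 505)))) 
  (.dom (nat_lit 466)))) 
  (.dom (nat_lit 300)))) 
  (.dom (nat_lit 116)))) 
  (.dom (nat_lit 20))) 
  (.dom (nat_lit 22))) 
  (.dom (nat_lit 592))) 
  (.dom (nat_lit 25))) 
  (.dom (nat_lit 122))) 
  (.dom (nat_lit 269))) 
  (.dom (nat_lit 35))) 
  (.dom (nat_lit 272))))) 
  (.dom (nat_lit 267))) 
  (.br (nat_lit 4) (.br (nat_lit 5) (.br (nat_lit 21) (.br (nat_lit 23) (.br (nat_lit 12) (.br (nat_lit 8) (.br (nat_lit 11) (.br (nat_lit 13) (.far (nat_lit 417) (nat_lit 225)) 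
  (.br (nat_lit 17) (.br (nat_lit 19) (.br (nat_lit 16) (.far (nat_lit 33) (nat_lit 225)) 
  (.br (nat_lit 15) (.br (nat_lit 2) (.br (nat_lit 3) (.far (nat_lit 0) (nat_lit 321)) (.br (nat_lit 20) (.far (nat_lit 65) (nat_lit 193)) (.dom (nat_lit 440)))) 
  (.br (nat_lit 22) (.br (nat_lit 3) (.far (nat_lit 33) (nat_lit 513)) 
  (.br (nat_lit 20) (.br (nat_lit 7) (.far (nat_lit 193) (nat_lit 161)) 
  (.br (nat_lit 24) (.br (nat_lit 16) (.far (nat_lit 193) (nat_lit 1)) (.br (nat_lit 25) (.far (nat_lit 417) (nat_lit 1)) (.dom (nat_lit 262)))) 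
  (.dom (nat_lit 424)))) 
  (.dom (nat_lit 440)))) 
  (.dom (nat_lit 413)))) 
  (.dom (nat_lit 160)))) 
  (.dom (nat_lit 124))) 
  (.dom (nat_lit 122)))) 
  (.br (nat_lit 17) (.br (nat_lit 20) (.br (nat_lit 2) (.far (nat_lit 65) (nat_lit 193)) 
  (.br (nat_lit 22) (.br (nat_lit 16) (.far (nat_lit 129) (nat_lit 1)) 
  (.br (nat_lit 15) (.br (nat_lit 7) (.far (nat_lit 193) (nat_lit 161)) (.br (nat_lit 25) (.far (nat_lit 417) (nat_lit 1)) (.dom (nat_lit 541)))) 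
  (.dom (nat_lit 160)))) 
  (.dom (nat_lit 1)))) 
  (.dom (nat_lit 96))) 
  (.dom (nat_lit 269)))) 
  (.br (nat_lit 19) (.br (nat_lit 22) (.br (nat_lit 24) (.br (nat_lit 17) (.br (nat_lit 20) (.br (nat_lit 16) (.far (nat_lit 193) (nat_lit 1)) 
  (.br (nat_lit 15) (.br (nat_lit 25) (.far (nat_lit 417) (nat_lit 1)) (.br (nat_lit 3) (.far (nat_lit 193) (nat_lit 321)) (.dom (nat_lit 552)))) 
  (.dom (nat_lit 160)))) 
  (.br (nat_lit 3) (.far (nat_lit 193) (nat_lit 321)) (.dom (nat_lit 116)))) 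
  (.br (nat_lit 11) (.br (nat_lit 13) (.br (nat_lit 14) (.br (nat_lit 3) (.far (nat_lit 193) (nat_lit 65)) 
  (.br (nat_lit 20) (.br (nat_lit 16) (.far (nat_lit 161) (nat_lit 1)) 
  (.br (nat_lit 15) (.br (nat_lit 25) (.far (nat_lit 513) (nat_lit 65)) (.dom (nat_lit 552))) (.dom (nat_lit 160)))) 
  (.dom (nat_lit 116)))) 
  (.dom (nat_lit 25))) 
  (.dom (nat_lit 122))) 
  (.dom (nat_lit 269)))) 
  (.dom (nat_lit 31))) 
  (.dom (nat_lit 20))) 
  (.dom (nat_lit 592)))) 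
  (.dom (nat_lit 267))) 
  (.dom (nat_lit 141))) 
  (.dom (nat_lit 590))) 
  (.dom (nat_lit 274))) 
  (.br (nat_lit 17) (.br (nat_lit 19) (.br (nat_lit 20) (.br (nat_lit 22) (.br (nat_lit 23) (.br (nat_lit 5) (.br (nat_lit 12) (.br (nat_lit 21) (.br (nat_lit 24) (.br (nat_lit 16) (.far (nat_lit 193) (nat_lit 1)) 
  (.br (nat_lit 15) (.br (nat_lit 25) (.far (nat_lit 417) (nat_lit 1)) (.br (nat_lit 7) (.far (nat_lit 193) (nat_lit 161)) (.dom (nat_lit 548)))) 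
  (.dom (nat_lit 160)))) 
  (.br (nat_lit 7) (.far (nat_lit 193) (nat_lit 161)) (.dom (nat_lit 13)))) 
  (.dom (nat_lit 590))) 
  (.dom (nat_lit 267))) 
  (.dom (nat_lit 274))) 
  (.dom (nat_lit 141))) 
  (.dom (nat_lit 9))) 
  (.dom (nat_lit 105))) 
  (.dom (nat_lit 591))) 
  (.dom (nat_lit 272)))))) 
  (.dom (nat_lit 278)))) 
  (.br (nat_lit 17) (.br (nat_lit 22) (.br (nat_lit 7) (.br (nat_lit 19) (.br (nat_lit 16) (.far (nat_lit 6210) (nat_lit 16386)) 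
  (.br (nat_lit 10) (.br (nat_lit 12) (.far (nat_lit 193) (nat_lit 161)) (.br (nat_lit 20) (.far (nat_lit 13378) (nat_lit 16386)) (.dom (nat_lit 93)))) 
  (.dom (nat_lit 278)))) 
  (.br (nat_lit 12) (.far (nat_lit 193) (nat_lit 161)) (.dom (nat_lit 266)))) 
  (.br (nat_lit 19) (.br (nat_lit 16) (.br (nat_lit 24) (.br (nat_lit 21) (.far (nat_lit 193) (nat_lit 1)) 
  (.br (nat_lit 2) (.br (nat_lit 20) (.far (nat_lit 65) (nat_lit 1)) (.dom (nat_lit 97))) (.dom (nat_lit 590)))) 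
  (.dom (nat_lit 271))) 
  (.br (nat_lit 20) (.br (nat_lit 24) (.br (nat_lit 25) (.far (nat_lit 225) (nat_lit 1)) (.dom (nat_lit 176))) (.dom (nat_lit 271))) 
  (.br (nat_lit 12) (.br (nat_lit 21) (.br (nat_lit 24) (.br (nat_lit 14) (.br (nat_lit 25) (.br (nat_lit 4) (.br (nat_lit 5) (.br (nat_lit 10) (.br (nat_lit 2) (.br (nat_lit 3) (.far (nat_lit 0) (nat_lit 534595)) 
  (.br (nat_lit 8) (.br (nat_lit 9) (.br (nat_lit 11) (.br (nat_lit 15) (.far (nat_lit 0) (nat_lit 430115)) (.br (nat_lit 16) (.far (nat_lit 0) (nat_lit 417)) (.dom (nat_lit 522)))) 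
  (.br (nat_lit 20) (.far (nat_lit 225) (nat_lit 1)) (.dom (nat_lit 405)))) 
  (.br (nat_lit 23) (.br (nat_lit 16) (.far (nat_lit 129) (nat_lit 1)) 
  (.br (nat_lit 15) (.br (nat_lit 20) (.far (nat_lit 417) (nat_lit 1)) 
  (.br (nat_lit 11) (.br (nat_lit 3) (.far (nat_lit 225) (nat_lit 65)) (.br (nat_lit 13) (.far (nat_lit 513) (nat_lit 65)) (.dom (nat_lit 229)))) 
  (.dom (nat_lit 405)))) 
  (.dom (nat_lit 522)))) 
  (.dom (nat_lit 483)))) 
  (.dom (nat_lit 116)))) 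
  (.br (nat_lit 11) (.br (nat_lit 23) (.br (nat_lit 3) (.far (nat_lit 193) (nat_lit 65)) 
  (.br (nat_lit 8) (.br (nat_lit 16) (.far (nat_lit 193) (nat_lit 1)) 
  (.br (nat_lit 15) (.br (nat_lit 13) (.far (nat_lit 513) (nat_lit 65)) (.dom (nat_lit 440))) (.dom (nat_lit 160)))) 
  (.dom (nat_lit 116)))) 
  (.dom (nat_lit 141))) 
  (.dom (nat_lit 96)))) 
  (.dom (nat_lit 278))) 
  (.dom (nat_lit 274))) 
  (.dom (nat_lit 105))) 
  (.dom (nat_lit 176))) 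
  (.dom (nat_lit 100))) 
  (.dom (nat_lit 271))) 
  (.dom (nat_lit 97))) 
  (.dom (nat_lit 93))))) 
  (.br (nat_lit 16) (.br (nat_lit 23) (.br (nat_lit 4) (.br (nat_lit 8) (.br (nat_lit 12) (.br (nat_lit 24) (.br (nat_lit 21) (.far (nat_lit 129) (nat_lit 1)) 
  (.br (nat_lit 20) (.br (nat_lit 2) (.br (nat_lit 10) (.br (nat_lit 7) (.far (nat_lit 65) (nat_lit 161)) 
  (.br (nat_lit 5) (.br (nat_lit 1) (.far (nat_lit 513) (nat_lit 321)) (.br (nat_lit 25) (.far (nat_lit 417) (nat_lit 1)) (.dom (nat_lit 543)))) 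
  (.dom (nat_lit 19)))) 
  (.dom (nat_lit 71))) 
  (.dom (nat_lit 590))) 
  (.dom (nat_lit 97)))) 
  (.dom (nat_lit 271))) 
  (.dom (nat_lit 266))) 
  (.dom (nat_lit 592))) 
  (.dom (nat_lit 591))) 
  (.dom (nat_lit 139))) 
  (.br (nat_lit 20) (.br (nat_lit 23) (.br (nat_lit 10) (.br (nat_lit 12) (.br (nat_lit 24) (.br (nat_lit 25) (.far (nat_lit 417) (nat_lit 1)) (.dom (nat_lit 176))) (.dom (nat_lit 271))) 
  (.dom (nat_lit 266))) 
  (.dom (nat_lit 278))) 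
  (.dom (nat_lit 139))) 
  (.br (nat_lit 12) (.br (nat_lit 4) (.br (nat_lit 21) (.br (nat_lit 11) (.br (nat_lit 23) (.br (nat_lit 8) (.br (nat_lit 15) (.br (nat_lit 14) (.br (nat_lit 24) (.br (nat_lit 25) (.br (nat_lit 5) (.br (nat_lit 10) (.br (nat_lit 13) (.far (nat_lit 513) (nat_lit 65)) (.br (nat_lit 3) (.far (nat_lit 225) (nat_lit 65)) (.dom (nat_lit 439)))) 
  (.dom (nat_lit 278))) 
  (.dom (nat_lit 274))) 
  (.dom (nat_lit 176))) 
  (.dom (nat_lit 271))) 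
  (.dom (nat_lit 100))) 
  (.dom (nat_lit 158))) 
  (.dom (nat_lit 592))) 
  (.dom (nat_lit 139))) 
  (.dom (nat_lit 95))) 
  (.dom (nat_lit 97))) 
  (.dom (nat_lit 591))) 
  (.dom (nat_lit 266))))))) 
  (.dom (nat_lit 268))) 
  gp566B2)) 
  (.dom (nat_lit 276)))) 
  (.br (nat_lit 20) (.br (nat_lit 2) (.br (nat_lit 19) (.br (nat_lit 17) (.far (nat_lit 231459) (nat_lit 0)) 
  (.br (nat_lit 5) (.br (nat_lit 9) (.br (nat_lit 1) (.far (nat_lit 5186) (nat_lit 10370)) 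
  (.br (nat_lit 14) (.br (nat_lit 10) (.far (nat_lit 65) (nat_lit 129)) (.br (nat_lit 24) (.far (nat_lit 193) (nat_lit 129)) (.dom (nat_lit 74)))) 
  (.dom (nat_lit 270)))) 
  (.br (nat_lit 1) (.far (nat_lit 2082) (nat_lit 10370)) 
  (.br (nat_lit 25) (.br (nat_lit 4) (.br (nat_lit 14) (.br (nat_lit 18) (.br (nat_lit 22) (.br (nat_lit 24) (.far (nat_lit 33) (nat_lit 129)) 
  (.br (nat_lit 10) (.br (nat_lit 7) (.br (nat_lit 8) (.br (nat_lit 1) (.far (nat_lit 65) (nat_lit 193)) 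
  (.br (nat_lit 12) (.br (nat_lit 15) (.far (nat_lit 417) (nat_lit 129)) (.br (nat_lit 17) (.far (nat_lit 193) (nat_lit 161)) (.dom (nat_lit 500)))) 
  (.dom (nat_lit 6)))) 
  (.dom (nat_lit 29))) 
  (.dom (nat_lit 271))) 
  (.dom (nat_lit 74)))) 
  (.dom (nat_lit 268))) 
  (.dom (nat_lit 276))) 
  (.dom (nat_lit 270))) 
  (.dom (nat_lit 272))) 
  (.dom (nat_lit 175))))) 
  (.dom (nat_lit 273)))) 
  (.br (nat_lit 8) (.br (nat_lit 1) (.br (nat_lit 4) (.br (nat_lit 5) (.br (nat_lit 10) (.far (nat_lit 13378) (nat_lit 10370)) 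
  (.br (nat_lit 16) (.br (nat_lit 18) (.far (nat_lit 13378) (nat_lit 10466)) (.br (nat_lit 3) (.far (nat_lit 0) (nat_lit 321)) (.dom (nat_lit 89)))) 
  (.dom (nat_lit 278)))) 
  (.br (nat_lit 17) (.br (nat_lit 18) (.far (nat_lit 428067) (nat_lit 0)) (.br (nat_lit 7) (.far (nat_lit 65) (nat_lit 513)) (.dom (nat_lit 58)))) 
  (.dom (nat_lit 273)))) 
  (.br (nat_lit 7) (.br (nat_lit 17) (.far (nat_lit 65) (nat_lit 513)) (.br (nat_lit 10) (.far (nat_lit 428035) (nat_lit 0)) (.dom (nat_lit 78)))) 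
  (.dom (nat_lit 591)))) 
  (.br (nat_lit 7) (.br (nat_lit 17) (.br (nat_lit 12) (.br (nat_lit 10) (.far (nat_lit 433219) (nat_lit 0)) (.br (nat_lit 22) (.far (nat_lit 193) (nat_lit 161)) (.dom (nat_lit 66)))) 
  (.dom (nat_lit 266))) 
  (.br (nat_lit 9) (.br (nat_lit 10) (.br (nat_lit 5) (.br (nat_lit 12) (.br (nat_lit 14) (.br (nat_lit 15) (.far (nat_lit 225) (nat_lit 33)) (.dom (nat_lit 157))) (.dom (nat_lit 270))) 
  (.dom (nat_lit 266))) 
  (.dom (nat_lit 273))) 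
  (.br (nat_lit 4) (.br (nat_lit 5) (.br (nat_lit 11) (.br (nat_lit 12) (.br (nat_lit 14) (.br (nat_lit 15) (.br (nat_lit 16) (.br (nat_lit 22) (.br (nat_lit 24) (.br (nat_lit 3) (.far (nat_lit 0) (nat_lit 534595)) 
  (.br (nat_lit 18) (.br (nat_lit 6) (.br (nat_lit 10) (.br (nat_lit 13) (.far (nat_lit 0) (nat_lit 33)) (.br (nat_lit 19) (.far (nat_lit 193) (nat_lit 129)) (.dom (nat_lit 432)))) 
  (.br (nat_lit 21) (.far (nat_lit 193) (nat_lit 225)) (.dom (nat_lit 361)))) 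
  (.br (nat_lit 25) (.br (nat_lit 10) (.far (nat_lit 417) (nat_lit 129)) 
  (.br (nat_lit 21) (.br (nat_lit 19) (.far (nat_lit 161) (nat_lit 1)) 
  (.br (nat_lit 13) (.br (nat_lit 3) (.far (nat_lit 225) (nat_lit 65)) (.br (nat_lit 23) (.far (nat_lit 513) (nat_lit 65)) (.dom (nat_lit 237)))) 
  (.dom (nat_lit 432)))) 
  (.dom (nat_lit 361)))) 
  (.dom (nat_lit 567)))) 
  (.dom (nat_lit 89)))) 
  (.dom (nat_lit 74))) 
  (.dom (nat_lit 66))) 
  (.dom (nat_lit 278))) 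
  (.dom (nat_lit 157))) 
  (.dom (nat_lit 270))) 
  (.dom (nat_lit 266))) 
  (.dom (nat_lit 67))) 
  (.dom (nat_lit 273))) 
  (.dom (nat_lit 78)))) 
  (.br (nat_lit 10) (.br (nat_lit 15) (.br (nat_lit 5) (.br (nat_lit 12) (.br (nat_lit 13) (.far (nat_lit 417) (nat_lit 33)) (.dom (nat_lit 120))) (.dom (nat_lit 266))) 
  (.dom (nat_lit 273))) 
  (.dom (nat_lit 157))) 
  (.br (nat_lit 4) (.br (nat_lit 22) (.br (nat_lit 16) (.br (nat_lit 18) (.br (nat_lit 11) (.br (nat_lit 24) (.br (nat_lit 21) (.br (nat_lit 13) (.br (nat_lit 25) (.br (nat_lit 5) (.br (nat_lit 12) (.br (nat_lit 14) (.br (nat_lit 15) (.br (nat_lit 23) (.far (nat_lit 513) (nat_lit 65)) (.br (nat_lit 3) (.far (nat_lit 225) (nat_lit 65)) (.dom (nat_lit 471)))) 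
  (.dom (nat_lit 157))) 
  (.dom (nat_lit 270))) 
  (.dom (nat_lit 266))) 
  (.dom (nat_lit 273))) 
  (.dom (nat_lit 175))) 
  (.dom (nat_lit 120))) 
  (.dom (nat_lit 70))) 
  (.dom (nat_lit 74))) 
  (.dom (nat_lit 67))) 
  (.dom (nat_lit 276))) 
  (.dom (nat_lit 278))) 
  (.dom (nat_lit 268))) 
  (.dom (nat_lit 272)))))) 
  (.br (nat_lit 17) (.br (nat_lit 25) (.br (nat_lit 4) (.br (nat_lit 12) (.br (nat_lit 24) (.br (nat_lit 10) (.br (nat_lit 5) (.br (nat_lit 9) (.br (nat_lit 14) (.br (nat_lit 15) (.far (nat_lit 417) (nat_lit 129)) 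
  (.br (nat_lit 16) (.br (nat_lit 19) (.far (nat_lit 33) (nat_lit 129)) 
  (.br (nat_lit 13) (.br (nat_lit 1) (.br (nat_lit 3) (.far (nat_lit 0) (nat_lit 321)) (.br (nat_lit 18) (.far (nat_lit 65) (nat_lit 193)) (.dom (nat_lit 510)))) 
  (.br (nat_lit 22) (.br (nat_lit 3) (.far (nat_lit 33) (nat_lit 513)) 
  (.br (nat_lit 18) (.br (nat_lit 7) (.far (nat_lit 193) (nat_lit 161)) 
  (.br (nat_lit 21) (.br (nat_lit 19) (.far (nat_lit 225) (nat_lit 1)) (.br (nat_lit 23) (.far (nat_lit 417) (nat_lit 1)) (.dom (nat_lit 248)))) 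
  (.dom (nat_lit 497)))) 
  (.dom (nat_lit 510)))) 
  (.dom (nat_lit 491)))) 
  (.dom (nat_lit 121)))) 
  (.dom (nat_lit 158)))) 
  (.br (nat_lit 18) (.br (nat_lit 1) (.far (nat_lit 65) (nat_lit 193)) 
  (.br (nat_lit 22) (.br (nat_lit 19) (.far (nat_lit 225) (nat_lit 1)) 
  (.br (nat_lit 13) (.br (nat_lit 7) (.far (nat_lit 193) (nat_lit 161)) (.br (nat_lit 23) (.far (nat_lit 417) (nat_lit 1)) (.dom (nat_lit 455)))) 
  (.dom (nat_lit 121)))) 
  (.dom (nat_lit 4)))) 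
  (.dom (nat_lit 48)))) 
  (.br (nat_lit 18) (.br (nat_lit 22) (.br (nat_lit 23) (.far (nat_lit 417) (nat_lit 1)) (.dom (nat_lit 139))) (.dom (nat_lit 268))) 
  (.dom (nat_lit 276)))) 
  (.br (nat_lit 18) (.br (nat_lit 22) (.br (nat_lit 16) (.br (nat_lit 7) (.far (nat_lit 193) (nat_lit 161)) 
  (.br (nat_lit 21) (.br (nat_lit 19) (.far (nat_lit 225) (nat_lit 1)) (.br (nat_lit 23) (.far (nat_lit 417) (nat_lit 1)) (.dom (nat_lit 464)))) 
  (.dom (nat_lit 19)))) 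
  (.dom (nat_lit 274))) 
  (.dom (nat_lit 15))) 
  (.dom (nat_lit 58)))) 
  (.br (nat_lit 22) (.br (nat_lit 16) (.br (nat_lit 21) (.br (nat_lit 18) (.br (nat_lit 19) (.far (nat_lit 225) (nat_lit 1)) 
  (.br (nat_lit 13) (.br (nat_lit 23) (.far (nat_lit 417) (nat_lit 1)) (.br (nat_lit 3) (.far (nat_lit 193) (nat_lit 321)) (.dom (nat_lit 472)))) 
  (.dom (nat_lit 121)))) 
  (.br (nat_lit 9) (.br (nat_lit 3) (.far (nat_lit 193) (nat_lit 321)) (.dom (nat_lit 89))) (.dom (nat_lit 276)))) 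
  (.dom (nat_lit 71))) 
  (.dom (nat_lit 278))) 
  (.dom (nat_lit 66)))) 
  (.dom (nat_lit 271))) 
  (.dom (nat_lit 266))) 
  (.dom (nat_lit 591))) 
  (.dom (nat_lit 177))) 
  (.br (nat_lit 5) (.br (nat_lit 9) (.br (nat_lit 10) (.br (nat_lit 14) (.br (nat_lit 15) (.far (nat_lit 1) (nat_lit 129)) (.dom (nat_lit 157))) (.dom (nat_lit 270))) 
  (.br (nat_lit 4) (.br (nat_lit 24) (.br (nat_lit 14) (.br (nat_lit 15) (.br (nat_lit 25) (.br (nat_lit 21) (.br (nat_lit 11) (.br (nat_lit 12) (.br (nat_lit 16) (.br (nat_lit 22) (.br (nat_lit 3) (.far (nat_lit 225) (nat_lit 65)) 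
  (.br (nat_lit 18) (.br (nat_lit 19) (.far (nat_lit 161) (nat_lit 1)) 
  (.br (nat_lit 13) (.br (nat_lit 23) (.far (nat_lit 513) (nat_lit 65)) (.dom (nat_lit 472))) (.dom (nat_lit 121)))) 
  (.dom (nat_lit 89)))) 
  (.dom (nat_lit 66))) 
  (.dom (nat_lit 278))) 
  (.dom (nat_lit 266))) 
  (.dom (nat_lit 67))) 
  (.dom (nat_lit 71))) 
  (.dom (nat_lit 177))) 
  (.dom (nat_lit 157))) 
  (.dom (nat_lit 270))) 
  (.dom (nat_lit 271))) 
  (.dom (nat_lit 591)))) 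
  (.br (nat_lit 25) (.br (nat_lit 4) (.br (nat_lit 10) (.br (nat_lit 15) (.far (nat_lit 417) (nat_lit 129)) (.dom (nat_lit 157))) 
  (.br (nat_lit 21) (.br (nat_lit 24) (.br (nat_lit 22) (.br (nat_lit 23) (.br (nat_lit 15) (.br (nat_lit 18) (.br (nat_lit 13) (.far (nat_lit 0) (nat_lit 198659)) (.dom (nat_lit 120))) (.dom (nat_lit 276))) 
  (.dom (nat_lit 157))) 
  (.dom (nat_lit 139))) 
  (.dom (nat_lit 268))) 
  (.dom (nat_lit 271))) 
  (.dom (nat_lit 70)))) 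
  (.dom (nat_lit 272))) 
  (.dom (nat_lit 175)))) 
  (.dom (nat_lit 273)))))) 
  (.dom (nat_lit 592)))) 
  gp566B4) 
  (.dom (nat_lit 593))))

/-- search tree -/
def gp566B6 : BB := (.br (nat_lit 1) (.br (nat_lit 11) (.br (nat_lit 7) (.far (nat_lit 168003) (nat_lit 230435)) (.br (nat_lit 4) (.far (nat_lit 1) (nat_lit 225)) (.dom (nat_lit 591)))) 
  (.br (nat_lit 20) (.br (nat_lit 18) (.br (nat_lit 2) (.br (nat_lit 10) (.far (nat_lit 65) (nat_lit 193)) 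
  (.br (nat_lit 21) (.br (nat_lit 4) (.br (nat_lit 0) (.far (nat_lit 65) (nat_lit 10466)) (.br (nat_lit 23) (.far (nat_lit 417) (nat_lit 225)) (.dom (nat_lit 152)))) 
  (.br (nat_lit 7) (.br (nat_lit 17) (.far (nat_lit 331843) (nat_lit 0)) (.dom (nat_lit 82))) (.dom (nat_lit 591)))) 
  (.dom (nat_lit 279)))) 
  (.br (nat_lit 17) (.br (nat_lit 7) (.far (nat_lit 331843) (nat_lit 0)) 
  (.br (nat_lit 21) (.br (nat_lit 23) (.far (nat_lit 13378) (nat_lit 7170)) (.dom (nat_lit 144))) (.dom (nat_lit 590)))) 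
  (.dom (nat_lit 269)))) 
  (.br (nat_lit 14) (.br (nat_lit 2) (.br (nat_lit 10) (.br (nat_lit 7) (.br (nat_lit 0) (.far (nat_lit 2050) (nat_lit 0)) (.br (nat_lit 15) (.far (nat_lit 13378) (nat_lit 4130)) (.dom (nat_lit 170)))) 
  (.br (nat_lit 4) (.br (nat_lit 5) (.far (nat_lit 513) (nat_lit 321)) (.dom (nat_lit 63))) (.dom (nat_lit 591)))) 
  (.br (nat_lit 3) (.br (nat_lit 21) (.br (nat_lit 0) (.far (nat_lit 193) (nat_lit 321)) 
  (.br (nat_lit 15) (.br (nat_lit 23) (.br (nat_lit 24) (.br (nat_lit 4) (.br (nat_lit 5) (.br (nat_lit 0) (.far (nat_lit 0) (nat_lit 337987)) 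
  (.br (nat_lit 11) (.far (nat_lit 161) (nat_lit 65)) (.br (nat_lit 25) (.far (nat_lit 0) (nat_lit 331843)) (.dom (nat_lit 572))))) 
  (.br (nat_lit 7) (.br (nat_lit 11) (.far (nat_lit 193) (nat_lit 225)) 
  (.br (nat_lit 17) (.br (nat_lit 0) (.far (nat_lit 65) (nat_lit 513)) 
  (.br (nat_lit 25) (.br (nat_lit 18) (.far (nat_lit 0) (nat_lit 235523)) 
  (.br (nat_lit 19) (.far (nat_lit 193) (nat_lit 129)) 
  (.br (nat_lit 12) (.br (nat_lit 0) (.far (nat_lit 1) (nat_lit 513)) 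
  (.br (nat_lit 10) (.far (nat_lit 417) (nat_lit 33)) 
  (.br (nat_lit 11) (.far (nat_lit 193) (nat_lit 33)) (.br (nat_lit 22) (.far (nat_lit 193) (nat_lit 161)) (.dom (nat_lit 582)))))) 
  (.dom (nat_lit 200))))) 
  (.dom (nat_lit 572)))) 
  (.dom (nat_lit 358)))) 
  (.dom (nat_lit 63)))) 
  (.br (nat_lit 7) (.br (nat_lit 17) (.br (nat_lit 19) (.far (nat_lit 193) (nat_lit 129)) 
  (.br (nat_lit 12) (.br (nat_lit 0) (.far (nat_lit 1) (nat_lit 513)) 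
  (.br (nat_lit 11) (.far (nat_lit 193) (nat_lit 33)) 
  (.br (nat_lit 25) (.br (nat_lit 10) (.far (nat_lit 417) (nat_lit 33)) (.br (nat_lit 22) (.far (nat_lit 193) (nat_lit 161)) (.dom (nat_lit 203)))) 
  (.dom (nat_lit 572))))) 
  (.dom (nat_lit 348)))) 
  (.dom (nat_lit 82))) 
  (.dom (nat_lit 591)))) 
  (.dom (nat_lit 92))) 
  (.dom (nat_lit 152))) 
  (.dom (nat_lit 170)))) 
  (.dom (nat_lit 279))) 
  (.dom (nat_lit 90)))) 
  (.br (nat_lit 7) (.br (nat_lit 17) (.br (nat_lit 12) (.br (nat_lit 10) (.far (nat_lit 6210) (nat_lit 5154)) 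
  (.br (nat_lit 3) (.br (nat_lit 21) (.br (nat_lit 0) (.far (nat_lit 193) (nat_lit 321)) 
  (.br (nat_lit 15) (.br (nat_lit 23) (.br (nat_lit 24) (.br (nat_lit 11) (.far (nat_lit 193) (nat_lit 33)) (.br (nat_lit 22) (.far (nat_lit 193) (nat_lit 161)) (.dom (nat_lit 344)))) 
  (.dom (nat_lit 92))) 
  (.dom (nat_lit 152))) 
  (.dom (nat_lit 170)))) 
  (.dom (nat_lit 279))) 
  (.dom (nat_lit 90)))) 
  (.dom (nat_lit 45))) 
  (.dom (nat_lit 269))) 
  (.br (nat_lit 3) (.br (nat_lit 21) (.br (nat_lit 4) (.br (nat_lit 23) (.br (nat_lit 24) (.br (nat_lit 5) (.br (nat_lit 12) (.br (nat_lit 17) (.br (nat_lit 0) (.br (nat_lit 2) (.far (nat_lit 0) (nat_lit 337987)) 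
  (.br (nat_lit 11) (.far (nat_lit 161) (nat_lit 65)) (.br (nat_lit 22) (.far (nat_lit 33) (nat_lit 513)) (.dom (nat_lit 307))))) 
  (.br (nat_lit 15) (.br (nat_lit 11) (.far (nat_lit 161) (nat_lit 65)) 
  (.br (nat_lit 25) (.br (nat_lit 22) (.far (nat_lit 417) (nat_lit 65)) (.br (nat_lit 2) (.far (nat_lit 513) (nat_lit 321)) (.dom (nat_lit 307)))) 
  (.dom (nat_lit 563)))) 
  (.dom (nat_lit 170)))) 
  (.dom (nat_lit 269))) 
  (.dom (nat_lit 45))) 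
  (.dom (nat_lit 63))) 
  (.dom (nat_lit 54))) 
  (.dom (nat_lit 144))) 
  (.dom (nat_lit 591))) 
  (.dom (nat_lit 590))) 
  (.dom (nat_lit 44))))) 
  (.dom (nat_lit 277)))) 
  (.dom (nat_lit 280)))) 
  (.br (nat_lit 12) (.br (nat_lit 7) (.br (nat_lit 11) (.far (nat_lit 129) (nat_lit 33)) 
  (.br (nat_lit 20) (.br (nat_lit 17) (.br (nat_lit 10) (.far (nat_lit 6210) (nat_lit 5154)) (.br (nat_lit 22) (.far (nat_lit 193) (nat_lit 161)) (.dom (nat_lit 68)))) 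
  (.br (nat_lit 10) (.br (nat_lit 14) (.br (nat_lit 15) (.far (nat_lit 417) (nat_lit 33)) (.dom (nat_lit 162))) (.dom (nat_lit 270))) 
  (.br (nat_lit 3) (.br (nat_lit 14) (.br (nat_lit 15) (.br (nat_lit 24) (.br (nat_lit 22) (.br (nat_lit 2) (.br (nat_lit 4) (.br (nat_lit 21) (.br (nat_lit 0) (.br (nat_lit 5) (.far (nat_lit 0) (nat_lit 534595)) 
  (.br (nat_lit 11) (.far (nat_lit 193) (nat_lit 33)) (.br (nat_lit 17) (.far (nat_lit 0) (nat_lit 513)) (.dom (nat_lit 338))))) 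
  (.br (nat_lit 23) (.br (nat_lit 11) (.far (nat_lit 193) (nat_lit 65)) 
  (.br (nat_lit 25) (.br (nat_lit 5) (.far (nat_lit 417) (nat_lit 65)) (.br (nat_lit 17) (.far (nat_lit 193) (nat_lit 161)) (.dom (nat_lit 338)))) 
  (.dom (nat_lit 568)))) 
  (.dom (nat_lit 152)))) 
  (.dom (nat_lit 279))) 
  (.dom (nat_lit 82))) 
  (.dom (nat_lit 269))) 
  (.dom (nat_lit 68))) 
  (.dom (nat_lit 77))) 
  (.dom (nat_lit 162))) 
  (.dom (nat_lit 270))) 
  (.dom (nat_lit 67))))) 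
  (.dom (nat_lit 280)))) 
  (.br (nat_lit 11) (.br (nat_lit 4) (.br (nat_lit 24) (.br (nat_lit 14) (.br (nat_lit 21) (.far (nat_lit 0) (nat_lit 433187)) 
  (.br (nat_lit 10) (.br (nat_lit 15) (.far (nat_lit 513) (nat_lit 33)) (.dom (nat_lit 164))) (.dom (nat_lit 279)))) 
  (.br (nat_lit 18) (.br (nat_lit 21) (.br (nat_lit 23) (.far (nat_lit 321) (nat_lit 225)) (.dom (nat_lit 145))) 
  (.br (nat_lit 10) (.br (nat_lit 20) (.br (nat_lit 15) (.br (nat_lit 23) (.br (nat_lit 2) (.br (nat_lit 17) (.br (nat_lit 1) (.far (nat_lit 417) (nat_lit 225)) 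
  (.br (nat_lit 22) (.br (nat_lit 7) (.far (nat_lit 417) (nat_lit 33)) (.br (nat_lit 25) (.far (nat_lit 417) (nat_lit 1)) (.dom (nat_lit 547)))) 
  (.dom (nat_lit 4)))) 
  (.dom (nat_lit 270))) 
  (.dom (nat_lit 590))) 
  (.dom (nat_lit 145))) 
  (.dom (nat_lit 164))) 
  (.dom (nat_lit 103))) 
  (.dom (nat_lit 279)))) 
  (.dom (nat_lit 277)))) 
  (.dom (nat_lit 271))) 
  (.dom (nat_lit 591))) 
  (.br (nat_lit 20) (.br (nat_lit 17) (.br (nat_lit 24) (.br (nat_lit 25) (.br (nat_lit 4) (.br (nat_lit 21) (.br (nat_lit 18) (.br (nat_lit 23) (.br (nat_lit 22) (.far (nat_lit 417) (nat_lit 1)) 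
  (.br (nat_lit 10) (.br (nat_lit 2) (.br (nat_lit 1) (.far (nat_lit 65) (nat_lit 193)) 
  (.br (nat_lit 14) (.br (nat_lit 19) (.far (nat_lit 513) (nat_lit 1)) (.br (nat_lit 15) (.far (nat_lit 513) (nat_lit 161)) (.dom (nat_lit 494)))) 
  (.dom (nat_lit 4)))) 
  (.dom (nat_lit 0))) 
  (.dom (nat_lit 68)))) 
  (.br (nat_lit 2) (.br (nat_lit 14) (.br (nat_lit 10) (.br (nat_lit 19) (.far (nat_lit 193) (nat_lit 129)) 
  (.br (nat_lit 15) (.br (nat_lit 5) (.far (nat_lit 417) (nat_lit 129)) (.br (nat_lit 7) (.far (nat_lit 417) (nat_lit 33)) (.dom (nat_lit 465)))) 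
  (.br (nat_lit 0) (.br (nat_lit 1) (.far (nat_lit 65) (nat_lit 321)) 
  (.br (nat_lit 22) (.br (nat_lit 7) (.far (nat_lit 193) (nat_lit 161)) 
  (.br (nat_lit 5) (.br (nat_lit 3) (.far (nat_lit 225) (nat_lit 321)) (.br (nat_lit 19) (.far (nat_lit 225) (nat_lit 1)) (.dom (nat_lit 250)))) 
  (.dom (nat_lit 465)))) 
  (.dom (nat_lit 494)))) 
  (.dom (nat_lit 530))))) 
  (.br (nat_lit 0) (.br (nat_lit 22) (.br (nat_lit 19) (.far (nat_lit 225) (nat_lit 1)) (.br (nat_lit 3) (.far (nat_lit 193) (nat_lit 321)) (.dom (nat_lit 474)))) 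
  (.dom (nat_lit 68))) 
  (.dom (nat_lit 152)))) 
  (.dom (nat_lit 145))) 
  (.dom (nat_lit 144)))) 
  (.br (nat_lit 14) (.br (nat_lit 5) (.br (nat_lit 2) (.br (nat_lit 10) (.br (nat_lit 15) (.far (nat_lit 417) (nat_lit 129)) 
  (.br (nat_lit 0) (.br (nat_lit 19) (.far (nat_lit 161) (nat_lit 1)) (.br (nat_lit 3) (.far (nat_lit 225) (nat_lit 321)) (.dom (nat_lit 513)))) 
  (.dom (nat_lit 170)))) 
  (.br (nat_lit 3) (.br (nat_lit 22) (.br (nat_lit 0) (.far (nat_lit 225) (nat_lit 321)) (.br (nat_lit 15) (.far (nat_lit 225) (nat_lit 65)) (.dom (nat_lit 170)))) 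
  (.dom (nat_lit 68))) 
  (.dom (nat_lit 90)))) 
  (.br (nat_lit 3) (.br (nat_lit 22) (.br (nat_lit 23) (.far (nat_lit 33) (nat_lit 65)) (.dom (nat_lit 144))) (.dom (nat_lit 0))) 
  (.dom (nat_lit 44)))) 
  (.dom (nat_lit 63))) 
  (.dom (nat_lit 277)))) 
  (.br (nat_lit 10) (.br (nat_lit 2) (.br (nat_lit 15) (.br (nat_lit 14) (.br (nat_lit 5) (.far (nat_lit 417) (nat_lit 129)) (.br (nat_lit 7) (.far (nat_lit 417) (nat_lit 33)) (.dom (nat_lit 19)))) 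
  (.br (nat_lit 18) (.br (nat_lit 23) (.far (nat_lit 513) (nat_lit 161)) (.dom (nat_lit 145))) (.dom (nat_lit 277)))) 
  (.dom (nat_lit 164))) 
  (.dom (nat_lit 590))) 
  (.dom (nat_lit 279)))) 
  (.dom (nat_lit 591))) 
  (.dom (nat_lit 182))) 
  (.dom (nat_lit 271))) 
  (.br (nat_lit 2) (.br (nat_lit 14) (.br (nat_lit 10) (.br (nat_lit 15) (.br (nat_lit 5) (.far (nat_lit 1) (nat_lit 129)) (.dom (nat_lit 17))) (.dom (nat_lit 162))) 
  (.br (nat_lit 24) (.br (nat_lit 4) (.br (nat_lit 3) (.br (nat_lit 5) (.br (nat_lit 15) (.br (nat_lit 25) (.far (nat_lit 0) (nat_lit 331843)) (.dom (nat_lit 182))) (.dom (nat_lit 162))) 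
  (.dom (nat_lit 17))) 
  (.dom (nat_lit 67))) 
  (.dom (nat_lit 591))) 
  (.dom (nat_lit 271)))) 
  (.dom (nat_lit 270))) 
  (.dom (nat_lit 269)))) 
  (.dom (nat_lit 280))))) 
  (.dom (nat_lit 266))))

/-- search tree -/
def gp566B7 : BB := (.br (nat_lit 11) (.br (nat_lit 14) (.br (nat_lit 21) (.br (nat_lit 4) (.far (nat_lit 6306) (nat_lit 7234)) 
  (.br (nat_lit 7) (.br (nat_lit 12) (.far (nat_lit 193) (nat_lit 33)) 
  (.br (nat_lit 1) (.br (nat_lit 19) (.far (nat_lit 0) (nat_lit 417)) (.dom (nat_lit 32))) (.dom (nat_lit 266)))) 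
  (.dom (nat_lit 591)))) 
  (.br (nat_lit 10) (.br (nat_lit 7) (.br (nat_lit 12) (.br (nat_lit 0) (.far (nat_lit 1) (nat_lit 513)) (.br (nat_lit 15) (.far (nat_lit 225) (nat_lit 33)) (.dom (nat_lit 168)))) 
  (.br (nat_lit 1) (.br (nat_lit 2) (.br (nat_lit 0) (.far (nat_lit 65) (nat_lit 321)) 
  (.br (nat_lit 15) (.br (nat_lit 19) (.far (nat_lit 0) (nat_lit 430115)) 
  (.br (nat_lit 4) (.br (nat_lit 5) (.far (nat_lit 513) (nat_lit 321)) (.br (nat_lit 8) (.far (nat_lit 513) (nat_lit 33)) (.dom (nat_lit 303)))) 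
  (.dom (nat_lit 32)))) 
  (.dom (nat_lit 168)))) 
  (.dom (nat_lit 23))) 
  (.dom (nat_lit 266)))) 
  (.br (nat_lit 2) (.br (nat_lit 5) (.br (nat_lit 4) (.br (nat_lit 1) (.far (nat_lit 513) (nat_lit 321)) (.br (nat_lit 15) (.far (nat_lit 1) (nat_lit 129)) (.dom (nat_lit 164)))) 
  (.dom (nat_lit 591))) 
  (.dom (nat_lit 41))) 
  (.dom (nat_lit 590)))) 
  (.dom (nat_lit 279)))) 
  (.br (nat_lit 18) (.br (nat_lit 1) (.br (nat_lit 21) (.br (nat_lit 4) (.br (nat_lit 0) (.far (nat_lit 129) (nat_lit 321)) (.br (nat_lit 23) (.far (nat_lit 33) (nat_lit 225)) (.dom (nat_lit 150)))) 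
  (.br (nat_lit 7) (.br (nat_lit 17) (.br (nat_lit 0) (.far (nat_lit 65) (nat_lit 513)) 
  (.br (nat_lit 23) (.br (nat_lit 19) (.far (nat_lit 0) (nat_lit 433155)) 
  (.br (nat_lit 12) (.br (nat_lit 8) (.far (nat_lit 129) (nat_lit 33)) (.br (nat_lit 22) (.far (nat_lit 129) (nat_lit 1)) (.dom (nat_lit 301)))) 
  (.dom (nat_lit 32)))) 
  (.dom (nat_lit 150)))) 
  (.dom (nat_lit 34))) 
  (.dom (nat_lit 591)))) 
  (.br (nat_lit 10) (.br (nat_lit 0) (.br (nat_lit 2) (.far (nat_lit 65) (nat_lit 321)) (.br (nat_lit 7) (.far (nat_lit 6424580) (nat_lit 321)) (.dom (nat_lit 590)))) 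
  (.br (nat_lit 15) (.br (nat_lit 20) (.br (nat_lit 23) (.br (nat_lit 2) (.br (nat_lit 4) (.br (nat_lit 5) (.br (nat_lit 0) (.far (nat_lit 417) (nat_lit 321)) 
  (.br (nat_lit 8) (.far (nat_lit 417) (nat_lit 225)) (.br (nat_lit 25) (.far (nat_lit 417) (nat_lit 129)) (.dom (nat_lit 561))))) 
  (.br (nat_lit 7) (.br (nat_lit 8) (.far (nat_lit 65) (nat_lit 33)) 
  (.br (nat_lit 17) (.br (nat_lit 0) (.far (nat_lit 65) (nat_lit 513)) 
  (.br (nat_lit 25) (.br (nat_lit 19) (.far (nat_lit 65) (nat_lit 1)) 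
  (.br (nat_lit 12) (.br (nat_lit 8) (.far (nat_lit 417) (nat_lit 33)) (.br (nat_lit 22) (.far (nat_lit 417) (nat_lit 1)) (.dom (nat_lit 194)))) 
  (.dom (nat_lit 303)))) 
  (.dom (nat_lit 561)))) 
  (.dom (nat_lit 306)))) 
  (.dom (nat_lit 41)))) 
  (.br (nat_lit 7) (.br (nat_lit 17) (.br (nat_lit 19) (.far (nat_lit 65) (nat_lit 1)) 
  (.br (nat_lit 12) (.br (nat_lit 8) (.far (nat_lit 417) (nat_lit 33)) (.br (nat_lit 22) (.far (nat_lit 193) (nat_lit 161)) (.dom (nat_lit 301)))) 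
  (.dom (nat_lit 32)))) 
  (.dom (nat_lit 34))) 
  (.dom (nat_lit 591)))) 
  (.br (nat_lit 7) (.br (nat_lit 17) (.br (nat_lit 12) (.br (nat_lit 8) (.far (nat_lit 417) (nat_lit 33)) (.br (nat_lit 22) (.far (nat_lit 193) (nat_lit 161)) (.dom (nat_lit 299)))) 
  (.dom (nat_lit 23))) 
  (.dom (nat_lit 28))) 
  (.dom (nat_lit 590)))) 
  (.dom (nat_lit 150))) 
  (.dom (nat_lit 119))) 
  (.dom (nat_lit 168)))) 
  (.dom (nat_lit 279)))) 
  (.br (nat_lit 17) (.br (nat_lit 12) (.br (nat_lit 22) (.br (nat_lit 7) (.far (nat_lit 193) (nat_lit 161)) 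
  (.br (nat_lit 21) (.br (nat_lit 23) (.far (nat_lit 129) (nat_lit 1)) (.dom (nat_lit 145))) 
  (.br (nat_lit 5) (.br (nat_lit 15) (.br (nat_lit 20) (.br (nat_lit 23) (.br (nat_lit 2) (.br (nat_lit 4) (.br (nat_lit 10) (.br (nat_lit 25) (.far (nat_lit 417) (nat_lit 1)) (.br (nat_lit 0) (.far (nat_lit 225) (nat_lit 321)) (.dom (nat_lit 556)))) 
  (.dom (nat_lit 279))) 
  (.dom (nat_lit 591))) 
  (.dom (nat_lit 590))) 
  (.dom (nat_lit 145))) 
  (.dom (nat_lit 103))) 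
  (.dom (nat_lit 164))) 
  (.dom (nat_lit 41))))) 
  (.dom (nat_lit 26))) 
  (.dom (nat_lit 266))) 
  (.dom (nat_lit 270)))) 
  (.dom (nat_lit 277)))) 
  (.br (nat_lit 20) (.br (nat_lit 2) (.br (nat_lit 1) (.br (nat_lit 0) (.br (nat_lit 4) (.br (nat_lit 5) (.far (nat_lit 0) (nat_lit 321)) (.br (nat_lit 17) (.far (nat_lit 2082) (nat_lit 16706)) (.dom (nat_lit 39)))) 
  (.br (nat_lit 7) (.far (nat_lit 7538692) (nat_lit 321)) (.dom (nat_lit 591)))) 
  (.br (nat_lit 25) (.br (nat_lit 10) (.br (nat_lit 18) (.br (nat_lit 4) (.br (nat_lit 5) (.br (nat_lit 15) (.far (nat_lit 417) (nat_lit 129)) 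
  (.br (nat_lit 21) (.br (nat_lit 23) (.far (nat_lit 33) (nat_lit 193)) 
  (.br (nat_lit 14) (.br (nat_lit 0) (.far (nat_lit 0) (nat_lit 321)) (.br (nat_lit 19) (.far (nat_lit 161) (nat_lit 1)) (.dom (nat_lit 532)))) 
  (.dom (nat_lit 150)))) 
  (.dom (nat_lit 168)))) 
  (.br (nat_lit 17) (.br (nat_lit 21) (.br (nat_lit 23) (.br (nat_lit 8) (.far (nat_lit 0) (nat_lit 235523)) 
  (.br (nat_lit 19) (.far (nat_lit 513) (nat_lit 1)) (.br (nat_lit 22) (.far (nat_lit 417) (nat_lit 1)) (.dom (nat_lit 302))))) 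
  (.br (nat_lit 14) (.br (nat_lit 19) (.far (nat_lit 65) (nat_lit 1)) 
  (.br (nat_lit 7) (.br (nat_lit 0) (.far (nat_lit 65) (nat_lit 513)) 
  (.br (nat_lit 15) (.br (nat_lit 8) (.far (nat_lit 65) (nat_lit 33)) 
  (.br (nat_lit 22) (.br (nat_lit 12) (.far (nat_lit 225) (nat_lit 33)) (.br (nat_lit 19) (.far (nat_lit 225) (nat_lit 1)) (.dom (nat_lit 234)))) 
  (.dom (nat_lit 302)))) 
  (.dom (nat_lit 532)))) 
  (.dom (nat_lit 470)))) 
  (.dom (nat_lit 150)))) 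
  (.br (nat_lit 7) (.br (nat_lit 15) (.br (nat_lit 14) (.br (nat_lit 8) (.far (nat_lit 65) (nat_lit 33)) 
  (.br (nat_lit 19) (.far (nat_lit 65) (nat_lit 1)) (.br (nat_lit 12) (.far (nat_lit 225) (nat_lit 33)) (.dom (nat_lit 303))))) 
  (.br (nat_lit 23) (.br (nat_lit 8) (.far (nat_lit 65) (nat_lit 33)) 
  (.br (nat_lit 19) (.far (nat_lit 65) (nat_lit 1)) (.br (nat_lit 22) (.far (nat_lit 417) (nat_lit 1)) (.dom (nat_lit 302))))) 
  (.dom (nat_lit 150)))) 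
  (.dom (nat_lit 168))) 
  (.dom (nat_lit 41)))) 
  (.dom (nat_lit 39)))) 
  (.br (nat_lit 7) (.br (nat_lit 17) (.br (nat_lit 19) (.far (nat_lit 65) (nat_lit 1)) 
  (.br (nat_lit 12) (.br (nat_lit 15) (.br (nat_lit 14) (.far (nat_lit 225) (nat_lit 33)) 
  (.br (nat_lit 23) (.br (nat_lit 8) (.far (nat_lit 417) (nat_lit 33)) (.br (nat_lit 22) (.far (nat_lit 417) (nat_lit 1)) (.dom (nat_lit 301)))) 
  (.dom (nat_lit 150)))) 
  (.br (nat_lit 21) (.br (nat_lit 23) (.br (nat_lit 8) (.far (nat_lit 65) (nat_lit 161)) 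
  (.br (nat_lit 22) (.far (nat_lit 417) (nat_lit 1)) 
  (.br (nat_lit 5) (.br (nat_lit 14) (.br (nat_lit 0) (.far (nat_lit 225) (nat_lit 321)) (.br (nat_lit 19) (.far (nat_lit 513) (nat_lit 1)) (.dom (nat_lit 243)))) 
  (.dom (nat_lit 301))) 
  (.dom (nat_lit 302))))) 
  (.br (nat_lit 14) (.br (nat_lit 0) (.far (nat_lit 193) (nat_lit 321)) (.dom (nat_lit 532))) (.dom (nat_lit 150)))) 
  (.dom (nat_lit 168)))) 
  (.dom (nat_lit 32)))) 
  (.br (nat_lit 14) (.br (nat_lit 5) (.br (nat_lit 15) (.far (nat_lit 417) (nat_lit 129)) (.br (nat_lit 19) (.far (nat_lit 193) (nat_lit 129)) (.dom (nat_lit 509)))) 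
  (.dom (nat_lit 39))) 
  (.dom (nat_lit 34)))) 
  (.dom (nat_lit 591)))) 
  (.br (nat_lit 14) (.br (nat_lit 15) (.br (nat_lit 5) (.far (nat_lit 417) (nat_lit 129)) 
  (.br (nat_lit 7) (.br (nat_lit 17) (.br (nat_lit 19) (.far (nat_lit 321) (nat_lit 129)) (.br (nat_lit 12) (.far (nat_lit 225) (nat_lit 33)) (.dom (nat_lit 317)))) 
  (.dom (nat_lit 39))) 
  (.dom (nat_lit 63)))) 
  (.dom (nat_lit 170))) 
  (.dom (nat_lit 277)))) 
  (.br (nat_lit 21) (.br (nat_lit 23) (.br (nat_lit 4) (.br (nat_lit 18) (.far (nat_lit 33) (nat_lit 225)) 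
  (.br (nat_lit 14) (.br (nat_lit 15) (.br (nat_lit 5) (.far (nat_lit 0) (nat_lit 331843)) 
  (.br (nat_lit 17) (.br (nat_lit 7) (.br (nat_lit 19) (.far (nat_lit 161) (nat_lit 1)) 
  (.br (nat_lit 12) (.br (nat_lit 22) (.far (nat_lit 193) (nat_lit 161)) 
  (.br (nat_lit 8) (.br (nat_lit 0) (.far (nat_lit 193) (nat_lit 321)) (.br (nat_lit 11) (.far (nat_lit 193) (nat_lit 33)) (.dom (nat_lit 198)))) 
  (.dom (nat_lit 302)))) 
  (.dom (nat_lit 317)))) 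
  (.dom (nat_lit 63))) 
  (.dom (nat_lit 39)))) 
  (.dom (nat_lit 170))) 
  (.dom (nat_lit 277)))) 
  (.br (nat_lit 17) (.br (nat_lit 7) (.br (nat_lit 19) (.far (nat_lit 161) (nat_lit 1)) 
  (.br (nat_lit 12) (.br (nat_lit 22) (.far (nat_lit 193) (nat_lit 161)) (.dom (nat_lit 339))) (.dom (nat_lit 32)))) 
  (.dom (nat_lit 591))) 
  (.dom (nat_lit 82)))) 
  (.dom (nat_lit 152))) 
  (.dom (nat_lit 279)))) 
  (.dom (nat_lit 188)))) 
  (.br (nat_lit 12) (.br (nat_lit 14) (.br (nat_lit 7) (.br (nat_lit 10) (.br (nat_lit 17) (.br (nat_lit 0) (.far (nat_lit 433219) (nat_lit 0)) 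
  (.br (nat_lit 25) (.br (nat_lit 15) (.far (nat_lit 225) (nat_lit 33)) 
  (.br (nat_lit 18) (.br (nat_lit 21) (.br (nat_lit 19) (.far (nat_lit 161) (nat_lit 1)) (.br (nat_lit 22) (.far (nat_lit 193) (nat_lit 161)) (.dom (nat_lit 506)))) 
  (.dom (nat_lit 168))) 
  (.dom (nat_lit 170)))) 
  (.dom (nat_lit 188)))) 
  (.br (nat_lit 15) (.far (nat_lit 225) (nat_lit 33)) (.dom (nat_lit 162)))) 
  (.br (nat_lit 21) (.br (nat_lit 22) (.br (nat_lit 17) (.far (nat_lit 193) (nat_lit 161)) 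
  (.br (nat_lit 15) (.br (nat_lit 5) (.br (nat_lit 4) (.br (nat_lit 0) (.far (nat_lit 225) (nat_lit 321)) (.br (nat_lit 25) (.far (nat_lit 225) (nat_lit 65)) (.dom (nat_lit 188)))) 
  (.dom (nat_lit 82))) 
  (.dom (nat_lit 39))) 
  (.dom (nat_lit 162)))) 
  (.dom (nat_lit 68))) 
  (.dom (nat_lit 279)))) 
  (.br (nat_lit 25) (.br (nat_lit 5) (.br (nat_lit 4) (.br (nat_lit 15) (.far (nat_lit 0) (nat_lit 331843)) 
  (.br (nat_lit 21) (.br (nat_lit 17) (.br (nat_lit 0) (.far (nat_lit 225) (nat_lit 321)) 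
  (.br (nat_lit 18) (.br (nat_lit 19) (.far (nat_lit 161) (nat_lit 1)) 
  (.br (nat_lit 22) (.br (nat_lit 23) (.far (nat_lit 417) (nat_lit 1)) (.dom (nat_lit 530))) (.dom (nat_lit 506)))) 
  (.dom (nat_lit 170)))) 
  (.dom (nat_lit 162))) 
  (.dom (nat_lit 164)))) 
  (.dom (nat_lit 591))) 
  (.br (nat_lit 17) (.br (nat_lit 21) (.br (nat_lit 18) (.br (nat_lit 4) (.br (nat_lit 22) (.br (nat_lit 23) (.far (nat_lit 417) (nat_lit 1)) 
  (.br (nat_lit 0) (.far (nat_lit 193) (nat_lit 321)) (.br (nat_lit 19) (.far (nat_lit 225) (nat_lit 1)) (.dom (nat_lit 470))))) 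
  (.br (nat_lit 19) (.far (nat_lit 161) (nat_lit 1)) (.dom (nat_lit 295)))) 
  (.dom (nat_lit 591))) 
  (.dom (nat_lit 63))) 
  (.dom (nat_lit 41))) 
  (.dom (nat_lit 17)))) 
  (.dom (nat_lit 182)))) 
  (.br (nat_lit 17) (.br (nat_lit 22) (.br (nat_lit 18) (.br (nat_lit 7) (.far (nat_lit 193) (nat_lit 161)) 
  (.br (nat_lit 23) (.br (nat_lit 25) (.far (nat_lit 417) (nat_lit 1)) (.dom (nat_lit 182))) (.dom (nat_lit 145)))) 
  (.dom (nat_lit 277))) 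
  (.dom (nat_lit 26))) 
  (.dom (nat_lit 270)))) 
  (.dom (nat_lit 266)))) 
  (.br (nat_lit 17) (.br (nat_lit 22) (.br (nat_lit 7) (.br (nat_lit 12) (.far (nat_lit 193) (nat_lit 161)) 
  (.br (nat_lit 18) (.br (nat_lit 21) (.br (nat_lit 1) (.br (nat_lit 0) (.far (nat_lit 33) (nat_lit 513)) 
  (.br (nat_lit 25) (.br (nat_lit 23) (.far (nat_lit 417) (nat_lit 1)) (.br (nat_lit 19) (.far (nat_lit 225) (nat_lit 1)) (.dom (nat_lit 467)))) 
  (.dom (nat_lit 188)))) 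
  (.dom (nat_lit 266))) 
  (.dom (nat_lit 23))) 
  (.dom (nat_lit 45)))) 
  (.br (nat_lit 21) (.br (nat_lit 23) (.br (nat_lit 4) (.br (nat_lit 18) (.far (nat_lit 129) (nat_lit 1)) 
  (.br (nat_lit 12) (.br (nat_lit 5) (.br (nat_lit 14) (.br (nat_lit 0) (.far (nat_lit 193) (nat_lit 321)) (.br (nat_lit 25) (.far (nat_lit 33) (nat_lit 65)) (.dom (nat_lit 188)))) 
  (.dom (nat_lit 277))) 
  (.dom (nat_lit 63))) 
  (.dom (nat_lit 45)))) 
  (.dom (nat_lit 591))) 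
  (.dom (nat_lit 144))) 
  (.dom (nat_lit 590)))) 
  (.dom (nat_lit 21))) 
  (.dom (nat_lit 269)))) 
  (.dom (nat_lit 280))))

/-- search tree -/
def gp566B8 : BB := (.br (nat_lit 7) (.br (nat_lit 8) (.br (nat_lit 14) (.br (nat_lit 2) (.far (nat_lit 2050) (nat_lit 4130)) (.br (nat_lit 12) (.far (nat_lit 225) (nat_lit 33)) (.dom (nat_lit 267)))) 
  (.br (nat_lit 18) (.br (nat_lit 1) (.br (nat_lit 2) (.br (nat_lit 13) (.far (nat_lit 13378) (nat_lit 7202)) 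
  (.br (nat_lit 19) (.br (nat_lit 20) (.far (nat_lit 65) (nat_lit 129)) (.br (nat_lit 0) (.far (nat_lit 65) (nat_lit 321)) (.dom (nat_lit 136)))) 
  (.dom (nat_lit 281)))) 
  (.br (nat_lit 12) (.br (nat_lit 13) (.far (nat_lit 417) (nat_lit 33)) (.br (nat_lit 17) (.far (nat_lit 6210) (nat_lit 5154)) (.dom (nat_lit 127)))) 
  (.dom (nat_lit 267)))) 
  (.br (nat_lit 17) (.br (nat_lit 12) (.far (nat_lit 6210) (nat_lit 5154)) (.br (nat_lit 20) (.far (nat_lit 65) (nat_lit 161)) (.dom (nat_lit 101)))) 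
  (.dom (nat_lit 270)))) 
  (.dom (nat_lit 277)))) 
  (.br (nat_lit 24) (.br (nat_lit 19) (.br (nat_lit 14) (.far (nat_lit 193) (nat_lit 129)) 
  (.br (nat_lit 18) (.br (nat_lit 17) (.br (nat_lit 20) (.br (nat_lit 2) (.br (nat_lit 0) (.far (nat_lit 7234) (nat_lit 0)) (.br (nat_lit 25) (.far (nat_lit 13378) (nat_lit 4098)) (.dom (nat_lit 190)))) 
  (.br (nat_lit 12) (.br (nat_lit 22) (.far (nat_lit 193) (nat_lit 161)) (.dom (nat_lit 27))) (.dom (nat_lit 267)))) 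
  (.br (nat_lit 3) (.br (nat_lit 11) (.br (nat_lit 0) (.far (nat_lit 193) (nat_lit 321)) 
  (.br (nat_lit 13) (.br (nat_lit 21) (.br (nat_lit 25) (.br (nat_lit 12) (.br (nat_lit 22) (.br (nat_lit 0) (.far (nat_lit 0) (nat_lit 540739)) 
  (.br (nat_lit 14) (.far (nat_lit 193) (nat_lit 65)) (.br (nat_lit 23) (.far (nat_lit 0) (nat_lit 526339)) (.dom (nat_lit 488))))) 
  (.br (nat_lit 2) (.br (nat_lit 14) (.far (nat_lit 161) (nat_lit 33)) 
  (.br (nat_lit 1) (.br (nat_lit 0) (.far (nat_lit 65) (nat_lit 321)) 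
  (.br (nat_lit 23) (.br (nat_lit 8) (.far (nat_lit 0) (nat_lit 234531)) 
  (.br (nat_lit 16) (.far (nat_lit 161) (nat_lit 1)) 
  (.br (nat_lit 5) (.br (nat_lit 0) (.far (nat_lit 225) (nat_lit 321)) 
  (.br (nat_lit 4) (.far (nat_lit 513) (nat_lit 321)) 
  (.br (nat_lit 14) (.far (nat_lit 225) (nat_lit 33)) (.br (nat_lit 20) (.far (nat_lit 417) (nat_lit 129)) (.dom (nat_lit 583)))))) 
  (.dom (nat_lit 213))))) 
  (.dom (nat_lit 488)))) 
  (.dom (nat_lit 382)))) 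
  (.dom (nat_lit 27)))) 
  (.br (nat_lit 2) (.br (nat_lit 1) (.br (nat_lit 16) (.far (nat_lit 161) (nat_lit 1)) 
  (.br (nat_lit 5) (.br (nat_lit 0) (.far (nat_lit 225) (nat_lit 321)) 
  (.br (nat_lit 14) (.far (nat_lit 161) (nat_lit 129)) 
  (.br (nat_lit 23) (.br (nat_lit 4) (.far (nat_lit 513) (nat_lit 321)) (.br (nat_lit 20) (.far (nat_lit 417) (nat_lit 129)) (.dom (nat_lit 218)))) 
  (.dom (nat_lit 488))))) 
  (.dom (nat_lit 395)))) 
  (.dom (nat_lit 101))) 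
  (.dom (nat_lit 267)))) 
  (.dom (nat_lit 190))) 
  (.dom (nat_lit 119))) 
  (.dom (nat_lit 136)))) 
  (.dom (nat_lit 280))) 
  (.dom (nat_lit 118)))) 
  (.br (nat_lit 2) (.br (nat_lit 1) (.br (nat_lit 5) (.br (nat_lit 20) (.far (nat_lit 16450) (nat_lit 10370)) 
  (.br (nat_lit 3) (.br (nat_lit 11) (.br (nat_lit 0) (.far (nat_lit 225) (nat_lit 321)) 
  (.br (nat_lit 13) (.br (nat_lit 21) (.br (nat_lit 25) (.br (nat_lit 14) (.far (nat_lit 161) (nat_lit 33)) (.br (nat_lit 4) (.far (nat_lit 513) (nat_lit 321)) (.dom (nat_lit 389)))) 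
  (.dom (nat_lit 190))) 
  (.dom (nat_lit 119))) 
  (.dom (nat_lit 136)))) 
  (.dom (nat_lit 280))) 
  (.dom (nat_lit 118)))) 
  (.dom (nat_lit 42))) 
  (.dom (nat_lit 270))) 
  (.br (nat_lit 3) (.br (nat_lit 11) (.br (nat_lit 12) (.br (nat_lit 13) (.br (nat_lit 21) (.br (nat_lit 22) (.br (nat_lit 1) (.br (nat_lit 5) (.br (nat_lit 0) (.br (nat_lit 4) (.far (nat_lit 0) (nat_lit 534595)) 
  (.br (nat_lit 14) (.far (nat_lit 225) (nat_lit 33)) (.br (nat_lit 17) (.far (nat_lit 0) (nat_lit 513)) (.dom (nat_lit 294))))) 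
  (.br (nat_lit 25) (.br (nat_lit 14) (.far (nat_lit 225) (nat_lit 65)) 
  (.br (nat_lit 23) (.br (nat_lit 4) (.far (nat_lit 417) (nat_lit 65)) (.br (nat_lit 17) (.far (nat_lit 193) (nat_lit 161)) (.dom (nat_lit 294)))) 
  (.dom (nat_lit 468)))) 
  (.dom (nat_lit 190)))) 
  (.dom (nat_lit 42))) 
  (.dom (nat_lit 270))) 
  (.dom (nat_lit 27))) 
  (.dom (nat_lit 28))) 
  (.dom (nat_lit 127))) 
  (.dom (nat_lit 267))) 
  (.dom (nat_lit 269))) 
  (.dom (nat_lit 25))))) 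
  (.dom (nat_lit 277)))) 
  (.br (nat_lit 3) (.br (nat_lit 13) (.br (nat_lit 12) (.br (nat_lit 14) (.far (nat_lit 225) (nat_lit 33)) 
  (.br (nat_lit 18) (.br (nat_lit 17) (.br (nat_lit 0) (.far (nat_lit 1) (nat_lit 513)) 
  (.br (nat_lit 25) (.br (nat_lit 23) (.br (nat_lit 22) (.far (nat_lit 0) (nat_lit 529475)) 
  (.br (nat_lit 2) (.br (nat_lit 1) (.br (nat_lit 20) (.br (nat_lit 8) (.far (nat_lit 417) (nat_lit 33)) (.br (nat_lit 5) (.far (nat_lit 417) (nat_lit 129)) (.dom (nat_lit 305)))) 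
  (.br (nat_lit 11) (.br (nat_lit 21) (.br (nat_lit 8) (.far (nat_lit 417) (nat_lit 33)) 
  (.br (nat_lit 5) (.br (nat_lit 4) (.far (nat_lit 513) (nat_lit 321)) 
  (.br (nat_lit 19) (.br (nat_lit 0) (.far (nat_lit 225) (nat_lit 321)) (.br (nat_lit 14) (.far (nat_lit 225) (nat_lit 33)) (.dom (nat_lit 210)))) 
  (.dom (nat_lit 301)))) 
  (.dom (nat_lit 305)))) 
  (.dom (nat_lit 119))) 
  (.dom (nat_lit 280)))) 
  (.dom (nat_lit 26))) 
  (.dom (nat_lit 27)))) 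
  (.dom (nat_lit 150))) 
  (.dom (nat_lit 190)))) 
  (.br (nat_lit 5) (.br (nat_lit 1) (.br (nat_lit 4) (.br (nat_lit 2) (.far (nat_lit 513) (nat_lit 321)) 
  (.br (nat_lit 11) (.br (nat_lit 21) (.br (nat_lit 22) (.br (nat_lit 0) (.far (nat_lit 129) (nat_lit 321)) (.br (nat_lit 23) (.far (nat_lit 129) (nat_lit 65)) (.dom (nat_lit 150)))) 
  (.dom (nat_lit 27))) 
  (.dom (nat_lit 28))) 
  (.dom (nat_lit 269)))) 
  (.dom (nat_lit 34))) 
  (.dom (nat_lit 270))) 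
  (.dom (nat_lit 42)))) 
  (.dom (nat_lit 277)))) 
  (.br (nat_lit 2) (.br (nat_lit 1) (.br (nat_lit 5) (.br (nat_lit 14) (.far (nat_lit 1) (nat_lit 129)) 
  (.br (nat_lit 18) (.br (nat_lit 0) (.far (nat_lit 225) (nat_lit 321)) 
  (.br (nat_lit 25) (.br (nat_lit 23) (.br (nat_lit 4) (.far (nat_lit 513) (nat_lit 321)) (.br (nat_lit 20) (.far (nat_lit 417) (nat_lit 129)) (.dom (nat_lit 386)))) 
  (.dom (nat_lit 150))) 
  (.dom (nat_lit 190)))) 
  (.dom (nat_lit 277)))) 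
  (.dom (nat_lit 36))) 
  (.dom (nat_lit 266))) 
  (.dom (nat_lit 267)))) 
  (.dom (nat_lit 281))) 
  (.dom (nat_lit 592)))) 
  (.dom (nat_lit 275)))) 
  (.br (nat_lit 5) (.br (nat_lit 2) (.br (nat_lit 19) (.br (nat_lit 14) (.far (nat_lit 1) (nat_lit 129)) 
  (.br (nat_lit 18) (.br (nat_lit 1) (.br (nat_lit 20) (.far (nat_lit 16450) (nat_lit 10370)) (.br (nat_lit 4) (.far (nat_lit 513) (nat_lit 321)) (.dom (nat_lit 111)))) 
  (.br (nat_lit 20) (.br (nat_lit 24) (.br (nat_lit 25) (.far (nat_lit 417) (nat_lit 129)) (.dom (nat_lit 185))) (.dom (nat_lit 271))) 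
  (.br (nat_lit 3) (.br (nat_lit 24) (.br (nat_lit 21) (.br (nat_lit 25) (.br (nat_lit 4) (.br (nat_lit 11) (.br (nat_lit 12) (.br (nat_lit 17) (.br (nat_lit 0) (.br (nat_lit 1) (.far (nat_lit 0) (nat_lit 337987)) 
  (.br (nat_lit 14) (.far (nat_lit 161) (nat_lit 65)) (.br (nat_lit 22) (.far (nat_lit 33) (nat_lit 513)) (.dom (nat_lit 371))))) 
  (.br (nat_lit 13) (.br (nat_lit 14) (.far (nat_lit 161) (nat_lit 65)) 
  (.br (nat_lit 23) (.br (nat_lit 22) (.far (nat_lit 417) (nat_lit 65)) (.br (nat_lit 1) (.far (nat_lit 513) (nat_lit 321)) (.dom (nat_lit 371)))) 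
  (.dom (nat_lit 484)))) 
  (.dom (nat_lit 136)))) 
  (.dom (nat_lit 270))) 
  (.dom (nat_lit 101))) 
  (.dom (nat_lit 280))) 
  (.dom (nat_lit 111))) 
  (.dom (nat_lit 185))) 
  (.dom (nat_lit 103))) 
  (.dom (nat_lit 271))) 
  (.dom (nat_lit 100))))) 
  (.dom (nat_lit 277)))) 
  (.br (nat_lit 4) (.br (nat_lit 13) (.br (nat_lit 1) (.far (nat_lit 513) (nat_lit 321)) 
  (.br (nat_lit 14) (.far (nat_lit 1) (nat_lit 129)) 
  (.br (nat_lit 25) (.br (nat_lit 12) (.br (nat_lit 18) (.br (nat_lit 24) (.br (nat_lit 23) (.br (nat_lit 17) (.br (nat_lit 20) (.far (nat_lit 417) (nat_lit 129)) 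
  (.br (nat_lit 3) (.br (nat_lit 21) (.br (nat_lit 11) (.br (nat_lit 22) (.far (nat_lit 417) (nat_lit 65)) (.br (nat_lit 1) (.far (nat_lit 513) (nat_lit 321)) (.dom (nat_lit 4)))) 
  (.dom (nat_lit 280))) 
  (.dom (nat_lit 103))) 
  (.dom (nat_lit 100)))) 
  (.dom (nat_lit 270))) 
  (.dom (nat_lit 145))) 
  (.dom (nat_lit 271))) 
  (.dom (nat_lit 277))) 
  (.dom (nat_lit 266))) 
  (.dom (nat_lit 185))))) 
  (.dom (nat_lit 281))) 
  (.dom (nat_lit 591)))) 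
  (.br (nat_lit 14) (.br (nat_lit 12) (.br (nat_lit 11) (.br (nat_lit 21) (.br (nat_lit 24) (.br (nat_lit 19) (.far (nat_lit 0) (nat_lit 430115)) (.br (nat_lit 13) (.far (nat_lit 0) (nat_lit 428067)) (.dom (nat_lit 281)))) 
  (.br (nat_lit 13) (.br (nat_lit 8) (.far (nat_lit 513) (nat_lit 33)) (.dom (nat_lit 275))) (.dom (nat_lit 130)))) 
  (.dom (nat_lit 590))) 
  (.br (nat_lit 20) (.br (nat_lit 19) (.br (nat_lit 24) (.br (nat_lit 25) (.far (nat_lit 321) (nat_lit 129)) (.dom (nat_lit 183))) 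
  (.br (nat_lit 8) (.br (nat_lit 18) (.br (nat_lit 13) (.br (nat_lit 25) (.br (nat_lit 1) (.br (nat_lit 17) (.br (nat_lit 21) (.br (nat_lit 2) (.far (nat_lit 417) (nat_lit 129)) 
  (.br (nat_lit 22) (.br (nat_lit 7) (.far (nat_lit 417) (nat_lit 33)) (.br (nat_lit 23) (.far (nat_lit 417) (nat_lit 1)) (.dom (nat_lit 463)))) 
  (.dom (nat_lit 1)))) 
  (.dom (nat_lit 590))) 
  (.dom (nat_lit 269))) 
  (.dom (nat_lit 271))) 
  (.dom (nat_lit 183))) 
  (.dom (nat_lit 130))) 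
  (.dom (nat_lit 54))) 
  (.dom (nat_lit 275)))) 
  (.br (nat_lit 13) (.br (nat_lit 25) (.br (nat_lit 4) (.br (nat_lit 23) (.br (nat_lit 17) (.br (nat_lit 21) (.br (nat_lit 24) (.br (nat_lit 22) (.far (nat_lit 0) (nat_lit 168003)) 
  (.br (nat_lit 8) (.br (nat_lit 2) (.far (nat_lit 417) (nat_lit 129)) (.dom (nat_lit 1))) (.dom (nat_lit 21)))) 
  (.br (nat_lit 8) (.br (nat_lit 18) (.far (nat_lit 513) (nat_lit 161)) (.dom (nat_lit 54))) (.dom (nat_lit 275)))) 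
  (.dom (nat_lit 590))) 
  (.dom (nat_lit 269))) 
  (.dom (nat_lit 144))) 
  (.dom (nat_lit 591))) 
  (.dom (nat_lit 183))) 
  (.dom (nat_lit 281)))) 
  (.dom (nat_lit 280)))) 
  (.dom (nat_lit 267))) 
  (.br (nat_lit 1) (.br (nat_lit 18) (.br (nat_lit 21) (.br (nat_lit 23) (.br (nat_lit 12) (.br (nat_lit 13) (.br (nat_lit 8) (.br (nat_lit 11) (.br (nat_lit 4) (.far (nat_lit 417) (nat_lit 225)) 
  (.br (nat_lit 20) (.br (nat_lit 17) (.br (nat_lit 19) (.br (nat_lit 7) (.far (nat_lit 65) (nat_lit 161)) 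
  (.br (nat_lit 24) (.br (nat_lit 16) (.far (nat_lit 161) (nat_lit 1)) (.br (nat_lit 25) (.far (nat_lit 513) (nat_lit 161)) (.dom (nat_lit 549)))) 
  (.dom (nat_lit 13)))) 
  (.dom (nat_lit 591))) 
  (.dom (nat_lit 11))) 
  (.dom (nat_lit 111)))) 
  (.br (nat_lit 20) (.br (nat_lit 17) (.br (nat_lit 25) (.far (nat_lit 513) (nat_lit 161)) (.dom (nat_lit 183))) (.dom (nat_lit 269))) 
  (.dom (nat_lit 280)))) 
  (.br (nat_lit 24) (.br (nat_lit 22) (.br (nat_lit 3) (.br (nat_lit 4) (.br (nat_lit 11) (.far (nat_lit 129) (nat_lit 65)) (.br (nat_lit 25) (.far (nat_lit 417) (nat_lit 65)) (.dom (nat_lit 183)))) 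
  (.br (nat_lit 17) (.br (nat_lit 20) (.br (nat_lit 19) (.br (nat_lit 25) (.far (nat_lit 417) (nat_lit 1)) (.br (nat_lit 0) (.far (nat_lit 193) (nat_lit 321)) (.dom (nat_lit 190)))) 
  (.dom (nat_lit 591))) 
  (.dom (nat_lit 111))) 
  (.dom (nat_lit 11)))) 
  (.br (nat_lit 20) (.br (nat_lit 17) (.br (nat_lit 19) (.br (nat_lit 25) (.far (nat_lit 417) (nat_lit 1)) (.br (nat_lit 16) (.far (nat_lit 193) (nat_lit 1)) (.dom (nat_lit 555)))) 
  (.dom (nat_lit 592))) 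
  (.dom (nat_lit 25))) 
  (.dom (nat_lit 118)))) 
  (.dom (nat_lit 27))) 
  (.dom (nat_lit 275)))) 
  (.br (nat_lit 17) (.br (nat_lit 19) (.br (nat_lit 24) (.br (nat_lit 20) (.br (nat_lit 25) (.br (nat_lit 22) (.far (nat_lit 417) (nat_lit 1)) 
  (.br (nat_lit 8) (.br (nat_lit 2) (.far (nat_lit 65) (nat_lit 129)) (.br (nat_lit 16) (.far (nat_lit 513) (nat_lit 1)) (.dom (nat_lit 418)))) 
  (.dom (nat_lit 27)))) 
  (.br (nat_lit 11) (.br (nat_lit 8) (.br (nat_lit 16) (.far (nat_lit 161) (nat_lit 1)) 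
  (.br (nat_lit 0) (.br (nat_lit 2) (.far (nat_lit 65) (nat_lit 321)) 
  (.br (nat_lit 22) (.br (nat_lit 7) (.far (nat_lit 193) (nat_lit 161)) 
  (.br (nat_lit 4) (.br (nat_lit 3) (.far (nat_lit 193) (nat_lit 321)) (.br (nat_lit 16) (.far (nat_lit 193) (nat_lit 1)) (.dom (nat_lit 264)))) 
  (.dom (nat_lit 549)))) 
  (.dom (nat_lit 418)))) 
  (.dom (nat_lit 576)))) 
  (.br (nat_lit 0) (.br (nat_lit 22) (.br (nat_lit 16) (.far (nat_lit 193) (nat_lit 1)) (.br (nat_lit 3) (.far (nat_lit 193) (nat_lit 321)) (.dom (nat_lit 555)))) 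
  (.dom (nat_lit 27))) 
  (.dom (nat_lit 190)))) 
  (.dom (nat_lit 183)))) 
  (.br (nat_lit 11) (.br (nat_lit 0) (.br (nat_lit 4) (.br (nat_lit 3) (.far (nat_lit 193) (nat_lit 321)) 
  (.br (nat_lit 8) (.br (nat_lit 16) (.far (nat_lit 161) (nat_lit 1)) (.dom (nat_lit 442))) (.dom (nat_lit 118)))) 
  (.dom (nat_lit 111))) 
  (.dom (nat_lit 136))) 
  (.dom (nat_lit 280)))) 
  (.dom (nat_lit 130))) 
  (.dom (nat_lit 281))) 
  (.dom (nat_lit 127)))) 
  (.dom (nat_lit 267))) 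
  (.dom (nat_lit 147))) 
  (.dom (nat_lit 590))) 
  (.dom (nat_lit 277))) 
  (.br (nat_lit 17) (.br (nat_lit 19) (.br (nat_lit 24) (.br (nat_lit 20) (.br (nat_lit 25) (.br (nat_lit 22) (.far (nat_lit 225) (nat_lit 1)) (.dom (nat_lit 5))) (.dom (nat_lit 185))) 
  (.br (nat_lit 21) (.br (nat_lit 12) (.br (nat_lit 3) (.br (nat_lit 22) (.br (nat_lit 25) (.br (nat_lit 23) (.far (nat_lit 0) (nat_lit 526339)) (.dom (nat_lit 147))) (.dom (nat_lit 185))) 
  (.dom (nat_lit 5))) 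
  (.dom (nat_lit 100))) 
  (.dom (nat_lit 267))) 
  (.dom (nat_lit 590)))) 
  (.dom (nat_lit 271))) 
  (.br (nat_lit 23) (.br (nat_lit 12) (.br (nat_lit 22) (.br (nat_lit 25) (.br (nat_lit 24) (.br (nat_lit 3) (.br (nat_lit 21) (.far (nat_lit 0) (nat_lit 526339)) (.dom (nat_lit 590))) 
  (.br (nat_lit 18) (.br (nat_lit 20) (.far (nat_lit 417) (nat_lit 1)) (.dom (nat_lit 100))) (.dom (nat_lit 277)))) 
  (.dom (nat_lit 271))) 
  (.dom (nat_lit 185))) 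
  (.dom (nat_lit 5))) 
  (.dom (nat_lit 266))) 
  (.dom (nat_lit 145)))) 
  (.dom (nat_lit 270)))))) 
  (.dom (nat_lit 274))))

/-- search tree -/
def gp566B9 : BB := (.br (nat_lit 14) (.br (nat_lit 11) (.br (nat_lit 12) (.br (nat_lit 7) (.br (nat_lit 13) (.far (nat_lit 6146) (nat_lit 2082)) 
  (.br (nat_lit 19) (.br (nat_lit 24) (.far (nat_lit 193) (nat_lit 129)) (.br (nat_lit 0) (.far (nat_lit 193) (nat_lit 321)) (.dom (nat_lit 133)))) 
  (.dom (nat_lit 281)))) 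
  (.br (nat_lit 5) (.br (nat_lit 24) (.far (nat_lit 7330) (nat_lit 2082)) 
  (.br (nat_lit 4) (.br (nat_lit 1) (.br (nat_lit 8) (.br (nat_lit 13) (.far (nat_lit 1) (nat_lit 65)) (.br (nat_lit 0) (.far (nat_lit 193) (nat_lit 321)) (.dom (nat_lit 133)))) 
  (.dom (nat_lit 275))) 
  (.dom (nat_lit 271))) 
  (.dom (nat_lit 85)))) 
  (.dom (nat_lit 274)))) 
  (.br (nat_lit 2) (.br (nat_lit 19) (.br (nat_lit 24) (.br (nat_lit 5) (.far (nat_lit 161) (nat_lit 129)) 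
  (.br (nat_lit 7) (.br (nat_lit 16) (.far (nat_lit 0) (nat_lit 417)) (.dom (nat_lit 86))) (.dom (nat_lit 274)))) 
  (.br (nat_lit 1) (.br (nat_lit 8) (.br (nat_lit 5) (.br (nat_lit 0) (.far (nat_lit 65) (nat_lit 321)) 
  (.br (nat_lit 13) (.br (nat_lit 4) (.far (nat_lit 513) (nat_lit 321)) 
  (.br (nat_lit 7) (.br (nat_lit 10) (.far (nat_lit 513) (nat_lit 33)) (.br (nat_lit 16) (.far (nat_lit 193) (nat_lit 225)) (.dom (nat_lit 365)))) 
  (.dom (nat_lit 85)))) 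
  (.dom (nat_lit 133)))) 
  (.br (nat_lit 7) (.br (nat_lit 16) (.far (nat_lit 193) (nat_lit 225)) (.dom (nat_lit 86))) (.dom (nat_lit 274)))) 
  (.dom (nat_lit 275))) 
  (.dom (nat_lit 75)))) 
  (.br (nat_lit 4) (.br (nat_lit 1) (.br (nat_lit 13) (.br (nat_lit 5) (.far (nat_lit 513) (nat_lit 321)) (.br (nat_lit 8) (.far (nat_lit 1) (nat_lit 225)) (.dom (nat_lit 36)))) 
  (.dom (nat_lit 281))) 
  (.dom (nat_lit 266))) 
  (.dom (nat_lit 79)))) 
  (.dom (nat_lit 267)))) 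
  (.br (nat_lit 20) (.br (nat_lit 2) (.br (nat_lit 19) (.br (nat_lit 24) (.br (nat_lit 5) (.br (nat_lit 0) (.far (nat_lit 225) (nat_lit 321)) (.br (nat_lit 25) (.far (nat_lit 33) (nat_lit 129)) (.dom (nat_lit 192)))) 
  (.br (nat_lit 7) (.br (nat_lit 17) (.br (nat_lit 0) (.far (nat_lit 65) (nat_lit 513)) 
  (.br (nat_lit 25) (.br (nat_lit 16) (.far (nat_lit 0) (nat_lit 430083)) 
  (.br (nat_lit 12) (.br (nat_lit 10) (.far (nat_lit 225) (nat_lit 33)) (.br (nat_lit 22) (.far (nat_lit 225) (nat_lit 1)) (.dom (nat_lit 368)))) 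
  (.dom (nat_lit 86)))) 
  (.dom (nat_lit 192)))) 
  (.dom (nat_lit 88))) 
  (.dom (nat_lit 274)))) 
  (.br (nat_lit 8) (.br (nat_lit 0) (.br (nat_lit 1) (.far (nat_lit 65) (nat_lit 321)) (.br (nat_lit 7) (.far (nat_lit 7538692) (nat_lit 321)) (.dom (nat_lit 271)))) 
  (.br (nat_lit 13) (.br (nat_lit 18) (.br (nat_lit 25) (.br (nat_lit 1) (.br (nat_lit 5) (.br (nat_lit 4) (.br (nat_lit 0) (.far (nat_lit 417) (nat_lit 321)) 
  (.br (nat_lit 10) (.far (nat_lit 417) (nat_lit 129)) (.br (nat_lit 23) (.far (nat_lit 417) (nat_lit 225)) (.dom (nat_lit 482))))) 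
  (.br (nat_lit 7) (.br (nat_lit 10) (.far (nat_lit 65) (nat_lit 33)) 
  (.br (nat_lit 17) (.br (nat_lit 0) (.far (nat_lit 65) (nat_lit 513)) 
  (.br (nat_lit 23) (.br (nat_lit 16) (.far (nat_lit 65) (nat_lit 1)) 
  (.br (nat_lit 12) (.br (nat_lit 10) (.far (nat_lit 417) (nat_lit 33)) (.br (nat_lit 22) (.far (nat_lit 417) (nat_lit 1)) (.dom (nat_lit 207)))) 
  (.dom (nat_lit 365)))) 
  (.dom (nat_lit 482)))) 
  (.dom (nat_lit 367)))) 
  (.dom (nat_lit 85)))) 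
  (.br (nat_lit 7) (.br (nat_lit 17) (.br (nat_lit 16) (.far (nat_lit 65) (nat_lit 1)) 
  (.br (nat_lit 12) (.br (nat_lit 10) (.far (nat_lit 417) (nat_lit 33)) (.br (nat_lit 22) (.far (nat_lit 193) (nat_lit 161)) (.dom (nat_lit 368)))) 
  (.dom (nat_lit 86)))) 
  (.dom (nat_lit 88))) 
  (.dom (nat_lit 274)))) 
  (.br (nat_lit 7) (.br (nat_lit 17) (.br (nat_lit 12) (.br (nat_lit 10) (.far (nat_lit 417) (nat_lit 33)) (.br (nat_lit 22) (.far (nat_lit 193) (nat_lit 161)) (.dom (nat_lit 362)))) 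
  (.dom (nat_lit 75))) 
  (.dom (nat_lit 77))) 
  (.dom (nat_lit 271)))) 
  (.dom (nat_lit 192))) 
  (.dom (nat_lit 92))) 
  (.dom (nat_lit 133)))) 
  (.dom (nat_lit 275)))) 
  (.br (nat_lit 13) (.br (nat_lit 4) (.br (nat_lit 5) (.br (nat_lit 1) (.br (nat_lit 0) (.far (nat_lit 0) (nat_lit 321)) 
  (.br (nat_lit 25) (.br (nat_lit 23) (.far (nat_lit 0) (nat_lit 333891)) (.dom (nat_lit 152))) (.dom (nat_lit 192)))) 
  (.br (nat_lit 12) (.br (nat_lit 22) (.br (nat_lit 24) (.br (nat_lit 0) (.far (nat_lit 225) (nat_lit 321)) (.br (nat_lit 25) (.far (nat_lit 225) (nat_lit 65)) (.dom (nat_lit 192)))) 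
  (.br (nat_lit 7) (.br (nat_lit 8) (.br (nat_lit 17) (.far (nat_lit 193) (nat_lit 161)) (.dom (nat_lit 77))) (.dom (nat_lit 275))) 
  (.dom (nat_lit 271)))) 
  (.dom (nat_lit 68))) 
  (.dom (nat_lit 266)))) 
  (.br (nat_lit 7) (.br (nat_lit 17) (.br (nat_lit 12) (.br (nat_lit 0) (.far (nat_lit 65) (nat_lit 513)) 
  (.br (nat_lit 25) (.br (nat_lit 23) (.br (nat_lit 22) (.far (nat_lit 193) (nat_lit 161)) 
  (.br (nat_lit 8) (.br (nat_lit 1) (.br (nat_lit 10) (.far (nat_lit 417) (nat_lit 33)) 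
  (.br (nat_lit 16) (.br (nat_lit 18) (.far (nat_lit 417) (nat_lit 225)) 
  (.br (nat_lit 24) (.br (nat_lit 0) (.far (nat_lit 193) (nat_lit 321)) (.br (nat_lit 11) (.far (nat_lit 193) (nat_lit 33)) (.dom (nat_lit 206)))) 
  (.dom (nat_lit 92)))) 
  (.dom (nat_lit 368)))) 
  (.dom (nat_lit 68))) 
  (.dom (nat_lit 341)))) 
  (.dom (nat_lit 152))) 
  (.dom (nat_lit 192)))) 
  (.br (nat_lit 1) (.br (nat_lit 8) (.br (nat_lit 16) (.br (nat_lit 0) (.far (nat_lit 129) (nat_lit 321)) (.br (nat_lit 18) (.far (nat_lit 65) (nat_lit 225)) (.dom (nat_lit 355)))) 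
  (.dom (nat_lit 86))) 
  (.dom (nat_lit 36))) 
  (.dom (nat_lit 266)))) 
  (.dom (nat_lit 88))) 
  (.dom (nat_lit 274)))) 
  (.br (nat_lit 7) (.br (nat_lit 12) (.br (nat_lit 17) (.br (nat_lit 0) (.far (nat_lit 65) (nat_lit 513)) 
  (.br (nat_lit 25) (.br (nat_lit 23) (.br (nat_lit 22) (.far (nat_lit 193) (nat_lit 161)) (.br (nat_lit 10) (.far (nat_lit 225) (nat_lit 33)) (.dom (nat_lit 363)))) 
  (.dom (nat_lit 152))) 
  (.dom (nat_lit 192)))) 
  (.dom (nat_lit 82))) 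
  (.dom (nat_lit 79))) 
  (.dom (nat_lit 591)))) 
  (.dom (nat_lit 281)))) 
  (.br (nat_lit 17) (.br (nat_lit 12) (.br (nat_lit 22) (.br (nat_lit 7) (.far (nat_lit 193) (nat_lit 161)) 
  (.br (nat_lit 24) (.br (nat_lit 25) (.br (nat_lit 5) (.far (nat_lit 225) (nat_lit 65)) (.dom (nat_lit 274))) (.dom (nat_lit 183))) 
  (.br (nat_lit 4) (.br (nat_lit 13) (.br (nat_lit 25) (.br (nat_lit 18) (.br (nat_lit 5) (.br (nat_lit 1) (.br (nat_lit 8) (.br (nat_lit 23) (.far (nat_lit 417) (nat_lit 1)) (.br (nat_lit 0) (.far (nat_lit 193) (nat_lit 321)) (.dom (nat_lit 477)))) 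
  (.dom (nat_lit 275))) 
  (.dom (nat_lit 271))) 
  (.dom (nat_lit 274))) 
  (.dom (nat_lit 54))) 
  (.dom (nat_lit 183))) 
  (.dom (nat_lit 130))) 
  (.dom (nat_lit 85))))) 
  (.dom (nat_lit 69))) 
  (.dom (nat_lit 267))) 
  (.dom (nat_lit 269)))) 
  (.dom (nat_lit 280)))) 
  (.br (nat_lit 18) (.br (nat_lit 1) (.br (nat_lit 2) (.br (nat_lit 0) (.br (nat_lit 4) (.far (nat_lit 129) (nat_lit 321)) (.br (nat_lit 17) (.far (nat_lit 2082) (nat_lit 16706)) (.dom (nat_lit 83)))) 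
  (.br (nat_lit 23) (.br (nat_lit 13) (.br (nat_lit 8) (.br (nat_lit 11) (.br (nat_lit 4) (.far (nat_lit 417) (nat_lit 225)) 
  (.br (nat_lit 7) (.br (nat_lit 17) (.br (nat_lit 12) (.br (nat_lit 10) (.far (nat_lit 0) (nat_lit 234531)) 
  (.br (nat_lit 16) (.far (nat_lit 321) (nat_lit 225)) (.br (nat_lit 22) (.far (nat_lit 193) (nat_lit 161)) (.dom (nat_lit 364))))) 
  (.br (nat_lit 19) (.br (nat_lit 16) (.far (nat_lit 321) (nat_lit 225)) 
  (.br (nat_lit 5) (.br (nat_lit 20) (.br (nat_lit 10) (.far (nat_lit 65) (nat_lit 129)) 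
  (.br (nat_lit 22) (.br (nat_lit 24) (.br (nat_lit 0) (.far (nat_lit 33) (nat_lit 513)) 
  (.br (nat_lit 16) (.far (nat_lit 193) (nat_lit 1)) (.br (nat_lit 25) (.far (nat_lit 417) (nat_lit 1)) (.dom (nat_lit 260))))) 
  (.dom (nat_lit 365))) 
  (.dom (nat_lit 364)))) 
  (.dom (nat_lit 401))) 
  (.dom (nat_lit 86)))) 
  (.dom (nat_lit 79)))) 
  (.dom (nat_lit 83))) 
  (.br (nat_lit 19) (.br (nat_lit 5) (.br (nat_lit 20) (.br (nat_lit 24) (.br (nat_lit 17) (.br (nat_lit 16) (.far (nat_lit 161) (nat_lit 1)) (.br (nat_lit 25) (.far (nat_lit 33) (nat_lit 129)) (.dom (nat_lit 571)))) 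
  (.dom (nat_lit 83))) 
  (.dom (nat_lit 85))) 
  (.dom (nat_lit 111))) 
  (.dom (nat_lit 274))) 
  (.dom (nat_lit 591))))) 
  (.br (nat_lit 20) (.br (nat_lit 25) (.br (nat_lit 5) (.br (nat_lit 4) (.far (nat_lit 417) (nat_lit 225)) 
  (.br (nat_lit 17) (.br (nat_lit 19) (.br (nat_lit 24) (.far (nat_lit 33) (nat_lit 129)) 
  (.br (nat_lit 7) (.br (nat_lit 10) (.far (nat_lit 65) (nat_lit 33)) 
  (.br (nat_lit 16) (.far (nat_lit 65) (nat_lit 1)) (.br (nat_lit 22) (.far (nat_lit 417) (nat_lit 1)) (.dom (nat_lit 364))))) 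
  (.dom (nat_lit 85)))) 
  (.br (nat_lit 7) (.br (nat_lit 12) (.br (nat_lit 10) (.far (nat_lit 417) (nat_lit 33)) (.br (nat_lit 22) (.far (nat_lit 417) (nat_lit 1)) (.dom (nat_lit 363)))) 
  (.dom (nat_lit 79))) 
  (.dom (nat_lit 591)))) 
  (.dom (nat_lit 83)))) 
  (.br (nat_lit 17) (.br (nat_lit 7) (.br (nat_lit 16) (.far (nat_lit 65) (nat_lit 225)) 
  (.br (nat_lit 12) (.br (nat_lit 10) (.far (nat_lit 417) (nat_lit 33)) (.br (nat_lit 22) (.far (nat_lit 417) (nat_lit 1)) (.dom (nat_lit 368)))) 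
  (.dom (nat_lit 86)))) 
  (.dom (nat_lit 274))) 
  (.dom (nat_lit 88)))) 
  (.dom (nat_lit 192))) 
  (.dom (nat_lit 280)))) 
  (.br (nat_lit 25) (.br (nat_lit 24) (.br (nat_lit 5) (.br (nat_lit 4) (.far (nat_lit 0) (nat_lit 333891)) 
  (.br (nat_lit 19) (.br (nat_lit 17) (.br (nat_lit 20) (.far (nat_lit 33) (nat_lit 129)) 
  (.br (nat_lit 7) (.br (nat_lit 11) (.br (nat_lit 16) (.far (nat_lit 161) (nat_lit 1)) 
  (.br (nat_lit 12) (.br (nat_lit 22) (.far (nat_lit 193) (nat_lit 161)) 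
  (.br (nat_lit 10) (.br (nat_lit 0) (.far (nat_lit 225) (nat_lit 321)) (.br (nat_lit 14) (.far (nat_lit 225) (nat_lit 33)) (.dom (nat_lit 215)))) 
  (.dom (nat_lit 364)))) 
  (.dom (nat_lit 401)))) 
  (.dom (nat_lit 280))) 
  (.dom (nat_lit 111)))) 
  (.dom (nat_lit 83))) 
  (.br (nat_lit 17) (.br (nat_lit 12) (.br (nat_lit 22) (.far (nat_lit 0) (nat_lit 526339)) (.dom (nat_lit 340))) (.dom (nat_lit 79))) 
  (.dom (nat_lit 34))))) 
  (.br (nat_lit 17) (.br (nat_lit 7) (.br (nat_lit 12) (.br (nat_lit 22) (.far (nat_lit 193) (nat_lit 161)) 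
  (.br (nat_lit 16) (.br (nat_lit 19) (.far (nat_lit 161) (nat_lit 1)) (.br (nat_lit 11) (.far (nat_lit 193) (nat_lit 225)) (.dom (nat_lit 341)))) 
  (.dom (nat_lit 342)))) 
  (.br (nat_lit 19) (.br (nat_lit 16) (.far (nat_lit 161) (nat_lit 1)) (.dom (nat_lit 86))) (.dom (nat_lit 36)))) 
  (.dom (nat_lit 274))) 
  (.dom (nat_lit 42)))) 
  (.dom (nat_lit 275))) 
  (.dom (nat_lit 190)))) 
  (.br (nat_lit 20) (.br (nat_lit 24) (.br (nat_lit 19) (.br (nat_lit 25) (.br (nat_lit 5) (.far (nat_lit 33) (nat_lit 129)) 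
  (.br (nat_lit 7) (.br (nat_lit 17) (.br (nat_lit 16) (.far (nat_lit 513) (nat_lit 1)) 
  (.br (nat_lit 12) (.br (nat_lit 22) (.far (nat_lit 417) (nat_lit 1)) 
  (.br (nat_lit 8) (.br (nat_lit 10) (.far (nat_lit 65) (nat_lit 33)) 
  (.br (nat_lit 4) (.br (nat_lit 11) (.br (nat_lit 0) (.far (nat_lit 193) (nat_lit 321)) (.br (nat_lit 16) (.far (nat_lit 513) (nat_lit 1)) (.dom (nat_lit 226)))) 
  (.dom (nat_lit 368))) 
  (.dom (nat_lit 364)))) 
  (.dom (nat_lit 342)))) 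
  (.dom (nat_lit 86)))) 
  (.br (nat_lit 16) (.far (nat_lit 513) (nat_lit 1)) (.dom (nat_lit 436)))) 
  (.dom (nat_lit 274)))) 
  (.br (nat_lit 8) (.br (nat_lit 11) (.br (nat_lit 16) (.far (nat_lit 161) (nat_lit 1)) (.br (nat_lit 0) (.far (nat_lit 193) (nat_lit 321)) (.dom (nat_lit 578)))) 
  (.dom (nat_lit 192))) 
  (.dom (nat_lit 190)))) 
  (.dom (nat_lit 281))) 
  (.dom (nat_lit 133))) 
  (.dom (nat_lit 136)))) 
  (.dom (nat_lit 153)))) 
  (.br (nat_lit 12) (.br (nat_lit 11) (.br (nat_lit 7) (.br (nat_lit 8) (.br (nat_lit 13) (.far (nat_lit 129) (nat_lit 33)) 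
  (.br (nat_lit 17) (.br (nat_lit 19) (.br (nat_lit 0) (.far (nat_lit 193) (nat_lit 321)) 
  (.br (nat_lit 20) (.br (nat_lit 23) (.br (nat_lit 24) (.br (nat_lit 16) (.far (nat_lit 161) (nat_lit 1)) (.br (nat_lit 22) (.far (nat_lit 193) (nat_lit 161)) (.dom (nat_lit 433)))) 
  (.dom (nat_lit 133))) 
  (.dom (nat_lit 153))) 
  (.dom (nat_lit 136)))) 
  (.dom (nat_lit 281))) 
  (.dom (nat_lit 127)))) 
  (.br (nat_lit 24) (.br (nat_lit 22) (.br (nat_lit 17) (.far (nat_lit 193) (nat_lit 161)) 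
  (.br (nat_lit 13) (.br (nat_lit 4) (.br (nat_lit 5) (.br (nat_lit 0) (.far (nat_lit 193) (nat_lit 321)) (.br (nat_lit 23) (.far (nat_lit 129) (nat_lit 65)) (.dom (nat_lit 153)))) 
  (.dom (nat_lit 42))) 
  (.dom (nat_lit 83))) 
  (.dom (nat_lit 127)))) 
  (.dom (nat_lit 27))) 
  (.dom (nat_lit 275)))) 
  (.br (nat_lit 4) (.br (nat_lit 23) (.br (nat_lit 5) (.br (nat_lit 13) (.far (nat_lit 0) (nat_lit 334915)) 
  (.br (nat_lit 24) (.br (nat_lit 17) (.br (nat_lit 19) (.br (nat_lit 0) (.far (nat_lit 193) (nat_lit 321)) 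
  (.br (nat_lit 20) (.br (nat_lit 16) (.far (nat_lit 161) (nat_lit 1)) 
  (.br (nat_lit 22) (.br (nat_lit 25) (.far (nat_lit 417) (nat_lit 1)) (.dom (nat_lit 576))) (.dom (nat_lit 433)))) 
  (.dom (nat_lit 136)))) 
  (.dom (nat_lit 281))) 
  (.dom (nat_lit 127))) 
  (.dom (nat_lit 130)))) 
  (.dom (nat_lit 274))) 
  (.dom (nat_lit 147))) 
  (.br (nat_lit 17) (.br (nat_lit 24) (.br (nat_lit 19) (.br (nat_lit 23) (.br (nat_lit 20) (.br (nat_lit 5) (.br (nat_lit 22) (.br (nat_lit 25) (.far (nat_lit 417) (nat_lit 1)) 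
  (.br (nat_lit 0) (.far (nat_lit 193) (nat_lit 321)) (.br (nat_lit 16) (.far (nat_lit 193) (nat_lit 1)) (.dom (nat_lit 571))))) 
  (.br (nat_lit 16) (.far (nat_lit 161) (nat_lit 1)) (.dom (nat_lit 333)))) 
  (.dom (nat_lit 274))) 
  (.dom (nat_lit 111))) 
  (.dom (nat_lit 147))) 
  (.dom (nat_lit 591))) 
  (.dom (nat_lit 85))) 
  (.dom (nat_lit 11))))) 
  (.br (nat_lit 17) (.br (nat_lit 22) (.br (nat_lit 7) (.far (nat_lit 193) (nat_lit 161)) 
  (.br (nat_lit 23) (.br (nat_lit 25) (.br (nat_lit 20) (.far (nat_lit 417) (nat_lit 1)) (.dom (nat_lit 280))) (.dom (nat_lit 183))) 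
  (.dom (nat_lit 147)))) 
  (.dom (nat_lit 69))) 
  (.dom (nat_lit 269)))) 
  (.dom (nat_lit 267)))) 
  (.br (nat_lit 17) (.br (nat_lit 22) (.br (nat_lit 12) (.br (nat_lit 7) (.far (nat_lit 193) (nat_lit 161)) 
  (.br (nat_lit 24) (.br (nat_lit 25) (.br (nat_lit 5) (.br (nat_lit 23) (.far (nat_lit 0) (nat_lit 526339)) 
  (.br (nat_lit 19) (.br (nat_lit 0) (.far (nat_lit 193) (nat_lit 321)) (.dom (nat_lit 153))) (.dom (nat_lit 145)))) 
  (.dom (nat_lit 274))) 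
  (.dom (nat_lit 185))) 
  (.dom (nat_lit 271)))) 
  (.br (nat_lit 19) (.br (nat_lit 24) (.br (nat_lit 20) (.br (nat_lit 2) (.br (nat_lit 7) (.br (nat_lit 0) (.far (nat_lit 33) (nat_lit 513)) 
  (.br (nat_lit 23) (.br (nat_lit 25) (.far (nat_lit 417) (nat_lit 1)) (.br (nat_lit 16) (.far (nat_lit 193) (nat_lit 1)) (.dom (nat_lit 569)))) 
  (.dom (nat_lit 153)))) 
  (.br (nat_lit 5) (.br (nat_lit 25) (.far (nat_lit 225) (nat_lit 1)) (.dom (nat_lit 185))) (.dom (nat_lit 274)))) 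
  (.dom (nat_lit 267))) 
  (.dom (nat_lit 101))) 
  (.dom (nat_lit 75))) 
  (.dom (nat_lit 266)))) 
  (.dom (nat_lit 73))) 
  (.dom (nat_lit 270)))) 
  (.dom (nat_lit 277))))

/-- search tree -/
def gp566B10 : BB := (.br (nat_lit 1) (.br (nat_lit 8) (.br (nat_lit 21) (.br (nat_lit 4) (.far (nat_lit 33) (nat_lit 225)) (.br (nat_lit 17) (.far (nat_lit 4162) (nat_lit 7170)) (.dom (nat_lit 272)))) 
  (.br (nat_lit 10) (.br (nat_lit 2) (.br (nat_lit 4) (.br (nat_lit 13) (.far (nat_lit 417) (nat_lit 225)) 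
  (.br (nat_lit 19) (.br (nat_lit 20) (.far (nat_lit 65) (nat_lit 193)) (.br (nat_lit 0) (.far (nat_lit 65) (nat_lit 321)) (.dom (nat_lit 135)))) 
  (.dom (nat_lit 281)))) 
  (.br (nat_lit 17) (.br (nat_lit 20) (.far (nat_lit 65) (nat_lit 193)) (.br (nat_lit 7) (.far (nat_lit 331843) (nat_lit 0)) (.dom (nat_lit 109)))) 
  (.dom (nat_lit 272)))) 
  (.br (nat_lit 7) (.br (nat_lit 17) (.far (nat_lit 331843) (nat_lit 0)) (.br (nat_lit 13) (.far (nat_lit 13378) (nat_lit 7202)) (.dom (nat_lit 126)))) 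
  (.dom (nat_lit 590)))) 
  (.dom (nat_lit 279)))) 
  (.br (nat_lit 24) (.br (nat_lit 19) (.br (nat_lit 21) (.far (nat_lit 161) (nat_lit 1)) 
  (.br (nat_lit 10) (.br (nat_lit 2) (.br (nat_lit 20) (.br (nat_lit 17) (.br (nat_lit 0) (.far (nat_lit 2082) (nat_lit 0)) (.br (nat_lit 25) (.far (nat_lit 13378) (nat_lit 4098)) (.dom (nat_lit 189)))) 
  (.br (nat_lit 4) (.br (nat_lit 5) (.far (nat_lit 513) (nat_lit 321)) (.dom (nat_lit 40))) (.dom (nat_lit 272)))) 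
  (.br (nat_lit 3) (.br (nat_lit 11) (.br (nat_lit 0) (.far (nat_lit 193) (nat_lit 321)) 
  (.br (nat_lit 13) (.br (nat_lit 14) (.br (nat_lit 25) (.br (nat_lit 4) (.br (nat_lit 5) (.br (nat_lit 0) (.far (nat_lit 0) (nat_lit 337987)) 
  (.br (nat_lit 15) (.far (nat_lit 0) (nat_lit 331843)) (.br (nat_lit 21) (.far (nat_lit 161) (nat_lit 1)) (.dom (nat_lit 527))))) 
  (.br (nat_lit 17) (.br (nat_lit 21) (.far (nat_lit 193) (nat_lit 225)) 
  (.br (nat_lit 7) (.br (nat_lit 0) (.far (nat_lit 65) (nat_lit 513)) 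
  (.br (nat_lit 15) (.br (nat_lit 8) (.far (nat_lit 0) (nat_lit 235555)) 
  (.br (nat_lit 9) (.far (nat_lit 193) (nat_lit 129)) 
  (.br (nat_lit 22) (.br (nat_lit 0) (.far (nat_lit 33) (nat_lit 513)) 
  (.br (nat_lit 12) (.far (nat_lit 193) (nat_lit 161)) 
  (.br (nat_lit 20) (.far (nat_lit 417) (nat_lit 1)) (.br (nat_lit 21) (.far (nat_lit 193) (nat_lit 1)) (.dom (nat_lit 584)))))) 
  (.dom (nat_lit 212))))) 
  (.dom (nat_lit 527)))) 
  (.dom (nat_lit 394)))) 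
  (.dom (nat_lit 40)))) 
  (.br (nat_lit 17) (.br (nat_lit 7) (.br (nat_lit 9) (.far (nat_lit 193) (nat_lit 129)) 
  (.br (nat_lit 22) (.br (nat_lit 0) (.far (nat_lit 33) (nat_lit 513)) 
  (.br (nat_lit 21) (.far (nat_lit 193) (nat_lit 1)) 
  (.br (nat_lit 15) (.br (nat_lit 12) (.far (nat_lit 193) (nat_lit 161)) (.br (nat_lit 20) (.far (nat_lit 417) (nat_lit 1)) (.dom (nat_lit 217)))) 
  (.dom (nat_lit 527))))) 
  (.dom (nat_lit 385)))) 
  (.dom (nat_lit 109))) 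
  (.dom (nat_lit 272)))) 
  (.dom (nat_lit 189))) 
  (.dom (nat_lit 119))) 
  (.dom (nat_lit 135)))) 
  (.dom (nat_lit 280))) 
  (.dom (nat_lit 117)))) 
  (.br (nat_lit 17) (.br (nat_lit 7) (.br (nat_lit 22) (.br (nat_lit 20) (.far (nat_lit 6210) (nat_lit 5122)) 
  (.br (nat_lit 3) (.br (nat_lit 11) (.br (nat_lit 0) (.far (nat_lit 193) (nat_lit 321)) 
  (.br (nat_lit 13) (.br (nat_lit 14) (.br (nat_lit 25) (.br (nat_lit 21) (.far (nat_lit 193) (nat_lit 1)) (.br (nat_lit 12) (.far (nat_lit 193) (nat_lit 161)) (.dom (nat_lit 380)))) 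
  (.dom (nat_lit 189))) 
  (.dom (nat_lit 119))) 
  (.dom (nat_lit 135)))) 
  (.dom (nat_lit 280))) 
  (.dom (nat_lit 117)))) 
  (.dom (nat_lit 24))) 
  (.dom (nat_lit 590))) 
  (.br (nat_lit 3) (.br (nat_lit 11) (.br (nat_lit 4) (.br (nat_lit 13) (.br (nat_lit 14) (.br (nat_lit 5) (.br (nat_lit 7) (.br (nat_lit 22) (.br (nat_lit 0) (.br (nat_lit 2) (.far (nat_lit 0) (nat_lit 337987)) 
  (.br (nat_lit 12) (.far (nat_lit 0) (nat_lit 534595)) (.br (nat_lit 21) (.far (nat_lit 161) (nat_lit 1)) (.dom (nat_lit 290))))) 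
  (.br (nat_lit 25) (.br (nat_lit 21) (.far (nat_lit 161) (nat_lit 65)) 
  (.br (nat_lit 15) (.br (nat_lit 12) (.far (nat_lit 417) (nat_lit 65)) (.br (nat_lit 2) (.far (nat_lit 513) (nat_lit 321)) (.dom (nat_lit 290)))) 
  (.dom (nat_lit 507)))) 
  (.dom (nat_lit 189)))) 
  (.dom (nat_lit 24))) 
  (.dom (nat_lit 590))) 
  (.dom (nat_lit 40))) 
  (.dom (nat_lit 28))) 
  (.dom (nat_lit 126))) 
  (.dom (nat_lit 272))) 
  (.dom (nat_lit 269))) 
  (.dom (nat_lit 22))))) 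
  (.dom (nat_lit 279)))) 
  (.br (nat_lit 3) (.br (nat_lit 13) (.br (nat_lit 4) (.br (nat_lit 21) (.far (nat_lit 33) (nat_lit 225)) 
  (.br (nat_lit 10) (.br (nat_lit 2) (.br (nat_lit 0) (.far (nat_lit 129) (nat_lit 321)) 
  (.br (nat_lit 25) (.br (nat_lit 15) (.br (nat_lit 5) (.far (nat_lit 0) (nat_lit 333891)) 
  (.br (nat_lit 17) (.br (nat_lit 7) (.br (nat_lit 20) (.br (nat_lit 8) (.far (nat_lit 513) (nat_lit 161)) (.br (nat_lit 22) (.far (nat_lit 417) (nat_lit 1)) (.dom (nat_lit 304)))) 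
  (.br (nat_lit 11) (.br (nat_lit 14) (.br (nat_lit 8) (.far (nat_lit 417) (nat_lit 225)) 
  (.br (nat_lit 22) (.br (nat_lit 12) (.far (nat_lit 193) (nat_lit 161)) 
  (.br (nat_lit 19) (.br (nat_lit 0) (.far (nat_lit 193) (nat_lit 321)) (.br (nat_lit 21) (.far (nat_lit 193) (nat_lit 1)) (.dom (nat_lit 211)))) 
  (.dom (nat_lit 303)))) 
  (.dom (nat_lit 304)))) 
  (.dom (nat_lit 119))) 
  (.dom (nat_lit 280)))) 
  (.dom (nat_lit 41))) 
  (.dom (nat_lit 40)))) 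
  (.dom (nat_lit 168))) 
  (.dom (nat_lit 189)))) 
  (.br (nat_lit 22) (.br (nat_lit 7) (.br (nat_lit 12) (.br (nat_lit 17) (.far (nat_lit 193) (nat_lit 161)) 
  (.br (nat_lit 11) (.br (nat_lit 14) (.br (nat_lit 5) (.br (nat_lit 0) (.far (nat_lit 129) (nat_lit 321)) (.br (nat_lit 15) (.far (nat_lit 1) (nat_lit 65)) (.dom (nat_lit 168)))) 
  (.dom (nat_lit 40))) 
  (.dom (nat_lit 28))) 
  (.dom (nat_lit 269)))) 
  (.dom (nat_lit 23))) 
  (.dom (nat_lit 590))) 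
  (.dom (nat_lit 24)))) 
  (.dom (nat_lit 279)))) 
  (.br (nat_lit 17) (.br (nat_lit 7) (.br (nat_lit 22) (.br (nat_lit 21) (.far (nat_lit 129) (nat_lit 1)) 
  (.br (nat_lit 10) (.br (nat_lit 0) (.far (nat_lit 65) (nat_lit 513)) 
  (.br (nat_lit 25) (.br (nat_lit 15) (.br (nat_lit 12) (.far (nat_lit 193) (nat_lit 161)) (.br (nat_lit 20) (.far (nat_lit 417) (nat_lit 1)) (.dom (nat_lit 384)))) 
  (.dom (nat_lit 168))) 
  (.dom (nat_lit 189)))) 
  (.dom (nat_lit 279)))) 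
  (.dom (nat_lit 33))) 
  (.dom (nat_lit 591))) 
  (.dom (nat_lit 272)))) 
  (.dom (nat_lit 281))) 
  (.dom (nat_lit 592)))) 
  (.dom (nat_lit 275)))) 
  (.br (nat_lit 22) (.br (nat_lit 17) (.br (nat_lit 19) (.br (nat_lit 21) (.far (nat_lit 129) (nat_lit 1)) 
  (.br (nat_lit 10) (.br (nat_lit 7) (.br (nat_lit 20) (.far (nat_lit 6210) (nat_lit 5122)) (.br (nat_lit 12) (.far (nat_lit 193) (nat_lit 161)) (.dom (nat_lit 98)))) 
  (.br (nat_lit 20) (.br (nat_lit 24) (.br (nat_lit 25) (.far (nat_lit 417) (nat_lit 1)) (.dom (nat_lit 184))) (.dom (nat_lit 271))) 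
  (.br (nat_lit 3) (.br (nat_lit 24) (.br (nat_lit 14) (.br (nat_lit 25) (.br (nat_lit 12) (.br (nat_lit 2) (.br (nat_lit 4) (.br (nat_lit 11) (.br (nat_lit 0) (.br (nat_lit 5) (.far (nat_lit 0) (nat_lit 534595)) 
  (.br (nat_lit 7) (.far (nat_lit 0) (nat_lit 513)) (.br (nat_lit 21) (.far (nat_lit 193) (nat_lit 1)) (.dom (nat_lit 378))))) 
  (.br (nat_lit 13) (.br (nat_lit 21) (.far (nat_lit 193) (nat_lit 65)) 
  (.br (nat_lit 15) (.br (nat_lit 5) (.far (nat_lit 417) (nat_lit 65)) (.br (nat_lit 7) (.far (nat_lit 193) (nat_lit 161)) (.dom (nat_lit 378)))) 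
  (.dom (nat_lit 523)))) 
  (.dom (nat_lit 135)))) 
  (.dom (nat_lit 280))) 
  (.dom (nat_lit 109))) 
  (.dom (nat_lit 590))) 
  (.dom (nat_lit 98))) 
  (.dom (nat_lit 184))) 
  (.dom (nat_lit 103))) 
  (.dom (nat_lit 271))) 
  (.dom (nat_lit 97))))) 
  (.dom (nat_lit 279)))) 
  (.br (nat_lit 12) (.br (nat_lit 13) (.br (nat_lit 7) (.far (nat_lit 193) (nat_lit 161)) 
  (.br (nat_lit 21) (.far (nat_lit 129) (nat_lit 1)) 
  (.br (nat_lit 25) (.br (nat_lit 4) (.br (nat_lit 10) (.br (nat_lit 24) (.br (nat_lit 15) (.br (nat_lit 2) (.br (nat_lit 20) (.far (nat_lit 417) (nat_lit 1)) 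
  (.br (nat_lit 3) (.br (nat_lit 14) (.br (nat_lit 11) (.br (nat_lit 5) (.far (nat_lit 417) (nat_lit 65)) (.br (nat_lit 7) (.far (nat_lit 193) (nat_lit 161)) (.dom (nat_lit 19)))) 
  (.dom (nat_lit 280))) 
  (.dom (nat_lit 103))) 
  (.dom (nat_lit 97)))) 
  (.dom (nat_lit 590))) 
  (.dom (nat_lit 164))) 
  (.dom (nat_lit 271))) 
  (.dom (nat_lit 279))) 
  (.dom (nat_lit 591))) 
  (.dom (nat_lit 184))))) 
  (.dom (nat_lit 281))) 
  (.dom (nat_lit 266)))) 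
  (.br (nat_lit 21) (.br (nat_lit 4) (.br (nat_lit 11) (.br (nat_lit 14) (.br (nat_lit 24) (.br (nat_lit 19) (.far (nat_lit 0) (nat_lit 433155)) (.br (nat_lit 13) (.far (nat_lit 0) (nat_lit 433219)) (.dom (nat_lit 281)))) 
  (.br (nat_lit 13) (.br (nat_lit 8) (.far (nat_lit 321) (nat_lit 225)) (.dom (nat_lit 275))) (.dom (nat_lit 128)))) 
  (.dom (nat_lit 270))) 
  (.br (nat_lit 20) (.br (nat_lit 19) (.br (nat_lit 24) (.br (nat_lit 25) (.far (nat_lit 513) (nat_lit 1)) (.dom (nat_lit 181))) 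
  (.br (nat_lit 8) (.br (nat_lit 10) (.br (nat_lit 13) (.br (nat_lit 25) (.br (nat_lit 2) (.br (nat_lit 7) (.br (nat_lit 14) (.br (nat_lit 1) (.far (nat_lit 417) (nat_lit 225)) 
  (.br (nat_lit 12) (.br (nat_lit 17) (.far (nat_lit 417) (nat_lit 1)) (.br (nat_lit 15) (.far (nat_lit 417) (nat_lit 33)) (.dom (nat_lit 502)))) 
  (.dom (nat_lit 6)))) 
  (.dom (nat_lit 270))) 
  (.dom (nat_lit 271))) 
  (.dom (nat_lit 269))) 
  (.dom (nat_lit 181))) 
  (.dom (nat_lit 128))) 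
  (.dom (nat_lit 77))) 
  (.dom (nat_lit 275)))) 
  (.br (nat_lit 13) (.br (nat_lit 25) (.br (nat_lit 12) (.br (nat_lit 15) (.br (nat_lit 2) (.br (nat_lit 14) (.br (nat_lit 24) (.br (nat_lit 5) (.far (nat_lit 0) (nat_lit 198659)) 
  (.br (nat_lit 8) (.br (nat_lit 17) (.far (nat_lit 417) (nat_lit 1)) (.dom (nat_lit 16))) (.dom (nat_lit 39)))) 
  (.br (nat_lit 8) (.br (nat_lit 10) (.far (nat_lit 513) (nat_lit 161)) (.dom (nat_lit 77))) (.dom (nat_lit 275)))) 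
  (.dom (nat_lit 270))) 
  (.dom (nat_lit 269))) 
  (.dom (nat_lit 162))) 
  (.dom (nat_lit 266))) 
  (.dom (nat_lit 181))) 
  (.dom (nat_lit 281)))) 
  (.dom (nat_lit 280)))) 
  (.dom (nat_lit 272))) 
  (.br (nat_lit 7) (.br (nat_lit 10) (.br (nat_lit 14) (.br (nat_lit 15) (.br (nat_lit 4) (.br (nat_lit 13) (.br (nat_lit 8) (.br (nat_lit 11) (.br (nat_lit 12) (.far (nat_lit 417) (nat_lit 33)) 
  (.br (nat_lit 20) (.br (nat_lit 2) (.br (nat_lit 19) (.br (nat_lit 1) (.far (nat_lit 65) (nat_lit 193)) 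
  (.br (nat_lit 24) (.br (nat_lit 9) (.far (nat_lit 513) (nat_lit 33)) (.br (nat_lit 25) (.far (nat_lit 513) (nat_lit 161)) (.dom (nat_lit 544)))) 
  (.dom (nat_lit 6)))) 
  (.dom (nat_lit 266))) 
  (.dom (nat_lit 2))) 
  (.dom (nat_lit 98)))) 
  (.br (nat_lit 20) (.br (nat_lit 2) (.br (nat_lit 25) (.far (nat_lit 513) (nat_lit 161)) (.dom (nat_lit 181))) (.dom (nat_lit 269))) 
  (.dom (nat_lit 280)))) 
  (.br (nat_lit 24) (.br (nat_lit 5) (.br (nat_lit 3) (.br (nat_lit 12) (.br (nat_lit 11) (.far (nat_lit 1) (nat_lit 65)) (.br (nat_lit 25) (.far (nat_lit 417) (nat_lit 65)) (.dom (nat_lit 181)))) 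
  (.br (nat_lit 2) (.br (nat_lit 20) (.br (nat_lit 19) (.br (nat_lit 25) (.far (nat_lit 417) (nat_lit 129)) (.br (nat_lit 0) (.far (nat_lit 225) (nat_lit 321)) (.dom (nat_lit 189)))) 
  (.dom (nat_lit 266))) 
  (.dom (nat_lit 98))) 
  (.dom (nat_lit 2)))) 
  (.br (nat_lit 20) (.br (nat_lit 2) (.br (nat_lit 19) (.br (nat_lit 25) (.far (nat_lit 417) (nat_lit 129)) (.br (nat_lit 9) (.far (nat_lit 193) (nat_lit 129)) (.dom (nat_lit 554)))) 
  (.dom (nat_lit 592))) 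
  (.dom (nat_lit 22))) 
  (.dom (nat_lit 117)))) 
  (.dom (nat_lit 40))) 
  (.dom (nat_lit 275)))) 
  (.br (nat_lit 2) (.br (nat_lit 19) (.br (nat_lit 24) (.br (nat_lit 20) (.br (nat_lit 25) (.br (nat_lit 5) (.far (nat_lit 417) (nat_lit 129)) 
  (.br (nat_lit 8) (.br (nat_lit 17) (.far (nat_lit 225) (nat_lit 1)) (.br (nat_lit 9) (.far (nat_lit 65) (nat_lit 33)) (.dom (nat_lit 426)))) 
  (.dom (nat_lit 40)))) 
  (.br (nat_lit 11) (.br (nat_lit 8) (.br (nat_lit 9) (.far (nat_lit 161) (nat_lit 33)) 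
  (.br (nat_lit 0) (.br (nat_lit 1) (.far (nat_lit 65) (nat_lit 321)) 
  (.br (nat_lit 12) (.br (nat_lit 17) (.far (nat_lit 193) (nat_lit 161)) 
  (.br (nat_lit 5) (.br (nat_lit 3) (.far (nat_lit 225) (nat_lit 321)) (.br (nat_lit 9) (.far (nat_lit 225) (nat_lit 33)) (.dom (nat_lit 263)))) 
  (.dom (nat_lit 426)))) 
  (.dom (nat_lit 544)))) 
  (.dom (nat_lit 575)))) 
  (.br (nat_lit 0) (.br (nat_lit 5) (.br (nat_lit 9) (.far (nat_lit 161) (nat_lit 33)) (.br (nat_lit 3) (.far (nat_lit 225) (nat_lit 321)) (.dom (nat_lit 554)))) 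
  (.dom (nat_lit 40))) 
  (.dom (nat_lit 189)))) 
  (.dom (nat_lit 181)))) 
  (.br (nat_lit 11) (.br (nat_lit 0) (.br (nat_lit 12) (.br (nat_lit 3) (.far (nat_lit 193) (nat_lit 321)) 
  (.br (nat_lit 8) (.br (nat_lit 9) (.far (nat_lit 225) (nat_lit 33)) (.dom (nat_lit 441))) (.dom (nat_lit 117)))) 
  (.dom (nat_lit 98))) 
  (.dom (nat_lit 135))) 
  (.dom (nat_lit 280)))) 
  (.dom (nat_lit 128))) 
  (.dom (nat_lit 281))) 
  (.dom (nat_lit 126)))) 
  (.dom (nat_lit 272))) 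
  (.dom (nat_lit 163))) 
  (.dom (nat_lit 270))) 
  (.dom (nat_lit 279))) 
  (.br (nat_lit 2) (.br (nat_lit 19) (.br (nat_lit 24) (.br (nat_lit 20) (.br (nat_lit 25) (.br (nat_lit 5) (.far (nat_lit 33) (nat_lit 129)) (.dom (nat_lit 18))) (.dom (nat_lit 184))) 
  (.br (nat_lit 14) (.br (nat_lit 4) (.br (nat_lit 3) (.br (nat_lit 5) (.br (nat_lit 25) (.br (nat_lit 15) (.far (nat_lit 0) (nat_lit 331843)) (.dom (nat_lit 163))) (.dom (nat_lit 184))) 
  (.dom (nat_lit 18))) 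
  (.dom (nat_lit 97))) 
  (.dom (nat_lit 272))) 
  (.dom (nat_lit 270)))) 
  (.dom (nat_lit 271))) 
  (.br (nat_lit 15) (.br (nat_lit 4) (.br (nat_lit 5) (.br (nat_lit 25) (.br (nat_lit 24) (.br (nat_lit 3) (.br (nat_lit 14) (.far (nat_lit 0) (nat_lit 331843)) (.dom (nat_lit 270))) 
  (.br (nat_lit 10) (.br (nat_lit 20) (.far (nat_lit 417) (nat_lit 129)) (.dom (nat_lit 97))) (.dom (nat_lit 279)))) 
  (.dom (nat_lit 271))) 
  (.dom (nat_lit 184))) 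
  (.dom (nat_lit 18))) 
  (.dom (nat_lit 272))) 
  (.dom (nat_lit 163)))) 
  (.dom (nat_lit 590)))))) 
  (.dom (nat_lit 268))))

/-- search tree -/
def gp566B11 : BB := (.br (nat_lit 21) (.br (nat_lit 11) (.br (nat_lit 4) (.br (nat_lit 1) (.br (nat_lit 13) (.far (nat_lit 5250) (nat_lit 7234)) 
  (.br (nat_lit 19) (.br (nat_lit 24) (.far (nat_lit 161) (nat_lit 1)) (.br (nat_lit 0) (.far (nat_lit 193) (nat_lit 321)) (.dom (nat_lit 132)))) 
  (.dom (nat_lit 281)))) 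
  (.br (nat_lit 22) (.br (nat_lit 24) (.far (nat_lit 5250) (nat_lit 2050)) 
  (.br (nat_lit 12) (.br (nat_lit 7) (.br (nat_lit 8) (.br (nat_lit 13) (.far (nat_lit 129) (nat_lit 33)) (.br (nat_lit 0) (.far (nat_lit 193) (nat_lit 321)) (.dom (nat_lit 132)))) 
  (.dom (nat_lit 275))) 
  (.dom (nat_lit 271))) 
  (.dom (nat_lit 52)))) 
  (.dom (nat_lit 268)))) 
  (.br (nat_lit 17) (.br (nat_lit 19) (.br (nat_lit 24) (.br (nat_lit 22) (.far (nat_lit 193) (nat_lit 1)) 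
  (.br (nat_lit 1) (.br (nat_lit 9) (.far (nat_lit 0) (nat_lit 417)) (.dom (nat_lit 56))) (.dom (nat_lit 268)))) 
  (.br (nat_lit 7) (.br (nat_lit 8) (.br (nat_lit 1) (.br (nat_lit 0) (.far (nat_lit 65) (nat_lit 513)) 
  (.br (nat_lit 13) (.br (nat_lit 9) (.far (nat_lit 0) (nat_lit 433187)) 
  (.br (nat_lit 22) (.br (nat_lit 12) (.far (nat_lit 129) (nat_lit 33)) (.br (nat_lit 18) (.far (nat_lit 129) (nat_lit 1)) (.dom (nat_lit 323)))) 
  (.dom (nat_lit 56)))) 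
  (.dom (nat_lit 132)))) 
  (.br (nat_lit 22) (.br (nat_lit 12) (.far (nat_lit 193) (nat_lit 161)) (.dom (nat_lit 52))) (.dom (nat_lit 268)))) 
  (.dom (nat_lit 275))) 
  (.dom (nat_lit 57)))) 
  (.br (nat_lit 12) (.br (nat_lit 7) (.br (nat_lit 13) (.br (nat_lit 22) (.far (nat_lit 193) (nat_lit 161)) (.br (nat_lit 8) (.far (nat_lit 129) (nat_lit 33)) (.dom (nat_lit 33)))) 
  (.dom (nat_lit 281))) 
  (.dom (nat_lit 591))) 
  (.dom (nat_lit 55)))) 
  (.dom (nat_lit 272)))) 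
  (.br (nat_lit 20) (.br (nat_lit 17) (.br (nat_lit 19) (.br (nat_lit 24) (.br (nat_lit 22) (.br (nat_lit 0) (.far (nat_lit 33) (nat_lit 513)) (.br (nat_lit 25) (.far (nat_lit 225) (nat_lit 1)) (.dom (nat_lit 191)))) 
  (.br (nat_lit 1) (.br (nat_lit 2) (.br (nat_lit 0) (.far (nat_lit 65) (nat_lit 321)) 
  (.br (nat_lit 25) (.br (nat_lit 9) (.far (nat_lit 0) (nat_lit 430083)) 
  (.br (nat_lit 4) (.br (nat_lit 5) (.far (nat_lit 513) (nat_lit 321)) (.br (nat_lit 18) (.far (nat_lit 513) (nat_lit 1)) (.dom (nat_lit 325)))) 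
  (.dom (nat_lit 56)))) 
  (.dom (nat_lit 191)))) 
  (.dom (nat_lit 46))) 
  (.dom (nat_lit 268)))) 
  (.br (nat_lit 8) (.br (nat_lit 0) (.br (nat_lit 1) (.far (nat_lit 6424612) (nat_lit 321)) (.br (nat_lit 7) (.far (nat_lit 65) (nat_lit 513)) (.dom (nat_lit 271)))) 
  (.br (nat_lit 10) (.br (nat_lit 13) (.br (nat_lit 25) (.br (nat_lit 7) (.br (nat_lit 22) (.br (nat_lit 12) (.br (nat_lit 0) (.far (nat_lit 417) (nat_lit 513)) 
  (.br (nat_lit 15) (.far (nat_lit 417) (nat_lit 33)) (.br (nat_lit 18) (.far (nat_lit 417) (nat_lit 1)) (.dom (nat_lit 521))))) 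
  (.br (nat_lit 1) (.br (nat_lit 18) (.far (nat_lit 417) (nat_lit 1)) 
  (.br (nat_lit 2) (.br (nat_lit 0) (.far (nat_lit 65) (nat_lit 321)) 
  (.br (nat_lit 15) (.br (nat_lit 9) (.far (nat_lit 65) (nat_lit 129)) 
  (.br (nat_lit 4) (.br (nat_lit 5) (.far (nat_lit 417) (nat_lit 129)) (.br (nat_lit 18) (.far (nat_lit 417) (nat_lit 1)) (.dom (nat_lit 195)))) 
  (.dom (nat_lit 323)))) 
  (.dom (nat_lit 521)))) 
  (.dom (nat_lit 322)))) 
  (.dom (nat_lit 52)))) 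
  (.br (nat_lit 1) (.br (nat_lit 2) (.br (nat_lit 9) (.far (nat_lit 65) (nat_lit 33)) 
  (.br (nat_lit 4) (.br (nat_lit 18) (.far (nat_lit 417) (nat_lit 225)) (.br (nat_lit 5) (.far (nat_lit 513) (nat_lit 321)) (.dom (nat_lit 325)))) 
  (.dom (nat_lit 56)))) 
  (.dom (nat_lit 46))) 
  (.dom (nat_lit 268)))) 
  (.br (nat_lit 1) (.br (nat_lit 2) (.br (nat_lit 4) (.br (nat_lit 18) (.far (nat_lit 417) (nat_lit 225)) (.br (nat_lit 5) (.far (nat_lit 513) (nat_lit 321)) (.dom (nat_lit 328)))) 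
  (.dom (nat_lit 57))) 
  (.dom (nat_lit 54))) 
  (.dom (nat_lit 271)))) 
  (.dom (nat_lit 191))) 
  (.dom (nat_lit 132))) 
  (.dom (nat_lit 92)))) 
  (.dom (nat_lit 275)))) 
  (.br (nat_lit 13) (.br (nat_lit 12) (.br (nat_lit 22) (.br (nat_lit 7) (.br (nat_lit 0) (.far (nat_lit 0) (nat_lit 513)) 
  (.br (nat_lit 25) (.br (nat_lit 15) (.far (nat_lit 0) (nat_lit 529475)) (.dom (nat_lit 170))) (.dom (nat_lit 191)))) 
  (.br (nat_lit 4) (.br (nat_lit 5) (.br (nat_lit 24) (.br (nat_lit 0) (.far (nat_lit 33) (nat_lit 513)) (.br (nat_lit 25) (.far (nat_lit 33) (nat_lit 65)) (.dom (nat_lit 191)))) 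
  (.br (nat_lit 1) (.br (nat_lit 8) (.br (nat_lit 2) (.far (nat_lit 513) (nat_lit 321)) (.dom (nat_lit 54))) (.dom (nat_lit 275))) 
  (.dom (nat_lit 271)))) 
  (.dom (nat_lit 63))) 
  (.dom (nat_lit 591)))) 
  (.br (nat_lit 1) (.br (nat_lit 2) (.br (nat_lit 4) (.br (nat_lit 0) (.far (nat_lit 129) (nat_lit 321)) 
  (.br (nat_lit 25) (.br (nat_lit 15) (.br (nat_lit 5) (.far (nat_lit 513) (nat_lit 321)) 
  (.br (nat_lit 8) (.br (nat_lit 7) (.br (nat_lit 10) (.far (nat_lit 417) (nat_lit 33)) 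
  (.br (nat_lit 24) (.br (nat_lit 18) (.far (nat_lit 417) (nat_lit 225)) 
  (.br (nat_lit 9) (.br (nat_lit 0) (.far (nat_lit 193) (nat_lit 321)) (.br (nat_lit 11) (.far (nat_lit 193) (nat_lit 33)) (.dom (nat_lit 201)))) 
  (.dom (nat_lit 325)))) 
  (.dom (nat_lit 92)))) 
  (.dom (nat_lit 63))) 
  (.dom (nat_lit 318)))) 
  (.dom (nat_lit 170))) 
  (.dom (nat_lit 191)))) 
  (.br (nat_lit 7) (.br (nat_lit 8) (.br (nat_lit 9) (.br (nat_lit 0) (.far (nat_lit 65) (nat_lit 321)) (.br (nat_lit 10) (.far (nat_lit 65) (nat_lit 33)) (.dom (nat_lit 349)))) 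
  (.dom (nat_lit 56))) 
  (.dom (nat_lit 33))) 
  (.dom (nat_lit 591)))) 
  (.dom (nat_lit 46))) 
  (.dom (nat_lit 268)))) 
  (.br (nat_lit 1) (.br (nat_lit 4) (.br (nat_lit 2) (.br (nat_lit 0) (.far (nat_lit 129) (nat_lit 321)) 
  (.br (nat_lit 25) (.br (nat_lit 15) (.br (nat_lit 5) (.far (nat_lit 513) (nat_lit 321)) (.br (nat_lit 18) (.far (nat_lit 33) (nat_lit 225)) (.dom (nat_lit 324)))) 
  (.dom (nat_lit 170))) 
  (.dom (nat_lit 191)))) 
  (.dom (nat_lit 45))) 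
  (.dom (nat_lit 55))) 
  (.dom (nat_lit 266)))) 
  (.dom (nat_lit 281)))) 
  (.br (nat_lit 2) (.br (nat_lit 4) (.br (nat_lit 5) (.br (nat_lit 1) (.far (nat_lit 513) (nat_lit 321)) 
  (.br (nat_lit 24) (.br (nat_lit 25) (.br (nat_lit 22) (.far (nat_lit 33) (nat_lit 65)) (.dom (nat_lit 268))) (.dom (nat_lit 181))) 
  (.br (nat_lit 12) (.br (nat_lit 13) (.br (nat_lit 25) (.br (nat_lit 10) (.br (nat_lit 22) (.br (nat_lit 7) (.br (nat_lit 8) (.br (nat_lit 15) (.far (nat_lit 417) (nat_lit 33)) (.br (nat_lit 0) (.far (nat_lit 225) (nat_lit 321)) (.dom (nat_lit 516)))) 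
  (.dom (nat_lit 275))) 
  (.dom (nat_lit 271))) 
  (.dom (nat_lit 268))) 
  (.dom (nat_lit 77))) 
  (.dom (nat_lit 181))) 
  (.dom (nat_lit 128))) 
  (.dom (nat_lit 52))))) 
  (.dom (nat_lit 62))) 
  (.dom (nat_lit 272))) 
  (.dom (nat_lit 269)))) 
  (.dom (nat_lit 280)))) 
  (.br (nat_lit 10) (.br (nat_lit 7) (.br (nat_lit 17) (.br (nat_lit 0) (.br (nat_lit 12) (.far (nat_lit 1) (nat_lit 513)) (.br (nat_lit 2) (.far (nat_lit 7234) (nat_lit 16706)) (.dom (nat_lit 47)))) 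
  (.br (nat_lit 15) (.br (nat_lit 13) (.br (nat_lit 8) (.br (nat_lit 11) (.br (nat_lit 12) (.far (nat_lit 417) (nat_lit 33)) 
  (.br (nat_lit 1) (.br (nat_lit 2) (.br (nat_lit 4) (.br (nat_lit 5) (.far (nat_lit 513) (nat_lit 321)) 
  (.br (nat_lit 9) (.far (nat_lit 513) (nat_lit 33)) (.br (nat_lit 18) (.far (nat_lit 417) (nat_lit 225)) (.dom (nat_lit 326))))) 
  (.br (nat_lit 19) (.br (nat_lit 9) (.far (nat_lit 513) (nat_lit 33)) 
  (.br (nat_lit 20) (.br (nat_lit 22) (.br (nat_lit 18) (.far (nat_lit 65) (nat_lit 1)) 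
  (.br (nat_lit 5) (.br (nat_lit 24) (.br (nat_lit 0) (.far (nat_lit 225) (nat_lit 321)) 
  (.br (nat_lit 9) (.far (nat_lit 513) (nat_lit 33)) (.br (nat_lit 25) (.far (nat_lit 225) (nat_lit 1)) (.dom (nat_lit 259))))) 
  (.dom (nat_lit 323))) 
  (.dom (nat_lit 326)))) 
  (.dom (nat_lit 56))) 
  (.dom (nat_lit 397)))) 
  (.dom (nat_lit 55)))) 
  (.dom (nat_lit 47))) 
  (.br (nat_lit 19) (.br (nat_lit 20) (.br (nat_lit 22) (.br (nat_lit 24) (.br (nat_lit 2) (.br (nat_lit 9) (.far (nat_lit 513) (nat_lit 33)) (.br (nat_lit 25) (.far (nat_lit 225) (nat_lit 1)) (.dom (nat_lit 564)))) 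
  (.dom (nat_lit 47))) 
  (.dom (nat_lit 52))) 
  (.dom (nat_lit 268))) 
  (.dom (nat_lit 98))) 
  (.dom (nat_lit 266))))) 
  (.br (nat_lit 20) (.br (nat_lit 25) (.br (nat_lit 2) (.br (nat_lit 1) (.br (nat_lit 4) (.br (nat_lit 5) (.far (nat_lit 417) (nat_lit 129)) 
  (.br (nat_lit 18) (.far (nat_lit 513) (nat_lit 161)) 
  (.br (nat_lit 9) (.far (nat_lit 65) (nat_lit 33)) (.br (nat_lit 12) (.far (nat_lit 417) (nat_lit 33)) (.dom (nat_lit 326)))))) 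
  (.br (nat_lit 9) (.far (nat_lit 65) (nat_lit 33)) 
  (.br (nat_lit 22) (.br (nat_lit 12) (.far (nat_lit 417) (nat_lit 33)) 
  (.br (nat_lit 19) (.br (nat_lit 18) (.far (nat_lit 417) (nat_lit 1)) (.br (nat_lit 5) (.far (nat_lit 417) (nat_lit 129)) (.dom (nat_lit 326)))) 
  (.dom (nat_lit 55)))) 
  (.dom (nat_lit 56))))) 
  (.br (nat_lit 22) (.br (nat_lit 12) (.far (nat_lit 417) (nat_lit 33)) 
  (.br (nat_lit 19) (.br (nat_lit 24) (.far (nat_lit 225) (nat_lit 1)) (.dom (nat_lit 52))) (.dom (nat_lit 266)))) 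
  (.dom (nat_lit 268)))) 
  (.br (nat_lit 12) (.far (nat_lit 417) (nat_lit 33)) (.dom (nat_lit 47)))) 
  (.dom (nat_lit 191))) 
  (.dom (nat_lit 280)))) 
  (.br (nat_lit 25) (.br (nat_lit 24) (.br (nat_lit 22) (.br (nat_lit 12) (.far (nat_lit 0) (nat_lit 529475)) 
  (.br (nat_lit 19) (.br (nat_lit 2) (.br (nat_lit 20) (.far (nat_lit 225) (nat_lit 1)) 
  (.br (nat_lit 1) (.br (nat_lit 11) (.br (nat_lit 9) (.far (nat_lit 161) (nat_lit 33)) 
  (.br (nat_lit 4) (.br (nat_lit 5) (.far (nat_lit 513) (nat_lit 321)) 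
  (.br (nat_lit 18) (.br (nat_lit 0) (.far (nat_lit 193) (nat_lit 321)) (.br (nat_lit 21) (.far (nat_lit 193) (nat_lit 1)) (.dom (nat_lit 214)))) 
  (.dom (nat_lit 326)))) 
  (.dom (nat_lit 397)))) 
  (.dom (nat_lit 280))) 
  (.dom (nat_lit 98)))) 
  (.dom (nat_lit 47))) 
  (.br (nat_lit 2) (.br (nat_lit 4) (.br (nat_lit 5) (.far (nat_lit 0) (nat_lit 331843)) (.dom (nat_lit 319))) (.dom (nat_lit 55))) 
  (.dom (nat_lit 23))))) 
  (.br (nat_lit 2) (.br (nat_lit 1) (.br (nat_lit 4) (.br (nat_lit 5) (.far (nat_lit 513) (nat_lit 321)) 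
  (.br (nat_lit 9) (.br (nat_lit 19) (.far (nat_lit 193) (nat_lit 129)) (.br (nat_lit 11) (.far (nat_lit 161) (nat_lit 33)) (.dom (nat_lit 318)))) 
  (.dom (nat_lit 320)))) 
  (.br (nat_lit 19) (.br (nat_lit 9) (.far (nat_lit 193) (nat_lit 129)) (.dom (nat_lit 56))) (.dom (nat_lit 33)))) 
  (.dom (nat_lit 268))) 
  (.dom (nat_lit 24)))) 
  (.dom (nat_lit 275))) 
  (.dom (nat_lit 189)))) 
  (.br (nat_lit 20) (.br (nat_lit 24) (.br (nat_lit 19) (.br (nat_lit 25) (.br (nat_lit 22) (.far (nat_lit 225) (nat_lit 1)) 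
  (.br (nat_lit 1) (.br (nat_lit 2) (.br (nat_lit 9) (.far (nat_lit 321) (nat_lit 129)) 
  (.br (nat_lit 4) (.br (nat_lit 5) (.far (nat_lit 417) (nat_lit 129)) 
  (.br (nat_lit 8) (.br (nat_lit 18) (.far (nat_lit 65) (nat_lit 1)) 
  (.br (nat_lit 11) (.br (nat_lit 12) (.br (nat_lit 0) (.far (nat_lit 193) (nat_lit 321)) (.br (nat_lit 9) (.far (nat_lit 225) (nat_lit 33)) (.dom (nat_lit 225)))) 
  (.dom (nat_lit 326))) 
  (.dom (nat_lit 325)))) 
  (.dom (nat_lit 320)))) 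
  (.dom (nat_lit 56)))) 
  (.br (nat_lit 9) (.far (nat_lit 321) (nat_lit 129)) (.dom (nat_lit 428)))) 
  (.dom (nat_lit 268)))) 
  (.br (nat_lit 8) (.br (nat_lit 11) (.br (nat_lit 9) (.far (nat_lit 161) (nat_lit 33)) (.br (nat_lit 0) (.far (nat_lit 193) (nat_lit 321)) (.dom (nat_lit 577)))) 
  (.dom (nat_lit 191))) 
  (.dom (nat_lit 189)))) 
  (.dom (nat_lit 281))) 
  (.dom (nat_lit 132))) 
  (.dom (nat_lit 135)))) 
  (.dom (nat_lit 171)))) 
  (.br (nat_lit 4) (.br (nat_lit 11) (.br (nat_lit 1) (.br (nat_lit 8) (.br (nat_lit 13) (.far (nat_lit 1) (nat_lit 225)) 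
  (.br (nat_lit 2) (.br (nat_lit 19) (.br (nat_lit 0) (.far (nat_lit 193) (nat_lit 321)) 
  (.br (nat_lit 15) (.br (nat_lit 20) (.br (nat_lit 24) (.br (nat_lit 9) (.far (nat_lit 161) (nat_lit 33)) (.br (nat_lit 5) (.far (nat_lit 513) (nat_lit 321)) (.dom (nat_lit 431)))) 
  (.dom (nat_lit 132))) 
  (.dom (nat_lit 135))) 
  (.dom (nat_lit 171)))) 
  (.dom (nat_lit 281))) 
  (.dom (nat_lit 126)))) 
  (.br (nat_lit 24) (.br (nat_lit 5) (.br (nat_lit 2) (.far (nat_lit 513) (nat_lit 321)) 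
  (.br (nat_lit 13) (.br (nat_lit 12) (.br (nat_lit 22) (.br (nat_lit 0) (.far (nat_lit 193) (nat_lit 321)) (.br (nat_lit 15) (.far (nat_lit 1) (nat_lit 65)) (.dom (nat_lit 171)))) 
  (.dom (nat_lit 24))) 
  (.dom (nat_lit 47))) 
  (.dom (nat_lit 126)))) 
  (.dom (nat_lit 40))) 
  (.dom (nat_lit 275)))) 
  (.br (nat_lit 12) (.br (nat_lit 15) (.br (nat_lit 22) (.br (nat_lit 13) (.far (nat_lit 0) (nat_lit 526371)) 
  (.br (nat_lit 24) (.br (nat_lit 2) (.br (nat_lit 19) (.br (nat_lit 0) (.far (nat_lit 193) (nat_lit 321)) 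
  (.br (nat_lit 20) (.br (nat_lit 9) (.far (nat_lit 225) (nat_lit 33)) 
  (.br (nat_lit 5) (.br (nat_lit 25) (.far (nat_lit 225) (nat_lit 65)) (.dom (nat_lit 575))) (.dom (nat_lit 431)))) 
  (.dom (nat_lit 135)))) 
  (.dom (nat_lit 281))) 
  (.dom (nat_lit 126))) 
  (.dom (nat_lit 128)))) 
  (.dom (nat_lit 268))) 
  (.dom (nat_lit 163))) 
  (.br (nat_lit 2) (.br (nat_lit 24) (.br (nat_lit 19) (.br (nat_lit 15) (.br (nat_lit 20) (.br (nat_lit 22) (.br (nat_lit 5) (.br (nat_lit 25) (.far (nat_lit 417) (nat_lit 129)) 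
  (.br (nat_lit 0) (.far (nat_lit 225) (nat_lit 321)) (.br (nat_lit 9) (.far (nat_lit 161) (nat_lit 33)) (.dom (nat_lit 564))))) 
  (.br (nat_lit 9) (.far (nat_lit 161) (nat_lit 33)) (.dom (nat_lit 314)))) 
  (.dom (nat_lit 268))) 
  (.dom (nat_lit 98))) 
  (.dom (nat_lit 163))) 
  (.dom (nat_lit 266))) 
  (.dom (nat_lit 52))) 
  (.dom (nat_lit 2))))) 
  (.br (nat_lit 2) (.br (nat_lit 5) (.br (nat_lit 1) (.far (nat_lit 513) (nat_lit 321)) 
  (.br (nat_lit 15) (.br (nat_lit 25) (.br (nat_lit 20) (.far (nat_lit 417) (nat_lit 129)) (.dom (nat_lit 280))) (.dom (nat_lit 181))) 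
  (.dom (nat_lit 163)))) 
  (.dom (nat_lit 62))) 
  (.dom (nat_lit 269)))) 
  (.dom (nat_lit 272)))) 
  (.br (nat_lit 2) (.br (nat_lit 5) (.br (nat_lit 4) (.br (nat_lit 1) (.far (nat_lit 513) (nat_lit 321)) 
  (.br (nat_lit 24) (.br (nat_lit 25) (.br (nat_lit 22) (.br (nat_lit 15) (.far (nat_lit 0) (nat_lit 331843)) 
  (.br (nat_lit 19) (.br (nat_lit 0) (.far (nat_lit 225) (nat_lit 321)) (.dom (nat_lit 171))) (.dom (nat_lit 164)))) 
  (.dom (nat_lit 268))) 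
  (.dom (nat_lit 184))) 
  (.dom (nat_lit 271)))) 
  (.br (nat_lit 19) (.br (nat_lit 24) (.br (nat_lit 20) (.br (nat_lit 17) (.br (nat_lit 1) (.br (nat_lit 0) (.far (nat_lit 225) (nat_lit 321)) 
  (.br (nat_lit 15) (.br (nat_lit 25) (.far (nat_lit 417) (nat_lit 129)) (.br (nat_lit 9) (.far (nat_lit 193) (nat_lit 129)) (.dom (nat_lit 566)))) 
  (.dom (nat_lit 171)))) 
  (.br (nat_lit 22) (.br (nat_lit 25) (.far (nat_lit 225) (nat_lit 1)) (.dom (nat_lit 184))) (.dom (nat_lit 268)))) 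
  (.dom (nat_lit 272))) 
  (.dom (nat_lit 109))) 
  (.dom (nat_lit 57))) 
  (.dom (nat_lit 591)))) 
  (.dom (nat_lit 64))) 
  (.dom (nat_lit 590)))) 
  (.dom (nat_lit 279))))

/-- search tree -/
def gp566B12 : BB := (.br (nat_lit 4) (.br (nat_lit 2) (.br (nat_lit 5) (.br (nat_lit 13) (.br (nat_lit 8) (.br (nat_lit 11) (.far (nat_lit 1) (nat_lit 10721348)) 
  (.br (nat_lit 20) (.br (nat_lit 10) (.far (nat_lit 1) (nat_lit 193)) 
  (.br (nat_lit 21) (.br (nat_lit 0) (.far (nat_lit 0) (nat_lit 321)) (.br (nat_lit 25) (.far (nat_lit 0) (nat_lit 333891)) (.dom (nat_lit 192)))) 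
  (.dom (nat_lit 279)))) 
  (.dom (nat_lit 280)))) 
  (.br (nat_lit 24) (.br (nat_lit 11) (.br (nat_lit 14) (.far (nat_lit 16386) (nat_lit 10306)) 
  (.br (nat_lit 18) (.br (nat_lit 0) (.far (nat_lit 0) (nat_lit 321)) (.br (nat_lit 25) (.far (nat_lit 0) (nat_lit 333891)) (.dom (nat_lit 190)))) 
  (.dom (nat_lit 277)))) 
  (.br (nat_lit 20) (.br (nat_lit 0) (.far (nat_lit 0) (nat_lit 321)) 
  (.br (nat_lit 25) (.far (nat_lit 0) (nat_lit 333891)) 
  (.br (nat_lit 10) (.br (nat_lit 14) (.br (nat_lit 18) (.br (nat_lit 19) (.br (nat_lit 21) (.br (nat_lit 0) (.far (nat_lit 0) (nat_lit 321)) (.br (nat_lit 25) (.far (nat_lit 417) (nat_lit 129)) (.dom (nat_lit 580)))) 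
  (.dom (nat_lit 189))) 
  (.dom (nat_lit 188))) 
  (.dom (nat_lit 191))) 
  (.dom (nat_lit 190))) 
  (.dom (nat_lit 192))))) 
  (.dom (nat_lit 280)))) 
  (.dom (nat_lit 275)))) 
  (.br (nat_lit 19) (.br (nat_lit 0) (.far (nat_lit 0) (nat_lit 321)) 
  (.br (nat_lit 25) (.br (nat_lit 20) (.br (nat_lit 24) (.far (nat_lit 33) (nat_lit 129)) (.br (nat_lit 10) (.far (nat_lit 417) (nat_lit 129)) (.dom (nat_lit 133)))) 
  (.br (nat_lit 14) (.br (nat_lit 21) (.br (nat_lit 11) (.br (nat_lit 24) (.far (nat_lit 161) (nat_lit 65)) 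
  (.br (nat_lit 8) (.br (nat_lit 10) (.br (nat_lit 18) (.br (nat_lit 0) (.far (nat_lit 0) (nat_lit 321)) (.br (nat_lit 13) (.far (nat_lit 417) (nat_lit 225)) (.dom (nat_lit 451)))) 
  (.dom (nat_lit 132))) 
  (.dom (nat_lit 133))) 
  (.dom (nat_lit 275)))) 
  (.dom (nat_lit 280))) 
  (.dom (nat_lit 135))) 
  (.dom (nat_lit 136)))) 
  (.dom (nat_lit 193)))) 
  (.dom (nat_lit 281)))) 
  (.br (nat_lit 7) (.br (nat_lit 8) (.br (nat_lit 13) (.br (nat_lit 18) (.far (nat_lit 417) (nat_lit 225)) 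
  (.br (nat_lit 12) (.br (nat_lit 14) (.br (nat_lit 11) (.far (nat_lit 129) (nat_lit 33)) 
  (.br (nat_lit 17) (.br (nat_lit 20) (.br (nat_lit 0) (.far (nat_lit 65) (nat_lit 513)) 
  (.br (nat_lit 25) (.br (nat_lit 10) (.far (nat_lit 417) (nat_lit 33)) (.br (nat_lit 22) (.far (nat_lit 193) (nat_lit 161)) (.dom (nat_lit 356)))) 
  (.dom (nat_lit 191)))) 
  (.dom (nat_lit 280))) 
  (.dom (nat_lit 62)))) 
  (.dom (nat_lit 277))) 
  (.dom (nat_lit 59)))) 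
  (.br (nat_lit 17) (.br (nat_lit 19) (.br (nat_lit 0) (.far (nat_lit 65) (nat_lit 513)) 
  (.br (nat_lit 25) (.br (nat_lit 18) (.br (nat_lit 20) (.br (nat_lit 10) (.far (nat_lit 65) (nat_lit 161)) 
  (.br (nat_lit 21) (.br (nat_lit 24) (.br (nat_lit 16) (.far (nat_lit 513) (nat_lit 1)) (.br (nat_lit 22) (.far (nat_lit 417) (nat_lit 1)) (.dom (nat_lit 435)))) 
  (.dom (nat_lit 133))) 
  (.dom (nat_lit 279)))) 
  (.br (nat_lit 21) (.br (nat_lit 11) (.br (nat_lit 14) (.br (nat_lit 16) (.far (nat_lit 193) (nat_lit 225)) 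
  (.br (nat_lit 12) (.br (nat_lit 10) (.br (nat_lit 0) (.far (nat_lit 1) (nat_lit 513)) 
  (.br (nat_lit 13) (.far (nat_lit 417) (nat_lit 33)) 
  (.br (nat_lit 24) (.br (nat_lit 9) (.far (nat_lit 225) (nat_lit 33)) (.br (nat_lit 22) (.far (nat_lit 193) (nat_lit 65)) (.dom (nat_lit 230)))) 
  (.dom (nat_lit 451))))) 
  (.br (nat_lit 24) (.br (nat_lit 22) (.far (nat_lit 193) (nat_lit 65)) (.dom (nat_lit 435))) (.dom (nat_lit 133)))) 
  (.dom (nat_lit 447)))) 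
  (.dom (nat_lit 136))) 
  (.dom (nat_lit 280))) 
  (.dom (nat_lit 135)))) 
  (.br (nat_lit 24) (.br (nat_lit 14) (.br (nat_lit 12) (.br (nat_lit 21) (.br (nat_lit 22) (.far (nat_lit 193) (nat_lit 161)) (.br (nat_lit 9) (.far (nat_lit 193) (nat_lit 129)) (.dom (nat_lit 430)))) 
  (.br (nat_lit 20) (.br (nat_lit 10) (.br (nat_lit 9) (.far (nat_lit 225) (nat_lit 33)) (.br (nat_lit 22) (.far (nat_lit 225) (nat_lit 1)) (.dom (nat_lit 430)))) 
  (.dom (nat_lit 279))) 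
  (.dom (nat_lit 135)))) 
  (.dom (nat_lit 59))) 
  (.dom (nat_lit 277))) 
  (.dom (nat_lit 132)))) 
  (.dom (nat_lit 193)))) 
  (.dom (nat_lit 281))) 
  (.dom (nat_lit 131)))) 
  (.br (nat_lit 22) (.br (nat_lit 24) (.br (nat_lit 17) (.br (nat_lit 12) (.far (nat_lit 193) (nat_lit 161)) 
  (.br (nat_lit 18) (.br (nat_lit 19) (.br (nat_lit 10) (.br (nat_lit 0) (.far (nat_lit 33) (nat_lit 513)) 
  (.br (nat_lit 25) (.br (nat_lit 20) (.far (nat_lit 417) (nat_lit 1)) 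
  (.br (nat_lit 21) (.br (nat_lit 11) (.br (nat_lit 16) (.far (nat_lit 193) (nat_lit 1)) 
  (.br (nat_lit 13) (.br (nat_lit 14) (.br (nat_lit 5) (.far (nat_lit 513) (nat_lit 65)) 
  (.br (nat_lit 12) (.far (nat_lit 321) (nat_lit 65)) (.br (nat_lit 16) (.far (nat_lit 193) (nat_lit 1)) (.dom (nat_lit 209))))) 
  (.dom (nat_lit 395))) 
  (.dom (nat_lit 447)))) 
  (.dom (nat_lit 280))) 
  (.dom (nat_lit 391)))) 
  (.br (nat_lit 21) (.br (nat_lit 16) (.far (nat_lit 193) (nat_lit 1)) (.dom (nat_lit 559))) (.dom (nat_lit 189))))) 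
  (.br (nat_lit 21) (.br (nat_lit 16) (.far (nat_lit 193) (nat_lit 1)) (.dom (nat_lit 86))) (.dom (nat_lit 279)))) 
  (.dom (nat_lit 36))) 
  (.dom (nat_lit 59)))) 
  (.br (nat_lit 21) (.br (nat_lit 13) (.br (nat_lit 14) (.br (nat_lit 11) (.br (nat_lit 12) (.far (nat_lit 193) (nat_lit 65)) 
  (.br (nat_lit 18) (.br (nat_lit 19) (.br (nat_lit 16) (.far (nat_lit 161) (nat_lit 1)) (.br (nat_lit 5) (.far (nat_lit 161) (nat_lit 65)) (.dom (nat_lit 297)))) 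
  (.dom (nat_lit 36))) 
  (.dom (nat_lit 59)))) 
  (.br (nat_lit 18) (.br (nat_lit 19) (.br (nat_lit 10) (.br (nat_lit 20) (.br (nat_lit 0) (.br (nat_lit 5) (.far (nat_lit 0) (nat_lit 321)) (.br (nat_lit 17) (.far (nat_lit 65) (nat_lit 513)) (.dom (nat_lit 298)))) 
  (.br (nat_lit 25) (.br (nat_lit 5) (.far (nat_lit 417) (nat_lit 129)) (.br (nat_lit 17) (.far (nat_lit 417) (nat_lit 1)) (.dom (nat_lit 298)))) 
  (.dom (nat_lit 560)))) 
  (.dom (nat_lit 280))) 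
  (.dom (nat_lit 88))) 
  (.dom (nat_lit 39))) 
  (.dom (nat_lit 62)))) 
  (.dom (nat_lit 42))) 
  (.dom (nat_lit 131))) 
  (.dom (nat_lit 40)))) 
  (.dom (nat_lit 275))) 
  (.dom (nat_lit 37)))) 
  (.dom (nat_lit 274)))) 
  (.br (nat_lit 12) (.br (nat_lit 13) (.br (nat_lit 11) (.br (nat_lit 21) (.br (nat_lit 8) (.far (nat_lit 4098) (nat_lit 7234)) 
  (.br (nat_lit 24) (.br (nat_lit 14) (.far (nat_lit 5250) (nat_lit 2082)) (.br (nat_lit 22) (.far (nat_lit 129) (nat_lit 65)) (.dom (nat_lit 27)))) 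
  (.dom (nat_lit 275)))) 
  (.br (nat_lit 7) (.br (nat_lit 10) (.br (nat_lit 8) (.far (nat_lit 417) (nat_lit 33)) 
  (.br (nat_lit 22) (.br (nat_lit 24) (.br (nat_lit 14) (.far (nat_lit 0) (nat_lit 526371)) (.br (nat_lit 17) (.far (nat_lit 193) (nat_lit 161)) (.dom (nat_lit 28)))) 
  (.dom (nat_lit 275))) 
  (.dom (nat_lit 24)))) 
  (.dom (nat_lit 279))) 
  (.dom (nat_lit 590)))) 
  (.br (nat_lit 17) (.br (nat_lit 20) (.br (nat_lit 7) (.br (nat_lit 22) (.far (nat_lit 193) (nat_lit 161)) 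
  (.br (nat_lit 8) (.br (nat_lit 10) (.far (nat_lit 417) (nat_lit 33)) (.dom (nat_lit 69))) 
  (.br (nat_lit 10) (.br (nat_lit 18) (.br (nat_lit 19) (.br (nat_lit 14) (.br (nat_lit 21) (.br (nat_lit 5) (.br (nat_lit 24) (.br (nat_lit 0) (.br (nat_lit 2) (.far (nat_lit 0) (nat_lit 321)) (.br (nat_lit 22) (.far (nat_lit 0) (nat_lit 513)) (.dom (nat_lit 289)))) 
  (.br (nat_lit 25) (.br (nat_lit 2) (.far (nat_lit 417) (nat_lit 129)) (.br (nat_lit 22) (.far (nat_lit 417) (nat_lit 1)) (.dom (nat_lit 289)))) 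
  (.dom (nat_lit 553)))) 
  (.dom (nat_lit 275))) 
  (.dom (nat_lit 37))) 
  (.dom (nat_lit 24))) 
  (.dom (nat_lit 27))) 
  (.dom (nat_lit 21))) 
  (.dom (nat_lit 46))) 
  (.dom (nat_lit 69))))) 
  (.br (nat_lit 21) (.br (nat_lit 25) (.br (nat_lit 5) (.br (nat_lit 22) (.far (nat_lit 417) (nat_lit 65)) 
  (.br (nat_lit 18) (.br (nat_lit 2) (.far (nat_lit 513) (nat_lit 321)) (.dom (nat_lit 1))) (.dom (nat_lit 46)))) 
  (.dom (nat_lit 274))) 
  (.dom (nat_lit 183))) 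
  (.dom (nat_lit 590)))) 
  (.dom (nat_lit 280))) 
  (.dom (nat_lit 269)))) 
  (.br (nat_lit 22) (.br (nat_lit 17) (.br (nat_lit 19) (.br (nat_lit 7) (.far (nat_lit 193) (nat_lit 161)) 
  (.br (nat_lit 24) (.br (nat_lit 21) (.br (nat_lit 5) (.br (nat_lit 25) (.far (nat_lit 33) (nat_lit 65)) 
  (.br (nat_lit 11) (.br (nat_lit 0) (.far (nat_lit 193) (nat_lit 321)) (.dom (nat_lit 193))) (.dom (nat_lit 183)))) 
  (.dom (nat_lit 274))) 
  (.dom (nat_lit 590))) 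
  (.dom (nat_lit 130)))) 
  (.dom (nat_lit 281))) 
  (.br (nat_lit 21) (.br (nat_lit 11) (.br (nat_lit 14) (.br (nat_lit 5) (.br (nat_lit 19) (.br (nat_lit 24) (.far (nat_lit 193) (nat_lit 65)) 
  (.br (nat_lit 0) (.far (nat_lit 129) (nat_lit 321)) (.br (nat_lit 13) (.far (nat_lit 129) (nat_lit 65)) (.dom (nat_lit 450))))) 
  (.dom (nat_lit 281))) 
  (.dom (nat_lit 131))) 
  (.dom (nat_lit 127))) 
  (.dom (nat_lit 269))) 
  (.dom (nat_lit 126)))) 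
  (.dom (nat_lit 125)))) 
  (.dom (nat_lit 267)))) 
  (.br (nat_lit 17) (.br (nat_lit 7) (.br (nat_lit 12) (.br (nat_lit 22) (.far (nat_lit 193) (nat_lit 161)) 
  (.br (nat_lit 10) (.br (nat_lit 8) (.br (nat_lit 13) (.far (nat_lit 417) (nat_lit 33)) 
  (.br (nat_lit 2) (.br (nat_lit 19) (.br (nat_lit 18) (.br (nat_lit 0) (.far (nat_lit 65) (nat_lit 321)) 
  (.br (nat_lit 20) (.far (nat_lit 65) (nat_lit 161)) (.br (nat_lit 9) (.far (nat_lit 65) (nat_lit 33)) (.dom (nat_lit 445))))) 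
  (.br (nat_lit 9) (.far (nat_lit 65) (nat_lit 33)) (.dom (nat_lit 56)))) 
  (.dom (nat_lit 281))) 
  (.dom (nat_lit 125)))) 
  (.br (nat_lit 19) (.br (nat_lit 24) (.br (nat_lit 5) (.br (nat_lit 2) (.br (nat_lit 18) (.br (nat_lit 0) (.far (nat_lit 225) (nat_lit 321)) 
  (.br (nat_lit 25) (.br (nat_lit 20) (.far (nat_lit 417) (nat_lit 129)) 
  (.br (nat_lit 14) (.br (nat_lit 11) (.br (nat_lit 9) (.far (nat_lit 225) (nat_lit 33)) 
  (.br (nat_lit 13) (.br (nat_lit 21) (.br (nat_lit 4) (.far (nat_lit 513) (nat_lit 65)) 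
  (.br (nat_lit 9) (.far (nat_lit 225) (nat_lit 33)) (.br (nat_lit 22) (.far (nat_lit 321) (nat_lit 65)) (.dom (nat_lit 208))))) 
  (.dom (nat_lit 385))) 
  (.dom (nat_lit 445)))) 
  (.dom (nat_lit 280))) 
  (.dom (nat_lit 387)))) 
  (.br (nat_lit 14) (.br (nat_lit 9) (.far (nat_lit 225) (nat_lit 33)) (.dom (nat_lit 558))) (.dom (nat_lit 190))))) 
  (.br (nat_lit 14) (.br (nat_lit 9) (.far (nat_lit 225) (nat_lit 33)) (.dom (nat_lit 56))) (.dom (nat_lit 277)))) 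
  (.br (nat_lit 14) (.br (nat_lit 13) (.br (nat_lit 21) (.br (nat_lit 11) (.br (nat_lit 9) (.far (nat_lit 225) (nat_lit 33)) (.br (nat_lit 22) (.far (nat_lit 193) (nat_lit 65)) (.dom (nat_lit 293)))) 
  (.br (nat_lit 18) (.br (nat_lit 20) (.br (nat_lit 0) (.far (nat_lit 65) (nat_lit 513)) 
  (.br (nat_lit 25) (.br (nat_lit 22) (.far (nat_lit 417) (nat_lit 1)) (.br (nat_lit 2) (.far (nat_lit 417) (nat_lit 129)) (.dom (nat_lit 289)))) 
  (.dom (nat_lit 553)))) 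
  (.dom (nat_lit 280))) 
  (.dom (nat_lit 46)))) 
  (.dom (nat_lit 24))) 
  (.dom (nat_lit 125))) 
  (.dom (nat_lit 27)))) 
  (.dom (nat_lit 37))) 
  (.dom (nat_lit 275))) 
  (.dom (nat_lit 33)))) 
  (.dom (nat_lit 80)))) 
  (.br (nat_lit 20) (.br (nat_lit 2) (.br (nat_lit 19) (.br (nat_lit 10) (.br (nat_lit 18) (.br (nat_lit 8) (.far (nat_lit 65) (nat_lit 161)) 
  (.br (nat_lit 24) (.br (nat_lit 0) (.far (nat_lit 433219) (nat_lit 0)) 
  (.br (nat_lit 25) (.far (nat_lit 13378) (nat_lit 4098)) 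
  (.br (nat_lit 13) (.br (nat_lit 14) (.br (nat_lit 21) (.br (nat_lit 5) (.br (nat_lit 9) (.far (nat_lit 193) (nat_lit 129)) 
  (.br (nat_lit 22) (.br (nat_lit 0) (.far (nat_lit 33) (nat_lit 513)) 
  (.br (nat_lit 25) (.far (nat_lit 417) (nat_lit 1)) 
  (.br (nat_lit 11) (.br (nat_lit 16) (.far (nat_lit 193) (nat_lit 1)) (.dom (nat_lit 265))) (.dom (nat_lit 580))))) 
  (.dom (nat_lit 558)))) 
  (.br (nat_lit 22) (.br (nat_lit 16) (.far (nat_lit 193) (nat_lit 1)) (.dom (nat_lit 559))) (.dom (nat_lit 37)))) 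
  (.dom (nat_lit 189))) 
  (.dom (nat_lit 190))) 
  (.dom (nat_lit 193))))) 
  (.dom (nat_lit 275)))) 
  (.br (nat_lit 5) (.br (nat_lit 14) (.br (nat_lit 9) (.far (nat_lit 65) (nat_lit 129)) 
  (.br (nat_lit 22) (.br (nat_lit 0) (.far (nat_lit 225) (nat_lit 321)) (.br (nat_lit 25) (.far (nat_lit 417) (nat_lit 129)) (.dom (nat_lit 565)))) 
  (.dom (nat_lit 56)))) 
  (.dom (nat_lit 277))) 
  (.dom (nat_lit 59)))) 
  (.br (nat_lit 22) (.br (nat_lit 21) (.br (nat_lit 18) (.br (nat_lit 16) (.far (nat_lit 129) (nat_lit 1)) 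
  (.br (nat_lit 5) (.br (nat_lit 0) (.far (nat_lit 225) (nat_lit 321)) (.br (nat_lit 25) (.far (nat_lit 417) (nat_lit 1)) (.dom (nat_lit 570)))) 
  (.dom (nat_lit 86)))) 
  (.br (nat_lit 5) (.br (nat_lit 14) (.br (nat_lit 0) (.far (nat_lit 225) (nat_lit 321)) 
  (.br (nat_lit 24) (.br (nat_lit 25) (.far (nat_lit 225) (nat_lit 1)) 
  (.br (nat_lit 11) (.br (nat_lit 9) (.far (nat_lit 161) (nat_lit 33)) (.dom (nat_lit 565))) (.dom (nat_lit 191)))) 
  (.dom (nat_lit 350)))) 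
  (.dom (nat_lit 277))) 
  (.dom (nat_lit 59)))) 
  (.dom (nat_lit 279))) 
  (.dom (nat_lit 80)))) 
  (.br (nat_lit 10) (.br (nat_lit 18) (.br (nat_lit 8) (.far (nat_lit 65) (nat_lit 161)) 
  (.br (nat_lit 5) (.br (nat_lit 13) (.br (nat_lit 22) (.br (nat_lit 19) (.br (nat_lit 24) (.br (nat_lit 0) (.far (nat_lit 225) (nat_lit 321)) (.br (nat_lit 25) (.far (nat_lit 417) (nat_lit 1)) (.dom (nat_lit 557)))) 
  (.dom (nat_lit 275))) 
  (.dom (nat_lit 32))) 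
  (.dom (nat_lit 33))) 
  (.dom (nat_lit 281))) 
  (.dom (nat_lit 36)))) 
  (.dom (nat_lit 55))) 
  (.dom (nat_lit 79)))) 
  (.dom (nat_lit 267))) 
  (.dom (nat_lit 106)))) 
  (.br (nat_lit 19) (.br (nat_lit 25) (.br (nat_lit 5) (.br (nat_lit 2) (.br (nat_lit 20) (.br (nat_lit 24) (.far (nat_lit 33) (nat_lit 129)) (.br (nat_lit 10) (.far (nat_lit 417) (nat_lit 129)) (.dom (nat_lit 85)))) 
  (.br (nat_lit 14) (.br (nat_lit 21) (.br (nat_lit 12) (.br (nat_lit 11) (.br (nat_lit 24) (.br (nat_lit 22) (.far (nat_lit 225) (nat_lit 65)) 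
  (.br (nat_lit 10) (.br (nat_lit 9) (.far (nat_lit 161) (nat_lit 33)) (.br (nat_lit 4) (.far (nat_lit 161) (nat_lit 65)) (.dom (nat_lit 375)))) 
  (.dom (nat_lit 80)))) 
  (.br (nat_lit 10) (.br (nat_lit 18) (.br (nat_lit 8) (.br (nat_lit 0) (.br (nat_lit 4) (.far (nat_lit 0) (nat_lit 321)) (.br (nat_lit 7) (.far (nat_lit 65) (nat_lit 513)) (.dom (nat_lit 376)))) 
  (.br (nat_lit 13) (.br (nat_lit 4) (.far (nat_lit 417) (nat_lit 225)) (.br (nat_lit 7) (.far (nat_lit 417) (nat_lit 33)) (.dom (nat_lit 376)))) 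
  (.dom (nat_lit 446)))) 
  (.dom (nat_lit 275))) 
  (.dom (nat_lit 57))) 
  (.dom (nat_lit 85)))) 
  (.dom (nat_lit 280))) 
  (.dom (nat_lit 106))) 
  (.dom (nat_lit 109))) 
  (.dom (nat_lit 111)))) 
  (.br (nat_lit 22) (.br (nat_lit 21) (.br (nat_lit 24) (.br (nat_lit 12) (.far (nat_lit 0) (nat_lit 526339)) (.dom (nat_lit 267))) 
  (.br (nat_lit 18) (.br (nat_lit 12) (.br (nat_lit 13) (.br (nat_lit 7) (.far (nat_lit 193) (nat_lit 161)) (.dom (nat_lit 13))) (.dom (nat_lit 130))) 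
  (.dom (nat_lit 267))) 
  (.dom (nat_lit 57)))) 
  (.dom (nat_lit 590))) 
  (.dom (nat_lit 9)))) 
  (.dom (nat_lit 274))) 
  (.dom (nat_lit 186))) 
  (.dom (nat_lit 591)))) 
  (.dom (nat_lit 272))))

/-- search tree -/
def gp566B13 : BB := (.br (nat_lit 9) (.br (nat_lit 16) (.br (nat_lit 19) (.br (nat_lit 11) (.br (nat_lit 14) (.br (nat_lit 21) (.br (nat_lit 24) (.far (nat_lit 0) (nat_lit 417)) (.br (nat_lit 8) (.far (nat_lit 65) (nat_lit 14064676)) (.dom (nat_lit 275)))) 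
  (.br (nat_lit 10) (.br (nat_lit 7) (.far (nat_lit 6210) (nat_lit 4130)) (.br (nat_lit 2) (.far (nat_lit 5186) (nat_lit 4130)) (.dom (nat_lit 590)))) 
  (.dom (nat_lit 279)))) 
  (.br (nat_lit 18) (.br (nat_lit 21) (.br (nat_lit 1) (.far (nat_lit 5186) (nat_lit 7170)) (.br (nat_lit 17) (.far (nat_lit 6210) (nat_lit 7170)) (.dom (nat_lit 270)))) 
  (.br (nat_lit 10) (.br (nat_lit 1) (.br (nat_lit 8) (.far (nat_lit 65) (nat_lit 225)) 
  (.br (nat_lit 24) (.br (nat_lit 2) (.br (nat_lit 0) (.far (nat_lit 65) (nat_lit 321)) (.br (nat_lit 20) (.far (nat_lit 65) (nat_lit 129)) (.dom (nat_lit 119)))) 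
  (.br (nat_lit 7) (.br (nat_lit 17) (.far (nat_lit 333891) (nat_lit 0)) (.dom (nat_lit 28))) (.dom (nat_lit 590)))) 
  (.dom (nat_lit 275)))) 
  (.br (nat_lit 17) (.br (nat_lit 7) (.far (nat_lit 333891) (nat_lit 0)) 
  (.br (nat_lit 24) (.br (nat_lit 20) (.far (nat_lit 65) (nat_lit 1)) (.dom (nat_lit 103))) (.dom (nat_lit 271)))) 
  (.dom (nat_lit 270)))) 
  (.dom (nat_lit 279)))) 
  (.dom (nat_lit 277)))) 
  (.br (nat_lit 20) (.br (nat_lit 24) (.br (nat_lit 2) (.far (nat_lit 5186) (nat_lit 4098)) (.br (nat_lit 17) (.far (nat_lit 6210) (nat_lit 4098)) (.dom (nat_lit 269)))) 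
  (.br (nat_lit 8) (.br (nat_lit 1) (.br (nat_lit 2) (.br (nat_lit 10) (.far (nat_lit 65) (nat_lit 129)) 
  (.br (nat_lit 21) (.br (nat_lit 18) (.far (nat_lit 65) (nat_lit 225)) (.br (nat_lit 0) (.far (nat_lit 65) (nat_lit 321)) (.dom (nat_lit 92)))) 
  (.dom (nat_lit 279)))) 
  (.br (nat_lit 17) (.br (nat_lit 18) (.far (nat_lit 65) (nat_lit 1)) (.br (nat_lit 7) (.far (nat_lit 333891) (nat_lit 0)) (.dom (nat_lit 54)))) 
  (.dom (nat_lit 269)))) 
  (.br (nat_lit 7) (.br (nat_lit 17) (.far (nat_lit 333891) (nat_lit 0)) (.br (nat_lit 10) (.far (nat_lit 65) (nat_lit 33)) (.dom (nat_lit 77)))) 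
  (.dom (nat_lit 271)))) 
  (.dom (nat_lit 275)))) 
  (.dom (nat_lit 280)))) 
  (.br (nat_lit 13) (.br (nat_lit 8) gp566B6 
  (.br (nat_lit 24) (.br (nat_lit 3) gp566B7 (.dom (nat_lit 592))) (.dom (nat_lit 275)))) 
  (.dom (nat_lit 281)))) 
  (.br (nat_lit 15) (.br (nat_lit 10) gp566B8 
  (.br (nat_lit 3) (.br (nat_lit 21) gp566B9 (.dom (nat_lit 279))) (.dom (nat_lit 278)))) 
  (.dom (nat_lit 283)))) 
  (.br (nat_lit 23) (.br (nat_lit 16) (.br (nat_lit 18) gp566B10 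
  (.br (nat_lit 3) (.br (nat_lit 14) gp566B11 (.dom (nat_lit 277))) (.dom (nat_lit 276)))) 
  (.br (nat_lit 15) (.br (nat_lit 3) (.br (nat_lit 1) gp566B12 
  (.br (nat_lit 22) (.br (nat_lit 12) (.br (nat_lit 7) (.br (nat_lit 17) (.far (nat_lit 193) (nat_lit 161)) 
  (.br (nat_lit 14) (.br (nat_lit 11) (.br (nat_lit 4) (.br (nat_lit 13) (.far (nat_lit 0) (nat_lit 526371)) 
  (.br (nat_lit 24) (.br (nat_lit 5) (.br (nat_lit 19) (.br (nat_lit 21) (.far (nat_lit 193) (nat_lit 65)) 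
  (.br (nat_lit 2) (.br (nat_lit 10) (.br (nat_lit 0) (.far (nat_lit 225) (nat_lit 321)) (.br (nat_lit 25) (.far (nat_lit 225) (nat_lit 65)) (.dom (nat_lit 193)))) 
  (.dom (nat_lit 279))) 
  (.dom (nat_lit 126)))) 
  (.dom (nat_lit 281))) 
  (.dom (nat_lit 131))) 
  (.dom (nat_lit 128)))) 
  (.dom (nat_lit 272))) 
  (.br (nat_lit 25) (.br (nat_lit 5) (.br (nat_lit 2) (.br (nat_lit 4) (.br (nat_lit 20) (.br (nat_lit 24) (.far (nat_lit 225) (nat_lit 65)) (.br (nat_lit 10) (.far (nat_lit 417) (nat_lit 129)) (.dom (nat_lit 77)))) 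
  (.dom (nat_lit 280))) 
  (.dom (nat_lit 272))) 
  (.dom (nat_lit 269))) 
  (.br (nat_lit 13) (.br (nat_lit 10) (.br (nat_lit 17) (.far (nat_lit 193) (nat_lit 161)) (.dom (nat_lit 16))) (.dom (nat_lit 88))) 
  (.dom (nat_lit 131)))) 
  (.dom (nat_lit 181)))) 
  (.dom (nat_lit 270)))) 
  (.br (nat_lit 24) (.br (nat_lit 5) (.br (nat_lit 25) (.br (nat_lit 14) (.far (nat_lit 225) (nat_lit 65)) 
  (.br (nat_lit 17) (.br (nat_lit 18) (.br (nat_lit 20) (.far (nat_lit 417) (nat_lit 1)) (.br (nat_lit 21) (.far (nat_lit 0) (nat_lit 526339)) (.dom (nat_lit 103)))) 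
  (.dom (nat_lit 277))) 
  (.dom (nat_lit 270)))) 
  (.br (nat_lit 14) (.br (nat_lit 21) (.br (nat_lit 4) (.br (nat_lit 11) (.far (nat_lit 193) (nat_lit 65)) 
  (.br (nat_lit 19) (.br (nat_lit 2) (.br (nat_lit 0) (.far (nat_lit 225) (nat_lit 321)) (.br (nat_lit 25) (.far (nat_lit 225) (nat_lit 65)) (.dom (nat_lit 579)))) 
  (.dom (nat_lit 183))) 
  (.dom (nat_lit 182)))) 
  (.dom (nat_lit 186))) 
  (.dom (nat_lit 184))) 
  (.dom (nat_lit 185)))) 
  (.dom (nat_lit 274))) 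
  (.dom (nat_lit 271)))) 
  (.br (nat_lit 19) (.br (nat_lit 25) (.br (nat_lit 2) (.br (nat_lit 24) (.br (nat_lit 20) (.br (nat_lit 5) (.far (nat_lit 33) (nat_lit 129)) (.br (nat_lit 17) (.far (nat_lit 225) (nat_lit 1)) (.dom (nat_lit 14)))) 
  (.br (nat_lit 14) (.br (nat_lit 21) (.br (nat_lit 4) (.br (nat_lit 11) (.br (nat_lit 5) (.far (nat_lit 161) (nat_lit 65)) 
  (.br (nat_lit 17) (.br (nat_lit 7) (.br (nat_lit 18) (.br (nat_lit 16) (.far (nat_lit 193) (nat_lit 1)) (.br (nat_lit 12) (.far (nat_lit 193) (nat_lit 65)) (.dom (nat_lit 377)))) 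
  (.dom (nat_lit 59))) 
  (.dom (nat_lit 274))) 
  (.dom (nat_lit 14)))) 
  (.dom (nat_lit 280))) 
  (.dom (nat_lit 106))) 
  (.dom (nat_lit 98))) 
  (.dom (nat_lit 101)))) 
  (.br (nat_lit 18) (.br (nat_lit 17) (.br (nat_lit 10) (.br (nat_lit 20) (.far (nat_lit 417) (nat_lit 1)) 
  (.br (nat_lit 7) (.br (nat_lit 21) (.br (nat_lit 14) (.br (nat_lit 8) (.br (nat_lit 4) (.br (nat_lit 11) (.br (nat_lit 0) (.br (nat_lit 12) (.far (nat_lit 0) (nat_lit 513)) (.br (nat_lit 1) (.far (nat_lit 129) (nat_lit 321)) (.dom (nat_lit 372)))) 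
  (.br (nat_lit 13) (.br (nat_lit 12) (.far (nat_lit 417) (nat_lit 33)) (.br (nat_lit 1) (.far (nat_lit 417) (nat_lit 225)) (.dom (nat_lit 372)))) 
  (.dom (nat_lit 444)))) 
  (.dom (nat_lit 280))) 
  (.dom (nat_lit 106))) 
  (.dom (nat_lit 275))) 
  (.dom (nat_lit 101))) 
  (.dom (nat_lit 98))) 
  (.dom (nat_lit 271)))) 
  (.dom (nat_lit 75))) 
  (.br (nat_lit 5) (.br (nat_lit 10) (.br (nat_lit 4) (.br (nat_lit 14) (.br (nat_lit 13) (.br (nat_lit 1) (.far (nat_lit 513) (nat_lit 321)) (.dom (nat_lit 6))) (.dom (nat_lit 128))) 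
  (.dom (nat_lit 270))) 
  (.dom (nat_lit 272))) 
  (.dom (nat_lit 75))) 
  (.dom (nat_lit 14)))) 
  (.dom (nat_lit 52)))) 
  (.dom (nat_lit 267))) 
  (.dom (nat_lit 180))) 
  (.dom (nat_lit 266)))) 
  (.dom (nat_lit 268)))) 
  (.br (nat_lit 10) (.br (nat_lit 18) (.br (nat_lit 8) (.br (nat_lit 1) (.br (nat_lit 13) (.br (nat_lit 7) (.far (nat_lit 13378) (nat_lit 7202)) 
  (.br (nat_lit 4) (.far (nat_lit 417) (nat_lit 225)) 
  (.br (nat_lit 20) (.br (nat_lit 17) (.br (nat_lit 25) (.far (nat_lit 513) (nat_lit 161)) (.dom (nat_lit 186))) (.dom (nat_lit 272))) 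
  (.dom (nat_lit 105))))) 
  (.br (nat_lit 20) (.br (nat_lit 2) (.far (nat_lit 65) (nat_lit 193)) 
  (.br (nat_lit 17) (.br (nat_lit 7) (.far (nat_lit 65) (nat_lit 161)) 
  (.br (nat_lit 19) (.br (nat_lit 22) (.br (nat_lit 24) (.br (nat_lit 25) (.far (nat_lit 417) (nat_lit 1)) (.br (nat_lit 16) (.far (nat_lit 65) (nat_lit 1)) (.dom (nat_lit 574)))) 
  (.dom (nat_lit 130))) 
  (.dom (nat_lit 125))) 
  (.dom (nat_lit 281)))) 
  (.dom (nat_lit 122)))) 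
  (.dom (nat_lit 134)))) 
  (.br (nat_lit 7) (.br (nat_lit 12) (.br (nat_lit 17) (.br (nat_lit 22) (.far (nat_lit 193) (nat_lit 161)) (.dom (nat_lit 268))) 
  (.br (nat_lit 13) (.far (nat_lit 417) (nat_lit 33)) 
  (.br (nat_lit 2) (.br (nat_lit 19) (.br (nat_lit 20) (.br (nat_lit 5) (.br (nat_lit 24) (.br (nat_lit 4) (.br (nat_lit 14) (.br (nat_lit 22) (.br (nat_lit 25) (.far (nat_lit 417) (nat_lit 129)) (.br (nat_lit 9) (.far (nat_lit 225) (nat_lit 33)) (.dom (nat_lit 573)))) 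
  (.dom (nat_lit 268))) 
  (.dom (nat_lit 270))) 
  (.dom (nat_lit 272))) 
  (.dom (nat_lit 128))) 
  (.dom (nat_lit 131))) 
  (.dom (nat_lit 134))) 
  (.dom (nat_lit 281))) 
  (.dom (nat_lit 122))))) 
  (.br (nat_lit 20) (.br (nat_lit 17) (.far (nat_lit 65) (nat_lit 161)) 
  (.br (nat_lit 2) (.br (nat_lit 19) (.br (nat_lit 25) (.br (nat_lit 5) (.far (nat_lit 417) (nat_lit 129)) (.dom (nat_lit 14))) (.dom (nat_lit 180))) 
  (.dom (nat_lit 266))) 
  (.dom (nat_lit 267)))) 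
  (.dom (nat_lit 93)))) 
  (.br (nat_lit 25) (.br (nat_lit 20) (.br (nat_lit 5) (.br (nat_lit 22) (.br (nat_lit 24) (.br (nat_lit 19) (.br (nat_lit 2) (.far (nat_lit 417) (nat_lit 129)) 
  (.br (nat_lit 17) (.far (nat_lit 417) (nat_lit 1)) (.br (nat_lit 13) (.far (nat_lit 513) (nat_lit 161)) (.dom (nat_lit 122))))) 
  (.br (nat_lit 13) (.far (nat_lit 513) (nat_lit 161)) (.dom (nat_lit 281)))) 
  (.dom (nat_lit 271))) 
  (.dom (nat_lit 268))) 
  (.dom (nat_lit 274))) 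
  (.br (nat_lit 4) (.br (nat_lit 13) (.br (nat_lit 12) (.br (nat_lit 11) (.br (nat_lit 14) (.br (nat_lit 21) (.far (nat_lit 0) (nat_lit 231459)) (.dom (nat_lit 97))) (.dom (nat_lit 100))) 
  (.dom (nat_lit 280))) 
  (.dom (nat_lit 93))) 
  (.dom (nat_lit 134))) 
  (.dom (nat_lit 105)))) 
  (.dom (nat_lit 176))))) 
  (.br (nat_lit 19) (.br (nat_lit 20) (.br (nat_lit 25) (.br (nat_lit 2) (.br (nat_lit 24) (.br (nat_lit 5) (.far (nat_lit 417) (nat_lit 129)) (.br (nat_lit 17) (.far (nat_lit 13378) (nat_lit 4098)) (.dom (nat_lit 35)))) 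
  (.dom (nat_lit 275))) 
  (.br (nat_lit 22) (.br (nat_lit 17) (.far (nat_lit 417) (nat_lit 1)) 
  (.br (nat_lit 5) (.br (nat_lit 24) (.br (nat_lit 14) (.br (nat_lit 21) (.far (nat_lit 0) (nat_lit 133123)) (.dom (nat_lit 22))) (.dom (nat_lit 25))) 
  (.dom (nat_lit 275))) 
  (.dom (nat_lit 35)))) 
  (.dom (nat_lit 20)))) 
  (.dom (nat_lit 187))) 
  (.br (nat_lit 14) (.br (nat_lit 21) (.br (nat_lit 11) (.br (nat_lit 24) (.br (nat_lit 13) (.br (nat_lit 25) (.br (nat_lit 3) (.br (nat_lit 4) (.br (nat_lit 5) (.far (nat_lit 513) (nat_lit 65)) 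
  (.br (nat_lit 22) (.br (nat_lit 17) (.br (nat_lit 7) (.br (nat_lit 12) (.far (nat_lit 321) (nat_lit 65)) (.br (nat_lit 16) (.far (nat_lit 193) (nat_lit 1)) (.dom (nat_lit 390)))) 
  (.dom (nat_lit 274))) 
  (.dom (nat_lit 35))) 
  (.dom (nat_lit 37)))) 
  (.br (nat_lit 12) (.br (nat_lit 7) (.br (nat_lit 17) (.br (nat_lit 22) (.far (nat_lit 321) (nat_lit 65)) (.br (nat_lit 9) (.far (nat_lit 225) (nat_lit 33)) (.dom (nat_lit 383)))) 
  (.dom (nat_lit 272))) 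
  (.dom (nat_lit 105))) 
  (.dom (nat_lit 106)))) 
  (.dom (nat_lit 116))) 
  (.dom (nat_lit 187))) 
  (.dom (nat_lit 134))) 
  (.dom (nat_lit 275))) 
  (.dom (nat_lit 280))) 
  (.dom (nat_lit 117))) 
  (.dom (nat_lit 118)))) 
  (.dom (nat_lit 592)))) 
  (.dom (nat_lit 276))) 
  (.dom (nat_lit 278)))) 
  (.dom (nat_lit 283)))) 
  (.dom (nat_lit 282))))

/-- search tree -/
def gp566B14 : BB := (.br (nat_lit 2) (.br (nat_lit 9) (.br (nat_lit 10) (.br (nat_lit 24) (.br (nat_lit 5) (.far (nat_lit 33) (nat_lit 129)) (.br (nat_lit 17) (.far (nat_lit 7234) (nat_lit 4098)) (.dom (nat_lit 273)))) 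
  (.br (nat_lit 8) (.br (nat_lit 1) (.br (nat_lit 5) (.br (nat_lit 15) (.far (nat_lit 417) (nat_lit 129)) 
  (.br (nat_lit 16) (.br (nat_lit 18) (.far (nat_lit 65) (nat_lit 193)) (.br (nat_lit 0) (.far (nat_lit 65) (nat_lit 321)) (.dom (nat_lit 172)))) 
  (.dom (nat_lit 283)))) 
  (.br (nat_lit 17) (.br (nat_lit 18) (.far (nat_lit 65) (nat_lit 193)) (.br (nat_lit 7) (.far (nat_lit 334915) (nat_lit 0)) (.dom (nat_lit 65)))) 
  (.dom (nat_lit 273)))) 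
  (.br (nat_lit 7) (.br (nat_lit 17) (.far (nat_lit 334915) (nat_lit 0)) (.br (nat_lit 15) (.far (nat_lit 13378) (nat_lit 4130)) (.dom (nat_lit 166)))) 
  (.dom (nat_lit 271)))) 
  (.dom (nat_lit 275)))) 
  (.br (nat_lit 21) (.br (nat_lit 16) (.br (nat_lit 24) (.far (nat_lit 161) (nat_lit 1)) 
  (.br (nat_lit 8) (.br (nat_lit 1) (.br (nat_lit 18) (.br (nat_lit 17) (.br (nat_lit 0) (.far (nat_lit 2082) (nat_lit 0)) (.br (nat_lit 23) (.far (nat_lit 13378) (nat_lit 7170)) (.dom (nat_lit 154)))) 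
  (.br (nat_lit 4) (.br (nat_lit 5) (.far (nat_lit 513) (nat_lit 321)) (.dom (nat_lit 273))) (.dom (nat_lit 84)))) 
  (.br (nat_lit 3) (.br (nat_lit 14) (.br (nat_lit 0) (.far (nat_lit 193) (nat_lit 321)) 
  (.br (nat_lit 11) (.br (nat_lit 15) (.br (nat_lit 23) (.br (nat_lit 5) (.br (nat_lit 4) (.br (nat_lit 0) (.far (nat_lit 0) (nat_lit 337987)) 
  (.br (nat_lit 13) (.far (nat_lit 0) (nat_lit 333891)) (.br (nat_lit 24) (.far (nat_lit 161) (nat_lit 1)) (.dom (nat_lit 437))))) 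
  (.br (nat_lit 17) (.br (nat_lit 24) (.far (nat_lit 193) (nat_lit 129)) 
  (.br (nat_lit 7) (.br (nat_lit 0) (.far (nat_lit 65) (nat_lit 513)) 
  (.br (nat_lit 13) (.br (nat_lit 6) (.far (nat_lit 0) (nat_lit 433187)) 
  (.br (nat_lit 10) (.far (nat_lit 417) (nat_lit 129)) 
  (.br (nat_lit 22) (.br (nat_lit 0) (.far (nat_lit 33) (nat_lit 513)) 
  (.br (nat_lit 12) (.far (nat_lit 193) (nat_lit 161)) 
  (.br (nat_lit 18) (.far (nat_lit 417) (nat_lit 1)) (.br (nat_lit 24) (.far (nat_lit 225) (nat_lit 1)) (.dom (nat_lit 581)))))) 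
  (.dom (nat_lit 205))))) 
  (.dom (nat_lit 437)))) 
  (.dom (nat_lit 353)))) 
  (.dom (nat_lit 84)))) 
  (.br (nat_lit 17) (.br (nat_lit 7) (.br (nat_lit 6) (.far (nat_lit 193) (nat_lit 225)) 
  (.br (nat_lit 22) (.br (nat_lit 0) (.far (nat_lit 33) (nat_lit 513)) 
  (.br (nat_lit 24) (.far (nat_lit 225) (nat_lit 1)) 
  (.br (nat_lit 13) (.br (nat_lit 12) (.far (nat_lit 193) (nat_lit 161)) (.br (nat_lit 18) (.far (nat_lit 417) (nat_lit 1)) (.dom (nat_lit 202)))) 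
  (.dom (nat_lit 437))))) 
  (.dom (nat_lit 360)))) 
  (.dom (nat_lit 65))) 
  (.dom (nat_lit 273)))) 
  (.dom (nat_lit 154))) 
  (.dom (nat_lit 172))) 
  (.dom (nat_lit 92)))) 
  (.dom (nat_lit 277))) 
  (.dom (nat_lit 91)))) 
  (.br (nat_lit 17) (.br (nat_lit 7) (.br (nat_lit 22) (.br (nat_lit 18) (.far (nat_lit 6210) (nat_lit 5122)) 
  (.br (nat_lit 3) (.br (nat_lit 14) (.br (nat_lit 0) (.far (nat_lit 193) (nat_lit 321)) 
  (.br (nat_lit 11) (.br (nat_lit 15) (.br (nat_lit 23) (.br (nat_lit 24) (.far (nat_lit 225) (nat_lit 1)) (.br (nat_lit 12) (.far (nat_lit 193) (nat_lit 161)) (.dom (nat_lit 346)))) 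
  (.dom (nat_lit 154))) 
  (.dom (nat_lit 172))) 
  (.dom (nat_lit 92)))) 
  (.dom (nat_lit 277))) 
  (.dom (nat_lit 91)))) 
  (.dom (nat_lit 76))) 
  (.dom (nat_lit 271))) 
  (.br (nat_lit 3) (.br (nat_lit 14) (.br (nat_lit 5) (.br (nat_lit 11) (.br (nat_lit 15) (.br (nat_lit 4) (.br (nat_lit 7) (.br (nat_lit 22) (.br (nat_lit 0) (.br (nat_lit 1) (.far (nat_lit 0) (nat_lit 337987)) 
  (.br (nat_lit 12) (.far (nat_lit 0) (nat_lit 534595)) (.br (nat_lit 24) (.far (nat_lit 161) (nat_lit 1)) (.dom (nat_lit 332))))) 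
  (.br (nat_lit 23) (.br (nat_lit 24) (.far (nat_lit 161) (nat_lit 65)) 
  (.br (nat_lit 13) (.br (nat_lit 12) (.far (nat_lit 417) (nat_lit 65)) (.br (nat_lit 1) (.far (nat_lit 513) (nat_lit 321)) (.dom (nat_lit 332)))) 
  (.dom (nat_lit 434)))) 
  (.dom (nat_lit 154)))) 
  (.dom (nat_lit 76))) 
  (.dom (nat_lit 271))) 
  (.dom (nat_lit 84))) 
  (.dom (nat_lit 166))) 
  (.dom (nat_lit 77))) 
  (.dom (nat_lit 273))) 
  (.dom (nat_lit 270))) 
  (.dom (nat_lit 74))))) 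
  (.dom (nat_lit 275)))) 
  (.br (nat_lit 3) (.br (nat_lit 15) (.br (nat_lit 5) (.br (nat_lit 24) (.far (nat_lit 33) (nat_lit 129)) 
  (.br (nat_lit 8) (.br (nat_lit 1) (.br (nat_lit 0) (.far (nat_lit 225) (nat_lit 321)) 
  (.br (nat_lit 23) (.br (nat_lit 13) (.br (nat_lit 4) (.far (nat_lit 0) (nat_lit 333891)) 
  (.br (nat_lit 17) (.br (nat_lit 7) (.br (nat_lit 18) (.br (nat_lit 10) (.far (nat_lit 417) (nat_lit 129)) (.br (nat_lit 22) (.far (nat_lit 417) (nat_lit 1)) (.dom (nat_lit 366)))) 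
  (.br (nat_lit 14) (.br (nat_lit 11) (.br (nat_lit 10) (.far (nat_lit 417) (nat_lit 129)) 
  (.br (nat_lit 22) (.br (nat_lit 12) (.far (nat_lit 193) (nat_lit 161)) 
  (.br (nat_lit 16) (.br (nat_lit 0) (.far (nat_lit 225) (nat_lit 321)) (.br (nat_lit 24) (.far (nat_lit 225) (nat_lit 1)) (.dom (nat_lit 204)))) 
  (.dom (nat_lit 365)))) 
  (.dom (nat_lit 366)))) 
  (.dom (nat_lit 92))) 
  (.dom (nat_lit 277)))) 
  (.dom (nat_lit 85))) 
  (.dom (nat_lit 84)))) 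
  (.dom (nat_lit 133))) 
  (.dom (nat_lit 154)))) 
  (.br (nat_lit 22) (.br (nat_lit 7) (.br (nat_lit 12) (.br (nat_lit 17) (.far (nat_lit 193) (nat_lit 161)) 
  (.br (nat_lit 14) (.br (nat_lit 11) (.br (nat_lit 4) (.br (nat_lit 0) (.far (nat_lit 225) (nat_lit 321)) (.br (nat_lit 13) (.far (nat_lit 1) (nat_lit 65)) (.dom (nat_lit 133)))) 
  (.dom (nat_lit 84))) 
  (.dom (nat_lit 77))) 
  (.dom (nat_lit 270)))) 
  (.dom (nat_lit 75))) 
  (.dom (nat_lit 271))) 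
  (.dom (nat_lit 76)))) 
  (.dom (nat_lit 275)))) 
  (.br (nat_lit 17) (.br (nat_lit 7) (.br (nat_lit 22) (.br (nat_lit 24) (.far (nat_lit 225) (nat_lit 1)) 
  (.br (nat_lit 8) (.br (nat_lit 0) (.far (nat_lit 65) (nat_lit 513)) 
  (.br (nat_lit 23) (.br (nat_lit 13) (.br (nat_lit 12) (.far (nat_lit 193) (nat_lit 161)) (.br (nat_lit 18) (.far (nat_lit 417) (nat_lit 1)) (.dom (nat_lit 359)))) 
  (.dom (nat_lit 133))) 
  (.dom (nat_lit 154)))) 
  (.dom (nat_lit 275)))) 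
  (.dom (nat_lit 87))) 
  (.dom (nat_lit 274))) 
  (.dom (nat_lit 273)))) 
  (.dom (nat_lit 283))) 
  (.dom (nat_lit 278)))) 
  (.dom (nat_lit 279)))) 
  (.br (nat_lit 23) (.br (nat_lit 17) (.br (nat_lit 18) (.br (nat_lit 16) (.br (nat_lit 1) (.far (nat_lit 2082) (nat_lit 6146)) (.br (nat_lit 22) (.far (nat_lit 417) (nat_lit 1)) (.dom (nat_lit 268)))) 
  (.br (nat_lit 15) (.br (nat_lit 10) (.far (nat_lit 13378) (nat_lit 4098)) 
  (.br (nat_lit 3) (.br (nat_lit 21) (.br (nat_lit 22) (.far (nat_lit 417) (nat_lit 1)) 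
  (.br (nat_lit 1) (.br (nat_lit 5) (.br (nat_lit 4) (.far (nat_lit 513) (nat_lit 321)) (.dom (nat_lit 80))) (.dom (nat_lit 87))) 
  (.dom (nat_lit 268)))) 
  (.dom (nat_lit 279))) 
  (.dom (nat_lit 278)))) 
  (.dom (nat_lit 283)))) 
  (.br (nat_lit 3) (.br (nat_lit 14) (.br (nat_lit 24) (.br (nat_lit 22) (.far (nat_lit 225) (nat_lit 1)) (.br (nat_lit 5) (.far (nat_lit 33) (nat_lit 129)) (.dom (nat_lit 61)))) 
  (.br (nat_lit 8) (.br (nat_lit 7) (.br (nat_lit 0) (.far (nat_lit 7234) (nat_lit 16706)) 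
  (.br (nat_lit 15) (.br (nat_lit 13) (.br (nat_lit 10) (.br (nat_lit 22) (.br (nat_lit 12) (.far (nat_lit 417) (nat_lit 33)) 
  (.br (nat_lit 1) (.br (nat_lit 5) (.far (nat_lit 417) (nat_lit 129)) (.br (nat_lit 18) (.far (nat_lit 417) (nat_lit 1)) (.dom (nat_lit 327)))) 
  (.dom (nat_lit 52)))) 
  (.br (nat_lit 1) (.br (nat_lit 5) (.far (nat_lit 417) (nat_lit 129)) (.dom (nat_lit 61))) (.dom (nat_lit 268)))) 
  (.br (nat_lit 22) (.br (nat_lit 21) (.br (nat_lit 11) (.br (nat_lit 12) (.far (nat_lit 0) (nat_lit 526371)) 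
  (.br (nat_lit 1) (.br (nat_lit 16) (.br (nat_lit 18) (.far (nat_lit 417) (nat_lit 1)) 
  (.br (nat_lit 5) (.br (nat_lit 4) (.far (nat_lit 513) (nat_lit 321)) 
  (.br (nat_lit 9) (.br (nat_lit 0) (.far (nat_lit 225) (nat_lit 321)) (.br (nat_lit 24) (.far (nat_lit 225) (nat_lit 1)) (.dom (nat_lit 199)))) 
  (.dom (nat_lit 323)))) 
  (.dom (nat_lit 327)))) 
  (.br (nat_lit 5) (.br (nat_lit 4) (.far (nat_lit 513) (nat_lit 321)) (.dom (nat_lit 350))) (.dom (nat_lit 59)))) 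
  (.dom (nat_lit 52)))) 
  (.dom (nat_lit 92))) 
  (.dom (nat_lit 279))) 
  (.br (nat_lit 1) (.br (nat_lit 5) (.br (nat_lit 4) (.far (nat_lit 513) (nat_lit 321)) (.dom (nat_lit 352))) (.dom (nat_lit 61))) 
  (.dom (nat_lit 268))))) 
  (.dom (nat_lit 132))) 
  (.dom (nat_lit 172)))) 
  (.br (nat_lit 5) (.br (nat_lit 1) (.br (nat_lit 4) (.far (nat_lit 513) (nat_lit 321)) (.dom (nat_lit 57))) (.dom (nat_lit 271))) 
  (.dom (nat_lit 65)))) 
  (.dom (nat_lit 275)))) 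
  (.dom (nat_lit 277))) 
  (.dom (nat_lit 276)))) 
  (.br (nat_lit 5) (.br (nat_lit 4) (.br (nat_lit 1) (.far (nat_lit 513) (nat_lit 321)) 
  (.br (nat_lit 24) (.far (nat_lit 33) (nat_lit 129)) 
  (.br (nat_lit 15) (.br (nat_lit 10) (.far (nat_lit 417) (nat_lit 129)) 
  (.br (nat_lit 3) (.br (nat_lit 22) (.br (nat_lit 14) (.br (nat_lit 13) (.br (nat_lit 11) (.br (nat_lit 7) (.br (nat_lit 8) (.br (nat_lit 21) (.br (nat_lit 12) (.far (nat_lit 417) (nat_lit 65)) (.br (nat_lit 1) (.far (nat_lit 513) (nat_lit 321)) (.dom (nat_lit 6)))) 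
  (.dom (nat_lit 279))) 
  (.dom (nat_lit 275))) 
  (.dom (nat_lit 271))) 
  (.dom (nat_lit 77))) 
  (.dom (nat_lit 128))) 
  (.dom (nat_lit 270))) 
  (.dom (nat_lit 268))) 
  (.dom (nat_lit 74)))) 
  (.dom (nat_lit 166))))) 
  (.dom (nat_lit 272))) 
  (.dom (nat_lit 273)))) 
  (.dom (nat_lit 282)))) 
  (.br (nat_lit 22) (.br (nat_lit 17) (.br (nat_lit 16) (.br (nat_lit 24) (.far (nat_lit 225) (nat_lit 1)) 
  (.br (nat_lit 18) (.br (nat_lit 8) (.br (nat_lit 7) (.far (nat_lit 6210) (nat_lit 5122)) (.br (nat_lit 23) (.far (nat_lit 417) (nat_lit 1)) (.dom (nat_lit 148)))) 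
  (.dom (nat_lit 275))) 
  (.br (nat_lit 7) (.br (nat_lit 12) (.far (nat_lit 193) (nat_lit 161)) (.dom (nat_lit 53))) 
  (.br (nat_lit 3) (.br (nat_lit 21) (.br (nat_lit 23) (.br (nat_lit 12) (.br (nat_lit 11) (.br (nat_lit 1) (.br (nat_lit 5) (.br (nat_lit 8) (.br (nat_lit 14) (.br (nat_lit 0) (.br (nat_lit 4) (.far (nat_lit 0) (nat_lit 534595)) 
  (.br (nat_lit 9) (.br (nat_lit 7) (.far (nat_lit 0) (nat_lit 513)) (.br (nat_lit 24) (.far (nat_lit 225) (nat_lit 1)) (.dom (nat_lit 312)))) 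
  (.dom (nat_lit 57)))) 
  (.br (nat_lit 15) (.br (nat_lit 13) (.br (nat_lit 4) (.far (nat_lit 417) (nat_lit 65)) 
  (.br (nat_lit 9) (.br (nat_lit 24) (.far (nat_lit 225) (nat_lit 1)) (.br (nat_lit 7) (.far (nat_lit 193) (nat_lit 161)) (.dom (nat_lit 312)))) 
  (.dom (nat_lit 57)))) 
  (.br (nat_lit 9) (.br (nat_lit 24) (.far (nat_lit 225) (nat_lit 1)) (.dom (nat_lit 429))) (.dom (nat_lit 132)))) 
  (.dom (nat_lit 172)))) 
  (.dom (nat_lit 277))) 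
  (.dom (nat_lit 275))) 
  (.dom (nat_lit 65))) 
  (.dom (nat_lit 271))) 
  (.dom (nat_lit 54))) 
  (.dom (nat_lit 53))) 
  (.dom (nat_lit 148))) 
  (.dom (nat_lit 590))) 
  (.dom (nat_lit 51)))))) 
  (.br (nat_lit 12) (.br (nat_lit 15) (.br (nat_lit 7) (.far (nat_lit 193) (nat_lit 161)) 
  (.br (nat_lit 24) (.far (nat_lit 225) (nat_lit 1)) 
  (.br (nat_lit 23) (.br (nat_lit 18) (.far (nat_lit 417) (nat_lit 1)) 
  (.br (nat_lit 3) (.br (nat_lit 5) (.br (nat_lit 21) (.br (nat_lit 13) (.br (nat_lit 11) (.br (nat_lit 1) (.br (nat_lit 8) (.br (nat_lit 14) (.br (nat_lit 4) (.far (nat_lit 417) (nat_lit 65)) (.br (nat_lit 7) (.far (nat_lit 193) (nat_lit 161)) (.dom (nat_lit 13)))) 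
  (.dom (nat_lit 277))) 
  (.dom (nat_lit 275))) 
  (.dom (nat_lit 271))) 
  (.dom (nat_lit 54))) 
  (.dom (nat_lit 130))) 
  (.dom (nat_lit 590))) 
  (.dom (nat_lit 274))) 
  (.dom (nat_lit 51)))) 
  (.dom (nat_lit 148))))) 
  (.dom (nat_lit 283))) 
  (.dom (nat_lit 267)))) 
  (.br (nat_lit 24) (.br (nat_lit 5) (.br (nat_lit 14) (.br (nat_lit 21) (.br (nat_lit 11) (.br (nat_lit 9) (.br (nat_lit 16) (.far (nat_lit 0) (nat_lit 430083)) (.br (nat_lit 15) (.far (nat_lit 0) (nat_lit 430147)) (.dom (nat_lit 283)))) 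
  (.br (nat_lit 23) (.br (nat_lit 4) (.br (nat_lit 16) (.far (nat_lit 0) (nat_lit 428035)) (.br (nat_lit 15) (.far (nat_lit 0) (nat_lit 133123)) (.dom (nat_lit 283)))) 
  (.dom (nat_lit 272))) 
  (.dom (nat_lit 282)))) 
  (.dom (nat_lit 269))) 
  (.br (nat_lit 15) (.br (nat_lit 10) (.br (nat_lit 9) (.far (nat_lit 321) (nat_lit 129)) 
  (.br (nat_lit 23) (.br (nat_lit 13) (.br (nat_lit 12) (.far (nat_lit 0) (nat_lit 168003)) 
  (.br (nat_lit 18) (.br (nat_lit 2) (.far (nat_lit 417) (nat_lit 129)) (.dom (nat_lit 3))) (.dom (nat_lit 47)))) 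
  (.dom (nat_lit 126))) 
  (.dom (nat_lit 282)))) 
  (.dom (nat_lit 279))) 
  (.dom (nat_lit 165)))) 
  (.br (nat_lit 23) (.br (nat_lit 18) (.br (nat_lit 21) (.br (nat_lit 16) (.far (nat_lit 513) (nat_lit 1)) 
  (.br (nat_lit 15) (.br (nat_lit 13) (.br (nat_lit 4) (.far (nat_lit 0) (nat_lit 198659)) 
  (.br (nat_lit 10) (.br (nat_lit 17) (.far (nat_lit 417) (nat_lit 1)) (.dom (nat_lit 10))) (.dom (nat_lit 83)))) 
  (.dom (nat_lit 127))) 
  (.dom (nat_lit 283)))) 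
  (.br (nat_lit 15) (.br (nat_lit 10) (.br (nat_lit 8) (.br (nat_lit 1) (.br (nat_lit 7) (.br (nat_lit 11) (.br (nat_lit 13) (.far (nat_lit 513) (nat_lit 161)) 
  (.br (nat_lit 9) (.br (nat_lit 16) (.br (nat_lit 2) (.far (nat_lit 417) (nat_lit 129)) (.br (nat_lit 17) (.far (nat_lit 417) (nat_lit 1)) (.dom (nat_lit 419)))) 
  (.dom (nat_lit 127))) 
  (.dom (nat_lit 126)))) 
  (.dom (nat_lit 269))) 
  (.dom (nat_lit 590))) 
  (.dom (nat_lit 270))) 
  (.dom (nat_lit 28))) 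
  (.dom (nat_lit 279))) 
  (.dom (nat_lit 165)))) 
  (.dom (nat_lit 277))) 
  (.dom (nat_lit 146)))) 
  (.dom (nat_lit 273))) 
  (.br (nat_lit 7) (.br (nat_lit 8) (.br (nat_lit 13) (.br (nat_lit 11) (.br (nat_lit 5) (.br (nat_lit 1) (.br (nat_lit 10) (.br (nat_lit 18) (.br (nat_lit 15) (.br (nat_lit 23) (.far (nat_lit 513) (nat_lit 161)) 
  (.br (nat_lit 9) (.br (nat_lit 14) (.br (nat_lit 12) (.far (nat_lit 417) (nat_lit 33)) 
  (.br (nat_lit 16) (.br (nat_lit 2) (.far (nat_lit 65) (nat_lit 129)) (.br (nat_lit 6) (.far (nat_lit 513) (nat_lit 33)) (.dom (nat_lit 462)))) 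
  (.dom (nat_lit 267)))) 
  (.dom (nat_lit 146))) 
  (.dom (nat_lit 282)))) 
  (.br (nat_lit 16) (.br (nat_lit 21) (.br (nat_lit 23) (.br (nat_lit 4) (.far (nat_lit 417) (nat_lit 225)) 
  (.br (nat_lit 9) (.br (nat_lit 17) (.far (nat_lit 129) (nat_lit 1)) (.br (nat_lit 6) (.far (nat_lit 65) (nat_lit 33)) (.dom (nat_lit 504)))) 
  (.dom (nat_lit 272)))) 
  (.br (nat_lit 9) (.br (nat_lit 14) (.br (nat_lit 6) (.far (nat_lit 161) (nat_lit 33)) 
  (.br (nat_lit 0) (.br (nat_lit 2) (.far (nat_lit 65) (nat_lit 321)) 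
  (.br (nat_lit 12) (.br (nat_lit 17) (.far (nat_lit 193) (nat_lit 161)) 
  (.br (nat_lit 4) (.br (nat_lit 3) (.far (nat_lit 193) (nat_lit 321)) (.br (nat_lit 6) (.far (nat_lit 193) (nat_lit 33)) (.dom (nat_lit 251)))) 
  (.dom (nat_lit 504)))) 
  (.dom (nat_lit 462)))) 
  (.dom (nat_lit 531)))) 
  (.dom (nat_lit 146))) 
  (.dom (nat_lit 282)))) 
  (.dom (nat_lit 165))) 
  (.dom (nat_lit 283)))) 
  (.br (nat_lit 14) (.br (nat_lit 12) (.br (nat_lit 15) (.far (nat_lit 417) (nat_lit 33)) 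
  (.br (nat_lit 16) (.br (nat_lit 0) (.br (nat_lit 21) (.br (nat_lit 9) (.br (nat_lit 6) (.far (nat_lit 193) (nat_lit 33)) (.br (nat_lit 3) (.far (nat_lit 193) (nat_lit 321)) (.dom (nat_lit 515)))) 
  (.br (nat_lit 3) (.far (nat_lit 193) (nat_lit 321)) (.dom (nat_lit 276)))) 
  (.dom (nat_lit 165))) 
  (.dom (nat_lit 172))) 
  (.dom (nat_lit 283)))) 
  (.dom (nat_lit 53))) 
  (.dom (nat_lit 277)))) 
  (.br (nat_lit 21) (.br (nat_lit 4) (.br (nat_lit 18) (.br (nat_lit 23) (.far (nat_lit 417) (nat_lit 225)) 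
  (.br (nat_lit 9) (.br (nat_lit 0) (.br (nat_lit 14) (.br (nat_lit 16) (.br (nat_lit 6) (.far (nat_lit 161) (nat_lit 33)) (.br (nat_lit 3) (.far (nat_lit 193) (nat_lit 321)) (.dom (nat_lit 476)))) 
  (.br (nat_lit 3) (.far (nat_lit 193) (nat_lit 321)) (.dom (nat_lit 278)))) 
  (.dom (nat_lit 146))) 
  (.dom (nat_lit 154))) 
  (.dom (nat_lit 282)))) 
  (.br (nat_lit 3) (.br (nat_lit 12) (.br (nat_lit 14) (.br (nat_lit 0) (.far (nat_lit 193) (nat_lit 321)) (.br (nat_lit 15) (.far (nat_lit 1) (nat_lit 65)) (.dom (nat_lit 172)))) 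
  (.dom (nat_lit 277))) 
  (.dom (nat_lit 53))) 
  (.dom (nat_lit 91)))) 
  (.dom (nat_lit 84))) 
  (.dom (nat_lit 279)))) 
  (.br (nat_lit 12) (.br (nat_lit 15) (.br (nat_lit 14) (.br (nat_lit 10) (.far (nat_lit 417) (nat_lit 33)) (.br (nat_lit 3) (.far (nat_lit 0) (nat_lit 526371)) (.dom (nat_lit 74)))) 
  (.dom (nat_lit 270))) 
  (.dom (nat_lit 166))) 
  (.dom (nat_lit 7)))) 
  (.dom (nat_lit 273))) 
  (.dom (nat_lit 269))) 
  (.dom (nat_lit 129))) 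
  (.dom (nat_lit 275))) 
  (.br (nat_lit 1) (.br (nat_lit 4) (.br (nat_lit 21) (.br (nat_lit 23) (.br (nat_lit 18) (.br (nat_lit 16) (.far (nat_lit 33) (nat_lit 225)) 
  (.br (nat_lit 13) (.br (nat_lit 5) (.br (nat_lit 8) (.far (nat_lit 417) (nat_lit 225)) (.dom (nat_lit 275))) (.dom (nat_lit 273))) 
  (.dom (nat_lit 129)))) 
  (.br (nat_lit 3) (.br (nat_lit 5) (.br (nat_lit 11) (.br (nat_lit 13) (.far (nat_lit 0) (nat_lit 334915)) (.dom (nat_lit 129))) (.dom (nat_lit 269))) 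
  (.dom (nat_lit 273))) 
  (.dom (nat_lit 51)))) 
  (.dom (nat_lit 148))) 
  (.dom (nat_lit 590))) 
  (.dom (nat_lit 12))) 
  (.dom (nat_lit 271)))))) 
  (.dom (nat_lit 589))))

/-- search tree -/
def gp566B15 : BB := (.br (nat_lit 14) (.br (nat_lit 21) (.br (nat_lit 9) (.br (nat_lit 5) (.far (nat_lit 6306) (nat_lit 4162)) 
  (.br (nat_lit 17) (.br (nat_lit 16) (.br (nat_lit 22) (.far (nat_lit 193) (nat_lit 1)) 
  (.br (nat_lit 2) (.br (nat_lit 6) (.far (nat_lit 0) (nat_lit 417)) (.dom (nat_lit 114))) (.dom (nat_lit 589)))) 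
  (.br (nat_lit 12) (.br (nat_lit 7) (.br (nat_lit 15) (.br (nat_lit 22) (.far (nat_lit 193) (nat_lit 65)) 
  (.br (nat_lit 2) (.br (nat_lit 6) (.far (nat_lit 193) (nat_lit 33)) (.dom (nat_lit 114))) (.dom (nat_lit 589)))) 
  (.dom (nat_lit 283))) 
  (.dom (nat_lit 274))) 
  (.dom (nat_lit 113)))) 
  (.dom (nat_lit 273)))) 
  (.br (nat_lit 23) (.br (nat_lit 22) (.br (nat_lit 16) (.far (nat_lit 0) (nat_lit 428035)) 
  (.br (nat_lit 15) (.br (nat_lit 5) (.far (nat_lit 7330) (nat_lit 2050)) (.br (nat_lit 12) (.far (nat_lit 193) (nat_lit 65)) (.dom (nat_lit 113)))) 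
  (.dom (nat_lit 283)))) 
  (.br (nat_lit 4) (.br (nat_lit 2) (.br (nat_lit 5) (.far (nat_lit 161) (nat_lit 65)) 
  (.br (nat_lit 16) (.br (nat_lit 1) (.br (nat_lit 6) (.far (nat_lit 193) (nat_lit 225)) (.dom (nat_lit 114))) (.dom (nat_lit 268))) 
  (.br (nat_lit 12) (.br (nat_lit 17) (.br (nat_lit 10) (.br (nat_lit 18) (.br (nat_lit 1) (.br (nat_lit 6) (.br (nat_lit 7) (.br (nat_lit 8) (.br (nat_lit 15) (.br (nat_lit 0) (.far (nat_lit 129) (nat_lit 321)) (.br (nat_lit 13) (.far (nat_lit 417) (nat_lit 33)) (.dom (nat_lit 448)))) 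
  (.dom (nat_lit 283))) 
  (.dom (nat_lit 37))) 
  (.dom (nat_lit 274))) 
  (.dom (nat_lit 114))) 
  (.dom (nat_lit 268))) 
  (.dom (nat_lit 61))) 
  (.dom (nat_lit 87))) 
  (.dom (nat_lit 273))) 
  (.dom (nat_lit 113))))) 
  (.dom (nat_lit 589))) 
  (.dom (nat_lit 108)))) 
  (.dom (nat_lit 282)))) 
  (.br (nat_lit 10) (.br (nat_lit 2) (.br (nat_lit 9) (.br (nat_lit 5) (.br (nat_lit 15) (.far (nat_lit 1) (nat_lit 129)) (.br (nat_lit 0) (.far (nat_lit 225) (nat_lit 321)) (.dom (nat_lit 173)))) 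
  (.br (nat_lit 7) (.br (nat_lit 17) (.br (nat_lit 15) (.br (nat_lit 6) (.far (nat_lit 6210) (nat_lit 4130)) 
  (.br (nat_lit 22) (.br (nat_lit 12) (.far (nat_lit 225) (nat_lit 33)) 
  (.br (nat_lit 16) (.br (nat_lit 0) (.far (nat_lit 65) (nat_lit 513)) (.br (nat_lit 20) (.far (nat_lit 225) (nat_lit 1)) (.dom (nat_lit 412)))) 
  (.dom (nat_lit 113)))) 
  (.dom (nat_lit 114)))) 
  (.br (nat_lit 16) (.br (nat_lit 0) (.far (nat_lit 193) (nat_lit 321)) (.dom (nat_lit 173))) (.dom (nat_lit 283)))) 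
  (.dom (nat_lit 273))) 
  (.dom (nat_lit 115)))) 
  (.br (nat_lit 5) (.br (nat_lit 23) (.br (nat_lit 4) (.br (nat_lit 15) (.far (nat_lit 0) (nat_lit 331843)) (.br (nat_lit 0) (.far (nat_lit 225) (nat_lit 321)) (.dom (nat_lit 173)))) 
  (.br (nat_lit 22) (.br (nat_lit 17) (.br (nat_lit 7) (.br (nat_lit 0) (.far (nat_lit 225) (nat_lit 321)) 
  (.br (nat_lit 15) (.br (nat_lit 13) (.br (nat_lit 12) (.far (nat_lit 225) (nat_lit 65)) (.br (nat_lit 20) (.far (nat_lit 225) (nat_lit 1)) (.dom (nat_lit 407)))) 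
  (.dom (nat_lit 135))) 
  (.dom (nat_lit 173)))) 
  (.dom (nat_lit 109))) 
  (.dom (nat_lit 272))) 
  (.dom (nat_lit 108)))) 
  (.dom (nat_lit 282))) 
  (.br (nat_lit 7) (.br (nat_lit 17) (.br (nat_lit 22) (.br (nat_lit 23) (.br (nat_lit 12) (.far (nat_lit 193) (nat_lit 161)) 
  (.br (nat_lit 16) (.br (nat_lit 0) (.far (nat_lit 65) (nat_lit 513)) 
  (.br (nat_lit 18) (.br (nat_lit 15) (.br (nat_lit 1) (.br (nat_lit 13) (.br (nat_lit 20) (.far (nat_lit 417) (nat_lit 1)) 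
  (.br (nat_lit 4) (.br (nat_lit 6) (.br (nat_lit 0) (.far (nat_lit 129) (nat_lit 321)) 
  (.br (nat_lit 8) (.far (nat_lit 417) (nat_lit 225)) (.br (nat_lit 21) (.far (nat_lit 193) (nat_lit 1)) (.dom (nat_lit 220))))) 
  (.dom (nat_lit 412))) 
  (.dom (nat_lit 407)))) 
  (.dom (nat_lit 135))) 
  (.dom (nat_lit 98))) 
  (.dom (nat_lit 173))) 
  (.dom (nat_lit 399)))) 
  (.dom (nat_lit 113)))) 
  (.dom (nat_lit 282))) 
  (.br (nat_lit 1) (.br (nat_lit 18) (.br (nat_lit 4) (.br (nat_lit 6) (.br (nat_lit 23) (.br (nat_lit 0) (.far (nat_lit 129) (nat_lit 321)) 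
  (.br (nat_lit 8) (.br (nat_lit 13) (.far (nat_lit 417) (nat_lit 225)) (.dom (nat_lit 135))) (.dom (nat_lit 393)))) 
  (.dom (nat_lit 282))) 
  (.dom (nat_lit 114))) 
  (.dom (nat_lit 108))) 
  (.dom (nat_lit 61))) 
  (.dom (nat_lit 268)))) 
  (.dom (nat_lit 273))) 
  (.dom (nat_lit 115))))) 
  (.br (nat_lit 12) (.br (nat_lit 7) (.br (nat_lit 22) (.br (nat_lit 15) (.br (nat_lit 9) (.far (nat_lit 225) (nat_lit 33)) 
  (.br (nat_lit 23) (.br (nat_lit 17) (.far (nat_lit 193) (nat_lit 161)) (.br (nat_lit 5) (.far (nat_lit 225) (nat_lit 65)) (.dom (nat_lit 273)))) 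
  (.dom (nat_lit 282)))) 
  (.br (nat_lit 17) (.far (nat_lit 193) (nat_lit 161)) (.dom (nat_lit 165)))) 
  (.dom (nat_lit 589))) 
  (.dom (nat_lit 590))) 
  (.dom (nat_lit 99)))) 
  (.dom (nat_lit 279)))) 
  (.br (nat_lit 17) (.br (nat_lit 18) (.br (nat_lit 16) (.br (nat_lit 21) (.br (nat_lit 22) (.br (nat_lit 23) (.far (nat_lit 129) (nat_lit 1)) (.br (nat_lit 0) (.far (nat_lit 193) (nat_lit 321)) (.dom (nat_lit 155)))) 
  (.br (nat_lit 1) (.br (nat_lit 2) (.br (nat_lit 9) (.br (nat_lit 0) (.far (nat_lit 65) (nat_lit 321)) 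
  (.br (nat_lit 23) (.br (nat_lit 6) (.far (nat_lit 0) (nat_lit 433155)) 
  (.br (nat_lit 5) (.br (nat_lit 4) (.far (nat_lit 513) (nat_lit 321)) (.br (nat_lit 20) (.far (nat_lit 513) (nat_lit 1)) (.dom (nat_lit 409)))) 
  (.dom (nat_lit 114)))) 
  (.dom (nat_lit 155)))) 
  (.br (nat_lit 23) (.br (nat_lit 4) (.far (nat_lit 33) (nat_lit 225)) (.dom (nat_lit 108))) (.dom (nat_lit 282)))) 
  (.dom (nat_lit 589))) 
  (.dom (nat_lit 102)))) 
  (.br (nat_lit 10) (.br (nat_lit 0) (.br (nat_lit 7) (.far (nat_lit 65) (nat_lit 513)) (.br (nat_lit 2) (.far (nat_lit 7538724) (nat_lit 321)) (.dom (nat_lit 590)))) 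
  (.br (nat_lit 23) (.br (nat_lit 8) (.br (nat_lit 15) (.br (nat_lit 7) (.br (nat_lit 22) (.br (nat_lit 12) (.br (nat_lit 13) (.far (nat_lit 417) (nat_lit 33)) 
  (.br (nat_lit 9) (.br (nat_lit 0) (.far (nat_lit 0) (nat_lit 513)) (.br (nat_lit 20) (.far (nat_lit 417) (nat_lit 1)) (.dom (nat_lit 449)))) 
  (.dom (nat_lit 135)))) 
  (.br (nat_lit 2) (.br (nat_lit 9) (.br (nat_lit 20) (.far (nat_lit 417) (nat_lit 1)) 
  (.br (nat_lit 1) (.br (nat_lit 0) (.far (nat_lit 65) (nat_lit 321)) 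
  (.br (nat_lit 13) (.br (nat_lit 6) (.far (nat_lit 65) (nat_lit 225)) 
  (.br (nat_lit 5) (.br (nat_lit 4) (.far (nat_lit 417) (nat_lit 225)) (.br (nat_lit 20) (.far (nat_lit 417) (nat_lit 1)) (.dom (nat_lit 221)))) 
  (.dom (nat_lit 412)))) 
  (.dom (nat_lit 449)))) 
  (.dom (nat_lit 406)))) 
  (.br (nat_lit 1) (.br (nat_lit 13) (.br (nat_lit 20) (.far (nat_lit 417) (nat_lit 1)) (.br (nat_lit 4) (.far (nat_lit 417) (nat_lit 225)) (.dom (nat_lit 407)))) 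
  (.dom (nat_lit 135))) 
  (.dom (nat_lit 98)))) 
  (.dom (nat_lit 99)))) 
  (.br (nat_lit 1) (.br (nat_lit 2) (.br (nat_lit 9) (.br (nat_lit 6) (.far (nat_lit 65) (nat_lit 33)) 
  (.br (nat_lit 5) (.br (nat_lit 20) (.far (nat_lit 417) (nat_lit 129)) (.br (nat_lit 4) (.far (nat_lit 513) (nat_lit 321)) (.dom (nat_lit 409)))) 
  (.dom (nat_lit 114)))) 
  (.br (nat_lit 4) (.br (nat_lit 13) (.far (nat_lit 417) (nat_lit 225)) (.dom (nat_lit 135))) (.dom (nat_lit 108)))) 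
  (.dom (nat_lit 589))) 
  (.dom (nat_lit 102)))) 
  (.br (nat_lit 2) (.br (nat_lit 1) (.br (nat_lit 5) (.br (nat_lit 4) (.far (nat_lit 513) (nat_lit 321)) 
  (.br (nat_lit 9) (.br (nat_lit 20) (.far (nat_lit 65) (nat_lit 1)) (.dom (nat_lit 410))) (.dom (nat_lit 109)))) 
  (.dom (nat_lit 115))) 
  (.dom (nat_lit 103))) 
  (.dom (nat_lit 590)))) 
  (.dom (nat_lit 173))) 
  (.dom (nat_lit 119))) 
  (.dom (nat_lit 155)))) 
  (.dom (nat_lit 279)))) 
  (.br (nat_lit 15) (.br (nat_lit 22) (.br (nat_lit 12) (.br (nat_lit 7) (.br (nat_lit 0) (.far (nat_lit 0) (nat_lit 513)) 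
  (.br (nat_lit 23) (.br (nat_lit 13) (.far (nat_lit 0) (nat_lit 529475)) (.dom (nat_lit 136))) (.dom (nat_lit 155)))) 
  (.br (nat_lit 5) (.br (nat_lit 4) (.br (nat_lit 21) (.br (nat_lit 23) (.far (nat_lit 33) (nat_lit 65)) (.br (nat_lit 0) (.far (nat_lit 193) (nat_lit 321)) (.dom (nat_lit 155)))) 
  (.br (nat_lit 2) (.br (nat_lit 10) (.br (nat_lit 1) (.far (nat_lit 513) (nat_lit 321)) (.dom (nat_lit 103))) (.dom (nat_lit 279))) 
  (.dom (nat_lit 590)))) 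
  (.dom (nat_lit 111))) 
  (.dom (nat_lit 274)))) 
  (.br (nat_lit 5) (.br (nat_lit 2) (.br (nat_lit 1) (.br (nat_lit 0) (.far (nat_lit 225) (nat_lit 321)) 
  (.br (nat_lit 23) (.br (nat_lit 13) (.br (nat_lit 4) (.far (nat_lit 513) (nat_lit 321)) (.br (nat_lit 20) (.far (nat_lit 417) (nat_lit 1)) (.dom (nat_lit 408)))) 
  (.dom (nat_lit 136))) 
  (.dom (nat_lit 155)))) 
  (.dom (nat_lit 101))) 
  (.dom (nat_lit 267))) 
  (.dom (nat_lit 113)))) 
  (.br (nat_lit 1) (.br (nat_lit 2) (.br (nat_lit 5) (.br (nat_lit 4) (.far (nat_lit 513) (nat_lit 321)) 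
  (.br (nat_lit 9) (.br (nat_lit 0) (.far (nat_lit 225) (nat_lit 321)) 
  (.br (nat_lit 10) (.br (nat_lit 7) (.br (nat_lit 13) (.br (nat_lit 23) (.br (nat_lit 20) (.far (nat_lit 417) (nat_lit 129)) 
  (.br (nat_lit 12) (.br (nat_lit 6) (.br (nat_lit 8) (.far (nat_lit 417) (nat_lit 33)) 
  (.br (nat_lit 21) (.br (nat_lit 0) (.far (nat_lit 225) (nat_lit 321)) (.br (nat_lit 14) (.far (nat_lit 225) (nat_lit 33)) (.dom (nat_lit 219)))) 
  (.dom (nat_lit 119)))) 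
  (.dom (nat_lit 409))) 
  (.dom (nat_lit 408)))) 
  (.dom (nat_lit 155))) 
  (.dom (nat_lit 136))) 
  (.dom (nat_lit 111))) 
  (.dom (nat_lit 402)))) 
  (.dom (nat_lit 108)))) 
  (.br (nat_lit 7) (.br (nat_lit 10) (.br (nat_lit 12) (.br (nat_lit 0) (.far (nat_lit 65) (nat_lit 321)) 
  (.br (nat_lit 8) (.br (nat_lit 13) (.far (nat_lit 417) (nat_lit 33)) (.dom (nat_lit 136))) (.dom (nat_lit 396)))) 
  (.dom (nat_lit 113))) 
  (.dom (nat_lit 87))) 
  (.dom (nat_lit 274)))) 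
  (.dom (nat_lit 589))) 
  (.dom (nat_lit 102)))) 
  (.dom (nat_lit 283)))) 
  (.dom (nat_lit 277))) 
  (.br (nat_lit 4) (.br (nat_lit 1) (.br (nat_lit 5) (.br (nat_lit 2) (.far (nat_lit 513) (nat_lit 321)) 
  (.br (nat_lit 21) (.br (nat_lit 23) (.br (nat_lit 22) (.far (nat_lit 33) (nat_lit 65)) (.dom (nat_lit 589))) (.dom (nat_lit 146))) 
  (.br (nat_lit 23) (.br (nat_lit 12) (.br (nat_lit 15) (.br (nat_lit 8) (.br (nat_lit 13) (.far (nat_lit 13314) (nat_lit 7234)) (.br (nat_lit 0) (.far (nat_lit 193) (nat_lit 321)) (.dom (nat_lit 443)))) 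
  (.dom (nat_lit 28))) 
  (.dom (nat_lit 165))) 
  (.dom (nat_lit 99))) 
  (.dom (nat_lit 146))))) 
  (.dom (nat_lit 273))) 
  (.dom (nat_lit 270))) 
  (.dom (nat_lit 110)))))

/-- search tree -/
def gp566B16 : BB := (.br (nat_lit 5) (.br (nat_lit 1) (.br (nat_lit 2) (.br (nat_lit 15) (.br (nat_lit 23) (.far (nat_lit 0) (nat_lit 333891)) 
  (.br (nat_lit 9) (.br (nat_lit 10) (.br (nat_lit 14) (.far (nat_lit 1) (nat_lit 129)) 
  (.br (nat_lit 18) (.br (nat_lit 0) (.far (nat_lit 0) (nat_lit 321)) (.br (nat_lit 8) (.far (nat_lit 1) (nat_lit 193)) (.dom (nat_lit 150)))) 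
  (.dom (nat_lit 277)))) 
  (.br (nat_lit 21) (.br (nat_lit 0) (.far (nat_lit 0) (nat_lit 321)) 
  (.br (nat_lit 11) (.br (nat_lit 24) (.br (nat_lit 14) (.far (nat_lit 161) (nat_lit 65)) 
  (.br (nat_lit 8) (.br (nat_lit 16) (.br (nat_lit 18) (.br (nat_lit 20) (.br (nat_lit 0) (.far (nat_lit 0) (nat_lit 321)) (.br (nat_lit 23) (.far (nat_lit 417) (nat_lit 225)) (.dom (nat_lit 490)))) 
  (.dom (nat_lit 155))) 
  (.dom (nat_lit 277))) 
  (.dom (nat_lit 153))) 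
  (.dom (nat_lit 150)))) 
  (.dom (nat_lit 154))) 
  (.dom (nat_lit 152)))) 
  (.dom (nat_lit 279)))) 
  (.dom (nat_lit 282)))) 
  (.br (nat_lit 16) (.br (nat_lit 0) (.far (nat_lit 0) (nat_lit 321)) 
  (.br (nat_lit 23) (.br (nat_lit 18) (.br (nat_lit 21) (.far (nat_lit 33) (nat_lit 225)) (.br (nat_lit 8) (.far (nat_lit 417) (nat_lit 225)) (.dom (nat_lit 168)))) 
  (.br (nat_lit 11) (.br (nat_lit 24) (.br (nat_lit 21) (.far (nat_lit 0) (nat_lit 334915)) 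
  (.br (nat_lit 8) (.br (nat_lit 9) (.br (nat_lit 10) (.br (nat_lit 14) (.br (nat_lit 20) (.br (nat_lit 0) (.far (nat_lit 0) (nat_lit 321)) (.br (nat_lit 15) (.far (nat_lit 417) (nat_lit 129)) (.dom (nat_lit 535)))) 
  (.dom (nat_lit 173))) 
  (.dom (nat_lit 277))) 
  (.dom (nat_lit 279))) 
  (.dom (nat_lit 171))) 
  (.dom (nat_lit 168)))) 
  (.dom (nat_lit 172))) 
  (.dom (nat_lit 170)))) 
  (.dom (nat_lit 174)))) 
  (.dom (nat_lit 283)))) 
  (.br (nat_lit 22) (.br (nat_lit 23) (.br (nat_lit 21) (.br (nat_lit 11) (.far (nat_lit 0) (nat_lit 334915)) 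
  (.br (nat_lit 17) (.br (nat_lit 20) (.br (nat_lit 18) (.far (nat_lit 417) (nat_lit 1)) 
  (.br (nat_lit 12) (.br (nat_lit 14) (.br (nat_lit 24) (.far (nat_lit 33) (nat_lit 65)) (.br (nat_lit 7) (.far (nat_lit 193) (nat_lit 161)) (.dom (nat_lit 54)))) 
  (.dom (nat_lit 277))) 
  (.dom (nat_lit 45)))) 
  (.dom (nat_lit 280))) 
  (.dom (nat_lit 269)))) 
  (.br (nat_lit 12) (.br (nat_lit 7) (.br (nat_lit 10) (.br (nat_lit 15) (.far (nat_lit 417) (nat_lit 65)) (.br (nat_lit 17) (.far (nat_lit 193) (nat_lit 161)) (.dom (nat_lit 165)))) 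
  (.dom (nat_lit 279))) 
  (.dom (nat_lit 590))) 
  (.br (nat_lit 8) (.br (nat_lit 20) (.br (nat_lit 18) (.far (nat_lit 417) (nat_lit 225)) 
  (.br (nat_lit 11) (.br (nat_lit 16) (.br (nat_lit 9) (.br (nat_lit 24) (.br (nat_lit 7) (.br (nat_lit 10) (.br (nat_lit 14) (.br (nat_lit 15) (.br (nat_lit 2) (.far (nat_lit 417) (nat_lit 129)) (.br (nat_lit 12) (.far (nat_lit 417) (nat_lit 33)) (.dom (nat_lit 308)))) 
  (.br (nat_lit 0) (.far (nat_lit 193) (nat_lit 321)) (.dom (nat_lit 514)))) 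
  (.dom (nat_lit 277))) 
  (.dom (nat_lit 279))) 
  (.dom (nat_lit 590))) 
  (.dom (nat_lit 53))) 
  (.dom (nat_lit 47))) 
  (.dom (nat_lit 267))) 
  (.dom (nat_lit 45)))) 
  (.dom (nat_lit 99))) 
  (.dom (nat_lit 23))))) 
  (.br (nat_lit 12) (.br (nat_lit 9) (.br (nat_lit 11) (.br (nat_lit 14) (.br (nat_lit 15) (.far (nat_lit 1) (nat_lit 65)) (.br (nat_lit 0) (.far (nat_lit 193) (nat_lit 321)) (.dom (nat_lit 174)))) 
  (.br (nat_lit 17) (.br (nat_lit 0) (.far (nat_lit 129) (nat_lit 321)) 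
  (.br (nat_lit 15) (.br (nat_lit 8) (.br (nat_lit 7) (.far (nat_lit 193) (nat_lit 161)) 
  (.br (nat_lit 16) (.br (nat_lit 21) (.br (nat_lit 24) (.br (nat_lit 23) (.far (nat_lit 417) (nat_lit 65)) (.dom (nat_lit 489))) (.dom (nat_lit 148))) 
  (.dom (nat_lit 590))) 
  (.dom (nat_lit 147)))) 
  (.dom (nat_lit 150))) 
  (.dom (nat_lit 174)))) 
  (.dom (nat_lit 146)))) 
  (.br (nat_lit 7) (.br (nat_lit 17) (.far (nat_lit 193) (nat_lit 161)) (.dom (nat_lit 269))) (.dom (nat_lit 144)))) 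
  (.dom (nat_lit 282))) 
  (.dom (nat_lit 143)))) 
  (.dom (nat_lit 589)))) 
  (.br (nat_lit 12) (.br (nat_lit 22) (.br (nat_lit 14) (.br (nat_lit 24) (.br (nat_lit 15) (.far (nat_lit 225) (nat_lit 65)) 
  (.br (nat_lit 16) (.br (nat_lit 21) (.br (nat_lit 11) (.far (nat_lit 193) (nat_lit 65)) 
  (.br (nat_lit 17) (.br (nat_lit 20) (.br (nat_lit 23) (.far (nat_lit 33) (nat_lit 65)) (.br (nat_lit 0) (.far (nat_lit 193) (nat_lit 321)) (.dom (nat_lit 174)))) 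
  (.dom (nat_lit 280))) 
  (.dom (nat_lit 162)))) 
  (.br (nat_lit 7) (.br (nat_lit 0) (.far (nat_lit 1) (nat_lit 513)) 
  (.br (nat_lit 23) (.br (nat_lit 20) (.br (nat_lit 17) (.far (nat_lit 193) (nat_lit 161)) 
  (.br (nat_lit 11) (.br (nat_lit 9) (.br (nat_lit 15) (.far (nat_lit 417) (nat_lit 65)) (.dom (nat_lit 534))) (.dom (nat_lit 163))) 
  (.dom (nat_lit 162)))) 
  (.dom (nat_lit 173))) 
  (.dom (nat_lit 174)))) 
  (.dom (nat_lit 164)))) 
  (.dom (nat_lit 283)))) 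
  (.br (nat_lit 7) (.br (nat_lit 8) (.br (nat_lit 15) (.br (nat_lit 10) (.far (nat_lit 417) (nat_lit 33)) 
  (.br (nat_lit 21) (.br (nat_lit 11) (.far (nat_lit 1) (nat_lit 65)) (.br (nat_lit 17) (.far (nat_lit 193) (nat_lit 161)) (.dom (nat_lit 77)))) 
  (.dom (nat_lit 279)))) 
  (.br (nat_lit 17) (.far (nat_lit 193) (nat_lit 161)) (.dom (nat_lit 166)))) 
  (.dom (nat_lit 275))) 
  (.dom (nat_lit 271)))) 
  (.br (nat_lit 17) (.br (nat_lit 18) (.br (nat_lit 23) (.br (nat_lit 24) (.br (nat_lit 21) (.far (nat_lit 33) (nat_lit 65)) 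
  (.br (nat_lit 10) (.br (nat_lit 7) (.far (nat_lit 193) (nat_lit 161)) (.br (nat_lit 15) (.far (nat_lit 417) (nat_lit 65)) (.dom (nat_lit 164)))) 
  (.dom (nat_lit 279)))) 
  (.br (nat_lit 7) (.far (nat_lit 193) (nat_lit 161)) (.dom (nat_lit 271)))) 
  (.br (nat_lit 7) (.far (nat_lit 193) (nat_lit 161)) (.dom (nat_lit 145)))) 
  (.dom (nat_lit 277))) 
  (.dom (nat_lit 270)))) 
  (.br (nat_lit 15) (.br (nat_lit 2) (.br (nat_lit 14) (.br (nat_lit 9) (.br (nat_lit 10) (.far (nat_lit 1) (nat_lit 129)) (.br (nat_lit 24) (.far (nat_lit 0) (nat_lit 331843)) (.dom (nat_lit 76)))) 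
  (.dom (nat_lit 268))) 
  (.br (nat_lit 20) (.br (nat_lit 8) (.br (nat_lit 10) (.far (nat_lit 417) (nat_lit 129)) 
  (.br (nat_lit 24) (.br (nat_lit 9) (.br (nat_lit 11) (.br (nat_lit 16) (.br (nat_lit 17) (.br (nat_lit 18) (.br (nat_lit 21) (.br (nat_lit 23) (.br (nat_lit 1) (.far (nat_lit 417) (nat_lit 225)) 
  (.br (nat_lit 7) (.br (nat_lit 22) (.far (nat_lit 417) (nat_lit 1)) (.dom (nat_lit 330))) (.dom (nat_lit 4)))) 
  (.br (nat_lit 0) (.far (nat_lit 225) (nat_lit 321)) (.dom (nat_lit 475)))) 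
  (.dom (nat_lit 279))) 
  (.dom (nat_lit 277))) 
  (.dom (nat_lit 270))) 
  (.dom (nat_lit 73))) 
  (.dom (nat_lit 68))) 
  (.dom (nat_lit 268))) 
  (.dom (nat_lit 76)))) 
  (.dom (nat_lit 26))) 
  (.dom (nat_lit 102)))) 
  (.dom (nat_lit 589))) 
  (.dom (nat_lit 161)))) 
  (.dom (nat_lit 266)))) 
  (.br (nat_lit 17) (.br (nat_lit 7) (.br (nat_lit 22) (.br (nat_lit 12) (.far (nat_lit 193) (nat_lit 161)) 
  (.br (nat_lit 18) (.br (nat_lit 16) (.br (nat_lit 1) (.br (nat_lit 23) (.br (nat_lit 21) (.far (nat_lit 129) (nat_lit 1)) 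
  (.br (nat_lit 10) (.br (nat_lit 8) (.far (nat_lit 417) (nat_lit 225)) 
  (.br (nat_lit 2) (.br (nat_lit 24) (.br (nat_lit 0) (.far (nat_lit 65) (nat_lit 321)) (.br (nat_lit 20) (.far (nat_lit 417) (nat_lit 1)) (.dom (nat_lit 392)))) 
  (.dom (nat_lit 275))) 
  (.dom (nat_lit 23)))) 
  (.dom (nat_lit 279)))) 
  (.br (nat_lit 2) (.br (nat_lit 9) (.br (nat_lit 0) (.far (nat_lit 65) (nat_lit 321)) 
  (.br (nat_lit 15) (.br (nat_lit 8) (.br (nat_lit 20) (.br (nat_lit 10) (.far (nat_lit 65) (nat_lit 161)) 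
  (.br (nat_lit 11) (.br (nat_lit 21) (.br (nat_lit 24) (.br (nat_lit 0) (.far (nat_lit 200739) (nat_lit 0)) 
  (.br (nat_lit 23) (.far (nat_lit 129) (nat_lit 1)) 
  (.br (nat_lit 14) (.br (nat_lit 6) (.far (nat_lit 161) (nat_lit 33)) (.br (nat_lit 19) (.far (nat_lit 225) (nat_lit 1)) (.dom (nat_lit 239)))) 
  (.dom (nat_lit 490))))) 
  (.dom (nat_lit 154))) 
  (.dom (nat_lit 279))) 
  (.dom (nat_lit 152)))) 
  (.br (nat_lit 11) (.br (nat_lit 6) (.far (nat_lit 65) (nat_lit 225)) (.dom (nat_lit 486))) (.dom (nat_lit 280)))) 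
  (.br (nat_lit 14) (.br (nat_lit 24) (.br (nat_lit 19) (.far (nat_lit 193) (nat_lit 129)) (.dom (nat_lit 469))) (.dom (nat_lit 275))) 
  (.dom (nat_lit 150)))) 
  (.dom (nat_lit 174)))) 
  (.dom (nat_lit 282))) 
  (.dom (nat_lit 143)))) 
  (.dom (nat_lit 266))) 
  (.br (nat_lit 20) (.br (nat_lit 8) (.br (nat_lit 2) (.br (nat_lit 1) (.br (nat_lit 15) (.br (nat_lit 10) (.far (nat_lit 65) (nat_lit 161)) 
  (.br (nat_lit 16) (.br (nat_lit 21) (.br (nat_lit 23) (.far (nat_lit 417) (nat_lit 1)) (.br (nat_lit 0) (.far (nat_lit 193) (nat_lit 321)) (.dom (nat_lit 480)))) 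
  (.dom (nat_lit 279))) 
  (.dom (nat_lit 86)))) 
  (.dom (nat_lit 283))) 
  (.dom (nat_lit 266))) 
  (.dom (nat_lit 267))) 
  (.dom (nat_lit 36))) 
  (.dom (nat_lit 113)))) 
  (.dom (nat_lit 60)))) 
  (.br (nat_lit 8) (.br (nat_lit 2) (.br (nat_lit 1) (.br (nat_lit 18) (.br (nat_lit 10) (.br (nat_lit 20) (.far (nat_lit 65) (nat_lit 161)) (.br (nat_lit 6) (.far (nat_lit 13378) (nat_lit 7202)) (.dom (nat_lit 114)))) 
  (.br (nat_lit 16) (.br (nat_lit 21) (.br (nat_lit 23) (.far (nat_lit 417) (nat_lit 225)) 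
  (.br (nat_lit 0) (.far (nat_lit 193) (nat_lit 321)) (.br (nat_lit 6) (.far (nat_lit 65) (nat_lit 225)) (.dom (nat_lit 481))))) 
  (.dom (nat_lit 279))) 
  (.dom (nat_lit 87)))) 
  (.br (nat_lit 9) (.br (nat_lit 12) (.br (nat_lit 14) (.br (nat_lit 10) (.br (nat_lit 15) (.far (nat_lit 417) (nat_lit 33)) 
  (.br (nat_lit 0) (.far (nat_lit 193) (nat_lit 321)) (.br (nat_lit 6) (.far (nat_lit 65) (nat_lit 33)) (.dom (nat_lit 519))))) 
  (.br (nat_lit 16) (.br (nat_lit 21) (.br (nat_lit 0) (.far (nat_lit 193) (nat_lit 321)) 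
  (.br (nat_lit 11) (.br (nat_lit 6) (.far (nat_lit 193) (nat_lit 33)) 
  (.br (nat_lit 15) (.br (nat_lit 23) (.br (nat_lit 20) (.br (nat_lit 24) (.br (nat_lit 5) (.far (nat_lit 513) (nat_lit 65)) 
  (.br (nat_lit 6) (.far (nat_lit 193) (nat_lit 33)) (.br (nat_lit 22) (.far (nat_lit 321) (nat_lit 65)) (.dom (nat_lit 197))))) 
  (.dom (nat_lit 360))) 
  (.dom (nat_lit 114))) 
  (.dom (nat_lit 481))) 
  (.dom (nat_lit 519)))) 
  (.dom (nat_lit 357)))) 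
  (.dom (nat_lit 279))) 
  (.dom (nat_lit 87)))) 
  (.dom (nat_lit 277))) 
  (.dom (nat_lit 60))) 
  (.dom (nat_lit 61)))) 
  (.br (nat_lit 9) (.br (nat_lit 12) (.br (nat_lit 15) (.br (nat_lit 10) (.far (nat_lit 417) (nat_lit 33)) 
  (.br (nat_lit 11) (.br (nat_lit 16) (.br (nat_lit 24) (.br (nat_lit 21) (.br (nat_lit 14) (.br (nat_lit 6) (.far (nat_lit 193) (nat_lit 33)) (.br (nat_lit 22) (.far (nat_lit 193) (nat_lit 65)) (.dom (nat_lit 337)))) 
  (.br (nat_lit 20) (.br (nat_lit 18) (.br (nat_lit 0) (.far (nat_lit 65) (nat_lit 513)) 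
  (.br (nat_lit 23) (.br (nat_lit 22) (.far (nat_lit 417) (nat_lit 1)) (.br (nat_lit 1) (.far (nat_lit 417) (nat_lit 225)) (.dom (nat_lit 330)))) 
  (.dom (nat_lit 475)))) 
  (.dom (nat_lit 277))) 
  (.dom (nat_lit 102)))) 
  (.dom (nat_lit 279))) 
  (.dom (nat_lit 76))) 
  (.dom (nat_lit 87))) 
  (.dom (nat_lit 68)))) 
  (.dom (nat_lit 161))) 
  (.dom (nat_lit 266))) 
  (.dom (nat_lit 268)))) 
  (.dom (nat_lit 589))) 
  (.dom (nat_lit 38)))) 
  (.br (nat_lit 23) (.br (nat_lit 16) (.br (nat_lit 21) (.br (nat_lit 22) (.br (nat_lit 18) (.far (nat_lit 129) (nat_lit 1)) 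
  (.br (nat_lit 24) (.br (nat_lit 11) (.far (nat_lit 5250) (nat_lit 2050)) (.dom (nat_lit 63))) (.dom (nat_lit 65)))) 
  (.br (nat_lit 1) (.br (nat_lit 18) (.far (nat_lit 33) (nat_lit 225)) 
  (.br (nat_lit 11) (.br (nat_lit 24) (.br (nat_lit 2) (.br (nat_lit 8) (.br (nat_lit 9) (.br (nat_lit 12) (.br (nat_lit 14) (.br (nat_lit 6) (.far (nat_lit 161) (nat_lit 33)) (.br (nat_lit 5) (.far (nat_lit 161) (nat_lit 65)) (.dom (nat_lit 315)))) 
  (.dom (nat_lit 277))) 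
  (.dom (nat_lit 60))) 
  (.dom (nat_lit 61))) 
  (.dom (nat_lit 38))) 
  (.dom (nat_lit 589))) 
  (.dom (nat_lit 65))) 
  (.dom (nat_lit 63)))) 
  (.dom (nat_lit 15)))) 
  (.br (nat_lit 18) (.br (nat_lit 8) (.br (nat_lit 1) (.far (nat_lit 417) (nat_lit 225)) 
  (.br (nat_lit 22) (.br (nat_lit 20) (.far (nat_lit 417) (nat_lit 1)) (.dom (nat_lit 115))) (.dom (nat_lit 15)))) 
  (.dom (nat_lit 41))) 
  (.br (nat_lit 2) (.br (nat_lit 8) (.br (nat_lit 1) (.br (nat_lit 20) (.br (nat_lit 9) (.br (nat_lit 11) (.br (nat_lit 24) (.br (nat_lit 10) (.br (nat_lit 12) (.br (nat_lit 14) (.br (nat_lit 0) (.br (nat_lit 5) (.far (nat_lit 0) (nat_lit 321)) (.br (nat_lit 7) (.far (nat_lit 65) (nat_lit 513)) (.dom (nat_lit 316)))) 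
  (.br (nat_lit 15) (.br (nat_lit 5) (.far (nat_lit 417) (nat_lit 129)) (.br (nat_lit 7) (.far (nat_lit 417) (nat_lit 33)) (.dom (nat_lit 316)))) 
  (.dom (nat_lit 520)))) 
  (.dom (nat_lit 277))) 
  (.dom (nat_lit 60))) 
  (.dom (nat_lit 279))) 
  (.dom (nat_lit 65))) 
  (.dom (nat_lit 63))) 
  (.dom (nat_lit 64))) 
  (.dom (nat_lit 115))) 
  (.br (nat_lit 24) (.br (nat_lit 22) (.br (nat_lit 12) (.br (nat_lit 15) (.br (nat_lit 20) (.br (nat_lit 7) (.far (nat_lit 193) (nat_lit 161)) (.dom (nat_lit 19))) (.dom (nat_lit 115))) 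
  (.dom (nat_lit 164))) 
  (.dom (nat_lit 266))) 
  (.dom (nat_lit 15))) 
  (.dom (nat_lit 271)))) 
  (.dom (nat_lit 41))) 
  (.dom (nat_lit 590))))) 
  (.dom (nat_lit 274))) 
  (.dom (nat_lit 149)))) 
  (.dom (nat_lit 273))))

/-- search tree -/
def gp566B17 : BB := (.br (nat_lit 3) (.br (nat_lit 4) gp566B16 
  (.br (nat_lit 7) (.br (nat_lit 17) (.br (nat_lit 12) (.br (nat_lit 22) (.far (nat_lit 193) (nat_lit 161)) 
  (.br (nat_lit 10) (.br (nat_lit 9) (.br (nat_lit 2) (.br (nat_lit 15) (.br (nat_lit 8) (.far (nat_lit 417) (nat_lit 33)) 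
  (.br (nat_lit 5) (.br (nat_lit 24) (.br (nat_lit 14) (.far (nat_lit 225) (nat_lit 33)) 
  (.br (nat_lit 1) (.br (nat_lit 18) (.br (nat_lit 0) (.far (nat_lit 225) (nat_lit 321)) (.br (nat_lit 20) (.far (nat_lit 417) (nat_lit 129)) (.dom (nat_lit 388)))) 
  (.dom (nat_lit 277))) 
  (.dom (nat_lit 26)))) 
  (.dom (nat_lit 275))) 
  (.dom (nat_lit 38)))) 
  (.br (nat_lit 1) (.br (nat_lit 16) (.br (nat_lit 0) (.far (nat_lit 65) (nat_lit 321)) 
  (.br (nat_lit 8) (.br (nat_lit 23) (.br (nat_lit 20) (.br (nat_lit 18) (.far (nat_lit 65) (nat_lit 161)) 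
  (.br (nat_lit 11) (.br (nat_lit 14) (.br (nat_lit 24) (.br (nat_lit 6) (.far (nat_lit 193) (nat_lit 33)) 
  (.br (nat_lit 5) (.br (nat_lit 0) (.far (nat_lit 225) (nat_lit 321)) 
  (.br (nat_lit 15) (.far (nat_lit 225) (nat_lit 33)) (.br (nat_lit 19) (.far (nat_lit 193) (nat_lit 129)) (.dom (nat_lit 252))))) 
  (.dom (nat_lit 519)))) 
  (.dom (nat_lit 172))) 
  (.dom (nat_lit 277))) 
  (.dom (nat_lit 170)))) 
  (.br (nat_lit 6) (.far (nat_lit 65) (nat_lit 33)) (.dom (nat_lit 525)))) 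
  (.dom (nat_lit 174))) 
  (.br (nat_lit 23) (.br (nat_lit 21) (.br (nat_lit 24) (.br (nat_lit 5) (.br (nat_lit 19) (.far (nat_lit 161) (nat_lit 1)) (.dom (nat_lit 508))) (.dom (nat_lit 38))) 
  (.dom (nat_lit 275))) 
  (.dom (nat_lit 168))) 
  (.dom (nat_lit 174))))) 
  (.dom (nat_lit 283))) 
  (.dom (nat_lit 161)))) 
  (.dom (nat_lit 589))) 
  (.br (nat_lit 8) (.br (nat_lit 20) (.br (nat_lit 1) (.br (nat_lit 2) (.br (nat_lit 23) (.br (nat_lit 18) (.far (nat_lit 65) (nat_lit 161)) 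
  (.br (nat_lit 5) (.br (nat_lit 9) (.br (nat_lit 14) (.br (nat_lit 15) (.far (nat_lit 417) (nat_lit 33)) (.br (nat_lit 0) (.far (nat_lit 225) (nat_lit 321)) (.dom (nat_lit 518)))) 
  (.dom (nat_lit 277))) 
  (.dom (nat_lit 56))) 
  (.dom (nat_lit 61)))) 
  (.dom (nat_lit 282))) 
  (.dom (nat_lit 589))) 
  (.dom (nat_lit 268))) 
  (.dom (nat_lit 108))) 
  (.dom (nat_lit 33)))) 
  (.dom (nat_lit 81)))) 
  (.br (nat_lit 20) (.br (nat_lit 1) (.br (nat_lit 18) (.br (nat_lit 16) (.br (nat_lit 8) (.br (nat_lit 23) (.far (nat_lit 13378) (nat_lit 7170)) 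
  (.br (nat_lit 2) (.br (nat_lit 9) (.br (nat_lit 10) (.far (nat_lit 65) (nat_lit 161)) 
  (.br (nat_lit 0) (.far (nat_lit 193) (nat_lit 321)) 
  (.br (nat_lit 22) (.br (nat_lit 19) (.far (nat_lit 65) (nat_lit 1)) (.dom (nat_lit 478))) (.dom (nat_lit 81))))) 
  (.dom (nat_lit 282))) 
  (.dom (nat_lit 143)))) 
  (.br (nat_lit 22) (.br (nat_lit 19) (.far (nat_lit 65) (nat_lit 1)) (.dom (nat_lit 32))) 
  (.br (nat_lit 2) (.br (nat_lit 10) (.br (nat_lit 9) (.br (nat_lit 19) (.far (nat_lit 65) (nat_lit 1)) (.dom (nat_lit 32))) (.dom (nat_lit 33))) 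
  (.dom (nat_lit 81))) 
  (.dom (nat_lit 589))))) 
  (.br (nat_lit 10) (.br (nat_lit 2) (.br (nat_lit 15) (.br (nat_lit 8) (.far (nat_lit 65) (nat_lit 161)) (.br (nat_lit 5) (.far (nat_lit 417) (nat_lit 129)) (.dom (nat_lit 36)))) 
  (.dom (nat_lit 283))) 
  (.dom (nat_lit 267))) 
  (.dom (nat_lit 79)))) 
  (.br (nat_lit 9) (.br (nat_lit 2) (.br (nat_lit 5) (.br (nat_lit 14) (.br (nat_lit 10) (.br (nat_lit 15) (.far (nat_lit 417) (nat_lit 129)) 
  (.br (nat_lit 0) (.far (nat_lit 225) (nat_lit 321)) (.br (nat_lit 19) (.far (nat_lit 65) (nat_lit 129)) (.dom (nat_lit 517))))) 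
  (.br (nat_lit 16) (.br (nat_lit 21) (.br (nat_lit 22) (.br (nat_lit 0) (.far (nat_lit 225) (nat_lit 321)) 
  (.br (nat_lit 24) (.br (nat_lit 19) (.far (nat_lit 225) (nat_lit 1)) 
  (.br (nat_lit 11) (.br (nat_lit 15) (.br (nat_lit 8) (.br (nat_lit 23) (.br (nat_lit 4) (.far (nat_lit 513) (nat_lit 65)) 
  (.br (nat_lit 12) (.far (nat_lit 321) (nat_lit 65)) (.br (nat_lit 19) (.far (nat_lit 225) (nat_lit 1)) (.dom (nat_lit 196))))) 
  (.dom (nat_lit 478))) 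
  (.dom (nat_lit 32))) 
  (.dom (nat_lit 517))) 
  (.dom (nat_lit 348)))) 
  (.dom (nat_lit 351)))) 
  (.dom (nat_lit 81))) 
  (.dom (nat_lit 279))) 
  (.dom (nat_lit 79)))) 
  (.dom (nat_lit 277))) 
  (.dom (nat_lit 60))) 
  (.br (nat_lit 16) (.br (nat_lit 22) (.br (nat_lit 24) (.br (nat_lit 23) (.br (nat_lit 11) (.br (nat_lit 5) (.br (nat_lit 14) (.br (nat_lit 21) (.br (nat_lit 19) (.far (nat_lit 225) (nat_lit 1)) (.br (nat_lit 12) (.far (nat_lit 193) (nat_lit 65)) (.dom (nat_lit 311)))) 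
  (.br (nat_lit 8) (.br (nat_lit 10) (.br (nat_lit 0) (.far (nat_lit 65) (nat_lit 513)) 
  (.br (nat_lit 15) (.br (nat_lit 12) (.far (nat_lit 417) (nat_lit 33)) (.br (nat_lit 2) (.far (nat_lit 417) (nat_lit 129)) (.dom (nat_lit 308)))) 
  (.dom (nat_lit 514)))) 
  (.dom (nat_lit 279))) 
  (.dom (nat_lit 23)))) 
  (.dom (nat_lit 277))) 
  (.dom (nat_lit 60))) 
  (.dom (nat_lit 45))) 
  (.dom (nat_lit 143))) 
  (.dom (nat_lit 53))) 
  (.dom (nat_lit 589))) 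
  (.dom (nat_lit 267)))) 
  (.dom (nat_lit 55)))) 
  (.dom (nat_lit 266))) 
  (.dom (nat_lit 107)))) 
  (.br (nat_lit 9) (.br (nat_lit 15) (.br (nat_lit 10) (.br (nat_lit 14) (.br (nat_lit 5) (.br (nat_lit 12) (.far (nat_lit 225) (nat_lit 33)) (.br (nat_lit 2) (.far (nat_lit 1) (nat_lit 129)) (.dom (nat_lit 8)))) 
  (.dom (nat_lit 273))) 
  (.br (nat_lit 8) (.br (nat_lit 20) (.br (nat_lit 2) (.far (nat_lit 13378) (nat_lit 4130)) (.br (nat_lit 12) (.far (nat_lit 417) (nat_lit 33)) (.dom (nat_lit 8)))) 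
  (.dom (nat_lit 110))) 
  (.dom (nat_lit 34)))) 
  (.br (nat_lit 11) (.br (nat_lit 14) (.br (nat_lit 12) (.br (nat_lit 22) (.far (nat_lit 0) (nat_lit 526371)) (.dom (nat_lit 81))) 
  (.br (nat_lit 2) (.br (nat_lit 24) (.br (nat_lit 5) (.br (nat_lit 1) (.br (nat_lit 16) (.br (nat_lit 20) (.br (nat_lit 21) (.br (nat_lit 22) (.br (nat_lit 19) (.far (nat_lit 161) (nat_lit 1)) (.br (nat_lit 4) (.far (nat_lit 161) (nat_lit 65)) (.dom (nat_lit 335)))) 
  (.dom (nat_lit 81))) 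
  (.dom (nat_lit 279))) 
  (.dom (nat_lit 107))) 
  (.dom (nat_lit 79))) 
  (.dom (nat_lit 266))) 
  (.dom (nat_lit 273))) 
  (.dom (nat_lit 84))) 
  (.dom (nat_lit 8)))) 
  (.br (nat_lit 22) (.br (nat_lit 12) (.br (nat_lit 8) (.br (nat_lit 16) (.br (nat_lit 20) (.br (nat_lit 24) (.br (nat_lit 1) (.br (nat_lit 5) (.br (nat_lit 18) (.br (nat_lit 21) (.br (nat_lit 23) (.br (nat_lit 17) (.far (nat_lit 417) (nat_lit 1)) 
  (.br (nat_lit 2) (.br (nat_lit 4) (.far (nat_lit 417) (nat_lit 65)) (.dom (nat_lit 336))) (.dom (nat_lit 10)))) 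
  (.br (nat_lit 0) (.far (nat_lit 193) (nat_lit 321)) (.dom (nat_lit 479)))) 
  (.dom (nat_lit 279))) 
  (.dom (nat_lit 277))) 
  (.dom (nat_lit 273))) 
  (.dom (nat_lit 270))) 
  (.dom (nat_lit 84))) 
  (.dom (nat_lit 110))) 
  (.dom (nat_lit 83))) 
  (.dom (nat_lit 34))) 
  (.br (nat_lit 16) (.br (nat_lit 1) (.br (nat_lit 2) (.br (nat_lit 20) (.br (nat_lit 8) (.br (nat_lit 18) (.br (nat_lit 24) (.br (nat_lit 5) (.br (nat_lit 21) (.br (nat_lit 0) (.far (nat_lit 65) (nat_lit 321)) 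
  (.br (nat_lit 23) (.br (nat_lit 4) (.far (nat_lit 417) (nat_lit 225)) (.br (nat_lit 17) (.far (nat_lit 417) (nat_lit 1)) (.dom (nat_lit 336)))) 
  (.dom (nat_lit 479)))) 
  (.dom (nat_lit 279))) 
  (.dom (nat_lit 273))) 
  (.dom (nat_lit 84))) 
  (.dom (nat_lit 277))) 
  (.dom (nat_lit 34))) 
  (.dom (nat_lit 107))) 
  (.dom (nat_lit 8))) 
  (.dom (nat_lit 266))) 
  (.dom (nat_lit 79)))) 
  (.dom (nat_lit 81)))) 
  (.dom (nat_lit 82)))) 
  (.dom (nat_lit 167))) 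
  (.dom (nat_lit 272)))) 
  (.dom (nat_lit 591)))) 
  (.br (nat_lit 8) (.br (nat_lit 20) (.br (nat_lit 10) (.br (nat_lit 18) (.br (nat_lit 1) (.br (nat_lit 2) (.far (nat_lit 65) (nat_lit 193)) 
  (.br (nat_lit 23) (.br (nat_lit 22) (.br (nat_lit 17) (.far (nat_lit 417) (nat_lit 1)) 
  (.br (nat_lit 4) (.far (nat_lit 417) (nat_lit 225)) (.br (nat_lit 15) (.far (nat_lit 513) (nat_lit 161)) (.dom (nat_lit 167))))) 
  (.dom (nat_lit 589))) 
  (.br (nat_lit 7) (.br (nat_lit 17) (.far (nat_lit 65) (nat_lit 161)) 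
  (.br (nat_lit 9) (.br (nat_lit 12) (.br (nat_lit 15) (.far (nat_lit 417) (nat_lit 33)) 
  (.br (nat_lit 16) (.br (nat_lit 6) (.far (nat_lit 65) (nat_lit 33)) (.dom (nat_lit 529))) (.dom (nat_lit 283)))) 
  (.dom (nat_lit 143))) 
  (.dom (nat_lit 282)))) 
  (.dom (nat_lit 142))))) 
  (.br (nat_lit 17) (.br (nat_lit 7) (.far (nat_lit 65) (nat_lit 161)) 
  (.br (nat_lit 23) (.br (nat_lit 22) (.far (nat_lit 417) (nat_lit 1)) (.br (nat_lit 15) (.far (nat_lit 513) (nat_lit 161)) (.dom (nat_lit 161)))) 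
  (.br (nat_lit 2) (.br (nat_lit 9) (.br (nat_lit 5) (.br (nat_lit 15) (.far (nat_lit 417) (nat_lit 129)) 
  (.br (nat_lit 16) (.br (nat_lit 19) (.far (nat_lit 65) (nat_lit 1)) (.dom (nat_lit 528))) (.dom (nat_lit 283)))) 
  (.dom (nat_lit 149))) 
  (.dom (nat_lit 282))) 
  (.dom (nat_lit 142))))) 
  (.br (nat_lit 15) (.br (nat_lit 5) (.br (nat_lit 12) (.br (nat_lit 14) (.br (nat_lit 9) (.br (nat_lit 2) (.far (nat_lit 417) (nat_lit 129)) 
  (.br (nat_lit 7) (.far (nat_lit 417) (nat_lit 33)) (.br (nat_lit 23) (.far (nat_lit 513) (nat_lit 161)) (.dom (nat_lit 142))))) 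
  (.br (nat_lit 23) (.far (nat_lit 513) (nat_lit 161)) (.dom (nat_lit 282)))) 
  (.dom (nat_lit 270))) 
  (.dom (nat_lit 266))) 
  (.dom (nat_lit 273))) 
  (.dom (nat_lit 157))))) 
  (.br (nat_lit 15) (.br (nat_lit 9) (.br (nat_lit 2) (.br (nat_lit 14) (.br (nat_lit 5) (.far (nat_lit 417) (nat_lit 129)) (.br (nat_lit 7) (.far (nat_lit 13378) (nat_lit 4130)) (.dom (nat_lit 58)))) 
  (.dom (nat_lit 277))) 
  (.br (nat_lit 12) (.br (nat_lit 7) (.far (nat_lit 417) (nat_lit 33)) 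
  (.br (nat_lit 5) (.br (nat_lit 14) (.br (nat_lit 11) (.br (nat_lit 24) (.far (nat_lit 0) (nat_lit 133155)) (.dom (nat_lit 51))) (.dom (nat_lit 44))) 
  (.dom (nat_lit 277))) 
  (.dom (nat_lit 58)))) 
  (.dom (nat_lit 43)))) 
  (.dom (nat_lit 276))) 
  (.dom (nat_lit 169)))) 
  (.br (nat_lit 18) (.br (nat_lit 23) (.br (nat_lit 16) (.br (nat_lit 1) (.br (nat_lit 21) (.br (nat_lit 4) (.far (nat_lit 417) (nat_lit 225)) (.br (nat_lit 17) (.far (nat_lit 13378) (nat_lit 7170)) (.dom (nat_lit 78)))) 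
  (.dom (nat_lit 279))) 
  (.br (nat_lit 22) (.br (nat_lit 17) (.far (nat_lit 417) (nat_lit 1)) 
  (.br (nat_lit 4) (.br (nat_lit 21) (.br (nat_lit 11) (.br (nat_lit 24) (.far (nat_lit 0) (nat_lit 231427)) (.dom (nat_lit 74))) (.dom (nat_lit 67))) 
  (.dom (nat_lit 279))) 
  (.dom (nat_lit 78)))) 
  (.dom (nat_lit 66)))) 
  (.dom (nat_lit 278))) 
  (.dom (nat_lit 151))) 
  (.br (nat_lit 11) (.br (nat_lit 15) (.br (nat_lit 23) (.br (nat_lit 24) (.br (nat_lit 14) (.br (nat_lit 21) (.br (nat_lit 9) (.br (nat_lit 16) (.br (nat_lit 3) (.br (nat_lit 4) (.br (nat_lit 5) (.far (nat_lit 513) (nat_lit 65)) 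
  (.br (nat_lit 12) (.br (nat_lit 7) (.br (nat_lit 17) (.br (nat_lit 22) (.far (nat_lit 321) (nat_lit 65)) (.br (nat_lit 6) (.far (nat_lit 193) (nat_lit 33)) (.dom (nat_lit 354)))) 
  (.dom (nat_lit 273))) 
  (.dom (nat_lit 58))) 
  (.dom (nat_lit 60)))) 
  (.br (nat_lit 22) (.br (nat_lit 17) (.br (nat_lit 7) (.br (nat_lit 12) (.far (nat_lit 321) (nat_lit 65)) (.br (nat_lit 19) (.far (nat_lit 225) (nat_lit 1)) (.dom (nat_lit 347)))) 
  (.dom (nat_lit 591))) 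
  (.dom (nat_lit 78))) 
  (.dom (nat_lit 81)))) 
  (.dom (nat_lit 89))) 
  (.dom (nat_lit 278))) 
  (.dom (nat_lit 276))) 
  (.dom (nat_lit 279))) 
  (.dom (nat_lit 277))) 
  (.dom (nat_lit 91))) 
  (.dom (nat_lit 151))) 
  (.dom (nat_lit 169))) 
  (.dom (nat_lit 90))))) 
  (.dom (nat_lit 593))) 
  (.dom (nat_lit 592))))

/-- search tree -/
def gp566B : BB := (.br (nat_lit 0) (.br (nat_lit 3) gp566B0 gp566B5) 
  (.br (nat_lit 6) gp566B13 
  (.br (nat_lit 25) (.br (nat_lit 19) (.br (nat_lit 20) gp566B14 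
  (.br (nat_lit 3) (.br (nat_lit 11) (.br (nat_lit 24) gp566B15 
  (.br (nat_lit 8) (.br (nat_lit 1) (.br (nat_lit 2) (.br (nat_lit 0) (.br (nat_lit 4) (.far (nat_lit 129) (nat_lit 321)) (.br (nat_lit 7) (.far (nat_lit 2050) (nat_lit 16706)) (.dom (nat_lit 112)))) 
  (.br (nat_lit 13) (.br (nat_lit 15) (.br (nat_lit 23) (.br (nat_lit 4) (.br (nat_lit 5) (.far (nat_lit 0) (nat_lit 333891)) 
  (.br (nat_lit 17) (.br (nat_lit 18) (.far (nat_lit 417) (nat_lit 225)) 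
  (.br (nat_lit 7) (.br (nat_lit 14) (.br (nat_lit 12) (.br (nat_lit 22) (.far (nat_lit 193) (nat_lit 161)) (.br (nat_lit 6) (.far (nat_lit 129) (nat_lit 33)) (.dom (nat_lit 114)))) 
  (.br (nat_lit 16) (.br (nat_lit 6) (.far (nat_lit 1) (nat_lit 225)) (.dom (nat_lit 400))) (.dom (nat_lit 113)))) 
  (.dom (nat_lit 277))) 
  (.dom (nat_lit 65)))) 
  (.dom (nat_lit 273)))) 
  (.br (nat_lit 7) (.br (nat_lit 17) (.br (nat_lit 10) (.br (nat_lit 9) (.br (nat_lit 14) (.br (nat_lit 5) (.br (nat_lit 6) (.far (nat_lit 513) (nat_lit 33)) 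
  (.br (nat_lit 12) (.far (nat_lit 417) (nat_lit 33)) (.br (nat_lit 20) (.far (nat_lit 417) (nat_lit 129)) (.dom (nat_lit 411))))) 
  (.br (nat_lit 6) (.far (nat_lit 513) (nat_lit 33)) 
  (.br (nat_lit 22) (.br (nat_lit 12) (.far (nat_lit 417) (nat_lit 33)) (.br (nat_lit 20) (.far (nat_lit 65) (nat_lit 129)) (.dom (nat_lit 411)))) 
  (.dom (nat_lit 114))))) 
  (.br (nat_lit 18) (.br (nat_lit 6) (.far (nat_lit 65) (nat_lit 33)) 
  (.br (nat_lit 20) (.far (nat_lit 513) (nat_lit 161)) (.br (nat_lit 12) (.far (nat_lit 417) (nat_lit 33)) (.dom (nat_lit 411))))) 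
  (.dom (nat_lit 277)))) 
  (.br (nat_lit 22) (.br (nat_lit 12) (.far (nat_lit 417) (nat_lit 33)) 
  (.br (nat_lit 18) (.br (nat_lit 16) (.br (nat_lit 20) (.far (nat_lit 417) (nat_lit 1)) (.br (nat_lit 6) (.far (nat_lit 65) (nat_lit 225)) (.dom (nat_lit 411)))) 
  (.dom (nat_lit 106))) 
  (.dom (nat_lit 398)))) 
  (.dom (nat_lit 108)))) 
  (.br (nat_lit 21) (.br (nat_lit 22) (.br (nat_lit 12) (.far (nat_lit 193) (nat_lit 161)) 
  (.br (nat_lit 16) (.br (nat_lit 18) (.far (nat_lit 129) (nat_lit 1)) 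
  (.br (nat_lit 9) (.br (nat_lit 14) (.br (nat_lit 6) (.far (nat_lit 161) (nat_lit 33)) 
  (.br (nat_lit 5) (.br (nat_lit 20) (.br (nat_lit 0) (.far (nat_lit 225) (nat_lit 321)) (.br (nat_lit 24) (.far (nat_lit 225) (nat_lit 1)) (.dom (nat_lit 216)))) 
  (.dom (nat_lit 411))) 
  (.dom (nat_lit 400)))) 
  (.dom (nat_lit 277))) 
  (.dom (nat_lit 398)))) 
  (.dom (nat_lit 403)))) 
  (.br (nat_lit 9) (.br (nat_lit 6) (.br (nat_lit 16) (.far (nat_lit 193) (nat_lit 225)) (.br (nat_lit 12) (.far (nat_lit 129) (nat_lit 33)) (.dom (nat_lit 403)))) 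
  (.dom (nat_lit 404))) 
  (.dom (nat_lit 108)))) 
  (.dom (nat_lit 279)))) 
  (.br (nat_lit 10) (.br (nat_lit 9) (.br (nat_lit 14) (.br (nat_lit 5) (.far (nat_lit 1) (nat_lit 129)) (.dom (nat_lit 273))) (.dom (nat_lit 110))) 
  (.dom (nat_lit 272))) 
  (.dom (nat_lit 84)))) 
  (.dom (nat_lit 112)))) 
  (.br (nat_lit 10) (.br (nat_lit 14) (.br (nat_lit 9) (.br (nat_lit 5) (.far (nat_lit 1) (nat_lit 129)) 
  (.br (nat_lit 7) (.br (nat_lit 17) (.br (nat_lit 6) (.far (nat_lit 513) (nat_lit 33)) 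
  (.br (nat_lit 22) (.br (nat_lit 12) (.far (nat_lit 417) (nat_lit 33)) 
  (.br (nat_lit 16) (.br (nat_lit 18) (.br (nat_lit 20) (.far (nat_lit 65) (nat_lit 1)) 
  (.br (nat_lit 4) (.br (nat_lit 21) (.br (nat_lit 0) (.far (nat_lit 193) (nat_lit 321)) (.br (nat_lit 6) (.far (nat_lit 513) (nat_lit 33)) (.dom (nat_lit 238)))) 
  (.dom (nat_lit 412))) 
  (.dom (nat_lit 411)))) 
  (.dom (nat_lit 400))) 
  (.dom (nat_lit 113)))) 
  (.dom (nat_lit 114)))) 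
  (.dom (nat_lit 273))) 
  (.br (nat_lit 6) (.far (nat_lit 513) (nat_lit 33)) (.dom (nat_lit 487))))) 
  (.dom (nat_lit 282))) 
  (.dom (nat_lit 155))) 
  (.dom (nat_lit 154)))) 
  (.br (nat_lit 18) (.br (nat_lit 21) (.br (nat_lit 16) (.br (nat_lit 23) (.br (nat_lit 4) (.far (nat_lit 417) (nat_lit 225)) 
  (.br (nat_lit 17) (.br (nat_lit 7) (.br (nat_lit 22) (.far (nat_lit 129) (nat_lit 1)) 
  (.br (nat_lit 9) (.br (nat_lit 6) (.far (nat_lit 321) (nat_lit 225)) 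
  (.br (nat_lit 5) (.br (nat_lit 10) (.br (nat_lit 20) (.far (nat_lit 65) (nat_lit 1)) 
  (.br (nat_lit 12) (.br (nat_lit 14) (.br (nat_lit 0) (.far (nat_lit 193) (nat_lit 321)) (.br (nat_lit 6) (.far (nat_lit 193) (nat_lit 33)) (.dom (nat_lit 247)))) 
  (.dom (nat_lit 409))) 
  (.dom (nat_lit 411)))) 
  (.dom (nat_lit 404))) 
  (.dom (nat_lit 114)))) 
  (.dom (nat_lit 108)))) 
  (.dom (nat_lit 112))) 
  (.br (nat_lit 9) (.br (nat_lit 6) (.far (nat_lit 321) (nat_lit 225)) (.dom (nat_lit 526))) (.dom (nat_lit 272))))) 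
  (.br (nat_lit 9) (.br (nat_lit 10) (.br (nat_lit 14) (.br (nat_lit 6) (.far (nat_lit 161) (nat_lit 33)) (.br (nat_lit 0) (.far (nat_lit 193) (nat_lit 321)) (.dom (nat_lit 533)))) 
  (.dom (nat_lit 155))) 
  (.dom (nat_lit 154))) 
  (.dom (nat_lit 282)))) 
  (.dom (nat_lit 283))) 
  (.dom (nat_lit 173))) 
  (.dom (nat_lit 172)))) 
  (.dom (nat_lit 137)))) 
  (.br (nat_lit 7) (.br (nat_lit 22) (.br (nat_lit 17) (.br (nat_lit 12) (.far (nat_lit 193) (nat_lit 161)) 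
  (.br (nat_lit 16) (.br (nat_lit 18) (.br (nat_lit 21) (.br (nat_lit 0) (.far (nat_lit 430147) (nat_lit 0)) 
  (.br (nat_lit 23) (.far (nat_lit 129) (nat_lit 1)) (.br (nat_lit 6) (.far (nat_lit 193) (nat_lit 225)) (.dom (nat_lit 485))))) 
  (.dom (nat_lit 99))) 
  (.dom (nat_lit 53))) 
  (.dom (nat_lit 267)))) 
  (.br (nat_lit 13) (.br (nat_lit 5) (.br (nat_lit 4) (.br (nat_lit 21) (.br (nat_lit 23) (.far (nat_lit 0) (nat_lit 334915)) 
  (.br (nat_lit 14) (.br (nat_lit 9) (.br (nat_lit 12) (.br (nat_lit 0) (.far (nat_lit 193) (nat_lit 321)) 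
  (.br (nat_lit 10) (.br (nat_lit 15) (.far (nat_lit 417) (nat_lit 33)) (.br (nat_lit 6) (.far (nat_lit 193) (nat_lit 33)) (.dom (nat_lit 531)))) 
  (.dom (nat_lit 154)))) 
  (.br (nat_lit 16) (.br (nat_lit 18) (.br (nat_lit 0) (.far (nat_lit 193) (nat_lit 321)) (.br (nat_lit 6) (.far (nat_lit 161) (nat_lit 33)) (.dom (nat_lit 485)))) 
  (.dom (nat_lit 53))) 
  (.dom (nat_lit 267)))) 
  (.dom (nat_lit 282))) 
  (.dom (nat_lit 146)))) 
  (.br (nat_lit 12) (.br (nat_lit 15) (.br (nat_lit 10) (.far (nat_lit 417) (nat_lit 33)) (.dom (nat_lit 279))) (.dom (nat_lit 165))) 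
  (.dom (nat_lit 99)))) 
  (.br (nat_lit 14) (.br (nat_lit 9) (.br (nat_lit 10) (.br (nat_lit 12) (.br (nat_lit 15) (.far (nat_lit 417) (nat_lit 33)) 
  (.br (nat_lit 21) (.br (nat_lit 16) (.br (nat_lit 0) (.far (nat_lit 193) (nat_lit 321)) (.br (nat_lit 6) (.far (nat_lit 193) (nat_lit 33)) (.dom (nat_lit 526)))) 
  (.dom (nat_lit 283))) 
  (.dom (nat_lit 165)))) 
  (.br (nat_lit 21) (.br (nat_lit 6) (.far (nat_lit 161) (nat_lit 33)) (.dom (nat_lit 374))) (.dom (nat_lit 99)))) 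
  (.dom (nat_lit 84))) 
  (.dom (nat_lit 272))) 
  (.dom (nat_lit 110)))) 
  (.dom (nat_lit 273))) 
  (.dom (nat_lit 129)))) 
  (.dom (nat_lit 589))) 
  (.br (nat_lit 4) (.br (nat_lit 21) (.br (nat_lit 23) (.br (nat_lit 16) (.br (nat_lit 22) (.br (nat_lit 18) (.far (nat_lit 33) (nat_lit 225)) 
  (.br (nat_lit 5) (.br (nat_lit 12) (.br (nat_lit 14) (.br (nat_lit 0) (.far (nat_lit 193) (nat_lit 321)) (.br (nat_lit 13) (.far (nat_lit 129) (nat_lit 65)) (.dom (nat_lit 137)))) 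
  (.dom (nat_lit 277))) 
  (.dom (nat_lit 53))) 
  (.dom (nat_lit 65)))) 
  (.dom (nat_lit 589))) 
  (.br (nat_lit 5) (.br (nat_lit 13) (.far (nat_lit 0) (nat_lit 334915)) (.dom (nat_lit 130))) (.dom (nat_lit 274)))) 
  (.dom (nat_lit 148))) 
  (.dom (nat_lit 590))) 
  (.dom (nat_lit 112))))) 
  (.br (nat_lit 7) (.br (nat_lit 12) (.br (nat_lit 22) (.br (nat_lit 17) (.far (nat_lit 193) (nat_lit 161)) 
  (.br (nat_lit 14) (.br (nat_lit 15) (.br (nat_lit 5) (.br (nat_lit 13) (.far (nat_lit 0) (nat_lit 526371)) 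
  (.br (nat_lit 9) (.br (nat_lit 0) (.far (nat_lit 193) (nat_lit 321)) (.dom (nat_lit 137))) (.dom (nat_lit 128)))) 
  (.dom (nat_lit 273))) 
  (.dom (nat_lit 166))) 
  (.dom (nat_lit 270)))) 
  (.br (nat_lit 9) (.br (nat_lit 14) (.br (nat_lit 10) (.br (nat_lit 2) (.br (nat_lit 15) (.far (nat_lit 225) (nat_lit 33)) 
  (.br (nat_lit 17) (.br (nat_lit 0) (.far (nat_lit 193) (nat_lit 321)) (.br (nat_lit 6) (.far (nat_lit 193) (nat_lit 33)) (.dom (nat_lit 524)))) 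
  (.dom (nat_lit 166)))) 
  (.dom (nat_lit 589))) 
  (.dom (nat_lit 76))) 
  (.dom (nat_lit 102))) 
  (.dom (nat_lit 268)))) 
  (.dom (nat_lit 104))) 
  (.dom (nat_lit 271)))) 
  (.dom (nat_lit 275)))) 
  (.dom (nat_lit 280))) 
  (.dom (nat_lit 593)))) 
  (.br (nat_lit 13) gp566B17 (.dom (nat_lit 281)))) 
  (.dom (nat_lit 284)))))

theorem gp566_bb : gp566D.ok gp566B [] (2 ^ gp566D.np - 1) = true := by decide +kernel

theorem gp566_gen : allB (gp566D.genOK 266) gp566D.nG = true := by decide +kernel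

end Pool.Agent.P.MP_40718a_co
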