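import Pool.Agent.P.MP_40718a_co.U.Glue

/-! Certificates. -/

namespace Pool.Agent.P.MP_40718a_co

open U

/-- packed table -/
noncomputable def gp666G : BW := (.b (nat_lit 192) (.b (nat_lit 96) (.b (nat_lit 32) (.l (nat_lit 0) (nat_lit 35) (nat_lit 6403021006253432286173630287570541696241037523486398304348468986917472514910741634889081149504718926479713420900078865708386037667960799980852674166302363374478748747539408200782609988865737386838864156242366068719967794867443741592559146600636825957057775754773705788337956228527072178979785580141514510200746923295651733744275077502022))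
  (.b (nat_lit 64) (.l (nat_lit 32) (nat_lit 35) (nat_lit 7305801800846263783880824214175632260249281966212029459096470334674815559541796321251884352345159701484102677301276627296702956911866501186780163779980441823387724864097897497130992816426625101453563754166831415856559015447312932135708843739352352403703172540245326861458300064962280602620025751974349445858036306376046093557878060488742))
  (.l (nat_lit 64) (nat_lit 35) (nat_lit 8183369590065749675216406734466510745171350550154162848397939153266385266409867065346738498565942002462675886236854298220801391546337424341653106894811964043125067165057768477041989677615607697569474044819689389347058829320514585330624177786372757432767601446214529726643072249519022835465573535366885668787724920467164465124627066394662))))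
  (.b (nat_lit 128) (.l (nat_lit 96) (nat_lit 35) (nat_lit 10004126745947522694634525303671107277757524360806452847685572991747426665267638476464847600209310034350657623765660086713374632935836582286055060001031933650478164064997051980281470845101413348242633757601649984374218145744966368546799645328054894104957792653825731584861924699569851996370415948244824516324699946659602534207439632401414))
  (.b (nat_lit 160) (.l (nat_lit 128) (nat_lit 35) (nat_lit 9170009202219309322878142734748796693703310710995235498220609933224043160362446499179998342936631480138117851347474806332455005503606198125103935870308065461363807509813921504600730167174852306861226710042974331387255354410813438616172008697608141035663225960991786302732592234996964044744926440806082794387265661582744784230376734263302))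
  (.l (nat_lit 160) (nat_lit 65) (nat_lit 97790831368352236756805980269811076679094518174640457350069396664356139213810303231466767363134755375272205962995457456918109236227079171495503014235415061558905147576258575129312192972112650877296637773930259812318948386440032258695407359794592010285728199080186872839937715745711629434910710189046157809142906554290590753334502873879086142627904665079228846748916313409901047485734015070673168504379272474965142764759142502259807779394678058727148317540126021462127345036341895350451801621043681390040037505038993253016425864697196691569445880440236119958602744930703306850024231008184257624030199297965767560976290587673606)))))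
  (.b (nat_lit 288) (.b (nat_lit 224) (.l (nat_lit 192) (nat_lit 65) (nat_lit 2843146939200907699153168719267350912942328349456417734112120575964433792103535396856901696997383487284757770853934050171801646196952400077097987612761686016751644137434596536350840281779615518201034898323326723206188166162251606400399717538237873678627019351600403080082773097122831159111606883737253319198781447024183490383063676085596765246300477549379828226421342260469662955305563026099577811712791256485463905760231593623405444727885068398728117923108619818042601745478237052559515002230091882052433023129262042610373125868508481105721194714074718815289551193167084031843313540388811152337681640795323566156))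
  (.b (nat_lit 256) (.l (nat_lit 224) (nat_lit 50) (nat_lit 29895373350308492350843066313888380102771797120703825183467202048153086196801006508346014269798614825774527984778918115414168126575627292839043353140974669379879929610433935217614595350168149894699318734744950935705772559913266472393037711449486369336428418635922765937878508123040390879612047967609530978510287037633833549224821105611096544753904696865969414910442157994507805120288460070296450361488914702698810408895399205936352445161498307506914653532084855361815394888826716169))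
  (.l (nat_lit 256) (nat_lit 50) (nat_lit 31239919612799733868755989414946901086658685513069074415757814025182694403805557740987663674775773961154977977176866255833639315789646284400188610889830929655823484718469518681502281361611000478142975075755555687672890837926964374210713024406005970661489919876254797778093860933935820232454353826397657216371359450368761136870947392297510030528955646673622925450971690782330568478084292168982136306707612401144314327983635582724020687421690645837924499800587275352331514946371356745))))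
  (.b (nat_lit 320) (.l (nat_lit 288) (nat_lit 50) (nat_lit 26937322679922513429710396452343578475881827062805409797501980163410245918877749009607280502928136483397663065316494224025720980801717386580072324532006344943146950161651486819068125150670745625462743347387808874291657924299765036410693984675249608869402590747172178442217379115983546064006781724240367554076311031676878723782939673408074245708169783557854976703917312578263619641745596873704091027059928339223638852906705702338940600822016485084268723736948916228228119573800486985))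
  (.b (nat_lit 352) (.l (nat_lit 320) (nat_lit 50) (nat_lit 32495124571335810500541606850836367021371959716718314616067553353842959184631041025195315988463294286775654242287388797719556834303587151661038400876817217834568539014026724929012827262970236055359170852167774020236077029998316821948835101434080082172585244662223151330898338839655485603831162011163534351055308219893245673930436260074585118486522034574002750767112951901801543964801041221714611719441866759103810488080481320530128647303323319587948864030026013573035513276684896297))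
  (.l (nat_lit 352) (nat_lit 50) (nat_lit 8567970542434758251150100364034447982953526827717936186760528548068058004799547851353550685730312757485083984504244126890460214115535295019888917723835800996308794270617640862050344144469334747945416007533534048956259135209601811751249462392452193044134072563055618657245950837849703506009235894212046053599814989340770005155070936747081))))))

/-- generators -/
noncomputable def gp666D : Rd := ⟨24, 12, dig (nat_lit 112569481506002541771728790207680652215300088714818123732494615707689213508555139450944) (nat_lit 12), 375, gp666G.get⟩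

/-- search tree -/
def gp666B0 : BB := (.br (nat_lit 6) (.br (nat_lit 14) (.far (nat_lit 225) (nat_lit 161)) 
  (.br (nat_lit 10) (.br (nat_lit 5) (.br (nat_lit 4) (.br (nat_lit 7) (.far (nat_lit 7170) (nat_lit 5218)) 
  (.br (nat_lit 12) (.br (nat_lit 16) (.far (nat_lit 225) (nat_lit 193)) 
  (.br (nat_lit 3) (.br (nat_lit 8) (.far (nat_lit 7170) (nat_lit 0)) (.dom (nat_lit 60))) (.dom (nat_lit 217)))) 
  (.dom (nat_lit 212)))) 
  (.br (nat_lit 9) (.br (nat_lit 15) (.br (nat_lit 3) (.br (nat_lit 7) (.br (nat_lit 8) (.br (nat_lit 11) (.far (nat_lit 6146) (nat_lit 0)) (.br (nat_lit 14) (.far (nat_lit 225) (nat_lit 161)) (.dom (nat_lit 33)))) 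
  (.br (nat_lit 19) (.br (nat_lit 11) (.far (nat_lit 6146) (nat_lit 5218)) (.br (nat_lit 14) (.far (nat_lit 0) (nat_lit 161)) (.dom (nat_lit 33)))) 
  (.dom (nat_lit 153)))) 
  (.br (nat_lit 12) (.br (nat_lit 20) (.br (nat_lit 8) (.far (nat_lit 234595) (nat_lit 0)) 
  (.br (nat_lit 13) (.br (nat_lit 16) (.br (nat_lit 19) (.br (nat_lit 14) (.far (nat_lit 7266) (nat_lit 5122)) 
  (.br (nat_lit 11) (.br (nat_lit 1) (.br (nat_lit 4) (.br (nat_lit 8) (.far (nat_lit 5122) (nat_lit 0)) (.br (nat_lit 17) (.far (nat_lit 0) (nat_lit 193)) (.dom (nat_lit 303)))) 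
  (.br (nat_lit 21) (.far (nat_lit 97) (nat_lit 225)) (.dom (nat_lit 234)))) 
  (.br (nat_lit 22) (.br (nat_lit 4) (.far (nat_lit 225) (nat_lit 97)) 
  (.br (nat_lit 21) (.br (nat_lit 8) (.far (nat_lit 225) (nat_lit 65)) 
  (.br (nat_lit 17) (.br (nat_lit 14) (.far (nat_lit 225) (nat_lit 1)) (.br (nat_lit 23) (.far (nat_lit 161) (nat_lit 1)) (.dom (nat_lit 200)))) 
  (.dom (nat_lit 303)))) 
  (.dom (nat_lit 234)))) 
  (.dom (nat_lit 281)))) 
  (.dom (nat_lit 33)))) 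
  (.dom (nat_lit 153))) 
  (.dom (nat_lit 60))) 
  (.dom (nat_lit 18)))) 
  (.dom (nat_lit 15))) 
  (.dom (nat_lit 212)))) 
  (.br (nat_lit 20) (.br (nat_lit 22) (.br (nat_lit 16) (.br (nat_lit 8) (.far (nat_lit 225) (nat_lit 65)) 
  (.br (nat_lit 19) (.br (nat_lit 17) (.br (nat_lit 7) (.br (nat_lit 11) (.br (nat_lit 4) (.far (nat_lit 225) (nat_lit 97)) 
  (.br (nat_lit 21) (.br (nat_lit 23) (.far (nat_lit 193) (nat_lit 97)) (.br (nat_lit 14) (.far (nat_lit 225) (nat_lit 161)) (.dom (nat_lit 348)))) 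
  (.dom (nat_lit 44)))) 
  (.br (nat_lit 14) (.far (nat_lit 225) (nat_lit 161)) (.dom (nat_lit 33)))) 
  (.br (nat_lit 12) (.br (nat_lit 13) (.br (nat_lit 4) (.far (nat_lit 225) (nat_lit 97)) 
  (.br (nat_lit 21) (.br (nat_lit 14) (.far (nat_lit 225) (nat_lit 1)) (.br (nat_lit 23) (.far (nat_lit 161) (nat_lit 1)) (.dom (nat_lit 348)))) 
  (.dom (nat_lit 44)))) 
  (.dom (nat_lit 18))) 
  (.dom (nat_lit 212)))) 
  (.dom (nat_lit 133))) 
  (.dom (nat_lit 153)))) 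
  (.dom (nat_lit 217))) 
  (.dom (nat_lit 109))) 
  (.dom (nat_lit 206)))) 
  (.dom (nat_lit 370))) 
  (.dom (nat_lit 205)))) 
  (.dom (nat_lit 208))) 
  (.dom (nat_lit 369)))) 
  (.br (nat_lit 20) (.br (nat_lit 13) (.br (nat_lit 12) (.br (nat_lit 14) (.br (nat_lit 15) (.far (nat_lit 7266) (nat_lit 5122)) 
  (.br (nat_lit 4) (.br (nat_lit 16) (.far (nat_lit 225) (nat_lit 193)) 
  (.br (nat_lit 3) (.br (nat_lit 8) (.far (nat_lit 7266) (nat_lit 0)) (.dom (nat_lit 64))) (.dom (nat_lit 217)))) 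
  (.dom (nat_lit 370)))) 
  (.br (nat_lit 5) (.br (nat_lit 10) (.br (nat_lit 4) (.br (nat_lit 16) (.br (nat_lit 1) (.br (nat_lit 8) (.far (nat_lit 234595) (nat_lit 193)) (.br (nat_lit 17) (.far (nat_lit 0) (nat_lit 193)) (.dom (nat_lit 134)))) 
  (.br (nat_lit 22) (.br (nat_lit 8) (.far (nat_lit 225) (nat_lit 65)) (.br (nat_lit 17) (.far (nat_lit 7330) (nat_lit 6146)) (.dom (nat_lit 134)))) 
  (.dom (nat_lit 110)))) 
  (.br (nat_lit 3) (.br (nat_lit 9) (.br (nat_lit 8) (.far (nat_lit 199683) (nat_lit 0)) 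
  (.br (nat_lit 7) (.br (nat_lit 15) (.br (nat_lit 17) (.br (nat_lit 1) (.far (nat_lit 3138) (nat_lit 7362)) 
  (.br (nat_lit 22) (.br (nat_lit 6) (.br (nat_lit 8) (.br (nat_lit 11) (.far (nat_lit 6146) (nat_lit 0)) (.br (nat_lit 14) (.far (nat_lit 225) (nat_lit 161)) (.dom (nat_lit 242)))) 
  (.br (nat_lit 19) (.far (nat_lit 2050) (nat_lit 5218)) (.dom (nat_lit 334)))) 
  (.br (nat_lit 21) (.br (nat_lit 8) (.far (nat_lit 97) (nat_lit 65)) 
  (.br (nat_lit 19) (.br (nat_lit 14) (.far (nat_lit 97) (nat_lit 1)) 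
  (.br (nat_lit 11) (.br (nat_lit 1) (.far (nat_lit 97) (nat_lit 225)) (.br (nat_lit 23) (.far (nat_lit 193) (nat_lit 225)) (.dom (nat_lit 202)))) 
  (.dom (nat_lit 242)))) 
  (.dom (nat_lit 334)))) 
  (.dom (nat_lit 247)))) 
  (.dom (nat_lit 110)))) 
  (.dom (nat_lit 134))) 
  (.dom (nat_lit 64))) 
  (.dom (nat_lit 60)))) 
  (.dom (nat_lit 54))) 
  (.dom (nat_lit 217)))) 
  (.br (nat_lit 9) (.br (nat_lit 21) (.br (nat_lit 15) (.br (nat_lit 8) (.far (nat_lit 97) (nat_lit 65)) 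
  (.br (nat_lit 17) (.br (nat_lit 19) (.br (nat_lit 16) (.br (nat_lit 22) (.br (nat_lit 14) (.far (nat_lit 97) (nat_lit 1)) 
  (.br (nat_lit 11) (.br (nat_lit 23) (.far (nat_lit 161) (nat_lit 1)) (.br (nat_lit 1) (.far (nat_lit 97) (nat_lit 193)) (.dom (nat_lit 349)))) 
  (.dom (nat_lit 33)))) 
  (.br (nat_lit 1) (.far (nat_lit 97) (nat_lit 193)) (.dom (nat_lit 110)))) 
  (.br (nat_lit 3) (.br (nat_lit 7) (.br (nat_lit 1) (.far (nat_lit 97) (nat_lit 225)) 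
  (.br (nat_lit 22) (.br (nat_lit 14) (.far (nat_lit 97) (nat_lit 1)) 
  (.br (nat_lit 11) (.br (nat_lit 23) (.far (nat_lit 193) (nat_lit 225)) (.dom (nat_lit 349))) (.dom (nat_lit 33)))) 
  (.dom (nat_lit 110)))) 
  (.dom (nat_lit 60))) 
  (.dom (nat_lit 217)))) 
  (.dom (nat_lit 153))) 
  (.dom (nat_lit 134)))) 
  (.dom (nat_lit 370))) 
  (.dom (nat_lit 45))) 
  (.dom (nat_lit 205)))) 
  (.dom (nat_lit 369))) 
  (.dom (nat_lit 208)))) 
  (.br (nat_lit 9) (.br (nat_lit 7) (.br (nat_lit 3) (.br (nat_lit 14) (.br (nat_lit 15) (.br (nat_lit 6) (.br (nat_lit 8) (.far (nat_lit 235619) (nat_lit 161)) (.br (nat_lit 19) (.far (nat_lit 0) (nat_lit 161)) (.dom (nat_lit 152)))) 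
  (.br (nat_lit 21) (.br (nat_lit 8) (.far (nat_lit 97) (nat_lit 65)) (.br (nat_lit 19) (.far (nat_lit 6242) (nat_lit 5122)) (.dom (nat_lit 152)))) 
  (.dom (nat_lit 43)))) 
  (.br (nat_lit 4) (.br (nat_lit 10) (.br (nat_lit 8) (.far (nat_lit 234499) (nat_lit 0)) 
  (.br (nat_lit 5) (.br (nat_lit 16) (.br (nat_lit 19) (.br (nat_lit 6) (.far (nat_lit 7234) (nat_lit 5218)) 
  (.br (nat_lit 21) (.br (nat_lit 1) (.br (nat_lit 8) (.br (nat_lit 11) (.far (nat_lit 5122) (nat_lit 0)) (.br (nat_lit 12) (.far (nat_lit 225) (nat_lit 193)) (.dom (nat_lit 230)))) 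
  (.br (nat_lit 17) (.far (nat_lit 2050) (nat_lit 7362)) (.dom (nat_lit 305)))) 
  (.br (nat_lit 22) (.br (nat_lit 8) (.far (nat_lit 225) (nat_lit 65)) 
  (.br (nat_lit 17) (.br (nat_lit 12) (.far (nat_lit 225) (nat_lit 1)) 
  (.br (nat_lit 11) (.br (nat_lit 6) (.far (nat_lit 225) (nat_lit 97)) (.br (nat_lit 23) (.far (nat_lit 161) (nat_lit 97)) (.dom (nat_lit 201)))) 
  (.dom (nat_lit 230)))) 
  (.dom (nat_lit 305)))) 
  (.dom (nat_lit 285)))) 
  (.dom (nat_lit 43)))) 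
  (.dom (nat_lit 152))) 
  (.dom (nat_lit 64))) 
  (.dom (nat_lit 27)))) 
  (.dom (nat_lit 22))) 
  (.dom (nat_lit 370)))) 
  (.br (nat_lit 10) (.br (nat_lit 11) (.br (nat_lit 5) (.br (nat_lit 8) (.far (nat_lit 1) (nat_lit 65)) 
  (.br (nat_lit 19) (.br (nat_lit 17) (.br (nat_lit 15) (.br (nat_lit 21) (.br (nat_lit 1) (.far (nat_lit 65) (nat_lit 225)) 
  (.br (nat_lit 22) (.br (nat_lit 23) (.far (nat_lit 193) (nat_lit 225)) (.br (nat_lit 6) (.far (nat_lit 1) (nat_lit 161)) (.dom (nat_lit 347)))) 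
  (.dom (nat_lit 110)))) 
  (.br (nat_lit 6) (.far (nat_lit 1) (nat_lit 161)) (.dom (nat_lit 43)))) 
  (.br (nat_lit 4) (.br (nat_lit 16) (.br (nat_lit 1) (.far (nat_lit 1) (nat_lit 193)) 
  (.br (nat_lit 22) (.br (nat_lit 6) (.far (nat_lit 225) (nat_lit 97)) (.br (nat_lit 23) (.far (nat_lit 161) (nat_lit 97)) (.dom (nat_lit 347)))) 
  (.dom (nat_lit 110)))) 
  (.dom (nat_lit 64))) 
  (.dom (nat_lit 370)))) 
  (.dom (nat_lit 134))) 
  (.dom (nat_lit 152)))) 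
  (.dom (nat_lit 208))) 
  (.dom (nat_lit 32))) 
  (.dom (nat_lit 369)))) 
  (.br (nat_lit 10) (.br (nat_lit 22) (.br (nat_lit 16) (.br (nat_lit 4) (.br (nat_lit 8) (.far (nat_lit 225) (nat_lit 65)) 
  (.br (nat_lit 17) (.br (nat_lit 19) (.br (nat_lit 5) (.br (nat_lit 11) (.br (nat_lit 6) (.far (nat_lit 225) (nat_lit 97)) 
  (.br (nat_lit 21) (.br (nat_lit 23) (.far (nat_lit 161) (nat_lit 97)) (.br (nat_lit 12) (.far (nat_lit 225) (nat_lit 193)) (.dom (nat_lit 344)))) 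
  (.dom (nat_lit 43)))) 
  (.br (nat_lit 12) (.far (nat_lit 225) (nat_lit 193)) (.dom (nat_lit 30)))) 
  (.br (nat_lit 14) (.br (nat_lit 15) (.br (nat_lit 6) (.far (nat_lit 225) (nat_lit 97)) 
  (.br (nat_lit 21) (.br (nat_lit 12) (.far (nat_lit 225) (nat_lit 1)) (.br (nat_lit 23) (.far (nat_lit 193) (nat_lit 1)) (.dom (nat_lit 344)))) 
  (.dom (nat_lit 43)))) 
  (.dom (nat_lit 27))) 
  (.dom (nat_lit 208)))) 
  (.dom (nat_lit 152))) 
  (.dom (nat_lit 132)))) 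
  (.br (nat_lit 21) (.br (nat_lit 15) (.br (nat_lit 14) (.br (nat_lit 8) (.far (nat_lit 225) (nat_lit 65)) 
  (.br (nat_lit 19) (.br (nat_lit 17) (.br (nat_lit 12) (.far (nat_lit 225) (nat_lit 1)) 
  (.br (nat_lit 11) (.br (nat_lit 23) (.far (nat_lit 193) (nat_lit 1)) (.br (nat_lit 3) (.far (nat_lit 97) (nat_lit 161)) (.dom (nat_lit 343)))) 
  (.dom (nat_lit 30)))) 
  (.dom (nat_lit 132))) 
  (.dom (nat_lit 150)))) 
  (.br (nat_lit 11) (.br (nat_lit 5) (.br (nat_lit 8) (.far (nat_lit 225) (nat_lit 65)) 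
  (.br (nat_lit 17) (.br (nat_lit 19) (.br (nat_lit 23) (.far (nat_lit 0) (nat_lit 100355)) (.dom (nat_lit 346))) (.dom (nat_lit 150))) 
  (.dom (nat_lit 132)))) 
  (.dom (nat_lit 208))) 
  (.dom (nat_lit 31)))) 
  (.dom (nat_lit 370))) 
  (.dom (nat_lit 42)))) 
  (.dom (nat_lit 217))) 
  (.dom (nat_lit 108))) 
  (.dom (nat_lit 368)))) 
  (.dom (nat_lit 212))) 
  (.dom (nat_lit 204)))) 
  (.dom (nat_lit 210))) 
  (.dom (nat_lit 207))))

/-- search tree -/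
def gp666B1 : BB := (.br (nat_lit 10) (.br (nat_lit 20) (.far (nat_lit 225) (nat_lit 65)) 
  (.br (nat_lit 6) (.br (nat_lit 5) (.br (nat_lit 4) (.br (nat_lit 11) (.far (nat_lit 7170) (nat_lit 3138)) 
  (.br (nat_lit 12) (.br (nat_lit 16) (.far (nat_lit 225) (nat_lit 193)) (.br (nat_lit 2) (.far (nat_lit 7170) (nat_lit 0)) (.dom (nat_lit 70)))) 
  (.dom (nat_lit 214)))) 
  (.br (nat_lit 3) (.br (nat_lit 21) (.br (nat_lit 9) (.br (nat_lit 11) (.br (nat_lit 2) (.br (nat_lit 7) (.far (nat_lit 6146) (nat_lit 0)) (.br (nat_lit 20) (.far (nat_lit 225) (nat_lit 65)) (.dom (nat_lit 17)))) 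
  (.br (nat_lit 23) (.br (nat_lit 7) (.far (nat_lit 6146) (nat_lit 3138)) (.br (nat_lit 20) (.far (nat_lit 0) (nat_lit 65)) (.dom (nat_lit 17)))) 
  (.dom (nat_lit 178)))) 
  (.br (nat_lit 12) (.br (nat_lit 14) (.br (nat_lit 2) (.far (nat_lit 232515) (nat_lit 0)) 
  (.br (nat_lit 13) (.br (nat_lit 16) (.br (nat_lit 23) (.br (nat_lit 20) (.far (nat_lit 7330) (nat_lit 2050)) 
  (.br (nat_lit 7) (.br (nat_lit 1) (.br (nat_lit 2) (.br (nat_lit 4) (.far (nat_lit 2050) (nat_lit 0)) (.br (nat_lit 15) (.far (nat_lit 97) (nat_lit 161)) (.dom (nat_lit 231)))) 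
  (.br (nat_lit 17) (.far (nat_lit 5218) (nat_lit 7362)) (.dom (nat_lit 307)))) 
  (.br (nat_lit 18) (.br (nat_lit 2) (.far (nat_lit 225) (nat_lit 161)) 
  (.br (nat_lit 17) (.br (nat_lit 4) (.far (nat_lit 225) (nat_lit 97)) 
  (.br (nat_lit 15) (.br (nat_lit 19) (.far (nat_lit 65) (nat_lit 1)) (.br (nat_lit 20) (.far (nat_lit 225) (nat_lit 1)) (.dom (nat_lit 194)))) 
  (.dom (nat_lit 231)))) 
  (.dom (nat_lit 307)))) 
  (.dom (nat_lit 263)))) 
  (.dom (nat_lit 17)))) 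
  (.dom (nat_lit 178))) 
  (.dom (nat_lit 70))) 
  (.dom (nat_lit 37)))) 
  (.dom (nat_lit 35))) 
  (.dom (nat_lit 214)))) 
  (.br (nat_lit 14) (.br (nat_lit 18) (.br (nat_lit 16) (.br (nat_lit 2) (.far (nat_lit 225) (nat_lit 161)) 
  (.br (nat_lit 23) (.br (nat_lit 17) (.br (nat_lit 11) (.br (nat_lit 7) (.br (nat_lit 4) (.far (nat_lit 225) (nat_lit 97)) 
  (.br (nat_lit 15) (.br (nat_lit 19) (.far (nat_lit 193) (nat_lit 97)) (.br (nat_lit 20) (.far (nat_lit 225) (nat_lit 65)) (.dom (nat_lit 324)))) 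
  (.dom (nat_lit 24)))) 
  (.br (nat_lit 20) (.far (nat_lit 225) (nat_lit 65)) (.dom (nat_lit 17)))) 
  (.br (nat_lit 12) (.br (nat_lit 13) (.br (nat_lit 4) (.far (nat_lit 225) (nat_lit 97)) 
  (.br (nat_lit 15) (.br (nat_lit 20) (.far (nat_lit 225) (nat_lit 1)) (.br (nat_lit 19) (.far (nat_lit 65) (nat_lit 1)) (.dom (nat_lit 324)))) 
  (.dom (nat_lit 24)))) 
  (.dom (nat_lit 37))) 
  (.dom (nat_lit 214)))) 
  (.dom (nat_lit 139))) 
  (.dom (nat_lit 178)))) 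
  (.dom (nat_lit 218))) 
  (.dom (nat_lit 83))) 
  (.dom (nat_lit 205)))) 
  (.dom (nat_lit 215))) 
  (.dom (nat_lit 206)))) 
  (.dom (nat_lit 209))) 
  (.dom (nat_lit 207)))) 
  (.br (nat_lit 14) (.br (nat_lit 13) (.br (nat_lit 12) (.br (nat_lit 20) (.br (nat_lit 16) (.far (nat_lit 7266) (nat_lit 6146)) 
  (.br (nat_lit 9) (.br (nat_lit 21) (.far (nat_lit 97) (nat_lit 65)) (.br (nat_lit 2) (.far (nat_lit 7266) (nat_lit 0)) (.dom (nat_lit 75)))) 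
  (.dom (nat_lit 218)))) 
  (.br (nat_lit 5) (.br (nat_lit 6) (.br (nat_lit 4) (.br (nat_lit 16) (.br (nat_lit 1) (.br (nat_lit 2) (.far (nat_lit 232515) (nat_lit 193)) (.br (nat_lit 17) (.far (nat_lit 0) (nat_lit 193)) (.dom (nat_lit 142)))) 
  (.br (nat_lit 18) (.br (nat_lit 2) (.far (nat_lit 225) (nat_lit 161)) (.br (nat_lit 17) (.far (nat_lit 7234) (nat_lit 6146)) (.dom (nat_lit 142)))) 
  (.dom (nat_lit 84)))) 
  (.br (nat_lit 3) (.br (nat_lit 9) (.br (nat_lit 2) (.far (nat_lit 199683) (nat_lit 0)) 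
  (.br (nat_lit 11) (.br (nat_lit 17) (.br (nat_lit 21) (.br (nat_lit 1) (.far (nat_lit 5218) (nat_lit 7362)) 
  (.br (nat_lit 18) (.br (nat_lit 2) (.br (nat_lit 7) (.br (nat_lit 10) (.far (nat_lit 6146) (nat_lit 0)) (.br (nat_lit 15) (.far (nat_lit 97) (nat_lit 161)) (.dom (nat_lit 240)))) 
  (.br (nat_lit 20) (.far (nat_lit 97) (nat_lit 65)) (.dom (nat_lit 237)))) 
  (.br (nat_lit 23) (.br (nat_lit 10) (.far (nat_lit 5122) (nat_lit 3138)) 
  (.br (nat_lit 15) (.br (nat_lit 20) (.far (nat_lit 97) (nat_lit 1)) 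
  (.br (nat_lit 7) (.br (nat_lit 1) (.far (nat_lit 161) (nat_lit 225)) (.br (nat_lit 19) (.far (nat_lit 193) (nat_lit 225)) (.dom (nat_lit 196)))) 
  (.dom (nat_lit 237)))) 
  (.dom (nat_lit 240)))) 
  (.dom (nat_lit 359)))) 
  (.dom (nat_lit 84)))) 
  (.dom (nat_lit 75))) 
  (.dom (nat_lit 142))) 
  (.dom (nat_lit 70)))) 
  (.dom (nat_lit 218))) 
  (.dom (nat_lit 58)))) 
  (.br (nat_lit 3) (.br (nat_lit 15) (.br (nat_lit 21) (.br (nat_lit 2) (.far (nat_lit 97) (nat_lit 161)) 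
  (.br (nat_lit 17) (.br (nat_lit 23) (.br (nat_lit 16) (.br (nat_lit 18) (.br (nat_lit 20) (.far (nat_lit 161) (nat_lit 1)) 
  (.br (nat_lit 7) (.br (nat_lit 19) (.far (nat_lit 65) (nat_lit 1)) (.br (nat_lit 1) (.far (nat_lit 97) (nat_lit 193)) (.dom (nat_lit 325)))) 
  (.dom (nat_lit 17)))) 
  (.br (nat_lit 1) (.far (nat_lit 97) (nat_lit 193)) (.dom (nat_lit 84)))) 
  (.br (nat_lit 9) (.br (nat_lit 11) (.br (nat_lit 1) (.far (nat_lit 161) (nat_lit 225)) 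
  (.br (nat_lit 18) (.br (nat_lit 20) (.far (nat_lit 97) (nat_lit 1)) 
  (.br (nat_lit 7) (.br (nat_lit 19) (.far (nat_lit 193) (nat_lit 225)) (.dom (nat_lit 325))) (.dom (nat_lit 17)))) 
  (.dom (nat_lit 84)))) 
  (.dom (nat_lit 70))) 
  (.dom (nat_lit 218)))) 
  (.dom (nat_lit 178))) 
  (.dom (nat_lit 142)))) 
  (.dom (nat_lit 215))) 
  (.dom (nat_lit 26))) 
  (.dom (nat_lit 206)))) 
  (.dom (nat_lit 207))) 
  (.dom (nat_lit 209)))) 
  (.br (nat_lit 3) (.br (nat_lit 11) (.br (nat_lit 9) (.br (nat_lit 20) (.br (nat_lit 21) (.br (nat_lit 2) (.br (nat_lit 10) (.far (nat_lit 235619) (nat_lit 65)) (.br (nat_lit 15) (.far (nat_lit 97) (nat_lit 161)) (.dom (nat_lit 23)))) 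
  (.br (nat_lit 23) (.br (nat_lit 10) (.far (nat_lit 0) (nat_lit 65)) (.br (nat_lit 15) (.far (nat_lit 6242) (nat_lit 2050)) (.dom (nat_lit 23)))) 
  (.dom (nat_lit 176)))) 
  (.br (nat_lit 4) (.br (nat_lit 6) (.br (nat_lit 2) (.far (nat_lit 231427) (nat_lit 0)) 
  (.br (nat_lit 5) (.br (nat_lit 16) (.br (nat_lit 23) (.br (nat_lit 10) (.far (nat_lit 7330) (nat_lit 3138)) 
  (.br (nat_lit 15) (.br (nat_lit 1) (.br (nat_lit 2) (.br (nat_lit 7) (.far (nat_lit 2050) (nat_lit 0)) (.br (nat_lit 12) (.far (nat_lit 225) (nat_lit 193)) (.dom (nat_lit 235)))) 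
  (.br (nat_lit 17) (.far (nat_lit 5122) (nat_lit 7362)) (.dom (nat_lit 309)))) 
  (.br (nat_lit 18) (.br (nat_lit 2) (.far (nat_lit 225) (nat_lit 161)) 
  (.br (nat_lit 17) (.br (nat_lit 12) (.far (nat_lit 225) (nat_lit 1)) 
  (.br (nat_lit 7) (.br (nat_lit 10) (.far (nat_lit 225) (nat_lit 97)) (.br (nat_lit 19) (.far (nat_lit 65) (nat_lit 97)) (.dom (nat_lit 195)))) 
  (.dom (nat_lit 235)))) 
  (.dom (nat_lit 309)))) 
  (.dom (nat_lit 268)))) 
  (.dom (nat_lit 23)))) 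
  (.dom (nat_lit 176))) 
  (.dom (nat_lit 75))) 
  (.dom (nat_lit 49)))) 
  (.dom (nat_lit 46))) 
  (.dom (nat_lit 215)))) 
  (.br (nat_lit 6) (.br (nat_lit 7) (.br (nat_lit 5) (.br (nat_lit 2) (.far (nat_lit 1) (nat_lit 161)) 
  (.br (nat_lit 23) (.br (nat_lit 17) (.br (nat_lit 21) (.br (nat_lit 15) (.br (nat_lit 1) (.far (nat_lit 161) (nat_lit 225)) 
  (.br (nat_lit 18) (.br (nat_lit 19) (.far (nat_lit 193) (nat_lit 225)) (.br (nat_lit 10) (.far (nat_lit 1) (nat_lit 65)) (.dom (nat_lit 323)))) 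
  (.dom (nat_lit 84)))) 
  (.br (nat_lit 10) (.far (nat_lit 1) (nat_lit 65)) (.dom (nat_lit 23)))) 
  (.br (nat_lit 4) (.br (nat_lit 16) (.br (nat_lit 1) (.far (nat_lit 1) (nat_lit 193)) 
  (.br (nat_lit 18) (.br (nat_lit 10) (.far (nat_lit 225) (nat_lit 97)) (.br (nat_lit 19) (.far (nat_lit 65) (nat_lit 97)) (.dom (nat_lit 323)))) 
  (.dom (nat_lit 84)))) 
  (.dom (nat_lit 75))) 
  (.dom (nat_lit 215)))) 
  (.dom (nat_lit 142))) 
  (.dom (nat_lit 176)))) 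
  (.dom (nat_lit 209))) 
  (.dom (nat_lit 16))) 
  (.dom (nat_lit 207)))) 
  (.br (nat_lit 6) (.br (nat_lit 18) (.br (nat_lit 16) (.br (nat_lit 4) (.br (nat_lit 2) (.far (nat_lit 225) (nat_lit 161)) 
  (.br (nat_lit 17) (.br (nat_lit 23) (.br (nat_lit 5) (.br (nat_lit 7) (.br (nat_lit 10) (.far (nat_lit 225) (nat_lit 97)) 
  (.br (nat_lit 15) (.br (nat_lit 19) (.far (nat_lit 65) (nat_lit 97)) (.br (nat_lit 12) (.far (nat_lit 225) (nat_lit 193)) (.dom (nat_lit 320)))) 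
  (.dom (nat_lit 23)))) 
  (.br (nat_lit 12) (.far (nat_lit 225) (nat_lit 193)) (.dom (nat_lit 12)))) 
  (.br (nat_lit 20) (.br (nat_lit 21) (.br (nat_lit 10) (.far (nat_lit 225) (nat_lit 65)) 
  (.br (nat_lit 15) (.br (nat_lit 12) (.far (nat_lit 225) (nat_lit 1)) (.br (nat_lit 19) (.far (nat_lit 193) (nat_lit 1)) (.dom (nat_lit 320)))) 
  (.dom (nat_lit 23)))) 
  (.dom (nat_lit 49))) 
  (.dom (nat_lit 209)))) 
  (.dom (nat_lit 176))) 
  (.dom (nat_lit 136)))) 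
  (.br (nat_lit 15) (.br (nat_lit 21) (.br (nat_lit 20) (.br (nat_lit 2) (.far (nat_lit 225) (nat_lit 161)) 
  (.br (nat_lit 23) (.br (nat_lit 17) (.br (nat_lit 12) (.far (nat_lit 225) (nat_lit 1)) 
  (.br (nat_lit 7) (.br (nat_lit 19) (.far (nat_lit 193) (nat_lit 1)) (.br (nat_lit 9) (.far (nat_lit 97) (nat_lit 65)) (.dom (nat_lit 319)))) 
  (.dom (nat_lit 12)))) 
  (.dom (nat_lit 136))) 
  (.dom (nat_lit 169)))) 
  (.br (nat_lit 7) (.br (nat_lit 5) (.br (nat_lit 2) (.far (nat_lit 225) (nat_lit 161)) 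
  (.br (nat_lit 17) (.br (nat_lit 23) (.br (nat_lit 19) (.far (nat_lit 0) (nat_lit 166915)) (.dom (nat_lit 322))) (.dom (nat_lit 169))) 
  (.dom (nat_lit 136)))) 
  (.dom (nat_lit 209))) 
  (.dom (nat_lit 14)))) 
  (.dom (nat_lit 215))) 
  (.dom (nat_lit 21)))) 
  (.dom (nat_lit 218))) 
  (.dom (nat_lit 82))) 
  (.dom (nat_lit 204)))) 
  (.dom (nat_lit 214))) 
  (.dom (nat_lit 368)))) 
  (.dom (nat_lit 211))) 
  (.dom (nat_lit 369))))

/-- search tree -/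
def gp666B2 : BB := (.br (nat_lit 4) (.br (nat_lit 12) (.br (nat_lit 5) (.br (nat_lit 13) (.br (nat_lit 16) (.far (nat_lit 0) (nat_lit 193)) (.br (nat_lit 3) (.far (nat_lit 100355) (nat_lit 235715)) (.dom (nat_lit 217)))) 
  (.br (nat_lit 6) (.br (nat_lit 10) (.br (nat_lit 16) (.far (nat_lit 7170) (nat_lit 6242)) 
  (.br (nat_lit 3) (.br (nat_lit 9) (.br (nat_lit 2) (.br (nat_lit 7) (.far (nat_lit 1) (nat_lit 161)) (.br (nat_lit 8) (.far (nat_lit 7170) (nat_lit 0)) (.dom (nat_lit 63)))) 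
  (.br (nat_lit 11) (.br (nat_lit 7) (.far (nat_lit 1) (nat_lit 97)) (.br (nat_lit 8) (.far (nat_lit 1) (nat_lit 65)) (.dom (nat_lit 63)))) 
  (.dom (nat_lit 72)))) 
  (.dom (nat_lit 218))) 
  (.dom (nat_lit 217)))) 
  (.dom (nat_lit 211))) 
  (.dom (nat_lit 210)))) 
  (.br (nat_lit 14) (.br (nat_lit 20) (.br (nat_lit 13) (.br (nat_lit 16) (.far (nat_lit 7266) (nat_lit 6146)) 
  (.br (nat_lit 3) (.br (nat_lit 9) (.br (nat_lit 2) (.br (nat_lit 8) (.far (nat_lit 7266) (nat_lit 0)) (.br (nat_lit 15) (.far (nat_lit 97) (nat_lit 161)) (.dom (nat_lit 67)))) 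
  (.br (nat_lit 21) (.br (nat_lit 8) (.far (nat_lit 97) (nat_lit 65)) (.br (nat_lit 15) (.far (nat_lit 97) (nat_lit 1)) (.dom (nat_lit 67)))) 
  (.dom (nat_lit 77)))) 
  (.dom (nat_lit 218))) 
  (.dom (nat_lit 217)))) 
  (.br (nat_lit 6) (.br (nat_lit 10) (.br (nat_lit 16) (.br (nat_lit 2) (.br (nat_lit 8) (.far (nat_lit 7266) (nat_lit 0)) (.br (nat_lit 18) (.far (nat_lit 225) (nat_lit 161)) (.dom (nat_lit 92)))) 
  (.br (nat_lit 22) (.br (nat_lit 8) (.far (nat_lit 225) (nat_lit 65)) (.br (nat_lit 18) (.far (nat_lit 225) (nat_lit 1)) (.dom (nat_lit 92)))) 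
  (.dom (nat_lit 118)))) 
  (.br (nat_lit 3) (.br (nat_lit 9) (.br (nat_lit 2) (.far (nat_lit 7440388) (nat_lit 161)) 
  (.br (nat_lit 11) (.br (nat_lit 21) (.br (nat_lit 22) (.br (nat_lit 8) (.far (nat_lit 225) (nat_lit 65)) 
  (.br (nat_lit 7) (.br (nat_lit 15) (.br (nat_lit 18) (.br (nat_lit 2) (.br (nat_lit 8) (.far (nat_lit 7362) (nat_lit 0)) (.br (nat_lit 19) (.far (nat_lit 0) (nat_lit 161)) (.dom (nat_lit 336)))) 
  (.br (nat_lit 23) (.br (nat_lit 8) (.far (nat_lit 0) (nat_lit 65)) (.br (nat_lit 19) (.far (nat_lit 193) (nat_lit 1)) (.dom (nat_lit 336)))) 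
  (.dom (nat_lit 360)))) 
  (.dom (nat_lit 92))) 
  (.dom (nat_lit 67))) 
  (.dom (nat_lit 63)))) 
  (.dom (nat_lit 118))) 
  (.dom (nat_lit 77))) 
  (.dom (nat_lit 72)))) 
  (.dom (nat_lit 218))) 
  (.dom (nat_lit 217)))) 
  (.dom (nat_lit 211))) 
  (.dom (nat_lit 210)))) 
  (.dom (nat_lit 209))) 
  (.dom (nat_lit 208)))) 
  (.br (nat_lit 7) (.br (nat_lit 11) (.br (nat_lit 5) (.br (nat_lit 3) (.br (nat_lit 6) (.far (nat_lit 65539) (nat_lit 235619)) (.br (nat_lit 9) (.far (nat_lit 1) (nat_lit 225)) (.dom (nat_lit 204)))) 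
  (.br (nat_lit 10) (.br (nat_lit 16) (.far (nat_lit 5122) (nat_lit 6242)) (.dom (nat_lit 217))) (.dom (nat_lit 368)))) 
  (.br (nat_lit 14) (.br (nat_lit 20) (.br (nat_lit 3) (.br (nat_lit 9) (.br (nat_lit 13) (.br (nat_lit 2) (.br (nat_lit 8) (.br (nat_lit 6) (.br (nat_lit 10) (.far (nat_lit 6146) (nat_lit 0)) (.br (nat_lit 15) (.far (nat_lit 97) (nat_lit 161)) (.dom (nat_lit 28)))) 
  (.br (nat_lit 21) (.far (nat_lit 97) (nat_lit 65)) (.dom (nat_lit 48)))) 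
  (.br (nat_lit 19) (.br (nat_lit 15) (.far (nat_lit 3138) (nat_lit 7330)) 
  (.br (nat_lit 6) (.br (nat_lit 10) (.br (nat_lit 16) (.br (nat_lit 5) (.far (nat_lit 1) (nat_lit 97)) 
  (.br (nat_lit 8) (.far (nat_lit 7170) (nat_lit 0)) (.br (nat_lit 18) (.far (nat_lit 225) (nat_lit 161)) (.dom (nat_lit 261))))) 
  (.dom (nat_lit 67))) 
  (.dom (nat_lit 28))) 
  (.dom (nat_lit 27)))) 
  (.dom (nat_lit 162)))) 
  (.br (nat_lit 23) (.br (nat_lit 21) (.br (nat_lit 8) (.far (nat_lit 5218) (nat_lit 7234)) 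
  (.br (nat_lit 19) (.br (nat_lit 15) (.far (nat_lit 193) (nat_lit 225)) 
  (.br (nat_lit 6) (.br (nat_lit 10) (.br (nat_lit 16) (.br (nat_lit 5) (.far (nat_lit 161) (nat_lit 225)) 
  (.br (nat_lit 22) (.br (nat_lit 8) (.far (nat_lit 0) (nat_lit 65)) (.br (nat_lit 18) (.far (nat_lit 225) (nat_lit 97)) (.dom (nat_lit 261)))) 
  (.dom (nat_lit 286)))) 
  (.dom (nat_lit 67))) 
  (.dom (nat_lit 28))) 
  (.dom (nat_lit 27)))) 
  (.dom (nat_lit 162)))) 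
  (.br (nat_lit 10) (.br (nat_lit 6) (.br (nat_lit 16) (.br (nat_lit 8) (.br (nat_lit 2) (.far (nat_lit 7569412) (nat_lit 97)) 
  (.br (nat_lit 5) (.far (nat_lit 1) (nat_lit 97)) (.br (nat_lit 22) (.far (nat_lit 225) (nat_lit 65)) (.dom (nat_lit 290))))) 
  (.br (nat_lit 19) (.br (nat_lit 5) (.far (nat_lit 1) (nat_lit 97)) 
  (.br (nat_lit 18) (.br (nat_lit 22) (.far (nat_lit 225) (nat_lit 97)) (.br (nat_lit 2) (.far (nat_lit 225) (nat_lit 161)) (.dom (nat_lit 290)))) 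
  (.dom (nat_lit 269)))) 
  (.dom (nat_lit 162)))) 
  (.dom (nat_lit 77))) 
  (.dom (nat_lit 48))) 
  (.dom (nat_lit 49)))) 
  (.dom (nat_lit 180)))) 
  (.br (nat_lit 6) (.br (nat_lit 10) (.br (nat_lit 2) (.far (nat_lit 1) (nat_lit 161)) 
  (.br (nat_lit 22) (.br (nat_lit 23) (.br (nat_lit 8) (.far (nat_lit 225) (nat_lit 65)) 
  (.br (nat_lit 18) (.br (nat_lit 19) (.far (nat_lit 193) (nat_lit 97)) (.dom (nat_lit 162))) (.dom (nat_lit 92)))) 
  (.dom (nat_lit 180))) 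
  (.dom (nat_lit 118)))) 
  (.dom (nat_lit 211))) 
  (.dom (nat_lit 210)))) 
  (.br (nat_lit 6) (.br (nat_lit 16) (.br (nat_lit 18) (.br (nat_lit 2) (.far (nat_lit 225) (nat_lit 161)) 
  (.br (nat_lit 22) (.br (nat_lit 23) (.br (nat_lit 10) (.far (nat_lit 225) (nat_lit 97)) 
  (.br (nat_lit 15) (.br (nat_lit 13) (.br (nat_lit 21) (.br (nat_lit 19) (.far (nat_lit 193) (nat_lit 1)) (.br (nat_lit 12) (.far (nat_lit 225) (nat_lit 1)) (.dom (nat_lit 327)))) 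
  (.dom (nat_lit 49))) 
  (.dom (nat_lit 211))) 
  (.dom (nat_lit 28)))) 
  (.dom (nat_lit 180))) 
  (.dom (nat_lit 113)))) 
  (.dom (nat_lit 87))) 
  (.dom (nat_lit 218))) 
  (.dom (nat_lit 204)))) 
  (.br (nat_lit 10) (.br (nat_lit 16) (.br (nat_lit 22) (.br (nat_lit 6) (.br (nat_lit 8) (.far (nat_lit 225) (nat_lit 65)) (.br (nat_lit 18) (.far (nat_lit 225) (nat_lit 97)) (.dom (nat_lit 86)))) 
  (.br (nat_lit 9) (.br (nat_lit 13) (.br (nat_lit 21) (.br (nat_lit 8) (.far (nat_lit 225) (nat_lit 65)) 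
  (.br (nat_lit 19) (.br (nat_lit 15) (.br (nat_lit 18) (.br (nat_lit 23) (.far (nat_lit 193) (nat_lit 1)) (.br (nat_lit 12) (.far (nat_lit 225) (nat_lit 1)) (.dom (nat_lit 350)))) 
  (.dom (nat_lit 86))) 
  (.dom (nat_lit 27))) 
  (.dom (nat_lit 162)))) 
  (.dom (nat_lit 48))) 
  (.dom (nat_lit 210))) 
  (.dom (nat_lit 204)))) 
  (.dom (nat_lit 112))) 
  (.dom (nat_lit 217))) 
  (.dom (nat_lit 368)))) 
  (.dom (nat_lit 209))) 
  (.dom (nat_lit 208)))) 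
  (.dom (nat_lit 214))) 
  (.dom (nat_lit 212)))) 
  (.br (nat_lit 15) (.br (nat_lit 21) (.br (nat_lit 12) (.br (nat_lit 13) (.br (nat_lit 3) (.br (nat_lit 5) (.far (nat_lit 3138) (nat_lit 7362)) (.br (nat_lit 14) (.far (nat_lit 101443) (nat_lit 235523)) (.dom (nat_lit 208)))) 
  (.br (nat_lit 16) (.br (nat_lit 20) (.far (nat_lit 5218) (nat_lit 6146)) (.dom (nat_lit 206))) (.dom (nat_lit 217)))) 
  (.br (nat_lit 6) (.br (nat_lit 10) (.br (nat_lit 3) (.br (nat_lit 9) (.br (nat_lit 5) (.br (nat_lit 2) (.br (nat_lit 7) (.br (nat_lit 8) (.br (nat_lit 11) (.far (nat_lit 6146) (nat_lit 0)) (.br (nat_lit 14) (.far (nat_lit 97) (nat_lit 161)) (.dom (nat_lit 36)))) 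
  (.br (nat_lit 19) (.far (nat_lit 2050) (nat_lit 7330)) (.dom (nat_lit 163)))) 
  (.br (nat_lit 20) (.br (nat_lit 8) (.far (nat_lit 97) (nat_lit 65)) 
  (.br (nat_lit 14) (.br (nat_lit 16) (.br (nat_lit 19) (.br (nat_lit 8) (.far (nat_lit 7572580) (nat_lit 1)) 
  (.br (nat_lit 13) (.far (nat_lit 97) (nat_lit 1)) (.br (nat_lit 18) (.far (nat_lit 225) (nat_lit 161)) (.dom (nat_lit 260))))) 
  (.dom (nat_lit 163))) 
  (.dom (nat_lit 63))) 
  (.dom (nat_lit 18)))) 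
  (.dom (nat_lit 20)))) 
  (.br (nat_lit 23) (.br (nat_lit 11) (.br (nat_lit 7) (.br (nat_lit 8) (.far (nat_lit 1) (nat_lit 7234)) (.br (nat_lit 19) (.far (nat_lit 193) (nat_lit 225)) (.dom (nat_lit 163)))) 
  (.br (nat_lit 20) (.br (nat_lit 8) (.far (nat_lit 97) (nat_lit 65)) 
  (.br (nat_lit 14) (.br (nat_lit 16) (.br (nat_lit 19) (.br (nat_lit 13) (.far (nat_lit 97) (nat_lit 1)) 
  (.br (nat_lit 22) (.br (nat_lit 8) (.far (nat_lit 0) (nat_lit 65)) (.br (nat_lit 18) (.far (nat_lit 225) (nat_lit 1)) (.dom (nat_lit 260)))) 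
  (.dom (nat_lit 282)))) 
  (.dom (nat_lit 163))) 
  (.dom (nat_lit 63))) 
  (.dom (nat_lit 18)))) 
  (.dom (nat_lit 20)))) 
  (.br (nat_lit 20) (.br (nat_lit 14) (.br (nat_lit 16) (.br (nat_lit 8) (.br (nat_lit 2) (.far (nat_lit 7572580) (nat_lit 1)) 
  (.br (nat_lit 13) (.far (nat_lit 97) (nat_lit 1)) (.br (nat_lit 22) (.far (nat_lit 225) (nat_lit 65)) (.dom (nat_lit 288))))) 
  (.br (nat_lit 19) (.br (nat_lit 13) (.far (nat_lit 97) (nat_lit 1)) 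
  (.br (nat_lit 18) (.br (nat_lit 22) (.far (nat_lit 225) (nat_lit 1)) (.br (nat_lit 2) (.far (nat_lit 225) (nat_lit 161)) (.dom (nat_lit 288)))) 
  (.dom (nat_lit 264)))) 
  (.dom (nat_lit 163)))) 
  (.dom (nat_lit 72))) 
  (.dom (nat_lit 36))) 
  (.dom (nat_lit 37)))) 
  (.dom (nat_lit 181)))) 
  (.br (nat_lit 14) (.br (nat_lit 20) (.br (nat_lit 2) (.far (nat_lit 97) (nat_lit 161)) 
  (.br (nat_lit 22) (.br (nat_lit 23) (.br (nat_lit 8) (.far (nat_lit 225) (nat_lit 65)) 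
  (.br (nat_lit 18) (.br (nat_lit 19) (.far (nat_lit 193) (nat_lit 1)) (.dom (nat_lit 163))) (.dom (nat_lit 92)))) 
  (.dom (nat_lit 181))) 
  (.dom (nat_lit 118)))) 
  (.dom (nat_lit 209))) 
  (.dom (nat_lit 208)))) 
  (.br (nat_lit 14) (.br (nat_lit 16) (.br (nat_lit 18) (.br (nat_lit 2) (.far (nat_lit 225) (nat_lit 161)) 
  (.br (nat_lit 22) (.br (nat_lit 23) (.br (nat_lit 20) (.far (nat_lit 225) (nat_lit 1)) 
  (.br (nat_lit 7) (.br (nat_lit 5) (.br (nat_lit 11) (.br (nat_lit 19) (.far (nat_lit 193) (nat_lit 97)) (.br (nat_lit 4) (.far (nat_lit 225) (nat_lit 97)) (.dom (nat_lit 329)))) 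
  (.dom (nat_lit 37))) 
  (.dom (nat_lit 209))) 
  (.dom (nat_lit 20)))) 
  (.dom (nat_lit 181))) 
  (.dom (nat_lit 116)))) 
  (.dom (nat_lit 90))) 
  (.dom (nat_lit 218))) 
  (.dom (nat_lit 205)))) 
  (.br (nat_lit 20) (.br (nat_lit 16) (.br (nat_lit 22) (.br (nat_lit 14) (.br (nat_lit 8) (.far (nat_lit 225) (nat_lit 65)) (.br (nat_lit 18) (.far (nat_lit 225) (nat_lit 1)) (.dom (nat_lit 89)))) 
  (.br (nat_lit 9) (.br (nat_lit 5) (.br (nat_lit 11) (.br (nat_lit 8) (.far (nat_lit 225) (nat_lit 65)) 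
  (.br (nat_lit 19) (.br (nat_lit 7) (.br (nat_lit 18) (.br (nat_lit 23) (.far (nat_lit 193) (nat_lit 97)) (.br (nat_lit 4) (.far (nat_lit 225) (nat_lit 97)) (.dom (nat_lit 352)))) 
  (.dom (nat_lit 89))) 
  (.dom (nat_lit 18))) 
  (.dom (nat_lit 163)))) 
  (.dom (nat_lit 36))) 
  (.dom (nat_lit 208))) 
  (.dom (nat_lit 205)))) 
  (.dom (nat_lit 115))) 
  (.dom (nat_lit 217))) 
  (.dom (nat_lit 206)))) 
  (.dom (nat_lit 211))) 
  (.dom (nat_lit 210)))) 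
  (.br (nat_lit 7) (.br (nat_lit 11) (.br (nat_lit 3) (.br (nat_lit 9) (.br (nat_lit 5) (.far (nat_lit 1) (nat_lit 225)) 
  (.br (nat_lit 14) (.br (nat_lit 20) (.br (nat_lit 13) (.far (nat_lit 97) (nat_lit 225)) 
  (.br (nat_lit 6) (.br (nat_lit 10) (.br (nat_lit 2) (.far (nat_lit 97) (nat_lit 161)) 
  (.br (nat_lit 23) (.br (nat_lit 22) (.br (nat_lit 8) (.far (nat_lit 0) (nat_lit 65)) (.br (nat_lit 19) (.far (nat_lit 193) (nat_lit 225)) (.dom (nat_lit 162)))) 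
  (.dom (nat_lit 118))) 
  (.dom (nat_lit 180)))) 
  (.dom (nat_lit 211))) 
  (.dom (nat_lit 210)))) 
  (.dom (nat_lit 209))) 
  (.dom (nat_lit 208)))) 
  (.br (nat_lit 6) (.br (nat_lit 14) (.br (nat_lit 19) (.br (nat_lit 16) (.br (nat_lit 18) (.br (nat_lit 2) (.far (nat_lit 0) (nat_lit 161)) 
  (.br (nat_lit 23) (.br (nat_lit 5) (.far (nat_lit 0) (nat_lit 234595)) (.br (nat_lit 22) (.far (nat_lit 0) (nat_lit 166915)) (.dom (nat_lit 113)))) 
  (.dom (nat_lit 169)))) 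
  (.br (nat_lit 5) (.br (nat_lit 13) (.far (nat_lit 65) (nat_lit 225)) (.dom (nat_lit 90))) (.dom (nat_lit 87)))) 
  (.dom (nat_lit 218))) 
  (.dom (nat_lit 151))) 
  (.dom (nat_lit 205))) 
  (.dom (nat_lit 204)))) 
  (.br (nat_lit 10) (.br (nat_lit 20) (.br (nat_lit 16) (.br (nat_lit 23) (.br (nat_lit 9) (.br (nat_lit 22) (.br (nat_lit 8) (.far (nat_lit 0) (nat_lit 65)) 
  (.br (nat_lit 19) (.br (nat_lit 5) (.far (nat_lit 0) (nat_lit 232515)) (.br (nat_lit 18) (.far (nat_lit 0) (nat_lit 100355)) (.dom (nat_lit 86)))) 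
  (.dom (nat_lit 150)))) 
  (.br (nat_lit 5) (.br (nat_lit 13) (.far (nat_lit 161) (nat_lit 225)) (.dom (nat_lit 115))) (.dom (nat_lit 112)))) 
  (.br (nat_lit 22) (.br (nat_lit 18) (.br (nat_lit 19) (.far (nat_lit 0) (nat_lit 100355)) (.dom (nat_lit 151))) (.dom (nat_lit 80))) 
  (.dom (nat_lit 107)))) 
  (.dom (nat_lit 168))) 
  (.dom (nat_lit 217))) 
  (.dom (nat_lit 206))) 
  (.dom (nat_lit 368)))) 
  (.dom (nat_lit 214))) 
  (.dom (nat_lit 212)))) 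
  (.dom (nat_lit 215))) 
  (.dom (nat_lit 370))))

/-- search tree -/
def gp666B3 : BB := (.br (nat_lit 4) (.br (nat_lit 12) (.br (nat_lit 16) (.br (nat_lit 5) (.br (nat_lit 6) (.far (nat_lit 7234) (nat_lit 6242)) (.br (nat_lit 13) (.far (nat_lit 225) (nat_lit 6491140)) (.dom (nat_lit 210)))) 
  (.br (nat_lit 14) (.br (nat_lit 20) (.far (nat_lit 225) (nat_lit 1)) (.dom (nat_lit 209))) (.dom (nat_lit 208)))) 
  (.br (nat_lit 3) (.br (nat_lit 9) (.br (nat_lit 6) (.br (nat_lit 10) (.br (nat_lit 5) (.br (nat_lit 2) (.br (nat_lit 7) (.br (nat_lit 8) (.br (nat_lit 11) (.far (nat_lit 6146) (nat_lit 0)) (.br (nat_lit 14) (.far (nat_lit 225) (nat_lit 161)) (.dom (nat_lit 69)))) 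
  (.br (nat_lit 19) (.far (nat_lit 2050) (nat_lit 5218)) (.dom (nat_lit 166)))) 
  (.br (nat_lit 20) (.br (nat_lit 8) (.far (nat_lit 225) (nat_lit 65)) 
  (.br (nat_lit 14) (.br (nat_lit 13) (.br (nat_lit 19) (.br (nat_lit 8) (.far (nat_lit 7575748) (nat_lit 1)) 
  (.br (nat_lit 15) (.far (nat_lit 7362) (nat_lit 5122)) (.br (nat_lit 16) (.far (nat_lit 225) (nat_lit 1)) (.dom (nat_lit 252))))) 
  (.dom (nat_lit 166))) 
  (.dom (nat_lit 63))) 
  (.dom (nat_lit 60)))) 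
  (.dom (nat_lit 62)))) 
  (.br (nat_lit 23) (.br (nat_lit 11) (.br (nat_lit 7) (.br (nat_lit 8) (.far (nat_lit 1) (nat_lit 3138)) (.br (nat_lit 19) (.far (nat_lit 193) (nat_lit 97)) (.dom (nat_lit 166)))) 
  (.br (nat_lit 20) (.br (nat_lit 8) (.far (nat_lit 225) (nat_lit 65)) 
  (.br (nat_lit 13) (.br (nat_lit 14) (.br (nat_lit 19) (.br (nat_lit 16) (.far (nat_lit 225) (nat_lit 1)) 
  (.br (nat_lit 21) (.br (nat_lit 8) (.far (nat_lit 0) (nat_lit 65)) (.br (nat_lit 15) (.far (nat_lit 193) (nat_lit 1)) (.dom (nat_lit 252)))) 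
  (.dom (nat_lit 254)))) 
  (.dom (nat_lit 166))) 
  (.dom (nat_lit 60))) 
  (.dom (nat_lit 63)))) 
  (.dom (nat_lit 62)))) 
  (.br (nat_lit 20) (.br (nat_lit 13) (.br (nat_lit 14) (.br (nat_lit 8) (.br (nat_lit 2) (.far (nat_lit 7575748) (nat_lit 1)) 
  (.br (nat_lit 16) (.far (nat_lit 225) (nat_lit 1)) (.br (nat_lit 21) (.far (nat_lit 97) (nat_lit 65)) (.dom (nat_lit 255))))) 
  (.br (nat_lit 19) (.br (nat_lit 16) (.far (nat_lit 225) (nat_lit 1)) 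
  (.br (nat_lit 15) (.br (nat_lit 21) (.far (nat_lit 193) (nat_lit 1)) (.br (nat_lit 2) (.far (nat_lit 225) (nat_lit 161)) (.dom (nat_lit 255)))) 
  (.dom (nat_lit 253)))) 
  (.dom (nat_lit 166)))) 
  (.dom (nat_lit 69))) 
  (.dom (nat_lit 72))) 
  (.dom (nat_lit 70)))) 
  (.dom (nat_lit 184)))) 
  (.br (nat_lit 14) (.br (nat_lit 20) (.br (nat_lit 2) (.far (nat_lit 225) (nat_lit 161)) 
  (.br (nat_lit 21) (.br (nat_lit 23) (.br (nat_lit 8) (.far (nat_lit 225) (nat_lit 65)) 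
  (.br (nat_lit 15) (.br (nat_lit 19) (.far (nat_lit 193) (nat_lit 1)) (.dom (nat_lit 166))) (.dom (nat_lit 67)))) 
  (.dom (nat_lit 184))) 
  (.dom (nat_lit 77)))) 
  (.dom (nat_lit 209))) 
  (.dom (nat_lit 208)))) 
  (.br (nat_lit 14) (.br (nat_lit 13) (.br (nat_lit 15) (.br (nat_lit 2) (.far (nat_lit 97) (nat_lit 161)) 
  (.br (nat_lit 21) (.br (nat_lit 23) (.br (nat_lit 20) (.far (nat_lit 97) (nat_lit 1)) 
  (.br (nat_lit 7) (.br (nat_lit 5) (.br (nat_lit 11) (.br (nat_lit 19) (.far (nat_lit 193) (nat_lit 225)) (.br (nat_lit 1) (.far (nat_lit 161) (nat_lit 225)) (.dom (nat_lit 335)))) 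
  (.dom (nat_lit 70))) 
  (.dom (nat_lit 209))) 
  (.dom (nat_lit 62)))) 
  (.dom (nat_lit 184))) 
  (.dom (nat_lit 75)))) 
  (.dom (nat_lit 66))) 
  (.dom (nat_lit 211))) 
  (.dom (nat_lit 369)))) 
  (.br (nat_lit 20) (.br (nat_lit 13) (.br (nat_lit 21) (.br (nat_lit 14) (.br (nat_lit 8) (.far (nat_lit 97) (nat_lit 65)) (.br (nat_lit 15) (.far (nat_lit 97) (nat_lit 1)) (.dom (nat_lit 64)))) 
  (.br (nat_lit 10) (.br (nat_lit 5) (.br (nat_lit 11) (.br (nat_lit 8) (.far (nat_lit 97) (nat_lit 65)) 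
  (.br (nat_lit 19) (.br (nat_lit 7) (.br (nat_lit 15) (.br (nat_lit 23) (.far (nat_lit 193) (nat_lit 225)) (.br (nat_lit 1) (.far (nat_lit 97) (nat_lit 193)) (.dom (nat_lit 358)))) 
  (.dom (nat_lit 64))) 
  (.dom (nat_lit 60))) 
  (.dom (nat_lit 166)))) 
  (.dom (nat_lit 69))) 
  (.dom (nat_lit 208))) 
  (.dom (nat_lit 369)))) 
  (.dom (nat_lit 74))) 
  (.dom (nat_lit 210))) 
  (.dom (nat_lit 207)))) 
  (.dom (nat_lit 218))) 
  (.dom (nat_lit 217)))) 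
  (.br (nat_lit 7) (.br (nat_lit 11) (.br (nat_lit 6) (.br (nat_lit 10) (.br (nat_lit 5) (.far (nat_lit 1) (nat_lit 97)) 
  (.br (nat_lit 14) (.br (nat_lit 20) (.br (nat_lit 16) (.far (nat_lit 225) (nat_lit 97)) 
  (.br (nat_lit 3) (.br (nat_lit 9) (.br (nat_lit 2) (.far (nat_lit 225) (nat_lit 161)) 
  (.br (nat_lit 23) (.br (nat_lit 21) (.br (nat_lit 8) (.far (nat_lit 0) (nat_lit 65)) (.br (nat_lit 19) (.far (nat_lit 193) (nat_lit 97)) (.dom (nat_lit 162)))) 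
  (.dom (nat_lit 77))) 
  (.dom (nat_lit 180)))) 
  (.dom (nat_lit 218))) 
  (.dom (nat_lit 217)))) 
  (.dom (nat_lit 209))) 
  (.dom (nat_lit 208)))) 
  (.br (nat_lit 3) (.br (nat_lit 14) (.br (nat_lit 19) (.br (nat_lit 13) (.br (nat_lit 15) (.br (nat_lit 2) (.far (nat_lit 0) (nat_lit 161)) 
  (.br (nat_lit 23) (.br (nat_lit 5) (.far (nat_lit 0) (nat_lit 234595)) (.br (nat_lit 21) (.far (nat_lit 0) (nat_lit 234499)) (.dom (nat_lit 49)))) 
  (.dom (nat_lit 176)))) 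
  (.br (nat_lit 5) (.br (nat_lit 16) (.far (nat_lit 65) (nat_lit 97)) (.dom (nat_lit 66))) (.dom (nat_lit 28)))) 
  (.dom (nat_lit 211))) 
  (.dom (nat_lit 154))) 
  (.dom (nat_lit 369))) 
  (.dom (nat_lit 368)))) 
  (.br (nat_lit 9) (.br (nat_lit 20) (.br (nat_lit 13) (.br (nat_lit 23) (.br (nat_lit 10) (.br (nat_lit 21) (.br (nat_lit 8) (.far (nat_lit 0) (nat_lit 65)) 
  (.br (nat_lit 19) (.br (nat_lit 5) (.far (nat_lit 0) (nat_lit 232515)) (.br (nat_lit 15) (.far (nat_lit 0) (nat_lit 231427)) (.dom (nat_lit 27)))) 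
  (.dom (nat_lit 152)))) 
  (.br (nat_lit 5) (.br (nat_lit 16) (.far (nat_lit 161) (nat_lit 97)) (.dom (nat_lit 74))) (.dom (nat_lit 48)))) 
  (.br (nat_lit 21) (.br (nat_lit 15) (.br (nat_lit 19) (.far (nat_lit 0) (nat_lit 231427)) (.dom (nat_lit 154))) (.dom (nat_lit 22))) 
  (.dom (nat_lit 46)))) 
  (.dom (nat_lit 170))) 
  (.dom (nat_lit 210))) 
  (.dom (nat_lit 207))) 
  (.dom (nat_lit 204)))) 
  (.dom (nat_lit 214))) 
  (.dom (nat_lit 212)))) 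
  (.br (nat_lit 15) (.br (nat_lit 21) (.br (nat_lit 14) (.br (nat_lit 20) (.br (nat_lit 12) (.br (nat_lit 13) (.far (nat_lit 97) (nat_lit 1)) 
  (.br (nat_lit 6) (.br (nat_lit 10) (.br (nat_lit 16) (.far (nat_lit 225) (nat_lit 1)) 
  (.br (nat_lit 3) (.br (nat_lit 9) (.br (nat_lit 2) (.far (nat_lit 225) (nat_lit 161)) 
  (.br (nat_lit 23) (.br (nat_lit 11) (.br (nat_lit 8) (.far (nat_lit 0) (nat_lit 65)) (.br (nat_lit 19) (.far (nat_lit 193) (nat_lit 1)) (.dom (nat_lit 163)))) 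
  (.dom (nat_lit 72))) 
  (.dom (nat_lit 181)))) 
  (.dom (nat_lit 218))) 
  (.dom (nat_lit 217)))) 
  (.dom (nat_lit 211))) 
  (.dom (nat_lit 210)))) 
  (.br (nat_lit 7) (.br (nat_lit 11) (.br (nat_lit 23) (.br (nat_lit 19) (.far (nat_lit 193) (nat_lit 1)) 
  (.br (nat_lit 9) (.br (nat_lit 10) (.br (nat_lit 8) (.far (nat_lit 0) (nat_lit 65)) 
  (.br (nat_lit 3) (.br (nat_lit 13) (.br (nat_lit 5) (.br (nat_lit 6) (.br (nat_lit 16) (.br (nat_lit 8) (.far (nat_lit 0) (nat_lit 65)) (.br (nat_lit 19) (.far (nat_lit 193) (nat_lit 1)) (.dom (nat_lit 341)))) 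
  (.dom (nat_lit 166))) 
  (.dom (nat_lit 152))) 
  (.dom (nat_lit 162))) 
  (.dom (nat_lit 163))) 
  (.dom (nat_lit 150)))) 
  (.dom (nat_lit 154))) 
  (.dom (nat_lit 151)))) 
  (.br (nat_lit 3) (.br (nat_lit 6) (.br (nat_lit 2) (.far (nat_lit 225) (nat_lit 161)) 
  (.br (nat_lit 9) (.br (nat_lit 10) (.br (nat_lit 5) (.br (nat_lit 13) (.br (nat_lit 16) (.br (nat_lit 8) (.br (nat_lit 2) (.far (nat_lit 7362) (nat_lit 0)) (.br (nat_lit 23) (.far (nat_lit 0) (nat_lit 65)) (.dom (nat_lit 366)))) 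
  (.br (nat_lit 19) (.br (nat_lit 2) (.far (nat_lit 0) (nat_lit 161)) (.br (nat_lit 23) (.far (nat_lit 193) (nat_lit 1)) (.dom (nat_lit 366)))) 
  (.dom (nat_lit 365)))) 
  (.dom (nat_lit 184))) 
  (.dom (nat_lit 181))) 
  (.dom (nat_lit 180))) 
  (.dom (nat_lit 176))) 
  (.dom (nat_lit 169)))) 
  (.dom (nat_lit 170))) 
  (.dom (nat_lit 168)))) 
  (.dom (nat_lit 214))) 
  (.dom (nat_lit 212)))) 
  (.br (nat_lit 3) (.br (nat_lit 6) (.br (nat_lit 19) (.br (nat_lit 5) (.br (nat_lit 7) (.br (nat_lit 2) (.far (nat_lit 0) (nat_lit 161)) 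
  (.br (nat_lit 23) (.br (nat_lit 11) (.far (nat_lit 0) (nat_lit 234595)) (.br (nat_lit 13) (.far (nat_lit 0) (nat_lit 234499)) (.dom (nat_lit 37)))) 
  (.dom (nat_lit 178)))) 
  (.br (nat_lit 12) (.br (nat_lit 13) (.br (nat_lit 16) (.far (nat_lit 65) (nat_lit 1)) (.dom (nat_lit 62))) (.dom (nat_lit 20))) 
  (.dom (nat_lit 212)))) 
  (.dom (nat_lit 209))) 
  (.dom (nat_lit 157))) 
  (.dom (nat_lit 207))) 
  (.dom (nat_lit 206)))) 
  (.br (nat_lit 9) (.br (nat_lit 10) (.br (nat_lit 5) (.br (nat_lit 23) (.br (nat_lit 20) (.br (nat_lit 11) (.br (nat_lit 8) (.far (nat_lit 0) (nat_lit 65)) 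
  (.br (nat_lit 19) (.br (nat_lit 7) (.far (nat_lit 0) (nat_lit 232515)) (.br (nat_lit 13) (.far (nat_lit 0) (nat_lit 231427)) (.dom (nat_lit 18)))) 
  (.dom (nat_lit 153)))) 
  (.br (nat_lit 12) (.br (nat_lit 13) (.br (nat_lit 16) (.far (nat_lit 161) (nat_lit 1)) (.dom (nat_lit 69))) (.dom (nat_lit 36))) 
  (.dom (nat_lit 214)))) 
  (.br (nat_lit 11) (.br (nat_lit 7) (.br (nat_lit 19) (.far (nat_lit 0) (nat_lit 232515)) (.dom (nat_lit 157))) (.dom (nat_lit 15))) 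
  (.dom (nat_lit 35)))) 
  (.dom (nat_lit 172))) 
  (.dom (nat_lit 208))) 
  (.dom (nat_lit 369))) 
  (.dom (nat_lit 205)))) 
  (.dom (nat_lit 215))) 
  (.dom (nat_lit 370))))

/-- search tree -/
def gp666B4 : BB := (.br (nat_lit 2) (.br (nat_lit 8) (.br (nat_lit 1) (.br (nat_lit 3) (.br (nat_lit 9) (.br (nat_lit 4) (.br (nat_lit 5) (.br (nat_lit 6) (.br (nat_lit 7) (.br (nat_lit 10) (.br (nat_lit 11) (.br (nat_lit 12) (.br (nat_lit 13) (.br (nat_lit 14) (.br (nat_lit 15) (.br (nat_lit 16) (.br (nat_lit 17) (.br (nat_lit 18) (.br (nat_lit 19) (.br (nat_lit 20) (.br (nat_lit 21) (.br (nat_lit 22) (.br (nat_lit 23) .nil (.far (nat_lit 0) (nat_lit 161))) (.far (nat_lit 0) (nat_lit 161))) 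
  (.far (nat_lit 0) (nat_lit 161))) 
  (.far (nat_lit 0) (nat_lit 161))) 
  (.far (nat_lit 0) (nat_lit 193))) 
  (.far (nat_lit 0) (nat_lit 193))) 
  (.far (nat_lit 1) (nat_lit 0))) 
  (.far (nat_lit 1) (nat_lit 0))) 
  (.far (nat_lit 1) (nat_lit 0))) 
  (.far (nat_lit 1) (nat_lit 0))) 
  (.far (nat_lit 1) (nat_lit 0))) 
  (.far (nat_lit 1) (nat_lit 0))) 
  (.far (nat_lit 7170) (nat_lit 0))) 
  (.far (nat_lit 3074) (nat_lit 0))) 
  (.far (nat_lit 3074) (nat_lit 0))) 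
  (.far (nat_lit 3074) (nat_lit 0))) 
  (.far (nat_lit 3074) (nat_lit 0))) 
  (.far (nat_lit 3074) (nat_lit 0))) 
  (.br (nat_lit 4) (.br (nat_lit 6) (.far (nat_lit 231427) (nat_lit 0)) (.br (nat_lit 12) (.far (nat_lit 232451) (nat_lit 193)) (.dom (nat_lit 204)))) 
  (.br (nat_lit 14) (.far (nat_lit 7441412) (nat_lit 161)) (.dom (nat_lit 205))))) 
  (.br (nat_lit 4) (.br (nat_lit 12) (.far (nat_lit 232451) (nat_lit 193)) (.br (nat_lit 10) (.far (nat_lit 234499) (nat_lit 0)) (.dom (nat_lit 368)))) 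
  (.br (nat_lit 20) (.br (nat_lit 9) (.far (nat_lit 7441412) (nat_lit 65)) (.br (nat_lit 14) (.far (nat_lit 235619) (nat_lit 0)) (.dom (nat_lit 205)))) 
  (.dom (nat_lit 206))))) 
  (.br (nat_lit 6) (.br (nat_lit 10) (.far (nat_lit 235523) (nat_lit 0)) (.br (nat_lit 14) (.far (nat_lit 7572484) (nat_lit 161)) (.dom (nat_lit 369)))) 
  (.br (nat_lit 20) (.br (nat_lit 9) (.far (nat_lit 7441412) (nat_lit 65)) (.br (nat_lit 12) (.far (nat_lit 234595) (nat_lit 0)) (.dom (nat_lit 204)))) 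
  (.dom (nat_lit 207))))) 
  (.br (nat_lit 1) (.br (nat_lit 3) (.br (nat_lit 4) (.br (nat_lit 6) (.br (nat_lit 5) (.br (nat_lit 7) (.far (nat_lit 2050) (nat_lit 0)) (.br (nat_lit 12) (.far (nat_lit 7440388) (nat_lit 193)) (.dom (nat_lit 212)))) 
  (.br (nat_lit 14) (.far (nat_lit 7440388) (nat_lit 161)) (.dom (nat_lit 208)))) 
  (.br (nat_lit 13) (.br (nat_lit 12) (.far (nat_lit 97) (nat_lit 193)) 
  (.br (nat_lit 7) (.br (nat_lit 9) (.br (nat_lit 5) (.far (nat_lit 3074) (nat_lit 7362)) 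
  (.br (nat_lit 14) (.br (nat_lit 8) (.far (nat_lit 3074) (nat_lit 0)) (.br (nat_lit 15) (.far (nat_lit 97) (nat_lit 161)) (.dom (nat_lit 27)))) 
  (.dom (nat_lit 208)))) 
  (.dom (nat_lit 204))) 
  (.dom (nat_lit 212)))) 
  (.dom (nat_lit 210)))) 
  (.br (nat_lit 15) (.br (nat_lit 14) (.far (nat_lit 97) (nat_lit 161)) 
  (.br (nat_lit 9) (.br (nat_lit 5) (.br (nat_lit 7) (.far (nat_lit 3074) (nat_lit 7330)) 
  (.br (nat_lit 12) (.br (nat_lit 13) (.far (nat_lit 97) (nat_lit 193)) 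
  (.br (nat_lit 6) (.br (nat_lit 8) (.far (nat_lit 3074) (nat_lit 0)) (.dom (nat_lit 18))) (.dom (nat_lit 210)))) 
  (.dom (nat_lit 212)))) 
  (.dom (nat_lit 208))) 
  (.dom (nat_lit 205)))) 
  (.dom (nat_lit 370)))) 
  (.br (nat_lit 16) (.br (nat_lit 4) (.br (nat_lit 12) (.far (nat_lit 225) (nat_lit 193)) 
  (.br (nat_lit 7) (.br (nat_lit 10) (.br (nat_lit 6) (.br (nat_lit 5) (.far (nat_lit 7170) (nat_lit 6242)) 
  (.br (nat_lit 14) (.br (nat_lit 8) (.far (nat_lit 7170) (nat_lit 0)) (.br (nat_lit 18) (.far (nat_lit 225) (nat_lit 161)) (.dom (nat_lit 86)))) 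
  (.dom (nat_lit 208)))) 
  (.br (nat_lit 9) (.br (nat_lit 13) (.br (nat_lit 5) (.br (nat_lit 8) (.br (nat_lit 11) (.far (nat_lit 5122) (nat_lit 0)) (.br (nat_lit 12) (.far (nat_lit 225) (nat_lit 193)) (.dom (nat_lit 30)))) 
  (.br (nat_lit 17) (.br (nat_lit 11) (.far (nat_lit 5122) (nat_lit 6242)) (.br (nat_lit 12) (.far (nat_lit 0) (nat_lit 193)) (.dom (nat_lit 30)))) 
  (.dom (nat_lit 132)))) 
  (.br (nat_lit 14) (.br (nat_lit 20) (.br (nat_lit 8) (.far (nat_lit 235619) (nat_lit 0)) 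
  (.br (nat_lit 15) (.br (nat_lit 17) (.br (nat_lit 18) (.br (nat_lit 12) (.far (nat_lit 7266) (nat_lit 5122)) 
  (.br (nat_lit 11) (.br (nat_lit 3) (.br (nat_lit 6) (.br (nat_lit 8) (.far (nat_lit 6146) (nat_lit 0)) (.br (nat_lit 19) (.far (nat_lit 0) (nat_lit 161)) (.dom (nat_lit 326)))) 
  (.br (nat_lit 21) (.far (nat_lit 97) (nat_lit 225)) (.dom (nat_lit 232)))) 
  (.br (nat_lit 22) (.br (nat_lit 6) (.far (nat_lit 225) (nat_lit 97)) 
  (.br (nat_lit 21) (.br (nat_lit 8) (.far (nat_lit 225) (nat_lit 65)) 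
  (.br (nat_lit 19) (.br (nat_lit 12) (.far (nat_lit 225) (nat_lit 1)) (.br (nat_lit 23) (.far (nat_lit 193) (nat_lit 1)) (.dom (nat_lit 198)))) 
  (.dom (nat_lit 326)))) 
  (.dom (nat_lit 232)))) 
  (.dom (nat_lit 276)))) 
  (.dom (nat_lit 30)))) 
  (.dom (nat_lit 86))) 
  (.dom (nat_lit 132))) 
  (.dom (nat_lit 27)))) 
  (.dom (nat_lit 2))) 
  (.dom (nat_lit 208)))) 
  (.dom (nat_lit 210))) 
  (.dom (nat_lit 204)))) 
  (.dom (nat_lit 368))) 
  (.dom (nat_lit 212)))) 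
  (.br (nat_lit 20) (.br (nat_lit 15) (.br (nat_lit 12) (.br (nat_lit 14) (.br (nat_lit 13) (.far (nat_lit 7266) (nat_lit 6146)) 
  (.br (nat_lit 6) (.br (nat_lit 8) (.far (nat_lit 7266) (nat_lit 0)) (.br (nat_lit 18) (.far (nat_lit 225) (nat_lit 161)) (.dom (nat_lit 89)))) 
  (.dom (nat_lit 210)))) 
  (.br (nat_lit 5) (.br (nat_lit 9) (.br (nat_lit 13) (.br (nat_lit 4) (.br (nat_lit 8) (.far (nat_lit 234595) (nat_lit 193)) (.br (nat_lit 17) (.far (nat_lit 0) (nat_lit 193)) (.dom (nat_lit 133)))) 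
  (.br (nat_lit 21) (.br (nat_lit 8) (.far (nat_lit 97) (nat_lit 65)) (.br (nat_lit 17) (.far (nat_lit 5218) (nat_lit 6146)) (.dom (nat_lit 133)))) 
  (.dom (nat_lit 44)))) 
  (.br (nat_lit 6) (.br (nat_lit 10) (.br (nat_lit 8) (.far (nat_lit 235523) (nat_lit 0)) 
  (.br (nat_lit 7) (.br (nat_lit 17) (.br (nat_lit 18) (.br (nat_lit 4) (.far (nat_lit 7234) (nat_lit 6242)) 
  (.br (nat_lit 21) (.br (nat_lit 3) (.br (nat_lit 8) (.br (nat_lit 11) (.far (nat_lit 6146) (nat_lit 0)) (.br (nat_lit 14) (.far (nat_lit 225) (nat_lit 161)) (.dom (nat_lit 228)))) 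
  (.br (nat_lit 19) (.far (nat_lit 2050) (nat_lit 7330)) (.dom (nat_lit 328)))) 
  (.br (nat_lit 22) (.br (nat_lit 8) (.far (nat_lit 225) (nat_lit 65)) 
  (.br (nat_lit 19) (.br (nat_lit 14) (.far (nat_lit 225) (nat_lit 1)) 
  (.br (nat_lit 11) (.br (nat_lit 4) (.far (nat_lit 225) (nat_lit 97)) (.br (nat_lit 23) (.far (nat_lit 193) (nat_lit 97)) (.dom (nat_lit 199)))) 
  (.dom (nat_lit 228)))) 
  (.dom (nat_lit 328)))) 
  (.dom (nat_lit 278)))) 
  (.dom (nat_lit 44)))) 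
  (.dom (nat_lit 89))) 
  (.dom (nat_lit 133))) 
  (.dom (nat_lit 18)))) 
  (.dom (nat_lit 6))) 
  (.dom (nat_lit 210)))) 
  (.dom (nat_lit 205))) 
  (.dom (nat_lit 208)))) 
  (.br (nat_lit 10) (.br (nat_lit 7) (.br (nat_lit 6) (.br (nat_lit 14) (.br (nat_lit 8) (.br (nat_lit 3) (.br (nat_lit 9) (.far (nat_lit 199683) (nat_lit 161)) (.br (nat_lit 18) (.far (nat_lit 225) (nat_lit 161)) (.dom (nat_lit 80)))) 
  (.br (nat_lit 22) (.far (nat_lit 225) (nat_lit 65)) (.dom (nat_lit 106)))) 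
  (.br (nat_lit 19) (.br (nat_lit 18) (.br (nat_lit 3) (.far (nat_lit 0) (nat_lit 161)) (.br (nat_lit 22) (.far (nat_lit 7362) (nat_lit 5122)) (.dom (nat_lit 106)))) 
  (.br (nat_lit 5) (.br (nat_lit 9) (.br (nat_lit 13) (.br (nat_lit 3) (.far (nat_lit 3138) (nat_lit 7330)) 
  (.br (nat_lit 22) (.br (nat_lit 4) (.br (nat_lit 8) (.br (nat_lit 11) (.far (nat_lit 5122) (nat_lit 0)) (.br (nat_lit 12) (.far (nat_lit 225) (nat_lit 193)) (.dom (nat_lit 262)))) 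
  (.br (nat_lit 17) (.far (nat_lit 2050) (nat_lit 6242)) (.dom (nat_lit 311)))) 
  (.br (nat_lit 21) (.br (nat_lit 8) (.far (nat_lit 97) (nat_lit 65)) 
  (.br (nat_lit 17) (.br (nat_lit 12) (.far (nat_lit 97) (nat_lit 1)) 
  (.br (nat_lit 11) (.br (nat_lit 3) (.far (nat_lit 97) (nat_lit 225)) (.br (nat_lit 23) (.far (nat_lit 161) (nat_lit 225)) (.dom (nat_lit 203)))) 
  (.dom (nat_lit 262)))) 
  (.dom (nat_lit 311)))) 
  (.dom (nat_lit 267)))) 
  (.dom (nat_lit 106)))) 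
  (.dom (nat_lit 89))) 
  (.dom (nat_lit 80))) 
  (.dom (nat_lit 86)))) 
  (.dom (nat_lit 150)))) 
  (.br (nat_lit 9) (.br (nat_lit 5) (.br (nat_lit 11) (.br (nat_lit 8) (.far (nat_lit 1) (nat_lit 65)) 
  (.br (nat_lit 17) (.br (nat_lit 19) (.br (nat_lit 3) (.far (nat_lit 1) (nat_lit 225)) 
  (.br (nat_lit 22) (.br (nat_lit 4) (.far (nat_lit 1) (nat_lit 97)) 
  (.br (nat_lit 21) (.br (nat_lit 23) (.far (nat_lit 0) (nat_lit 232515)) (.dom (nat_lit 345))) (.dom (nat_lit 44)))) 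
  (.dom (nat_lit 106)))) 
  (.dom (nat_lit 150))) 
  (.dom (nat_lit 133)))) 
  (.dom (nat_lit 31))) 
  (.dom (nat_lit 208))) 
  (.dom (nat_lit 205)))) 
  (.br (nat_lit 9) (.br (nat_lit 13) (.br (nat_lit 21) (.br (nat_lit 8) (.far (nat_lit 97) (nat_lit 65)) 
  (.br (nat_lit 17) (.br (nat_lit 19) (.br (nat_lit 5) (.br (nat_lit 11) (.br (nat_lit 3) (.far (nat_lit 97) (nat_lit 225)) 
  (.br (nat_lit 22) (.br (nat_lit 23) (.far (nat_lit 161) (nat_lit 225)) (.br (nat_lit 12) (.far (nat_lit 97) (nat_lit 193)) (.dom (nat_lit 343)))) 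
  (.dom (nat_lit 106)))) 
  (.br (nat_lit 12) (.far (nat_lit 97) (nat_lit 193)) (.dom (nat_lit 30)))) 
  (.br (nat_lit 14) (.br (nat_lit 18) (.br (nat_lit 3) (.far (nat_lit 97) (nat_lit 161)) 
  (.br (nat_lit 22) (.br (nat_lit 12) (.far (nat_lit 225) (nat_lit 1)) (.br (nat_lit 23) (.far (nat_lit 193) (nat_lit 1)) (.dom (nat_lit 343)))) 
  (.dom (nat_lit 106)))) 
  (.dom (nat_lit 86))) 
  (.dom (nat_lit 208)))) 
  (.dom (nat_lit 150))) 
  (.dom (nat_lit 132)))) 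
  (.dom (nat_lit 42))) 
  (.dom (nat_lit 210))) 
  (.dom (nat_lit 204)))) 
  (.dom (nat_lit 212))) 
  (.dom (nat_lit 368)))) 
  (.dom (nat_lit 370))) 
  (.dom (nat_lit 206)))) 
  (.dom (nat_lit 217)))) 
  (.br (nat_lit 18) gp666B0 (.dom (nat_lit 219))))) 
  (.br (nat_lit 8) (.br (nat_lit 1) (.br (nat_lit 9) (.br (nat_lit 4) (.br (nat_lit 10) (.br (nat_lit 5) (.br (nat_lit 11) (.far (nat_lit 5122) (nat_lit 0)) (.br (nat_lit 12) (.far (nat_lit 7506948) (nat_lit 193)) (.dom (nat_lit 214)))) 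
  (.br (nat_lit 20) (.far (nat_lit 7506948) (nat_lit 65)) (.dom (nat_lit 209)))) 
  (.br (nat_lit 13) (.br (nat_lit 12) (.far (nat_lit 97) (nat_lit 193)) 
  (.br (nat_lit 3) (.br (nat_lit 11) (.br (nat_lit 5) (.far (nat_lit 3074) (nat_lit 7362)) 
  (.br (nat_lit 20) (.br (nat_lit 2) (.far (nat_lit 3074) (nat_lit 0)) (.br (nat_lit 21) (.far (nat_lit 97) (nat_lit 65)) (.dom (nat_lit 49)))) 
  (.dom (nat_lit 209)))) 
  (.dom (nat_lit 214))) 
  (.dom (nat_lit 368)))) 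
  (.dom (nat_lit 211)))) 
  (.br (nat_lit 21) (.br (nat_lit 20) (.far (nat_lit 97) (nat_lit 65)) 
  (.br (nat_lit 3) (.br (nat_lit 5) (.br (nat_lit 11) (.far (nat_lit 3074) (nat_lit 7234)) 
  (.br (nat_lit 12) (.br (nat_lit 13) (.far (nat_lit 97) (nat_lit 193)) (.br (nat_lit 2) (.far (nat_lit 3074) (nat_lit 0)) (.dom (nat_lit 37)))) 
  (.dom (nat_lit 214)))) 
  (.dom (nat_lit 209))) 
  (.dom (nat_lit 206)))) 
  (.dom (nat_lit 215)))) 
  (.br (nat_lit 16) (.br (nat_lit 4) (.br (nat_lit 12) (.far (nat_lit 225) (nat_lit 193)) 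
  (.br (nat_lit 6) (.br (nat_lit 11) (.br (nat_lit 10) (.br (nat_lit 5) (.far (nat_lit 7170) (nat_lit 6242)) 
  (.br (nat_lit 20) (.br (nat_lit 2) (.far (nat_lit 7170) (nat_lit 0)) (.br (nat_lit 22) (.far (nat_lit 225) (nat_lit 65)) (.dom (nat_lit 113)))) 
  (.dom (nat_lit 209)))) 
  (.br (nat_lit 3) (.br (nat_lit 13) (.br (nat_lit 5) (.br (nat_lit 2) (.br (nat_lit 7) (.far (nat_lit 2050) (nat_lit 0)) (.br (nat_lit 12) (.far (nat_lit 225) (nat_lit 193)) (.dom (nat_lit 12)))) 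
  (.br (nat_lit 17) (.br (nat_lit 7) (.far (nat_lit 2050) (nat_lit 6242)) (.br (nat_lit 12) (.far (nat_lit 0) (nat_lit 193)) (.dom (nat_lit 12)))) 
  (.dom (nat_lit 136)))) 
  (.br (nat_lit 14) (.br (nat_lit 20) (.br (nat_lit 2) (.far (nat_lit 235619) (nat_lit 0)) 
  (.br (nat_lit 17) (.br (nat_lit 21) (.br (nat_lit 22) (.br (nat_lit 12) (.far (nat_lit 7266) (nat_lit 2050)) 
  (.br (nat_lit 7) (.br (nat_lit 2) (.br (nat_lit 9) (.br (nat_lit 10) (.far (nat_lit 6146) (nat_lit 0)) (.br (nat_lit 15) (.far (nat_lit 97) (nat_lit 161)) (.dom (nat_lit 226)))) 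
  (.br (nat_lit 18) (.far (nat_lit 225) (nat_lit 161)) (.dom (nat_lit 256)))) 
  (.br (nat_lit 23) (.br (nat_lit 9) (.far (nat_lit 5218) (nat_lit 7234)) 
  (.br (nat_lit 18) (.br (nat_lit 10) (.far (nat_lit 225) (nat_lit 97)) 
  (.br (nat_lit 15) (.br (nat_lit 12) (.far (nat_lit 225) (nat_lit 1)) (.br (nat_lit 19) (.far (nat_lit 193) (nat_lit 1)) (.dom (nat_lit 192)))) 
  (.dom (nat_lit 226)))) 
  (.dom (nat_lit 256)))) 
  (.dom (nat_lit 351)))) 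
  (.dom (nat_lit 12)))) 
  (.dom (nat_lit 113))) 
  (.dom (nat_lit 49))) 
  (.dom (nat_lit 136)))) 
  (.dom (nat_lit 209))) 
  (.dom (nat_lit 0)))) 
  (.dom (nat_lit 211))) 
  (.dom (nat_lit 368)))) 
  (.dom (nat_lit 214))) 
  (.dom (nat_lit 204)))) 
  (.br (nat_lit 14) (.br (nat_lit 21) (.br (nat_lit 12) (.br (nat_lit 20) (.br (nat_lit 13) (.far (nat_lit 7266) (nat_lit 6146)) 
  (.br (nat_lit 10) (.br (nat_lit 2) (.far (nat_lit 7266) (nat_lit 0)) (.br (nat_lit 22) (.far (nat_lit 225) (nat_lit 65)) (.dom (nat_lit 116)))) 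
  (.dom (nat_lit 211)))) 
  (.br (nat_lit 3) (.br (nat_lit 5) (.br (nat_lit 13) (.br (nat_lit 2) (.br (nat_lit 4) (.far (nat_lit 232515) (nat_lit 193)) (.br (nat_lit 15) (.far (nat_lit 97) (nat_lit 161)) (.dom (nat_lit 24)))) 
  (.br (nat_lit 17) (.br (nat_lit 4) (.far (nat_lit 0) (nat_lit 193)) (.br (nat_lit 15) (.far (nat_lit 3138) (nat_lit 6146)) (.dom (nat_lit 24)))) 
  (.dom (nat_lit 139)))) 
  (.br (nat_lit 6) (.br (nat_lit 10) (.br (nat_lit 2) (.far (nat_lit 235523) (nat_lit 0)) 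
  (.br (nat_lit 11) (.br (nat_lit 17) (.br (nat_lit 22) (.br (nat_lit 4) (.far (nat_lit 7330) (nat_lit 6242)) 
  (.br (nat_lit 15) (.br (nat_lit 2) (.br (nat_lit 7) (.br (nat_lit 9) (.far (nat_lit 6146) (nat_lit 0)) (.br (nat_lit 18) (.far (nat_lit 225) (nat_lit 161)) (.dom (nat_lit 258)))) 
  (.br (nat_lit 20) (.far (nat_lit 225) (nat_lit 65)) (.dom (nat_lit 225)))) 
  (.br (nat_lit 23) (.br (nat_lit 9) (.far (nat_lit 5122) (nat_lit 7234)) 
  (.br (nat_lit 18) (.br (nat_lit 20) (.far (nat_lit 225) (nat_lit 1)) 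
  (.br (nat_lit 7) (.br (nat_lit 4) (.far (nat_lit 225) (nat_lit 97)) (.br (nat_lit 19) (.far (nat_lit 193) (nat_lit 97)) (.dom (nat_lit 193)))) 
  (.dom (nat_lit 225)))) 
  (.dom (nat_lit 258)))) 
  (.dom (nat_lit 353)))) 
  (.dom (nat_lit 24)))) 
  (.dom (nat_lit 116))) 
  (.dom (nat_lit 139))) 
  (.dom (nat_lit 37)))) 
  (.dom (nat_lit 211))) 
  (.dom (nat_lit 9)))) 
  (.dom (nat_lit 209))) 
  (.dom (nat_lit 206)))) 
  (.br (nat_lit 6) (.br (nat_lit 11) (.br (nat_lit 10) (.br (nat_lit 20) (.br (nat_lit 2) (.br (nat_lit 3) (.br (nat_lit 9) (.far (nat_lit 199683) (nat_lit 65)) (.br (nat_lit 18) (.far (nat_lit 225) (nat_lit 161)) (.dom (nat_lit 81)))) 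
  (.br (nat_lit 22) (.far (nat_lit 225) (nat_lit 65)) (.dom (nat_lit 107)))) 
  (.br (nat_lit 23) (.br (nat_lit 22) (.br (nat_lit 9) (.far (nat_lit 0) (nat_lit 65)) (.br (nat_lit 18) (.far (nat_lit 7362) (nat_lit 2050)) (.dom (nat_lit 81)))) 
  (.br (nat_lit 3) (.br (nat_lit 5) (.br (nat_lit 13) (.br (nat_lit 9) (.far (nat_lit 5218) (nat_lit 7234)) 
  (.br (nat_lit 18) (.br (nat_lit 2) (.br (nat_lit 4) (.br (nat_lit 7) (.far (nat_lit 2050) (nat_lit 0)) (.br (nat_lit 12) (.far (nat_lit 225) (nat_lit 193)) (.dom (nat_lit 280)))) 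
  (.br (nat_lit 15) (.far (nat_lit 97) (nat_lit 161)) (.dom (nat_lit 284)))) 
  (.br (nat_lit 17) (.br (nat_lit 4) (.far (nat_lit 5122) (nat_lit 6242)) 
  (.br (nat_lit 15) (.br (nat_lit 12) (.far (nat_lit 97) (nat_lit 1)) 
  (.br (nat_lit 7) (.br (nat_lit 9) (.far (nat_lit 161) (nat_lit 225)) (.br (nat_lit 19) (.far (nat_lit 65) (nat_lit 225)) (.dom (nat_lit 197)))) 
  (.dom (nat_lit 280)))) 
  (.dom (nat_lit 284)))) 
  (.dom (nat_lit 314)))) 
  (.dom (nat_lit 81)))) 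
  (.dom (nat_lit 116))) 
  (.dom (nat_lit 113))) 
  (.dom (nat_lit 107)))) 
  (.dom (nat_lit 169)))) 
  (.br (nat_lit 3) (.br (nat_lit 5) (.br (nat_lit 7) (.br (nat_lit 2) (.far (nat_lit 1) (nat_lit 161)) 
  (.br (nat_lit 17) (.br (nat_lit 23) (.br (nat_lit 4) (.far (nat_lit 1) (nat_lit 97)) 
  (.br (nat_lit 15) (.br (nat_lit 9) (.far (nat_lit 1) (nat_lit 225)) 
  (.br (nat_lit 18) (.br (nat_lit 19) (.far (nat_lit 0) (nat_lit 234595)) (.dom (nat_lit 321))) (.dom (nat_lit 81)))) 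
  (.dom (nat_lit 24)))) 
  (.dom (nat_lit 169))) 
  (.dom (nat_lit 139)))) 
  (.dom (nat_lit 14))) 
  (.dom (nat_lit 209))) 
  (.dom (nat_lit 206)))) 
  (.br (nat_lit 3) (.br (nat_lit 13) (.br (nat_lit 15) (.br (nat_lit 2) (.far (nat_lit 97) (nat_lit 161)) 
  (.br (nat_lit 17) (.br (nat_lit 23) (.br (nat_lit 5) (.br (nat_lit 7) (.br (nat_lit 9) (.far (nat_lit 161) (nat_lit 225)) 
  (.br (nat_lit 18) (.br (nat_lit 19) (.far (nat_lit 65) (nat_lit 225)) (.br (nat_lit 12) (.far (nat_lit 97) (nat_lit 193)) (.dom (nat_lit 319)))) 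
  (.dom (nat_lit 81)))) 
  (.br (nat_lit 12) (.far (nat_lit 97) (nat_lit 193)) (.dom (nat_lit 12)))) 
  (.br (nat_lit 20) (.br (nat_lit 22) (.br (nat_lit 9) (.far (nat_lit 97) (nat_lit 65)) 
  (.br (nat_lit 18) (.br (nat_lit 12) (.far (nat_lit 225) (nat_lit 1)) (.br (nat_lit 19) (.far (nat_lit 193) (nat_lit 1)) (.dom (nat_lit 319)))) 
  (.dom (nat_lit 81)))) 
  (.dom (nat_lit 113))) 
  (.dom (nat_lit 209)))) 
  (.dom (nat_lit 169))) 
  (.dom (nat_lit 136)))) 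
  (.dom (nat_lit 21))) 
  (.dom (nat_lit 211))) 
  (.dom (nat_lit 368)))) 
  (.dom (nat_lit 214))) 
  (.dom (nat_lit 204)))) 
  (.dom (nat_lit 215))) 
  (.dom (nat_lit 205)))) 
  (.dom (nat_lit 218)))) 
  (.br (nat_lit 22) gp666B1 (.dom (nat_lit 221)))) 
  (.br (nat_lit 17) (.br (nat_lit 1) gp666B2 
  (.br (nat_lit 18) (.br (nat_lit 22) gp666B3 (.dom (nat_lit 221))) (.dom (nat_lit 219)))) 
  (.dom (nat_lit 222)))))

/-- search tree -/
def gp666B5 : BB := (.br (nat_lit 10) (.br (nat_lit 20) (.far (nat_lit 225) (nat_lit 65)) 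
  (.br (nat_lit 4) (.br (nat_lit 7) (.br (nat_lit 6) (.br (nat_lit 11) (.far (nat_lit 7170) (nat_lit 3138)) 
  (.br (nat_lit 14) (.br (nat_lit 18) (.far (nat_lit 225) (nat_lit 161)) (.br (nat_lit 0) (.far (nat_lit 7170) (nat_lit 0)) (.dom (nat_lit 97)))) 
  (.dom (nat_lit 372)))) 
  (.br (nat_lit 1) (.br (nat_lit 21) (.br (nat_lit 9) (.br (nat_lit 11) (.br (nat_lit 0) (.br (nat_lit 5) (.far (nat_lit 5122) (nat_lit 0)) (.br (nat_lit 20) (.far (nat_lit 225) (nat_lit 65)) (.dom (nat_lit 5)))) 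
  (.br (nat_lit 23) (.br (nat_lit 5) (.far (nat_lit 5122) (nat_lit 3138)) (.br (nat_lit 20) (.far (nat_lit 0) (nat_lit 65)) (.dom (nat_lit 5)))) 
  (.dom (nat_lit 179)))) 
  (.br (nat_lit 12) (.br (nat_lit 14) (.br (nat_lit 0) (.far (nat_lit 232515) (nat_lit 0)) 
  (.br (nat_lit 15) (.br (nat_lit 18) (.br (nat_lit 23) (.br (nat_lit 20) (.far (nat_lit 7362) (nat_lit 2050)) 
  (.br (nat_lit 5) (.br (nat_lit 0) (.br (nat_lit 3) (.br (nat_lit 6) (.far (nat_lit 2050) (nat_lit 0)) (.br (nat_lit 13) (.far (nat_lit 97) (nat_lit 193)) (.dom (nat_lit 229)))) 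
  (.br (nat_lit 16) (.far (nat_lit 225) (nat_lit 193)) (.dom (nat_lit 243)))) 
  (.br (nat_lit 19) (.br (nat_lit 3) (.far (nat_lit 6242) (nat_lit 7330)) 
  (.br (nat_lit 16) (.br (nat_lit 6) (.far (nat_lit 225) (nat_lit 97)) 
  (.br (nat_lit 13) (.br (nat_lit 17) (.far (nat_lit 65) (nat_lit 1)) (.br (nat_lit 20) (.far (nat_lit 225) (nat_lit 1)) (.dom (nat_lit 188)))) 
  (.dom (nat_lit 229)))) 
  (.dom (nat_lit 243)))) 
  (.dom (nat_lit 331)))) 
  (.dom (nat_lit 5)))) 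
  (.dom (nat_lit 179))) 
  (.dom (nat_lit 97))) 
  (.dom (nat_lit 41)))) 
  (.dom (nat_lit 372))) 
  (.dom (nat_lit 34)))) 
  (.br (nat_lit 12) (.br (nat_lit 16) (.br (nat_lit 18) (.br (nat_lit 0) (.far (nat_lit 225) (nat_lit 193)) 
  (.br (nat_lit 23) (.br (nat_lit 19) (.br (nat_lit 11) (.br (nat_lit 5) (.br (nat_lit 6) (.far (nat_lit 225) (nat_lit 97)) 
  (.br (nat_lit 13) (.br (nat_lit 17) (.far (nat_lit 161) (nat_lit 97)) (.br (nat_lit 20) (.far (nat_lit 225) (nat_lit 65)) (.dom (nat_lit 301)))) 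
  (.dom (nat_lit 10)))) 
  (.br (nat_lit 20) (.far (nat_lit 225) (nat_lit 65)) (.dom (nat_lit 5)))) 
  (.br (nat_lit 14) (.br (nat_lit 15) (.br (nat_lit 6) (.far (nat_lit 225) (nat_lit 97)) 
  (.br (nat_lit 13) (.br (nat_lit 20) (.far (nat_lit 225) (nat_lit 1)) (.br (nat_lit 17) (.far (nat_lit 65) (nat_lit 1)) (.dom (nat_lit 301)))) 
  (.dom (nat_lit 10)))) 
  (.dom (nat_lit 41))) 
  (.dom (nat_lit 372)))) 
  (.dom (nat_lit 159))) 
  (.dom (nat_lit 179)))) 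
  (.dom (nat_lit 220))) 
  (.dom (nat_lit 57))) 
  (.dom (nat_lit 204)))) 
  (.dom (nat_lit 216))) 
  (.dom (nat_lit 207)))) 
  (.dom (nat_lit 213))) 
  (.dom (nat_lit 206)))) 
  (.br (nat_lit 12) (.br (nat_lit 15) (.br (nat_lit 14) (.br (nat_lit 20) (.br (nat_lit 18) (.far (nat_lit 7266) (nat_lit 5122)) 
  (.br (nat_lit 9) (.br (nat_lit 21) (.far (nat_lit 97) (nat_lit 65)) (.br (nat_lit 0) (.far (nat_lit 7266) (nat_lit 0)) (.dom (nat_lit 102)))) 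
  (.dom (nat_lit 220)))) 
  (.br (nat_lit 4) (.br (nat_lit 7) (.br (nat_lit 6) (.br (nat_lit 18) (.br (nat_lit 0) (.br (nat_lit 3) (.far (nat_lit 232515) (nat_lit 161)) (.br (nat_lit 16) (.far (nat_lit 225) (nat_lit 193)) (.dom (nat_lit 59)))) 
  (.br (nat_lit 19) (.br (nat_lit 3) (.far (nat_lit 0) (nat_lit 161)) (.br (nat_lit 16) (.far (nat_lit 7234) (nat_lit 5122)) (.dom (nat_lit 59)))) 
  (.dom (nat_lit 161)))) 
  (.br (nat_lit 1) (.br (nat_lit 9) (.br (nat_lit 0) (.far (nat_lit 166915) (nat_lit 0)) 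
  (.br (nat_lit 11) (.br (nat_lit 19) (.br (nat_lit 21) (.br (nat_lit 3) (.far (nat_lit 6242) (nat_lit 7330)) 
  (.br (nat_lit 16) (.br (nat_lit 0) (.br (nat_lit 5) (.br (nat_lit 10) (.far (nat_lit 5122) (nat_lit 0)) (.br (nat_lit 13) (.far (nat_lit 97) (nat_lit 193)) (.dom (nat_lit 259)))) 
  (.br (nat_lit 20) (.far (nat_lit 97) (nat_lit 65)) (.dom (nat_lit 257)))) 
  (.br (nat_lit 23) (.br (nat_lit 10) (.far (nat_lit 6146) (nat_lit 3138)) 
  (.br (nat_lit 13) (.br (nat_lit 20) (.far (nat_lit 97) (nat_lit 1)) 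
  (.br (nat_lit 5) (.br (nat_lit 3) (.far (nat_lit 193) (nat_lit 225)) (.br (nat_lit 17) (.far (nat_lit 161) (nat_lit 225)) (.dom (nat_lit 190)))) 
  (.dom (nat_lit 257)))) 
  (.dom (nat_lit 259)))) 
  (.dom (nat_lit 362)))) 
  (.dom (nat_lit 59)))) 
  (.dom (nat_lit 102))) 
  (.dom (nat_lit 161))) 
  (.dom (nat_lit 97)))) 
  (.dom (nat_lit 220))) 
  (.dom (nat_lit 85)))) 
  (.br (nat_lit 1) (.br (nat_lit 13) (.br (nat_lit 21) (.br (nat_lit 0) (.far (nat_lit 97) (nat_lit 193)) 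
  (.br (nat_lit 19) (.br (nat_lit 23) (.br (nat_lit 18) (.br (nat_lit 16) (.br (nat_lit 20) (.far (nat_lit 193) (nat_lit 1)) 
  (.br (nat_lit 5) (.br (nat_lit 17) (.far (nat_lit 65) (nat_lit 1)) (.br (nat_lit 3) (.far (nat_lit 97) (nat_lit 161)) (.dom (nat_lit 302)))) 
  (.dom (nat_lit 5)))) 
  (.br (nat_lit 3) (.far (nat_lit 97) (nat_lit 161)) (.dom (nat_lit 59)))) 
  (.br (nat_lit 9) (.br (nat_lit 11) (.br (nat_lit 3) (.far (nat_lit 193) (nat_lit 225)) 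
  (.br (nat_lit 16) (.br (nat_lit 20) (.far (nat_lit 97) (nat_lit 1)) 
  (.br (nat_lit 5) (.br (nat_lit 17) (.far (nat_lit 161) (nat_lit 225)) (.dom (nat_lit 302))) (.dom (nat_lit 5)))) 
  (.dom (nat_lit 59)))) 
  (.dom (nat_lit 97))) 
  (.dom (nat_lit 220)))) 
  (.dom (nat_lit 179))) 
  (.dom (nat_lit 161)))) 
  (.dom (nat_lit 216))) 
  (.dom (nat_lit 11))) 
  (.dom (nat_lit 207)))) 
  (.dom (nat_lit 213))) 
  (.dom (nat_lit 206)))) 
  (.br (nat_lit 1) (.br (nat_lit 11) (.br (nat_lit 9) (.br (nat_lit 20) (.br (nat_lit 21) (.br (nat_lit 0) (.br (nat_lit 10) (.far (nat_lit 234595) (nat_lit 65)) (.br (nat_lit 13) (.far (nat_lit 97) (nat_lit 193)) (.dom (nat_lit 8)))) 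
  (.br (nat_lit 23) (.br (nat_lit 10) (.far (nat_lit 0) (nat_lit 65)) (.br (nat_lit 13) (.far (nat_lit 5218) (nat_lit 2050)) (.dom (nat_lit 8)))) 
  (.dom (nat_lit 177)))) 
  (.br (nat_lit 4) (.br (nat_lit 6) (.br (nat_lit 0) (.far (nat_lit 231427) (nat_lit 0)) 
  (.br (nat_lit 7) (.br (nat_lit 18) (.br (nat_lit 23) (.br (nat_lit 10) (.far (nat_lit 7362) (nat_lit 3138)) 
  (.br (nat_lit 13) (.br (nat_lit 0) (.br (nat_lit 3) (.br (nat_lit 5) (.far (nat_lit 2050) (nat_lit 0)) (.br (nat_lit 14) (.far (nat_lit 225) (nat_lit 161)) (.dom (nat_lit 233)))) 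
  (.br (nat_lit 16) (.far (nat_lit 225) (nat_lit 193)) (.dom (nat_lit 248)))) 
  (.br (nat_lit 19) (.br (nat_lit 3) (.far (nat_lit 6146) (nat_lit 7330)) 
  (.br (nat_lit 16) (.br (nat_lit 14) (.far (nat_lit 225) (nat_lit 1)) 
  (.br (nat_lit 5) (.br (nat_lit 10) (.far (nat_lit 225) (nat_lit 97)) (.br (nat_lit 17) (.far (nat_lit 65) (nat_lit 97)) (.dom (nat_lit 189)))) 
  (.dom (nat_lit 233)))) 
  (.dom (nat_lit 248)))) 
  (.dom (nat_lit 333)))) 
  (.dom (nat_lit 8)))) 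
  (.dom (nat_lit 177))) 
  (.dom (nat_lit 102))) 
  (.dom (nat_lit 53)))) 
  (.dom (nat_lit 216))) 
  (.dom (nat_lit 47)))) 
  (.br (nat_lit 4) (.br (nat_lit 5) (.br (nat_lit 7) (.br (nat_lit 0) (.far (nat_lit 1) (nat_lit 193)) 
  (.br (nat_lit 23) (.br (nat_lit 19) (.br (nat_lit 21) (.br (nat_lit 13) (.br (nat_lit 3) (.far (nat_lit 193) (nat_lit 225)) 
  (.br (nat_lit 16) (.br (nat_lit 17) (.far (nat_lit 161) (nat_lit 225)) (.br (nat_lit 10) (.far (nat_lit 1) (nat_lit 65)) (.dom (nat_lit 300)))) 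
  (.dom (nat_lit 59)))) 
  (.br (nat_lit 10) (.far (nat_lit 1) (nat_lit 65)) (.dom (nat_lit 8)))) 
  (.br (nat_lit 6) (.br (nat_lit 18) (.br (nat_lit 3) (.far (nat_lit 1) (nat_lit 161)) 
  (.br (nat_lit 16) (.br (nat_lit 10) (.far (nat_lit 225) (nat_lit 97)) (.br (nat_lit 17) (.far (nat_lit 65) (nat_lit 97)) (.dom (nat_lit 300)))) 
  (.dom (nat_lit 59)))) 
  (.dom (nat_lit 102))) 
  (.dom (nat_lit 216)))) 
  (.dom (nat_lit 161))) 
  (.dom (nat_lit 177)))) 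
  (.dom (nat_lit 213))) 
  (.dom (nat_lit 4))) 
  (.dom (nat_lit 206)))) 
  (.br (nat_lit 4) (.br (nat_lit 16) (.br (nat_lit 18) (.br (nat_lit 6) (.br (nat_lit 0) (.far (nat_lit 225) (nat_lit 193)) 
  (.br (nat_lit 19) (.br (nat_lit 23) (.br (nat_lit 7) (.br (nat_lit 5) (.br (nat_lit 10) (.far (nat_lit 225) (nat_lit 97)) 
  (.br (nat_lit 13) (.br (nat_lit 17) (.far (nat_lit 65) (nat_lit 97)) (.br (nat_lit 14) (.far (nat_lit 225) (nat_lit 161)) (.dom (nat_lit 297)))) 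
  (.dom (nat_lit 8)))) 
  (.br (nat_lit 14) (.far (nat_lit 225) (nat_lit 161)) (.dom (nat_lit 1)))) 
  (.br (nat_lit 20) (.br (nat_lit 21) (.br (nat_lit 10) (.far (nat_lit 225) (nat_lit 65)) 
  (.br (nat_lit 13) (.br (nat_lit 14) (.far (nat_lit 225) (nat_lit 1)) (.br (nat_lit 17) (.far (nat_lit 161) (nat_lit 1)) (.dom (nat_lit 297)))) 
  (.dom (nat_lit 8)))) 
  (.dom (nat_lit 53))) 
  (.dom (nat_lit 213)))) 
  (.dom (nat_lit 177))) 
  (.dom (nat_lit 156)))) 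
  (.br (nat_lit 13) (.br (nat_lit 21) (.br (nat_lit 20) (.br (nat_lit 0) (.far (nat_lit 225) (nat_lit 193)) 
  (.br (nat_lit 23) (.br (nat_lit 19) (.br (nat_lit 14) (.far (nat_lit 225) (nat_lit 1)) 
  (.br (nat_lit 5) (.br (nat_lit 17) (.far (nat_lit 161) (nat_lit 1)) (.br (nat_lit 9) (.far (nat_lit 97) (nat_lit 65)) (.dom (nat_lit 296)))) 
  (.dom (nat_lit 1)))) 
  (.dom (nat_lit 156))) 
  (.dom (nat_lit 175)))) 
  (.br (nat_lit 5) (.br (nat_lit 7) (.br (nat_lit 0) (.far (nat_lit 225) (nat_lit 193)) 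
  (.br (nat_lit 19) (.br (nat_lit 23) (.br (nat_lit 17) (.far (nat_lit 0) (nat_lit 199683)) (.dom (nat_lit 299))) (.dom (nat_lit 175))) 
  (.dom (nat_lit 156)))) 
  (.dom (nat_lit 213))) 
  (.dom (nat_lit 3)))) 
  (.dom (nat_lit 216))) 
  (.dom (nat_lit 7)))) 
  (.dom (nat_lit 220))) 
  (.dom (nat_lit 56))) 
  (.dom (nat_lit 205)))) 
  (.dom (nat_lit 372))) 
  (.dom (nat_lit 369)))) 
  (.dom (nat_lit 371))) 
  (.dom (nat_lit 368))))

/-- search tree -/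
def gp666B6 : BB := (.br (nat_lit 6) (.br (nat_lit 14) (.br (nat_lit 7) (.br (nat_lit 15) (.br (nat_lit 18) (.far (nat_lit 0) (nat_lit 161)) (.br (nat_lit 1) (.far (nat_lit 100355) (nat_lit 234659)) (.dom (nat_lit 219)))) 
  (.br (nat_lit 4) (.br (nat_lit 10) (.br (nat_lit 18) (.far (nat_lit 7170) (nat_lit 5218)) 
  (.br (nat_lit 1) (.br (nat_lit 9) (.br (nat_lit 0) (.br (nat_lit 5) (.far (nat_lit 1) (nat_lit 193)) (.br (nat_lit 8) (.far (nat_lit 7170) (nat_lit 0)) (.dom (nat_lit 94)))) 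
  (.br (nat_lit 11) (.br (nat_lit 5) (.far (nat_lit 1) (nat_lit 97)) (.br (nat_lit 8) (.far (nat_lit 1) (nat_lit 65)) (.dom (nat_lit 94)))) 
  (.dom (nat_lit 99)))) 
  (.dom (nat_lit 220))) 
  (.dom (nat_lit 219)))) 
  (.dom (nat_lit 371))) 
  (.dom (nat_lit 370)))) 
  (.br (nat_lit 12) (.br (nat_lit 20) (.br (nat_lit 15) (.br (nat_lit 18) (.far (nat_lit 7266) (nat_lit 5122)) 
  (.br (nat_lit 1) (.br (nat_lit 9) (.br (nat_lit 0) (.br (nat_lit 8) (.far (nat_lit 7266) (nat_lit 0)) (.br (nat_lit 13) (.far (nat_lit 97) (nat_lit 193)) (.dom (nat_lit 93)))) 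
  (.br (nat_lit 21) (.br (nat_lit 8) (.far (nat_lit 97) (nat_lit 65)) (.br (nat_lit 13) (.far (nat_lit 97) (nat_lit 1)) (.dom (nat_lit 93)))) 
  (.dom (nat_lit 104)))) 
  (.dom (nat_lit 220))) 
  (.dom (nat_lit 219)))) 
  (.br (nat_lit 4) (.br (nat_lit 10) (.br (nat_lit 18) (.br (nat_lit 0) (.br (nat_lit 8) (.far (nat_lit 7266) (nat_lit 0)) (.br (nat_lit 16) (.far (nat_lit 225) (nat_lit 193)) (.dom (nat_lit 68)))) 
  (.br (nat_lit 22) (.br (nat_lit 8) (.far (nat_lit 225) (nat_lit 65)) (.br (nat_lit 16) (.far (nat_lit 225) (nat_lit 1)) (.dom (nat_lit 68)))) 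
  (.dom (nat_lit 127)))) 
  (.br (nat_lit 1) (.br (nat_lit 9) (.br (nat_lit 0) (.far (nat_lit 7440388) (nat_lit 193)) 
  (.br (nat_lit 11) (.br (nat_lit 21) (.br (nat_lit 22) (.br (nat_lit 8) (.far (nat_lit 225) (nat_lit 65)) 
  (.br (nat_lit 5) (.br (nat_lit 13) (.br (nat_lit 16) (.br (nat_lit 0) (.br (nat_lit 8) (.far (nat_lit 7330) (nat_lit 0)) (.br (nat_lit 17) (.far (nat_lit 0) (nat_lit 193)) (.dom (nat_lit 313)))) 
  (.br (nat_lit 23) (.br (nat_lit 8) (.far (nat_lit 0) (nat_lit 65)) (.br (nat_lit 17) (.far (nat_lit 161) (nat_lit 1)) (.dom (nat_lit 313)))) 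
  (.dom (nat_lit 363)))) 
  (.dom (nat_lit 68))) 
  (.dom (nat_lit 93))) 
  (.dom (nat_lit 94)))) 
  (.dom (nat_lit 127))) 
  (.dom (nat_lit 104))) 
  (.dom (nat_lit 99)))) 
  (.dom (nat_lit 220))) 
  (.dom (nat_lit 219)))) 
  (.dom (nat_lit 371))) 
  (.dom (nat_lit 370)))) 
  (.dom (nat_lit 213))) 
  (.dom (nat_lit 212)))) 
  (.br (nat_lit 5) (.br (nat_lit 11) (.br (nat_lit 7) (.br (nat_lit 1) (.br (nat_lit 4) (.far (nat_lit 65539) (nat_lit 234595)) (.br (nat_lit 9) (.far (nat_lit 1) (nat_lit 225)) (.dom (nat_lit 205)))) 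
  (.br (nat_lit 10) (.br (nat_lit 18) (.far (nat_lit 6146) (nat_lit 5218)) (.dom (nat_lit 219))) (.dom (nat_lit 369)))) 
  (.br (nat_lit 12) (.br (nat_lit 20) (.br (nat_lit 1) (.br (nat_lit 9) (.br (nat_lit 15) (.br (nat_lit 0) (.br (nat_lit 8) (.br (nat_lit 4) (.br (nat_lit 10) (.far (nat_lit 5122) (nat_lit 0)) (.br (nat_lit 13) (.far (nat_lit 97) (nat_lit 193)) (.dom (nat_lit 19)))) 
  (.br (nat_lit 21) (.far (nat_lit 97) (nat_lit 65)) (.dom (nat_lit 51)))) 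
  (.br (nat_lit 17) (.br (nat_lit 13) (.far (nat_lit 3138) (nat_lit 7362)) 
  (.br (nat_lit 4) (.br (nat_lit 10) (.br (nat_lit 18) (.br (nat_lit 7) (.far (nat_lit 1) (nat_lit 97)) 
  (.br (nat_lit 8) (.far (nat_lit 7170) (nat_lit 0)) (.br (nat_lit 16) (.far (nat_lit 225) (nat_lit 193)) (.dom (nat_lit 238))))) 
  (.dom (nat_lit 93))) 
  (.dom (nat_lit 19))) 
  (.dom (nat_lit 18)))) 
  (.dom (nat_lit 144)))) 
  (.br (nat_lit 23) (.br (nat_lit 21) (.br (nat_lit 8) (.far (nat_lit 6242) (nat_lit 7234)) 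
  (.br (nat_lit 17) (.br (nat_lit 13) (.far (nat_lit 161) (nat_lit 225)) 
  (.br (nat_lit 4) (.br (nat_lit 10) (.br (nat_lit 18) (.br (nat_lit 7) (.far (nat_lit 193) (nat_lit 225)) 
  (.br (nat_lit 22) (.br (nat_lit 8) (.far (nat_lit 0) (nat_lit 65)) (.br (nat_lit 16) (.far (nat_lit 225) (nat_lit 97)) (.dom (nat_lit 238)))) 
  (.dom (nat_lit 283)))) 
  (.dom (nat_lit 93))) 
  (.dom (nat_lit 19))) 
  (.dom (nat_lit 18)))) 
  (.dom (nat_lit 144)))) 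
  (.br (nat_lit 10) (.br (nat_lit 4) (.br (nat_lit 18) (.br (nat_lit 8) (.br (nat_lit 0) (.far (nat_lit 7569412) (nat_lit 97)) 
  (.br (nat_lit 7) (.far (nat_lit 1) (nat_lit 97)) (.br (nat_lit 22) (.far (nat_lit 225) (nat_lit 65)) (.dom (nat_lit 291))))) 
  (.br (nat_lit 17) (.br (nat_lit 7) (.far (nat_lit 1) (nat_lit 97)) 
  (.br (nat_lit 16) (.br (nat_lit 22) (.far (nat_lit 225) (nat_lit 97)) (.br (nat_lit 0) (.far (nat_lit 225) (nat_lit 193)) (.dom (nat_lit 291)))) 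
  (.dom (nat_lit 249)))) 
  (.dom (nat_lit 144)))) 
  (.dom (nat_lit 104))) 
  (.dom (nat_lit 51))) 
  (.dom (nat_lit 53)))) 
  (.dom (nat_lit 182)))) 
  (.br (nat_lit 4) (.br (nat_lit 10) (.br (nat_lit 0) (.far (nat_lit 1) (nat_lit 193)) 
  (.br (nat_lit 22) (.br (nat_lit 23) (.br (nat_lit 8) (.far (nat_lit 225) (nat_lit 65)) 
  (.br (nat_lit 16) (.br (nat_lit 17) (.far (nat_lit 161) (nat_lit 97)) (.dom (nat_lit 144))) (.dom (nat_lit 68)))) 
  (.dom (nat_lit 182))) 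
  (.dom (nat_lit 127)))) 
  (.dom (nat_lit 371))) 
  (.dom (nat_lit 370)))) 
  (.br (nat_lit 4) (.br (nat_lit 18) (.br (nat_lit 16) (.br (nat_lit 0) (.far (nat_lit 225) (nat_lit 193)) 
  (.br (nat_lit 22) (.br (nat_lit 23) (.br (nat_lit 10) (.far (nat_lit 225) (nat_lit 97)) 
  (.br (nat_lit 13) (.br (nat_lit 15) (.br (nat_lit 21) (.br (nat_lit 17) (.far (nat_lit 161) (nat_lit 1)) (.br (nat_lit 14) (.far (nat_lit 225) (nat_lit 1)) (.dom (nat_lit 304)))) 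
  (.dom (nat_lit 53))) 
  (.dom (nat_lit 371))) 
  (.dom (nat_lit 19)))) 
  (.dom (nat_lit 182))) 
  (.dom (nat_lit 121)))) 
  (.dom (nat_lit 61))) 
  (.dom (nat_lit 220))) 
  (.dom (nat_lit 205)))) 
  (.br (nat_lit 10) (.br (nat_lit 18) (.br (nat_lit 22) (.br (nat_lit 4) (.br (nat_lit 8) (.far (nat_lit 225) (nat_lit 65)) (.br (nat_lit 16) (.far (nat_lit 225) (nat_lit 97)) (.dom (nat_lit 60)))) 
  (.br (nat_lit 9) (.br (nat_lit 15) (.br (nat_lit 21) (.br (nat_lit 8) (.far (nat_lit 225) (nat_lit 65)) 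
  (.br (nat_lit 17) (.br (nat_lit 13) (.br (nat_lit 16) (.br (nat_lit 23) (.far (nat_lit 161) (nat_lit 1)) (.br (nat_lit 14) (.far (nat_lit 225) (nat_lit 1)) (.dom (nat_lit 354)))) 
  (.dom (nat_lit 60))) 
  (.dom (nat_lit 18))) 
  (.dom (nat_lit 144)))) 
  (.dom (nat_lit 51))) 
  (.dom (nat_lit 370))) 
  (.dom (nat_lit 205)))) 
  (.dom (nat_lit 120))) 
  (.dom (nat_lit 219))) 
  (.dom (nat_lit 369)))) 
  (.dom (nat_lit 213))) 
  (.dom (nat_lit 212)))) 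
  (.dom (nat_lit 372))) 
  (.dom (nat_lit 208)))) 
  (.br (nat_lit 13) (.br (nat_lit 21) (.br (nat_lit 14) (.br (nat_lit 15) (.br (nat_lit 1) (.br (nat_lit 7) (.far (nat_lit 3138) (nat_lit 7330)) (.br (nat_lit 12) (.far (nat_lit 101443) (nat_lit 234499)) (.dom (nat_lit 212)))) 
  (.br (nat_lit 18) (.br (nat_lit 20) (.far (nat_lit 6242) (nat_lit 5122)) (.dom (nat_lit 207))) (.dom (nat_lit 219)))) 
  (.br (nat_lit 4) (.br (nat_lit 10) (.br (nat_lit 1) (.br (nat_lit 9) (.br (nat_lit 7) (.br (nat_lit 0) (.br (nat_lit 5) (.br (nat_lit 8) (.br (nat_lit 11) (.far (nat_lit 5122) (nat_lit 0)) (.br (nat_lit 12) (.far (nat_lit 97) (nat_lit 193)) (.dom (nat_lit 39)))) 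
  (.br (nat_lit 17) (.far (nat_lit 2050) (nat_lit 7362)) (.dom (nat_lit 145)))) 
  (.br (nat_lit 20) (.br (nat_lit 8) (.far (nat_lit 97) (nat_lit 65)) 
  (.br (nat_lit 12) (.br (nat_lit 17) (.br (nat_lit 18) (.br (nat_lit 8) (.far (nat_lit 7572580) (nat_lit 1)) 
  (.br (nat_lit 15) (.far (nat_lit 97) (nat_lit 1)) (.br (nat_lit 16) (.far (nat_lit 225) (nat_lit 193)) (.dom (nat_lit 241))))) 
  (.dom (nat_lit 94))) 
  (.dom (nat_lit 145))) 
  (.dom (nat_lit 27)))) 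
  (.dom (nat_lit 29)))) 
  (.br (nat_lit 23) (.br (nat_lit 11) (.br (nat_lit 5) (.br (nat_lit 8) (.far (nat_lit 1) (nat_lit 7234)) (.br (nat_lit 17) (.far (nat_lit 161) (nat_lit 225)) (.dom (nat_lit 145)))) 
  (.br (nat_lit 20) (.br (nat_lit 8) (.far (nat_lit 97) (nat_lit 65)) 
  (.br (nat_lit 12) (.br (nat_lit 17) (.br (nat_lit 18) (.br (nat_lit 15) (.far (nat_lit 97) (nat_lit 1)) 
  (.br (nat_lit 22) (.br (nat_lit 8) (.far (nat_lit 0) (nat_lit 65)) (.br (nat_lit 16) (.far (nat_lit 225) (nat_lit 1)) (.dom (nat_lit 241)))) 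
  (.dom (nat_lit 287)))) 
  (.dom (nat_lit 94))) 
  (.dom (nat_lit 145))) 
  (.dom (nat_lit 27)))) 
  (.dom (nat_lit 29)))) 
  (.br (nat_lit 20) (.br (nat_lit 12) (.br (nat_lit 18) (.br (nat_lit 8) (.br (nat_lit 0) (.far (nat_lit 7572580) (nat_lit 1)) 
  (.br (nat_lit 15) (.far (nat_lit 97) (nat_lit 1)) (.br (nat_lit 22) (.far (nat_lit 225) (nat_lit 65)) (.dom (nat_lit 289))))) 
  (.br (nat_lit 17) (.br (nat_lit 15) (.far (nat_lit 97) (nat_lit 1)) 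
  (.br (nat_lit 16) (.br (nat_lit 22) (.far (nat_lit 225) (nat_lit 1)) (.br (nat_lit 0) (.far (nat_lit 225) (nat_lit 193)) (.dom (nat_lit 289)))) 
  (.dom (nat_lit 244)))) 
  (.dom (nat_lit 145)))) 
  (.dom (nat_lit 99))) 
  (.dom (nat_lit 39))) 
  (.dom (nat_lit 41)))) 
  (.dom (nat_lit 183)))) 
  (.br (nat_lit 12) (.br (nat_lit 20) (.br (nat_lit 0) (.far (nat_lit 97) (nat_lit 193)) 
  (.br (nat_lit 22) (.br (nat_lit 23) (.br (nat_lit 8) (.far (nat_lit 225) (nat_lit 65)) 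
  (.br (nat_lit 16) (.br (nat_lit 17) (.far (nat_lit 161) (nat_lit 1)) (.dom (nat_lit 145))) (.dom (nat_lit 68)))) 
  (.dom (nat_lit 183))) 
  (.dom (nat_lit 127)))) 
  (.dom (nat_lit 213))) 
  (.dom (nat_lit 212)))) 
  (.br (nat_lit 12) (.br (nat_lit 18) (.br (nat_lit 16) (.br (nat_lit 0) (.far (nat_lit 225) (nat_lit 193)) 
  (.br (nat_lit 22) (.br (nat_lit 23) (.br (nat_lit 20) (.far (nat_lit 225) (nat_lit 1)) 
  (.br (nat_lit 5) (.br (nat_lit 7) (.br (nat_lit 11) (.br (nat_lit 17) (.far (nat_lit 161) (nat_lit 97)) (.br (nat_lit 6) (.far (nat_lit 225) (nat_lit 97)) (.dom (nat_lit 306)))) 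
  (.dom (nat_lit 41))) 
  (.dom (nat_lit 213))) 
  (.dom (nat_lit 29)))) 
  (.dom (nat_lit 183))) 
  (.dom (nat_lit 125)))) 
  (.dom (nat_lit 65))) 
  (.dom (nat_lit 220))) 
  (.dom (nat_lit 204)))) 
  (.br (nat_lit 20) (.br (nat_lit 18) (.br (nat_lit 22) (.br (nat_lit 12) (.br (nat_lit 8) (.far (nat_lit 225) (nat_lit 65)) (.br (nat_lit 16) (.far (nat_lit 225) (nat_lit 1)) (.dom (nat_lit 64)))) 
  (.br (nat_lit 9) (.br (nat_lit 7) (.br (nat_lit 11) (.br (nat_lit 8) (.far (nat_lit 225) (nat_lit 65)) 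
  (.br (nat_lit 17) (.br (nat_lit 5) (.br (nat_lit 16) (.br (nat_lit 23) (.far (nat_lit 161) (nat_lit 97)) (.br (nat_lit 6) (.far (nat_lit 225) (nat_lit 97)) (.dom (nat_lit 356)))) 
  (.dom (nat_lit 64))) 
  (.dom (nat_lit 27))) 
  (.dom (nat_lit 145)))) 
  (.dom (nat_lit 39))) 
  (.dom (nat_lit 212))) 
  (.dom (nat_lit 204)))) 
  (.dom (nat_lit 124))) 
  (.dom (nat_lit 219))) 
  (.dom (nat_lit 207)))) 
  (.dom (nat_lit 371))) 
  (.dom (nat_lit 370)))) 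
  (.br (nat_lit 5) (.br (nat_lit 11) (.br (nat_lit 1) (.br (nat_lit 9) (.br (nat_lit 7) (.far (nat_lit 1) (nat_lit 225)) 
  (.br (nat_lit 12) (.br (nat_lit 20) (.br (nat_lit 15) (.far (nat_lit 97) (nat_lit 225)) 
  (.br (nat_lit 4) (.br (nat_lit 10) (.br (nat_lit 0) (.far (nat_lit 97) (nat_lit 193)) 
  (.br (nat_lit 23) (.br (nat_lit 22) (.br (nat_lit 8) (.far (nat_lit 0) (nat_lit 65)) (.br (nat_lit 17) (.far (nat_lit 161) (nat_lit 225)) (.dom (nat_lit 144)))) 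
  (.dom (nat_lit 127))) 
  (.dom (nat_lit 182)))) 
  (.dom (nat_lit 371))) 
  (.dom (nat_lit 370)))) 
  (.dom (nat_lit 213))) 
  (.dom (nat_lit 212)))) 
  (.br (nat_lit 4) (.br (nat_lit 12) (.br (nat_lit 17) (.br (nat_lit 18) (.br (nat_lit 16) (.br (nat_lit 0) (.far (nat_lit 0) (nat_lit 193)) 
  (.br (nat_lit 23) (.br (nat_lit 7) (.far (nat_lit 0) (nat_lit 235619)) (.br (nat_lit 22) (.far (nat_lit 0) (nat_lit 199683)) (.dom (nat_lit 121)))) 
  (.dom (nat_lit 175)))) 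
  (.br (nat_lit 7) (.br (nat_lit 15) (.far (nat_lit 65) (nat_lit 225)) (.dom (nat_lit 65))) (.dom (nat_lit 61)))) 
  (.dom (nat_lit 220))) 
  (.dom (nat_lit 135))) 
  (.dom (nat_lit 204))) 
  (.dom (nat_lit 205)))) 
  (.br (nat_lit 10) (.br (nat_lit 20) (.br (nat_lit 18) (.br (nat_lit 23) (.br (nat_lit 9) (.br (nat_lit 22) (.br (nat_lit 8) (.far (nat_lit 0) (nat_lit 65)) 
  (.br (nat_lit 17) (.br (nat_lit 7) (.far (nat_lit 0) (nat_lit 232515)) (.br (nat_lit 16) (.far (nat_lit 0) (nat_lit 100355)) (.dom (nat_lit 60)))) 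
  (.dom (nat_lit 134)))) 
  (.br (nat_lit 7) (.br (nat_lit 15) (.far (nat_lit 193) (nat_lit 225)) (.dom (nat_lit 124))) (.dom (nat_lit 120)))) 
  (.br (nat_lit 22) (.br (nat_lit 16) (.br (nat_lit 17) (.far (nat_lit 0) (nat_lit 100355)) (.dom (nat_lit 135))) (.dom (nat_lit 54))) 
  (.dom (nat_lit 111)))) 
  (.dom (nat_lit 174))) 
  (.dom (nat_lit 219))) 
  (.dom (nat_lit 207))) 
  (.dom (nat_lit 369)))) 
  (.dom (nat_lit 372))) 
  (.dom (nat_lit 208)))) 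
  (.dom (nat_lit 216))) 
  (.dom (nat_lit 210))))

/-- search tree -/
def gp666B7 : BB := (.br (nat_lit 6) (.br (nat_lit 14) (.br (nat_lit 18) (.br (nat_lit 4) (.br (nat_lit 7) (.far (nat_lit 7234) (nat_lit 5218)) (.br (nat_lit 12) (.far (nat_lit 236611) (nat_lit 166915)) (.dom (nat_lit 212)))) 
  (.br (nat_lit 15) (.br (nat_lit 20) (.far (nat_lit 7362) (nat_lit 5122)) (.dom (nat_lit 206))) (.dom (nat_lit 370)))) 
  (.br (nat_lit 1) (.br (nat_lit 9) (.br (nat_lit 4) (.br (nat_lit 10) (.br (nat_lit 7) (.br (nat_lit 0) (.br (nat_lit 5) (.br (nat_lit 8) (.br (nat_lit 11) (.far (nat_lit 5122) (nat_lit 0)) (.br (nat_lit 12) (.far (nat_lit 225) (nat_lit 193)) (.dom (nat_lit 95)))) 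
  (.br (nat_lit 17) (.far (nat_lit 2050) (nat_lit 6242)) (.dom (nat_lit 148)))) 
  (.br (nat_lit 20) (.br (nat_lit 8) (.far (nat_lit 225) (nat_lit 65)) 
  (.br (nat_lit 12) (.br (nat_lit 15) (.br (nat_lit 17) (.br (nat_lit 8) (.far (nat_lit 7574692) (nat_lit 1)) 
  (.br (nat_lit 13) (.far (nat_lit 7330) (nat_lit 6146)) (.br (nat_lit 18) (.far (nat_lit 225) (nat_lit 1)) (.dom (nat_lit 272))))) 
  (.dom (nat_lit 148))) 
  (.dom (nat_lit 94))) 
  (.dom (nat_lit 86)))) 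
  (.dom (nat_lit 88)))) 
  (.br (nat_lit 23) (.br (nat_lit 11) (.br (nat_lit 5) (.br (nat_lit 8) (.far (nat_lit 1) (nat_lit 3138)) (.br (nat_lit 17) (.far (nat_lit 161) (nat_lit 97)) (.dom (nat_lit 148)))) 
  (.br (nat_lit 20) (.br (nat_lit 8) (.far (nat_lit 225) (nat_lit 65)) 
  (.br (nat_lit 12) (.br (nat_lit 15) (.br (nat_lit 17) (.br (nat_lit 18) (.far (nat_lit 225) (nat_lit 1)) 
  (.br (nat_lit 21) (.br (nat_lit 8) (.far (nat_lit 0) (nat_lit 65)) (.br (nat_lit 13) (.far (nat_lit 161) (nat_lit 1)) (.dom (nat_lit 272)))) 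
  (.dom (nat_lit 274)))) 
  (.dom (nat_lit 148))) 
  (.dom (nat_lit 94))) 
  (.dom (nat_lit 86)))) 
  (.dom (nat_lit 88)))) 
  (.br (nat_lit 20) (.br (nat_lit 12) (.br (nat_lit 15) (.br (nat_lit 8) (.br (nat_lit 0) (.far (nat_lit 7574692) (nat_lit 1)) 
  (.br (nat_lit 18) (.far (nat_lit 225) (nat_lit 1)) (.br (nat_lit 21) (.far (nat_lit 97) (nat_lit 65)) (.dom (nat_lit 275))))) 
  (.br (nat_lit 17) (.br (nat_lit 18) (.far (nat_lit 225) (nat_lit 1)) 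
  (.br (nat_lit 13) (.br (nat_lit 21) (.far (nat_lit 161) (nat_lit 1)) (.br (nat_lit 0) (.far (nat_lit 225) (nat_lit 193)) (.dom (nat_lit 275)))) 
  (.dom (nat_lit 273)))) 
  (.dom (nat_lit 148)))) 
  (.dom (nat_lit 99))) 
  (.dom (nat_lit 95))) 
  (.dom (nat_lit 97)))) 
  (.dom (nat_lit 185)))) 
  (.br (nat_lit 12) (.br (nat_lit 20) (.br (nat_lit 0) (.far (nat_lit 225) (nat_lit 193)) 
  (.br (nat_lit 21) (.br (nat_lit 23) (.br (nat_lit 8) (.far (nat_lit 225) (nat_lit 65)) 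
  (.br (nat_lit 13) (.br (nat_lit 17) (.far (nat_lit 161) (nat_lit 1)) (.dom (nat_lit 148))) (.dom (nat_lit 93)))) 
  (.dom (nat_lit 185))) 
  (.dom (nat_lit 104)))) 
  (.dom (nat_lit 213))) 
  (.dom (nat_lit 212)))) 
  (.br (nat_lit 12) (.br (nat_lit 15) (.br (nat_lit 13) (.br (nat_lit 0) (.far (nat_lit 97) (nat_lit 193)) 
  (.br (nat_lit 21) (.br (nat_lit 23) (.br (nat_lit 20) (.far (nat_lit 97) (nat_lit 1)) 
  (.br (nat_lit 5) (.br (nat_lit 7) (.br (nat_lit 11) (.br (nat_lit 17) (.far (nat_lit 161) (nat_lit 225)) (.br (nat_lit 3) (.far (nat_lit 193) (nat_lit 225)) (.dom (nat_lit 312)))) 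
  (.dom (nat_lit 97))) 
  (.dom (nat_lit 213))) 
  (.dom (nat_lit 88)))) 
  (.dom (nat_lit 185))) 
  (.dom (nat_lit 102)))) 
  (.dom (nat_lit 91))) 
  (.dom (nat_lit 371))) 
  (.dom (nat_lit 368)))) 
  (.br (nat_lit 20) (.br (nat_lit 15) (.br (nat_lit 21) (.br (nat_lit 12) (.br (nat_lit 8) (.far (nat_lit 97) (nat_lit 65)) (.br (nat_lit 13) (.far (nat_lit 97) (nat_lit 1)) (.dom (nat_lit 89)))) 
  (.br (nat_lit 10) (.br (nat_lit 7) (.br (nat_lit 11) (.br (nat_lit 8) (.far (nat_lit 97) (nat_lit 65)) 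
  (.br (nat_lit 17) (.br (nat_lit 5) (.br (nat_lit 13) (.br (nat_lit 23) (.far (nat_lit 161) (nat_lit 225)) (.br (nat_lit 3) (.far (nat_lit 97) (nat_lit 161)) (.dom (nat_lit 361)))) 
  (.dom (nat_lit 89))) 
  (.dom (nat_lit 86))) 
  (.dom (nat_lit 148)))) 
  (.dom (nat_lit 95))) 
  (.dom (nat_lit 212))) 
  (.dom (nat_lit 368)))) 
  (.dom (nat_lit 100))) 
  (.dom (nat_lit 370))) 
  (.dom (nat_lit 206)))) 
  (.dom (nat_lit 220))) 
  (.dom (nat_lit 219)))) 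
  (.br (nat_lit 5) (.br (nat_lit 11) (.br (nat_lit 4) (.br (nat_lit 10) (.br (nat_lit 7) (.far (nat_lit 1) (nat_lit 97)) 
  (.br (nat_lit 12) (.br (nat_lit 20) (.br (nat_lit 18) (.far (nat_lit 225) (nat_lit 97)) 
  (.br (nat_lit 1) (.br (nat_lit 9) (.br (nat_lit 0) (.far (nat_lit 225) (nat_lit 193)) 
  (.br (nat_lit 23) (.br (nat_lit 21) (.br (nat_lit 8) (.far (nat_lit 0) (nat_lit 65)) (.br (nat_lit 17) (.far (nat_lit 161) (nat_lit 97)) (.dom (nat_lit 144)))) 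
  (.dom (nat_lit 104))) 
  (.dom (nat_lit 182)))) 
  (.dom (nat_lit 220))) 
  (.dom (nat_lit 219)))) 
  (.dom (nat_lit 213))) 
  (.dom (nat_lit 212)))) 
  (.br (nat_lit 1) (.br (nat_lit 12) (.br (nat_lit 17) (.br (nat_lit 15) (.br (nat_lit 13) (.br (nat_lit 0) (.far (nat_lit 0) (nat_lit 193)) 
  (.br (nat_lit 23) (.br (nat_lit 7) (.far (nat_lit 0) (nat_lit 235619)) (.br (nat_lit 21) (.far (nat_lit 0) (nat_lit 235523)) (.dom (nat_lit 53)))) 
  (.dom (nat_lit 177)))) 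
  (.br (nat_lit 7) (.br (nat_lit 18) (.far (nat_lit 65) (nat_lit 97)) (.dom (nat_lit 91))) (.dom (nat_lit 19)))) 
  (.dom (nat_lit 371))) 
  (.dom (nat_lit 137))) 
  (.dom (nat_lit 368))) 
  (.dom (nat_lit 369)))) 
  (.br (nat_lit 9) (.br (nat_lit 20) (.br (nat_lit 15) (.br (nat_lit 23) (.br (nat_lit 10) (.br (nat_lit 21) (.br (nat_lit 8) (.far (nat_lit 0) (nat_lit 65)) 
  (.br (nat_lit 17) (.br (nat_lit 7) (.far (nat_lit 0) (nat_lit 232515)) (.br (nat_lit 13) (.far (nat_lit 0) (nat_lit 231427)) (.dom (nat_lit 18)))) 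
  (.dom (nat_lit 133)))) 
  (.br (nat_lit 7) (.br (nat_lit 18) (.far (nat_lit 193) (nat_lit 97)) (.dom (nat_lit 100))) (.dom (nat_lit 51)))) 
  (.br (nat_lit 21) (.br (nat_lit 13) (.br (nat_lit 17) (.far (nat_lit 0) (nat_lit 231427)) (.dom (nat_lit 137))) (.dom (nat_lit 6))) 
  (.dom (nat_lit 47)))) 
  (.dom (nat_lit 173))) 
  (.dom (nat_lit 370))) 
  (.dom (nat_lit 206))) 
  (.dom (nat_lit 205)))) 
  (.dom (nat_lit 372))) 
  (.dom (nat_lit 208)))) 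
  (.br (nat_lit 13) (.br (nat_lit 21) (.br (nat_lit 12) (.br (nat_lit 20) (.br (nat_lit 14) (.br (nat_lit 15) (.far (nat_lit 97) (nat_lit 1)) 
  (.br (nat_lit 4) (.br (nat_lit 10) (.br (nat_lit 18) (.far (nat_lit 225) (nat_lit 1)) 
  (.br (nat_lit 1) (.br (nat_lit 9) (.br (nat_lit 0) (.far (nat_lit 225) (nat_lit 193)) 
  (.br (nat_lit 23) (.br (nat_lit 11) (.br (nat_lit 8) (.far (nat_lit 0) (nat_lit 65)) (.br (nat_lit 17) (.far (nat_lit 161) (nat_lit 1)) (.dom (nat_lit 145)))) 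
  (.dom (nat_lit 99))) 
  (.dom (nat_lit 183)))) 
  (.dom (nat_lit 220))) 
  (.dom (nat_lit 219)))) 
  (.dom (nat_lit 371))) 
  (.dom (nat_lit 370)))) 
  (.br (nat_lit 5) (.br (nat_lit 11) (.br (nat_lit 23) (.br (nat_lit 17) (.far (nat_lit 161) (nat_lit 1)) 
  (.br (nat_lit 9) (.br (nat_lit 10) (.br (nat_lit 8) (.far (nat_lit 0) (nat_lit 65)) 
  (.br (nat_lit 1) (.br (nat_lit 15) (.br (nat_lit 4) (.br (nat_lit 7) (.br (nat_lit 18) (.br (nat_lit 8) (.far (nat_lit 0) (nat_lit 65)) (.br (nat_lit 17) (.far (nat_lit 161) (nat_lit 1)) (.dom (nat_lit 317)))) 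
  (.dom (nat_lit 148))) 
  (.dom (nat_lit 144))) 
  (.dom (nat_lit 133))) 
  (.dom (nat_lit 145))) 
  (.dom (nat_lit 134)))) 
  (.dom (nat_lit 137))) 
  (.dom (nat_lit 135)))) 
  (.br (nat_lit 1) (.br (nat_lit 4) (.br (nat_lit 0) (.far (nat_lit 225) (nat_lit 193)) 
  (.br (nat_lit 9) (.br (nat_lit 10) (.br (nat_lit 7) (.br (nat_lit 15) (.br (nat_lit 18) (.br (nat_lit 8) (.br (nat_lit 0) (.far (nat_lit 7330) (nat_lit 0)) (.br (nat_lit 23) (.far (nat_lit 0) (nat_lit 65)) (.dom (nat_lit 367)))) 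
  (.br (nat_lit 17) (.br (nat_lit 0) (.far (nat_lit 0) (nat_lit 193)) (.br (nat_lit 23) (.far (nat_lit 161) (nat_lit 1)) (.dom (nat_lit 367)))) 
  (.dom (nat_lit 364)))) 
  (.dom (nat_lit 185))) 
  (.dom (nat_lit 183))) 
  (.dom (nat_lit 182))) 
  (.dom (nat_lit 177))) 
  (.dom (nat_lit 175)))) 
  (.dom (nat_lit 173))) 
  (.dom (nat_lit 174)))) 
  (.dom (nat_lit 372))) 
  (.dom (nat_lit 208)))) 
  (.br (nat_lit 1) (.br (nat_lit 4) (.br (nat_lit 17) (.br (nat_lit 7) (.br (nat_lit 5) (.br (nat_lit 0) (.far (nat_lit 0) (nat_lit 193)) 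
  (.br (nat_lit 23) (.br (nat_lit 11) (.far (nat_lit 0) (nat_lit 235619)) (.br (nat_lit 15) (.far (nat_lit 0) (nat_lit 235523)) (.dom (nat_lit 41)))) 
  (.dom (nat_lit 179)))) 
  (.br (nat_lit 14) (.br (nat_lit 15) (.br (nat_lit 18) (.far (nat_lit 65) (nat_lit 1)) (.dom (nat_lit 88))) (.dom (nat_lit 29))) 
  (.dom (nat_lit 208)))) 
  (.dom (nat_lit 213))) 
  (.dom (nat_lit 140))) 
  (.dom (nat_lit 206))) 
  (.dom (nat_lit 207)))) 
  (.br (nat_lit 9) (.br (nat_lit 10) (.br (nat_lit 7) (.br (nat_lit 23) (.br (nat_lit 20) (.br (nat_lit 11) (.br (nat_lit 8) (.far (nat_lit 0) (nat_lit 65)) 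
  (.br (nat_lit 17) (.br (nat_lit 5) (.far (nat_lit 0) (nat_lit 232515)) (.br (nat_lit 15) (.far (nat_lit 0) (nat_lit 231427)) (.dom (nat_lit 27)))) 
  (.dom (nat_lit 132)))) 
  (.br (nat_lit 14) (.br (nat_lit 15) (.br (nat_lit 18) (.far (nat_lit 193) (nat_lit 1)) (.dom (nat_lit 95))) (.dom (nat_lit 39))) 
  (.dom (nat_lit 372)))) 
  (.br (nat_lit 11) (.br (nat_lit 5) (.br (nat_lit 17) (.far (nat_lit 0) (nat_lit 232515)) (.dom (nat_lit 140))) (.dom (nat_lit 2))) 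
  (.dom (nat_lit 34)))) 
  (.dom (nat_lit 171))) 
  (.dom (nat_lit 212))) 
  (.dom (nat_lit 368))) 
  (.dom (nat_lit 204)))) 
  (.dom (nat_lit 216))) 
  (.dom (nat_lit 210))))

/-- search tree -/
def gp666B8 : BB := (.br (nat_lit 10) (.br (nat_lit 20) (.br (nat_lit 11) (.br (nat_lit 21) (.br (nat_lit 22) (.far (nat_lit 0) (nat_lit 65)) (.br (nat_lit 1) (.far (nat_lit 166915) (nat_lit 231491)) (.dom (nat_lit 221)))) 
  (.br (nat_lit 4) (.br (nat_lit 6) (.br (nat_lit 22) (.far (nat_lit 7170) (nat_lit 3138)) 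
  (.br (nat_lit 1) (.br (nat_lit 3) (.br (nat_lit 0) (.br (nat_lit 2) (.far (nat_lit 7170) (nat_lit 0)) (.br (nat_lit 5) (.far (nat_lit 1) (nat_lit 193)) (.dom (nat_lit 130)))) 
  (.br (nat_lit 7) (.br (nat_lit 2) (.far (nat_lit 1) (nat_lit 161)) (.br (nat_lit 5) (.far (nat_lit 1) (nat_lit 97)) (.dom (nat_lit 130)))) 
  (.dom (nat_lit 131)))) 
  (.dom (nat_lit 373))) 
  (.dom (nat_lit 221)))) 
  (.dom (nat_lit 216))) 
  (.dom (nat_lit 215)))) 
  (.br (nat_lit 12) (.br (nat_lit 14) (.br (nat_lit 21) (.br (nat_lit 22) (.far (nat_lit 7266) (nat_lit 2050)) 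
  (.br (nat_lit 1) (.br (nat_lit 3) (.br (nat_lit 0) (.br (nat_lit 2) (.far (nat_lit 7266) (nat_lit 0)) (.br (nat_lit 13) (.far (nat_lit 97) (nat_lit 193)) (.dom (nat_lit 128)))) 
  (.br (nat_lit 15) (.br (nat_lit 2) (.far (nat_lit 97) (nat_lit 161)) (.br (nat_lit 13) (.far (nat_lit 97) (nat_lit 1)) (.dom (nat_lit 128)))) 
  (.dom (nat_lit 129)))) 
  (.dom (nat_lit 373))) 
  (.dom (nat_lit 221)))) 
  (.br (nat_lit 4) (.br (nat_lit 6) (.br (nat_lit 22) (.br (nat_lit 0) (.br (nat_lit 2) (.far (nat_lit 7266) (nat_lit 0)) (.br (nat_lit 16) (.far (nat_lit 225) (nat_lit 193)) (.dom (nat_lit 79)))) 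
  (.br (nat_lit 18) (.br (nat_lit 2) (.far (nat_lit 225) (nat_lit 161)) (.br (nat_lit 16) (.far (nat_lit 225) (nat_lit 1)) (.dom (nat_lit 79)))) 
  (.dom (nat_lit 105)))) 
  (.br (nat_lit 1) (.br (nat_lit 3) (.br (nat_lit 0) (.far (nat_lit 7506948) (nat_lit 193)) 
  (.br (nat_lit 7) (.br (nat_lit 15) (.br (nat_lit 18) (.br (nat_lit 2) (.far (nat_lit 225) (nat_lit 161)) 
  (.br (nat_lit 5) (.br (nat_lit 13) (.br (nat_lit 16) (.br (nat_lit 0) (.br (nat_lit 2) (.far (nat_lit 7234) (nat_lit 0)) (.br (nat_lit 17) (.far (nat_lit 0) (nat_lit 193)) (.dom (nat_lit 316)))) 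
  (.br (nat_lit 19) (.br (nat_lit 2) (.far (nat_lit 0) (nat_lit 161)) (.br (nat_lit 17) (.far (nat_lit 65) (nat_lit 1)) (.dom (nat_lit 316)))) 
  (.dom (nat_lit 339)))) 
  (.dom (nat_lit 79))) 
  (.dom (nat_lit 128))) 
  (.dom (nat_lit 130)))) 
  (.dom (nat_lit 105))) 
  (.dom (nat_lit 129))) 
  (.dom (nat_lit 131)))) 
  (.dom (nat_lit 373))) 
  (.dom (nat_lit 221)))) 
  (.dom (nat_lit 216))) 
  (.dom (nat_lit 215)))) 
  (.dom (nat_lit 372))) 
  (.dom (nat_lit 214)))) 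
  (.br (nat_lit 5) (.br (nat_lit 7) (.br (nat_lit 11) (.br (nat_lit 1) (.br (nat_lit 3) (.far (nat_lit 1) (nat_lit 225)) (.br (nat_lit 4) (.far (nat_lit 163843) (nat_lit 232515)) (.dom (nat_lit 206)))) 
  (.br (nat_lit 6) (.br (nat_lit 22) (.far (nat_lit 6146) (nat_lit 3138)) (.dom (nat_lit 221))) (.dom (nat_lit 207)))) 
  (.br (nat_lit 12) (.br (nat_lit 14) (.br (nat_lit 1) (.br (nat_lit 3) (.br (nat_lit 21) (.br (nat_lit 0) (.br (nat_lit 2) (.br (nat_lit 4) (.br (nat_lit 6) (.far (nat_lit 2050) (nat_lit 0)) (.br (nat_lit 13) (.far (nat_lit 97) (nat_lit 193)) (.dom (nat_lit 38)))) 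
  (.br (nat_lit 15) (.far (nat_lit 97) (nat_lit 161)) (.dom (nat_lit 40)))) 
  (.br (nat_lit 17) (.br (nat_lit 13) (.far (nat_lit 5218) (nat_lit 7362)) 
  (.br (nat_lit 4) (.br (nat_lit 6) (.br (nat_lit 22) (.br (nat_lit 2) (.far (nat_lit 7569412) (nat_lit 97)) 
  (.br (nat_lit 11) (.far (nat_lit 1) (nat_lit 97)) (.br (nat_lit 16) (.far (nat_lit 225) (nat_lit 193)) (.dom (nat_lit 245))))) 
  (.dom (nat_lit 128))) 
  (.dom (nat_lit 38))) 
  (.dom (nat_lit 37)))) 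
  (.dom (nat_lit 146)))) 
  (.br (nat_lit 19) (.br (nat_lit 15) (.br (nat_lit 2) (.far (nat_lit 6242) (nat_lit 7330)) 
  (.br (nat_lit 17) (.br (nat_lit 13) (.far (nat_lit 65) (nat_lit 225)) 
  (.br (nat_lit 4) (.br (nat_lit 6) (.br (nat_lit 22) (.br (nat_lit 11) (.far (nat_lit 193) (nat_lit 225)) 
  (.br (nat_lit 18) (.br (nat_lit 2) (.far (nat_lit 0) (nat_lit 161)) (.br (nat_lit 16) (.far (nat_lit 225) (nat_lit 97)) (.dom (nat_lit 245)))) 
  (.dom (nat_lit 265)))) 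
  (.dom (nat_lit 128))) 
  (.dom (nat_lit 38))) 
  (.dom (nat_lit 37)))) 
  (.dom (nat_lit 146)))) 
  (.br (nat_lit 6) (.br (nat_lit 4) (.br (nat_lit 22) (.br (nat_lit 2) (.br (nat_lit 0) (.far (nat_lit 7569412) (nat_lit 97)) 
  (.br (nat_lit 11) (.far (nat_lit 1) (nat_lit 97)) (.br (nat_lit 18) (.far (nat_lit 225) (nat_lit 161)) (.dom (nat_lit 266))))) 
  (.br (nat_lit 17) (.br (nat_lit 11) (.far (nat_lit 1) (nat_lit 97)) 
  (.br (nat_lit 16) (.br (nat_lit 18) (.far (nat_lit 225) (nat_lit 97)) (.br (nat_lit 0) (.far (nat_lit 225) (nat_lit 193)) (.dom (nat_lit 266)))) 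
  (.dom (nat_lit 246)))) 
  (.dom (nat_lit 146)))) 
  (.dom (nat_lit 129))) 
  (.dom (nat_lit 40))) 
  (.dom (nat_lit 41)))) 
  (.dom (nat_lit 164)))) 
  (.br (nat_lit 4) (.br (nat_lit 6) (.br (nat_lit 0) (.far (nat_lit 1) (nat_lit 193)) 
  (.br (nat_lit 18) (.br (nat_lit 19) (.br (nat_lit 2) (.far (nat_lit 225) (nat_lit 161)) 
  (.br (nat_lit 16) (.br (nat_lit 17) (.far (nat_lit 65) (nat_lit 97)) (.dom (nat_lit 146))) (.dom (nat_lit 79)))) 
  (.dom (nat_lit 164))) 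
  (.dom (nat_lit 105)))) 
  (.dom (nat_lit 216))) 
  (.dom (nat_lit 215)))) 
  (.br (nat_lit 4) (.br (nat_lit 22) (.br (nat_lit 16) (.br (nat_lit 0) (.far (nat_lit 225) (nat_lit 193)) 
  (.br (nat_lit 18) (.br (nat_lit 19) (.br (nat_lit 6) (.far (nat_lit 225) (nat_lit 97)) 
  (.br (nat_lit 13) (.br (nat_lit 15) (.br (nat_lit 21) (.br (nat_lit 17) (.far (nat_lit 65) (nat_lit 1)) (.br (nat_lit 20) (.far (nat_lit 225) (nat_lit 1)) (.dom (nat_lit 308)))) 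
  (.dom (nat_lit 216))) 
  (.dom (nat_lit 41))) 
  (.dom (nat_lit 38)))) 
  (.dom (nat_lit 164))) 
  (.dom (nat_lit 97)))) 
  (.dom (nat_lit 71))) 
  (.dom (nat_lit 373))) 
  (.dom (nat_lit 206)))) 
  (.br (nat_lit 6) (.br (nat_lit 22) (.br (nat_lit 18) (.br (nat_lit 4) (.br (nat_lit 2) (.far (nat_lit 225) (nat_lit 161)) (.br (nat_lit 16) (.far (nat_lit 225) (nat_lit 97)) (.dom (nat_lit 70)))) 
  (.br (nat_lit 3) (.br (nat_lit 21) (.br (nat_lit 15) (.br (nat_lit 2) (.far (nat_lit 225) (nat_lit 161)) 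
  (.br (nat_lit 17) (.br (nat_lit 13) (.br (nat_lit 16) (.br (nat_lit 19) (.far (nat_lit 65) (nat_lit 1)) (.br (nat_lit 20) (.far (nat_lit 225) (nat_lit 1)) (.dom (nat_lit 330)))) 
  (.dom (nat_lit 70))) 
  (.dom (nat_lit 37))) 
  (.dom (nat_lit 146)))) 
  (.dom (nat_lit 40))) 
  (.dom (nat_lit 215))) 
  (.dom (nat_lit 206)))) 
  (.dom (nat_lit 96))) 
  (.dom (nat_lit 221))) 
  (.dom (nat_lit 207)))) 
  (.dom (nat_lit 372))) 
  (.dom (nat_lit 214)))) 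
  (.dom (nat_lit 213))) 
  (.dom (nat_lit 209)))) 
  (.br (nat_lit 13) (.br (nat_lit 15) (.br (nat_lit 20) (.br (nat_lit 21) (.br (nat_lit 1) (.br (nat_lit 3) (.far (nat_lit 97) (nat_lit 225)) (.br (nat_lit 12) (.far (nat_lit 167011) (nat_lit 231427)) (.dom (nat_lit 368)))) 
  (.br (nat_lit 14) (.br (nat_lit 22) (.far (nat_lit 6242) (nat_lit 2050)) (.dom (nat_lit 221))) (.dom (nat_lit 369)))) 
  (.br (nat_lit 4) (.br (nat_lit 6) (.br (nat_lit 1) (.br (nat_lit 3) (.br (nat_lit 11) (.br (nat_lit 0) (.br (nat_lit 2) (.br (nat_lit 5) (.br (nat_lit 7) (.far (nat_lit 2050) (nat_lit 0)) (.br (nat_lit 12) (.far (nat_lit 97) (nat_lit 193)) (.dom (nat_lit 52)))) 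
  (.br (nat_lit 14) (.far (nat_lit 97) (nat_lit 161)) (.dom (nat_lit 50)))) 
  (.br (nat_lit 17) (.br (nat_lit 5) (.far (nat_lit 5122) (nat_lit 7362)) 
  (.br (nat_lit 12) (.br (nat_lit 14) (.br (nat_lit 22) (.br (nat_lit 2) (.far (nat_lit 7572580) (nat_lit 1)) 
  (.br (nat_lit 16) (.far (nat_lit 7330) (nat_lit 6146)) (.br (nat_lit 21) (.far (nat_lit 97) (nat_lit 1)) (.dom (nat_lit 250))))) 
  (.dom (nat_lit 130))) 
  (.dom (nat_lit 50))) 
  (.dom (nat_lit 49)))) 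
  (.dom (nat_lit 147)))) 
  (.br (nat_lit 19) (.br (nat_lit 7) (.br (nat_lit 2) (.far (nat_lit 6146) (nat_lit 7330)) 
  (.br (nat_lit 17) (.br (nat_lit 5) (.far (nat_lit 65) (nat_lit 225)) 
  (.br (nat_lit 12) (.br (nat_lit 14) (.br (nat_lit 22) (.br (nat_lit 21) (.far (nat_lit 97) (nat_lit 1)) 
  (.br (nat_lit 18) (.br (nat_lit 2) (.far (nat_lit 0) (nat_lit 161)) (.br (nat_lit 16) (.far (nat_lit 225) (nat_lit 1)) (.dom (nat_lit 250)))) 
  (.dom (nat_lit 270)))) 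
  (.dom (nat_lit 130))) 
  (.dom (nat_lit 50))) 
  (.dom (nat_lit 49)))) 
  (.dom (nat_lit 147)))) 
  (.br (nat_lit 14) (.br (nat_lit 12) (.br (nat_lit 22) (.br (nat_lit 2) (.br (nat_lit 0) (.far (nat_lit 7572580) (nat_lit 1)) 
  (.br (nat_lit 18) (.far (nat_lit 7362) (nat_lit 5122)) (.br (nat_lit 21) (.far (nat_lit 97) (nat_lit 1)) (.dom (nat_lit 271))))) 
  (.br (nat_lit 17) (.br (nat_lit 21) (.far (nat_lit 97) (nat_lit 1)) 
  (.br (nat_lit 16) (.br (nat_lit 18) (.far (nat_lit 225) (nat_lit 1)) (.br (nat_lit 0) (.far (nat_lit 225) (nat_lit 193)) (.dom (nat_lit 271)))) 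
  (.dom (nat_lit 251)))) 
  (.dom (nat_lit 147)))) 
  (.dom (nat_lit 131))) 
  (.dom (nat_lit 52))) 
  (.dom (nat_lit 53)))) 
  (.dom (nat_lit 165)))) 
  (.br (nat_lit 12) (.br (nat_lit 14) (.br (nat_lit 0) (.far (nat_lit 97) (nat_lit 193)) 
  (.br (nat_lit 18) (.br (nat_lit 19) (.br (nat_lit 2) (.far (nat_lit 225) (nat_lit 161)) 
  (.br (nat_lit 16) (.br (nat_lit 17) (.far (nat_lit 65) (nat_lit 1)) (.dom (nat_lit 147))) (.dom (nat_lit 79)))) 
  (.dom (nat_lit 165))) 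
  (.dom (nat_lit 105)))) 
  (.dom (nat_lit 372))) 
  (.dom (nat_lit 214)))) 
  (.br (nat_lit 12) (.br (nat_lit 22) (.br (nat_lit 16) (.br (nat_lit 0) (.far (nat_lit 225) (nat_lit 193)) 
  (.br (nat_lit 18) (.br (nat_lit 19) (.br (nat_lit 14) (.far (nat_lit 225) (nat_lit 1)) 
  (.br (nat_lit 5) (.br (nat_lit 7) (.br (nat_lit 11) (.br (nat_lit 17) (.far (nat_lit 65) (nat_lit 97)) (.br (nat_lit 10) (.far (nat_lit 225) (nat_lit 65)) (.dom (nat_lit 310)))) 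
  (.dom (nat_lit 372))) 
  (.dom (nat_lit 53))) 
  (.dom (nat_lit 50)))) 
  (.dom (nat_lit 165))) 
  (.dom (nat_lit 102)))) 
  (.dom (nat_lit 76))) 
  (.dom (nat_lit 373))) 
  (.dom (nat_lit 368)))) 
  (.br (nat_lit 14) (.br (nat_lit 22) (.br (nat_lit 18) (.br (nat_lit 12) (.br (nat_lit 2) (.far (nat_lit 225) (nat_lit 161)) (.br (nat_lit 16) (.far (nat_lit 225) (nat_lit 1)) (.dom (nat_lit 75)))) 
  (.br (nat_lit 3) (.br (nat_lit 11) (.br (nat_lit 7) (.br (nat_lit 2) (.far (nat_lit 225) (nat_lit 161)) 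
  (.br (nat_lit 17) (.br (nat_lit 5) (.br (nat_lit 16) (.br (nat_lit 19) (.far (nat_lit 65) (nat_lit 97)) (.br (nat_lit 10) (.far (nat_lit 225) (nat_lit 65)) (.dom (nat_lit 332)))) 
  (.dom (nat_lit 75))) 
  (.dom (nat_lit 49))) 
  (.dom (nat_lit 147)))) 
  (.dom (nat_lit 52))) 
  (.dom (nat_lit 214))) 
  (.dom (nat_lit 368)))) 
  (.dom (nat_lit 101))) 
  (.dom (nat_lit 221))) 
  (.dom (nat_lit 369)))) 
  (.dom (nat_lit 216))) 
  (.dom (nat_lit 215)))) 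
  (.br (nat_lit 5) (.br (nat_lit 7) (.br (nat_lit 1) (.br (nat_lit 3) (.br (nat_lit 11) (.far (nat_lit 1) (nat_lit 225)) 
  (.br (nat_lit 12) (.br (nat_lit 14) (.br (nat_lit 21) (.far (nat_lit 97) (nat_lit 225)) 
  (.br (nat_lit 4) (.br (nat_lit 6) (.br (nat_lit 0) (.far (nat_lit 97) (nat_lit 193)) 
  (.br (nat_lit 19) (.br (nat_lit 18) (.br (nat_lit 2) (.far (nat_lit 0) (nat_lit 161)) (.br (nat_lit 17) (.far (nat_lit 65) (nat_lit 225)) (.dom (nat_lit 146)))) 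
  (.dom (nat_lit 105))) 
  (.dom (nat_lit 164)))) 
  (.dom (nat_lit 216))) 
  (.dom (nat_lit 215)))) 
  (.dom (nat_lit 372))) 
  (.dom (nat_lit 214)))) 
  (.br (nat_lit 4) (.br (nat_lit 12) (.br (nat_lit 17) (.br (nat_lit 22) (.br (nat_lit 16) (.br (nat_lit 0) (.far (nat_lit 0) (nat_lit 193)) 
  (.br (nat_lit 19) (.br (nat_lit 11) (.far (nat_lit 0) (nat_lit 235619)) (.br (nat_lit 18) (.far (nat_lit 0) (nat_lit 199683)) (.dom (nat_lit 97)))) 
  (.dom (nat_lit 161)))) 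
  (.br (nat_lit 11) (.br (nat_lit 21) (.far (nat_lit 161) (nat_lit 225)) (.dom (nat_lit 76))) (.dom (nat_lit 71)))) 
  (.dom (nat_lit 373))) 
  (.dom (nat_lit 143))) 
  (.dom (nat_lit 368))) 
  (.dom (nat_lit 206)))) 
  (.br (nat_lit 6) (.br (nat_lit 14) (.br (nat_lit 22) (.br (nat_lit 19) (.br (nat_lit 3) (.br (nat_lit 18) (.br (nat_lit 2) (.far (nat_lit 0) (nat_lit 161)) 
  (.br (nat_lit 17) (.br (nat_lit 11) (.far (nat_lit 0) (nat_lit 234595)) (.br (nat_lit 16) (.far (nat_lit 0) (nat_lit 166915)) (.dom (nat_lit 70)))) 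
  (.dom (nat_lit 142)))) 
  (.br (nat_lit 11) (.br (nat_lit 21) (.far (nat_lit 193) (nat_lit 225)) (.dom (nat_lit 101))) (.dom (nat_lit 96)))) 
  (.br (nat_lit 18) (.br (nat_lit 16) (.br (nat_lit 17) (.far (nat_lit 0) (nat_lit 166915)) (.dom (nat_lit 143))) (.dom (nat_lit 58))) 
  (.dom (nat_lit 85)))) 
  (.dom (nat_lit 160))) 
  (.dom (nat_lit 221))) 
  (.dom (nat_lit 369))) 
  (.dom (nat_lit 207)))) 
  (.dom (nat_lit 213))) 
  (.dom (nat_lit 209)))) 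
  (.dom (nat_lit 371))) 
  (.dom (nat_lit 211))))

/-- search tree -/
def gp666B9 : BB := (.br (nat_lit 16) (.br (nat_lit 18) (.br (nat_lit 10) (.br (nat_lit 20) (.br (nat_lit 22) (.br (nat_lit 4) (.br (nat_lit 6) (.far (nat_lit 225) (nat_lit 97)) (.br (nat_lit 12) (.far (nat_lit 236707) (nat_lit 100355)) (.dom (nat_lit 204)))) 
  (.br (nat_lit 14) (.br (nat_lit 21) (.far (nat_lit 7362) (nat_lit 2050)) (.dom (nat_lit 215))) (.dom (nat_lit 205)))) 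
  (.br (nat_lit 1) (.br (nat_lit 3) (.br (nat_lit 4) (.br (nat_lit 6) (.br (nat_lit 11) (.br (nat_lit 0) (.br (nat_lit 2) (.br (nat_lit 5) (.br (nat_lit 7) (.far (nat_lit 2050) (nat_lit 0)) (.br (nat_lit 12) (.far (nat_lit 225) (nat_lit 193)) (.dom (nat_lit 119)))) 
  (.br (nat_lit 14) (.far (nat_lit 225) (nat_lit 161)) (.dom (nat_lit 114)))) 
  (.br (nat_lit 17) (.br (nat_lit 5) (.far (nat_lit 5122) (nat_lit 6242)) 
  (.br (nat_lit 12) (.br (nat_lit 14) (.br (nat_lit 21) (.br (nat_lit 2) (.far (nat_lit 7572580) (nat_lit 1)) 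
  (.br (nat_lit 13) (.far (nat_lit 7266) (nat_lit 6146)) (.br (nat_lit 22) (.far (nat_lit 225) (nat_lit 1)) (.dom (nat_lit 292))))) 
  (.dom (nat_lit 130))) 
  (.dom (nat_lit 114))) 
  (.dom (nat_lit 113)))) 
  (.dom (nat_lit 149)))) 
  (.br (nat_lit 19) (.br (nat_lit 7) (.br (nat_lit 2) (.far (nat_lit 6146) (nat_lit 5218)) 
  (.br (nat_lit 17) (.br (nat_lit 5) (.far (nat_lit 65) (nat_lit 97)) 
  (.br (nat_lit 12) (.br (nat_lit 14) (.br (nat_lit 21) (.br (nat_lit 22) (.far (nat_lit 225) (nat_lit 1)) 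
  (.br (nat_lit 15) (.br (nat_lit 2) (.far (nat_lit 0) (nat_lit 161)) (.br (nat_lit 13) (.far (nat_lit 97) (nat_lit 1)) (.dom (nat_lit 292)))) 
  (.dom (nat_lit 294)))) 
  (.dom (nat_lit 130))) 
  (.dom (nat_lit 114))) 
  (.dom (nat_lit 113)))) 
  (.dom (nat_lit 149)))) 
  (.br (nat_lit 14) (.br (nat_lit 12) (.br (nat_lit 21) (.br (nat_lit 2) (.br (nat_lit 0) (.far (nat_lit 7572580) (nat_lit 1)) 
  (.br (nat_lit 15) (.far (nat_lit 7266) (nat_lit 5122)) (.br (nat_lit 22) (.far (nat_lit 225) (nat_lit 1)) (.dom (nat_lit 295))))) 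
  (.br (nat_lit 17) (.br (nat_lit 22) (.far (nat_lit 225) (nat_lit 1)) 
  (.br (nat_lit 13) (.br (nat_lit 15) (.far (nat_lit 97) (nat_lit 1)) (.br (nat_lit 0) (.far (nat_lit 225) (nat_lit 193)) (.dom (nat_lit 295)))) 
  (.dom (nat_lit 293)))) 
  (.dom (nat_lit 149)))) 
  (.dom (nat_lit 131))) 
  (.dom (nat_lit 119))) 
  (.dom (nat_lit 121)))) 
  (.dom (nat_lit 167)))) 
  (.br (nat_lit 12) (.br (nat_lit 14) (.br (nat_lit 0) (.far (nat_lit 225) (nat_lit 193)) 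
  (.br (nat_lit 15) (.br (nat_lit 19) (.br (nat_lit 2) (.far (nat_lit 225) (nat_lit 161)) 
  (.br (nat_lit 13) (.br (nat_lit 17) (.far (nat_lit 65) (nat_lit 1)) (.dom (nat_lit 149))) (.dom (nat_lit 128)))) 
  (.dom (nat_lit 167))) 
  (.dom (nat_lit 129)))) 
  (.dom (nat_lit 372))) 
  (.dom (nat_lit 214)))) 
  (.br (nat_lit 12) (.br (nat_lit 21) (.br (nat_lit 13) (.br (nat_lit 0) (.far (nat_lit 97) (nat_lit 193)) 
  (.br (nat_lit 15) (.br (nat_lit 19) (.br (nat_lit 14) (.far (nat_lit 97) (nat_lit 1)) 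
  (.br (nat_lit 5) (.br (nat_lit 7) (.br (nat_lit 11) (.br (nat_lit 17) (.far (nat_lit 65) (nat_lit 225)) (.br (nat_lit 9) (.far (nat_lit 97) (nat_lit 65)) (.dom (nat_lit 315)))) 
  (.dom (nat_lit 372))) 
  (.dom (nat_lit 121))) 
  (.dom (nat_lit 114)))) 
  (.dom (nat_lit 167))) 
  (.dom (nat_lit 125)))) 
  (.dom (nat_lit 117))) 
  (.dom (nat_lit 216))) 
  (.dom (nat_lit 204)))) 
  (.br (nat_lit 14) (.br (nat_lit 21) (.br (nat_lit 15) (.br (nat_lit 12) (.br (nat_lit 2) (.far (nat_lit 97) (nat_lit 161)) (.br (nat_lit 13) (.far (nat_lit 97) (nat_lit 1)) (.dom (nat_lit 116)))) 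
  (.br (nat_lit 6) (.br (nat_lit 11) (.br (nat_lit 7) (.br (nat_lit 2) (.far (nat_lit 97) (nat_lit 161)) 
  (.br (nat_lit 17) (.br (nat_lit 5) (.br (nat_lit 13) (.br (nat_lit 19) (.far (nat_lit 65) (nat_lit 225)) (.br (nat_lit 9) (.far (nat_lit 97) (nat_lit 65)) (.dom (nat_lit 337)))) 
  (.dom (nat_lit 116))) 
  (.dom (nat_lit 113))) 
  (.dom (nat_lit 149)))) 
  (.dom (nat_lit 119))) 
  (.dom (nat_lit 214))) 
  (.dom (nat_lit 204)))) 
  (.dom (nat_lit 123))) 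
  (.dom (nat_lit 215))) 
  (.dom (nat_lit 205)))) 
  (.dom (nat_lit 373))) 
  (.dom (nat_lit 221)))) 
  (.br (nat_lit 5) (.br (nat_lit 7) (.br (nat_lit 4) (.br (nat_lit 6) (.br (nat_lit 11) (.far (nat_lit 1) (nat_lit 97)) 
  (.br (nat_lit 12) (.br (nat_lit 14) (.br (nat_lit 22) (.far (nat_lit 225) (nat_lit 97)) 
  (.br (nat_lit 1) (.br (nat_lit 3) (.br (nat_lit 0) (.far (nat_lit 225) (nat_lit 193)) 
  (.br (nat_lit 19) (.br (nat_lit 15) (.br (nat_lit 2) (.far (nat_lit 0) (nat_lit 161)) (.br (nat_lit 17) (.far (nat_lit 65) (nat_lit 97)) (.dom (nat_lit 146)))) 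
  (.dom (nat_lit 129))) 
  (.dom (nat_lit 164)))) 
  (.dom (nat_lit 373))) 
  (.dom (nat_lit 221)))) 
  (.dom (nat_lit 372))) 
  (.dom (nat_lit 214)))) 
  (.br (nat_lit 1) (.br (nat_lit 12) (.br (nat_lit 17) (.br (nat_lit 21) (.br (nat_lit 13) (.br (nat_lit 0) (.far (nat_lit 0) (nat_lit 193)) 
  (.br (nat_lit 19) (.br (nat_lit 11) (.far (nat_lit 0) (nat_lit 235619)) (.br (nat_lit 15) (.far (nat_lit 0) (nat_lit 235523)) (.dom (nat_lit 41)))) 
  (.dom (nat_lit 159)))) 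
  (.br (nat_lit 11) (.br (nat_lit 22) (.far (nat_lit 161) (nat_lit 97)) (.dom (nat_lit 117))) (.dom (nat_lit 38)))) 
  (.dom (nat_lit 216))) 
  (.dom (nat_lit 141))) 
  (.dom (nat_lit 204))) 
  (.dom (nat_lit 207)))) 
  (.br (nat_lit 3) (.br (nat_lit 14) (.br (nat_lit 21) (.br (nat_lit 19) (.br (nat_lit 6) (.br (nat_lit 15) (.br (nat_lit 2) (.far (nat_lit 0) (nat_lit 161)) 
  (.br (nat_lit 17) (.br (nat_lit 11) (.far (nat_lit 0) (nat_lit 234595)) (.br (nat_lit 13) (.far (nat_lit 0) (nat_lit 234499)) (.dom (nat_lit 37)))) 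
  (.dom (nat_lit 139)))) 
  (.br (nat_lit 11) (.br (nat_lit 22) (.far (nat_lit 193) (nat_lit 97)) (.dom (nat_lit 123))) (.dom (nat_lit 40)))) 
  (.br (nat_lit 15) (.br (nat_lit 13) (.br (nat_lit 17) (.far (nat_lit 0) (nat_lit 234499)) (.dom (nat_lit 141))) (.dom (nat_lit 9))) 
  (.dom (nat_lit 25)))) 
  (.dom (nat_lit 158))) 
  (.dom (nat_lit 215))) 
  (.dom (nat_lit 205))) 
  (.dom (nat_lit 206)))) 
  (.dom (nat_lit 213))) 
  (.dom (nat_lit 209)))) 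
  (.br (nat_lit 13) (.br (nat_lit 15) (.br (nat_lit 12) (.br (nat_lit 14) (.br (nat_lit 20) (.br (nat_lit 21) (.far (nat_lit 97) (nat_lit 1)) 
  (.br (nat_lit 4) (.br (nat_lit 6) (.br (nat_lit 22) (.far (nat_lit 225) (nat_lit 1)) 
  (.br (nat_lit 1) (.br (nat_lit 3) (.br (nat_lit 0) (.far (nat_lit 225) (nat_lit 193)) 
  (.br (nat_lit 19) (.br (nat_lit 7) (.br (nat_lit 2) (.far (nat_lit 0) (nat_lit 161)) (.br (nat_lit 17) (.far (nat_lit 65) (nat_lit 1)) (.dom (nat_lit 147)))) 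
  (.dom (nat_lit 131))) 
  (.dom (nat_lit 165)))) 
  (.dom (nat_lit 373))) 
  (.dom (nat_lit 221)))) 
  (.dom (nat_lit 216))) 
  (.dom (nat_lit 215)))) 
  (.br (nat_lit 5) (.br (nat_lit 7) (.br (nat_lit 19) (.br (nat_lit 17) (.far (nat_lit 65) (nat_lit 1)) 
  (.br (nat_lit 3) (.br (nat_lit 6) (.br (nat_lit 2) (.far (nat_lit 0) (nat_lit 161)) 
  (.br (nat_lit 1) (.br (nat_lit 21) (.br (nat_lit 4) (.br (nat_lit 11) (.br (nat_lit 22) (.br (nat_lit 2) (.far (nat_lit 0) (nat_lit 161)) (.br (nat_lit 17) (.far (nat_lit 65) (nat_lit 1)) (.dom (nat_lit 318)))) 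
  (.dom (nat_lit 149))) 
  (.dom (nat_lit 146))) 
  (.dom (nat_lit 139))) 
  (.dom (nat_lit 147))) 
  (.dom (nat_lit 142)))) 
  (.dom (nat_lit 141))) 
  (.dom (nat_lit 143)))) 
  (.br (nat_lit 1) (.br (nat_lit 4) (.br (nat_lit 0) (.far (nat_lit 225) (nat_lit 193)) 
  (.br (nat_lit 3) (.br (nat_lit 6) (.br (nat_lit 11) (.br (nat_lit 21) (.br (nat_lit 22) (.br (nat_lit 2) (.br (nat_lit 0) (.far (nat_lit 7234) (nat_lit 0)) (.br (nat_lit 19) (.far (nat_lit 0) (nat_lit 161)) (.dom (nat_lit 342)))) 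
  (.br (nat_lit 17) (.br (nat_lit 0) (.far (nat_lit 0) (nat_lit 193)) (.br (nat_lit 19) (.far (nat_lit 65) (nat_lit 1)) (.dom (nat_lit 342)))) 
  (.dom (nat_lit 340)))) 
  (.dom (nat_lit 167))) 
  (.dom (nat_lit 165))) 
  (.dom (nat_lit 164))) 
  (.dom (nat_lit 159))) 
  (.dom (nat_lit 161)))) 
  (.dom (nat_lit 158))) 
  (.dom (nat_lit 160)))) 
  (.dom (nat_lit 213))) 
  (.dom (nat_lit 209)))) 
  (.br (nat_lit 1) (.br (nat_lit 4) (.br (nat_lit 17) (.br (nat_lit 11) (.br (nat_lit 5) (.br (nat_lit 0) (.far (nat_lit 0) (nat_lit 193)) 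
  (.br (nat_lit 19) (.br (nat_lit 7) (.far (nat_lit 0) (nat_lit 235619)) (.br (nat_lit 21) (.far (nat_lit 0) (nat_lit 235523)) (.dom (nat_lit 53)))) 
  (.dom (nat_lit 156)))) 
  (.br (nat_lit 20) (.br (nat_lit 21) (.br (nat_lit 22) (.far (nat_lit 161) (nat_lit 1)) (.dom (nat_lit 114))) (.dom (nat_lit 50))) 
  (.dom (nat_lit 209)))) 
  (.dom (nat_lit 372))) 
  (.dom (nat_lit 138))) 
  (.dom (nat_lit 205))) 
  (.dom (nat_lit 369)))) 
  (.br (nat_lit 3) (.br (nat_lit 6) (.br (nat_lit 11) (.br (nat_lit 19) (.br (nat_lit 14) (.br (nat_lit 7) (.br (nat_lit 2) (.far (nat_lit 0) (nat_lit 161)) 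
  (.br (nat_lit 17) (.br (nat_lit 5) (.far (nat_lit 0) (nat_lit 234595)) (.br (nat_lit 21) (.far (nat_lit 0) (nat_lit 234499)) (.dom (nat_lit 49)))) 
  (.dom (nat_lit 136)))) 
  (.br (nat_lit 20) (.br (nat_lit 21) (.br (nat_lit 22) (.far (nat_lit 193) (nat_lit 1)) (.dom (nat_lit 119))) (.dom (nat_lit 52))) 
  (.dom (nat_lit 213)))) 
  (.br (nat_lit 7) (.br (nat_lit 5) (.br (nat_lit 17) (.far (nat_lit 0) (nat_lit 234595)) (.dom (nat_lit 138))) (.dom (nat_lit 0))) 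
  (.dom (nat_lit 13)))) 
  (.dom (nat_lit 155))) 
  (.dom (nat_lit 214))) 
  (.dom (nat_lit 204))) 
  (.dom (nat_lit 368)))) 
  (.dom (nat_lit 371))) 
  (.dom (nat_lit 211)))) 
  (.dom (nat_lit 220))) 
  (.dom (nat_lit 218)))

/-- search tree -/
def gp666B10 : BB := (.br (nat_lit 2) (.br (nat_lit 8) (.br (nat_lit 3) (.br (nat_lit 9) (.br (nat_lit 6) (.br (nat_lit 10) (.br (nat_lit 7) (.br (nat_lit 11) (.far (nat_lit 6146) (nat_lit 0)) (.br (nat_lit 14) (.far (nat_lit 7539716) (nat_lit 161)) (.dom (nat_lit 372)))) 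
  (.br (nat_lit 20) (.far (nat_lit 7539716) (nat_lit 65)) (.dom (nat_lit 213)))) 
  (.br (nat_lit 15) (.br (nat_lit 14) (.far (nat_lit 97) (nat_lit 161)) 
  (.br (nat_lit 1) (.br (nat_lit 11) (.br (nat_lit 7) (.far (nat_lit 3074) (nat_lit 7330)) 
  (.br (nat_lit 20) (.br (nat_lit 0) (.far (nat_lit 3074) (nat_lit 0)) (.br (nat_lit 21) (.far (nat_lit 97) (nat_lit 65)) (.dom (nat_lit 53)))) 
  (.dom (nat_lit 213)))) 
  (.dom (nat_lit 372))) 
  (.dom (nat_lit 369)))) 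
  (.dom (nat_lit 371)))) 
  (.br (nat_lit 21) (.br (nat_lit 20) (.far (nat_lit 97) (nat_lit 65)) 
  (.br (nat_lit 1) (.br (nat_lit 7) (.br (nat_lit 11) (.far (nat_lit 3074) (nat_lit 7234)) 
  (.br (nat_lit 14) (.br (nat_lit 15) (.far (nat_lit 97) (nat_lit 161)) (.br (nat_lit 0) (.far (nat_lit 3074) (nat_lit 0)) (.dom (nat_lit 41)))) 
  (.dom (nat_lit 372)))) 
  (.dom (nat_lit 213))) 
  (.dom (nat_lit 207)))) 
  (.dom (nat_lit 216)))) 
  (.br (nat_lit 18) (.br (nat_lit 6) (.br (nat_lit 14) (.far (nat_lit 225) (nat_lit 161)) 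
  (.br (nat_lit 4) (.br (nat_lit 11) (.br (nat_lit 10) (.br (nat_lit 7) (.far (nat_lit 7170) (nat_lit 5218)) 
  (.br (nat_lit 20) (.br (nat_lit 0) (.far (nat_lit 7170) (nat_lit 0)) (.br (nat_lit 22) (.far (nat_lit 225) (nat_lit 65)) (.dom (nat_lit 121)))) 
  (.dom (nat_lit 213)))) 
  (.br (nat_lit 1) (.br (nat_lit 15) (.br (nat_lit 7) (.br (nat_lit 0) (.br (nat_lit 5) (.far (nat_lit 2050) (nat_lit 0)) (.br (nat_lit 14) (.far (nat_lit 225) (nat_lit 161)) (.dom (nat_lit 1)))) 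
  (.br (nat_lit 19) (.br (nat_lit 5) (.far (nat_lit 2050) (nat_lit 5218)) (.br (nat_lit 14) (.far (nat_lit 0) (nat_lit 161)) (.dom (nat_lit 1)))) 
  (.dom (nat_lit 156)))) 
  (.br (nat_lit 12) (.br (nat_lit 20) (.br (nat_lit 0) (.far (nat_lit 234595) (nat_lit 0)) 
  (.br (nat_lit 19) (.br (nat_lit 21) (.br (nat_lit 22) (.br (nat_lit 14) (.far (nat_lit 7266) (nat_lit 2050)) 
  (.br (nat_lit 5) (.br (nat_lit 0) (.br (nat_lit 9) (.br (nat_lit 10) (.far (nat_lit 5122) (nat_lit 0)) (.br (nat_lit 13) (.far (nat_lit 97) (nat_lit 193)) (.dom (nat_lit 224)))) 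
  (.br (nat_lit 16) (.far (nat_lit 225) (nat_lit 193)) (.dom (nat_lit 236)))) 
  (.br (nat_lit 23) (.br (nat_lit 9) (.far (nat_lit 6242) (nat_lit 7234)) 
  (.br (nat_lit 16) (.br (nat_lit 10) (.far (nat_lit 225) (nat_lit 97)) 
  (.br (nat_lit 13) (.br (nat_lit 14) (.far (nat_lit 225) (nat_lit 1)) (.br (nat_lit 17) (.far (nat_lit 161) (nat_lit 1)) (.dom (nat_lit 186)))) 
  (.dom (nat_lit 224)))) 
  (.dom (nat_lit 236)))) 
  (.dom (nat_lit 355)))) 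
  (.dom (nat_lit 1)))) 
  (.dom (nat_lit 121))) 
  (.dom (nat_lit 53))) 
  (.dom (nat_lit 156)))) 
  (.dom (nat_lit 213))) 
  (.dom (nat_lit 13)))) 
  (.dom (nat_lit 371))) 
  (.dom (nat_lit 369)))) 
  (.dom (nat_lit 372))) 
  (.dom (nat_lit 205)))) 
  (.br (nat_lit 12) (.br (nat_lit 21) (.br (nat_lit 14) (.br (nat_lit 20) (.br (nat_lit 15) (.far (nat_lit 7266) (nat_lit 5122)) 
  (.br (nat_lit 10) (.br (nat_lit 0) (.far (nat_lit 7266) (nat_lit 0)) (.br (nat_lit 22) (.far (nat_lit 225) (nat_lit 65)) (.dom (nat_lit 125)))) 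
  (.dom (nat_lit 371)))) 
  (.br (nat_lit 1) (.br (nat_lit 7) (.br (nat_lit 15) (.br (nat_lit 0) (.br (nat_lit 6) (.far (nat_lit 232515) (nat_lit 161)) (.br (nat_lit 13) (.far (nat_lit 97) (nat_lit 193)) (.dom (nat_lit 10)))) 
  (.br (nat_lit 19) (.br (nat_lit 6) (.far (nat_lit 0) (nat_lit 161)) (.br (nat_lit 13) (.far (nat_lit 3138) (nat_lit 5122)) (.dom (nat_lit 10)))) 
  (.dom (nat_lit 159)))) 
  (.br (nat_lit 4) (.br (nat_lit 10) (.br (nat_lit 0) (.far (nat_lit 234499) (nat_lit 0)) 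
  (.br (nat_lit 11) (.br (nat_lit 19) (.br (nat_lit 22) (.br (nat_lit 6) (.far (nat_lit 7362) (nat_lit 5218)) 
  (.br (nat_lit 13) (.br (nat_lit 0) (.br (nat_lit 5) (.br (nat_lit 9) (.far (nat_lit 5122) (nat_lit 0)) (.br (nat_lit 16) (.far (nat_lit 225) (nat_lit 193)) (.dom (nat_lit 239)))) 
  (.br (nat_lit 20) (.far (nat_lit 225) (nat_lit 65)) (.dom (nat_lit 227)))) 
  (.br (nat_lit 23) (.br (nat_lit 9) (.far (nat_lit 6146) (nat_lit 7234)) 
  (.br (nat_lit 16) (.br (nat_lit 20) (.far (nat_lit 225) (nat_lit 1)) 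
  (.br (nat_lit 5) (.br (nat_lit 6) (.far (nat_lit 225) (nat_lit 97)) (.br (nat_lit 17) (.far (nat_lit 161) (nat_lit 97)) (.dom (nat_lit 187)))) 
  (.dom (nat_lit 227)))) 
  (.dom (nat_lit 239)))) 
  (.dom (nat_lit 357)))) 
  (.dom (nat_lit 10)))) 
  (.dom (nat_lit 125))) 
  (.dom (nat_lit 159))) 
  (.dom (nat_lit 41)))) 
  (.dom (nat_lit 371))) 
  (.dom (nat_lit 25)))) 
  (.dom (nat_lit 213))) 
  (.dom (nat_lit 207)))) 
  (.br (nat_lit 4) (.br (nat_lit 11) (.br (nat_lit 10) (.br (nat_lit 20) (.br (nat_lit 0) (.br (nat_lit 1) (.br (nat_lit 9) (.far (nat_lit 166915) (nat_lit 65)) (.br (nat_lit 16) (.far (nat_lit 225) (nat_lit 193)) (.dom (nat_lit 55)))) 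
  (.br (nat_lit 22) (.far (nat_lit 225) (nat_lit 65)) (.dom (nat_lit 111)))) 
  (.br (nat_lit 23) (.br (nat_lit 22) (.br (nat_lit 9) (.far (nat_lit 0) (nat_lit 65)) (.br (nat_lit 16) (.far (nat_lit 7330) (nat_lit 2050)) (.dom (nat_lit 55)))) 
  (.br (nat_lit 1) (.br (nat_lit 7) (.br (nat_lit 15) (.br (nat_lit 9) (.far (nat_lit 6242) (nat_lit 7234)) 
  (.br (nat_lit 16) (.br (nat_lit 0) (.br (nat_lit 5) (.br (nat_lit 6) (.far (nat_lit 2050) (nat_lit 0)) (.br (nat_lit 13) (.far (nat_lit 97) (nat_lit 193)) (.dom (nat_lit 279)))) 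
  (.br (nat_lit 14) (.far (nat_lit 97) (nat_lit 161)) (.dom (nat_lit 277)))) 
  (.br (nat_lit 19) (.br (nat_lit 6) (.far (nat_lit 6146) (nat_lit 5218)) 
  (.br (nat_lit 13) (.br (nat_lit 14) (.far (nat_lit 97) (nat_lit 1)) 
  (.br (nat_lit 5) (.br (nat_lit 9) (.far (nat_lit 193) (nat_lit 225)) (.br (nat_lit 17) (.far (nat_lit 65) (nat_lit 225)) (.dom (nat_lit 191)))) 
  (.dom (nat_lit 277)))) 
  (.dom (nat_lit 279)))) 
  (.dom (nat_lit 338)))) 
  (.dom (nat_lit 55)))) 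
  (.dom (nat_lit 125))) 
  (.dom (nat_lit 121))) 
  (.dom (nat_lit 111)))) 
  (.dom (nat_lit 175)))) 
  (.br (nat_lit 1) (.br (nat_lit 7) (.br (nat_lit 5) (.br (nat_lit 0) (.far (nat_lit 1) (nat_lit 193)) 
  (.br (nat_lit 19) (.br (nat_lit 23) (.br (nat_lit 6) (.far (nat_lit 1) (nat_lit 97)) 
  (.br (nat_lit 13) (.br (nat_lit 9) (.far (nat_lit 1) (nat_lit 225)) 
  (.br (nat_lit 16) (.br (nat_lit 17) (.far (nat_lit 0) (nat_lit 235619)) (.dom (nat_lit 298))) (.dom (nat_lit 55)))) 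
  (.dom (nat_lit 10)))) 
  (.dom (nat_lit 175))) 
  (.dom (nat_lit 159)))) 
  (.dom (nat_lit 3))) 
  (.dom (nat_lit 213))) 
  (.dom (nat_lit 207)))) 
  (.br (nat_lit 1) (.br (nat_lit 15) (.br (nat_lit 13) (.br (nat_lit 0) (.far (nat_lit 97) (nat_lit 193)) 
  (.br (nat_lit 19) (.br (nat_lit 23) (.br (nat_lit 7) (.br (nat_lit 5) (.br (nat_lit 9) (.far (nat_lit 193) (nat_lit 225)) 
  (.br (nat_lit 16) (.br (nat_lit 17) (.far (nat_lit 65) (nat_lit 225)) (.br (nat_lit 14) (.far (nat_lit 97) (nat_lit 161)) (.dom (nat_lit 296)))) 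
  (.dom (nat_lit 55)))) 
  (.br (nat_lit 14) (.far (nat_lit 97) (nat_lit 161)) (.dom (nat_lit 1)))) 
  (.br (nat_lit 20) (.br (nat_lit 22) (.br (nat_lit 9) (.far (nat_lit 97) (nat_lit 65)) 
  (.br (nat_lit 16) (.br (nat_lit 14) (.far (nat_lit 225) (nat_lit 1)) (.br (nat_lit 17) (.far (nat_lit 161) (nat_lit 1)) (.dom (nat_lit 296)))) 
  (.dom (nat_lit 55)))) 
  (.dom (nat_lit 121))) 
  (.dom (nat_lit 213)))) 
  (.dom (nat_lit 175))) 
  (.dom (nat_lit 156)))) 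
  (.dom (nat_lit 7))) 
  (.dom (nat_lit 371))) 
  (.dom (nat_lit 369)))) 
  (.dom (nat_lit 372))) 
  (.dom (nat_lit 205)))) 
  (.dom (nat_lit 216))) 
  (.dom (nat_lit 204)))) 
  (.dom (nat_lit 220)))) 
  (.br (nat_lit 22) gp666B5 (.dom (nat_lit 373)))) 
  (.br (nat_lit 19) (.br (nat_lit 3) gp666B6 
  (.br (nat_lit 16) (.br (nat_lit 22) gp666B7 (.dom (nat_lit 373))) (.dom (nat_lit 217)))) 
  (.dom (nat_lit 374)))) 
  (.br (nat_lit 23) (.br (nat_lit 8) (.br (nat_lit 9) gp666B8 gp666B9) 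
  (.br (nat_lit 17) (.br (nat_lit 19) (.br (nat_lit 5) (.br (nat_lit 7) (.br (nat_lit 11) (.br (nat_lit 1) (.br (nat_lit 3) (.br (nat_lit 9) (.br (nat_lit 4) (.br (nat_lit 6) (.far (nat_lit 2050) (nat_lit 7266)) (.br (nat_lit 13) (.far (nat_lit 1) (nat_lit 7575652)) (.dom (nat_lit 210)))) 
  (.br (nat_lit 15) (.br (nat_lit 21) (.far (nat_lit 193) (nat_lit 225)) (.dom (nat_lit 215))) (.dom (nat_lit 370)))) 
  (.br (nat_lit 16) (.br (nat_lit 18) (.br (nat_lit 4) (.br (nat_lit 6) (.far (nat_lit 65) (nat_lit 97)) (.br (nat_lit 13) (.far (nat_lit 0) (nat_lit 235619)) (.dom (nat_lit 210)))) 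
  (.br (nat_lit 15) (.br (nat_lit 21) (.br (nat_lit 14) (.br (nat_lit 13) (.far (nat_lit 65) (nat_lit 225)) (.br (nat_lit 6) (.far (nat_lit 0) (nat_lit 234595)) (.dom (nat_lit 210)))) 
  (.dom (nat_lit 205))) 
  (.dom (nat_lit 215))) 
  (.dom (nat_lit 370)))) 
  (.dom (nat_lit 220))) 
  (.dom (nat_lit 218)))) 
  (.br (nat_lit 16) (.br (nat_lit 22) (.br (nat_lit 4) (.br (nat_lit 10) (.far (nat_lit 161) (nat_lit 97)) (.br (nat_lit 13) (.far (nat_lit 0) (nat_lit 235619)) (.dom (nat_lit 211)))) 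
  (.br (nat_lit 21) (.br (nat_lit 15) (.br (nat_lit 20) (.br (nat_lit 13) (.br (nat_lit 9) (.far (nat_lit 161) (nat_lit 225)) (.br (nat_lit 18) (.far (nat_lit 0) (nat_lit 232451)) (.dom (nat_lit 220)))) 
  (.br (nat_lit 10) (.br (nat_lit 6) (.br (nat_lit 9) (.far (nat_lit 0) (nat_lit 232515)) (.br (nat_lit 18) (.far (nat_lit 193) (nat_lit 97)) (.dom (nat_lit 220)))) 
  (.dom (nat_lit 210))) 
  (.dom (nat_lit 211)))) 
  (.dom (nat_lit 206))) 
  (.dom (nat_lit 370))) 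
  (.dom (nat_lit 215)))) 
  (.dom (nat_lit 373))) 
  (.dom (nat_lit 217)))) 
  (.br (nat_lit 18) (.br (nat_lit 22) (.br (nat_lit 6) (.br (nat_lit 10) (.far (nat_lit 193) (nat_lit 97)) 
  (.br (nat_lit 15) (.br (nat_lit 14) (.br (nat_lit 13) (.br (nat_lit 3) (.far (nat_lit 0) (nat_lit 234595)) (.br (nat_lit 16) (.far (nat_lit 0) (nat_lit 166915)) (.dom (nat_lit 217)))) 
  (.dom (nat_lit 211))) 
  (.dom (nat_lit 369))) 
  (.dom (nat_lit 371)))) 
  (.br (nat_lit 21) (.br (nat_lit 13) (.br (nat_lit 20) (.br (nat_lit 15) (.br (nat_lit 9) (.far (nat_lit 0) (nat_lit 231427)) (.br (nat_lit 16) (.far (nat_lit 0) (nat_lit 232451)) (.dom (nat_lit 218)))) 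
  (.br (nat_lit 10) (.br (nat_lit 4) (.br (nat_lit 16) (.far (nat_lit 161) (nat_lit 97)) (.br (nat_lit 9) (.far (nat_lit 0) (nat_lit 232515)) (.dom (nat_lit 218)))) 
  (.dom (nat_lit 370))) 
  (.dom (nat_lit 371)))) 
  (.dom (nat_lit 207))) 
  (.dom (nat_lit 210))) 
  (.dom (nat_lit 216)))) 
  (.dom (nat_lit 221))) 
  (.dom (nat_lit 219)))) 
  (.br (nat_lit 12) (.br (nat_lit 14) (.br (nat_lit 13) (.br (nat_lit 15) (.br (nat_lit 21) (.br (nat_lit 1) (.br (nat_lit 3) (.far (nat_lit 65) (nat_lit 225)) (.br (nat_lit 16) (.far (nat_lit 0) (nat_lit 235523)) (.dom (nat_lit 217)))) 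
  (.br (nat_lit 18) (.br (nat_lit 22) (.br (nat_lit 16) (.far (nat_lit 65) (nat_lit 1)) (.br (nat_lit 3) (.far (nat_lit 0) (nat_lit 234499)) (.dom (nat_lit 217)))) 
  (.dom (nat_lit 221))) 
  (.dom (nat_lit 219)))) 
  (.br (nat_lit 4) (.br (nat_lit 6) (.br (nat_lit 16) (.br (nat_lit 18) (.far (nat_lit 65) (nat_lit 1)) 
  (.br (nat_lit 1) (.br (nat_lit 0) (.far (nat_lit 0) (nat_lit 193)) (.dom (nat_lit 105))) (.dom (nat_lit 219)))) 
  (.br (nat_lit 3) (.br (nat_lit 9) (.br (nat_lit 2) (.far (nat_lit 97) (nat_lit 161)) (.dom (nat_lit 79))) (.dom (nat_lit 218))) 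
  (.dom (nat_lit 217)))) 
  (.dom (nat_lit 216))) 
  (.dom (nat_lit 215)))) 
  (.br (nat_lit 16) (.br (nat_lit 4) (.br (nat_lit 10) (.br (nat_lit 18) (.br (nat_lit 22) (.far (nat_lit 0) (nat_lit 199683)) 
  (.br (nat_lit 1) (.br (nat_lit 0) (.far (nat_lit 0) (nat_lit 193)) (.dom (nat_lit 129))) (.dom (nat_lit 221)))) 
  (.br (nat_lit 0) (.far (nat_lit 225) (nat_lit 193)) (.dom (nat_lit 99)))) 
  (.dom (nat_lit 371))) 
  (.dom (nat_lit 370))) 
  (.dom (nat_lit 73)))) 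
  (.br (nat_lit 18) (.br (nat_lit 6) (.br (nat_lit 10) (.br (nat_lit 16) (.br (nat_lit 22) (.br (nat_lit 4) (.far (nat_lit 225) (nat_lit 97)) (.br (nat_lit 15) (.far (nat_lit 0) (nat_lit 166915)) (.dom (nat_lit 370)))) 
  (.br (nat_lit 3) (.br (nat_lit 2) (.far (nat_lit 225) (nat_lit 161)) (.dom (nat_lit 128))) (.dom (nat_lit 373)))) 
  (.br (nat_lit 2) (.far (nat_lit 225) (nat_lit 161)) (.dom (nat_lit 72)))) 
  (.dom (nat_lit 211))) 
  (.dom (nat_lit 210))) 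
  (.dom (nat_lit 98)))) 
  (.dom (nat_lit 372))) 
  (.dom (nat_lit 214)))) 
  (.br (nat_lit 12) (.br (nat_lit 20) (.br (nat_lit 13) (.br (nat_lit 21) (.br (nat_lit 15) (.br (nat_lit 1) (.br (nat_lit 9) (.far (nat_lit 5218) (nat_lit 7170)) (.br (nat_lit 16) (.far (nat_lit 0) (nat_lit 235523)) (.dom (nat_lit 218)))) 
  (.br (nat_lit 22) (.br (nat_lit 18) (.br (nat_lit 14) (.far (nat_lit 193) (nat_lit 1)) 
  (.br (nat_lit 11) (.br (nat_lit 10) (.br (nat_lit 16) (.far (nat_lit 161) (nat_lit 1)) (.br (nat_lit 9) (.far (nat_lit 0) (nat_lit 231427)) (.dom (nat_lit 218)))) 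
  (.dom (nat_lit 369))) 
  (.dom (nat_lit 372)))) 
  (.dom (nat_lit 219))) 
  (.dom (nat_lit 221)))) 
  (.br (nat_lit 4) (.br (nat_lit 10) (.br (nat_lit 16) (.br (nat_lit 22) (.far (nat_lit 161) (nat_lit 1)) 
  (.br (nat_lit 1) (.br (nat_lit 0) (.far (nat_lit 0) (nat_lit 193)) (.dom (nat_lit 127))) (.dom (nat_lit 221)))) 
  (.br (nat_lit 9) (.br (nat_lit 11) (.br (nat_lit 3) (.br (nat_lit 8) (.far (nat_lit 97) (nat_lit 65)) (.dom (nat_lit 68))) (.dom (nat_lit 217))) 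
  (.dom (nat_lit 73))) 
  (.dom (nat_lit 218)))) 
  (.dom (nat_lit 371))) 
  (.dom (nat_lit 370)))) 
  (.br (nat_lit 16) (.br (nat_lit 4) (.br (nat_lit 6) (.br (nat_lit 18) (.br (nat_lit 22) (.far (nat_lit 0) (nat_lit 199683)) (.br (nat_lit 0) (.far (nat_lit 225) (nat_lit 193)) (.dom (nat_lit 131)))) 
  (.br (nat_lit 0) (.far (nat_lit 225) (nat_lit 193)) (.dom (nat_lit 104)))) 
  (.dom (nat_lit 216))) 
  (.dom (nat_lit 215))) 
  (.dom (nat_lit 78)))) 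
  (.br (nat_lit 22) (.br (nat_lit 10) (.br (nat_lit 6) (.br (nat_lit 16) (.br (nat_lit 18) (.br (nat_lit 4) (.far (nat_lit 225) (nat_lit 97)) 
  (.br (nat_lit 21) (.br (nat_lit 15) (.br (nat_lit 14) (.far (nat_lit 225) (nat_lit 1)) (.br (nat_lit 11) (.far (nat_lit 0) (nat_lit 100355)) (.dom (nat_lit 372)))) 
  (.dom (nat_lit 370))) 
  (.dom (nat_lit 215)))) 
  (.br (nat_lit 11) (.br (nat_lit 9) (.br (nat_lit 8) (.far (nat_lit 225) (nat_lit 65)) (.dom (nat_lit 93))) (.dom (nat_lit 220))) 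
  (.dom (nat_lit 98)))) 
  (.br (nat_lit 8) (.far (nat_lit 225) (nat_lit 65)) (.dom (nat_lit 63)))) 
  (.dom (nat_lit 210))) 
  (.dom (nat_lit 211))) 
  (.dom (nat_lit 122)))) 
  (.dom (nat_lit 213))) 
  (.dom (nat_lit 212)))) 
  (.br (nat_lit 14) (.br (nat_lit 20) (.br (nat_lit 15) (.br (nat_lit 21) (.br (nat_lit 13) (.br (nat_lit 12) (.far (nat_lit 97) (nat_lit 1)) 
  (.br (nat_lit 7) (.br (nat_lit 11) (.br (nat_lit 3) (.br (nat_lit 9) (.far (nat_lit 193) (nat_lit 225)) (.br (nat_lit 18) (.far (nat_lit 0) (nat_lit 234499)) (.dom (nat_lit 220)))) 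
  (.br (nat_lit 22) (.br (nat_lit 16) (.br (nat_lit 10) (.br (nat_lit 18) (.far (nat_lit 193) (nat_lit 1)) (.br (nat_lit 9) (.far (nat_lit 0) (nat_lit 231427)) (.dom (nat_lit 220)))) 
  (.dom (nat_lit 368))) 
  (.dom (nat_lit 217))) 
  (.dom (nat_lit 373)))) 
  (.dom (nat_lit 214))) 
  (.dom (nat_lit 212)))) 
  (.br (nat_lit 6) (.br (nat_lit 10) (.br (nat_lit 22) (.br (nat_lit 18) (.far (nat_lit 193) (nat_lit 1)) 
  (.br (nat_lit 9) (.br (nat_lit 8) (.far (nat_lit 225) (nat_lit 65)) (.dom (nat_lit 92))) (.dom (nat_lit 220)))) 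
  (.br (nat_lit 3) (.br (nat_lit 2) (.far (nat_lit 97) (nat_lit 161)) (.dom (nat_lit 118))) (.dom (nat_lit 373)))) 
  (.dom (nat_lit 211))) 
  (.dom (nat_lit 210)))) 
  (.br (nat_lit 18) (.br (nat_lit 6) (.br (nat_lit 4) (.br (nat_lit 16) (.br (nat_lit 22) (.br (nat_lit 12) (.far (nat_lit 225) (nat_lit 1)) (.br (nat_lit 7) (.far (nat_lit 0) (nat_lit 166915)) (.dom (nat_lit 212)))) 
  (.br (nat_lit 2) (.far (nat_lit 225) (nat_lit 161)) (.dom (nat_lit 130)))) 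
  (.br (nat_lit 2) (.far (nat_lit 225) (nat_lit 161)) (.dom (nat_lit 77)))) 
  (.dom (nat_lit 215))) 
  (.dom (nat_lit 216))) 
  (.dom (nat_lit 103)))) 
  (.br (nat_lit 22) (.br (nat_lit 10) (.br (nat_lit 4) (.br (nat_lit 16) (.br (nat_lit 18) (.br (nat_lit 6) (.far (nat_lit 225) (nat_lit 97)) 
  (.br (nat_lit 21) (.br (nat_lit 13) (.br (nat_lit 12) (.far (nat_lit 225) (nat_lit 1)) (.br (nat_lit 11) (.far (nat_lit 0) (nat_lit 100355)) (.dom (nat_lit 214)))) 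
  (.dom (nat_lit 210))) 
  (.dom (nat_lit 216)))) 
  (.br (nat_lit 8) (.far (nat_lit 225) (nat_lit 65)) (.dom (nat_lit 94)))) 
  (.br (nat_lit 8) (.far (nat_lit 225) (nat_lit 65)) (.dom (nat_lit 67)))) 
  (.dom (nat_lit 370))) 
  (.dom (nat_lit 371))) 
  (.dom (nat_lit 126)))) 
  (.dom (nat_lit 209))) 
  (.dom (nat_lit 208)))) 
  (.dom (nat_lit 374))) 
  (.dom (nat_lit 222)))) 
  (.dom (nat_lit 223))))

/-- search tree -/
def gp666B : BB := (.br (nat_lit 0) gp666B4 gp666B10)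

theorem gp666_bb : gp666D.ok gp666B [] (2 ^ gp666D.np - 1) = true := by decide +kernel

theorem gp666_gen : allB (gp666D.genOK 204) gp666D.nG = true := by decide +kernel

end Pool.Agent.P.MP_40718a_co
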