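import Pool.Agent.P.MP_40718a_co.U.BB
import Pool.Agent.P.MP_40718a_co.CfgF

/-! Covers of level `K` and gluing. -/

namespace Pool.Agent.P.MP_40718a_co

open List U

namespace DG
variable {V : Type} (G : DG V)

/-- `3 K` perfect matchings covering each edge `K` times. -/
def CoverK (K : ℕ) : Prop := ∃ L : List (V → Fin 3), L.length = 3 * K ∧
  (∀ m ∈ L, ∀ d, m d.1 = d.2 → m (G.σ d).1 = (G.σ d).2) ∧
  ∀ d : V × Fin 3, L.countP (fun m => decide (m d.1 = d.2)) = K

/-- Each dart of the side is covered `K` times. -/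
def GoodK (K : ℕ) (R : Set V) (L : List (V → Fin 3)) : Prop :=
  ∀ d : V × Fin 3, d.1 ∈ R → L.countP (fun m => decide (m d.1 = d.2)) = K

/-- The traces are realised on the side. -/
def RealK (K : ℕ) (R : Set V) (k : ℕ) (β : ℕ → V × Fin 3) (xs : List ℕ) : Prop :=
  ∃ L, Forall₂ (G.Tr R k β) L xs ∧ GoodK K R L

variable {G}

lemma RealK.perm {K : ℕ} {R : Set V} {k : ℕ} {β : ℕ → V × Fin 3} {xs ys : List ℕ}
    (h : G.RealK K R k β xs) (hp : xs.Perm ys) : G.RealK K R k β ys := by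
  obtain ⟨L, h1, h2⟩ := h
  obtain ⟨L', h3, h4⟩ := perm_comp_forall₂ hp.symm h1.flip
  exact ⟨L', h3.flip, fun d hd => by rw [h4.countP_eq]; exact h2 d hd⟩

/-- The weighted system of a pole. -/
def Pole.sy [Finite V] {R : Set V} {k : ℕ} {β : ℕ → V × Fin 3} (hP : G.Pole R k β) :
    Sy k (R × Fin 3 → ℕ) where
  M := V → Fin 3
  Tr := G.Tr R k β
  wt := fun m d => if m d.1 = d.2 then 1 else 0
  kempe := fun A B a b hA hB => by
    obtain ⟨π, h1, h2⟩ := hP.kempe A B a b hA hB
    refine ⟨π, h1, fun n => ?_⟩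
    obtain ⟨A', B', h3, h4, h5⟩ := h2 n
    refine ⟨A', B', h3, h4, funext fun d => ?_⟩
    have key : ∀ x y : Fin 3, ∃ c e f g : Fin 3, ∀ i,
        [x, y, c, e, f, g].countP (fun z => decide (z = i)) = 2 := by decide
    choose c e f g hk using key
    have h6 : Good R [A, B, fun v => c (A v) (B v), fun v => e (A v) (B v), fun v => f (A v) (B v),
        fun v => g (A v) (B v)] := fun d _ => by
      simpa only [countP_cons, countP_nil] using hk (A d.1) (B d.1) d.2
    have a1 := h5 _ h6 (d.1, d.2) d.1.2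
    have a2 := h6 (d.1, d.2) d.1.2
    simp only [countP_cons, decide_eq_true_eq] at a1 a2
    simp only [Pi.add_apply]
    omega

lemma Pole.wt_sum [Finite V] {R : Set V} {k : ℕ} {β : ℕ → V × Fin 3} (hP : G.Pole R k β)
    (L : List (V → Fin 3)) (d : R × Fin 3) :
    (L.map hP.sy.wt).sum d = L.countP fun m => decide (m d.1 = d.2) := by
  induction L with
  | nil => rfl
  | cons m L ih =>
    rw [countP_cons, ← ih, add_comm]
    simp only [decide_eq_true_eq]
    rfl

lemma Pole.glueK [Finite V] {R : Set V} {k : ℕ} {β : ℕ → V × Fin 3} (hP : G.Pole R k β) {K : ℕ}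
    {xs : List ℕ} (hl : xs.length = 3 * K) (h1 : G.RealK K R k β xs)
    (h2 : G.RealK K Rᶜ k (fun t => G.σ (β t)) xs) : G.CoverK K := by
  classical
  obtain ⟨L1, a1, b1⟩ := h1
  obtain ⟨L2, a2, b2⟩ := h2
  have key : ∀ (xs : List ℕ) (L1 L2 : List (V → Fin 3)), List.Forall₂ (G.Tr R k β) L1 xs →
      List.Forall₂ (G.Tr Rᶜ k fun t => G.σ (β t)) L2 xs → ∃ L : List (V → Fin 3),
      L.length = xs.length ∧ (∀ m ∈ L, ∀ d, m d.1 = d.2 → m (G.σ d).1 = (G.σ d).2) ∧
      ∀ d : V × Fin 3, L.countP (fun m => decide (m d.1 = d.2)) =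
        if d.1 ∈ R then L1.countP (fun m => decide (m d.1 = d.2))
        else L2.countP (fun m => decide (m d.1 = d.2)) := by
    intro xs
    induction xs with
    | nil =>
      intro L1 L2 h1 h2
      cases h1; cases h2
      exact ⟨[], rfl, by simp, by simp⟩
    | cons x xs ih =>
      intro L1 L2 h1 h2
      cases h1 with
      | @cons A _ L1 _ hA h1 =>
      cases h2 with
      | @cons B _ L2 _ hB h2 =>
      obtain ⟨L, e1, e2, e3⟩ := ih L1 L2 h1 h2
      refine ⟨(fun v => if v ∈ R then A v else B v) :: L, by simp [e1], ?_, ?_⟩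
      · intro m hm
        rcases List.mem_cons.1 hm with rfl | hm
        · intro d hd
          by_cases c1 : d.1 ∈ R <;> by_cases c2 : (G.σ d).1 ∈ R <;>
            simp only [c1, c2, if_true, if_false] at hd ⊢
          · exact hA.1 d c1 c2 hd
          · obtain ⟨t, ht, rfl⟩ := hP.surj d c1 c2
            exact (hB.2 t ht).1 ((hA.2 t ht).2 hd)
          · obtain ⟨t, ht, h⟩ := hP.compl.surj d c1 (by simpa using c2)
            subst h
            simp only [G.inv]
            exact (hA.2 t ht).1 ((hB.2 t ht).2 hd)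
          · exact hB.1 d c1 c2 hd
        · exact e2 m hm
      · intro d
        simp only [List.countP_cons, e3 d]
        by_cases c1 : d.1 ∈ R <;> simp only [c1, if_true, if_false]
  obtain ⟨L, e1, e2, e3⟩ := key xs L1 L2 a1 a2
  refine ⟨L, e1.trans hl, e2, fun d => ?_⟩
  rw [e3]
  split_ifs with h
  · exact b1 d h
  · exact b2 d h

lemma Pole.glued_realK {R : Set V} {k : ℕ} {β : ℕ → V × Fin 3} (hP : G.Pole R k β) {n : ℕ}
    {ι : ℕ → ℕ} (hι : tblOK (k + 3 * n) ι = true) {K : ℕ} (hC : (hP.glued hι).CoverK K) :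
    ∃ cs : List ℕ, cs.length = 3 * K ∧ (∀ c ∈ cs, c ∈ pms k n ι) ∧
      (∀ p < k + 3 * n, cs.countP (·.testBit p) = K) ∧ G.RealK K R k β (cs.map (· % 2 ^ k)) := by
  classical
  obtain ⟨L, h1, h2, h3⟩ := hC
  have hex : ∀ m : R ⊕ Fin n → Fin 3, ∃ c, m ∈ L → c ∈ pms k n ι ∧ ∀ p : Fin (k + 3 * n),
      c.testBit p = decide (m (hP.psi n (.inr p)).1 = (hP.psi n (.inr p)).2) := by
    intro m
    by_cases hm : m ∈ L
    swap
    · exact ⟨0, fun h => absurd h hm⟩
    obtain ⟨c, c1, c2, -⟩ := allCodes_complete ι (fun p => if h : p < k + 3 * n then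
      decide (m (hP.psi n (.inr ⟨p, h⟩)).1 = (hP.psi n (.inr ⟨p, h⟩)).2) else false) (k + 3 * n)
      (by
        intro p hp
        simp only [hp, (tblOK_spec hι p hp).1, dite_true, decide_eq_decide]
        have e := hP.glued_psi hι (.inr ⟨p, hp⟩)
        simp only [tau] at e
        rw [← e]
        refine ⟨fun h => ?_, h2 m hm _⟩
        have := h2 m hm _ h
        rwa [DG.inv] at this)
    refine ⟨c, fun _ => ⟨List.mem_filter.2 ⟨c1, allB_spec.2 fun v hv => ?_⟩, fun p => ?_⟩⟩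
    · have e : ∀ i : Fin 3, c.testBit (k + 3 * v + i) = decide (m (.inr ⟨v, hv⟩) = i) := by
        intro i
        have a1 : k + 3 * v + i < k + 3 * n := by omega
        have a2 : ¬ (k + 3 * v + i < k) := by omega
        have a3 : (k + 3 * v + i - k) / 3 = v := by omega
        have a4 : (k + 3 * v + i - k) % 3 = i := by omega
        rw [c2 _ a1]
        simp [a1, Pole.psi, a2, a3, a4]
      have := (one3_iff fun i => c.testBit (k + 3 * v + i)).2 (by simp [e])
      simpa using this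
    · rw [c2 p p.2]; simp
  choose cd hcd using hex
  let res : (R ⊕ Fin n → Fin 3) → V → Fin 3 := fun m v =>
    if h : v ∈ R then m (.inl ⟨v, h⟩) else 0
  refine ⟨L.map cd, by simp [h1], ?_, fun p hp => ?_, L.map res, ?_, ?_⟩
  · intro c hc
    obtain ⟨m, hm, rfl⟩ := List.mem_map.1 hc
    exact (hcd m hm).1
  · rw [List.countP_map, ← h3 (hP.psi n (.inr ⟨p, hp⟩))]
    exact List.countP_congr fun m hm => by
      simp only [Function.comp, (hcd m hm).2 ⟨p, hp⟩]
  · rw [List.map_map, List.forall₂_map_left_iff, List.forall₂_map_right_iff, List.forall₂_same]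
    intro m hm
    constructor
    · intro d a1 a2 a3
      have := h2 m hm (hP.psi n (.inl ⟨d, a1, a2⟩)) (by simpa [res, a1, Pole.psi] using a3)
      rw [hP.glued_psi] at this
      simpa [res, a2, Pole.psi, tau] using this
    · intro t ht
      have := (hcd m hm).2 ⟨t, by omega⟩
      simp only [Function.comp, Nat.testBit_mod_two_pow, ht, decide_true, Bool.true_and]
      rw [this]
      simp [res, hP.mem t ht, Pole.psi, ht]
  · intro d hd
    rw [List.countP_map, ← h3 (.inl ⟨d.1, hd⟩, d.2)]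
    exact List.countP_congr fun m _ => by simp [res, hd]

lemma Emb.extendK {k n : ℕ} {ι : ℕ → ℕ} {R : Set V} {q : ℕ → V × Fin 3} (h : G.Emb k n ι R q)
    {len : ℕ} {cd : ℕ → ℕ} (h6 : allB (fun i => codeOK k n ι (cd i)) len = true) {wit : List ℕ}
    (y4 : ∀ i ∈ wit, i < len) {K : ℕ}
    (y5 : ∀ p < k + 3 * n, k ≤ p → wit.countP (fun i => (cd i).testBit p) = K) :
    G.RealK K Rᶜ k (fun t => G.σ (q t)) (wit.map fun i => cd i % 2 ^ k) := by
  classical
  have hex : ∀ i w, ∃ j, i < len → ∀ p < k + 3 * n, k ≤ p → (q p).1 = w →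
      (j = (q p).2 ↔ (cd i).testBit p = true) := by
    intro i w
    by_cases hi : i < len ∧ w ∉ R
    swap
    · exact ⟨0, fun a1 p hp a2 a3 => absurd ⟨a1, a3 ▸ h.ins p hp a2⟩ hi⟩
    obtain ⟨p0, a1, a2, a3⟩ := h.surj (w, 0) hi.2
    have a4 := allB_spec.1 h6 i hi.1
    rw [codeOK, Bool.and_eq_true] at a4
    obtain ⟨i0, b1, b2⟩ := (one3_iff fun j => (cd i).testBit (k + 3 * ((p0 - k) / 3) + j)).1
      (by simpa using allB_spec.1 a4.2 ((p0 - k) / 3) (by omega))
    refine ⟨(q (k + 3 * ((p0 - k) / 3) + i0)).2, fun _ p hp c1 c2 => ?_⟩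
    have c3 : (p - k) / 3 = (p0 - k) / 3 :=
      (h.vtx _ hp c1 _ a1 a2).1 (c2.trans (congrArg Prod.fst a3).symm)
    have c4 : (q (k + 3 * ((p0 - k) / 3) + i0)).1 = (q p).1 :=
      (h.vtx _ (by omega) (by omega) _ hp c1).2 (by omega)
    constructor
    · intro e
      rw [← h.inj _ (by omega) _ hp (Prod.ext c4 e)]
      exact b1
    · intro e
      have := b2 ⟨(p - k) % 3, by omega⟩ (by
        simpa [show k + 3 * ((p0 - k) / 3) + (p - k) % 3 = p by omega] using e)
      rw [← this]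
      simp [show k + 3 * ((p0 - k) / 3) + (p - k) % 3 = p by omega]
  choose m hm using hex
  refine ⟨wit.map m, ?_, ?_⟩
  · rw [List.forall₂_map_left_iff, List.forall₂_map_right_iff, List.forall₂_same]
    intro i hi
    have a4 := allB_spec.1 h6 i (y4 i hi)
    rw [codeOK, Bool.and_eq_true, allB_spec] at a4
    constructor
    · intro d a1 a2 a3
      obtain ⟨p, hp, b1, rfl⟩ := h.surj d a1
      rw [h.comm p hp] at a2 ⊢
      have b2 : k ≤ ι p := by
        by_contra b3
        exact a2 (h.bd _ (by omega))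
      rw [hm i _ (y4 i hi) _ (h.tbl p hp).1 b2 rfl, ← beq_iff_eq.1 (a4.1 p hp)]
      exact (hm i _ (y4 i hi) p hp b1 rfl).1 a3
    · intro t ht
      simp only [h.comm t (by omega)]
      rw [hm i _ (y4 i hi) _ (h.tbl t (by omega)).1 (h.out t ht) rfl,
        ← beq_iff_eq.1 (a4.1 t (by omega)), Nat.testBit_mod_two_pow]
      simp [ht]
  · intro d hd
    obtain ⟨p, hp, b1, rfl⟩ := h.surj d hd
    rw [← y5 p hp b1, List.countP_map]
    exact List.countP_congr fun i hi => by
      simp [hm i _ (y4 i hi) p hp b1 rfl]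

end DG

/-- The configuration `(n, ι)` is reducible to `(n', ι')` at every even level. -/
def Red (k n : ℕ) (ι : ℕ → ℕ) (n' : ℕ) (ι' : ℕ → ℕ) : Prop :=
  ∀ (V : Type) [Finite V] (G : DG V) (R : Set V) (q : ℕ → V × Fin 3) (h : G.Emb k n ι R q)
    (h4 : tblOK (k + 3 * n') ι' = true) (K : ℕ), K % 2 = 0 → (h.pole.glued h4).CoverK K → G.CoverK K

/-- The small side conditions of a certificate. -/
noncomputable def sideOK (T : T2) (D : Rd) (n : ℕ) (ι : ℕ → ℕ) (n' : ℕ) (ι' : ℕ → ℕ) (a b : ℕ) :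
    Bool :=
  Nat.ble T.C.k 9 && allB (fun j => Nat.blt (T.F j) (T.C.k + 3 * n)) T.m &&
    Nat.beq T.one (sp (fun _ => 1) T.m) && Nat.blt (2 * T.one) (2 ^ 80) && Nat.ble D.np 512 &&
    Nat.ble a b && Nat.ble D.N (T.C.k + 3 * n') &&
    (pms T.C.k n' ι').all (fun c => !allB (fun i => !Nat.beq (D.cr i) c) D.np) &&
    allB (fun i => codeOK T.C.k n ι (T.cd i)) T.len &&
    allB (fun p => Nat.blt p T.C.k || Nat.blt (ι p) T.C.k ||
      !allB (fun j => !(Nat.beq (T.F j) p || Nat.beq (T.F j) (ι p))) T.m) (T.C.k + 3 * n)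

theorem red_of {T : T2} {D : Rd} {n : ℕ} {ι : ℕ → ℕ} {n' : ℕ} {ι' : ℕ → ℕ} {a b c : ℕ}
    (h0 : sideOK T D n ι n' ι' a b = true) (hsw : swOK T.C.k T.C.sw = true)
    (hX : Cov (T.C.ckX (extC T.C.k (T.C.k + 3 * n) T.len T.cd)) T.C.nX) (hW : Cov T.C.ckW T.C.nW)
    (hck : Cov T.ck c) {B : BB} (hB : D.ok B [] (2 ^ D.np - 1) = true)
    (hG : allB (D.genOK a) D.nG = true) {rw : ℕ → ℕ} (hR : rootsOK T D c a b rw = true) :
    Red T.C.k n ι n' ι' := by
  intro V _ G R q h h4 K hK hC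
  simp only [sideOK, Bool.and_eq_true, Nat.ble_eq, Nat.blt_eq, Nat.beq_eq, all_eq_true,
    Bool.not_eq_true'] at h0
  obtain ⟨⟨⟨⟨⟨⟨⟨⟨⟨s1, s2⟩, s3⟩, s4⟩, s5⟩, s6⟩, s7⟩, s8⟩, s9⟩, s10⟩ := h0
  obtain ⟨cs, c1, c2, c3, L, c4, c5⟩ := h.pole.glued_realK h4 hC
  have hex : ∀ c, ∃ i, c ∈ cs → i < D.np ∧ D.cr i = c := by
    intro c
    by_cases hc : c ∈ cs
    · have := s8 c (c2 c hc)
      rw [← Bool.not_eq_true, allB_spec] at this
      push Not at this
      obtain ⟨i, h1, h2⟩ := this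
      exact ⟨i, fun _ => ⟨h1, by simpa using h2⟩⟩
    · exact ⟨0, fun h => absurd h hc⟩
  choose ix hix using hex
  have hM : D.Bal K (cs.map ix) := ⟨by simpa using fun c hc => (hix c hc).1, by simp [c1],
    fun e he => by
      rw [sum_bit, countP_map, ← c3 e (by omega)]
      exact countP_congr fun c hc => by simp [(hix c hc).2]⟩
  obtain ⟨L', is, d1, d2, d3, d4⟩ := win_all ⟨s1, fun j hj => Nat.blt_eq.mp (allB_spec.1 s2 j hj),
    s3, s4, hsw, hX, hW, hck⟩ s5 hB hG hR s6 h.pole.sy hK hM L (by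
      rw [map_map, map_congr_left (g := (· % 2 ^ T.C.k)) fun c hc => by simp [(hix c hc).2]]
      exact c4)
  have e1 : DG.GoodK K R L' := fun d hd => by
    rw [← c5 d hd, ← h.pole.wt_sum L' (⟨d.1, hd⟩, d.2), ← h.pole.wt_sum L (⟨d.1, hd⟩, d.2)]
    exact congrFun d3 _
  have e2 : ∀ i ∈ is, i < T.len := fun i hi => by
    obtain ⟨j, hj, rfl⟩ := mem_iff_getElem.1 hi
    exact ((forall₂_iff_get.1 d1).2 j (d1.length_eq ▸ hj) hj).1
  have e3 : ∀ i ∈ is, ∀ p < T.C.k + 3 * n, (T.cd i).testBit p = (T.cd i).testBit (ι p) := by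
    intro i hi p hp
    have := allB_spec.1 s9 i (e2 i hi)
    rw [codeOK, Bool.and_eq_true, allB_spec] at this
    exact beq_iff_eq.1 (this.1 p hp)
  refine h.pole.glueK (by simpa [c1] using d2) ⟨L', forall₂_map_right_iff.2 (d1.imp fun _ _ => And.right),
    e1⟩ (h.extendK s9 e2 fun p hp hk => ?_)
  have e4 : ∀ j < T.m, is.countP (fun i => (T.cd i).testBit (T.F j)) = K := fun j hj => by
    rw [← sum_bit, ← congrFun d4 ⟨j, hj⟩]
    exact ((map_list_sum (Pi.evalAddMonoidHom (fun _ : Fin T.m => ℕ) ⟨j, hj⟩) _).trans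
      (by simp; rfl)).symm
  have := allB_spec.1 s10 p hp
  simp only [Bool.or_eq_true, Nat.blt_eq, Bool.not_eq_true', ← Bool.not_eq_true, allB_spec,
    not_forall, not_not, Nat.beq_eq] at this
  rcases this with (a1 | a1) | ⟨j, hj, a1 | a1⟩
  · omega
  · rw [countP_congr fun i hi => by rw [e3 i hi p hp], ← e1 _ (h.bd _ a1)]
    clear d2 d3 d4 e1 e2 e3 e4
    induction d1 with
    | nil => rfl
    | cons b1 _ ih =>
      have := b1.2.2 _ a1
      rw [Nat.testBit_mod_two_pow] at this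
      simp only [a1, decide_true, Bool.true_and] at this
      simp only [countP_cons, ih, this]
      exact Eq.trans (by simp only [decide_eq_true_eq]) countP_cons.symm
  · rw [← a1, e4 j hj]
  · rw [countP_congr fun i hi => by rw [e3 i hi p hp], ← a1, e4 j hj]

end Pool.Agent.P.MP_40718a_co
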