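import Pool.Agent.P.MP_40718a_co.U.Glue

/-! Small cuts and configurations at level `K`. -/

namespace Pool.Agent.P.MP_40718a_co

/-- Lists with entries in `T` and all bit counts equal to `K`. -/
def Can (K k : ℕ) (T xs : List ℕ) : Prop := xs.length = 3 * K ∧ (∀ x ∈ xs, x ∈ T) ∧
  ∀ t < k, xs.countP (·.testBit t) = K

lemma can_perm {T xs ys : List ℕ} (h1 : ∀ x ∈ xs, x ∈ T) (h2 : ∀ x ∈ ys, x ∈ T)
    (h : ∀ a ∈ T, xs.count a = ys.count a) : xs.Perm ys :=
  List.perm_iff_count.2 fun a => by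
    by_cases c : a ∈ T
    · exact h a c
    · rw [List.count_eq_zero.2 (mt (h1 a) c), List.count_eq_zero.2 (mt (h2 a) c)]

lemma can0 {K : ℕ} {xs ys : List ℕ} (h : Can K 0 [0] xs) (h' : Can K 0 [0] ys) : xs.Perm ys := by
  have key : ∀ {xs}, Can K 0 [0] xs → xs.count 0 = 3 * K := fun h =>
    (List.count_eq_length.2 fun x hx => by simpa [eq_comm] using h.2.1 x hx).trans h.1
  exact can_perm h.2.1 h'.2.1 (by simp [key h, key h'])

lemma can2 {K : ℕ} {xs ys : List ℕ} (h : Can K 2 [0, 3] xs) (h' : Can K 2 [0, 3] ys) :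
    xs.Perm ys := by
  have key : ∀ {xs}, Can K 2 [0, 3] xs → xs.count 3 = K ∧ xs.count 0 = 2 * K := by
    intro xs h
    have a1 := h.2.2 0 (by omega)
    have a2 := List.length_eq_countP_add_countP (·.testBit 0) (l := xs)
    have a3 : xs.count 3 = xs.countP (·.testBit 0) := List.countP_congr fun x hx => by
      obtain rfl | rfl : x = 0 ∨ x = 3 := by simpa using h.2.1 x hx
      all_goals decide
    have a4 : xs.count 0 = xs.countP (fun a => ¬ a.testBit 0) := List.countP_congr fun x hx => by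
      obtain rfl | rfl : x = 0 ∨ x = 3 := by simpa using h.2.1 x hx
      all_goals decide
    have := h.1
    omega
  exact can_perm h.2.1 h'.2.1 (by simp [key h, key h'])

lemma can3 {K : ℕ} {xs ys : List ℕ} (h : Can K 3 [1, 2, 4] xs) (h' : Can K 3 [1, 2, 4] ys) :
    xs.Perm ys := by
  have key : ∀ {xs}, Can K 3 [1, 2, 4] xs → ∀ t < 3, xs.count (2 ^ t) = K := by
    intro xs h t ht
    rw [← h.2.2 t ht]
    refine List.countP_congr fun x hx => ?_
    obtain rfl | rfl | rfl : x = 1 ∨ x = 2 ∨ x = 4 := by simpa using h.2.1 x hx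
    all_goals interval_cases t <;> decide
  refine can_perm h.2.1 h'.2.1 ?_
  simp only [List.forall_mem_cons]
  exact ⟨(key h 0 (by omega)).trans (key h' 0 (by omega)).symm,
    (key h 1 (by omega)).trans (key h' 1 (by omega)).symm,
    (key h 2 (by omega)).trans (key h' 2 (by omega)).symm, by simp⟩

namespace DG

/-- Smaller bridgeless labelled graphs have covers of level `K`. -/
def SmallU (K N M : ℕ) : Prop := ∀ (W : Type) [Fintype W] (H : DG W),
  Fintype.card W < M → H.Fam N → H.Bridgeless → H.CoverK K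

variable {V : Type} [Fintype V] {G : DG V} {K N : ℕ}

lemma Pole.sideU {R : Set V} {k : ℕ} {β : ℕ → V × Fin 3} (hP : G.Pole R k β) {n : ℕ} {ι : ℕ → ℕ}
    (hι : tblOK (k + 3 * n) ι = true) {l : ℕ} {Cl : List (List ℕ)} (hs : safe k n ι l Cl = true)
    (hl : G.Lev l) (hCl : ∀ K ∈ Cl, (∀ t ∈ K, t < k) ∧ (K.map fun t => (β t).1).Nodup)
    (IH : SmallU K N (Fintype.card V)) (hn : n < Rᶜ.ncard) (hn' : l < Rᶜ.ncard + 2)
    (hF : (hP.glued hι).Fam N) {T : List ℕ}
    (h : ((pms k n ι).all fun c => T.elem (c % 2 ^ k)) = true) :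
    ∃ xs, Can K k T xs ∧ G.RealK K R k β xs := by
  classical
  obtain ⟨cs, x1, x2, x3, x4⟩ := hP.glued_realK hι
    (IH _ _ (Pole.small hn) hF (hP.glued_bridgeless hι hs (fun X hX h => by
      have := Set.ncard_le_ncard (Set.compl_subset_compl.2 hX)
      have := hl X h
      omega) hCl))
  refine ⟨_, ⟨by simp [x1], fun x hx => ?_, fun t ht => ?_⟩, x4⟩
  · obtain ⟨c, hc, rfl⟩ := List.mem_map.1 hx
    exact List.mem_of_elem_eq_true (List.all_eq_true.1 h c (x2 c hc))
  · rw [List.countP_map, ← x3 t (by omega)]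
    exact List.countP_congr fun c _ => by simp [ht]

section
variable [Nonempty V] (hB : G.Bridgeless) (hF : G.Fam N) (IH : SmallU K N (Fintype.card V))
  (hC : ¬ G.CoverK K)
include hB hF IH hC

lemma connU (X : Set V) (h : G.cut X = 0) : X = ∅ ∨ X = Set.univ := by
  by_contra hc
  obtain ⟨β, hP⟩ := G.exists_pole X
  rw [h] at hP
  rw [not_or, ← ne_eq, ← Set.nonempty_iff_ne_empty, ← ne_eq, ← Set.nonempty_compl,
    ← Set.ncard_pos, ← Set.ncard_pos] at hc
  have key : ∀ {R : Set V} {β} (hP : G.Pole R 0 β), 0 < Rᶜ.ncard →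
      ∃ xs, Can K 0 [0] xs ∧ G.RealK K R 0 β xs := fun {R β} hP hR =>
    hP.sideU (n := 0) (ι := id) (by decide +kernel) (Cl := [[]]) (by decide +kernel) (lev1 hB)
      (by simp) IH hR (by omega) (hP.fam_glued _ hF ∅ β (by simp) (by simp) (by simp)
        (fun _ _ _ => by simp [EvT]) fun _ _ => ⟨0, by simp [bd]⟩) (by decide +kernel)
  obtain ⟨xs, a1, a2⟩ := key hP hc.2
  obtain ⟨ys, b1, b2⟩ := key hP.compl (by simpa using hc.1)
  exact hC (hP.glueK a1.1 a2 (b2.perm (can0 b1 a1)))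

lemma lev2U : G.Lev 2 := by
  intro X h
  by_contra hc
  have := hB X
  have e : G.cut X = 2 := by omega
  obtain ⟨β, hP⟩ := G.exists_pole X
  rw [e] at hP
  have key : ∀ {R : Set V} {β} (hP : G.Pole R 2 β), G.cut R = 2 →
      ∃ xs, Can K 2 [0, 3] xs ∧ G.RealK K R 2 β xs := by
    intro R β hP hR
    have h2 : 0 < Rᶜ.ncard := (Set.ncard_pos).2 ⟨_, hP.out 0 (by omega)⟩
    refine hP.sideU (n := 0) (ι := fun p => 1 - p) (by decide +kernel) (Cl := [[]])
      (by decide +kernel) (lev1 hB) (by simp) IH h2 (by omega) (hP.fam_glued _ hF ∅ β (by simp)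
        (by simp) (fun p _ _ => by omega) (fun x hx _ => ?_) fun Y hY => ?_) (by decide +kernel)
    · have := hP.parity hx
      rw [Fin.sum_univ_two, z2_add] at this
      refine ⟨fun p hp => ?_, by simp⟩
      obtain rfl | rfl : p = 0 ∨ p = 1 := by omega
      · exact this.symm
      · exact this
    · obtain ⟨y, a1, a2, a3⟩ := hP.fill (conn_side hB (connU hB hF IH hC) ⟨_, hP.mem 0 (by omega)⟩
        (by omega)) (by omega) Y (by rw [Fin.sum_univ_two, z2_add]; exact hY.1 1 (by omega))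
      exact ⟨y, fun v _ => a1 v, a2, a3, by simp, fun p _ _ => by omega⟩
  obtain ⟨xs, a1, a2⟩ := key hP e
  obtain ⟨ys, b1, b2⟩ := key hP.compl (by rw [cut_compl, e])
  exact hC (hP.glueK a1.1 a2 (b2.perm (can2 b1 a1)))

lemma lev3U : G.Lev 3 := by
  intro X h
  by_contra hc
  have := lev2U hB hF IH hC X
  have e : G.cut X = 3 := by omega
  obtain ⟨β, hP⟩ := G.exists_pole X
  rw [e] at hP
  have key : ∀ {R : Set V} {β} (hP : G.Pole R 3 β), G.cut R = 3 → 1 < Rᶜ.ncard →
      ∃ xs, Can K 3 [1, 2, 4] xs ∧ G.RealK K R 3 β xs := by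
    intro R β hP hR h2
    refine hP.sideU (n := 1) (ι := fun p => (p + 3) % 6) (by decide +kernel)
      (Cl := [[], [0], [1]]) (by decide +kernel) (lev2U hB hF IH hC) (by simp) IH h2 (by omega)
      (hP.fam_glued _ hF ∅ (fun p => if p < 3 then β p else G.σ (β (p - 3))) (by simp)
        (fun t ht => if_pos ht) (fun p _ _ => ?_) (fun x hx _ => ?_) fun Y hY => ?_)
      (by decide +kernel)
    · rw [if_neg (by omega)]
      exact hP.out _ (by omega)
    · have := hP.parity hx
      rw [Fin.sum_univ_three] at this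
      refine ⟨fun p hp => ?_, fun v hv => ?_⟩
      · interval_cases p <;> simp [hx.1]
      · obtain rfl : v = 0 := by omega
        simpa [hx.1] using this
    · have b0 : Y 3 = Y 0 := hY.1 0 (by omega)
      have b1 : Y 4 = Y 1 := hY.1 1 (by omega)
      have b2 : Y 5 = Y 2 := hY.1 2 (by omega)
      obtain ⟨y, a1, a2, a3⟩ := hP.fill (conn_side hB (connU hB hF IH hC) ⟨_, hP.mem 0 (by omega)⟩
        (by omega)) (by omega) Y (by
          rw [Fin.sum_univ_three]
          simpa [b0, b1, b2] using hY.2 0 (by omega))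
      refine ⟨y, fun v _ => a1 v, a2, a3, by simp, fun p _ _ => ?_⟩
      rw [if_neg (by omega), a3 _ (by omega)]
      interval_cases p <;> simp [b0, b1, b2]
  obtain ⟨xs, a1, a2⟩ := key hP e (by omega)
  obtain ⟨ys, b1, b2⟩ := key hP.compl (by rw [cut_compl, e]) (by rw [compl_compl]; omega)
  exact hC (hP.glueK a1.1 a2 (b2.perm (can3 b1 a1)))

lemma noMultiU : G.NoMulti := by
  classical
  intro v i j h
  by_contra hij
  have hvw : (G.σ (v, i)).1 ≠ v := noLoop hB _
  obtain ⟨w, a, e1⟩ : ∃ w a, G.σ (v, i) = (w, a) := ⟨_, _, rfl⟩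
  rw [e1] at h hvw
  change w ≠ v at hvw
  obtain ⟨b, e2⟩ : ∃ b, G.σ (v, j) = (w, b) := ⟨(G.σ (v, j)).2, Prod.ext h.symm rfl⟩
  have e1' : G.σ (w, a) = (v, i) := by rw [← e1, G.inv]
  have e2' : G.σ (w, b) = (v, j) := by rw [← e2, G.inv]
  have hab : a ≠ b := by
    rintro rfl
    exact hij (congrArg Prod.snd (e1'.symm.trans e2'))
  have : ∀ x y : Fin 3, x ≠ y → ∃ z, ∀ w, w = x ∨ w = y ∨ w = z := by decide
  obtain ⟨l, hl⟩ := this i j hij
  obtain ⟨l', hl'⟩ := this a b hab
  have h2 : G.cut {v, w} ≤ 2 := by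
    rw [cut_eq_ncard]
    refine (Set.ncard_le_ncard (t := {(v, l), (w, l')}) ?_).trans
      ((Set.ncard_insert_le _ _).trans (by simp))
    rintro ⟨u, x⟩ ⟨rfl | rfl, h1⟩
    · rcases hl x with rfl | rfl | rfl
      · simp [e1] at h1
      · simp [e2] at h1
      · simp
    · rcases hl' x with rfl | rfl | rfl
      · simp [e1'] at h1
      · simp [e2'] at h1
      · simp
  have h3 : ({v, w} : Set V) = Set.univ := by
    have h4 := Set.ncard_pair hvw.symm
    rcases lev2U hB hF IH hC _ h2 with h | h | h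
    · exact (connU hB hF IH hC _ h).resolve_left (Set.insert_nonempty _ _).ne_empty
    · omega
    · rw [← Set.compl_empty_iff, ← Set.ncard_eq_zero]; omega
  have h4 : ∀ u, u = v ∨ u = w := fun u => by simpa using (h3 ▸ Set.mem_univ u : u ∈ ({v, w} : Set V))
  have h5 : ∀ c, G.σ (v, c) = (w, (G.σ (v, c)).2) := fun c =>
    Prod.ext ((h4 _).resolve_left (noLoop hB _)) rfl
  have h6 : ∀ c, G.σ (w, c) = (v, (G.σ (w, c)).2) := fun c =>
    Prod.ext ((h4 _).resolve_right (noLoop hB _)) rfl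
  have h7 : ∀ c x, (G.σ (v, c)).2 = x ↔ c = (G.σ (w, x)).2 := by
    intro c x
    constructor
    · rintro rfl; rw [← h5, G.inv]
    · rintro rfl; rw [← h6, G.inv]
  let M : Fin 3 → V → Fin 3 := fun c u => if u = v then c else (G.σ (v, c)).2
  refine hC ⟨(List.replicate K 0 ++ (List.replicate K 1 ++ List.replicate K 2) :
    List (Fin 3)).map M,
    by simp; omega, ?_, ?_⟩
  · intro m hm
    obtain ⟨c, -, rfl⟩ := List.mem_map.1 hm
    rintro ⟨u, x⟩ hd
    rcases h4 u with rfl | rfl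
    · simp only [M, if_true] at hd
      rw [h5]; simp only [M, hd, hvw, if_false]
    · simp only [M, show u ≠ v from hvw, if_false, h7] at hd
      rw [h6]; simp only [M, if_true, hd]
  · rintro ⟨u, x⟩
    have key : ∀ y : Fin 3, (List.replicate K 0 ++ (List.replicate K 1 ++ List.replicate K 2) :
        List (Fin 3)).countP (fun c => decide (c = y)) = K := by
      intro y
      fin_cases y <;> simp [List.countP_replicate]
    rw [List.countP_map]
    rcases h4 u with rfl | rfl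
    · refine Eq.trans ?_ (key x)
      exact List.countP_congr fun c _ => by simp [M]
    · refine Eq.trans ?_ (key (G.σ (u, x)).2)
      exact List.countP_congr fun c _ => by simp [M, show u ≠ v from hvw, h7]

end

/-- What is known about a smallest counterexample in the class. -/
structure MinU (G : DG V) (K N : ℕ) : Prop where
  ev : K % 2 = 0
  bl : G.Bridgeless
  fam : G.Fam N
  multi : G.NoMulti
  small : SmallU K N (Fintype.card V)
  nocover : ¬ G.CoverK K
  lev : G.Lev 3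
  conn : ∀ X, G.cut X = 0 → X = ∅ ∨ X = Set.univ

theorem exists_minU (hK : K % 2 = 0) (hB : G.Bridgeless) (hF : G.Fam N) (hC : ¬ G.CoverK K) :
    ∃ (W : Type) (_ : Fintype W) (_ : Nonempty W) (H : DG W), H.MinU K N := by
  by_contra H
  have key : ∀ M, SmallU K N M := by
    intro M
    induction M with
    | zero => intro W _ G h; omega
    | succ M ih =>
      intro W _ G h hF hB
      by_contra hC
      rcases isEmpty_or_nonempty W with hW | hW
      · exact hC ⟨List.replicate (3 * K) isEmptyElim, by simp, fun _ _ d => isEmptyElim d,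
          fun d => isEmptyElim d⟩
      · have IH : SmallU K N (Fintype.card W) := fun U _ K hK => ih U K (by omega)
        exact H ⟨W, _, hW, G, hK, hB, hF, noMultiU hB hF IH hC, IH, hC, lev3U hB hF IH hC,
          connU hB hF IH hC⟩
  exact hC (key _ _ _ (Nat.lt_succ_self _) hF hB)

theorem Emb.configU {k n : ℕ} {ι : ℕ → ℕ} {R : Set V} {q : ℕ → V × Fin 3} (h : G.Emb k n ι R q)
    (hG : G.MinU K N) {Cl : List (List ℕ)}
    (hCl : ∀ K ∈ Cl, (∀ t ∈ K, t < k) ∧ (K.map fun t => (q t).1).Nodup)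
    {n' : ℕ} {ι' : ℕ → ℕ} (h4 : tblOK (k + 3 * n') ι' = true) {wY : ℕ → ℕ → ℕ}
    {U : List (ℕ × ℕ)}
    (h5 : safe2 k n' ι' (fun a T => bad2 k n ι Cl wY a T || U.elem (a, T)) = true)
    (hn : n' < n) {D : List ℕ} {π μ : ℕ → ℕ} {W1 W2 W3 : List ℕ}
    (hm : minorOK k n ι n' ι' D π μ W1 W2 W3 = true) (hr : Red k n ι n' ι') :
    ∃ u ∈ U, G.Split R k q u.1 u.2 := by
  classical
  by_cases hb : (h.pole.glued h4).Bridgeless
  · exact absurd (hr V G R q h h4 K hG.ev
      (hG.small _ _ (Pole.small (h.card ▸ hn)) (h.fam h4 hG.fam hm) hb)) hG.nocover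
  · obtain ⟨a, T, a1, a2⟩ := h.pole.bridge h4 h5 hb
    rw [h.not_bad2 hG.lev hCl a2, Bool.false_or] at a1
    exact ⟨(a, T), List.mem_of_elem_eq_true a1, a2⟩

theorem MinU.free (hG : G.MinU K N) {F : List (ℕ × List (ℕ × ℕ))}
    (hF : ∀ H ∈ F, ¬ G.Cont H) {k n : ℕ} {ι : ℕ → ℕ} {E : List (ℕ × ℕ)}
    (h1 : (cfgOK k n ι E && (edgOK k n ι E && E.all fun e => Nat.blt e.2 n)) = true)
    {W W' : List (List ℕ)} (h2 : chordOK k n ι E F W = true) {Cl : List (List ℕ)}
    (h3 : cliqOK k n ι E F W' Cl = true)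
    (h : ∀ R q, G.Emb k n ι R q → (∀ q, G.Emb k n ι R q →
      ∀ K ∈ Cl, (∀ t ∈ K, t < k) ∧ (K.map fun t => (q t).1).Nodup) → False) :
    ¬ G.Cont (n, E) := by
  intro hc
  simp only [Bool.and_eq_true] at h1
  obtain ⟨R, q, hq⟩ := embed hG.multi hF h1.1 h2 hc
  exact h R q hq fun q hq => hq.cliq hF h1.2.1 h1.2.2 h3

end DG

end Pool.Agent.P.MP_40718a_co
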