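import Pool.Agent.P.MP_40718a_co.U.Glue
import Pool.Agent.P.MP_40718a_co.Surf

/-! Covers of the truncation give covers by even subgraphs. -/

namespace Pool.Agent.P.MP_40718a_co

open SimpleGraph

variable {V : Type} {G : SimpleGraph V} (ρ : Equiv.Perm G.Dart) [Fintype G.Dart]
  (hρ : ∀ d d', ρ.SameCycle d d' ↔ d.fst = d'.fst)
include hρ

lemma trunc_coverK {K : ℕ} (h : (trunc ρ).CoverK K) : ∃ S : Fin (3 * K) → Set (Sym2 V),
    (∀ i, S i ⊆ G.edgeSet) ∧
    (∀ (i : Fin (3 * K)) (v : V), Even (Set.ncard {e : Sym2 V | e ∈ S i ∧ v ∈ e})) ∧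
    (∀ e ∈ G.edgeSet, Set.ncard {i : Fin (3 * K) | e ∈ S i} = 2 * K) := by
  classical
  obtain ⟨L, h1, h2, h3⟩ := h
  let m : Fin (3 * K) → G.Dart → Fin 3 := fun j => L[j.1]'(by omega)
  have hm : ∀ j x, m j x.1 = x.2 → m j (truncS ρ x).1 = (truncS ρ x).2 :=
    fun j => h2 _ (List.getElem_mem _)
  have hs : ∀ j d, m j d.symm = 0 ↔ m j d = 0 := fun j d =>
    ⟨fun h => by simpa using hm j (d.symm, 0) h, fun h => hm j (d, 0) h⟩
  have hS : ∀ j (d : G.Dart), (∃ x : G.Dart, x.edge = d.edge ∧ m j x ≠ 0) ↔ m j d ≠ 0 := by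
    intro j d
    refine ⟨?_, fun h => ⟨d, rfl, h⟩⟩
    rintro ⟨x, a1, a2⟩
    rcases (dart_edge_eq_iff x d).1 a1 with rfl | rfl
    · exact a2
    · exact mt (hs j d).2 a2
  refine ⟨fun j => {e | ∃ x : G.Dart, x.edge = e ∧ m j x ≠ 0}, ?_, ?_, ?_⟩
  · rintro j e ⟨x, rfl, -⟩; exact x.edge_mem
  · intro j v
    have e1 : {e : Sym2 V | e ∈ {e | ∃ x : G.Dart, x.edge = e ∧ m j x ≠ 0} ∧ v ∈ e} =
        Dart.edge '' {x | x.fst = v ∧ m j x ≠ 0} := by
      ext e
      constructor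
      · rintro ⟨⟨x, rfl, a1⟩, a2⟩
        rcases Sym2.mem_iff.1 (show v ∈ s(x.fst, x.snd) from a2) with rfl | rfl
        · exact ⟨x, ⟨rfl, a1⟩, rfl⟩
        · exact ⟨x.symm, ⟨rfl, mt (hs j x).1 a1⟩, x.edge_symm⟩
      · rintro ⟨x, ⟨rfl, a1⟩, rfl⟩
        exact ⟨⟨x, rfl, a1⟩, Sym2.mem_mk_left _ _⟩
    have e2 : {x : G.Dart | x.fst = v ∧ m j x ≠ 0} =
        {x | x.fst = v ∧ m j x = 1} ∪ ρ '' {x | x.fst = v ∧ m j x = 1} := by
      ext x
      constructor
      · rintro ⟨a1, a2⟩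
        rcases fin3 (m j x) with a3 | a3 | a3
        · exact absurd a3 a2
        · exact Or.inl ⟨a1, a3⟩
        · refine Or.inr ⟨ρ.symm x, ⟨?_, hm j (x, 2) a3⟩, by simp⟩
          rw [← a1, ← hρ]
          exact ⟨1, by simp⟩
      · rintro (⟨a1, a2⟩ | ⟨y, ⟨a1, a2⟩, rfl⟩)
        · exact ⟨a1, by simp [a2]⟩
        · refine ⟨?_, by simp [show m j (ρ y) = 2 from hm j (y, 1) a2]⟩
          rw [← a1, eq_comm, ← hρ]
          exact ⟨1, by simp⟩
    rw [e1, Set.InjOn.ncard_image, e2, Set.ncard_union_eq,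
      Set.ncard_image_of_injective _ ρ.injective]
    · exact ⟨_, rfl⟩
    · rw [Set.disjoint_left]
      rintro _ ⟨-, a1⟩ ⟨y, ⟨-, a2⟩, rfl⟩
      have := hm j (y, 1) a2
      simp [a1] at this
    · rintro x ⟨a1, -⟩ y ⟨a2, -⟩ e
      rcases (dart_edge_eq_iff x y).1 e with rfl | rfl
      · rfl
      · exact absurd (a2.trans a1.symm) y.adj.ne
  · intro e he
    induction e with
    | _ u v =>
    let d : G.Dart := ⟨(u, v), he⟩
    have : {j | s(u, v) ∈ {e | ∃ x : G.Dart, x.edge = e ∧ m j x ≠ 0}} = {j | m j d ≠ 0} :=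
      Set.ext fun j => hS j d
    rw [this, Set.ncard_eq_toFinset_card', Set.toFinset_ofPred]
    have a1 := h3 (d, 0)
    have a2 : L = List.ofFn m := by
      apply List.ext_getElem (by simp [h1])
      intro i _ _
      rw [List.getElem_ofFn]
    have a3 := Finset.card_filter_add_card_filter_not (s := Finset.univ) fun j => m j d = 0
    have a4 : (Finset.univ.filter fun j => m j d = 0).card = K := by
      rw [a2, List.ofFn_eq_map, List.countP_map, List.countP_eq_length_filter] at a1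
      refine Eq.trans ?_ a1
      rw [← List.toFinset_card_of_nodup ((List.nodup_finRange _).filter _)]
      congr 1
      ext j
      simp
    rw [Finset.card_univ, Fintype.card_fin] at a3
    change (Finset.univ.filter fun j => ¬ m j d = 0).card = _
    omega

end Pool.Agent.P.MP_40718a_co
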