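import Pool.Agent.P.MP_40718a_co.BT

/-! Winning blocks of traces with a target vector. -/

namespace Pool.Agent.P.MP_40718a_co.U

open List

/-- An abstract side of a cut with an additive weight kept by switching. -/
structure Sy (k : ℕ) (Λ : Type) [AddCommMonoid Λ] where
  /-- matchings -/
  M : Type
  /-- trace on the cut -/
  Tr : M → ℕ → Prop
  /-- weight -/
  wt : M → Λ
  kempe : ∀ A B a b, Tr A a → Tr B b → ∃ π ∈ genm k (bitsOf k (a ^^^ b)), ∀ n, ∃ A' B',
    Tr A' (a ^^^ sub π n) ∧ Tr B' (b ^^^ sub π n) ∧ wt A' + wt B' = wt A + wt B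

lemma split_pr : ∀ (xs : List ℕ), (∀ x ∈ xs, x < 512) → ∀ a b, (xs.map pr).prod = a * b →
    ∃ ys zs, xs.Perm (ys ++ zs) ∧ (ys.map pr).prod = a ∧ (zs.map pr).prod = b := by
  intro xs
  induction xs with
  | nil =>
    intro _ a b h
    have h1 : a * b = 1 := by simpa using h.symm
    exact ⟨[], [], by simp, by simp [Nat.eq_one_of_mul_eq_one_right h1],
      by simp [Nat.eq_one_of_mul_eq_one_left h1]⟩
  | cons x xs ih =>
    intro hx a b h
    have hp := pr_prime (hx x mem_cons_self)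
    rw [map_cons, prod_cons] at h
    rcases (Nat.Prime.dvd_mul hp).1 (h ▸ Dvd.intro _ rfl) with ⟨c, rfl⟩ | ⟨c, rfl⟩
    · obtain ⟨ys, zs, h1, h2, h3⟩ := ih (fun y hy => hx y (mem_cons_of_mem _ hy)) c b
        (Nat.eq_of_mul_eq_mul_left hp.pos (by rw [h]; ring))
      exact ⟨x :: ys, zs, h1.cons x, by simp [h2], h3⟩
    · obtain ⟨ys, zs, h1, h2, h3⟩ := ih (fun y hy => hx y (mem_cons_of_mem _ hy)) a c
        (Nat.eq_of_mul_eq_mul_left hp.pos (by rw [h]; ring))
      exact ⟨ys, x :: zs, (h1.cons x).trans perm_middle.symm, h2, by simp [h3]⟩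

/-- Bit `e` of `c`. -/
def bit (c e : ℕ) : ℕ := Nat.mod (Nat.shiftRight c e) (nat_lit 2)

lemma bit_eq (c e : ℕ) : bit c e = if c.testBit e = true then 1 else 0 := by
  change c >>> e % 2 = _
  rw [Nat.testBit_eq_decide_div_mod_eq, Nat.shiftRight_eq_div_pow]
  rcases Nat.mod_two_eq_zero_or_one (c / 2 ^ e) with a | a <;> simp [a]

lemma sum_bit (f : ℕ → ℕ) (e : ℕ) (l : List ℕ) :
    (l.map fun i => bit (f i) e).sum = l.countP fun i => (f i).testBit e := by
  induction l with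
  | nil => rfl
  | cons a l ih => rw [map_cons, sum_cons, ih, countP_cons, bit_eq, add_comm]

/-- Digits `a j` in base 32. -/
noncomputable def sp (a : ℕ → ℕ) (m : ℕ) : ℕ := Nat.rec 0 (fun j ih => ih + a j * 32 ^ j) m

lemma sp_succ (a : ℕ → ℕ) (m : ℕ) : sp a (m + 1) = sp a m + a m * 32 ^ m := rfl

lemma sp_lt {a : ℕ → ℕ} : ∀ {m}, (∀ j < m, a j < 32) → sp a m < 32 ^ m
  | 0, _ => by simp [sp]
  | m + 1, h => by
    have h1 := sp_lt (m := m) fun j hj => h j (by omega)
    have h2 : a m * 32 ^ m ≤ 31 * 32 ^ m := Nat.mul_le_mul_right _ (by have := h m (by omega); omega)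
    rw [sp_succ, pow_succ]
    omega

lemma sp_inj {a b : ℕ → ℕ} : ∀ {m}, (∀ j < m, a j < 32) → (∀ j < m, b j < 32) → sp a m = sp b m →
    ∀ j < m, a j = b j
  | 0, _, _, _ => by simp
  | m + 1, ha, hb, h => by
    have h1 := sp_lt (m := m) fun j hj => ha j (by omega)
    have h2 := sp_lt (m := m) fun j hj => hb j (by omega)
    rw [sp_succ, sp_succ] at h
    have h3 := congrArg (· / 32 ^ m) h
    simp only [Nat.add_mul_div_right _ _ (show 0 < 32 ^ m by positivity), Nat.div_eq_of_lt h1,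
      Nat.div_eq_of_lt h2, zero_add] at h3
    rw [h3] at h
    intro j hj
    rcases Nat.lt_succ_iff_lt_or_eq.1 hj with c | rfl
    · exact sp_inj (fun j hj => ha j (by omega)) (fun j hj => hb j (by omega)) (by omega) j c
    · exact h3

lemma sp_sum (a : ℕ → ℕ → ℕ) (l : List ℕ) (m : ℕ) :
    (l.map fun i => sp (a i) m).sum = sp (fun j => (l.map fun i => a i j).sum) m := by
  induction m with
  | zero => simp [sp]
  | succ m ih => simp only [sp_succ, sum_map_add, ih, sum_map_mul_right]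

lemma sp_congr {a b : ℕ → ℕ} {m : ℕ} (h : ∀ j < m, a j = b j) : sp a m = sp b m := by
  induction m with
  | zero => rfl
  | succ m ih => rw [sp_succ, sp_succ, ih fun j hj => h j (by omega), h m (by omega)]

lemma sp_const (c m : ℕ) : sp (fun _ => c) m = c * sp (fun _ => 1) m := by
  induction m with
  | zero => rfl
  | succ m ih => rw [sp_succ, sp_succ, ih]; ring

namespace Sy
variable {k : ℕ} {Λ : Type} [AddCommMonoid Λ] (S : Sy k Λ) (len : ℕ) (cd : ℕ → ℕ)
  {Z : Type} [AddCommMonoid Z] (ζ : ℕ → Z)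

/-- The system of lists with a fixed total weight. -/
def sys (W : Λ) : Sys k where
  M := S.M
  Tr := S.Tr
  Good := fun L => (L.map S.wt).sum = W
  perm := fun h hL => by rw [← (h.map _).sum_eq]; exact hL
  kempe := fun A B a b hA hB => by
    obtain ⟨π, h1, h2⟩ := S.kempe A B a b hA hB
    refine ⟨π, h1, fun n => ?_⟩
    obtain ⟨A', B', h3, h4, h5⟩ := h2 n
    refine ⟨A', B', h3, h4, fun L hL => ?_⟩
    simp only [map_cons, sum_cons, ← add_assoc] at hL ⊢
    rwa [h5]

/-- Matchings of total weight `W` that extend with value `z`. -/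
def Out (n : ℕ) (W : Λ) (z : Z) : Prop := ∃ L is, Forall₂ (fun m i => i < len ∧ S.Tr m (cd i % 2 ^ k)) L is ∧
  is.length = n ∧ (L.map S.wt).sum = W ∧ (is.map ζ).sum = z

/-- The traces can always be switched to an extension with value `z`. -/
def Win (xs : List ℕ) (z : Z) : Prop :=
  ∀ L, Forall₂ S.Tr L xs → S.Out len cd ζ xs.length (L.map S.wt).sum z

variable {S len cd ζ}

lemma Win.perm {xs ys : List ℕ} {z : Z} (h : S.Win len cd ζ xs z) (hp : xs.Perm ys) :
    S.Win len cd ζ ys z := by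
  intro L hL
  obtain ⟨L', h1, h2⟩ := (S.sys 0).exists_perm hL hp.symm
  rw [← hp.length_eq, show (L.map S.wt).sum = (L'.map S.wt).sum from (h1.map S.wt).sum_eq]
  exact h L' h2

lemma win_nil : S.Win len cd ζ [] 0 := by
  intro L hL
  cases hL
  exact ⟨[], [], .nil, rfl, rfl, rfl⟩

lemma Win.append {xs ys : List ℕ} {z z' : Z} (h : S.Win len cd ζ xs z) (h' : S.Win len cd ζ ys z') :
    S.Win len cd ζ (xs ++ ys) (z + z') := by
  intro L hL
  obtain ⟨L1, i1, a1, a2, a3, a4⟩ := h _ (forall₂_take_append L xs ys hL)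
  obtain ⟨L2, i2, b1, b2, b3, b4⟩ := h' _ (forall₂_drop_append L xs ys hL)
  refine ⟨L1 ++ L2, i1 ++ i2, rel_append a1 b1, by simp [a2, b2], ?_, by simp [a4, b4]⟩
  rw [map_append, sum_append, a3, b3, ← sum_append, ← map_append, take_append_drop]

lemma win_one {i : ℕ} (hi : i < len) : S.Win len cd ζ [cd i % 2 ^ k] (ζ i) := by
  intro L hL
  cases hL with
  | cons h hL =>
  cases hL
  exact ⟨[_], [i], .cons ⟨hi, h⟩ .nil, rfl, rfl, by simp⟩

lemma win_move {a b : ℕ} {xs : List ℕ} {z : Z} (h : ∀ π ∈ genm k (bitsOf k (a ^^^ b)), ∃ n,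
    S.Win len cd ζ ((a ^^^ sub π n) :: (b ^^^ sub π n) :: xs) z) :
    S.Win len cd ζ (a :: b :: xs) z := by
  intro L hL
  cases hL with
  | cons hA hL =>
  cases hL with
  | cons hB hL =>
  obtain ⟨π, h1, h2⟩ := S.kempe _ _ a b hA hB
  obtain ⟨n, hn⟩ := h π h1
  obtain ⟨A', B', h3, h4, h5⟩ := h2 n
  have := hn _ (.cons h3 (.cons h4 hL))
  simp only [map_cons, sum_cons, ← add_assoc, length_cons] at this ⊢
  rwa [← h5]

lemma win_old {C : Tab} {S : Sy C.k Λ} {N m : ℕ} {F : ℕ → ℕ} (hF : ∀ j < m, F j < N)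
    (hsw : swOK C.k C.sw = true) (hX : Cov (C.ckX (extC C.k N len cd)) C.nX) (hW : Cov C.ckW C.nW)
    {xs : List ℕ} {i : ℕ} (h : C.lookX (xs.map pr).prod 1024 i = true) :
    S.Win len cd (fun i => sp (fun j => bit (cd i) (F j)) m) xs (2 * sp (fun _ => 1) m) := by
  intro L hL
  by_contra hc
  have hl : xs.length = 6 := by
    simp only [Tab.lookX, an_eq, force_eq, Nat.blt_eq, Nat.beq_eq] at h
    obtain ⟨w, hw⟩ := hX i h.1
    simp only [Tab.ckX, an_eq, force_eq, Nat.beq_eq] at hw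
    exact (perm_of_pr (l' := [fld w 0, fld w 9, fld w 18, fld w 27, fld w 36, fld w 45])
      (by rw [← h.2.1, hw.1]; simp) (by simp [fld_lt])).length_eq
  refine (C.sound (S.sys (L.map S.wt).sum) hsw ?_ hX hW 1024).1 xs i h ⟨L, hL, rfl⟩
  rintro ys w y1 y2 ⟨L', y3, y4⟩
  unfold extC at y2
  generalize [fld w (nat_lit 0), fld w (nat_lit 9), fld w (nat_lit 18),
    fld w (nat_lit 27), fld w (nat_lit 36), fld w (nat_lit 45)] = wit at y2
  simp only [extL, Bool.and_eq_true, all_eq_true, Nat.blt_eq, beq_iff_eq] at y2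
  obtain ⟨⟨y5, rfl⟩, y6⟩ := y2
  refine hc ⟨L', wit, ?_, by simpa [hl] using y1, y4, ?_⟩
  · rw [forall₂_map_right_iff] at y3
    exact (forall₂_and_left (p := fun _ => True) _ _).1 (by
      refine forall₂_iff_zip.2 ⟨y3.length_eq, fun hab => ⟨trivial, y5 _ (of_mem_zip hab).2,
        (forall₂_iff_zip.1 y3).2 hab⟩⟩) |>.2
  · rw [sp_sum, ← sp_const]
    refine sp_congr fun j hj => ?_
    have := twice_spec _ _ _ y6 _ (hF j hj) (by simp)
    simp only [mult, Nat.zero_testBit, Bool.false_eq_true, if_false, zero_add, countP_map] at this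
    rw [sum_bit]
    exact this

lemma Win.digits {m : ℕ} {F : ℕ → ℕ} {xs : List ℕ} {c : ℕ} (hl : xs.length < 32) (hc : c < 32)
    (h : S.Win len cd (fun i => sp (fun j => bit (cd i) (F j)) m) xs (c * sp (fun _ => 1) m)) :
    S.Win len cd (fun i (j : Fin m) => bit (cd i) (F j)) xs (fun _ => c) := by
  intro L hL
  obtain ⟨L', is, h1, h2, h3, h4⟩ := h L hL
  refine ⟨L', is, h1, h2, h3, funext fun j => ?_⟩
  rw [sp_sum, ← sp_const] at h4
  have := sp_inj (fun j _ => by rw [sum_bit]; exact countP_le_length.trans_lt (h2 ▸ hl))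
    (fun _ _ => hc) h4 j j.2
  rw [← this]
  exact (map_list_sum (Pi.evalAddMonoidHom (fun _ : Fin m => ℕ) j) _).trans (by simp; rfl)

end Sy

end Pool.Agent.P.MP_40718a_co.U
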